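import Mathlib

/-!
# AC-BP: Bernoulli product measures, weighted cylinder statistics (definitions)

`I` is a finite set of independent Bernoulli variables, `p i` the probability that variable `i` is
`true`. A *statistic* is a finite sum of nonnegative weights times indicators of cylinder events
(all variables of `D` are true, all variables of `C` are false).
-/

set_option autoImplicit false

open Finset
open scoped Classical

namespace Pool.Agent.H77.AC

section

variable {I : Type} [Fintype I] [DecidableEq I]

/-- weight of an outcome -/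
noncomputable def wt (p : I → ℝ) (ω : I → Bool) : ℝ := ∏ i, if ω i = true then p i else 1 - p i

/-- probability of an event -/
noncomputable def Pr (p : I → ℝ) (A : (I → Bool) → Prop) : ℝ := ∑ ω, if A ω then wt p ω else 0

/-- the cylinder event: all of `D` true, all of `C` false -/
def Cyl (D C : Finset I) (ω : I → Bool) : Prop := (∀ i ∈ D, ω i = true) ∧ ∀ i ∈ C, ω i = false

/-- weighted sum of cylinder events -/
structure Stat (I : Type) where
  ι : Type
  fin : Fintype ι
  w : ι → ℝ
  D : ι → Finset I
  C : ι → Finset I
  nn : ∀ i, 0 ≤ w i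

attribute [instance] Stat.fin

/-- value of the statistic -/
noncomputable def Stat.val (X : Stat I) (ω : I → Bool) : ℝ :=
  ∑ i, if Cyl (X.D i) (X.C i) ω then X.w i else 0

/-- the variables on which the statistic depends -/
noncomputable def Stat.supp (X : Stat I) : Finset I :=
  (univ.filter (fun i => X.w i ≠ 0)).biUnion (fun i => X.D i ∪ X.C i)

/-- conditional probability of the cylinder `(D, C)` given the cylinder `(D₀, C₀)` -/
noncomputable def cnd (p : I → ℝ) (D₀ C₀ D C : Finset I) : ℝ :=
  if Disjoint (D₀ ∪ D) (C₀ ∪ C) then (∏ i ∈ D \ D₀, p i) * ∏ i ∈ C \ C₀, (1 - p i) else 0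

/-- for every consistent history of at most `s` indices the conditional expectation of the statistic
is at most `μ` -/
def Stat.Bdd (p : I → ℝ) (X : Stat I) (s : ℕ) (μ : ℝ) : Prop :=
  ∀ h : Finset X.ι, h.card ≤ s → (∀ i ∈ h, X.w i ≠ 0) →
    Disjoint (h.biUnion X.D) (h.biUnion X.C) →
    ∑ i, X.w i * cnd p (h.biUnion X.D) (h.biUnion X.C) (X.D i) (X.C i) ≤ μ

/-- a family of statistics with thresholds -/
structure Famly (I : Type) where
  J : Type
  fin : Fintype J
  X : J → Stat I
  lam : J → ℝ

attribute [instance] Famly.fin

/-- tail probabilities at most `q`, supports of size at most `M`, every variable in at most `M`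
supports -/
def Famly.OK (p : I → ℝ) (q : ℝ) (M : ℕ) (F : Famly I) : Prop :=
  (∀ j, Pr p (fun ω => F.lam j ≤ (F.X j).val ω) ≤ q) ∧
  (∀ j, (F.X j).supp.card ≤ M) ∧
  (∀ i, (univ.filter (fun j => i ∈ (F.X j).supp)).card ≤ M)

end

end Pool.Agent.H77.AC
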