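import Pool.Agent.H77.AC.Cyl

/-!
# AC-LLL: symmetric local lemma for the Bernoulli product measure

`lll`: events `A j` (`j ∈ J` finite), `A j` determined by the variables in `S j`,
`Pr (A j) ≤ q`, every `S j` meets at most `N` of the sets `S j'`, `1 ≤ N`, `4 q N ≤ 1`. Then some outcome
avoids all events.

Proof (standard). `indep`: if `A` is determined by `S` and `B` by `T`, `S` and `T` disjoint, then
`Pr (A ∧ B) = Pr A * Pr B` (split `I → Bool` as outcomes on `S` and on the complement, or: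
resampling bijection `(ω, ω') ↦ (ω on S and ω' off S, ω' on S and ω off S)` on pairs, which preserves
`wt ω * wt ω'`; with `∑ wt = 1` this gives
`Pr (A ∧ B) = ∑_{ω,ω'} wt wt' 1[A ω ∧ B ω] = ∑ wt wt' 1[A ω ∧ B ω'] = Pr A Pr B`).
For `T ⊆ J` let `P(T) = Pr (no A j, j ∈ T)`. Claim by strong induction on `|T|`:
`0 < P(T)` and for every `j ∉ T`: `Pr (A j ∧ no A i, i ∈ T) ≤ 2 q P(T)`.
Let `T₁ = {i ∈ T : S i meets S j}`, `T₂ = T \ T₁`; if `T₁ = ∅`:
`Pr (A j ∧ none of T) = Pr (A j) P(T) ≤ q P(T)` (if `S j = ∅` too). Otherwise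
`Pr (A j ∧ none of T) ≤ Pr (A j ∧ none of T₂) = Pr (A j) P(T₂) ≤ q P(T₂)`, and
`P(T) ≥ P(T₂) - ∑_{i ∈ T₁} Pr (A i ∧ none of T₂) ≥ P(T₂) (1 - 2 q |T₁|) ≥ P(T₂)/2`
(`|T₁| ≤ N`; `|T₂| < |T|`), so `q P(T₂) ≤ 2 q P(T)`. Positivity of `P(insert j T)`:
`≥ P(T)(1 - 2q) > 0` since `q ≤ 1/4`.

`core`: combine with the families: `J = Σ t, (F t).J`, `S = supp`; a set `S j` of size `≤ M` meets at
most `M * (T * M)` supports; `A j = (lam j ≤ val j)`.
-/

set_option autoImplicit false

open Finset
open scoped Classical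

namespace Pool.Agent.H77.AC

variable {I : Type} [Fintype I] [DecidableEq I]

theorem indep_lll_wt_swap (p : I → ℝ) (S : Finset I) (x y : I → Bool) :
    wt p (S.piecewise x y) * wt p (S.piecewise y x) = wt p x * wt p y := by
  unfold wt
  rw [← Finset.prod_mul_distrib, ← Finset.prod_mul_distrib]
  refine Finset.prod_congr rfl (fun i _ => ?_)
  by_cases h : i ∈ S
  · rw [Finset.piecewise_eq_of_mem _ _ _ h, Finset.piecewise_eq_of_mem _ _ _ h]
  · rw [Finset.piecewise_eq_of_notMem _ _ _ h, Finset.piecewise_eq_of_notMem _ _ _ h, mul_comm]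

theorem indep (p : I → ℝ) (A B : (I → Bool) → Prop) (S T : Finset I) (hST : Disjoint S T)
    (hA : ∀ ω ω', (∀ i ∈ S, ω i = ω' i) → (A ω ↔ A ω'))
    (hB : ∀ ω ω', (∀ i ∈ T, ω i = ω' i) → (B ω ↔ B ω')) :
    Pr p (fun ω => A ω ∧ B ω) = Pr p A * Pr p B := by
  classical
  let φ : (I → Bool) × (I → Bool) → (I → Bool) × (I → Bool) :=
    fun x => (S.piecewise x.1 x.2, S.piecewise x.2 x.1)
  have hφ : Function.Involutive φ := by
    rintro ⟨x, y⟩
    refine Prod.ext ?_ ?_
    · funext i
      by_cases h : i ∈ S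
      · simp [φ, h]
      · simp [φ, h]
    · funext i
      by_cases h : i ∈ S
      · simp [φ, h]
      · simp [φ, h]
  have e1 : Pr p (fun ω => A ω ∧ B ω)
      = ∑ x : (I → Bool) × (I → Bool), (if A x.1 ∧ B x.1 then wt p x.1 * wt p x.2 else 0) := by
    rw [Fintype.sum_prod_type]
    unfold Pr
    refine Finset.sum_congr rfl (fun ω _ => ?_)
    by_cases h : A ω ∧ B ω
    · simp only [if_pos h]
      rw [← Finset.mul_sum, sum_wt, mul_one]
    · simp only [if_neg h, Finset.sum_const_zero]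
  have e2 : Pr p A * Pr p B
      = ∑ x : (I → Bool) × (I → Bool), (if A x.1 ∧ B x.2 then wt p x.1 * wt p x.2 else 0) := by
    rw [Fintype.sum_prod_type]
    unfold Pr
    rw [Finset.sum_mul_sum]
    refine Finset.sum_congr rfl (fun ω _ => Finset.sum_congr rfl (fun ω' _ => ?_))
    by_cases h1 : A ω
    · by_cases h2 : B ω'
      · simp [h1, h2]
      · simp [h1, h2]
    · simp [h1]
  rw [e1, e2]
  rw [← Equiv.sum_comp hφ.toPerm]
  refine Finset.sum_congr rfl (fun x _ => ?_)
  have hA' : A (S.piecewise x.1 x.2) ↔ A x.1 :=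
    hA _ _ (fun i hi => Finset.piecewise_eq_of_mem _ _ _ hi)
  have hB' : B (S.piecewise x.1 x.2) ↔ B x.2 :=
    hB _ _ (fun i hi => Finset.piecewise_eq_of_notMem _ _ _
      (fun h => (Finset.disjoint_left.mp hST h hi)))
  have hc : (A (S.piecewise x.1 x.2) ∧ B (S.piecewise x.1 x.2)) ↔ (A x.1 ∧ B x.2) := by
    rw [hA', hB']
  show (if A (S.piecewise x.1 x.2) ∧ B (S.piecewise x.1 x.2)
      then wt p (S.piecewise x.1 x.2) * wt p (S.piecewise x.2 x.1) else 0) = _
  rw [indep_lll_wt_swap]
  by_cases h : A x.1 ∧ B x.2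
  · rw [if_pos h, if_pos (hc.mpr h)]
  · rw [if_neg h, if_neg (fun hh => h (hc.mp hh))]

/-- probability that no event of `T` occurs -/
noncomputable def lllNone {J : Type} (p : I → ℝ) (A : J → (I → Bool) → Prop) (T : Finset J) : ℝ :=
  Pr p (fun ω => ∀ i ∈ T, ¬ A i ω)

theorem lll_none_empty {J : Type} (p : I → ℝ) (A : J → (I → Bool) → Prop) :
    lllNone p A ∅ = 1 := by
  unfold lllNone Pr
  rw [← sum_wt p]
  refine Finset.sum_congr rfl (fun ω _ => ?_)
  rw [if_pos]
  intro i hi
  simp at hi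

theorem lll_none_insert {J : Type} [DecidableEq J] (p : I → ℝ) (A : J → (I → Bool) → Prop)
    (T : Finset J) (j : J) :
    lllNone p A (insert j T) + Pr p (fun ω => A j ω ∧ ∀ i ∈ T, ¬ A i ω) = lllNone p A T := by
  unfold lllNone Pr
  rw [← Finset.sum_add_distrib]
  refine Finset.sum_congr rfl (fun ω _ => ?_)
  by_cases h1 : A j ω
  · by_cases h2 : ∀ i ∈ T, ¬ A i ω
    · rw [if_neg, if_pos ⟨h1, h2⟩, if_pos h2, zero_add]
      intro h
      exact h j (Finset.mem_insert_self _ _) h1
    · rw [if_neg, if_neg (fun h => h2 h.2), if_neg h2, add_zero]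
      intro h
      exact h j (Finset.mem_insert_self _ _) h1
  · by_cases h2 : ∀ i ∈ T, ¬ A i ω
    · rw [if_pos, if_neg (fun h => h1 h.1), if_pos h2, add_zero]
      intro i hi
      rcases Finset.mem_insert.mp hi with rfl | hi
      · exact h1
      · exact h2 i hi
    · rw [if_neg, if_neg (fun h => h2 h.2), if_neg h2, add_zero]
      intro h
      exact h2 (fun i hi => h i (Finset.mem_insert_of_mem hi))

theorem lll_union {J : Type} [DecidableEq J] (p : I → ℝ) (hp : ∀ i, 0 ≤ p i ∧ p i ≤ 1)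
    (A : J → (I → Bool) → Prop) (T T₁ T₂ : Finset J) (hT : T ⊆ T₁ ∪ T₂) :
    lllNone p A T₂ ≤ lllNone p A T
      + ∑ i ∈ T₁, Pr p (fun ω => A i ω ∧ ∀ k ∈ T₂, ¬ A k ω) := by
  unfold lllNone Pr
  rw [Finset.sum_comm, ← Finset.sum_add_distrib]
  refine Finset.sum_le_sum (fun ω _ => ?_)
  have hw := wt_nonneg p hp ω
  have hnn : ∀ i ∈ T₁, (0 : ℝ) ≤ @ite ℝ ((fun ω => A i ω ∧ ∀ k ∈ T₂, ¬ A k ω) ω)
      (Classical.propDecidable _) (wt p ω) 0 := by
    intro i _
    split_ifs
    · exact hw
    · exact le_rfl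
  by_cases h2 : ∀ i ∈ T₂, ¬ A i ω
  · rw [if_pos h2]
    by_cases h : ∀ i ∈ T, ¬ A i ω
    · rw [if_pos h]
      have := Finset.sum_nonneg hnn
      linarith
    · rw [if_neg h, zero_add]
      push Not at h
      obtain ⟨i, hi, hiA⟩ := h
      have hi1 : i ∈ T₁ := by
        rcases Finset.mem_union.mp (hT hi) with h1 | h1
        · exact h1
        · exact absurd hiA (h2 i h1)
      have := Finset.single_le_sum hnn hi1
      rw [if_pos ⟨hiA, h2⟩] at this
      exact this
  · rw [if_neg h2]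
    have := Finset.sum_nonneg hnn
    split_ifs <;> linarith

theorem lll (p : I → ℝ) (hp : ∀ i, 0 ≤ p i ∧ p i ≤ 1) {J : Type} [Fintype J]
    (A : J → (I → Bool) → Prop) (S : J → Finset I)
    (hdet : ∀ j ω ω', (∀ i ∈ S j, ω i = ω' i) → (A j ω ↔ A j ω'))
    (q : ℝ) (hq : ∀ j, Pr p (A j) ≤ q) (N : ℕ) (hN1 : 1 ≤ N)
    (hN : ∀ j, (univ.filter (fun j' => ¬ Disjoint (S j) (S j'))).card ≤ N)
    (h4 : 4 * q * N ≤ 1) :
    ∃ ω, ∀ j, ¬ A j ω := by
  classical
  have hNr : (1 : ℝ) ≤ N := by exact_mod_cast hN1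
  have claim : ∀ n : ℕ, ∀ T : Finset J, T.card = n → 0 < lllNone p A T ∧
      ∀ j, j ∉ T → Pr p (fun ω => A j ω ∧ ∀ i ∈ T, ¬ A i ω) ≤ 2 * q * lllNone p A T := by
    intro n
    induction n using Nat.strong_induction_on with
    | _ n ih =>
      intro T hTn
      have hpos : 0 < lllNone p A T := by
        rcases T.eq_empty_or_nonempty with rfl | ⟨j, hj⟩
        · rw [lll_none_empty]; exact one_pos
        · have hlt : (T.erase j).card < n := by
            rw [← hTn]; exact Finset.card_erase_lt_of_mem hj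
          obtain ⟨h1, h2⟩ := ih _ hlt (T.erase j) rfl
          have h3 := h2 j (Finset.notMem_erase j T)
          have h5 := lll_none_insert p A (T.erase j) j
          rw [Finset.insert_erase hj] at h5
          have hq0 : 0 ≤ q := le_trans (Pr_nonneg p hp _) (hq j)
          have hq4 : 4 * q ≤ 1 := by nlinarith
          nlinarith
      refine ⟨hpos, fun j hj => ?_⟩
      have hq0 : 0 ≤ q := le_trans (Pr_nonneg p hp _) (hq j)
      have hq4 : 4 * q ≤ 1 := by nlinarith
      set T₁ := T.filter (fun i => ¬ Disjoint (S j) (S i)) with hT₁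
      set T₂ := T.filter (fun i => Disjoint (S j) (S i)) with hT₂
      have hind : Pr p (fun ω => A j ω ∧ ∀ i ∈ T₂, ¬ A i ω) = Pr p (A j) * lllNone p A T₂ := by
        refine indep p (A j) (fun ω => ∀ i ∈ T₂, ¬ A i ω) (S j) (T₂.biUnion S) ?_ (hdet j) ?_
        · rw [Finset.disjoint_biUnion_right]
          intro i hi
          exact (Finset.mem_filter.mp hi).2
        · intro ω ω' h
          constructor
          · intro hh i hi hA
            exact hh i hi ((hdet i ω ω' (fun k hk => h k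
              (Finset.mem_biUnion.mpr ⟨i, hi, hk⟩))).mpr hA)
          · intro hh i hi hA
            exact hh i hi ((hdet i ω ω' (fun k hk => h k
              (Finset.mem_biUnion.mpr ⟨i, hi, hk⟩))).mp hA)
      rcases T₁.eq_empty_or_nonempty with he | hne
      · have hTT : T₂ = T := by
          rw [hT₂]
          refine Finset.filter_true_of_mem (fun i hi => ?_)
          by_contra hcon
          have : i ∈ T₁ := Finset.mem_filter.mpr ⟨hi, hcon⟩
          rw [he] at this
          simp at this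
        rw [hTT] at hind
        rw [hind]
        have := hq j
        nlinarith
      · have hlt : T₂.card < n := by
          rw [← hTn]
          refine Finset.card_lt_card ?_
          refine ⟨Finset.filter_subset _ _, fun hsub => ?_⟩
          obtain ⟨i, hi⟩ := hne
          have h1 := Finset.mem_filter.mp hi
          have h2 := Finset.mem_filter.mp (hsub h1.1)
          exact h1.2 h2.2
        obtain ⟨hP2, hrec⟩ := ih _ hlt T₂ rfl
        have hle : Pr p (fun ω => A j ω ∧ ∀ i ∈ T, ¬ A i ω)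
            ≤ Pr p (fun ω => A j ω ∧ ∀ i ∈ T₂, ¬ A i ω) :=
          Pr_mono p hp _ _ (fun ω h => ⟨h.1, fun i hi => h.2 i (Finset.filter_subset _ _ hi)⟩)
        have hU := lll_union p hp A T T₁ T₂ (by
          intro i hi
          by_cases h : Disjoint (S j) (S i)
          · exact Finset.mem_union_right _ (Finset.mem_filter.mpr ⟨hi, h⟩)
          · exact Finset.mem_union_left _ (Finset.mem_filter.mpr ⟨hi, h⟩))
        have hsum : ∑ i ∈ T₁, Pr p (fun ω => A i ω ∧ ∀ k ∈ T₂, ¬ A k ω)
            ≤ (T₁.card : ℝ) * (2 * q * lllNone p A T₂) := by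
          rw [← nsmul_eq_mul]
          refine Finset.sum_le_card_nsmul _ _ _ (fun i hi => hrec i (fun h => ?_))
          exact (Finset.mem_filter.mp hi).2 (Finset.mem_filter.mp h).2
        have hcard : (T₁.card : ℝ) ≤ N := by
          have : T₁.card ≤ N := le_trans (Finset.card_le_card (by
            intro i hi
            exact Finset.mem_filter.mpr ⟨Finset.mem_univ _, (Finset.mem_filter.mp hi).2⟩)) (hN j)
          exact_mod_cast this
        have hT1c : (T₁.card : ℝ) * (2 * q * lllNone p A T₂) ≤ lllNone p A T₂ / 2 := by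
          have h1 : (T₁.card : ℝ) * (2 * q) ≤ 1 / 2 := by nlinarith
          calc (T₁.card : ℝ) * (2 * q * lllNone p A T₂)
              = ((T₁.card : ℝ) * (2 * q)) * lllNone p A T₂ := by ring
            _ ≤ (1 / 2) * lllNone p A T₂ := mul_le_mul_of_nonneg_right h1 hP2.le
            _ = lllNone p A T₂ / 2 := by ring
        have hhalf : lllNone p A T₂ ≤ 2 * lllNone p A T := by linarith
        calc Pr p (fun ω => A j ω ∧ ∀ i ∈ T, ¬ A i ω)
            ≤ Pr p (A j) * lllNone p A T₂ := by rw [← hind]; exact hle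
          _ ≤ q * lllNone p A T₂ := mul_le_mul_of_nonneg_right (hq j) hP2.le
          _ ≤ q * (2 * lllNone p A T) := mul_le_mul_of_nonneg_left hhalf hq0
          _ = 2 * q * lllNone p A T := by ring
  have hfin := (claim _ (univ : Finset J) rfl).1
  by_contra hcon
  push Not at hcon
  have hz : lllNone p A (univ : Finset J) = 0 := by
    unfold lllNone Pr
    refine Finset.sum_eq_zero (fun ω _ => ?_)
    rw [if_neg]
    intro h
    obtain ⟨j, hj⟩ := hcon ω
    exact h j (Finset.mem_univ _) hj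
  rw [hz] at hfin
  exact lt_irrefl _ hfin

theorem core (p : I → ℝ) (hp : ∀ i, 0 ≤ p i ∧ p i ≤ 1) {T : ℕ} (F : Fin T → Famly I) (q : ℝ)
    (M : ℕ) (hM : 1 ≤ M) (h : ∀ t, (F t).OK p q M) (h4 : 4 * q * (T * M * M : ℕ) ≤ 1) :
    ∃ ω, ∀ t j, ((F t).X j).val ω < (F t).lam j := by
  classical
  rcases Nat.eq_zero_or_pos T with rfl | hT
  · exact ⟨fun _ => true, fun t => t.elim0⟩
  let J := Σ t : Fin T, (F t).J
  let A : J → (I → Bool) → Prop := fun x ω => (F x.1).lam x.2 ≤ ((F x.1).X x.2).val ω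
  let S : J → Finset I := fun x => ((F x.1).X x.2).supp
  have hfin : ∃ ω, ∀ x : J, ¬ A x ω := by
    refine lll p hp A S ?_ q ?_ (T * M * M) ?_ ?_ h4
    · rintro ⟨t, j⟩ ω ω' hω
      show (F t).lam j ≤ ((F t).X j).val ω ↔ (F t).lam j ≤ ((F t).X j).val ω'
      rw [val_congr ((F t).X j) ω ω' hω]
    · rintro ⟨t, j⟩
      exact (h t).1 j
    · exact Nat.one_le_iff_ne_zero.mpr (by positivity)
    · intro x
      have hsub : (univ.filter (fun x' : J => ¬ Disjoint (S x) (S x')))
          ⊆ (S x).biUnion (fun i => (univ : Finset (Fin T)).sigma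
            (fun t => (univ : Finset (F t).J).filter (fun j => i ∈ ((F t).X j).supp))) := by
        intro x' hx'
        have h1 := (Finset.mem_filter.mp hx').2
        rw [Finset.not_disjoint_iff] at h1
        obtain ⟨i, hi, hi'⟩ := h1
        rw [Finset.mem_biUnion]
        exact ⟨i, hi, Finset.mem_sigma.mpr ⟨Finset.mem_univ _,
          Finset.mem_filter.mpr ⟨Finset.mem_univ _, hi'⟩⟩⟩
      refine le_trans (Finset.card_le_card hsub) ?_
      refine le_trans Finset.card_biUnion_le ?_
      have h2 : ∀ i ∈ S x, ((univ : Finset (Fin T)).sigma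
            (fun t => (univ : Finset (F t).J).filter (fun j => i ∈ ((F t).X j).supp))).card
            ≤ T * M := by
        intro i _
        rw [Finset.card_sigma]
        calc ∑ t : Fin T, ((univ : Finset (F t).J).filter
              (fun j => i ∈ ((F t).X j).supp)).card ≤ ∑ _t : Fin T, M :=
              Finset.sum_le_sum (fun t _ => (h t).2.2 i)
          _ = T * M := by simp
      calc ∑ i ∈ S x, ((univ : Finset (Fin T)).sigma
            (fun t => (univ : Finset (F t).J).filter (fun j => i ∈ ((F t).X j).supp))).card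
          ≤ ∑ _i ∈ S x, T * M := Finset.sum_le_sum h2
        _ = (S x).card * (T * M) := by simp
        _ ≤ M * (T * M) := Nat.mul_le_mul_right _ ((h x.1).2.1 x.2)
        _ = T * M * M := by ring
  obtain ⟨ω, hω⟩ := hfin
  exact ⟨ω, fun t j => not_le.mp (hω ⟨t, j⟩)⟩

end Pool.Agent.H77.AC
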