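import Pool.Agent.H77.AC.Graph
import Pool.Agent.H77.AC.LLL

/-!
# AC-BALL: balls, locality, and a criterion for `Famly.OK`

`ballG G n v` = vertices at distance at most `n`. `bvar G K R v` = variables of pairs on edges of `G` with an end in the ball.

* `ball_card`: `≤ (Δ+1)^n` (induction, `card_biUnion_le`); `ball_mono`; `ball_self`; `ball_step`: `u ∈ ball n v`, `u ~ u'` imply
  `u' ∈ ball (n+1) v`; `ball_add`: `u ∈ ball n v`, `x ∈ ball k u` imply `x ∈ ball (n+k) v` (induction on `k`); `ball_symm`.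
* `bvar_card`: for each of the at most `(K+1)^R` vertices `u` of the ball at most `Δ ≤ K` edges, `K` colours, three kinds:
  `≤ 3 K K (K+1)^R`.
* `ok_mk`: probabilities: `tail` gives `(μ/lam)^s ≤ c^s`. Support: `bvar_card`. Counting: if `i = (t, (e, c))` is in
  the support of `j` then some end `u` of `e` is in `ball R (cen j)`, so `cen j ∈ ball R u` (`ball_symm`): at most
  `2 (K+1)^R` centres, each with at most `Mc` indices. (If `e` is not an edge no `j` contributes; `e` has at most two ends.)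
-/

set_option autoImplicit false

open Finset
open scoped Classical

namespace Pool.Agent.H77.AC

variable {V : Type} [Fintype V] [DecidableEq V] {K : ℕ}

/-- ball of radius `n` -/
noncomputable def ballG (G : SimpleGraph V) : ℕ → V → Finset V
  | 0, v => {v}
  | n + 1, v => (ballG G n v).biUnion (fun u => insert u (univ.filter (fun w => G.Adj u w)))

/-- variables near `v` -/
noncomputable def bvar (G : SimpleGraph V) (K R : ℕ) (v : V) : Finset (Fin 3 × PX V K) :=
  univ.filter (fun i => i.2.1 ∈ G.edgeSet ∧ ∃ u ∈ i.2.1, u ∈ ballG G R v)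

theorem ball_mem_succ (G : SimpleGraph V) (n : ℕ) (v w : V) :
    w ∈ ballG G (n + 1) v ↔ ∃ u ∈ ballG G n v, w = u ∨ G.Adj u w := by
  rw [ballG]
  simp only [mem_biUnion, mem_insert, mem_filter, mem_univ, true_and]

theorem ball_self (G : SimpleGraph V) (n : ℕ) (v : V) : v ∈ ballG G n v := by
  induction n with
  | zero => rw [ballG]; exact mem_singleton_self v
  | succ n ih => exact (ball_mem_succ G n v v).2 ⟨v, ih, Or.inl rfl⟩

theorem ball_mono (G : SimpleGraph V) {n k : ℕ} (h : n ≤ k) (v : V) :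
    ballG G n v ⊆ ballG G k v := by
  induction k, h using Nat.le_induction with
  | base => exact fun _ h => h
  | succ k _ ih =>
    intro x hx
    exact (ball_mem_succ G k v x).2 ⟨x, ih hx, Or.inl rfl⟩

theorem ball_step (G : SimpleGraph V) (n : ℕ) (u u' v : V) (h : u ∈ ballG G n v)
    (ha : G.Adj u u') : u' ∈ ballG G (n + 1) v :=
  (ball_mem_succ G n v u').2 ⟨u, h, Or.inr ha⟩

theorem ball_add (G : SimpleGraph V) (n k : ℕ) (v u x : V) (h : u ∈ ballG G n v)
    (hx : x ∈ ballG G k u) : x ∈ ballG G (n + k) v := by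
  induction k generalizing x with
  | zero =>
    rw [ballG, mem_singleton] at hx
    rw [hx]
    exact h
  | succ k ih =>
    rw [ball_mem_succ] at hx
    obtain ⟨y, hy, hx⟩ := hx
    rw [← Nat.add_assoc, ball_mem_succ]
    exact ⟨y, ih y hy, hx⟩

theorem ball_symm (G : SimpleGraph V) (n : ℕ) (u v : V) (h : u ∈ ballG G n v) :
    v ∈ ballG G n u := by
  induction n generalizing u with
  | zero =>
    rw [ballG, mem_singleton] at h ⊢
    exact h.symm
  | succ n ih =>
    rw [ball_mem_succ] at h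
    obtain ⟨y, hy, hx⟩ := h
    have h1 := ih y hy
    have h2 : y ∈ ballG G 1 u := by
      rw [ball_mem_succ]
      refine ⟨u, ball_self G 0 u, ?_⟩
      rcases hx with h3 | h3
      · exact Or.inl h3.symm
      · exact Or.inr h3.symm
    rw [Nat.add_comm]
    exact ball_add G 1 n u y v h2 h1

theorem ball_card (G : SimpleGraph V) (Δ : ℕ)
    (hΔ : ∀ v, (univ.filter (fun u => G.Adj v u)).card ≤ Δ) (n : ℕ) (v : V) :
    (ballG G n v).card ≤ (Δ + 1) ^ n := by
  induction n with
  | zero => rw [ballG, card_singleton, pow_zero]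
  | succ n ih =>
    rw [ballG]
    refine card_biUnion_le.trans ?_
    refine (sum_le_sum (g := fun _ => Δ + 1) ?_).trans ?_
    · intro u _
      exact (card_insert_le _ _).trans (Nat.succ_le_succ (hΔ u))
    · rw [sum_const, smul_eq_mul, pow_succ]
      exact Nat.mul_le_mul_right _ ih

theorem bvar_card (G : SimpleGraph V) (Δ : ℕ)
    (hΔ : ∀ v, (univ.filter (fun u => G.Adj v u)).card ≤ Δ) (hK : Δ ≤ K) (R : ℕ) (v : V) :
    (bvar G K R v).card ≤ 3 * K * K * (K + 1) ^ R := by
  have h1 : bvar G K R v ⊆ (ballG G R v).biUnion (fun u =>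
      ((univ : Finset (Fin 3)) ×ˢ (univ.filter (fun w => G.Adj u w)) ×ˢ
        (univ : Finset (Fin K))).image (fun t => (t.1, (s(u, t.2.1), t.2.2)))) := by
    intro i hi
    unfold bvar at hi
    rw [mem_filter] at hi
    obtain ⟨-, he, u, hu, hub⟩ := hi
    rw [mem_biUnion]
    refine ⟨u, hub, ?_⟩
    rw [mem_image]
    obtain ⟨w, hw⟩ := Sym2.mem_iff_exists.1 hu
    refine ⟨(i.1, w, i.2.2), ?_, ?_⟩
    · rw [mem_product, mem_product, mem_filter]
      refine ⟨mem_univ _, ⟨mem_univ _, ?_⟩, mem_univ _⟩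
      rw [hw] at he
      exact he
    · simp only
      rw [← hw]
  refine (card_le_card h1).trans (card_biUnion_le.trans ?_)
  refine (sum_le_sum (g := fun _ => 3 * K * K) ?_).trans ?_
  · intro u _
    refine card_image_le.trans ?_
    rw [card_product, card_product, card_univ, card_univ, Fintype.card_fin, Fintype.card_fin]
    have h2 := hΔ u
    nlinarith
  · rw [sum_const, smul_eq_mul, mul_comm]
    refine Nat.mul_le_mul_left _ ?_
    exact (ball_card G Δ hΔ R v).trans (Nat.pow_le_pow_left (by omega) _)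

theorem ok_mk (G : SimpleGraph V) (Δ : ℕ)
    (hΔ : ∀ v, (univ.filter (fun u => G.Adj v u)).card ≤ Δ) (hK : Δ ≤ K)
    (p : Fin 3 × PX V K → ℝ) (hp : ∀ i, 0 ≤ p i ∧ p i ≤ 1) (F : Famly (Fin 3 × PX V K))
    (s : ℕ) (c : ℝ) (hc : 0 ≤ c) (M : ℕ) (cen : F.J → V) (R Mc : ℕ)
    (hb : ∀ j, ∃ μ, 0 ≤ μ ∧ (F.X j).Bdd p s μ ∧ μ ≤ c * F.lam j ∧ 0 < F.lam j)
    (hs : ∀ j, (F.X j).supp ⊆ bvar G K R (cen j))
    (hcnt : ∀ v, (univ.filter (fun j => cen j = v)).card ≤ Mc)
    (hM1 : 3 * K * K * (K + 1) ^ R ≤ M) (hM2 : 2 * (K + 1) ^ R * Mc ≤ M) :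
    F.OK p (c ^ s) M := by
  refine ⟨?_, ?_, ?_⟩
  · intro j
    obtain ⟨μ, h0, h1, h2, h3⟩ := hb j
    have h4 := tail p hp (F.X j) s μ (F.lam j) h1 h0 h3
    refine h4.trans ?_
    refine pow_le_pow_left₀ (div_nonneg h0 h3.le) ?_ s
    rw [div_le_iff₀ h3]
    exact h2
  · intro j
    exact (card_le_card (hs j)).trans ((bvar_card G Δ hΔ hK R (cen j)).trans hM1)
  · intro i
    obtain ⟨W, hW⟩ : ∃ W : Finset V, W = univ.filter (fun u => u ∈ i.2.1) := ⟨_, rfl⟩
    have hWc : W.card ≤ 2 := by
      rw [hW]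
      induction h : i.2.1 using Sym2.ind with
      | _ x y =>
        refine (card_le_card (t := {x, y}) ?_).trans card_le_two
        intro u hu
        rw [mem_filter] at hu
        have := Sym2.mem_iff.1 hu.2
        simpa using this
    have h1 : univ.filter (fun j => i ∈ (F.X j).supp) ⊆
        (W.biUnion (fun u => ballG G R u)).biUnion (fun v => univ.filter (fun j => cen j = v)) := by
      intro j hj
      rw [mem_filter] at hj
      have h2 := hs j hj.2
      unfold bvar at h2
      rw [mem_filter] at h2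
      obtain ⟨-, -, u, hu, hub⟩ := h2
      rw [mem_biUnion]
      refine ⟨cen j, ?_, mem_filter.2 ⟨mem_univ _, rfl⟩⟩
      rw [mem_biUnion]
      refine ⟨u, ?_, ball_symm G R u (cen j) hub⟩
      rw [hW, mem_filter]
      exact ⟨mem_univ _, hu⟩
    refine (card_le_card h1).trans (card_biUnion_le.trans ?_)
    refine (sum_le_sum (fun v _ => hcnt v)).trans ?_
    rw [sum_const, smul_eq_mul]
    refine le_trans (Nat.mul_le_mul_right _ ?_) hM2
    refine card_biUnion_le.trans ?_
    refine (sum_le_sum (g := fun _ => (K + 1) ^ R) ?_).trans ?_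
    · intro u _
      exact (ball_card G Δ hΔ R u).trans (Nat.pow_le_pow_left (by omega) _)
    · rw [sum_const, smul_eq_mul]
      exact Nat.mul_le_mul_right _ hWc

end Pool.Agent.H77.AC
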