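import Pool.Agent.H77.AC.Graph
import Pool.Agent.H95.ACS.Fam4

/-!
# AC-BASE: the initial state satisfies the invariants (static counts)

`base_inv`: for every `n₀ ≥ 1` there is a constant `Γ₀` such that the initial state `st0 G K` (no
coloured pair, all pairs on edges of `G` live) satisfies `Inv` with `a = K`, for every `Γ ≥ Γ₀`.

Weights: through `x = (s(v₀,v₁), c)` there are at most `K Δ^(2n+2)` cycles of length `2n+4` (choose the other
colour and `v₂, ..., v_{2n+3}` successively), each of weight `(g/K)^(2n+3)`; `Δ ≤ ρ K`.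

Crude families (`R = ∅`): with `s` prescribed pairs (besides `x`) at least `s + 1` of the parameters
`v₂, ..., v_{2n+3}`, other colour are fixed, unless all pairs are prescribed: the positions of the prescribed
pairs in the path `v₁ v₂ ... v_{2n+3} v₀` form runs; a run of `t` edges covers `t + 1` vertices; an end vertex
`v₁` or `v₀` is covered only if position `1` or `2n+3` is prescribed, and these pairs have the other colour. So
`#{H ∈ C : x ∈ H, S ⊆ H, |H| = k} ≤ c(k) K^(k-1-|S|-1)` (truncated) for `S ≠ ∅`, `x ∉ S`, and `≤ K^(k-1)`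
for `S = ∅`. `f1`: immediate. `f2 x ν`, `f3 x e` with `A = ∅`: one more parameter is fixed (a vertex, or the other colour
if the vertex is an end of `x`). `f4`: proofs 260, section 4.
-/

set_option autoImplicit false

open Finset
open scoped Classical

namespace Pool.Agent.H77.AC

theorem base_at_vertex {V : Type} [Fintype V] [DecidableEq V] (G : SimpleGraph V) (Δ : ℕ)
    (hΔ : ∀ v, (univ.filter (fun u => G.Adj v u)).card ≤ Δ) (v : V) (S : Finset (Sym2 V))
    (hS : ∀ e ∈ S, e ∈ G.edgeSet ∧ v ∈ e) : S.card ≤ Δ := by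
  have hsub : S ⊆ (univ.filter (fun u => G.Adj v u)).image (fun u => s(v, u)) := by
    intro e he
    obtain ⟨h1, h2⟩ := hS e he
    obtain ⟨u, rfl⟩ := Sym2.mem_iff_exists.mp h2
    rw [Finset.mem_image]
    refine ⟨u, ?_, rfl⟩
    rw [Finset.mem_filter]
    exact ⟨Finset.mem_univ _, h1⟩
  exact le_trans (Finset.card_le_card hsub) (le_trans Finset.card_image_le (hΔ v))

theorem base_weight {V : Type} [Fintype V] [DecidableEq V] (G : SimpleGraph V) (K Δ n₀ : ℕ)
    (ρ g w : ℝ) (hK : 0 < K) (hΔ : ∀ v, (univ.filter (fun u => G.Adj v u)).card ≤ Δ)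
    (hρ : 0 ≤ ρ) (hΔρ : (Δ : ℝ) ≤ ρ * K) (hg : 1 ≤ g)
    (hw : ∑ n ∈ range n₀, g * (g * ρ) ^ (2 * n + 2) ≤ w) (x : PX V K) :
    wgt (gS G K n₀) (st0 G K) g K x ≤ w := by
  unfold wgt
  obtain ⟨S, hS⟩ : ∃ S : Finset (Finset (PX V K)), S = (gS G K n₀).C.filter
    (fun H => x ∈ H ∧ H.erase x ⊆ (st0 G K).R ∪ (st0 G K).L) := ⟨_, rfl⟩
  rw [← hS]
  have hSp : ∀ H ∈ S, (∃ n < n₀, IsCyc G n H) ∧ x ∈ H ∧
      (H.erase x ∩ (st0 G K).L).card = H.card - 1 := by
    intro H hH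
    rw [hS] at hH
    obtain ⟨h1, h2, h3⟩ := Finset.mem_filter.mp hH
    refine ⟨(Finset.mem_filter.mp h1).2, h2, ?_⟩
    have e0 : (st0 G K).R = ∅ := rfl
    rw [e0, Finset.empty_union] at h3
    rw [Finset.inter_eq_left.mpr h3, Finset.card_erase_of_mem h2]
  have hkey : ∀ H ∈ S, (H.card - 4) / 2 ∈ range n₀ := by
    intro H hH
    obtain ⟨⟨n, hn, hc⟩, _, _⟩ := hSp H hH
    rw [Pool.Agent.H95.ACS.isCyc_card G n H hc, Finset.mem_range]
    omega
  rw [← Finset.sum_fiberwise_of_maps_to hkey]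
  refine le_trans (Finset.sum_le_sum ?_) hw
  intro n hn
  rw [Finset.mem_range] at hn
  have hKR : (0 : ℝ) < K := by exact_mod_cast hK
  have hterm : ∀ H ∈ S.filter (fun H => (H.card - 4) / 2 = n),
      g ^ (H.card - 1) / (K : ℝ) ^ (H.erase x ∩ (st0 G K).L).card ≤
        g ^ (2 * n + 3) / (K : ℝ) ^ (2 * n + 3) := by
    intro H hH
    obtain ⟨h1, h2⟩ := Finset.mem_filter.mp hH
    obtain ⟨⟨m, hm, hc⟩, _, h3⟩ := hSp H h1
    have h4 := Pool.Agent.H95.ACS.isCyc_card G m H hc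
    have h5 : m = n := by omega
    have h6 : H.card - 1 = 2 * n + 3 := by omega
    rw [h3, h6]
  refine le_trans (Finset.sum_le_sum hterm) ?_
  rw [Finset.sum_const, nsmul_eq_mul]
  have hcard : ((S.filter (fun H => (H.card - 4) / 2 = n)).card : ℝ) ≤
      K * (Δ : ℝ) ^ (2 * n + 2) := by
    have h1 : (S.filter (fun H => (H.card - 4) / 2 = n)).card ≤ K * Δ ^ (2 * n + 2) := by
      refine le_trans (Finset.card_le_card ?_) (Pool.Agent.H95.ACS.cyc_sharp G Δ hΔ n x)
      intro H hH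
      obtain ⟨h1, h2⟩ := Finset.mem_filter.mp hH
      obtain ⟨⟨m, hm, hc⟩, hx, _⟩ := hSp H h1
      have h4 := Pool.Agent.H95.ACS.isCyc_card G m H hc
      have h5 : m = n := by omega
      subst h5
      exact Finset.mem_filter.mpr ⟨Finset.mem_univ _, hc, hx⟩
    exact_mod_cast h1
  have hg0 : (0 : ℝ) ≤ g := by linarith
  have hpos : (0 : ℝ) ≤ g ^ (2 * n + 3) / (K : ℝ) ^ (2 * n + 3) := by positivity
  refine le_trans (mul_le_mul_of_nonneg_right hcard hpos) ?_
  have e1 : (K : ℝ) * (Δ : ℝ) ^ (2 * n + 2) * (g ^ (2 * n + 3) / (K : ℝ) ^ (2 * n + 3)) =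
      g * (g * ((Δ : ℝ) / K)) ^ (2 * n + 2) := by
    have hK0 : (K : ℝ) ≠ 0 := hKR.ne'
    rw [mul_pow, div_pow, pow_succ g (2 * n + 2), pow_succ (K : ℝ) (2 * n + 2)]
    field_simp
  rw [e1]
  have h7 : (Δ : ℝ) / K ≤ ρ := by
    rw [div_le_iff₀ hKR]
    exact hΔρ
  have h8 : (0 : ℝ) ≤ (Δ : ℝ) / K := by positivity
  refine mul_le_mul_of_nonneg_left ?_ hg0
  exact pow_le_pow_left₀ (mul_nonneg hg0 h8) (mul_le_mul_of_nonneg_left h7 hg0) _

theorem base_inv (n₀ : ℕ) (hn : 1 ≤ n₀) : ∃ Γ₀ : ℕ, ∀ (V : Type) (_ : Fintype V)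
    (_ : DecidableEq V) (G : SimpleGraph V) (K Δ Γ : ℕ) (ρ w g : ℝ), 0 < K →
    (∀ v, (univ.filter (fun u => G.Adj v u)).card ≤ Δ) → 0 ≤ ρ → ρ ≤ 1 → (Δ : ℝ) ≤ ρ * K →
    1 ≤ g → ∑ n ∈ range n₀, g * (g * ρ) ^ (2 * n + 2) ≤ w → Γ₀ ≤ Γ →
    Inv (gS G K n₀) (st0 G K) K K Γ ρ w g := by
  refine ⟨Pool.Agent.H95.ACS.cc n₀ + Pool.Agent.H95.ACS.c4 n₀, ?_⟩
  intro V _ _ G K Δ Γ ρ w g hK hΔ hρ0 hρ1 hΔρ hg hw hΓ
  have hΔK : Δ ≤ K := by
    have : (Δ : ℝ) ≤ K := by
      refine le_trans hΔρ ?_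
      have : (0 : ℝ) ≤ K := Nat.cast_nonneg K
      nlinarith
    exact_mod_cast this
  have hR : ∀ x, x ∉ (st0 G K).R := fun x => Finset.notMem_empty x
  refine ⟨?_, ?_, ?_, ?_, ?_, ?_, ?_, ?_, ?_, ?_⟩
  · intro x hx
    have h1 : x.1 ∈ G.edgeSet := (Finset.mem_filter.mp hx).2
    exact Finset.mem_filter.mpr ⟨Finset.mem_univ _, h1⟩
  · intro x hx
    exact absurd hx (hR x)
  · intro x hx
    exact absurd hx (hR x)
  · intro x hx
    exact absurd hx (hR x)
  · intro x _ y hy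
    exact absurd hy (hR y)
  · intro H hH x hx _ hsub
    obtain ⟨_, n, _, hc⟩ := Finset.mem_filter.mp hH
    have h1 := Pool.Agent.H95.ACS.isCyc_card G n H hc
    have h2 := Finset.card_le_card hsub
    have h3 : (st0 G K).R.card = 0 := rfl
    rw [Finset.card_erase_of_mem hx, h3] at h2
    omega
  · intro e he
    have h1 : e ∈ G.edgeSet := (Finset.mem_filter.mp he).2
    have h2 : own (gS G K n₀) (st0 G K) e = univ.image (fun c : Fin K => (e, c)) := by
      ext y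
      unfold own
      rw [Finset.mem_filter, Finset.mem_image]
      constructor
      · rintro ⟨_, h⟩
        exact ⟨y.2, Finset.mem_univ _, Prod.ext h.symm rfl⟩
      · rintro ⟨c, _, rfl⟩
        exact ⟨Finset.mem_filter.mpr ⟨Finset.mem_univ _, h1⟩, rfl⟩
    rw [h2, Finset.card_image_of_injective, Finset.card_univ, Fintype.card_fin]
    intro c c' h
    exact (Prod.mk.inj h).2
  · intro ν
    have h1 : (atN (gS G K n₀) (st0 G K) ν).card ≤ Δ := by
      have h2 : (atN (gS G K n₀) (st0 G K) ν).card =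
          ((atN (gS G K n₀) (st0 G K) ν).image (fun y => y.1)).card := by
        rw [Finset.card_image_of_injOn]
        intro y hy y' hy' he
        have a1 : ν ∈ ndG y := (Finset.mem_filter.mp (Finset.mem_coe.mp hy)).2
        have a2 : ν ∈ ndG y' := (Finset.mem_filter.mp (Finset.mem_coe.mp hy')).2
        have b1 := (Finset.mem_filter.mp a1).2.2
        have b2 := (Finset.mem_filter.mp a2).2.2
        exact Prod.ext he (b1.symm.trans b2)
      rw [h2]
      refine base_at_vertex G Δ hΔ ν.1 _ ?_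
      intro e he
      rw [Finset.mem_image] at he
      obtain ⟨y, hy, rfl⟩ := he
      obtain ⟨h3, h4⟩ := Finset.mem_filter.mp hy
      have h5 : ν ∈ ndG y := h4
      exact ⟨(Finset.mem_filter.mp h3).2, (Finset.mem_filter.mp h5).2.1⟩
    refine le_trans ?_ hΔρ
    exact_mod_cast h1
  · intro x _
    exact base_weight G K Δ n₀ ρ g w hK hΔ hρ0 hΔρ hg hw x
  · intro φ A n
    have hc1 : Pool.Agent.H95.ACS.cc n₀ * K ^ (n - 1) ≤ K ^ (n - 1) * Γ := by
      rw [mul_comm]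
      exact Nat.mul_le_mul_left _ (by omega)
    have hc4 : Pool.Agent.H95.ACS.c4 n₀ * K ^ (n - 1) ≤ K ^ (n - 1) * Γ := by
      rw [mul_comm]
      exact Nat.mul_le_mul_left _ (by omega)
    cases φ with
    | f1 x y => exact le_trans (Pool.Agent.H95.ACS.fam1 hΔ hΔK hK n₀ x y A n) hc1
    | f2 x ν => exact le_trans (Pool.Agent.H95.ACS.fam2 hΔ hΔK hK n₀ x ν A n) hc1
    | f3 x e => exact le_trans (Pool.Agent.H95.ACS.fam3 hΔ hΔK hK n₀ x e A n) hc1
    | f4 z z' => exact le_trans (Pool.Agent.H95.ACS.fam4 hΔ hΔK hK n₀ z z' A n) hc4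

theorem base_ginv {V : Type} [Fintype V] [DecidableEq V] (G : SimpleGraph V) (K Δ n₀ r₀ Γ : ℕ)
    (D f j M ζ : ℝ) (hΔ : ∀ v, (univ.filter (fun u => G.Adj v u)).card ≤ Δ)
    (hD : (Δ : ℝ) ≤ D) (hf : 0 ≤ f) (hj : 0 ≤ j) (hM : 0 ≤ M) (hζ : 0 ≤ ζ) (hr : 1 ≤ r₀) :
    GInv (K := K) G n₀ r₀ (st0 G K) Γ D f j M ζ := by
  have hR : ∀ x, x ∉ (st0 G K).R := fun x => Finset.notMem_empty x
  have hHas : ∀ u c, ¬ Has (st0 G K).R u c := by
    rintro u c ⟨u', h⟩
    exact hR _ h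
  have hts : ∀ (T : Sym2 V → Prop) (u v : V), tset (st0 G K).R T u v = ∅ := by
    intro T u v
    unfold tset
    rw [Finset.filter_eq_empty_iff]
    intro c _ h
    exact hHas u c h.1
  have hJ : ∀ n, 1 ≤ n → ∀ b c p q, ¬ Joined (st0 G K).R n b c p q := by
    rintro n hn b c p q ⟨v, _, _, _, h⟩
    exact hR _ (h ⟨0, by omega⟩)
  refine ⟨?_, ?_, ?_, ?_, ?_, ?_, ?_, ?_, ?_⟩
  · intro e he
    exact (Finset.mem_filter.mp he).2
  · intro x hx
    exact absurd hx (hR x)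
  · intro v
    have h1 : (stU (st0 G K) v).card ≤ Δ := by
      refine base_at_vertex G Δ hΔ v _ ?_
      intro e he
      obtain ⟨h2, h3⟩ := Finset.mem_filter.mp he
      exact ⟨(Finset.mem_filter.mp h2).2, h3⟩
    refine le_trans ?_ hD
    exact_mod_cast h1
  · intro v
    have h1 : fstar G (st0 G K) v = ∅ := by
      unfold fstar
      rw [Finset.filter_eq_empty_iff]
      intro e _ h
      exact h.2.2.1 (Finset.mem_filter.mpr ⟨Finset.mem_univ _, h.2.1⟩)
    rw [h1, Finset.card_empty]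
    simpa using hf
  · intro u v _
    rw [hts, Finset.card_empty]
    simpa using hj
  · intro u v _
    rw [hts, Finset.card_empty]
    simpa using hM
  · intro p q c _
    have h1 : Z1 (st0 G K).R r₀ p q c = ∅ := by
      unfold Z1
      rw [Finset.filter_eq_empty_iff]
      rintro b _ ⟨_, n, hn, _, h | h⟩
      · exact hJ n hn _ _ _ _ h
      · exact hJ n hn _ _ _ _ h.2
    rw [h1, Finset.card_empty]
    exact Nat.zero_le _
  · intro p q _
    have h1 : Z2 (st0 G K).R (2 * n₀ + 3) r₀ p q = ∅ := by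
      unfold Z2
      rw [Finset.filter_eq_empty_iff]
      rintro P _ ⟨_, n, hn, _, h⟩
      exact hJ n (by omega) _ _ _ _ h
    rw [h1, Finset.card_empty]
    have : (0 : ℝ) ≤ ζ * K := mul_nonneg hζ (Nat.cast_nonneg K)
    simpa using this
  · intro n _ H hc hsub
    have h1 := Pool.Agent.H95.ACS.isCyc_card G n H hc
    have h2 := Finset.card_le_card hsub
    have h3 : (st0 G K).R.card = 0 := rfl
    omega

end Pool.Agent.H77.AC
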