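import Pool.Agent.H77.AC.Cyl

/-!
# AC-GEN: general bounds for statistics whose indices have one or two variables

For a history `h` write `D₀ = h.biUnion D`, `C₀ = h.biUnion C`, `T = D₀ ∪ C₀` (at most `s`, resp.
`2 s`, variables).

* `bdd_single`: every index of nonzero weight has exactly one variable `v` (`D = {v}, C = ∅` or
  `D = ∅, C = {v}`). If `v ∉ T` then `cnd p D₀ C₀ (D i) (C i) ≤ cnd p ∅ ∅ (D i) (C i)` (same products;
  the left side may be `0`); if `v ∈ T` use `cnd ≤ 1`. So the sum is at most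
  `M + ∑_{v ∈ T} ∑_{i : v ∈ D i ∪ C i} w i ≤ M + s κ`.
* `bdd_double`: every index of nonzero weight has at most two variables, `D i`, `C i` disjoint. Split
  the indices by `(D i ∪ C i) ∩ T`: if empty, `cnd ≤` the unconditional probability (sum `≤ M`); if it
  is `{v}`, `cnd ≤` the probability of the remaining variable, sum `≤ ∑_{v ∈ T} τ ≤ 2 s τ`; if it has
  two elements `v ≠ v'`, then `cnd ≤ 1`, sum `≤ ∑_{v, v' ∈ T, v ≠ v'} κ ≤ (2 s)² κ`. (If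
  `D i ∪ C i = ∅` then the first case applies.)
* `bdd_mono`.
-/

set_option autoImplicit false

open Finset
open scoped Classical

namespace Pool.Agent.H77.AC

variable {I : Type} [Fintype I] [DecidableEq I]

theorem gen_prod_subset_le (f : I → ℝ) (hf : ∀ i, 0 ≤ f i ∧ f i ≤ 1) (S T : Finset I)
    (h : S ⊆ T) : ∏ i ∈ T, f i ≤ ∏ i ∈ S, f i := by
  rw [← Finset.prod_sdiff h]
  have h1 : ∏ i ∈ T \ S, f i ≤ 1 :=
    Finset.prod_le_one (fun i _ => (hf i).1) (fun i _ => (hf i).2)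
  have h2 : 0 ≤ ∏ i ∈ S, f i := Finset.prod_nonneg (fun i _ => (hf i).1)
  nlinarith

theorem gen_cnd_le (p : I → ℝ) (hp : ∀ i, 0 ≤ p i ∧ p i ≤ 1) (D₀ C₀ D C D' C' : Finset I)
    (hD : D' ⊆ D \ D₀) (hC : C' ⊆ C \ C₀) :
    cnd p D₀ C₀ D C ≤ (∏ i ∈ D', p i) * ∏ i ∈ C', (1 - p i) := by
  have hq : ∀ i, 0 ≤ 1 - p i ∧ 1 - p i ≤ 1 := fun i => ⟨by linarith [(hp i).2], by linarith [(hp i).1]⟩
  have n1 : 0 ≤ ∏ i ∈ D', p i := Finset.prod_nonneg (fun i _ => (hp i).1)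
  have n2 : 0 ≤ ∏ i ∈ C', (1 - p i) := Finset.prod_nonneg (fun i _ => (hq i).1)
  unfold cnd
  split_ifs with h
  · apply mul_le_mul
    · exact gen_prod_subset_le p hp _ _ hD
    · exact gen_prod_subset_le (fun i => 1 - p i) hq _ _ hC
    · exact Finset.prod_nonneg (fun i _ => (hq i).1)
    · exact n1
  · exact mul_nonneg n1 n2

theorem gen_ite_sum_le (T : Finset I) (a : I → ℝ) (ha : ∀ v ∈ T, 0 ≤ a v) (v : I) (hv : v ∈ T) :
    a v ≤ ∑ u ∈ T, a u :=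
  Finset.single_le_sum ha hv

theorem bdd_mono (p : I → ℝ) (X : Stat I) (s s' : ℕ) (μ μ' : ℝ) (hs : s' ≤ s) (hμ : μ ≤ μ')
    (h : X.Bdd p s μ) : X.Bdd p s' μ' := by
  intro H hc hw hd
  exact (h H (hc.trans hs) hw hd).trans hμ

theorem bdd_single (p : I → ℝ) (hp : ∀ i, 0 ≤ p i ∧ p i ≤ 1) (X : Stat I) (s : ℕ) (M κ : ℝ)
    (h1 : ∀ i, X.w i ≠ 0 → ∃ v, (X.D i = {v} ∧ X.C i = ∅) ∨ (X.D i = ∅ ∧ X.C i = {v}))
    (hκ0 : 0 ≤ κ)
    (hκ : ∀ v, ∑ i ∈ univ.filter (fun i => v ∈ X.D i ∪ X.C i), X.w i ≤ κ)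
    (hM : ∑ i, X.w i * ((∏ v ∈ X.D i, p v) * ∏ v ∈ X.C i, (1 - p v)) ≤ M) :
    X.Bdd p s (M + s * κ) := by
  intro h hc hw hd
  set D₀ := h.biUnion X.D with hD₀
  set C₀ := h.biUnion X.C with hC₀
  have hq : ∀ i, 0 ≤ 1 - p i ∧ 1 - p i ≤ 1 := fun i => ⟨by linarith [(hp i).2], by linarith [(hp i).1]⟩
  have hPn : ∀ i, 0 ≤ (∏ v ∈ X.D i, p v) * ∏ v ∈ X.C i, (1 - p v) := fun i =>
    mul_nonneg (Finset.prod_nonneg (fun v _ => (hp v).1)) (Finset.prod_nonneg (fun v _ => (hq v).1))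
  -- card of T
  have hT : (D₀ ∪ C₀).card ≤ s := by
    have e : D₀ ∪ C₀ ⊆ h.biUnion (fun i => X.D i ∪ X.C i) := by
      intro v hv
      rw [Finset.mem_union, hD₀, hC₀, Finset.mem_biUnion, Finset.mem_biUnion] at hv
      rw [Finset.mem_biUnion]
      rcases hv with ⟨i, hi, hv⟩ | ⟨i, hi, hv⟩
      · exact ⟨i, hi, Finset.mem_union_left _ hv⟩
      · exact ⟨i, hi, Finset.mem_union_right _ hv⟩
    refine (Finset.card_le_card e).trans (le_trans (Finset.card_biUnion_le) ?_)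
    refine le_trans (Finset.sum_le_card_nsmul h _ 1 ?_) (by simpa using hc)
    intro i hi
    obtain ⟨v, hv | hv⟩ := h1 i (hw i hi) <;> rw [hv.1, hv.2] <;> simp
  -- per index
  have key : ∀ i, X.w i * cnd p D₀ C₀ (X.D i) (X.C i) ≤
      X.w i * ((∏ v ∈ X.D i, p v) * ∏ v ∈ X.C i, (1 - p v)) +
        ∑ v ∈ D₀ ∪ C₀, if v ∈ X.D i ∪ X.C i then X.w i else 0 := by
    intro i
    have hsn : 0 ≤ ∑ v ∈ D₀ ∪ C₀, if v ∈ X.D i ∪ X.C i then X.w i else 0 :=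
      Finset.sum_nonneg (fun v _ => by split_ifs; exacts [X.nn i, le_rfl])
    by_cases h0 : X.w i = 0
    · rw [h0]
      rw [h0] at hsn
      simp
    obtain ⟨v, hv⟩ := h1 i h0
    have hU : X.D i ∪ X.C i = {v} := by
      rcases hv with hv | hv <;> rw [hv.1, hv.2] <;> simp
    by_cases hvT : v ∈ D₀ ∪ C₀
    · have a1 : X.w i * cnd p D₀ C₀ (X.D i) (X.C i) ≤ X.w i * 1 :=
        mul_le_mul_of_nonneg_left (cnd_le_one p hp _ _ _ _) (X.nn i)
      have a2 : (if v ∈ X.D i ∪ X.C i then X.w i else 0) ≤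
          ∑ v ∈ D₀ ∪ C₀, if v ∈ X.D i ∪ X.C i then X.w i else 0 :=
        gen_ite_sum_le _ (fun v => if v ∈ X.D i ∪ X.C i then X.w i else 0)
          (fun v _ => by split_ifs; exacts [X.nn i, le_rfl]) v hvT
      rw [if_pos (by rw [hU]; simp)] at a2
      have a3 := mul_nonneg (X.nn i) (hPn i)
      linarith
    · have a1 : cnd p D₀ C₀ (X.D i) (X.C i) ≤ (∏ v ∈ X.D i, p v) * ∏ v ∈ X.C i, (1 - p v) := by
        apply gen_cnd_le p hp
        · intro u hu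
          rw [Finset.mem_sdiff]
          refine ⟨hu, fun hu' => hvT ?_⟩
          have : u ∈ X.D i ∪ X.C i := Finset.mem_union_left _ hu
          rw [hU, Finset.mem_singleton] at this
          rw [← this]
          exact Finset.mem_union_left _ hu'
        · intro u hu
          rw [Finset.mem_sdiff]
          refine ⟨hu, fun hu' => hvT ?_⟩
          have : u ∈ X.D i ∪ X.C i := Finset.mem_union_right _ hu
          rw [hU, Finset.mem_singleton] at this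
          rw [← this]
          exact Finset.mem_union_right _ hu'
      have := mul_le_mul_of_nonneg_left a1 (X.nn i)
      linarith
  calc ∑ i, X.w i * cnd p D₀ C₀ (X.D i) (X.C i)
      ≤ ∑ i, (X.w i * ((∏ v ∈ X.D i, p v) * ∏ v ∈ X.C i, (1 - p v)) +
        ∑ v ∈ D₀ ∪ C₀, if v ∈ X.D i ∪ X.C i then X.w i else 0) := Finset.sum_le_sum (fun i _ => key i)
    _ = ∑ i, X.w i * ((∏ v ∈ X.D i, p v) * ∏ v ∈ X.C i, (1 - p v)) +
        ∑ v ∈ D₀ ∪ C₀, ∑ i ∈ univ.filter (fun i => v ∈ X.D i ∪ X.C i), X.w i := by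
        rw [Finset.sum_add_distrib, Finset.sum_comm]
        congr 1
        refine Finset.sum_congr rfl (fun v _ => ?_)
        rw [Finset.sum_filter]
    _ ≤ M + ∑ v ∈ D₀ ∪ C₀, κ := add_le_add hM (Finset.sum_le_sum (fun v _ => hκ v))
    _ = M + ((D₀ ∪ C₀).card : ℝ) * κ := by rw [Finset.sum_const, nsmul_eq_mul]
    _ ≤ M + s * κ := by
        have : ((D₀ ∪ C₀).card : ℝ) ≤ s := by exact_mod_cast hT
        have := mul_le_mul_of_nonneg_right this hκ0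
        linarith

theorem bdd_double (p : I → ℝ) (hp : ∀ i, 0 ≤ p i ∧ p i ≤ 1) (X : Stat I) (s : ℕ) (M τ κ : ℝ)
    (h1 : ∀ i, X.w i ≠ 0 → (X.D i ∪ X.C i).card ≤ 2 ∧ Disjoint (X.D i) (X.C i))
    (hτ0 : 0 ≤ τ) (hκ0 : 0 ≤ κ)
    (hτ : ∀ v, ∑ i ∈ univ.filter (fun i => v ∈ X.D i ∪ X.C i),
      X.w i * ((∏ u ∈ (X.D i).erase v, p u) * ∏ u ∈ (X.C i).erase v, (1 - p u)) ≤ τ)
    (hκ : ∀ v v', v ≠ v' →
      ∑ i ∈ univ.filter (fun i => v ∈ X.D i ∪ X.C i ∧ v' ∈ X.D i ∪ X.C i), X.w i ≤ κ)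
    (hM : ∑ i, X.w i * ((∏ v ∈ X.D i, p v) * ∏ v ∈ X.C i, (1 - p v)) ≤ M) :
    X.Bdd p s (M + 2 * s * τ + (2 * s) ^ 2 * κ) := by
  intro h hc hw hd
  set D₀ := h.biUnion X.D with hD₀
  set C₀ := h.biUnion X.C with hC₀
  have hq : ∀ i, 0 ≤ 1 - p i ∧ 1 - p i ≤ 1 := fun i => ⟨by linarith [(hp i).2], by linarith [(hp i).1]⟩
  have hPn : ∀ A B : Finset I, 0 ≤ (∏ v ∈ A, p v) * ∏ v ∈ B, (1 - p v) := fun A B =>
    mul_nonneg (Finset.prod_nonneg (fun v _ => (hp v).1)) (Finset.prod_nonneg (fun v _ => (hq v).1))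
  -- card of T
  have hT : (D₀ ∪ C₀).card ≤ 2 * s := by
    have e : D₀ ∪ C₀ ⊆ h.biUnion (fun i => X.D i ∪ X.C i) := by
      intro v hv
      rw [Finset.mem_union, hD₀, hC₀, Finset.mem_biUnion, Finset.mem_biUnion] at hv
      rw [Finset.mem_biUnion]
      rcases hv with ⟨i, hi, hv⟩ | ⟨i, hi, hv⟩
      · exact ⟨i, hi, Finset.mem_union_left _ hv⟩
      · exact ⟨i, hi, Finset.mem_union_right _ hv⟩
    refine (Finset.card_le_card e).trans (le_trans (Finset.card_biUnion_le) ?_)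
    refine le_trans (Finset.sum_le_card_nsmul h _ 2 (fun i hi => (h1 i (hw i hi)).1)) ?_
    rw [smul_eq_mul]
    omega
  have key : ∀ i, X.w i * cnd p D₀ C₀ (X.D i) (X.C i) ≤
      X.w i * ((∏ v ∈ X.D i, p v) * ∏ v ∈ X.C i, (1 - p v)) +
        (∑ v ∈ D₀ ∪ C₀, if v ∈ X.D i ∪ X.C i then
          X.w i * ((∏ u ∈ (X.D i).erase v, p u) * ∏ u ∈ (X.C i).erase v, (1 - p u)) else 0) +
        ∑ v ∈ D₀ ∪ C₀, ∑ v' ∈ D₀ ∪ C₀, if v ≠ v' ∧ v ∈ X.D i ∪ X.C i ∧ v' ∈ X.D i ∪ X.C i then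
          X.w i else 0 := by
    intro i
    have n2 : 0 ≤ ∑ v ∈ D₀ ∪ C₀, if v ∈ X.D i ∪ X.C i then
          X.w i * ((∏ u ∈ (X.D i).erase v, p u) * ∏ u ∈ (X.C i).erase v, (1 - p u)) else 0 :=
      Finset.sum_nonneg (fun v _ => by
        split_ifs
        exacts [mul_nonneg (X.nn i) (hPn _ _), le_rfl])
    have n3 : 0 ≤ ∑ v ∈ D₀ ∪ C₀, ∑ v' ∈ D₀ ∪ C₀,
        if v ≠ v' ∧ v ∈ X.D i ∪ X.C i ∧ v' ∈ X.D i ∪ X.C i then X.w i else 0 :=
      Finset.sum_nonneg (fun v _ => Finset.sum_nonneg (fun v' _ => by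
        split_ifs
        exacts [X.nn i, le_rfl]))
    have n1 := mul_nonneg (X.nn i) (hPn (X.D i) (X.C i))
    by_cases h0 : X.w i = 0
    · have : X.w i * cnd p D₀ C₀ (X.D i) (X.C i) = 0 := by rw [h0, zero_mul]
      linarith
    by_cases hv : ∃ v ∈ D₀ ∪ C₀, v ∈ X.D i ∪ X.C i
    · obtain ⟨v, hvT, hvU⟩ := hv
      by_cases hv' : ∃ v' ∈ D₀ ∪ C₀, v ≠ v' ∧ v' ∈ X.D i ∪ X.C i
      · obtain ⟨v', hvT', hne, hvU'⟩ := hv'
        have a1 : X.w i * cnd p D₀ C₀ (X.D i) (X.C i) ≤ X.w i * 1 :=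
          mul_le_mul_of_nonneg_left (cnd_le_one p hp _ _ _ _) (X.nn i)
        have a2 : (∑ v' ∈ D₀ ∪ C₀, if v ≠ v' ∧ v ∈ X.D i ∪ X.C i ∧ v' ∈ X.D i ∪ X.C i then
            X.w i else 0) ≤ ∑ v ∈ D₀ ∪ C₀, ∑ v' ∈ D₀ ∪ C₀,
            if v ≠ v' ∧ v ∈ X.D i ∪ X.C i ∧ v' ∈ X.D i ∪ X.C i then X.w i else 0 :=
          gen_ite_sum_le _ (fun v => ∑ v' ∈ D₀ ∪ C₀,
            if v ≠ v' ∧ v ∈ X.D i ∪ X.C i ∧ v' ∈ X.D i ∪ X.C i then X.w i else 0)
            (fun v _ => Finset.sum_nonneg (fun v' _ => by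
              split_ifs
              exacts [X.nn i, le_rfl])) v hvT
        have a3 : (if v ≠ v' ∧ v ∈ X.D i ∪ X.C i ∧ v' ∈ X.D i ∪ X.C i then X.w i else 0) ≤
            ∑ v' ∈ D₀ ∪ C₀, if v ≠ v' ∧ v ∈ X.D i ∪ X.C i ∧ v' ∈ X.D i ∪ X.C i then
            X.w i else 0 :=
          gen_ite_sum_le _ (fun v' => if v ≠ v' ∧ v ∈ X.D i ∪ X.C i ∧ v' ∈ X.D i ∪ X.C i then
            X.w i else 0) (fun v' _ => by
              split_ifs
              exacts [X.nn i, le_rfl]) v' hvT'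
        rw [if_pos ⟨hne, hvU, hvU'⟩] at a3
        linarith
      · have a1 : cnd p D₀ C₀ (X.D i) (X.C i) ≤
            (∏ u ∈ (X.D i).erase v, p u) * ∏ u ∈ (X.C i).erase v, (1 - p u) := by
          apply gen_cnd_le p hp
          · intro u hu
            rw [Finset.mem_erase] at hu
            rw [Finset.mem_sdiff]
            refine ⟨hu.2, fun hu' => hv' ⟨u, Finset.mem_union_left _ hu', fun e => hu.1 e.symm,
              Finset.mem_union_left _ hu.2⟩⟩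
          · intro u hu
            rw [Finset.mem_erase] at hu
            rw [Finset.mem_sdiff]
            refine ⟨hu.2, fun hu' => hv' ⟨u, Finset.mem_union_right _ hu', fun e => hu.1 e.symm,
              Finset.mem_union_right _ hu.2⟩⟩
        have a2 := mul_le_mul_of_nonneg_left a1 (X.nn i)
        have a3 : (if v ∈ X.D i ∪ X.C i then
            X.w i * ((∏ u ∈ (X.D i).erase v, p u) * ∏ u ∈ (X.C i).erase v, (1 - p u)) else 0) ≤
            ∑ v ∈ D₀ ∪ C₀, if v ∈ X.D i ∪ X.C i then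
            X.w i * ((∏ u ∈ (X.D i).erase v, p u) * ∏ u ∈ (X.C i).erase v, (1 - p u)) else 0 :=
          gen_ite_sum_le _ (fun v => if v ∈ X.D i ∪ X.C i then
            X.w i * ((∏ u ∈ (X.D i).erase v, p u) * ∏ u ∈ (X.C i).erase v, (1 - p u)) else 0)
            (fun v _ => by
              split_ifs
              exacts [mul_nonneg (X.nn i) (hPn _ _), le_rfl]) v hvT
        rw [if_pos hvU] at a3
        linarith
    · have a1 : cnd p D₀ C₀ (X.D i) (X.C i) ≤ (∏ v ∈ X.D i, p v) * ∏ v ∈ X.C i, (1 - p v) := by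
        apply gen_cnd_le p hp
        · intro u hu
          rw [Finset.mem_sdiff]
          exact ⟨hu, fun hu' => hv ⟨u, Finset.mem_union_left _ hu', Finset.mem_union_left _ hu⟩⟩
        · intro u hu
          rw [Finset.mem_sdiff]
          exact ⟨hu, fun hu' => hv ⟨u, Finset.mem_union_right _ hu', Finset.mem_union_right _ hu⟩⟩
      have := mul_le_mul_of_nonneg_left a1 (X.nn i)
      linarith
  have s2 : (∑ i, ∑ v ∈ D₀ ∪ C₀, if v ∈ X.D i ∪ X.C i then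
          X.w i * ((∏ u ∈ (X.D i).erase v, p u) * ∏ u ∈ (X.C i).erase v, (1 - p u)) else 0) ≤
      2 * s * τ := by
    rw [Finset.sum_comm]
    have : ∀ v ∈ D₀ ∪ C₀, (∑ i, if v ∈ X.D i ∪ X.C i then
          X.w i * ((∏ u ∈ (X.D i).erase v, p u) * ∏ u ∈ (X.C i).erase v, (1 - p u)) else 0) ≤ τ := by
      intro v _
      rw [← Finset.sum_filter]
      exact hτ v
    refine (Finset.sum_le_sum this).trans ?_
    rw [Finset.sum_const, nsmul_eq_mul]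
    have : ((D₀ ∪ C₀).card : ℝ) ≤ 2 * s := by exact_mod_cast hT
    exact mul_le_mul_of_nonneg_right this hτ0
  have s3 : (∑ i, ∑ v ∈ D₀ ∪ C₀, ∑ v' ∈ D₀ ∪ C₀,
      if v ≠ v' ∧ v ∈ X.D i ∪ X.C i ∧ v' ∈ X.D i ∪ X.C i then X.w i else 0) ≤
      (2 * s) ^ 2 * κ := by
    rw [Finset.sum_comm]
    have : ∀ v ∈ D₀ ∪ C₀, (∑ i, ∑ v' ∈ D₀ ∪ C₀,
        if v ≠ v' ∧ v ∈ X.D i ∪ X.C i ∧ v' ∈ X.D i ∪ X.C i then X.w i else 0) ≤
        ((D₀ ∪ C₀).card : ℝ) * κ := by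
      intro v _
      rw [Finset.sum_comm]
      have : ∀ v' ∈ D₀ ∪ C₀, (∑ i,
          if v ≠ v' ∧ v ∈ X.D i ∪ X.C i ∧ v' ∈ X.D i ∪ X.C i then X.w i else 0) ≤ κ := by
        intro v' _
        by_cases hne : v = v'
        · rw [Finset.sum_eq_zero]
          · exact hκ0
          · intro i _
            rw [if_neg (fun hh => hh.1 hne)]
        · rw [← Finset.sum_filter]
          refine le_trans (le_of_eq ?_) (hκ v v' hne)
          congr 1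
          ext i
          simp [hne]
      refine (Finset.sum_le_sum this).trans ?_
      rw [Finset.sum_const, nsmul_eq_mul]
    refine (Finset.sum_le_sum this).trans ?_
    rw [Finset.sum_const, nsmul_eq_mul]
    have hc' : ((D₀ ∪ C₀).card : ℝ) ≤ 2 * s := by exact_mod_cast hT
    have hc0 : (0 : ℝ) ≤ ((D₀ ∪ C₀).card : ℝ) := Nat.cast_nonneg _
    have : ((D₀ ∪ C₀).card : ℝ) * ((D₀ ∪ C₀).card : ℝ) ≤ (2 * s) * (2 * s) :=
      mul_le_mul hc' hc' hc0 (hc0.trans hc')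
    calc ((D₀ ∪ C₀).card : ℝ) * (((D₀ ∪ C₀).card : ℝ) * κ)
        = (((D₀ ∪ C₀).card : ℝ) * ((D₀ ∪ C₀).card : ℝ)) * κ := by ring
      _ ≤ ((2 * s) * (2 * s)) * κ := mul_le_mul_of_nonneg_right this hκ0
      _ = (2 * s) ^ 2 * κ := by ring
  calc ∑ i, X.w i * cnd p D₀ C₀ (X.D i) (X.C i)
      ≤ ∑ i, (X.w i * ((∏ v ∈ X.D i, p v) * ∏ v ∈ X.C i, (1 - p v)) +
        (∑ v ∈ D₀ ∪ C₀, if v ∈ X.D i ∪ X.C i then
          X.w i * ((∏ u ∈ (X.D i).erase v, p u) * ∏ u ∈ (X.C i).erase v, (1 - p u)) else 0) +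
        ∑ v ∈ D₀ ∪ C₀, ∑ v' ∈ D₀ ∪ C₀, if v ≠ v' ∧ v ∈ X.D i ∪ X.C i ∧ v' ∈ X.D i ∪ X.C i then
          X.w i else 0) := Finset.sum_le_sum (fun i _ => key i)
    _ ≤ M + 2 * s * τ + (2 * s) ^ 2 * κ := by
        rw [Finset.sum_add_distrib, Finset.sum_add_distrib]
        linarith

end Pool.Agent.H77.AC
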