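import Pool.Agent.H77.AC.Ovl
import Pool.Agent.H77.AC.Gen

/-!
# AC-BLOCKS: conditional bound for the statistic `bS` (picks completing a short set)

Index `(x, H)`, `T = H.erase x ∩ L`, `D = pick (insert x T)`, at most `m` variables (`insert x T ⊆ H`), and
`1 ≤ |T|` (`noH`). `π = θ/a`, `K π ≤ 1`. History: at most `s m` variables `pick y`, `C₀ = ∅`. Let
`A' = {y ∈ insert x T : pick y ∈ D₀}`; `cnd ≤ π^{n}`, `n = |insert x T \ A'|`.

* `A' = ∅`: `∑_x π ∑_H π^{|T|} ≤ |Es| a π θ ∑_H a^{-|T|} ≤ |Es| θ² w` (`|T| ≥ 1`, `1 ≤ g`).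
* `A' ≠ ∅`, at most `(s m + 1)^m` sets `A'`.
  - `x ∈ A'` (at most `m` choices of `x` for given `A'`): if `A' = {x}`: `∑_H π^{|T|} ≤ w`. If there is `y ∈ A'`, `y ≠ x`:
    `H ↦ H \ {x, y}`, family `f1 x y`, `A = A' \ {x,y}`, exactly `n` live elements outside `A`: at most
    `K^(n-1) Γ` (truncated) sets, weight `π^n`, each term `≤ Γ`; sum over `n ≤ m`: `(m+1) Γ`.
    Together `≤ m (w + (m+1) Γ)`.
  - `x ∉ A'`; fix `y ∈ A'` and the edge `f = ed x ∈ Es`: `(x, H) ↦ Q = H.erase y` is injective into the family `f3 y f`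
    (`x` is the element of `Q` on `f`), `A = A'.erase y`, exactly `n ≥ 1` live elements outside `A` (`x` included):
    `∑_{n=1}^m K^(n-1) Γ π^n ≤ m Γ / K`; sum over `f ∈ Es`, `|Es| ≤ K`: `≤ m Γ`.
Total `≤ |Es| θ² w + (s m + 1)^m m (w + (m + 2) Γ)`.
-/

set_option autoImplicit false

open Finset
open scoped Classical

namespace Pool.Agent.H77.AC

variable {X E N : Type} [DecidableEq X] [DecidableEq E] [DecidableEq N] [Fintype X]
variable {S : Sys X E N} {st : St X E} {K a B Γ m : ℕ} {ρ w g θ δ : ℝ}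

/-- number of small subsets -/
private theorem bs_subsets (Y : Finset X) (m : ℕ) :
    (Y.powerset.filter (fun A => A.card ≤ m)).card ≤ (Y.card + 1) ^ m := by
  have h1 : ∀ A ∈ Y.powerset.filter (fun A => A.card ≤ m), A.card ∈ range (m + 1) := by
    intro A hA
    rw [mem_filter] at hA
    rw [mem_range]
    omega
  rw [card_eq_sum_card_fiberwise h1, add_pow]
  refine sum_le_sum fun k hk => ?_
  rw [mem_range] at hk
  have h2 : ((Y.powerset.filter (fun A => A.card ≤ m)).filter (fun A => A.card = k)).card ≤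
      Y.card.choose k := by
    rw [← card_powersetCard]
    refine card_le_card fun A hA => ?_
    rw [mem_filter, mem_filter, mem_powerset] at hA
    rw [mem_powersetCard]
    exact ⟨hA.1.1, hA.2⟩
  have h3 : Y.card.choose k ≤ Y.card ^ k := Nat.choose_le_pow _ _
  have h4 : 1 ≤ m.choose k := Nat.choose_pos (by omega)
  rw [one_pow, mul_one]
  exact h2.trans (h3.trans (Nat.le_mul_of_pos_right _ h4))

private theorem bs_pi (h : Hyp S st K a B Γ m ρ w g θ δ) :
    0 ≤ θ / a ∧ θ / a ≤ 1 ∧ K * (θ / a) ≤ 1 ∧ (a : ℝ) * (θ / a) = θ := by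
  have ha : (1 : ℝ) ≤ a := by exact_mod_cast h.a0
  have ha0 : (0 : ℝ) < a := by linarith
  refine ⟨div_nonneg h.θ0.le ha0.le, ?_, ?_, ?_⟩
  · rw [div_le_one ha0]
    exact h.θ1.trans ha
  · rw [← mul_div_assoc, div_le_one ha0]
    exact h.Kθ
  · field_simp

/-- counting by levels with a crude family -/
private theorem bs_level (h : Hyp S st K a B Γ m ρ w g θ δ) {ι : Type} (φ : Fm X E N)
    (A : Finset X) (J : Finset ι) (q : ι → Finset X) (hinj : Set.InjOn q J)
    (hq : ∀ i ∈ J, q i ∈ φ.sets S ∧ A ⊆ q i ∧ q i \ A ⊆ st.R ∪ st.L) (Ns : Finset ℕ)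
    (e : ι → ℕ) (he : ∀ i ∈ J, e i = ((q i \ A) ∩ st.L).card) (hN : ∀ i ∈ J, e i ∈ Ns) :
    ∑ i ∈ J, (θ / a) ^ (e i) ≤ ∑ n ∈ Ns, ((K : ℝ) ^ (n - 1) * Γ) * (θ / a) ^ n := by
  rw [← sum_fiberwise_of_maps_to hN]
  refine sum_le_sum fun n _ => ?_
  have h1 : ∑ i ∈ J.filter (fun i => e i = n), (θ / a) ^ (e i) =
      ((J.filter (fun i => e i = n)).card : ℝ) * (θ / a) ^ n := by
    rw [← nsmul_eq_mul, ← sum_const]
    refine sum_congr rfl fun i hi => ?_
    rw [mem_filter] at hi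
    rw [hi.2]
  rw [h1]
  refine mul_le_mul_of_nonneg_right ?_ (pow_nonneg (bs_pi h).1 _)
  have h2 : (J.filter (fun i => e i = n)).card ≤ cnt st (φ.sets S) A n := by
    unfold cnt
    refine card_le_card_of_injOn q ?_ ?_
    · intro i hi
      rw [mem_coe, mem_filter] at hi
      rw [mem_coe, mem_filter]
      refine ⟨(hq i hi.1).1, (hq i hi.1).2.1, (hq i hi.1).2.2, ?_⟩
      rw [← he i hi.1]
      exact hi.2
    · intro i hi j hj hij
      rw [mem_coe, mem_filter] at hi hj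
      exact hinj hi.1 hj.1 hij
  have h3 := h2.trans (h.inv.crude φ A n)
  exact_mod_cast h3

private theorem bs_term (h : Hyp S st K a B Γ m ρ w g θ δ) (n : ℕ) (hn : 1 ≤ n) :
    ((K : ℝ) ^ (n - 1) * Γ) * (θ / a) ^ n ≤ Γ * (θ / a) := by
  obtain ⟨h0, h1, h2, _⟩ := bs_pi h
  obtain ⟨k, rfl⟩ : ∃ k, n = k + 1 := ⟨n - 1, by omega⟩
  have e : ((K : ℝ) ^ (k + 1 - 1) * Γ) * (θ / a) ^ (k + 1) =
      (K * (θ / a)) ^ k * (Γ * (θ / a)) := by
    rw [Nat.add_sub_cancel, mul_pow, pow_succ]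
    ring
  rw [e]
  have h3 : (K * (θ / a)) ^ k ≤ 1 := pow_le_one₀ (by positivity) h2
  have h4 : (0 : ℝ) ≤ Γ * (θ / a) := by positivity
  calc (K * (θ / a)) ^ k * (Γ * (θ / a)) ≤ 1 * (Γ * (θ / a)) :=
        mul_le_mul_of_nonneg_right h3 h4
    _ = Γ * (θ / a) := one_mul _

/-- the sum over the short sets through a live pair -/
private theorem bs_wgt (h : Hyp S st K a B Γ m ρ w g θ δ) (x : X) (hx : x ∈ st.L) :
    ∑ H ∈ S.C.filter (fun H => x ∈ H ∧ H.erase x ⊆ st.R ∪ st.L),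
      (θ / a) ^ (H.erase x ∩ st.L).card ≤ θ * w := by
  have ha : (1 : ℝ) ≤ a := by exact_mod_cast h.a0
  have ha0 : (0 : ℝ) < a := by linarith
  have h1 := h.inv.weight x hx
  unfold wgt at h1
  refine le_trans ?_ (mul_le_mul_of_nonneg_left h1 h.θ0.le)
  rw [mul_sum]
  refine sum_le_sum fun H hH => ?_
  rw [mem_filter] at hH
  have ht : (H.erase x ∩ st.L).card ≠ 0 := by
    intro h0
    rw [card_eq_zero] at h0
    refine h.inv.noH H hH.1 x hH.2.1 hx ?_
    intro y hy
    rcases mem_union.1 (hH.2.2 hy) with h2 | h2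
    · exact h2
    · exfalso
      have : y ∈ H.erase x ∩ st.L := mem_inter.2 ⟨hy, h2⟩
      rw [h0] at this
      exact notMem_empty _ this
  have h2 : θ ^ (H.erase x ∩ st.L).card ≤ θ := by
    calc θ ^ (H.erase x ∩ st.L).card ≤ θ ^ 1 :=
          pow_le_pow_of_le_one h.θ0.le h.θ1 (Nat.one_le_iff_ne_zero.2 ht)
      _ = θ := pow_one θ
  have h3 : (1 : ℝ) ≤ g ^ (H.card - 1) := one_le_pow₀ h.g1
  rw [div_pow, ← mul_div_assoc]
  refine div_le_div_of_nonneg_right ?_ (by positivity)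
  have h4 := h.θ0
  nlinarith

/-- the nonzero indices -/
private noncomputable def bsI (S : Sys X E N) (st : St X E) (Es : Finset E) :
    Finset (X × Finset X) :=
  univ.filter (fun i => i.1 ∈ st.L ∧ S.ed i.1 ∈ Es ∧ i.2 ∈ S.C ∧ i.1 ∈ i.2 ∧
    i.2.erase i.1 ⊆ st.R ∪ st.L)

private theorem bs_mem {Es : Finset E} {i : X × Finset X} : i ∈ bsI S st Es ↔
    i.1 ∈ st.L ∧ S.ed i.1 ∈ Es ∧ i.2 ∈ S.C ∧ i.1 ∈ i.2 ∧ i.2.erase i.1 ⊆ st.R ∪ st.L := by
  unfold bsI
  rw [mem_filter]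
  exact ⟨fun h => h.2, fun h => ⟨mem_univ _, h⟩⟩

private theorem bs_V {x : X} {H : Finset X} (hx : x ∈ st.L) (hH : x ∈ H) :
    insert x (H.erase x ∩ st.L) = H ∩ st.L := by
  ext y
  rw [mem_insert, mem_inter, mem_inter, mem_erase]
  constructor
  · rintro (rfl | ⟨⟨_, h1⟩, h2⟩)
    · exact ⟨hH, hx⟩
    · exact ⟨h1, h2⟩
  · rintro ⟨h1, h2⟩
    by_cases hyx : y = x
    · exact Or.inl hyx
    · exact Or.inr ⟨⟨hyx, h1⟩, h2⟩

/-- the sum over `H` for a fixed first component -/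
private theorem bs_fix (h : Hyp S st K a B Γ m ρ w g θ δ) {Es : Finset E} (x : X)
    (J : Finset (X × Finset X)) (hJ : ∀ i ∈ J, i ∈ bsI S st Es ∧ i.1 = x) :
    ∑ i ∈ J, (θ / a) ^ (i.2.erase x ∩ st.L).card ≤ θ * w := by
  rcases J.eq_empty_or_nonempty with h0 | ⟨i₀, hi₀⟩
  · rw [h0, sum_empty]
    exact mul_nonneg h.θ0.le h.w0
  have hx : x ∈ st.L := by
    have := bs_mem.1 (hJ i₀ hi₀).1
    rw [(hJ i₀ hi₀).2] at this
    exact this.1
  have hinj : Set.InjOn (Prod.snd : X × Finset X → Finset X) J := by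
    intro i hi j hj hij
    exact Prod.ext ((hJ i hi).2.trans (hJ j hj).2.symm) hij
  have h1 : ∑ i ∈ J, (θ / a) ^ (i.2.erase x ∩ st.L).card =
      ∑ H ∈ J.image Prod.snd, (θ / a) ^ (H.erase x ∩ st.L).card := by
    rw [sum_image hinj]
  rw [h1]
  refine le_trans (sum_le_sum_of_subset_of_nonneg ?_ ?_) (bs_wgt h x hx)
  · intro H hH
    rw [mem_image] at hH
    obtain ⟨i, hi, rfl⟩ := hH
    have h2 := bs_mem.1 (hJ i hi).1
    rw [(hJ i hi).2] at h2
    rw [mem_filter]
    exact ⟨h2.2.2.1, h2.2.2.2⟩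
  · intro H _ _
    exact pow_nonneg (bs_pi h).1 _

/-- indices without variables in the history -/
private theorem bs_part0 (h : Hyp S st K a B Γ m ρ w g θ δ) (Es : Finset E) :
    ∑ i ∈ bsI S st Es, (θ / a) ^ (i.2 ∩ st.L).card ≤ Es.card * (θ ^ 2 * w) := by
  have h1 : ∀ i ∈ bsI S st Es, i.1 ∈ st.L.filter (fun x => S.ed x ∈ Es) := by
    intro i hi
    rw [bs_mem] at hi
    rw [mem_filter]
    exact ⟨hi.1, hi.2.1⟩
  rw [← sum_fiberwise_of_maps_to h1]
  have h2 : ∀ x ∈ st.L.filter (fun x => S.ed x ∈ Es),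
      ∑ i ∈ (bsI S st Es).filter (fun i => i.1 = x), (θ / a) ^ (i.2 ∩ st.L).card ≤
        (θ / a) * (θ * w) := by
    intro x hx
    rw [mem_filter] at hx
    have h3 : ∑ i ∈ (bsI S st Es).filter (fun i => i.1 = x), (θ / a) ^ (i.2 ∩ st.L).card =
        (θ / a) * ∑ i ∈ (bsI S st Es).filter (fun i => i.1 = x),
          (θ / a) ^ (i.2.erase x ∩ st.L).card := by
      rw [mul_sum]
      refine sum_congr rfl fun i hi => ?_
      rw [mem_filter, bs_mem] at hi
      have hxi : x ∈ i.2 := hi.2 ▸ hi.1.2.2.2.1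
      rw [← bs_V hx.1 hxi, card_insert_of_notMem (by
        rw [mem_inter, mem_erase]
        exact fun hh => hh.1.1 rfl), pow_succ]
      ring
    rw [h3]
    refine mul_le_mul_of_nonneg_left (bs_fix h (Es := Es) x _ fun i hi => ?_) (bs_pi h).1
    rw [mem_filter] at hi
    exact hi
  refine (sum_le_sum h2).trans ?_
  rw [sum_const, nsmul_eq_mul]
  have h3 : (st.L.filter (fun x => S.ed x ∈ Es)).card ≤ Es.card * a := by
    have h4 : st.L.filter (fun x => S.ed x ∈ Es) ⊆ Es.biUnion (own S st) := by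
      intro x hx
      rw [mem_filter] at hx
      rw [mem_biUnion]
      refine ⟨S.ed x, hx.2, ?_⟩
      rw [own, mem_filter]
      exact ⟨hx.1, rfl⟩
    refine (card_le_card h4).trans (card_biUnion_le.trans ?_)
    refine (sum_le_card_nsmul Es _ a fun e _ => ?_).trans (le_of_eq (smul_eq_mul _ _))
    by_cases he : e ∈ st.U
    · exact (h.inv.list e he).le
    · have : own S st e = ∅ := by
        rw [own, filter_eq_empty_iff]
        intro x hx hxe
        exact he (hxe ▸ h.inv.L_U x hx)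
      rw [this, card_empty]
      exact Nat.zero_le _
  have h4 : ((st.L.filter (fun x => S.ed x ∈ Es)).card : ℝ) ≤ Es.card * a := by exact_mod_cast h3
  obtain ⟨p0, p1, p2, p3⟩ := bs_pi h
  have h5 : 0 ≤ (θ / a) * (θ * w) := mul_nonneg p0 (mul_nonneg h.θ0.le h.w0)
  calc ((st.L.filter (fun x => S.ed x ∈ Es)).card : ℝ) * ((θ / a) * (θ * w))
      ≤ (Es.card * a) * ((θ / a) * (θ * w)) := mul_le_mul_of_nonneg_right h4 h5
    _ = Es.card * ((a * (θ / a)) * (θ * w)) := by ring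
    _ = Es.card * (θ ^ 2 * w) := by
        rw [p3]
        ring

/-- indices whose first component is in the history -/
private theorem bs_part1 (h : Hyp S st K a B Γ m ρ w g θ δ) {Es : Finset E} (A' : Finset X)
    (x : X) (hxA : x ∈ A') (J : Finset (X × Finset X))
    (hJ : ∀ i ∈ J, i ∈ bsI S st Es ∧ i.1 = x ∧ A' ⊆ i.2 ∩ st.L) :
    ∑ i ∈ J, (θ / a) ^ ((i.2 ∩ st.L) \ A').card ≤ w + (m + 1) * Γ := by
  obtain ⟨p0, p1, p2, p3⟩ := bs_pi h
  have hΓ : (0 : ℝ) ≤ (m + 1) * Γ := by positivity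
  by_cases hA : A' = {x}
  · have h1 : ∑ i ∈ J, (θ / a) ^ ((i.2 ∩ st.L) \ A').card =
        ∑ i ∈ J, (θ / a) ^ (i.2.erase x ∩ st.L).card := by
      refine sum_congr rfl fun i _ => ?_
      congr 2
      rw [hA]
      ext y
      simp only [mem_sdiff, mem_inter, mem_erase, mem_singleton]
      tauto
    rw [h1]
    have h2 := bs_fix h (Es := Es) x J fun i hi => ⟨(hJ i hi).1, (hJ i hi).2.1⟩
    have h3 : θ * w ≤ w := by
      have := mul_le_mul_of_nonneg_right h.θ1 h.w0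
      linarith
    linarith
  · obtain ⟨y, hyA, hyx⟩ : ∃ y ∈ A', y ≠ x := by
      by_contra hcon
      push Not at hcon
      exact hA (eq_singleton_iff_unique_mem.2 ⟨hxA, hcon⟩)
    have hset : ∀ i ∈ J, (i.2 \ {x, y}) \ (A' \ {x, y}) = i.2 \ A' := by
      intro i _
      ext z
      simp only [mem_sdiff, mem_insert, mem_singleton]
      constructor
      · rintro ⟨⟨h1, h2⟩, h3⟩
        exact ⟨h1, fun h4 => h3 ⟨h4, h2⟩⟩
      · rintro ⟨h1, h2⟩
        refine ⟨⟨h1, ?_⟩, fun h4 => h2 h4.1⟩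
        rintro (rfl | rfl)
        · exact h2 hxA
        · exact h2 hyA
    have hlev := bs_level h (Fm.f1 x y) (A' \ {x, y}) J (fun i => i.2 \ {x, y}) ?_ ?_
      (range (m + 1)) (fun i => ((i.2 ∩ st.L) \ A').card) ?_ ?_
    · refine hlev.trans ?_
      have h1 : ∀ n ∈ range (m + 1), ((K : ℝ) ^ (n - 1) * Γ) * (θ / a) ^ n ≤ Γ := by
        intro n _
        rcases Nat.eq_zero_or_pos n with h0 | h0
        · rw [h0]
          simp
        · refine (bs_term h n h0).trans ?_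
          have : (0 : ℝ) ≤ Γ := Nat.cast_nonneg _
          nlinarith
      refine (sum_le_sum h1).trans ?_
      rw [sum_const, card_range, nsmul_eq_mul]
      push_cast
      have := h.w0
      linarith
    · intro i hi j hj hij
      have hi' := hJ i hi
      have hj' := hJ j hj
      refine Prod.ext (hi'.2.1.trans hj'.2.1.symm) ?_
      have s1 : ({x, y} : Finset X) ⊆ i.2 := by
        intro z hz
        rw [mem_insert, mem_singleton] at hz
        rcases hz with rfl | rfl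
        · exact (mem_inter.1 (hi'.2.2 hxA)).1
        · exact (mem_inter.1 (hi'.2.2 hyA)).1
      have s2 : ({x, y} : Finset X) ⊆ j.2 := by
        intro z hz
        rw [mem_insert, mem_singleton] at hz
        rcases hz with rfl | rfl
        · exact (mem_inter.1 (hj'.2.2 hxA)).1
        · exact (mem_inter.1 (hj'.2.2 hyA)).1
      have e1 : i.2 \ {x, y} ∪ {x, y} = i.2 := sdiff_union_of_subset s1
      have e2 : j.2 \ {x, y} ∪ {x, y} = j.2 := sdiff_union_of_subset s2
      simp only at hij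
      rw [← e1, ← e2, hij]
    · intro i hi
      obtain ⟨hi1, hi2, hi3⟩ := hJ i hi
      rw [bs_mem] at hi1
      refine ⟨?_, ?_, ?_⟩
      · simp only [Fm.sets]
        rw [mem_image]
        refine ⟨i.2, ?_, rfl⟩
        rw [mem_filter]
        exact ⟨hi1.2.2.1, hyx.symm, hi2 ▸ hi1.2.2.2.1, (mem_inter.1 (hi3 hyA)).1⟩
      · exact sdiff_subset_sdiff (hi3.trans inter_subset_left) (Subset.refl _)
      · rw [hset i hi]
        intro z hz
        rw [mem_sdiff] at hz
        apply hi1.2.2.2.2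
        rw [mem_erase, hi2]
        exact ⟨fun hzx => hz.2 (hzx ▸ hxA), hz.1⟩
    · intro i hi
      rw [hset i hi]
      congr 1
      ext z
      simp only [mem_sdiff, mem_inter]
      tauto
    · intro i hi
      obtain ⟨hi1, hi2, hi3⟩ := hJ i hi
      rw [bs_mem] at hi1
      rw [mem_range]
      have h1 : ((i.2 ∩ st.L) \ A').card ≤ i.2.card :=
        card_le_card (sdiff_subset.trans inter_subset_left)
      have h2 := h.good.card_le i.2 hi1.2.2.1
      omega

/-- indices with a given edge, first component not in the history -/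
private theorem bs_part2 (h : Hyp S st K a B Γ m ρ w g θ δ) {Es : Finset E} (A' : Finset X)
    (y : X) (hyA : y ∈ A') (f : E) (J : Finset (X × Finset X))
    (hJ : ∀ i ∈ J, i ∈ bsI S st Es ∧ i.1 ∉ A' ∧ S.ed i.1 = f ∧ A' ⊆ i.2 ∩ st.L) :
    ∑ i ∈ J, (θ / a) ^ ((i.2 ∩ st.L) \ A').card ≤ m * (Γ * (θ / a)) := by
  have hset : ∀ i ∈ J, (i.2.erase y) \ (A'.erase y) = i.2 \ A' := by
    intro i _
    ext z
    simp only [mem_sdiff, mem_erase]
    constructor
    · rintro ⟨⟨h1, h2⟩, h3⟩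
      exact ⟨h2, fun h4 => h3 ⟨h1, h4⟩⟩
    · rintro ⟨h1, h2⟩
      exact ⟨⟨fun hzy => h2 (hzy ▸ hyA), h1⟩, fun h4 => h2 h4.2⟩
  have hlev := bs_level h (Fm.f3 y f) (A'.erase y) J (fun i => i.2.erase y) ?_ ?_
    (Ico 1 (m + 1)) (fun i => ((i.2 ∩ st.L) \ A').card) ?_ ?_
  · refine hlev.trans ?_
    have h1 : ∀ n ∈ Ico 1 (m + 1), ((K : ℝ) ^ (n - 1) * Γ) * (θ / a) ^ n ≤ Γ * (θ / a) := by
      intro n hn
      rw [mem_Ico] at hn
      exact bs_term h n hn.1
    refine (sum_le_sum h1).trans ?_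
    rw [sum_const, Nat.card_Ico, nsmul_eq_mul, Nat.add_sub_cancel]
  · intro i hi j hj hij
    obtain ⟨hi1, hi2, hi3, hi4⟩ := hJ i hi
    obtain ⟨hj1, hj2, hj3, hj4⟩ := hJ j hj
    rw [bs_mem] at hi1 hj1
    have e1 : insert y (i.2.erase y) = i.2 := insert_erase (mem_inter.1 (hi4 hyA)).1
    have e2 : insert y (j.2.erase y) = j.2 := insert_erase (mem_inter.1 (hj4 hyA)).1
    simp only at hij
    have e3 : i.2 = j.2 := by rw [← e1, ← e2, hij]
    refine Prod.ext ?_ e3
    by_contra hne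
    refine h.good.ed_inj i.2 hi1.2.2.1 i.1 hi1.2.2.2.1 j.1 ?_ hne (hi3.trans hj3.symm)
    rw [e3]
    exact hj1.2.2.2.1
  · intro i hi
    obtain ⟨hi1, hi2, hi3, hi4⟩ := hJ i hi
    rw [bs_mem] at hi1
    refine ⟨?_, ?_, ?_⟩
    · simp only [Fm.sets]
      rw [mem_image]
      refine ⟨i.2, ?_, rfl⟩
      rw [mem_filter]
      exact ⟨hi1.2.2.1, (mem_inter.1 (hi4 hyA)).1, i.1, hi1.2.2.2.1,
        fun he => hi2 (he ▸ hyA), hi3⟩
    · exact erase_subset_erase y (hi4.trans inter_subset_left)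
    · rw [hset i hi]
      intro z hz
      rw [mem_sdiff] at hz
      by_cases hzx : z = i.1
      · rw [mem_union]
        right
        rw [hzx]
        exact hi1.1
      · apply hi1.2.2.2.2
        rw [mem_erase]
        exact ⟨hzx, hz.1⟩
  · intro i hi
    rw [hset i hi]
    congr 1
    ext z
    simp only [mem_sdiff, mem_inter]
    tauto
  · intro i hi
    obtain ⟨hi1, hi2, hi3, hi4⟩ := hJ i hi
    rw [bs_mem] at hi1
    rw [mem_Ico]
    have h1 : ((i.2 ∩ st.L) \ A').card ≤ i.2.card :=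
      card_le_card (sdiff_subset.trans inter_subset_left)
    have h2 := h.good.card_le i.2 hi1.2.2.1
    have h3 : 0 < ((i.2 ∩ st.L) \ A').card := by
      rw [card_pos]
      refine ⟨i.1, ?_⟩
      rw [mem_sdiff, mem_inter]
      exact ⟨⟨hi1.2.2.2.1, hi1.1⟩, hi2⟩
    omega

/-- indices with a given nonempty trace on the history -/
private theorem bs_part (h : Hyp S st K a B Γ m ρ w g θ δ) {Es : Finset E} (hE : Es.card ≤ K)
    (A' : Finset X) (hne : A'.Nonempty) (hcard : A'.card ≤ m) (J : Finset (X × Finset X))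
    (hJ : ∀ i ∈ J, i ∈ bsI S st Es ∧ A' ⊆ i.2 ∩ st.L) :
    ∑ i ∈ J, (θ / a) ^ ((i.2 ∩ st.L) \ A').card ≤ m * (w + (m + 2) * Γ) := by
  obtain ⟨p0, p1, p2, p3⟩ := bs_pi h
  obtain ⟨y, hyA⟩ := hne
  rw [← sum_filter_add_sum_filter_not J (fun i => i.1 ∈ A')]
  have h1 : ∑ i ∈ J.filter (fun i => i.1 ∈ A'), (θ / a) ^ ((i.2 ∩ st.L) \ A').card ≤
      m * (w + (m + 1) * Γ) := by
    have hmap : ∀ i ∈ J.filter (fun i => i.1 ∈ A'), i.1 ∈ A' := by
      intro i hi
      rw [mem_filter] at hi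
      exact hi.2
    rw [← sum_fiberwise_of_maps_to hmap]
    have h2 : ∀ x ∈ A', ∑ i ∈ (J.filter (fun i => i.1 ∈ A')).filter (fun i => i.1 = x),
        (θ / a) ^ ((i.2 ∩ st.L) \ A').card ≤ w + (m + 1) * Γ := by
      intro x hx
      refine bs_part1 h (Es := Es) A' x hx _ fun i hi => ?_
      rw [mem_filter, mem_filter] at hi
      exact ⟨(hJ i hi.1.1).1, hi.2, (hJ i hi.1.1).2⟩
    refine (sum_le_sum h2).trans ?_
    rw [sum_const, nsmul_eq_mul]
    have h3 : (A'.card : ℝ) ≤ m := by exact_mod_cast hcard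
    have h4 : 0 ≤ w + (m + 1) * (Γ : ℝ) := by
      have := h.w0
      positivity
    exact mul_le_mul_of_nonneg_right h3 h4
  have h2 : ∑ i ∈ J.filter (fun i => ¬ i.1 ∈ A'), (θ / a) ^ ((i.2 ∩ st.L) \ A').card ≤
      m * Γ := by
    have hmap : ∀ i ∈ J.filter (fun i => ¬ i.1 ∈ A'), S.ed i.1 ∈ Es := by
      intro i hi
      rw [mem_filter] at hi
      exact (bs_mem.1 (hJ i hi.1).1).2.1
    rw [← sum_fiberwise_of_maps_to hmap]
    have h2 : ∀ f ∈ Es, ∑ i ∈ (J.filter (fun i => ¬ i.1 ∈ A')).filter (fun i => S.ed i.1 = f),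
        (θ / a) ^ ((i.2 ∩ st.L) \ A').card ≤ m * (Γ * (θ / a)) := by
      intro f _
      refine bs_part2 h (Es := Es) A' y hyA f _ fun i hi => ?_
      rw [mem_filter, mem_filter] at hi
      exact ⟨(hJ i hi.1.1).1, hi.1.2, hi.2, (hJ i hi.1.1).2⟩
    refine (sum_le_sum h2).trans ?_
    rw [sum_const, nsmul_eq_mul]
    have h3 : (Es.card : ℝ) ≤ K := by exact_mod_cast hE
    have h4 : (0 : ℝ) ≤ m * (Γ * (θ / a)) := by positivity
    have h5 : (0 : ℝ) ≤ m * Γ := by positivity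
    calc (Es.card : ℝ) * (m * (Γ * (θ / a))) ≤ K * (m * (Γ * (θ / a))) :=
          mul_le_mul_of_nonneg_right h3 h4
      _ = (K * (θ / a)) * (m * Γ) := by ring
      _ ≤ 1 * (m * Γ) := mul_le_mul_of_nonneg_right p2 h5
      _ = m * Γ := one_mul _
  calc _ ≤ m * (w + (m + 1) * Γ) + m * Γ := add_le_add h1 h2
    _ = m * (w + (m + 2) * Γ) := by ring

theorem bS_bdd (h : Hyp S st K a B Γ m ρ w g θ δ) (Es : Finset E) (hE : Es.card ≤ K) (s : ℕ) :
    (bS S st Es).Bdd (pr S st a B θ δ) s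
      (Es.card * (θ ^ 2 * w) + (s * m + 1) ^ m * m * (w + (m + 2) * Γ)) := by
  obtain ⟨p0, p1, p2, p3⟩ := bs_pi h
  intro hs hc hw hd
  have hw' : ∀ i : X × Finset X, (bS S st Es).w i ≠ 0 → i ∈ bsI S st Es := by
    intro i hi
    rw [bs_mem]
    by_contra hcon
    exact hi (if_neg hcon)
  set D₀ := hs.biUnion (bS S st Es).D with hD₀
  set C₀ := hs.biUnion (bS S st Es).C with hC₀
  set Y : Finset X := univ.filter (fun y : X => pick y ∈ D₀) with hY
  -- size of the history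
  have hYc : Y.card ≤ s * m := by
    have h1 : Y ⊆ hs.biUnion (fun i => i.2 ∩ st.L) := by
      intro y hy
      rw [hY, mem_filter, hD₀, mem_biUnion] at hy
      obtain ⟨_, i, hi, hyi⟩ := hy
      have hi' := bs_mem.1 (hw' i (hw i hi))
      have hyi' : pick y ∈ (insert i.1 (i.2.erase i.1 ∩ st.L)).image pick := hyi
      rw [bs_V hi'.1 hi'.2.2.2.1, mem_image] at hyi'
      obtain ⟨z, hz, hzy⟩ := hyi'
      rw [mem_biUnion]
      refine ⟨i, hi, ?_⟩
      have : z = y := (Prod.ext_iff.1 hzy).2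
      rw [← this]
      exact hz
    refine (card_le_card h1).trans (card_biUnion_le.trans ?_)
    refine (sum_le_card_nsmul hs _ m fun i hi => ?_).trans ?_
    · have hi' := bs_mem.1 (hw' i (hw i hi))
      exact (card_le_card inter_subset_left).trans (h.good.card_le i.2 hi'.2.2.1)
    · rw [smul_eq_mul]
      exact Nat.mul_le_mul_right _ hc
  -- conditional probabilities
  have hcnd : ∀ i ∈ bsI S st Es, (bS S st Es).w i *
      cnd (pr S st a B θ δ) D₀ C₀ ((bS S st Es).D i) ((bS S st Es).C i) ≤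
        (θ / a) ^ ((i.2 ∩ st.L) \ Y).card := by
    intro i hi
    have hi' := bs_mem.1 hi
    have e1 : (bS S st Es).w i = 1 := if_pos hi'
    rw [e1, one_mul]
    have h1 := gen_cnd_le (pr S st a B θ δ) (pr_mem h) D₀ C₀ ((bS S st Es).D i)
      ((bS S st Es).C i) (((i.2 ∩ st.L) \ Y).image pick) ∅ ?_ (empty_subset _)
    · refine h1.trans (le_of_eq ?_)
      rw [prod_empty, mul_one, prod_image]
      · have e2 : ∀ y ∈ (i.2 ∩ st.L) \ Y, pr S st a B θ δ (pick y) = θ / a := by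
          intro y _
          simp [pr, pick]
        rw [prod_congr rfl e2, prod_const]
      · intro y _ z _ hyz
        exact (Prod.ext_iff.1 hyz).2
    · intro v hv
      rw [mem_image] at hv
      obtain ⟨y, hy, rfl⟩ := hv
      rw [mem_sdiff] at hy
      rw [mem_sdiff]
      constructor
      · show pick y ∈ (insert i.1 (i.2.erase i.1 ∩ st.L)).image pick
        rw [bs_V hi'.1 hi'.2.2.2.1]
        exact mem_image_of_mem _ hy.1
      · intro hyD
        apply hy.2
        rw [hY, mem_filter]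
        exact ⟨mem_univ _, hyD⟩
  have hsum : ∑ i, (bS S st Es).w i *
      cnd (pr S st a B θ δ) D₀ C₀ ((bS S st Es).D i) ((bS S st Es).C i) ≤
        ∑ i ∈ bsI S st Es, (θ / a) ^ ((i.2 ∩ st.L) \ Y).card := by
    have h1 : ∑ i, (bS S st Es).w i *
        cnd (pr S st a B θ δ) D₀ C₀ ((bS S st Es).D i) ((bS S st Es).C i) =
        ∑ i ∈ bsI S st Es, (bS S st Es).w i *
          cnd (pr S st a B θ δ) D₀ C₀ ((bS S st Es).D i) ((bS S st Es).C i) := by
      symm
      refine sum_subset (subset_univ (bsI S st Es)) fun i _ hi => ?_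
      have : (bS S st Es).w i = 0 := by
        by_contra hcon
        exact hi (hw' i hcon)
      rw [this, zero_mul]
    rw [h1]
    exact sum_le_sum hcnd
  refine hsum.trans ?_
  rw [← sum_filter_add_sum_filter_not (bsI S st Es) (fun i => (i.2 ∩ st.L) ∩ Y = ∅)]
  refine add_le_add ?_ ?_
  · refine le_trans ?_ (bs_part0 h Es)
    have hsub := filter_subset (fun i : X × Finset X => (i.2 ∩ st.L) ∩ Y = ∅) (bsI S st Es)
    refine le_trans (le_of_eq ?_) (sum_le_sum_of_subset_of_nonneg hsub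
      fun i _ _ => pow_nonneg p0 _)
    refine sum_congr rfl fun i hi => ?_
    rw [mem_filter] at hi
    congr 2
    rw [Finset.sdiff_eq_self_iff_disjoint, disjoint_iff_inter_eq_empty]
    exact hi.2
  · have hmap : ∀ i ∈ (bsI S st Es).filter (fun i => ¬ (i.2 ∩ st.L) ∩ Y = ∅),
        (i.2 ∩ st.L) ∩ Y ∈ (Y.powerset.filter (fun A => A.card ≤ m)).filter
          (fun A => A.Nonempty) := by
      intro i hi
      rw [mem_filter, bs_mem] at hi
      rw [mem_filter, mem_filter, mem_powerset]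
      refine ⟨⟨inter_subset_right, ?_⟩, nonempty_iff_ne_empty.2 hi.2⟩
      exact (card_le_card (inter_subset_left.trans inter_subset_left)).trans
        (h.good.card_le i.2 hi.1.2.2.1)
    rw [← sum_fiberwise_of_maps_to hmap]
    have h1 : ∀ A ∈ (Y.powerset.filter (fun A => A.card ≤ m)).filter (fun A => A.Nonempty),
        ∑ i ∈ ((bsI S st Es).filter (fun i => ¬ (i.2 ∩ st.L) ∩ Y = ∅)).filter
          (fun i => (i.2 ∩ st.L) ∩ Y = A), (θ / a) ^ ((i.2 ∩ st.L) \ Y).card ≤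
            m * (w + (m + 2) * Γ) := by
      intro A hA
      rw [mem_filter, mem_filter] at hA
      have h0 : ∑ i ∈ ((bsI S st Es).filter (fun i => ¬ (i.2 ∩ st.L) ∩ Y = ∅)).filter
          (fun i => (i.2 ∩ st.L) ∩ Y = A), (θ / a) ^ ((i.2 ∩ st.L) \ Y).card =
          ∑ i ∈ ((bsI S st Es).filter (fun i => ¬ (i.2 ∩ st.L) ∩ Y = ∅)).filter
          (fun i => (i.2 ∩ st.L) ∩ Y = A), (θ / a) ^ ((i.2 ∩ st.L) \ A).card := by
        refine sum_congr rfl fun i hi => ?_
        rw [mem_filter] at hi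
        congr 2
        rw [← hi.2]
        ext z
        simp only [mem_sdiff, mem_inter]
        tauto
      rw [h0]
      refine bs_part h hE A hA.2 hA.1.2 _ fun i hi => ?_
      rw [mem_filter, mem_filter] at hi
      refine ⟨hi.1.1, ?_⟩
      rw [← hi.2]
      exact inter_subset_left
    refine (sum_le_sum h1).trans ?_
    rw [sum_const, nsmul_eq_mul]
    have h2 : ((Y.powerset.filter (fun A => A.card ≤ m)).filter
        (fun A => A.Nonempty)).card ≤ (s * m + 1) ^ m := by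
      refine (card_filter_le _ _).trans ((bs_subsets Y m).trans ?_)
      exact Nat.pow_le_pow_left (by omega) m
    have h3 : (((Y.powerset.filter (fun A => A.card ≤ m)).filter
        (fun A => A.Nonempty)).card : ℝ) ≤ (s * m + 1) ^ m := by exact_mod_cast h2
    have h4 : (0 : ℝ) ≤ m * (w + (m + 2) * Γ) := by
      have := h.w0
      positivity
    calc _ ≤ ((s : ℝ) * m + 1) ^ m * (m * (w + (m + 2) * Γ)) := mul_le_mul_of_nonneg_right h3 h4
      _ = ((s : ℝ) * m + 1) ^ m * m * (w + (m + 2) * Γ) := by ring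

end Pool.Agent.H77.AC
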