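import Mathlib

/-!
# AC-CLOSING: sums over alternating walks

`V` finite, `A c`, `P c : V → V → ℝ` (`c = 0, 1`), `0 ≤ P ≤ A`, `A - P ≤ π` entrywise, all row sums of `A c` at most
`r`, all column sums of `P c` at most `r`, `0 ≤ r`, `0 ≤ π`. For a walk `v : Fin (n+1) → V` let
`prodW A v = ∏_{i < n} A (i mod 2) (v i) (v (i+1))`.

`mass`: `∑_{v, v 0 = p} prodW A v ≤ r^n`. `closing`:
`∑_{v, v 0 = p, v last = q} (prodW A v - prodW P v) ≤ n π r^(n-1)`.

Suggested proof with the shifted version (`par` = parity offset), by induction on `n` peeling the first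
step (`Fin.consEquiv`/`Fin.cons`): let `T n p q = ∑_{v 0 = p, v last = q} prodW A v` and `U n p q` the same for
`P`. Then `T (n+1) p q = ∑_u A p u * T n u q` (parity shifted), same for `U`, so
`(T - U)(n+1) p q = ∑_u A p u (T - U)(n) u q + ∑_u (A - P) p u * U n u q`
`≤ r * n π r^(n-1) + π ∑_u U n u q ≤ n π r^n + π r^n`,
where `∑_u U n u q ≤ r^n` is the column mass (induction peeling the first step:
`∑_p U (n+1) p q = ∑_u (∑_p P p u) U n u q ≤ r ∑_u U n u q`). For `n = 0` the difference is zero.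
-/

set_option autoImplicit false

open Finset
open scoped Classical

namespace Pool.Agent.H77.AC

variable {V : Type} [Fintype V]

/-- product along a walk, the matrices alternate; `A true` for even steps -/
noncomputable def prodW (A : Bool → V → V → ℝ) {n : ℕ} (v : Fin (n + 1) → V) : ℝ :=
  ∏ i : Fin n, A (decide ((i : ℕ) % 2 = 0)) (v i.castSucc) (v i.succ)

/-- the matrices with the parity shifted -/
def shW (A : Bool → V → V → ℝ) : Bool → V → V → ℝ := fun b => A (!b)

/-- weighted sum over the walks from `p`, with a weight at the end -/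
noncomputable def RW : ℕ → (Bool → V → V → ℝ) → (V → ℝ) → V → ℝ
  | 0, _, f => f
  | n + 1, A, f => fun p => ∑ u, A true p u * RW n (shW A) f u

theorem closing_prodW_cons (A : Bool → V → V → ℝ) (n : ℕ) (p : V) (w : Fin (n + 1) → V) :
    prodW A (Fin.cons p w : Fin (n + 2) → V) = A true p (w 0) * prodW (shW A) w := by
  unfold prodW
  rw [Fin.prod_univ_succ]
  congr 1
  apply Finset.prod_congr rfl
  intro i _
  have h1 : (Fin.cons p w : Fin (n + 2) → V) (Fin.castSucc (Fin.succ i)) = w i.castSucc := by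
    rw [← Fin.succ_castSucc, Fin.cons_succ]
  have h2 : (Fin.cons p w : Fin (n + 2) → V) (Fin.succ (Fin.succ i)) = w i.succ := by
    rw [Fin.cons_succ]
  rw [h1, h2]
  have h3 : decide (((Fin.succ i : Fin (n + 1)) : ℕ) % 2 = 0) = !decide ((i : ℕ) % 2 = 0) := by
    rw [Fin.val_succ]
    rcases Nat.mod_two_eq_zero_or_one (i : ℕ) with h | h
    · have : ((i : ℕ) + 1) % 2 = 1 := by omega
      simp [h, this]
    · have : ((i : ℕ) + 1) % 2 = 0 := by omega
      simp [h, this]
  rw [h3]
  rfl

theorem closing_sum_cons (F : {n : ℕ} → (Fin (n + 1) → V) → ℝ) (n : ℕ) (p : V) :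
    ∑ v ∈ univ.filter (fun v : Fin (n + 2) → V => v 0 = p), F v =
      ∑ w : Fin (n + 1) → V, F (Fin.cons p w : Fin (n + 2) → V) := by
  symm
  apply Finset.sum_bij (fun (w : Fin (n + 1) → V) _ => (Fin.cons p w : Fin (n + 2) → V))
  · intro w _
    simp
  · intro w _ w' _ h
    exact (Fin.cons_right_injective (α := fun _ => V) p) h
  · intro v hv
    rw [Finset.mem_filter] at hv
    refine ⟨Fin.tail v, Finset.mem_univ _, ?_⟩
    rw [← hv.2]
    exact Fin.cons_self_tail v
  · intro w _
    rfl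

theorem closing_sum_fiber (n : ℕ) (G : (Fin (n + 1) → V) → ℝ) :
    ∑ w : Fin (n + 1) → V, G w =
      ∑ u : V, ∑ w ∈ univ.filter (fun w : Fin (n + 1) → V => w 0 = u), G w := by
  exact (Finset.sum_fiberwise (s := univ) (g := fun w : Fin (n + 1) → V => w 0) (f := G)).symm

theorem closing_RW (f : V → ℝ) (n : ℕ) : ∀ (A : Bool → V → V → ℝ) (p : V),
    ∑ v ∈ univ.filter (fun v : Fin (n + 1) → V => v 0 = p), prodW A v * f (v (Fin.last n)) =
      RW n A f p := by
  induction n with
  | zero =>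
    intro A p
    have h : univ.filter (fun v : Fin (0 + 1) → V => v 0 = p) = {fun _ => p} := by
      ext v
      simp only [Finset.mem_filter, Finset.mem_univ, true_and, Finset.mem_singleton]
      constructor
      · intro h
        funext i
        have hi : i = 0 := by
          apply Fin.ext
          have := i.isLt
          simp only [Fin.val_zero]
          omega
        rw [hi]
        exact h
      · intro h
        rw [h]
    rw [h, Finset.sum_singleton]
    simp [prodW, RW]
  | succ n ih =>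
    intro A p
    rw [closing_sum_cons (fun {m} v => prodW A v * f (v (Fin.last m))) n p, closing_sum_fiber]
    simp only [RW]
    apply Finset.sum_congr rfl
    intro u _
    rw [← ih (shW A) u, Finset.mul_sum]
    apply Finset.sum_congr rfl
    intro w hw
    rw [Finset.mem_filter] at hw
    rw [closing_prodW_cons, hw.2, mul_assoc, ← Fin.succ_last, Fin.cons_succ]

theorem closing_RW_nonneg (f : V → ℝ) (hf : ∀ u, 0 ≤ f u) (n : ℕ) :
    ∀ (A : Bool → V → V → ℝ), (∀ b u u', 0 ≤ A b u u') → ∀ p, 0 ≤ RW n A f p := by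
  induction n with
  | zero => intro A _ p; exact hf p
  | succ n ih =>
    intro A hA p
    simp only [RW]
    exact Finset.sum_nonneg fun u _ => mul_nonneg (hA _ _ _) (ih _ (fun b => hA (!b)) u)

theorem closing_RW_mass (r : ℝ) (hr : 0 ≤ r) (n : ℕ) :
    ∀ (A : Bool → V → V → ℝ), (∀ b u u', 0 ≤ A b u u') → (∀ b u, ∑ u', A b u u' ≤ r) →
      ∀ p, RW n A (fun _ => 1) p ≤ r ^ n := by
  induction n with
  | zero => intro A _ _ p; simp [RW]
  | succ n ih =>
    intro A hA0 hA p
    simp only [RW]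
    calc ∑ u, A true p u * RW n (shW A) (fun _ => 1) u
        ≤ ∑ u, A true p u * r ^ n :=
          Finset.sum_le_sum fun u _ => mul_le_mul_of_nonneg_left
            (ih _ (fun b => hA0 (!b)) (fun b => hA (!b)) u) (hA0 _ _ _)
      _ = (∑ u, A true p u) * r ^ n := by rw [Finset.sum_mul]
      _ ≤ r * r ^ n := mul_le_mul_of_nonneg_right (hA _ _) (by positivity)
      _ = r ^ (n + 1) := by ring

theorem closing_RW_col (r : ℝ) (hr : 0 ≤ r) (f : V → ℝ) (hf : ∀ u, 0 ≤ f u) (n : ℕ) :
    ∀ (P : Bool → V → V → ℝ), (∀ b u u', 0 ≤ P b u u') → (∀ b u', ∑ u, P b u u' ≤ r) →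
      ∑ p, RW n P f p ≤ r ^ n * ∑ u, f u := by
  induction n with
  | zero => intro A _ _; simp [RW]
  | succ n ih =>
    intro P hP0 hP
    simp only [RW]
    rw [Finset.sum_comm]
    calc ∑ u, ∑ p, P true p u * RW n (shW P) f u
        = ∑ u, (∑ p, P true p u) * RW n (shW P) f u := by
          apply Finset.sum_congr rfl
          intro u _
          rw [Finset.sum_mul]
      _ ≤ ∑ u, r * RW n (shW P) f u :=
          Finset.sum_le_sum fun u _ => mul_le_mul_of_nonneg_right (hP _ _)
            (closing_RW_nonneg f hf n _ (fun b => hP0 (!b)) u)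
      _ = r * ∑ u, RW n (shW P) f u := by rw [Finset.mul_sum]
      _ ≤ r * (r ^ n * ∑ u, f u) :=
          mul_le_mul_of_nonneg_left (ih _ (fun b => hP0 (!b)) (fun b => hP (!b))) hr
      _ = r ^ (n + 1) * ∑ u, f u := by ring

theorem closing_RW_diff (r π : ℝ) (hr : 0 ≤ r) (hπ : 0 ≤ π) (f : V → ℝ) (hf : ∀ u, 0 ≤ f u)
    (hf1 : ∑ u, f u ≤ 1) (n : ℕ) :
    ∀ (A P : Bool → V → V → ℝ), (∀ b u u', 0 ≤ P b u u') → (∀ b u u', P b u u' ≤ A b u u') →
      (∀ b u u', A b u u' - P b u u' ≤ π) → (∀ b u, ∑ u', A b u u' ≤ r) →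
      (∀ b u', ∑ u, P b u u' ≤ r) →
      ∀ p, RW n A f p - RW n P f p ≤ n * π * r ^ (n - 1) := by
  induction n with
  | zero => intro A P _ _ _ _ _ p; simp [RW]
  | succ n ih =>
    intro A P hP0 hPA hAP hA hP p
    have hA0 : ∀ b u u', 0 ≤ A b u u' := fun b u u' => (hP0 b u u').trans (hPA b u u')
    simp only [RW]
    rw [← Finset.sum_sub_distrib]
    have e : ∀ u, A true p u * RW n (shW A) f u - P true p u * RW n (shW P) f u =
        A true p u * (RW n (shW A) f u - RW n (shW P) f u) +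
        (A true p u - P true p u) * RW n (shW P) f u := by
      intro u; ring
    have hb : 0 ≤ (n : ℝ) * π * r ^ (n - 1) := by positivity
    have h1 : ∑ u, A true p u * (RW n (shW A) f u - RW n (shW P) f u) ≤
        r * (n * π * r ^ (n - 1)) := by
      calc ∑ u, A true p u * (RW n (shW A) f u - RW n (shW P) f u)
          ≤ ∑ u, A true p u * (n * π * r ^ (n - 1)) :=
            Finset.sum_le_sum fun u _ => mul_le_mul_of_nonneg_left
              (ih _ _ (fun b => hP0 (!b)) (fun b => hPA (!b)) (fun b => hAP (!b))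
                (fun b => hA (!b)) (fun b => hP (!b)) u) (hA0 _ _ _)
        _ = (∑ u, A true p u) * (n * π * r ^ (n - 1)) := by rw [Finset.sum_mul]
        _ ≤ r * (n * π * r ^ (n - 1)) := mul_le_mul_of_nonneg_right (hA _ _) hb
    have h2 : ∑ u, (A true p u - P true p u) * RW n (shW P) f u ≤ π * r ^ n := by
      calc ∑ u, (A true p u - P true p u) * RW n (shW P) f u
          ≤ ∑ u, π * RW n (shW P) f u :=
            Finset.sum_le_sum fun u _ => mul_le_mul_of_nonneg_right (hAP _ _ _)
              (closing_RW_nonneg f hf n _ (fun b => hP0 (!b)) u)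
        _ = π * ∑ u, RW n (shW P) f u := by rw [Finset.mul_sum]
        _ ≤ π * (r ^ n * ∑ u, f u) := mul_le_mul_of_nonneg_left
            (closing_RW_col r hr f hf n _ (fun b => hP0 (!b)) (fun b => hP (!b))) hπ
        _ ≤ π * (r ^ n * 1) := by
            apply mul_le_mul_of_nonneg_left _ hπ
            exact mul_le_mul_of_nonneg_left hf1 (by positivity)
        _ = π * r ^ n := by ring
    have h3 : r * (n * π * r ^ (n - 1)) = n * π * r ^ n := by
      rcases n with _ | n
      · simp
      · rw [Nat.add_sub_cancel, pow_succ]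
        ring
    calc ∑ u, (A true p u * RW n (shW A) f u - P true p u * RW n (shW P) f u)
        = ∑ u, A true p u * (RW n (shW A) f u - RW n (shW P) f u) +
          ∑ u, (A true p u - P true p u) * RW n (shW P) f u := by
          rw [← Finset.sum_add_distrib]
          exact Finset.sum_congr rfl fun u _ => e u
      _ ≤ n * π * r ^ n + π * r ^ n := by
          rw [← h3]
          exact add_le_add h1 h2
      _ = ((n + 1 : ℕ) : ℝ) * π * r ^ (n + 1 - 1) := by
          rw [Nat.add_sub_cancel]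
          push_cast
          ring

theorem mass (A : Bool → V → V → ℝ) (r : ℝ) (hr : 0 ≤ r) (hA0 : ∀ b u u', 0 ≤ A b u u')
    (hA : ∀ b u, ∑ u', A b u u' ≤ r) (n : ℕ) (p : V) :
    ∑ v ∈ univ.filter (fun v : Fin (n + 1) → V => v 0 = p), prodW A v ≤ r ^ n := by
  have h := closing_RW (fun _ => 1) n A p
  simp only [mul_one] at h
  rw [h]
  exact closing_RW_mass r hr n A hA0 hA p

theorem closing_sum_end (A : Bool → V → V → ℝ) (n : ℕ) (p q : V) :
    ∑ v ∈ univ.filter (fun v : Fin (n + 1) → V => v 0 = p ∧ v (Fin.last n) = q), prodW A v =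
      RW n A (fun u => if u = q then 1 else 0) p := by
  rw [← closing_RW, ← Finset.filter_filter, Finset.sum_filter]
  apply Finset.sum_congr rfl
  intro v _
  by_cases h : v (Fin.last n) = q
  · simp [h]
  · simp [h]

theorem closing (A P : Bool → V → V → ℝ) (r π : ℝ) (hr : 0 ≤ r) (hπ : 0 ≤ π)
    (hP0 : ∀ b u u', 0 ≤ P b u u') (hPA : ∀ b u u', P b u u' ≤ A b u u')
    (hAP : ∀ b u u', A b u u' - P b u u' ≤ π)
    (hA : ∀ b u, ∑ u', A b u u' ≤ r) (hP : ∀ b u', ∑ u, P b u u' ≤ r)
    (n : ℕ) (p q : V) :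
    ∑ v ∈ univ.filter (fun v : Fin (n + 1) → V => v 0 = p ∧ v (Fin.last n) = q),
      (prodW A v - prodW P v) ≤ n * π * r ^ (n - 1) := by
  rw [Finset.sum_sub_distrib, closing_sum_end, closing_sum_end]
  apply closing_RW_diff r π hr hπ _ _ _ n A P hP0 hPA hAP hA hP p
  · intro u
    split_ifs <;> norm_num
  · simp

/-- a walk whose steps lie in a relation with at most one continuation is determined by its start -/
theorem walk_unique (Q : Bool → V → V → Prop)
    (hQ : ∀ b u u₁ u₂, Q b u u₁ → Q b u u₂ → u₁ = u₂) (n : ℕ) (v v' : Fin (n + 1) → V)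
    (h0 : v 0 = v' 0)
    (h : ∀ i : Fin n, Q (decide ((i : ℕ) % 2 = 0)) (v i.castSucc) (v i.succ))
    (h' : ∀ i : Fin n, Q (decide ((i : ℕ) % 2 = 0)) (v' i.castSucc) (v' i.succ)) : v = v' := by
  funext i
  induction i using Fin.induction with
  | zero => exact h0
  | succ i ih =>
    have h1 := h i
    have h2 := h' i
    rw [← ih] at h2
    exact hQ _ _ _ _ h1 h2

theorem closing_walk_agree (Q : Bool → V → V → Prop)
    (hQ : ∀ b u u₁ u₂, Q b u u₁ → Q b u u₂ → u₁ = u₂) (n n' : ℕ) (v : Fin (n + 1) → V)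
    (v' : Fin (n' + 1) → V) (h0 : v 0 = v' 0)
    (h : ∀ i : Fin n, Q (decide ((i : ℕ) % 2 = 0)) (v i.castSucc) (v i.succ))
    (h' : ∀ i : Fin n', Q (decide ((i : ℕ) % 2 = 0)) (v' i.castSucc) (v' i.succ)) (k : ℕ) :
    ∀ (hk : k < n + 1) (hk' : k < n' + 1), v ⟨k, hk⟩ = v' ⟨k, hk'⟩ := by
  induction k with
  | zero => intro _ _; exact h0
  | succ k ih =>
    intro hk hk'
    have h1 := h ⟨k, by omega⟩
    have h2 := h' ⟨k, by omega⟩
    have e := ih (by omega) (by omega)
    have e1 : v (Fin.castSucc ⟨k, by omega⟩) = v ⟨k, by omega⟩ := rfl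
    have e2 : v' (Fin.castSucc ⟨k, by omega⟩) = v' ⟨k, by omega⟩ := rfl
    rw [e1] at h1
    rw [e2, ← e] at h2
    exact hQ _ _ _ _ h1 h2

theorem closing_walk_length_le (Q : Bool → V → V → Prop)
    (hQ : ∀ b u u₁ u₂, Q b u u₁ → Q b u u₂ → u₁ = u₂) (n n' : ℕ) (hn : n ≤ n')
    (v : Fin (n + 1) → V)
    (v' : Fin (n' + 1) → V) (hv' : Function.Injective v')
    (h0 : v 0 = v' 0) (hl : v (Fin.last n) = v' (Fin.last n'))
    (h : ∀ i : Fin n, Q (decide ((i : ℕ) % 2 = 0)) (v i.castSucc) (v i.succ))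
    (h' : ∀ i : Fin n', Q (decide ((i : ℕ) % 2 = 0)) (v' i.castSucc) (v' i.succ)) : n = n' := by
  have h1 := closing_walk_agree Q hQ n n' v v' h0 h h' n (by omega) (by omega)
  have e : v (Fin.last n) = v ⟨n, by omega⟩ := rfl
  rw [e, h1] at hl
  have h2 := hv' hl
  have h3 := congrArg Fin.val h2
  simpa using h3

/-- two injective walks in such a relation with the same start and the same end have the same
length -/
theorem walk_length (Q : Bool → V → V → Prop)
    (hQ : ∀ b u u₁ u₂, Q b u u₁ → Q b u u₂ → u₁ = u₂) (n n' : ℕ) (v : Fin (n + 1) → V)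
    (v' : Fin (n' + 1) → V) (hv : Function.Injective v) (hv' : Function.Injective v')
    (h0 : v 0 = v' 0) (hl : v (Fin.last n) = v' (Fin.last n'))
    (h : ∀ i : Fin n, Q (decide ((i : ℕ) % 2 = 0)) (v i.castSucc) (v i.succ))
    (h' : ∀ i : Fin n', Q (decide ((i : ℕ) % 2 = 0)) (v' i.castSucc) (v' i.succ)) : n = n' := by
  rcases le_total n n' with hn | hn
  · exact closing_walk_length_le Q hQ n n' hn v v' hv' h0 hl h h'
  · exact (closing_walk_length_le Q hQ n' n hn v' v hv h0.symm hl.symm h' h).symm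

end Pool.Agent.H77.AC
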