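import Pool.Agent.H77.AC.BP

/-!
# AC-CYL: cylinder probabilities and the moment bound

Elementary facts on the finite product measure `wt p` on `I → Bool`.

* `sum_wt`: `∑ ω, wt p ω = 1` (`Finset.prod_univ_sum`/`Fintype.piFinset`, or induction; e.g.
  `∑ ω, ∏ i, f i (ω i) = ∏ i, ∑ b, f i b` is `Finset.prod_univ_sum` read backwards, with
  `Fintype.piFinset_univ`).
* `Pr_cyl`: `Pr p (Cyl D C) = ∏_{D} p ∏_{C} (1 - p)` if `D, C` are disjoint, `0` otherwise. Write the
  indicator of the cylinder as a product over `i` of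
  `g i (ω i)`, `g i b = (if i ∈ D ∧ b = false then 0 else 1) * (if i ∈ C ∧ b = true then 0 else 1)`.
* `Pr_cyl_union`: `Pr (Cyl (D₀ ∪ D) (C₀ ∪ C)) = Pr (Cyl D₀ C₀) * cnd p D₀ C₀ D C` if `D₀, C₀` are
  disjoint. Immediate from `Pr_cyl`:
  `∏_{D₀ ∪ D} = ∏_{D₀} ∏_{D \ D₀}`.
* `tail` (moment bound). For `j ≤ s` and every consistent history `h` (finset of indices of nonzero
  weight, `Disjoint (h.biUnion D) (h.biUnion C)`) with `h.card + j ≤ s`:
  `∑ ω, wt p ω * 1[Cyl (h.biUnion D) (h.biUnion C) ω] * (X.val ω)^j ≤ Pr (Cyl (h.biUnion D) (h.biUnion C)) * μ^j`.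
  Induction on `j`: `val^(j+1) = ∑_i w_i 1[Cyl (D i) (C i)] val^j`; for every `i` with `w i ≠ 0` either
  the union of the history with `i` is inconsistent (then both sides are zero: `cnd = 0` and the
  indicator product vanishes) or the induction hypothesis for `insert i h` applies and
  `Pr (Cyl (insert i h)) = Pr (Cyl h) * cnd`. Sum over `i` and use `Bdd`. (If `i ∈ h` then
  `insert i h = h`; card does not increase; fine.) For `h = ∅`: `E[val^s] ≤ μ^s`, and Markov:
  `lam^s * 1[lam ≤ val] ≤ val^s`.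
* `val_nonneg`, `val_congr`: `val ω` depends only on the variables in `supp`.
-/

set_option autoImplicit false
set_option linter.unusedSectionVars false

open Finset
open scoped Classical

namespace Pool.Agent.H77.AC

variable {I : Type} [Fintype I] [DecidableEq I]

theorem wt_nonneg (p : I → ℝ) (hp : ∀ i, 0 ≤ p i ∧ p i ≤ 1) (ω : I → Bool) : 0 ≤ wt p ω := by
  unfold wt
  refine Finset.prod_nonneg ?_
  intro i _
  split_ifs
  · exact (hp i).1
  · linarith [(hp i).2]

theorem cyl_sum_prod (f : I → Bool → ℝ) :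
    ∑ ω : I → Bool, ∏ i, f i (ω i) = ∏ i, (f i true + f i false) := by
  have h := Finset.prod_univ_sum (fun _ : I => (univ : Finset Bool)) (fun i b => f i b)
  rw [Fintype.piFinset_univ] at h
  rw [← h]
  refine Finset.prod_congr rfl ?_
  intro i _
  rw [Fintype.sum_bool]

theorem sum_wt (p : I → ℝ) : ∑ ω, wt p ω = 1 := by
  unfold wt
  rw [cyl_sum_prod (fun i b => if b = true then p i else 1 - p i)]
  simp

theorem Pr_nonneg (p : I → ℝ) (hp : ∀ i, 0 ≤ p i ∧ p i ≤ 1) (A : (I → Bool) → Prop) :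
    0 ≤ Pr p A := by
  unfold Pr
  refine Finset.sum_nonneg ?_
  intro ω _
  split_ifs
  · exact wt_nonneg p hp ω
  · exact le_rfl

theorem Pr_mono (p : I → ℝ) (hp : ∀ i, 0 ≤ p i ∧ p i ≤ 1) (A B : (I → Bool) → Prop)
    (h : ∀ ω, A ω → B ω) : Pr p A ≤ Pr p B := by
  unfold Pr
  refine Finset.sum_le_sum ?_
  intro ω _
  by_cases hA : A ω
  · rw [if_pos hA, if_pos (h ω hA)]
  · rw [if_neg hA]
    split_ifs
    · exact wt_nonneg p hp ω
    · exact le_rfl

theorem cyl_indicator (p : I → ℝ) (D C : Finset I) (ω : I → Bool) :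
    (if Cyl D C ω then wt p ω else 0) =
      ∏ i, ((if ω i = true then p i else 1 - p i) *
        ((if i ∈ D ∧ ω i = false then 0 else 1) * (if i ∈ C ∧ ω i = true then 0 else 1))) := by
  by_cases h : Cyl D C ω
  · rw [if_pos h]
    unfold wt
    refine Finset.prod_congr rfl ?_
    intro i _
    have h1 : ¬ (i ∈ D ∧ ω i = false) := by
      rintro ⟨hi, hb⟩
      rw [h.1 i hi] at hb
      exact Bool.noConfusion hb
    have h2 : ¬ (i ∈ C ∧ ω i = true) := by
      rintro ⟨hi, hb⟩
      rw [h.2 i hi] at hb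
      exact Bool.noConfusion hb
    rw [if_neg h1, if_neg h2]
    ring
  · rw [if_neg h]
    symm
    unfold Cyl at h
    rw [not_and_or] at h
    rcases h with h | h
    · push Not at h
      obtain ⟨i, hi, hb⟩ := h
      refine Finset.prod_eq_zero (Finset.mem_univ i) ?_
      have hb' : ω i = false := by
        cases hω : ω i
        · rfl
        · exact absurd hω hb
      rw [if_pos (⟨hi, hb'⟩ : i ∈ D ∧ ω i = false)]
      ring
    · push Not at h
      obtain ⟨i, hi, hb⟩ := h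
      refine Finset.prod_eq_zero (Finset.mem_univ i) ?_
      have hb' : ω i = true := by
        cases hω : ω i
        · exact absurd hω hb
        · rfl
      rw [if_pos (⟨hi, hb'⟩ : i ∈ C ∧ ω i = true)]
      ring

theorem Pr_cyl (p : I → ℝ) (D C : Finset I) :
    Pr p (Cyl D C) = if Disjoint D C then (∏ i ∈ D, p i) * ∏ i ∈ C, (1 - p i) else 0 := by
  unfold Pr
  rw [Finset.sum_congr rfl (fun ω _ => cyl_indicator p D C ω)]
  rw [cyl_sum_prod (fun i b => (if b = true then p i else 1 - p i) *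
        ((if i ∈ D ∧ b = false then 0 else 1) * (if i ∈ C ∧ b = true then 0 else 1)))]
  by_cases h : Disjoint D C
  · rw [if_pos h]
    have e1 : ∏ i ∈ D, p i = ∏ i, (if i ∈ D then p i else 1) := by
      rw [Finset.prod_ite_mem, Finset.univ_inter]
    have e2 : ∏ i ∈ C, (1 - p i) = ∏ i, (if i ∈ C then (1 - p i) else 1) := by
      rw [Finset.prod_ite_mem, Finset.univ_inter]
    rw [e1, e2, ← Finset.prod_mul_distrib]
    refine Finset.prod_congr rfl ?_
    intro i _
    by_cases hD : i ∈ D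
    · have hC : i ∉ C := Finset.disjoint_left.1 h hD
      simp [hD, hC]
    · by_cases hC : i ∈ C
      · simp [hD, hC]
      · simp [hD, hC]
  · rw [if_neg h]
    rw [Finset.not_disjoint_iff] at h
    obtain ⟨i, hD, hC⟩ := h
    refine Finset.prod_eq_zero (Finset.mem_univ i) ?_
    simp [hD, hC]

theorem Pr_cyl_union (p : I → ℝ) (D₀ C₀ D C : Finset I) (h : Disjoint D₀ C₀) :
    Pr p (Cyl (D₀ ∪ D) (C₀ ∪ C)) = Pr p (Cyl D₀ C₀) * cnd p D₀ C₀ D C := by
  rw [Pr_cyl, Pr_cyl, if_pos h]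
  unfold cnd
  by_cases h2 : Disjoint (D₀ ∪ D) (C₀ ∪ C)
  · rw [if_pos h2, if_pos h2]
    have e1 : D₀ ∪ D = D₀ ∪ (D \ D₀) := by
      ext x
      simp
    have e2 : C₀ ∪ C = C₀ ∪ (C \ C₀) := by
      ext x
      simp
    rw [e1, e2, Finset.prod_union Finset.disjoint_sdiff, Finset.prod_union Finset.disjoint_sdiff]
    ring
  · rw [if_neg h2, if_neg h2, mul_zero]

theorem cnd_nonneg (p : I → ℝ) (hp : ∀ i, 0 ≤ p i ∧ p i ≤ 1) (D₀ C₀ D C : Finset I) :
    0 ≤ cnd p D₀ C₀ D C := by
  unfold cnd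
  split_ifs
  · refine mul_nonneg (Finset.prod_nonneg ?_) (Finset.prod_nonneg ?_)
    · intro i _
      exact (hp i).1
    · intro i _
      linarith [(hp i).2]
  · exact le_rfl

theorem cnd_le_one (p : I → ℝ) (hp : ∀ i, 0 ≤ p i ∧ p i ≤ 1) (D₀ C₀ D C : Finset I) :
    cnd p D₀ C₀ D C ≤ 1 := by
  unfold cnd
  split_ifs
  · refine mul_le_one₀ (Finset.prod_le_one ?_ ?_) (Finset.prod_nonneg ?_) (Finset.prod_le_one ?_ ?_)
    · intro i _
      exact (hp i).1
    · intro i _
      exact (hp i).2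
    · intro i _
      linarith [(hp i).2]
    · intro i _
      linarith [(hp i).2]
    · intro i _
      linarith [(hp i).1]
  · exact zero_le_one

theorem val_nonneg (X : Stat I) (ω : I → Bool) : 0 ≤ X.val ω := by
  unfold Stat.val
  refine Finset.sum_nonneg ?_
  intro i _
  split_ifs
  · exact X.nn i
  · exact le_rfl

theorem val_congr (X : Stat I) (ω ω' : I → Bool) (h : ∀ i ∈ X.supp, ω i = ω' i) :
    X.val ω = X.val ω' := by
  unfold Stat.val
  refine Finset.sum_congr rfl ?_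
  intro i _
  by_cases hw : X.w i = 0
  · rw [hw]
    simp
  · have hmem : ∀ j ∈ X.D i ∪ X.C i, ω j = ω' j := by
      intro j hj
      refine h j ?_
      unfold Stat.supp
      rw [Finset.mem_biUnion]
      exact ⟨i, by simp [hw], hj⟩
    have hiff : Cyl (X.D i) (X.C i) ω ↔ Cyl (X.D i) (X.C i) ω' := by
      unfold Cyl
      constructor
      · rintro ⟨h1, h2⟩
        exact ⟨fun j hj => (hmem j (Finset.mem_union_left _ hj)) ▸ h1 j hj,
          fun j hj => (hmem j (Finset.mem_union_right _ hj)) ▸ h2 j hj⟩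
      · rintro ⟨h1, h2⟩
        exact ⟨fun j hj => (hmem j (Finset.mem_union_left _ hj)).symm ▸ h1 j hj,
          fun j hj => (hmem j (Finset.mem_union_right _ hj)).symm ▸ h2 j hj⟩
    by_cases hc : Cyl (X.D i) (X.C i) ω
    · rw [if_pos hc, if_pos (hiff.1 hc)]
    · rw [if_neg hc, if_neg (fun h' => hc (hiff.2 h'))]

theorem cyl_and (D₀ C₀ D C : Finset I) (ω : I → Bool) :
    Cyl (D₀ ∪ D) (C₀ ∪ C) ω ↔ Cyl D₀ C₀ ω ∧ Cyl D C ω := by
  unfold Cyl
  constructor
  · rintro ⟨h1, h2⟩
    exact ⟨⟨fun j hj => h1 j (Finset.mem_union_left _ hj),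
      fun j hj => h2 j (Finset.mem_union_left _ hj)⟩,
      ⟨fun j hj => h1 j (Finset.mem_union_right _ hj),
      fun j hj => h2 j (Finset.mem_union_right _ hj)⟩⟩
  · rintro ⟨⟨h1, h2⟩, ⟨h3, h4⟩⟩
    refine ⟨fun j hj => ?_, fun j hj => ?_⟩
    · rcases Finset.mem_union.1 hj with hj | hj
      · exact h1 j hj
      · exact h3 j hj
    · rcases Finset.mem_union.1 hj with hj | hj
      · exact h2 j hj
      · exact h4 j hj

theorem cyl_not_disjoint (D C : Finset I) (h : ¬ Disjoint D C) (ω : I → Bool) : ¬ Cyl D C ω := by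
  rw [Finset.not_disjoint_iff] at h
  obtain ⟨i, hD, hC⟩ := h
  rintro ⟨h1, h2⟩
  have a := h1 i hD
  rw [h2 i hC] at a
  exact Bool.noConfusion a

theorem cyl_moment (p : I → ℝ) (hp : ∀ i, 0 ≤ p i ∧ p i ≤ 1) (X : Stat I) (s : ℕ) (μ : ℝ)
    (hX : X.Bdd p s μ) (hμ : 0 ≤ μ) (j : ℕ) :
    ∀ h : Finset X.ι, h.card + j ≤ s → (∀ i ∈ h, X.w i ≠ 0) →
      Disjoint (h.biUnion X.D) (h.biUnion X.C) →
      ∑ ω, (if Cyl (h.biUnion X.D) (h.biUnion X.C) ω then wt p ω else 0) * (X.val ω) ^ j ≤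
        Pr p (Cyl (h.biUnion X.D) (h.biUnion X.C)) * μ ^ j := by
  induction j with
  | zero =>
    intro h _ _ _
    simp only [pow_zero, mul_one]
    exact le_rfl
  | succ j ih =>
    intro h hcard hw hdis
    have hB := hX h (by omega) hw hdis
    -- expand one factor of the value
    have e1 : ∀ ω : I → Bool,
        (if Cyl (h.biUnion X.D) (h.biUnion X.C) ω then wt p ω else 0) * (X.val ω) ^ (j + 1) =
        ∑ i, X.w i * ((if Cyl (h.biUnion X.D ∪ X.D i) (h.biUnion X.C ∪ X.C i) ω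
          then wt p ω else 0) * (X.val ω) ^ j) := by
      intro ω
      rw [pow_succ']
      have e0 : X.val ω = ∑ i, if Cyl (X.D i) (X.C i) ω then X.w i else 0 := rfl
      conv_lhs => rw [e0]
      rw [← mul_assoc, Finset.mul_sum, Finset.sum_mul]
      refine Finset.sum_congr rfl ?_
      intro i _
      by_cases h1 : Cyl (h.biUnion X.D) (h.biUnion X.C) ω
      · by_cases h2 : Cyl (X.D i) (X.C i) ω
        · rw [if_pos h1, if_pos h2, if_pos ((cyl_and _ _ _ _ ω).2 ⟨h1, h2⟩), ← e0]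
          ring
        · rw [if_neg h2, if_neg (fun h' => h2 ((cyl_and _ _ _ _ ω).1 h').2)]
          ring
      · rw [if_neg h1, if_neg (fun h' => h1 ((cyl_and _ _ _ _ ω).1 h').1)]
        ring
    rw [Finset.sum_congr rfl (fun ω _ => e1 ω), Finset.sum_comm]
    have e2 : ∀ i : X.ι, ∑ ω, X.w i * ((if Cyl (h.biUnion X.D ∪ X.D i) (h.biUnion X.C ∪ X.C i) ω
          then wt p ω else 0) * (X.val ω) ^ j) ≤
        X.w i * (Pr p (Cyl (h.biUnion X.D) (h.biUnion X.C)) *
          cnd p (h.biUnion X.D) (h.biUnion X.C) (X.D i) (X.C i) * μ ^ j) := by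
      intro i
      rw [← Finset.mul_sum]
      by_cases hwi : X.w i = 0
      · rw [hwi, zero_mul, zero_mul]
      refine mul_le_mul_of_nonneg_left ?_ (X.nn i)
      by_cases hd : Disjoint (h.biUnion X.D ∪ X.D i) (h.biUnion X.C ∪ X.C i)
      · have eD : (insert i h).biUnion X.D = h.biUnion X.D ∪ X.D i := by
          rw [Finset.biUnion_insert, Finset.union_comm]
        have eC : (insert i h).biUnion X.C = h.biUnion X.C ∪ X.C i := by
          rw [Finset.biUnion_insert, Finset.union_comm]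
        have hc2 : (insert i h).card + j ≤ s := by
          have := Finset.card_insert_le i h
          omega
        have hw2 : ∀ i' ∈ insert i h, X.w i' ≠ 0 := by
          intro i' hi'
          rcases Finset.mem_insert.1 hi' with rfl | hi'
          · exact hwi
          · exact hw i' hi'
        have := ih (insert i h) hc2 hw2 (by rw [eD, eC]; exact hd)
        rw [eD, eC, Pr_cyl_union p _ _ _ _ hdis] at this
        exact this
      · have hz : ∀ ω ∈ (univ : Finset (I → Bool)),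
            (if Cyl (h.biUnion X.D ∪ X.D i) (h.biUnion X.C ∪ X.C i) ω then wt p ω else 0) *
              (X.val ω) ^ j = 0 := by
          intro ω _
          rw [if_neg (cyl_not_disjoint _ _ hd ω), zero_mul]
        rw [Finset.sum_eq_zero hz]
        refine mul_nonneg (mul_nonneg (Pr_nonneg p hp _) (cnd_nonneg p hp _ _ _ _)) (pow_nonneg hμ _)
    refine (Finset.sum_le_sum (fun i _ => e2 i)).trans ?_
    have e3 : ∑ i, X.w i * (Pr p (Cyl (h.biUnion X.D) (h.biUnion X.C)) *
          cnd p (h.biUnion X.D) (h.biUnion X.C) (X.D i) (X.C i) * μ ^ j) =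
        (∑ i, X.w i * cnd p (h.biUnion X.D) (h.biUnion X.C) (X.D i) (X.C i)) *
          (Pr p (Cyl (h.biUnion X.D) (h.biUnion X.C)) * μ ^ j) := by
      rw [Finset.sum_mul]
      refine Finset.sum_congr rfl ?_
      intro i _
      ring
    rw [e3, pow_succ']
    have := mul_le_mul_of_nonneg_right hB
      (mul_nonneg (Pr_nonneg p hp (Cyl (h.biUnion X.D) (h.biUnion X.C))) (pow_nonneg hμ j))
    calc _ ≤ _ := this
      _ = _ := by ring

theorem tail (p : I → ℝ) (hp : ∀ i, 0 ≤ p i ∧ p i ≤ 1) (X : Stat I) (s : ℕ) (μ lam : ℝ)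
    (hX : X.Bdd p s μ) (hμ : 0 ≤ μ) (hlam : 0 < lam) :
    Pr p (fun ω => lam ≤ X.val ω) ≤ (μ / lam) ^ s := by
  have h0 := cyl_moment p hp X s μ hX hμ s ∅ (by simp) (by simp) (by simp)
  have hc : ∀ ω : I → Bool, Cyl (∅ : Finset I) ∅ ω := fun ω => ⟨by simp, by simp⟩
  simp only [Finset.biUnion_empty, hc, if_true] at h0
  have hPr : Pr p (Cyl (∅ : Finset I) ∅) = 1 := by
    rw [Pr_cyl]
    simp
  rw [hPr, one_mul] at h0
  rw [div_pow, le_div_iff₀ (pow_pos hlam s)]
  refine le_trans ?_ h0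
  unfold Pr
  rw [Finset.sum_mul]
  refine Finset.sum_le_sum ?_
  intro ω _
  by_cases h1 : lam ≤ X.val ω
  · rw [if_pos h1]
    exact mul_le_mul_of_nonneg_left (pow_le_pow_left₀ hlam.le h1 s) (wt_nonneg p hp ω)
  · rw [if_neg h1, zero_mul]
    exact mul_nonneg (wt_nonneg p hp ω) (pow_nonneg (val_nonneg X ω) s)

end Pool.Agent.H77.AC
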