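import Pool.Agent.H77.AC.Ovl
import Pool.Agent.H77.AC.Cyl

/-!
# AC-CRUDES: conditional bound for the statistic `cS` (crude families)

`P` a family of sets of at most `m₁` elements, `cnt st P A n ≤ K^(n-1) Γ` for all `A`, `n`. History of
at most `s` indices: `D₀` = at most `s m₁` variables `pick y`, `C₀ = ∅`. `π = θ/a`, `K π ≤ 1`. For an index
`(Q, T)` let `A' = {y ∈ T : pick y ∈ D₀}`; `cnd ≤ π^{|T \ A'|}`. Fix `A'` (at most `(s m₁ + 1)^{m₁}` sets of
at most `m₁` elements) and `i = |T \ A'| ≤ m₁`. Then `A ∪ A' ⊆ Q`, `Q \ (A ∪ A') ⊆ R ∪ L` with exactly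
`n + i` live elements (`A'` is a set of live elements of `Q \ A`): at most `K^(n+i-1) Γ` sets `Q`, each with at
most `2^{m₁}` sets `T`. And `K^(n+i-1) π^i ≤ K^(n-1)` (truncated subtraction): for `n ≥ 1` clear; for
`n = 0`, `i = 0` both sides are `1`; for `n = 0`, `i ≥ 1`: `K^(i-1) π^i ≤ π ≤ 1`. Sum over `A'`, `i`.
-/

set_option autoImplicit false

open Finset
open scoped Classical

namespace Pool.Agent.H77.AC

variable {X E N : Type} [DecidableEq X] [DecidableEq E] [DecidableEq N] [Fintype X]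
variable {S : Sys X E N} {st : St X E} {K a B Γ m : ℕ} {ρ w g θ δ : ℝ}

theorem crudeS_card_small {α : Type} [DecidableEq α] (Y : Finset α) (k : ℕ) :
    (Y.powerset.filter (fun A => A.card ≤ k)).card ≤ (Y.card + 1) ^ k := by
  induction k with
  | zero =>
    have : Y.powerset.filter (fun A => A.card ≤ 0) ⊆ {∅} := by
      intro A hA
      rw [Finset.mem_filter] at hA
      rw [Finset.mem_singleton]
      exact Finset.card_eq_zero.1 (Nat.le_zero.1 hA.2)
    refine (Finset.card_le_card this).trans ?_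
    simp
  | succ k ih =>
    have hsub : Y.powerset.filter (fun A => A.card ≤ k + 1) ⊆
        (Y.powerset.filter (fun A => A.card ≤ k)) ∪
          (Y ×ˢ (Y.powerset.filter (fun A => A.card ≤ k))).image (fun p => insert p.1 p.2) := by
      intro A hA
      rw [Finset.mem_filter, Finset.mem_powerset] at hA
      rw [Finset.mem_union]
      by_cases hk : A.card ≤ k
      · left
        rw [Finset.mem_filter, Finset.mem_powerset]
        exact ⟨hA.1, hk⟩
      · right
        have hne : A.Nonempty := by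
          rw [← Finset.card_pos]
          omega
        obtain ⟨y, hy⟩ := hne
        rw [Finset.mem_image]
        refine ⟨(y, A.erase y), ?_, Finset.insert_erase hy⟩
        rw [Finset.mem_product, Finset.mem_filter, Finset.mem_powerset]
        refine ⟨hA.1 hy, (Finset.erase_subset _ _).trans hA.1, ?_⟩
        have := Finset.card_erase_of_mem hy
        simp only
        omega
    refine (Finset.card_le_card hsub).trans ((Finset.card_union_le _ _).trans ?_)
    have h1 := (Finset.card_image_le (s := Y ×ˢ (Y.powerset.filter (fun A => A.card ≤ k)))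
      (f := fun p => insert p.1 p.2))
    rw [Finset.card_product] at h1
    calc _ ≤ (Y.powerset.filter (fun A => A.card ≤ k)).card +
          Y.card * (Y.powerset.filter (fun A => A.card ≤ k)).card := Nat.add_le_add_left h1 _
      _ = (Y.card + 1) * (Y.powerset.filter (fun A => A.card ≤ k)).card := by ring
      _ ≤ (Y.card + 1) * (Y.card + 1) ^ k := Nat.mul_le_mul_left _ ih
      _ = (Y.card + 1) ^ (k + 1) := by ring

theorem crudeS_pow (K : ℕ) (π : ℝ) (h0 : 0 ≤ π) (h1 : π ≤ 1) (hK : K * π ≤ 1) (n i : ℕ) :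
    (K : ℝ) ^ (n + i - 1) * π ^ i ≤ (K : ℝ) ^ (n - 1) := by
  have hK0 : (0 : ℝ) ≤ K := Nat.cast_nonneg K
  have hKπ : 0 ≤ K * π := mul_nonneg hK0 h0
  rcases Nat.eq_zero_or_pos n with rfl | hn
  · rcases Nat.eq_zero_or_pos i with rfl | hi
    · simp
    · obtain ⟨j, rfl⟩ : ∃ j, i = j + 1 := ⟨i - 1, by omega⟩
      have e : 0 + (j + 1) - 1 = j := by omega
      rw [e, pow_succ, ← mul_assoc, ← mul_pow]
      simp only [Nat.zero_sub, pow_zero]
      have := pow_le_one₀ (n := j) hKπ hK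
      calc (K * π) ^ j * π ≤ 1 * 1 := mul_le_mul this h1 h0 zero_le_one
        _ = 1 := one_mul 1
  · obtain ⟨l, rfl⟩ : ∃ l, n = l + 1 := ⟨n - 1, by omega⟩
    have e : l + 1 + i - 1 = l + i := by omega
    have e2 : l + 1 - 1 = l := by omega
    rw [e, e2, pow_add, mul_assoc, ← mul_pow]
    have := pow_le_one₀ (n := i) hKπ hK
    calc (K : ℝ) ^ l * (K * π) ^ i ≤ (K : ℝ) ^ l * 1 :=
          mul_le_mul_of_nonneg_left this (pow_nonneg hK0 l)
      _ = (K : ℝ) ^ l := mul_one _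

theorem crudeS_cnd (h : Hyp S st K a B Γ m ρ w g θ δ) (Y : Finset X)
    (D₀ C₀ : Finset (Fin 3 × X)) (hY : ∀ y, pick y ∈ D₀ ↔ y ∈ Y) (T : Finset X) :
    cnd (pr S st a B θ δ) D₀ C₀ (T.image pick) ∅ ≤ (θ / a) ^ (T \ Y).card := by
  have hpi : 0 ≤ (θ / a : ℝ) := div_nonneg h.θ0.le (Nat.cast_nonneg a)
  unfold cnd
  split_ifs
  · rw [Finset.empty_sdiff, Finset.prod_empty, mul_one]
    have e : (T.image pick) \ D₀ = (T \ Y).image (pick : X → Fin 3 × X) := by
      ext v
      simp only [Finset.mem_sdiff, Finset.mem_image]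
      constructor
      · rintro ⟨⟨y, hy, rfl⟩, hv⟩
        exact ⟨y, ⟨hy, fun hh => hv ((hY y).2 hh)⟩, rfl⟩
      · rintro ⟨y, ⟨hy, hyY⟩, rfl⟩
        exact ⟨⟨y, hy, rfl⟩, fun hh => hyY ((hY y).1 hh)⟩
    have hinj : ∀ x ∈ T \ Y, ∀ y ∈ T \ Y, (pick x : Fin 3 × X) = pick y → x = y :=
      fun x _ y _ hxy => (Prod.mk.inj hxy).2
    rw [e, Finset.prod_image hinj]
    have : ∀ y ∈ T \ Y, pr S st a B θ δ (pick y) = θ / a := by
      intro y _
      simp [pr, pick]
    rw [Finset.prod_congr rfl this, Finset.prod_const]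
  · exact pow_nonneg hpi _

def crudeScond (st : St X E) (P : Finset (Finset X)) (A : Finset X) (n : ℕ)
    (i : Finset X × Finset X) : Prop :=
  i.1 ∈ P ∧ A ⊆ i.1 ∧ i.1 \ A ⊆ st.R ∪ st.L ∧
    i.2 ⊆ (i.1 \ A) ∩ st.L ∧ ((i.1 \ A) ∩ st.L).card = n + i.2.card

theorem crudeS_core (h : Hyp S st K a B Γ m ρ w g θ δ) (P : Finset (Finset X)) (m₁ : ℕ)
    (hP : ∀ Q ∈ P, Q.card ≤ m₁)
    (hc : ∀ (A : Finset X) (n : ℕ), cnt st P A n ≤ K ^ (n - 1) * Γ)
    (A : Finset X) (n s : ℕ) (hh : Finset (Finset X × Finset X)) (hcard : hh.card ≤ s)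
    (hw : ∀ i ∈ hh, crudeScond st P A n i) (D₀ C₀ : Finset (Fin 3 × X))
    (hD₀ : D₀ = hh.biUnion (fun i => i.2.image pick)) :
    ∑ i : Finset X × Finset X, (if crudeScond st P A n i then (1 : ℝ) else 0) *
      cnd (pr S st a B θ δ) D₀ C₀ (i.2.image pick) ∅ ≤
      ((s * m₁ + 1) ^ m₁ * (m₁ + 1) * 2 ^ m₁ * (K ^ (n - 1) * Γ)) := by
  set cond : Finset X × Finset X → Prop := crudeScond st P A n with hcond
  set Y : Finset X := hh.biUnion (fun i : Finset X × Finset X => i.2) with hYdef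
  have hYmem : ∀ y, pick y ∈ D₀ ↔ y ∈ Y := by
    intro y
    rw [hD₀, hYdef, Finset.mem_biUnion, Finset.mem_biUnion]
    constructor
    · rintro ⟨i, hi, hy⟩
      refine ⟨i, hi, ?_⟩
      have hy' : pick y ∈ i.2.image pick := hy
      rw [Finset.mem_image] at hy'
      obtain ⟨z, hz, hzy⟩ := hy'
      have : z = y := (Prod.mk.inj hzy).2
      rw [← this]
      exact hz
    · rintro ⟨i, hi, hy⟩
      exact ⟨i, hi, Finset.mem_image_of_mem _ hy⟩
  have hYcard : Y.card ≤ s * m₁ := by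
    refine (Finset.card_biUnion_le).trans ?_
    refine (Finset.sum_le_card_nsmul hh _ m₁ ?_).trans ?_
    · intro i hi
      have hc' := hw i hi
      have : i.2 ⊆ i.1 := (hc'.2.2.2.1.trans Finset.inter_subset_left).trans Finset.sdiff_subset
      exact (Finset.card_le_card this).trans (hP _ hc'.1)
    · rw [smul_eq_mul]
      exact Nat.mul_le_mul_right _ hcard
  have ha0 : (0 : ℝ) < a := by exact_mod_cast h.a0
  have hpi : 0 ≤ (θ / a : ℝ) := div_nonneg h.θ0.le ha0.le
  have hKpi : (K : ℝ) * (θ / a) ≤ 1 := by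
    rw [← mul_div_assoc, div_le_one ha0]
    exact h.Kθ
  have hpi1 : (θ / a : ℝ) ≤ 1 := by
    have hK1 : (1 : ℝ) ≤ K := by exact_mod_cast h.K0
    calc (θ / a : ℝ) = 1 * (θ / a) := (one_mul _).symm
      _ ≤ K * (θ / a) := mul_le_mul_of_nonneg_right hK1 hpi
      _ ≤ 1 := hKpi
  set F : Finset (Finset X × Finset X) := univ.filter cond with hF
  have step1 : ∑ i : Finset X × Finset X, (if cond i then (1 : ℝ) else 0) *
      cnd (pr S st a B θ δ) D₀ C₀ (i.2.image pick) ∅ ≤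
      ∑ i ∈ F, (θ / a : ℝ) ^ (i.2 \ Y).card := by
    rw [hF, Finset.sum_filter]
    refine Finset.sum_le_sum ?_
    intro i _
    by_cases hc' : cond i
    · rw [if_pos hc', if_pos hc', one_mul]
      exact crudeS_cnd h Y D₀ C₀ hYmem i.2
    · rw [if_neg hc', if_neg hc', zero_mul]
  refine step1.trans ?_
  set 𝒜 := Y.powerset.filter (fun A' => A'.card ≤ m₁) with h𝒜
  have hT : ∀ i ∈ F, i.2 ⊆ i.1 ∧ i.1.card ≤ m₁ := by
    intro i hi
    rw [hF, Finset.mem_filter] at hi
    exact ⟨(hi.2.2.2.2.1.trans Finset.inter_subset_left).trans Finset.sdiff_subset, hP _ hi.2.1⟩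
  have hmaps : ∀ i ∈ F, (i.2 ∩ Y, (i.2 \ Y).card) ∈ 𝒜 ×ˢ Finset.range (m₁ + 1) := by
    intro i hi
    obtain ⟨h1, h2⟩ := hT i hi
    rw [Finset.mem_product, h𝒜, Finset.mem_filter, Finset.mem_powerset, Finset.mem_range]
    refine ⟨⟨Finset.inter_subset_right, ?_⟩, ?_⟩
    · exact ((Finset.card_le_card Finset.inter_subset_left).trans (Finset.card_le_card h1)).trans h2
    · exact Nat.lt_succ_of_le
        (((Finset.card_le_card Finset.sdiff_subset).trans (Finset.card_le_card h1)).trans h2)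
  rw [← Finset.sum_fiberwise_of_maps_to hmaps]
  have hfib : ∀ b ∈ 𝒜 ×ˢ Finset.range (m₁ + 1),
      ∑ i ∈ F.filter (fun i => (i.2 ∩ Y, (i.2 \ Y).card) = b), (θ / a : ℝ) ^ (i.2 \ Y).card ≤
        2 ^ m₁ * (K ^ (n - 1) * Γ) := by
    rintro ⟨A', k⟩ _
    have e1 : ∑ i ∈ F.filter (fun i => (i.2 ∩ Y, (i.2 \ Y).card) = (A', k)),
        (θ / a : ℝ) ^ (i.2 \ Y).card =
        ((F.filter (fun i => (i.2 ∩ Y, (i.2 \ Y).card) = (A', k))).card : ℝ) * (θ / a : ℝ) ^ k := by
      rw [Finset.sum_congr rfl (g := fun _ => (θ / a : ℝ) ^ k), Finset.sum_const, nsmul_eq_mul]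
      intro i hi
      rw [Finset.mem_filter] at hi
      rw [(Prod.mk.inj hi.2).2]
    rw [e1]
    have hsub : F.filter (fun i => (i.2 ∩ Y, (i.2 \ Y).card) = (A', k)) ⊆
        (P.filter (fun Q => A ∪ A' ⊆ Q ∧ Q \ (A ∪ A') ⊆ st.R ∪ st.L ∧
          ((Q \ (A ∪ A')) ∩ st.L).card = n + k)).biUnion
            (fun Q => Q.powerset.image (fun T => (Q, T))) := by
      rintro ⟨Q, T⟩ hi
      rw [Finset.mem_filter, hF, Finset.mem_filter] at hi
      obtain ⟨⟨_, hQP, hAQ, hQRL, hTQ, hcd⟩, hb⟩ := hi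
      simp only at hQP hAQ hQRL hTQ hcd hb
      obtain ⟨hb1, hb2⟩ := Prod.mk.inj hb
      have hA'T : A' ⊆ T := by
        rw [← hb1]
        exact Finset.inter_subset_left
      have hTQ' : T ⊆ Q := (hTQ.trans Finset.inter_subset_left).trans Finset.sdiff_subset
      rw [Finset.mem_biUnion]
      refine ⟨Q, ?_, Finset.mem_image.2 ⟨T, Finset.mem_powerset.2 hTQ', rfl⟩⟩
      rw [Finset.mem_filter]
      refine ⟨hQP, Finset.union_subset hAQ (hA'T.trans hTQ'), ?_, ?_⟩
      · exact (Finset.sdiff_subset_sdiff (Finset.Subset.refl Q) Finset.subset_union_left).trans hQRL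
      · have e2 : (Q \ (A ∪ A')) ∩ st.L = ((Q \ A) ∩ st.L) \ A' := by
          ext y
          simp only [Finset.mem_inter, Finset.mem_sdiff, Finset.mem_union]
          tauto
        rw [e2, Finset.card_sdiff_of_subset (hA'T.trans hTQ), hcd]
        have e3 : (T ∩ Y).card + (T \ Y).card = T.card := Finset.card_inter_add_card_sdiff T Y
        rw [hb1, hb2] at e3
        omega
    have hcnt : ((F.filter (fun i => (i.2 ∩ Y, (i.2 \ Y).card) = (A', k))).card) ≤
        2 ^ m₁ * (K ^ (n + k - 1) * Γ) := by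
      refine (Finset.card_le_card hsub).trans ((Finset.card_biUnion_le).trans ?_)
      refine (Finset.sum_le_card_nsmul _ _ (2 ^ m₁) ?_).trans ?_
      · intro Q hQ
        rw [Finset.mem_filter] at hQ
        refine (Finset.card_image_le).trans ?_
        rw [Finset.card_powerset]
        exact Nat.pow_le_pow_right (by norm_num) (hP _ hQ.1)
      · rw [smul_eq_mul, mul_comm]
        exact Nat.mul_le_mul_left _ (hc (A ∪ A') (n + k))
    have hcnt' : ((F.filter (fun i => (i.2 ∩ Y, (i.2 \ Y).card) = (A', k))).card : ℝ) ≤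
        2 ^ m₁ * (K ^ (n + k - 1) * Γ) := by exact_mod_cast hcnt
    calc _ ≤ (2 ^ m₁ * ((K : ℝ) ^ (n + k - 1) * Γ)) * (θ / a : ℝ) ^ k :=
          mul_le_mul_of_nonneg_right hcnt' (pow_nonneg hpi k)
      _ = 2 ^ m₁ * Γ * ((K : ℝ) ^ (n + k - 1) * (θ / a : ℝ) ^ k) := by ring
      _ ≤ 2 ^ m₁ * Γ * (K : ℝ) ^ (n - 1) := by
          refine mul_le_mul_of_nonneg_left (crudeS_pow K _ hpi hpi1 hKpi n k) ?_
          positivity
      _ = _ := by ring
  refine (Finset.sum_le_sum hfib).trans ?_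
  rw [Finset.sum_const, nsmul_eq_mul, Finset.card_product, Finset.card_range]
  have hcA : (𝒜.card : ℝ) ≤ (s * m₁ + 1) ^ m₁ := by
    have h1 := crudeS_card_small Y m₁
    have h2 : (Y.card + 1) ^ m₁ ≤ (s * m₁ + 1) ^ m₁ := Nat.pow_le_pow_left (by omega) _
    have h3 := h1.trans h2
    exact_mod_cast h3
  have hnn : (0 : ℝ) ≤ 2 ^ m₁ * (K ^ (n - 1) * Γ) := by positivity
  push_cast
  calc (𝒜.card : ℝ) * (m₁ + 1) * (2 ^ m₁ * (K ^ (n - 1) * Γ))
      ≤ (s * m₁ + 1) ^ m₁ * (m₁ + 1) * (2 ^ m₁ * (K ^ (n - 1) * Γ)) := by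
        refine mul_le_mul_of_nonneg_right ?_ hnn
        exact mul_le_mul_of_nonneg_right hcA (by positivity)
    _ = _ := by ring

theorem cS_bdd (h : Hyp S st K a B Γ m ρ w g θ δ) (P : Finset (Finset X)) (m₁ : ℕ)
    (hP : ∀ Q ∈ P, Q.card ≤ m₁)
    (hc : ∀ (A : Finset X) (n : ℕ), cnt st P A n ≤ K ^ (n - 1) * Γ)
    (A : Finset X) (n s : ℕ) :
    (cS st P A n).Bdd (pr S st a B θ δ) s
      ((s * m₁ + 1) ^ m₁ * (m₁ + 1) * 2 ^ m₁ * (K ^ (n - 1) * Γ)) := by
  intro hh hcard hw _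
  have e : ∀ i, (cS st P A n).w i = if crudeScond st P A n i then (1 : ℝ) else 0 := by
    intro i
    by_cases hcon : crudeScond st P A n i
    · rw [if_pos hcon]
      exact if_pos hcon
    · rw [if_neg hcon]
      exact if_neg hcon
  have hcore := crudeS_core h P m₁ hP hc A n s hh hcard (fun i hi => by
    by_contra hcon
    exact hw i hi (if_neg hcon)) (hh.biUnion (cS st P A n).D) (hh.biUnion (cS st P A n).C) rfl
  refine le_trans (le_of_eq ?_) hcore
  refine Finset.sum_congr rfl (fun i _ => ?_)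
  rw [e i]
  rfl

/-- the crude families consist of sets with at most `2 m` elements -/
theorem Fm_card (h : Hyp S st K a B Γ m ρ w g θ δ) (φ : Fm X E N) :
    ∀ Q ∈ φ.sets S, Q.card ≤ 2 * m := by
  intro Q hQ
  cases φ with
  | f1 x y =>
    simp only [Fm.sets, Finset.mem_image, Finset.mem_filter] at hQ
    obtain ⟨H, ⟨hH, _⟩, rfl⟩ := hQ
    have h1 := Finset.card_le_card (Finset.sdiff_subset (s := H) (t := {x, y}))
    have h2 := h.good.card_le H hH
    omega
  | f2 x ν =>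
    simp only [Fm.sets, Finset.mem_image, Finset.mem_filter] at hQ
    obtain ⟨H, ⟨hH, _⟩, rfl⟩ := hQ
    have h1 := Finset.card_le_card (Finset.erase_subset x H)
    have h2 := h.good.card_le H hH
    omega
  | f3 x e =>
    simp only [Fm.sets, Finset.mem_image, Finset.mem_filter] at hQ
    obtain ⟨H, ⟨hH, _⟩, rfl⟩ := hQ
    have h1 := Finset.card_le_card (Finset.erase_subset x H)
    have h2 := h.good.card_le H hH
    omega
  | f4 z z' =>
    simp only [Fm.sets, Finset.mem_image, Finset.mem_filter, Finset.mem_product] at hQ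
    obtain ⟨⟨H₁, H₂⟩, ⟨⟨hH₁, hH₂⟩, _⟩, rfl⟩ := hQ
    have h1 := Finset.card_le_card (Finset.erase_subset z H₁)
    have h2 := Finset.card_le_card (Finset.erase_subset z' H₂)
    have h3 := h.good.card_le H₁ hH₁
    have h4 := h.good.card_le H₂ hH₂
    have h5 := Finset.card_union_le (H₁.erase z) (H₂.erase z')
    simp only
    omega

end Pool.Agent.H77.AC
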