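import Pool.Agent.H77.AC.Ovl
import Pool.Agent.H77.AC.Gen

/-!
# AC-SURVS: conditional bounds for `sS` (untouched edges) and `iS` (non-isolated picks)

`sS_bdd`: `D = ∅`, `C j = pick (own (f j))`, `|own (f j)| = a` (`f j ∈ U`). History `h`, `C₀ = ⋃_{j ∈ h} C j`.
For an index `j` with `f j ∉ f(h)` the set `C j` is disjoint from `C₀` (pairs have one edge), so
`cnd = (1-θ/a)^a`; the indices with `f j ∈ f(h)` are at most `2 s` and have `cnd ≤ 1`.

`iS_bdd`: `bdd_double` with `M = |Es| θ² (1 + 2ρ)`: for each edge `e ∈ Es` at most `a` live pairs `x` (`own e`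
is empty or has `a` elements), `|isoN x| ≤ a + 2 ρ a` (own edge, and two nodes), probability `(θ/a)²`
(`pick x ≠ pick y`). `τ = 6`: for `v = pick y` the indices `(y, z)` and `(z, y)`, `z ∈ isoN y` (the relation is symmetric
for live pairs), each sum at most `(a + 2 ρ a) θ/a ≤ 3`. `κ = 2`. Total
`M + 2 s 6 + (2 s)² 2 = M + 12 s + 8 s²`.
-/

set_option autoImplicit false

open Finset
open scoped Classical

namespace Pool.Agent.H77.AC

variable {X E N : Type} [DecidableEq X] [DecidableEq E] [DecidableEq N] [Fintype X]
variable {S : Sys X E N} {st : St X E} {K a B Γ m : ℕ} {ρ w g θ δ : ℝ}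

theorem survS_pr_pick (x : X) : pr S st a B θ δ (pick x) = θ / a := by
  simp [pr, pick]

theorem survS_pick_inj {x y : X} (h : pick x = pick y) : x = y :=
  (Prod.ext_iff.1 h).2

theorem sS_bdd (h : Hyp S st K a B Γ m ρ w g θ δ) {T : Type} [Fintype T] (f : T → E)
    (act : T → Prop) (hf : ∀ j, act j → f j ∈ st.U)
    (h2 : ∀ e, (univ.filter (fun j => act j ∧ f j = e)).card ≤ 2) (s : ℕ) :
    (sS S st f act).Bdd (pr S st a B θ δ) s
      (2 * s + (univ.filter (fun j => act j)).card * (1 - θ / a) ^ a) := by
  have hp := pr_mem h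
  have ha : (1 : ℝ) ≤ a := by exact_mod_cast h.a0
  have ha0 : (0 : ℝ) < a := by linarith
  have hθa : θ / a ≤ 1 := by
    rw [div_le_one ha0]
    linarith [h.θ1]
  have hq0 : (0 : ℝ) ≤ (1 - θ / a) ^ a := pow_nonneg (by linarith) _
  intro (hh : Finset T) hc hw hd
  set C₀ := hh.biUnion (sS S st f act).C with hC₀
  set D₀ := hh.biUnion (sS S st f act).D with hD₀
  have hD0 : D₀ = ∅ := by
    rw [hD₀]
    ext v
    rw [Finset.mem_biUnion]
    constructor
    · rintro ⟨j, _, hj⟩
      exact hj
    · intro hv
      exact absurd hv (Finset.notMem_empty v)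
  have hcard : ((univ.filter (fun j => act j ∧ f j ∈ hh.image f)).card : ℝ) ≤ 2 * s := by
    have h3 : (univ.filter (fun j => act j ∧ f j ∈ hh.image f)).card ≤ 2 * (hh.image f).card := by
      refine Finset.card_le_mul_card_image_of_maps_to (f := f) ?_ 2 ?_
      · intro j hj
        exact (Finset.mem_filter.1 hj).2.2
      · intro e _
        refine le_trans (Finset.card_le_card ?_) (h2 e)
        intro j hj
        rw [Finset.mem_filter, Finset.mem_filter] at hj
        rw [Finset.mem_filter]
        exact ⟨Finset.mem_univ _, hj.1.2.1, hj.2⟩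
    have h4 : (hh.image f).card ≤ s := Finset.card_image_le.trans hc
    have h5 : (univ.filter (fun j => act j ∧ f j ∈ hh.image f)).card ≤ 2 * s := by omega
    exact_mod_cast h5
  have key : ∀ j : T, (sS S st f act).w j * cnd (pr S st a B θ δ) D₀ C₀ ((sS S st f act).D j)
      ((sS S st f act).C j) ≤
      (if act j ∧ f j ∈ hh.image f then (1 : ℝ) else 0) +
        (if act j then (1 - θ / a) ^ a else 0) := by
    intro j
    by_cases hj : act j
    · rw [if_pos hj]
      have hwj : (sS S st f act).w j = 1 := by
        show (if act j then (1 : ℝ) else 0) = 1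
        rw [if_pos hj]
      rw [hwj, one_mul]
      by_cases hfj : f j ∈ hh.image f
      · rw [if_pos ⟨hj, hfj⟩]
        have := cnd_le_one (pr S st a B θ δ) hp D₀ C₀ ((sS S st f act).D j)
          ((sS S st f act).C j)
        linarith
      · rw [if_neg (fun hc' => hfj hc'.2), zero_add]
        have h3 := gen_cnd_le (pr S st a B θ δ) hp D₀ C₀ ((sS S st f act).D j)
          ((sS S st f act).C j) ∅ ((sS S st f act).C j) (Finset.empty_subset _) (by
            intro v hv
            rw [Finset.mem_sdiff]
            refine ⟨hv, ?_⟩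
            intro hv'
            rw [hC₀, Finset.mem_biUnion] at hv'
            obtain ⟨j', hj', hv'⟩ := hv'
            have hv1 : v ∈ (own S st (f j)).image pick := hv
            have hv2 : v ∈ (own S st (f j')).image pick := hv'
            rw [Finset.mem_image] at hv1 hv2
            obtain ⟨x, hx, hxv⟩ := hv1
            obtain ⟨y, hy, hyv⟩ := hv2
            have hxy : x = y := survS_pick_inj (hxv.trans hyv.symm)
            rw [own, Finset.mem_filter] at hx hy
            apply hfj
            rw [Finset.mem_image]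
            refine ⟨j', hj', ?_⟩
            rw [← hx.2, ← hy.2, hxy])
        refine h3.trans (le_of_eq ?_)
        rw [Finset.prod_empty, one_mul]
        show ∏ v ∈ (own S st (f j)).image pick, (1 - pr S st a B θ δ v) = _
        rw [Finset.prod_image (fun x _ y _ hxy => survS_pick_inj hxy)]
        rw [Finset.prod_congr rfl (fun x _ => by rw [survS_pr_pick])]
        rw [Finset.prod_const, h.inv.list _ (hf j hj)]
    · rw [if_neg hj, if_neg (fun hc' => hj hc'.1)]
      have hwj : (sS S st f act).w j = 0 := by
        show (if act j then (1 : ℝ) else 0) = 0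
        rw [if_neg hj]
      rw [hwj, zero_mul, zero_add]
  have hsum := Finset.sum_le_sum (fun (j : T) (_ : j ∈ (univ : Finset T)) => key j)
  refine hsum.trans ?_
  rw [Finset.sum_add_distrib, ← Finset.sum_filter, ← Finset.sum_filter, Finset.sum_const,
    Finset.sum_const, nsmul_eq_mul, nsmul_eq_mul, mul_one]
  linarith

theorem isoN_card (h : Hyp S st K a B Γ m ρ w g θ δ) (x : X) (hx : x ∈ st.L) :
    ((isoN S st x).card : ℝ) ≤ (1 + 2 * ρ) * a := by
  have hsub : isoN S st x ⊆ own S st (S.ed x) ∪ (S.nd x).biUnion (atN S st) := by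
    intro y hy
    rw [isoN, Finset.mem_filter] at hy
    obtain ⟨hyL, _, h1 | h1⟩ := hy
    · rw [Finset.mem_union]
      left
      rw [own, Finset.mem_filter]
      exact ⟨hyL, h1⟩
    · rw [Finset.mem_union]
      right
      rw [Finset.not_disjoint_iff] at h1
      obtain ⟨ν, h2, h3⟩ := h1
      rw [Finset.mem_biUnion]
      refine ⟨ν, h2, ?_⟩
      rw [atN, Finset.mem_filter]
      exact ⟨hyL, h3⟩
  have h1 : (isoN S st x).card ≤ a + ∑ ν ∈ S.nd x, (atN S st ν).card := by
    refine (Finset.card_le_card hsub).trans ((Finset.card_union_le _ _).trans ?_)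
    rw [h.inv.list _ (h.inv.L_U x hx)]
    exact Nat.add_le_add_left Finset.card_biUnion_le _
  have h2 : ((isoN S st x).card : ℝ) ≤ a + ∑ ν ∈ S.nd x, ((atN S st ν).card : ℝ) := by
    exact_mod_cast h1
  have h3 : ∑ ν ∈ S.nd x, ((atN S st ν).card : ℝ) ≤ 2 * (ρ * a) := by
    refine (Finset.sum_le_sum (fun ν _ => h.inv.node ν)).trans ?_
    rw [Finset.sum_const, nsmul_eq_mul]
    have h4 : ((S.nd x).card : ℝ) ≤ 2 := by exact_mod_cast h.good.nd_card x
    have h5 : 0 ≤ ρ * a := mul_nonneg h.ρ0 (Nat.cast_nonneg a)
    exact mul_le_mul_of_nonneg_right h4 h5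
  linarith

theorem survS_iso_symm {x y : X} (hx : x ∈ st.L) (hy : y ∈ isoN S st x) : x ∈ isoN S st y := by
  rw [isoN, Finset.mem_filter] at hy ⊢
  refine ⟨hx, Ne.symm hy.2.1, ?_⟩
  rcases hy.2.2 with h1 | h1
  · exact Or.inl h1.symm
  · exact Or.inr (fun h2 => h1 h2.symm)

theorem survS_live_card (h : Hyp S st K a B Γ m ρ w g θ δ) (Es : Finset E) :
    (st.L.filter (fun x => S.ed x ∈ Es)).card ≤ a * Es.card := by
  refine Finset.card_le_mul_card_image_of_maps_to (f := S.ed) ?_ a ?_
  · intro x hx
    exact (Finset.mem_filter.1 hx).2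
  · intro e _
    have hsub : (st.L.filter (fun x => S.ed x ∈ Es)).filter (fun x => S.ed x = e) ⊆
        own S st e := by
      intro x hx
      rw [Finset.mem_filter, Finset.mem_filter] at hx
      rw [own, Finset.mem_filter]
      exact ⟨hx.1.1, hx.2⟩
    refine (Finset.card_le_card hsub).trans ?_
    by_cases he : e ∈ st.U
    · exact (h.inv.list e he).le
    · have : own S st e = ∅ := by
        rw [Finset.eq_empty_iff_forall_notMem]
        intro x hx
        rw [own, Finset.mem_filter] at hx
        apply he
        rw [← hx.2]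
        exact h.inv.L_U x hx.1
      rw [this, Finset.card_empty]
      exact Nat.zero_le _

theorem iS_bdd (h : Hyp S st K a B Γ m ρ w g θ δ) (Es : Finset E) (s : ℕ) :
    (iS S st Es).Bdd (pr S st a B θ δ) s
      (Es.card * (θ ^ 2 * (1 + 2 * ρ)) + 12 * s + 8 * s ^ 2) := by
  have hp := pr_mem h
  have ha : (1 : ℝ) ≤ a := by exact_mod_cast h.a0
  have ha0 : (0 : ℝ) < a := by linarith
  have hθa0 : 0 ≤ θ / a := div_nonneg h.θ0.le ha0.le
  have hw1 : ∀ i : X × X, (iS S st Es).w i ≠ 0 →
      i.1 ∈ st.L ∧ S.ed i.1 ∈ Es ∧ i.2 ∈ isoN S st i.1 := by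
    intro i hi
    by_contra hcon
    apply hi
    show (if i.1 ∈ st.L ∧ S.ed i.1 ∈ Es ∧ i.2 ∈ isoN S st i.1 then (1 : ℝ) else 0) = 0
    rw [if_neg hcon]
  have hwle : ∀ i : X × X, (iS S st Es).w i ≤ 1 := by
    intro i
    show (if i.1 ∈ st.L ∧ S.ed i.1 ∈ Es ∧ i.2 ∈ isoN S st i.1 then (1 : ℝ) else 0) ≤ 1
    split_ifs <;> norm_num
  have hne : ∀ i : X × X, i.2 ∈ isoN S st i.1 → i.2 ≠ i.1 := by
    intro i hi
    rw [isoN, Finset.mem_filter] at hi
    exact hi.2.1
  have hmain := bdd_double (pr S st a B θ δ) hp (iS S st Es) s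
    (Es.card * (θ ^ 2 * (1 + 2 * ρ))) 6 2 ?_ (by norm_num) (by norm_num) ?_ ?_ ?_
  · refine bdd_mono _ _ s s _ _ le_rfl (le_of_eq ?_) hmain
    ring
  · -- two variables
    intro i _
    constructor
    · show (({pick i.1, pick i.2} : Finset (Fin 3 × X)) ∪ ∅).card ≤ 2
      rw [Finset.union_empty]
      exact Finset.card_le_two
    · show Disjoint ({pick i.1, pick i.2} : Finset (Fin 3 × X)) ∅
      exact Finset.disjoint_empty_right _
  · -- τ
    intro v
    by_cases hv : ∃ y, v = pick y
    · obtain ⟨y, rfl⟩ := hv
      have hterm : ∀ i : X × X,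
          (if pick y ∈ (iS S st Es).D i ∪ (iS S st Es).C i then
            (iS S st Es).w i * ((∏ u ∈ ((iS S st Es).D i).erase (pick y), pr S st a B θ δ u) *
              ∏ u ∈ ((iS S st Es).C i).erase (pick y), (1 - pr S st a B θ δ u)) else 0) ≤
          (if i.1 = y ∧ y ∈ st.L ∧ i.2 ∈ isoN S st y then θ / a else 0) +
          (if i.2 = y ∧ y ∈ st.L ∧ i.1 ∈ isoN S st y then θ / a else 0) := by
        intro i
        have n1 : (0 : ℝ) ≤ (if i.1 = y ∧ y ∈ st.L ∧ i.2 ∈ isoN S st y then θ / a else 0) := by
          split_ifs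
          · exact hθa0
          · exact le_rfl
        have n2 : (0 : ℝ) ≤ (if i.2 = y ∧ y ∈ st.L ∧ i.1 ∈ isoN S st y then θ / a else 0) := by
          split_ifs
          · exact hθa0
          · exact le_rfl
        by_cases hin : pick y ∈ (iS S st Es).D i ∪ (iS S st Es).C i
        · rw [if_pos hin]
          by_cases h0 : (iS S st Es).w i = 0
          · rw [h0, zero_mul]
            linarith
          obtain ⟨hL, hEs, hiso⟩ := hw1 i h0
          have hne' := hne i hiso
          have hin' : pick y ∈ ({pick i.1, pick i.2} : Finset (Fin 3 × X)) ∪ ∅ := hin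
          rw [Finset.union_empty, Finset.mem_insert, Finset.mem_singleton] at hin'
          have hprod : ∀ z : X, ({pick i.1, pick i.2} : Finset (Fin 3 × X)).erase (pick y) =
              {pick z} →
              (iS S st Es).w i * ((∏ u ∈ ((iS S st Es).D i).erase (pick y), pr S st a B θ δ u) *
              ∏ u ∈ ((iS S st Es).C i).erase (pick y), (1 - pr S st a B θ δ u)) ≤ θ / a := by
            intro z hz
            have e1 : (∏ u ∈ ((iS S st Es).D i).erase (pick y), pr S st a B θ δ u) = θ / a := by
              show (∏ u ∈ ({pick i.1, pick i.2} : Finset (Fin 3 × X)).erase (pick y),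
                pr S st a B θ δ u) = θ / a
              rw [hz, Finset.prod_singleton, survS_pr_pick]
            have e2 : (∏ u ∈ ((iS S st Es).C i).erase (pick y), (1 - pr S st a B θ δ u)) = 1 := by
              show (∏ u ∈ (∅ : Finset (Fin 3 × X)).erase (pick y), (1 - pr S st a B θ δ u)) = 1
              rw [Finset.erase_empty, Finset.prod_empty]
            rw [e1, e2, mul_one]
            exact mul_le_of_le_one_left hθa0 (hwle i)
          rcases hin' with h3 | h3
          · have h4 : y = i.1 := survS_pick_inj h3
            rw [if_pos ⟨h4.symm, by rw [h4]; exact hL, by rw [h4]; exact hiso⟩]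
            have := hprod i.2 (by
              rw [h3]
              ext u
              simp only [Finset.mem_erase, Finset.mem_insert, Finset.mem_singleton]
              constructor
              · rintro ⟨h5, h6 | h6⟩
                · exact absurd h6 h5
                · exact h6
              · intro h5
                refine ⟨?_, Or.inr h5⟩
                rw [h5]
                intro h6
                exact hne' (survS_pick_inj h6))
            linarith
          · have h4 : y = i.2 := survS_pick_inj h3
            have h5 : i.1 ∈ isoN S st y := by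
              rw [h4]
              exact survS_iso_symm hL hiso
            have h6 : y ∈ st.L := by
              rw [h4]
              rw [isoN, Finset.mem_filter] at hiso
              exact hiso.1
            rw [if_pos (⟨h4.symm, h6, h5⟩ : i.2 = y ∧ y ∈ st.L ∧ i.1 ∈ isoN S st y)]
            have := hprod i.1 (by
              rw [h3]
              ext u
              simp only [Finset.mem_erase, Finset.mem_insert, Finset.mem_singleton]
              constructor
              · rintro ⟨h5, h6 | h6⟩
                · exact h6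
                · exact absurd h6 h5
              · intro h5
                refine ⟨?_, Or.inl h5⟩
                rw [h5]
                intro h6
                exact hne' (survS_pick_inj h6).symm)
            linarith
        · rw [if_neg hin]
          linarith
      rw [Finset.sum_filter]
      refine (Finset.sum_le_sum (fun (i : X × X) (_ : i ∈ (univ : Finset (X × X))) => hterm i)).trans ?_
      rw [Finset.sum_add_distrib]
      have hcnt : (∑ z : X, if y ∈ st.L ∧ z ∈ isoN S st y then θ / a else 0) ≤ 3 := by
        by_cases hy : y ∈ st.L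
        · have e1 : (∑ z : X, if y ∈ st.L ∧ z ∈ isoN S st y then θ / a else 0) =
              ((isoN S st y).card : ℝ) * (θ / a) := by
            rw [← Finset.sum_filter, Finset.sum_const, nsmul_eq_mul]
            congr 3
            ext z
            simp [hy]
          rw [e1]
          have h3 := isoN_card h y hy
          have h4 : ((isoN S st y).card : ℝ) * (θ / a) ≤ ((1 + 2 * ρ) * a) * (θ / a) :=
            mul_le_mul_of_nonneg_right h3 hθa0
          have h5 : ((1 + 2 * ρ) * a) * (θ / a) = (1 + 2 * ρ) * θ := by
            field_simp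
          rw [h5] at h4
          have h6 : (1 + 2 * ρ) * θ ≤ 3 * 1 :=
            mul_le_mul (by linarith [h.ρ1]) h.θ1 h.θ0.le (by norm_num)
          linarith
        · rw [Finset.sum_eq_zero]
          · norm_num
          · intro z _
            rw [if_neg (fun hc => hy hc.1)]
      have s1 : (∑ i : X × X, if i.1 = y ∧ y ∈ st.L ∧ i.2 ∈ isoN S st y then θ / a else 0) ≤ 3 := by
        rw [Fintype.sum_prod_type]
        rw [Finset.sum_eq_single y]
        · refine le_trans (le_of_eq ?_) hcnt
          refine Finset.sum_congr rfl (fun z _ => ?_)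
          simp
        · intro z _ hz
          refine Finset.sum_eq_zero (fun z' _ => ?_)
          rw [if_neg (fun hc => hz hc.1)]
        · intro hc
          exact absurd (Finset.mem_univ y) hc
      have s2 : (∑ i : X × X, if i.2 = y ∧ y ∈ st.L ∧ i.1 ∈ isoN S st y then θ / a else 0) ≤ 3 := by
        rw [Fintype.sum_prod_type, Finset.sum_comm]
        rw [Finset.sum_eq_single y]
        · refine le_trans (le_of_eq ?_) hcnt
          refine Finset.sum_congr rfl (fun z _ => ?_)
          simp
        · intro z _ hz
          refine Finset.sum_eq_zero (fun z' _ => ?_)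
          rw [if_neg (fun hc => hz hc.1)]
        · intro hc
          exact absurd (Finset.mem_univ y) hc
      linarith
    · rw [Finset.sum_eq_zero]
      · norm_num
      · intro i hi
        rw [Finset.mem_filter] at hi
        exfalso
        apply hv
        have hi2 : v ∈ ({pick i.1, pick i.2} : Finset (Fin 3 × X)) ∪ ∅ := hi.2
        rw [Finset.union_empty, Finset.mem_insert, Finset.mem_singleton] at hi2
        rcases hi2 with h3 | h3
        · exact ⟨i.1, h3⟩
        · exact ⟨i.2, h3⟩
  · -- κ
    intro v v' hvv
    by_cases hv : ∃ y y', v = pick y ∧ v' = pick y'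
    · obtain ⟨y, y', rfl, rfl⟩ := hv
      have hsub : (univ.filter (fun i : X × X => pick y ∈ (iS S st Es).D i ∪ (iS S st Es).C i ∧
          pick y' ∈ (iS S st Es).D i ∪ (iS S st Es).C i)) ⊆ {(y, y'), (y', y)} := by
        intro i hi
        rw [Finset.mem_filter] at hi
        obtain ⟨_, hi1, hi2⟩ := hi
        have hi1' : pick y ∈ ({pick i.1, pick i.2} : Finset (Fin 3 × X)) ∪ ∅ := hi1
        have hi2' : pick y' ∈ ({pick i.1, pick i.2} : Finset (Fin 3 × X)) ∪ ∅ := hi2
        rw [Finset.union_empty, Finset.mem_insert, Finset.mem_singleton] at hi1' hi2'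
        rw [Finset.mem_insert, Finset.mem_singleton]
        rcases hi1' with h3 | h3 <;> rcases hi2' with h4 | h4
        · exact absurd (h3.trans h4.symm) hvv
        · left
          exact Prod.ext (survS_pick_inj h3).symm (survS_pick_inj h4).symm
        · right
          exact Prod.ext (survS_pick_inj h4).symm (survS_pick_inj h3).symm
        · exact absurd (h3.trans h4.symm) hvv
      have hc2 : (univ.filter (fun i : X × X => pick y ∈ (iS S st Es).D i ∪ (iS S st Es).C i ∧
          pick y' ∈ (iS S st Es).D i ∪ (iS S st Es).C i)).card ≤ 2 :=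
        (Finset.card_le_card hsub).trans Finset.card_le_two
      refine (Finset.sum_le_sum (fun (i : X × X) _ => hwle i)).trans ?_
      rw [Finset.sum_const, nsmul_eq_mul, mul_one]
      exact_mod_cast hc2
    · rw [Finset.sum_eq_zero]
      · norm_num
      · intro i hi
        rw [Finset.mem_filter] at hi
        exfalso
        apply hv
        have hi1 : v ∈ ({pick i.1, pick i.2} : Finset (Fin 3 × X)) ∪ ∅ := hi.2.1
        have hi2 : v' ∈ ({pick i.1, pick i.2} : Finset (Fin 3 × X)) ∪ ∅ := hi.2.2
        rw [Finset.union_empty, Finset.mem_insert, Finset.mem_singleton] at hi1 hi2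
        have e1 : ∃ y, v = pick y := by
          rcases hi1 with h3 | h3
          · exact ⟨i.1, h3⟩
          · exact ⟨i.2, h3⟩
        have e2 : ∃ y, v' = pick y := by
          rcases hi2 with h3 | h3
          · exact ⟨i.1, h3⟩
          · exact ⟨i.2, h3⟩
        obtain ⟨y, hy⟩ := e1
        obtain ⟨y', hy'⟩ := e2
        exact ⟨y, y', hy, hy'⟩
  · -- mean
    have hterm : ∀ i : X × X,
        (iS S st Es).w i * ((∏ u ∈ (iS S st Es).D i, pr S st a B θ δ u) *
          ∏ u ∈ (iS S st Es).C i, (1 - pr S st a B θ δ u)) ≤
        (if i.1 ∈ st.L.filter (fun x => S.ed x ∈ Es) then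
          (if i.2 ∈ isoN S st i.1 then (θ / a) ^ 2 else 0) else 0) := by
      intro i
      by_cases h0 : (iS S st Es).w i = 0
      · rw [h0, zero_mul]
        split_ifs
        · positivity
        · exact le_rfl
        · exact le_rfl
      obtain ⟨hL, hEs, hiso⟩ := hw1 i h0
      have hne' := hne i hiso
      rw [if_pos (Finset.mem_filter.2 ⟨hL, hEs⟩), if_pos hiso]
      have e1 : (∏ u ∈ (iS S st Es).D i, pr S st a B θ δ u) = (θ / a) ^ 2 := by
        show (∏ u ∈ ({pick i.1, pick i.2} : Finset (Fin 3 × X)), pr S st a B θ δ u) = (θ / a) ^ 2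
        rw [Finset.prod_pair (fun hc => hne' (survS_pick_inj hc).symm), survS_pr_pick,
          survS_pr_pick]
        ring
      have e2 : (∏ u ∈ (iS S st Es).C i, (1 - pr S st a B θ δ u)) = 1 := by
        show (∏ u ∈ (∅ : Finset (Fin 3 × X)), (1 - pr S st a B θ δ u)) = 1
        rw [Finset.prod_empty]
      rw [e1, e2, mul_one]
      exact mul_le_of_le_one_left (by positivity) (hwle i)
    refine (Finset.sum_le_sum (fun (i : X × X) (_ : i ∈ (univ : Finset (X × X))) => hterm i)).trans ?_
    rw [Fintype.sum_prod_type]
    have hin : ∀ x : X, (∑ z : X, if x ∈ st.L.filter (fun x => S.ed x ∈ Es) then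
          (if z ∈ isoN S st x then (θ / a) ^ 2 else 0) else 0) ≤
        if x ∈ st.L.filter (fun x => S.ed x ∈ Es) then ((1 + 2 * ρ) * a) * (θ / a) ^ 2 else 0 := by
      intro x
      by_cases hx : x ∈ st.L.filter (fun x => S.ed x ∈ Es)
      · rw [if_pos hx]
        have e1 : (∑ z : X, if x ∈ st.L.filter (fun x => S.ed x ∈ Es) then
          (if z ∈ isoN S st x then (θ / a) ^ 2 else 0) else 0) =
            ((isoN S st x).card : ℝ) * (θ / a) ^ 2 := by
          have e2 : ∀ z : X, (if x ∈ st.L.filter (fun x => S.ed x ∈ Es) then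
            (if z ∈ isoN S st x then (θ / a) ^ 2 else 0) else 0) =
            (if z ∈ isoN S st x then (θ / a) ^ 2 else 0) := fun z => if_pos hx
          rw [Finset.sum_congr rfl (fun z _ => e2 z), ← Finset.sum_filter, Finset.sum_const,
            nsmul_eq_mul]
          congr 3
          ext z
          simp
        rw [e1]
        exact mul_le_mul_of_nonneg_right (isoN_card h x (Finset.mem_filter.1 hx).1)
          (by positivity)
      · rw [if_neg hx]
        refine le_of_eq (Finset.sum_eq_zero (fun z _ => ?_))
        rw [if_neg hx]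
    refine (Finset.sum_le_sum (fun (x : X) (_ : x ∈ (univ : Finset X)) => hin x)).trans ?_
    rw [← Finset.sum_filter, Finset.sum_const, nsmul_eq_mul]
    have e3 : univ.filter (fun x => x ∈ st.L.filter (fun x => S.ed x ∈ Es)) =
        st.L.filter (fun x => S.ed x ∈ Es) := by
      ext x
      simp
    rw [e3]
    have h3 : ((st.L.filter (fun x => S.ed x ∈ Es)).card : ℝ) ≤ a * Es.card := by
      exact_mod_cast survS_live_card h Es
    have h4 : 0 ≤ ((1 + 2 * ρ) * a) * (θ / a) ^ 2 := by
      have := h.ρ0
      positivity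
    refine (mul_le_mul_of_nonneg_right h3 h4).trans (le_of_eq ?_)
    field_simp

end Pool.Agent.H77.AC
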