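import Pool.Agent.H77.AC.GoodG
import Pool.Agent.H77.AC.SurvS

/-!
# AC-EASY1: uniqueness of coloured neighbours; statistics `sD`, `sJ`, `dD`, `dJ`

* `par_spec`: `Has R u c` implies `(s(u, par R u c), c) ∈ R` (choice). `par_eq`: if `R` is proper (`R_nd`),
  `(s(u, u'), c) ∈ R` implies `par R u c = u'` (both pairs have the node `(u, c)`).
* `tset_fib`: an edge `e` is `s(par R u c, par R v c)` for at most two colours `c ∈ tset R T u v`: `par R u c` is one of the
  at most two members of `e`, and the colour of the coloured pair on `s(u, par R u c)` is unique (`R_ed`).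
* `sD_bdd`, `sJ_bdd`: instances of `sS_bdd` (monotone in the number of indices, `0 ≤ 1 - θ/a`).
* `dD_bdd`, `dJ_bdd`: `bdd_single` with `κ = 1`, resp. `κ = 2`; `1 - p (keep x) = δ`; the number of coloured pairs at a
  vertex is at most `K` (different colours, `R_nd`); the number of indices of `dJ` is at most `K` (for a colour `c` the
  pair `y` is determined, `R_ed`).
-/

set_option autoImplicit false

open Finset
open scoped Classical

namespace Pool.Agent.H77.AC

variable {V : Type} [Fintype V] [DecidableEq V] {K : ℕ}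
variable {G : SimpleGraph V} {n₀ : ℕ} {st : St (PX V K) (Sym2 V)} {a B Γ m : ℕ}
  {ρ w g θ δ : ℝ}

theorem easy1_mf {α : Type} {s : Finset α} {p : α → Prop} {inst : DecidablePred p} {x : α}
    (h : x ∈ @Finset.filter α p inst s) : p x := (Finset.mem_filter.1 h).2

theorem easy1_fm {α : Type} {s : Finset α} {p : α → Prop} {inst : DecidablePred p} {x : α}
    (hx : x ∈ s) (h : p x) : x ∈ @Finset.filter α p inst s := Finset.mem_filter.2 ⟨hx, h⟩

theorem par_spec (R : Finset (PX V K)) (u : V) (c : Fin K) (h : Has R u c) :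
    (s(u, par R u c), c) ∈ R := by
  have h' : ∃ u', (s(u, u'), c) ∈ R := h
  unfold par
  rw [dif_pos h']
  exact h'.choose_spec

theorem easy1_mem_ndG {u u' : V} {c : Fin K} : (u, c) ∈ ndG (K := K) (s(u, u'), c) := by
  unfold ndG
  rw [Finset.mem_filter]
  exact ⟨Finset.mem_univ _, Sym2.mem_mk_left u u', rfl⟩

theorem par_eq (R : Finset (PX V K))
    (hR : ∀ x ∈ R, ∀ y ∈ R, x ≠ y → Disjoint (ndG x) (ndG y)) (u u' : V) (c : Fin K)
    (h : (s(u, u'), c) ∈ R) : par R u c = u' := by
  have h1 := par_spec R u c ⟨u', h⟩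
  by_contra hne
  have h2 : ((s(u, par R u c), c) : PX V K) ≠ (s(u, u'), c) := by
    intro he
    have h3 : s(u, par R u c) = s(u, u') := (Prod.ext_iff.1 he).1
    exact hne (Sym2.congr_right.1 h3)
  have h4 := hR _ h1 _ h h2
  exact (Finset.disjoint_left.1 h4) easy1_mem_ndG easy1_mem_ndG

theorem easy1_mem_tset (R : Finset (PX V K)) (T : Sym2 V → Prop) (u v : V) (c : Fin K) :
    c ∈ tset R T u v ↔ Has R u c ∧ Has R v c ∧ T s(par R u c, par R v c) := by
  unfold tset
  rw [Finset.mem_filter]
  exact ⟨fun h => h.2, fun h => ⟨Finset.mem_univ _, h⟩⟩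

theorem easy1_sym2_card (e : Sym2 V) : (univ.filter (fun w => w ∈ e)).card ≤ 2 := by
  induction e with
  | _ x y =>
    have : (univ.filter (fun w => w ∈ s(x, y))) ⊆ {x, y} := by
      intro w hw
      rw [Finset.mem_filter, Sym2.mem_iff] at hw
      rw [Finset.mem_insert, Finset.mem_singleton]
      exact hw.2
    exact (Finset.card_le_card this).trans Finset.card_le_two

theorem tset_fib (R : Finset (PX V K))
    (hR : ∀ x ∈ R, ∀ y ∈ R, x ≠ y → Disjoint (ndG x) (ndG y))
    (hE : ∀ x ∈ R, ∀ y ∈ R, x ≠ y → x.1 ≠ y.1) (T : Sym2 V → Prop) (u v : V) (e : Sym2 V) :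
    (univ.filter (fun c => c ∈ tset R T u v ∧ s(par R u c, par R v c) = e)).card ≤ 2 := by
  refine le_trans ?_ (easy1_sym2_card e)
  refine Finset.card_le_card_of_injOn (fun c => par R u c) ?_ ?_
  · intro c hc
    have hc' := Finset.mem_filter.1 (Finset.mem_coe.1 hc)
    refine Finset.mem_coe.2 (Finset.mem_filter.2 ⟨Finset.mem_univ _, ?_⟩)
    rw [← hc'.2.2]
    exact Sym2.mem_mk_left _ _
  · intro c hc c' hc' hcc
    have h1 := (Finset.mem_filter.1 (Finset.mem_coe.1 hc)).2.1
    have h2 := (Finset.mem_filter.1 (Finset.mem_coe.1 hc')).2.1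
    rw [easy1_mem_tset] at h1 h2
    have h3 := par_spec R u c h1.1
    have h4 := par_spec R u c' h2.1
    have h5 : par R u c = par R u c' := hcc
    by_contra hne
    refine hE _ h3 _ h4 ?_ ?_
    · intro he
      exact hne (Prod.ext_iff.1 he).2
    · show s(u, par R u c) = s(u, par R u c')
      rw [h5]

theorem easy1_q (h : Hyp (gS G K n₀) st K a B Γ m ρ w g θ δ) : 0 ≤ (1 - θ / a : ℝ) ^ a := by
  have ha : (1 : ℝ) ≤ a := by exact_mod_cast h.a0
  have ha0 : (0 : ℝ) < a := by linarith
  have hθa : θ / a ≤ 1 := by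
    rw [div_le_one ha0]
    linarith [h.θ1]
  exact pow_nonneg (by linarith) _

theorem sD_bdd (h : Hyp (gS G K n₀) st K a B Γ m ρ w g θ δ) (v : V) (s : ℕ) (D : ℝ)
    (hD : ((stU st v).card : ℝ) ≤ D) :
    (sD (gS G K n₀) st v).Bdd (pr (gS G K n₀) st a B θ δ) s (2 * s + D * (1 - θ / a) ^ a) := by
  have h0 := sS_bdd h (T := Sym2 V) (fun e => e) (fun e => e ∈ stU st v) (by
    intro j hj
    unfold stU at hj
    exact (Finset.mem_filter.1 hj).1) (by
    intro e
    refine le_trans (Finset.card_le_card (t := {e}) ?_) ?_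
    · intro j hj
      rw [Finset.mem_singleton]
      exact (easy1_mf hj).2
    · rw [Finset.card_singleton]
      norm_num) s
  refine bdd_mono _ _ s s _ _ le_rfl ?_ h0
  refine add_le_add le_rfl (mul_le_mul_of_nonneg_right (le_trans ?_ hD) (easy1_q h))
  refine Nat.cast_le.2 (Finset.card_le_card ?_)
  intro j hj
  exact easy1_mf hj

theorem sJ_bdd (h : Hyp (gS G K n₀) st K a B Γ m ρ w g θ δ) (u v : V) (s : ℕ) (j : ℝ)
    (hj : ((tset st.R (fun e => e ∈ st.U) u v).card : ℝ) ≤ j) :
    (sJ (gS G K n₀) st u v).Bdd (pr (gS G K n₀) st a B θ δ) s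
      (2 * s + j * (1 - θ / a) ^ a) := by
  have h0 := sS_bdd h (T := Fin K) (fun c => s(par st.R u c, par st.R v c))
    (fun c => c ∈ tset st.R (fun e => e ∈ st.U) u v) (by
    intro c hc
    exact ((easy1_mem_tset _ _ _ _ _).1 hc).2.2) (by
    intro e
    refine le_trans (Finset.card_le_card ?_)
      (tset_fib st.R h.inv.R_nd h.inv.R_ed (fun e => e ∈ st.U) u v e)
    intro c hc
    have hc' := easy1_mf hc
    exact easy1_fm (Finset.mem_univ _) hc') s
  refine bdd_mono _ _ s s _ _ le_rfl ?_ h0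
  refine add_le_add le_rfl (mul_le_mul_of_nonneg_right (le_trans ?_ hj) (easy1_q h))
  refine Nat.cast_le.2 (Finset.card_le_card ?_)
  intro c hc
  exact easy1_mf hc

theorem easy1_keep_inj {x y : PX V K} (h : keep x = keep y) : x = y :=
  (Prod.ext_iff.1 h).2

theorem easy1_dS_bdd (h : Hyp (gS G K n₀) st K a B Γ m ρ w g θ δ) {T : Type} [Fintype T]
    (y : T → PX V K) (act : T → Prop) (κ : ℕ)
    (h2 : ∀ x, (univ.filter (fun j => act j ∧ y j = x)).card ≤ κ)
    (hK : (univ.filter (fun j => act j)).card ≤ K) (s : ℕ) :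
    (dS y act).Bdd (pr (gS G K n₀) st a B θ δ) s (δ * K + s * κ) := by
  refine bdd_single _ (pr_mem h) (dS y act) s (δ * K) κ ?_ (Nat.cast_nonneg _) ?_ ?_
  · intro i _
    exact ⟨keep (y i), Or.inr ⟨rfl, rfl⟩⟩
  · intro v
    have e1 : ∀ i : T, (dS y act).w i = if act i then (1 : ℝ) else 0 := fun i => rfl
    by_cases hv : ∃ x, v = keep x
    · obtain ⟨x, rfl⟩ := hv
      calc ∑ i ∈ univ.filter (fun i : T => keep x ∈ (dS y act).D i ∪ (dS y act).C i), (dS y act).w i
          = ∑ i ∈ univ.filter (fun i : T => keep x ∈ (dS y act).D i ∪ (dS y act).C i),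
            (if act i then (1 : ℝ) else 0) := Finset.sum_congr rfl (fun i _ => e1 i)
        _ = (((univ.filter (fun i : T => keep x ∈ (dS y act).D i ∪ (dS y act).C i)).filter
            (fun i => act i)).card : ℝ) := by
            rw [← Finset.sum_filter, Finset.sum_const, nsmul_eq_mul, mul_one]
        _ ≤ ((univ.filter (fun j => act j ∧ y j = x)).card : ℝ) := by
            have : (univ.filter (fun i : T => keep x ∈ (dS y act).D i ∪ (dS y act).C i)).filter
                (fun i => act i) ⊆ univ.filter (fun j => act j ∧ y j = x) := by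
              intro i hi
              rw [Finset.mem_filter, Finset.mem_filter] at hi
              rw [Finset.mem_filter]
              refine ⟨Finset.mem_univ _, hi.2, ?_⟩
              have h3 : keep x ∈ (∅ : Finset (Fin 3 × PX V K)) ∪ {keep (y i)} := hi.1.2
              rw [Finset.empty_union, Finset.mem_singleton] at h3
              exact (easy1_keep_inj h3).symm
            exact_mod_cast Finset.card_le_card this
        _ ≤ κ := by exact_mod_cast h2 x
    · rw [Finset.sum_eq_zero]
      · exact Nat.cast_nonneg _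
      · intro i hi
        exfalso
        rw [Finset.mem_filter] at hi
        have h3 : v ∈ (∅ : Finset (Fin 3 × PX V K)) ∪ {keep (y i)} := hi.2
        rw [Finset.empty_union, Finset.mem_singleton] at h3
        exact hv ⟨_, h3⟩
  · have e1 : ∀ i : T, (dS y act).w i * ((∏ v ∈ (dS y act).D i, pr (gS G K n₀) st a B θ δ v) *
        ∏ v ∈ (dS y act).C i, (1 - pr (gS G K n₀) st a B θ δ v)) =
        if act i then δ else 0 := by
      intro i
      have a1 : (∏ v ∈ (dS y act).D i, pr (gS G K n₀) st a B θ δ v) = 1 := rfl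
      have a2 : (∏ v ∈ (dS y act).C i, (1 - pr (gS G K n₀) st a B θ δ v)) = δ := by
        show (∏ v ∈ ({keep (y i)} : Finset (Fin 3 × PX V K)),
          (1 - pr (gS G K n₀) st a B θ δ v)) = δ
        rw [Finset.prod_singleton]
        simp [pr, keep]
      rw [a1, a2, one_mul]
      show (if act i then (1 : ℝ) else 0) * δ = _
      split_ifs
      · rw [one_mul]
      · rw [zero_mul]
    refine le_trans (Finset.sum_le_sum (fun i _ => (e1 i).le)) ?_
    have e2 : (∑ i : T, if act i then δ else 0) ≤ δ * K := by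
      rw [← Finset.sum_filter, Finset.sum_const, nsmul_eq_mul, mul_comm]
      refine mul_le_mul_of_nonneg_left ?_ h.δ0
      exact_mod_cast hK
    exact e2

theorem dD_bdd (h : Hyp (gS G K n₀) st K a B Γ m ρ w g θ δ) (v : V) (s : ℕ) :
    (dD st v).Bdd (pr (gS G K n₀) st a B θ δ) s (δ * K + 2 * s) := by
  have h0 := easy1_dS_bdd h (T := PX V K) (fun x => x) (fun x => x ∈ st.R ∧ v ∈ x.1) 2 (by
    intro x
    refine le_trans (Finset.card_le_card (t := {x}) ?_) ?_
    · intro j hj
      rw [Finset.mem_singleton]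
      exact (easy1_mf hj).2
    · rw [Finset.card_singleton]
      norm_num) (by
    refine le_trans (?_ : _ ≤ (univ : Finset (Fin K)).card) ?_
    · refine Finset.card_le_card_of_injOn (fun x => x.2) (fun _ _ => Finset.mem_coe.2 (Finset.mem_univ _)) ?_
      intro x hx y hy hxy
      have hx' := easy1_mf (Finset.mem_coe.1 hx)
      have hy' := easy1_mf (Finset.mem_coe.1 hy)
      by_contra hne
      have h4 : Disjoint (ndG x) (ndG y) := h.inv.R_nd x hx'.1 y hy'.1 hne
      have hxy' : x.2 = y.2 := hxy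
      refine (Finset.disjoint_left.1 h4) (a := (v, x.2)) ?_ ?_
      · unfold ndG
        rw [Finset.mem_filter]
        exact ⟨Finset.mem_univ _, hx'.2, rfl⟩
      · unfold ndG
        rw [Finset.mem_filter]
        exact ⟨Finset.mem_univ _, hy'.2, hxy'⟩
    · rw [Finset.card_univ, Fintype.card_fin]) s
  refine bdd_mono _ _ s s _ _ le_rfl (le_of_eq ?_) h0
  push_cast
  ring

theorem dJ_bdd (h : Hyp (gS G K n₀) st K a B Γ m ρ w g θ δ) (u v : V) (s : ℕ) :
    (dJ st u v).Bdd (pr (gS G K n₀) st a B θ δ) s (δ * K + 2 * s) := by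
  have hmem : ∀ (c : Fin K) (T : Sym2 V → Prop), c ∈ tset st.R T u v →
      T s(par st.R u c, par st.R v c) := by
    intro c T hc
    exact ((easy1_mem_tset _ _ _ _ _).1 hc).2.2
  have h0 := easy1_dS_bdd h (T := Fin K × PX V K) (fun i => i.2) (fun i => i.2 ∈ st.R ∧
    i.1 ∈ tset st.R (fun e => e = i.2.1) u v) 2 (by
    intro x
    refine le_trans ?_ (tset_fib st.R h.inv.R_nd h.inv.R_ed (fun e => e = x.1) u v x.1)
    refine Finset.card_le_card_of_injOn (fun i => i.1) ?_ ?_
    · intro i hi
      have hi' := easy1_mf (Finset.mem_coe.1 hi)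
      obtain ⟨⟨h1, h2⟩, h3⟩ := hi'
      refine Finset.mem_coe.2 (easy1_fm (Finset.mem_univ _) ⟨?_, ?_⟩)
      · rw [← h3]
        exact h2
      · rw [← h3]
        exact hmem _ _ h2
    · intro i hi j hj hij
      have hi' := easy1_mf (Finset.mem_coe.1 hi)
      have hj' := easy1_mf (Finset.mem_coe.1 hj)
      have h3 : i.1 = j.1 := hij
      exact Prod.ext h3 (hi'.2.trans hj'.2.symm)) (by
    refine le_trans (?_ : _ ≤ (univ : Finset (Fin K)).card) ?_
    · refine Finset.card_le_card_of_injOn (fun i => i.1)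
        (fun _ _ => Finset.mem_coe.2 (Finset.mem_univ _)) ?_
      intro i hi j hj hij
      have hi' := easy1_mf (Finset.mem_coe.1 hi)
      have hj' := easy1_mf (Finset.mem_coe.1 hj)
      have h3 : i.1 = j.1 := hij
      have h4 : s(par st.R u i.1, par st.R v i.1) = i.2.1 := hmem _ _ hi'.2
      have h5 : s(par st.R u j.1, par st.R v j.1) = j.2.1 := hmem _ _ hj'.2
      have h6 : i.2.1 = j.2.1 := by
        rw [← h4, ← h5, h3]
      refine Prod.ext h3 ?_
      by_contra hne
      exact h.inv.R_ed i.2 hi'.1 j.2 hj'.1 hne h6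
    · rw [Finset.card_univ, Fintype.card_fin]) s
  refine bdd_mono _ _ s s _ _ le_rfl (le_of_eq ?_) h0
  push_cast
  ring

end Pool.Agent.H77.AC
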