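import Pool.Agent.H77.AC.Easy1

/-!
# AC-EASY2: statistics `nJ` (single new picks), `nP`, `nD`, `nB` (double)

Write `π = θ/a`; `K π ≤ 1`, `a π = θ ≤ 1`, `ρ a π ≤ 1`.

* `nJU_bdd` (`T = active`): `bdd_single`, `κ = 1` (`pick (s(v,v'),c)` determines `(v',c)`); the number of indices
  is at most `|stU v| * a ≤ D a` (`s(v,v')` is active by `L_U`, `own` has `a` elements), mean `≤ θ D`.
* `nJF_bdd` (`T = FE G st`): for every colour `c` at most `|fstar (par R u c)| ≤ f` vertices `v'`: mean `≤ K π f`.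
* `nP_bdd`: `bdd_double`, index `((v', c), y)`, `x = (s(v,v'),c)`. `x ≠ y`: otherwise `s(v,v') = s(par R u c, v')`, so
  `par R u c = v` or (`v' = par R u c` and `v = v'`); in all cases `(v, c)` is a node of the coloured pair
  `(s(u, par R u c), c)`, while `(s(v,v'),c)` is live at `(v,c)`: contradicts `LR`. Number of `(v',c)`: `≤ D a`, of `y`: `≤ a`
  (only live pairs on one edge); mean `≤ D a a π² = θ² D`. `τ = 3`: variable `pick x` as first: `∑_y π ≤ θ ≤ 1`; as second: `y` fixed, then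
  `par R u c` is one of the two members of `y.1` which determines `c` (`par_spec`, `R_ed`) and `v'` is the other member: at most
  two indices, sum `≤ 2 π ≤ 2`. `κ = 2`. Total `θ² D + 2 s 3 + (2 s)² 2`.
* `nD_bdd`: the same with `y ∈ R` (`y` is determined by its edge, `R_ed`), probability of deletion `δ`; number of
  `(v',c)` at most `∑_c |atN (v,c)| ≤ K ρ a`; mean `≤ K ρ a π δ ≤ K θ δ`; `τ = 3`, `κ = 2`.
* `nB_bdd`: number of indices at most `∑_c |atN (v,c)| |atN (u,c)| ≤ K (ρ a)²`, mean `≤ K ρ² θ² ≤ K θ²`; `τ = 2`, `κ = 2`.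
-/

set_option autoImplicit false

open Finset
open scoped Classical

namespace Pool.Agent.H77.AC

variable {V : Type} [Fintype V] [DecidableEq V] {K : ℕ}
variable {G : SimpleGraph V} {n₀ : ℕ} {st : St (PX V K) (Sym2 V)} {a B Γ m : ℕ}
  {ρ w g θ δ : ℝ}

theorem easy2_hθa (h : Hyp (gS G K n₀) st K a B Γ m ρ w g θ δ) :
    0 ≤ θ / a ∧ θ / a ≤ 1 ∧ (a : ℝ) * (θ / a) = θ := by
  have ha : (1 : ℝ) ≤ a := by exact_mod_cast h.a0
  have ha0 : (0 : ℝ) < a := by linarith
  refine ⟨div_nonneg h.θ0.le ha0.le, ?_, ?_⟩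
  · rw [div_le_one ha0]
    linarith [h.θ1]
  · field_simp

theorem easy2_pS (h : Hyp (gS G K n₀) st K a B Γ m ρ w g θ δ) {T : Type} [Fintype T]
    (y : T → PX V K) (act : T → Prop) (s : ℕ) (M : ℝ)
    (hinj : ∀ i j, act i → act j → y i = y j → i = j)
    (hM : ((univ.filter (fun j => act j)).card : ℝ) * (θ / a) ≤ M) :
    (pS y act).Bdd (pr (gS G K n₀) st a B θ δ) s (M + s) := by
  have hp := pr_mem h
  have hw1 : ∀ i : T, (pS y act).w i ≠ 0 → act i := by
    intro i hi
    by_contra hcon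
    apply hi
    show (if act i then (1 : ℝ) else 0) = 0
    rw [if_neg hcon]
  have hmain := bdd_single (pr (gS G K n₀) st a B θ δ) hp (pS y act) s M 1 ?_ (by norm_num) ?_ ?_
  · refine bdd_mono _ _ s s _ _ le_rfl (le_of_eq ?_) hmain
    ring
  · intro i _
    exact ⟨pick (y i), Or.inl ⟨rfl, rfl⟩⟩
  · intro v
    have hs : (univ.filter (fun i : T => v ∈ (pS y act).D i ∪ (pS y act).C i ∧ act i)).card ≤ 1 := by
      rw [Finset.card_le_one]
      intro i hi j hj
      rw [Finset.mem_filter] at hi hj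
      have hi1 : v ∈ ({pick (y i)} : Finset (Fin 3 × PX V K)) ∪ ∅ := hi.2.1
      have hj1 : v ∈ ({pick (y j)} : Finset (Fin 3 × PX V K)) ∪ ∅ := hj.2.1
      rw [Finset.union_empty, Finset.mem_singleton] at hi1 hj1
      exact hinj i j hi.2.2 hj.2.2 (survS_pick_inj (hi1.symm.trans hj1))
    have e1 : ∑ i ∈ univ.filter (fun i : T => v ∈ (pS y act).D i ∪ (pS y act).C i), (pS y act).w i =
        ((univ.filter (fun i : T => v ∈ (pS y act).D i ∪ (pS y act).C i ∧ act i)).card : ℝ) := by
      rw [← Finset.filter_filter, Finset.card_filter]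
      push_cast
      rfl
    refine (le_of_eq e1).trans ?_
    exact_mod_cast hs
  · refine le_trans (le_of_eq ?_) hM
    rw [Finset.card_filter, Nat.cast_sum, Finset.sum_mul]
    refine Finset.sum_congr rfl (fun (i : T) _ => ?_)
    show (if act i then (1 : ℝ) else 0) * ((∏ u ∈ ({pick (y i)} : Finset (Fin 3 × PX V K)),
      pr (gS G K n₀) st a B θ δ u) * ∏ u ∈ (∅ : Finset (Fin 3 × PX V K)),
      (1 - pr (gS G K n₀) st a B θ δ u)) = _
    rw [Finset.prod_singleton, survS_pr_pick, Finset.prod_empty, mul_one]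
    push_cast
    rfl

theorem easy2_ppS (h : Hyp (gS G K n₀) st K a B Γ m ρ w g θ δ) {T : Type} [Fintype T]
    (y z : T → PX V K) (act : T → Prop) (s : ℕ) (M τ : ℝ)
    (hne : ∀ j, act j → y j ≠ z j)
    (hinj : ∀ i j, act i → act j → y i = y j → z i = z j → i = j)
    (hτ0 : 0 ≤ τ)
    (hτ : ∀ x, (((univ.filter (fun j => act j ∧ y j = x)).card : ℝ) +
      ((univ.filter (fun j => act j ∧ z j = x)).card : ℝ)) * (θ / a) ≤ τ)
    (hM : ((univ.filter (fun j => act j)).card : ℝ) * (θ / a) ^ 2 ≤ M) :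
    (ppS y z act).Bdd (pr (gS G K n₀) st a B θ δ) s (M + 2 * s * τ + (2 * s) ^ 2 * 2) := by
  have hp := pr_mem h
  obtain ⟨hθa0, hθa1, -⟩ := easy2_hθa h
  have hw1 : ∀ i : T, (ppS y z act).w i ≠ 0 → act i := by
    intro i hi
    by_contra hcon
    apply hi
    show (if act i then (1 : ℝ) else 0) = 0
    rw [if_neg hcon]
  have hwle : ∀ i : T, (ppS y z act).w i ≤ 1 := by
    intro i
    show (if act i then (1 : ℝ) else 0) ≤ 1
    split_ifs <;> norm_num
  refine bdd_double (pr (gS G K n₀) st a B θ δ) hp (ppS y z act) s M τ 2 ?_ hτ0 (by norm_num) ?_ ?_ ?_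
  · intro i _
    constructor
    · show (({pick (y i), pick (z i)} : Finset (Fin 3 × PX V K)) ∪ ∅).card ≤ 2
      rw [Finset.union_empty]
      exact Finset.card_le_two
    · show Disjoint ({pick (y i), pick (z i)} : Finset (Fin 3 × PX V K)) ∅
      exact Finset.disjoint_empty_right _
  · -- τ
    intro v
    by_cases hv : ∃ x, v = pick x
    · obtain ⟨x, rfl⟩ := hv
      have hterm : ∀ i : T,
          (if pick x ∈ (ppS y z act).D i ∪ (ppS y z act).C i then
            (ppS y z act).w i * ((∏ u ∈ ((ppS y z act).D i).erase (pick x),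
              pr (gS G K n₀) st a B θ δ u) *
              ∏ u ∈ ((ppS y z act).C i).erase (pick x), (1 - pr (gS G K n₀) st a B θ δ u)) else 0) ≤
          (if act i ∧ y i = x then θ / a else 0) +
          (if act i ∧ z i = x then θ / a else 0) := by
        intro i
        have n1 : (0 : ℝ) ≤ (if act i ∧ y i = x then θ / a else 0) := by
          split_ifs
          · exact hθa0
          · exact le_rfl
        have n2 : (0 : ℝ) ≤ (if act i ∧ z i = x then θ / a else 0) := by
          split_ifs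
          · exact hθa0
          · exact le_rfl
        by_cases hin : pick x ∈ (ppS y z act).D i ∪ (ppS y z act).C i
        · rw [if_pos hin]
          by_cases h0 : (ppS y z act).w i = 0
          · rw [h0, zero_mul]
            linarith
          have hact := hw1 i h0
          have hne' := hne i hact
          have hin' : pick x ∈ ({pick (y i), pick (z i)} : Finset (Fin 3 × PX V K)) ∪ ∅ := hin
          rw [Finset.union_empty, Finset.mem_insert, Finset.mem_singleton] at hin'
          have hprod : ∀ u : PX V K, ({pick (y i), pick (z i)} : Finset (Fin 3 × PX V K)).erase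
              (pick x) = {pick u} →
              (ppS y z act).w i * ((∏ u ∈ ((ppS y z act).D i).erase (pick x),
              pr (gS G K n₀) st a B θ δ u) *
              ∏ u ∈ ((ppS y z act).C i).erase (pick x), (1 - pr (gS G K n₀) st a B θ δ u)) ≤
              θ / a := by
            intro u hu
            have e1 : (∏ u ∈ ((ppS y z act).D i).erase (pick x), pr (gS G K n₀) st a B θ δ u) =
                θ / a := by
              show (∏ u ∈ ({pick (y i), pick (z i)} : Finset (Fin 3 × PX V K)).erase (pick x),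
                pr (gS G K n₀) st a B θ δ u) = θ / a
              rw [hu, Finset.prod_singleton, survS_pr_pick]
            have e2 : (∏ u ∈ ((ppS y z act).C i).erase (pick x),
                (1 - pr (gS G K n₀) st a B θ δ u)) = 1 := by
              show (∏ u ∈ (∅ : Finset (Fin 3 × PX V K)).erase (pick x),
                (1 - pr (gS G K n₀) st a B θ δ u)) = 1
              rw [Finset.erase_empty, Finset.prod_empty]
            rw [e1, e2, mul_one]
            exact mul_le_of_le_one_left hθa0 (hwle i)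
          rcases hin' with h3 | h3
          · have h4 : x = y i := survS_pick_inj h3
            rw [if_pos ⟨hact, h4.symm⟩]
            have := hprod (z i) (by
              rw [h3]
              ext u
              simp only [Finset.mem_erase, Finset.mem_insert, Finset.mem_singleton]
              constructor
              · rintro ⟨h5, h6 | h6⟩
                · exact absurd h6 h5
                · exact h6
              · intro h5
                refine ⟨?_, Or.inr h5⟩
                rw [h5]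
                intro h6
                exact hne' (survS_pick_inj h6).symm)
            linarith
          · have h4 : x = z i := survS_pick_inj h3
            rw [if_pos (⟨hact, h4.symm⟩ : act i ∧ z i = x)]
            have := hprod (y i) (by
              rw [h3]
              ext u
              simp only [Finset.mem_erase, Finset.mem_insert, Finset.mem_singleton]
              constructor
              · rintro ⟨h5, h6 | h6⟩
                · exact h6
                · exact absurd h6 h5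
              · intro h5
                refine ⟨?_, Or.inl h5⟩
                rw [h5]
                intro h6
                exact hne' (survS_pick_inj h6))
            linarith
        · rw [if_neg hin]
          linarith
      rw [Finset.sum_filter]
      refine (Finset.sum_le_sum (fun (i : T) (_ : i ∈ (univ : Finset T)) => hterm i)).trans ?_
      rw [Finset.sum_add_distrib, ← Finset.sum_filter, ← Finset.sum_filter, Finset.sum_const,
        Finset.sum_const, nsmul_eq_mul, nsmul_eq_mul, ← add_mul]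
      exact hτ x
    · rw [Finset.sum_eq_zero]
      · exact hτ0
      · intro i hi
        rw [Finset.mem_filter] at hi
        exfalso
        apply hv
        have hi2 : v ∈ ({pick (y i), pick (z i)} : Finset (Fin 3 × PX V K)) ∪ ∅ := hi.2
        rw [Finset.union_empty, Finset.mem_insert, Finset.mem_singleton] at hi2
        rcases hi2 with h3 | h3
        · exact ⟨y i, h3⟩
        · exact ⟨z i, h3⟩
  · -- κ
    intro v v' hvv
    have e1 : ∑ i ∈ univ.filter (fun i : T => v ∈ (ppS y z act).D i ∪ (ppS y z act).C i ∧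
          v' ∈ (ppS y z act).D i ∪ (ppS y z act).C i), (ppS y z act).w i =
        ((univ.filter (fun i : T => (v ∈ (ppS y z act).D i ∪ (ppS y z act).C i ∧
          v' ∈ (ppS y z act).D i ∪ (ppS y z act).C i) ∧ act i)).card : ℝ) := by
      rw [← Finset.filter_filter _ (fun i : T => act i), Finset.card_filter]
      push_cast
      rfl
    refine (le_of_eq e1).trans ?_
    have hsub : (univ.filter (fun i : T => (v ∈ (ppS y z act).D i ∪ (ppS y z act).C i ∧
          v' ∈ (ppS y z act).D i ∪ (ppS y z act).C i) ∧ act i)) ⊆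
        (univ.filter (fun i : T => (pick (y i) = v ∧ pick (z i) = v') ∧ act i)) ∪
        (univ.filter (fun i : T => (pick (y i) = v' ∧ pick (z i) = v) ∧ act i)) := by
      intro i hi
      rw [Finset.mem_filter] at hi
      obtain ⟨_, ⟨hi1, hi2⟩, hact⟩ := hi
      have hi1' : v ∈ ({pick (y i), pick (z i)} : Finset (Fin 3 × PX V K)) ∪ ∅ := hi1
      have hi2' : v' ∈ ({pick (y i), pick (z i)} : Finset (Fin 3 × PX V K)) ∪ ∅ := hi2
      rw [Finset.union_empty, Finset.mem_insert, Finset.mem_singleton] at hi1' hi2'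
      rw [Finset.mem_union, Finset.mem_filter, Finset.mem_filter]
      rcases hi1' with h3 | h3 <;> rcases hi2' with h4 | h4
      · exact absurd (h3.trans h4.symm) hvv
      · left
        exact ⟨Finset.mem_univ _, ⟨h3.symm, h4.symm⟩, hact⟩
      · right
        exact ⟨Finset.mem_univ _, ⟨h4.symm, h3.symm⟩, hact⟩
      · exact absurd (h3.trans h4.symm) hvv
    have hone : ∀ v v' : Fin 3 × PX V K,
        (univ.filter (fun i : T => (pick (y i) = v ∧ pick (z i) = v') ∧ act i)).card ≤ 1 := by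
      intro v v'
      rw [Finset.card_le_one]
      intro i hi j hj
      rw [Finset.mem_filter] at hi hj
      exact hinj i j hi.2.2 hj.2.2 (survS_pick_inj (hi.2.1.1.trans hj.2.1.1.symm))
        (survS_pick_inj (hi.2.1.2.trans hj.2.1.2.symm))
    have hc2 := (Finset.card_le_card hsub).trans ((Finset.card_union_le _ _).trans
      (Nat.add_le_add (hone v v') (hone v' v)))
    exact_mod_cast hc2
  · -- mean
    refine le_trans (le_of_eq ?_) hM
    rw [Finset.card_filter, Nat.cast_sum, Finset.sum_mul]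
    refine Finset.sum_congr rfl (fun (i : T) _ => ?_)
    show (if act i then (1 : ℝ) else 0) * ((∏ u ∈ ({pick (y i), pick (z i)} :
      Finset (Fin 3 × PX V K)), pr (gS G K n₀) st a B θ δ u) *
      ∏ u ∈ (∅ : Finset (Fin 3 × PX V K)), (1 - pr (gS G K n₀) st a B θ δ u)) = _
    by_cases hact : act i
    · rw [if_pos hact, Finset.prod_pair (fun hc => hne i hact (survS_pick_inj hc)), survS_pr_pick,
        survS_pr_pick, Finset.prod_empty, if_pos hact]
      push_cast
      ring
    · rw [if_neg hact, if_neg hact]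
      simp

theorem easy2_pdS (h : Hyp (gS G K n₀) st K a B Γ m ρ w g θ δ) {T : Type} [Fintype T]
    (y z : T → PX V K) (act : T → Prop) (s : ℕ) (M τ : ℝ)
    (hinj : ∀ i j, act i → act j → y i = y j → z i = z j → i = j)
    (hτ0 : 0 ≤ τ)
    (hτ : ∀ x, ((univ.filter (fun j => act j ∧ y j = x)).card : ℝ) ≤ τ)
    (hτ' : ∀ x, ((univ.filter (fun j => act j ∧ z j = x)).card : ℝ) ≤ τ)
    (hM : ((univ.filter (fun j => act j)).card : ℝ) * (θ / a * δ) ≤ M) :
    (pdS y z act).Bdd (pr (gS G K n₀) st a B θ δ) s (M + 2 * s * τ + (2 * s) ^ 2 * 2) := by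
  have hp := pr_mem h
  obtain ⟨hθa0, hθa1, -⟩ := easy2_hθa h
  have hpk : ∀ x : PX V K, pr (gS G K n₀) st a B θ δ (keep x) = 1 - δ := by
    intro x
    simp [pr, keep]
  have hki : ∀ x x' : PX V K, keep x = keep x' → x = x' := by
    intro x x' hx
    exact (Prod.ext_iff.1 hx).2
  have hpkne : ∀ x x' : PX V K, pick x ≠ keep x' := by
    intro x x' hx
    have := (Prod.ext_iff.1 hx).1
    revert this
    show (0 : Fin 3) = 2 → False
    decide
  have hw1 : ∀ i : T, (pdS y z act).w i ≠ 0 → act i := by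
    intro i hi
    by_contra hcon
    apply hi
    show (if act i then (1 : ℝ) else 0) = 0
    rw [if_neg hcon]
  have hw0 : ∀ i : T, 0 ≤ (pdS y z act).w i := (pdS y z act).nn
  have hmemU : ∀ (i : T) (v : Fin 3 × PX V K), v ∈ (pdS y z act).D i ∪ (pdS y z act).C i →
      v = pick (y i) ∨ v = keep (z i) := by
    intro i v hv
    have hv' : v ∈ ({pick (y i)} : Finset (Fin 3 × PX V K)) ∪ {keep (z i)} := hv
    rw [Finset.mem_union, Finset.mem_singleton, Finset.mem_singleton] at hv'
    exact hv'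
  refine bdd_double (pr (gS G K n₀) st a B θ δ) hp (pdS y z act) s M τ 2 ?_ hτ0 (by norm_num) ?_ ?_ ?_
  · intro i _
    constructor
    · show (({pick (y i)} : Finset (Fin 3 × PX V K)) ∪ {keep (z i)}).card ≤ 2
      refine (Finset.card_union_le _ _).trans ?_
      rw [Finset.card_singleton, Finset.card_singleton]
    · show Disjoint ({pick (y i)} : Finset (Fin 3 × PX V K)) {keep (z i)}
      rw [Finset.disjoint_singleton]
      exact hpkne _ _
  · -- τ
    intro v
    have hle : ∑ i ∈ univ.filter (fun i : T => v ∈ (pdS y z act).D i ∪ (pdS y z act).C i),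
        (pdS y z act).w i * ((∏ u ∈ ((pdS y z act).D i).erase v, pr (gS G K n₀) st a B θ δ u) *
          ∏ u ∈ ((pdS y z act).C i).erase v, (1 - pr (gS G K n₀) st a B θ δ u)) ≤
        ∑ i ∈ univ.filter (fun i : T => v ∈ (pdS y z act).D i ∪ (pdS y z act).C i),
          (pdS y z act).w i := by
      refine Finset.sum_le_sum (fun (i : T) _ => ?_)
      refine mul_le_of_le_one_right (hw0 i) ?_
      refine mul_le_one₀ (Finset.prod_le_one (fun u _ => (hp u).1) (fun u _ => (hp u).2))
        (Finset.prod_nonneg (fun u _ => by linarith [(hp u).2]))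
        (Finset.prod_le_one (fun u _ => by linarith [(hp u).2]) (fun u _ => by linarith [(hp u).1]))
    refine hle.trans ?_
    have e1 : ∑ i ∈ univ.filter (fun i : T => v ∈ (pdS y z act).D i ∪ (pdS y z act).C i),
          (pdS y z act).w i =
        ((univ.filter (fun i : T => v ∈ (pdS y z act).D i ∪ (pdS y z act).C i ∧ act i)).card : ℝ) := by
      rw [← Finset.filter_filter, Finset.card_filter]
      push_cast
      rfl
    rw [e1]
    rcases (univ.filter (fun i : T => v ∈ (pdS y z act).D i ∪ (pdS y z act).C i ∧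
        act i)).eq_empty_or_nonempty with he | ⟨i₀, hi₀⟩
    · rw [he]
      simpa using hτ0
    · rw [Finset.mem_filter] at hi₀
      rcases hmemU i₀ v hi₀.2.1 with h3 | h3
      · refine le_trans ?_ (hτ (y i₀))
        rw [Nat.cast_le]
        refine Finset.card_le_card ?_
        intro i hi
        rw [Finset.mem_filter] at hi ⊢
        refine ⟨Finset.mem_univ _, hi.2.2, ?_⟩
        rcases hmemU i v hi.2.1 with h4 | h4
        · exact survS_pick_inj (h4.symm.trans h3)
        · exact absurd (h3.symm.trans h4) (hpkne _ _)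
      · refine le_trans ?_ (hτ' (z i₀))
        rw [Nat.cast_le]
        refine Finset.card_le_card ?_
        intro i hi
        rw [Finset.mem_filter] at hi ⊢
        refine ⟨Finset.mem_univ _, hi.2.2, ?_⟩
        rcases hmemU i v hi.2.1 with h4 | h4
        · exact absurd (h4.symm.trans h3) (hpkne _ _)
        · exact hki _ _ (h4.symm.trans h3)
  · -- κ
    intro v v' hvv
    have e1 : ∑ i ∈ univ.filter (fun i : T => v ∈ (pdS y z act).D i ∪ (pdS y z act).C i ∧
          v' ∈ (pdS y z act).D i ∪ (pdS y z act).C i), (pdS y z act).w i =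
        ((univ.filter (fun i : T => (v ∈ (pdS y z act).D i ∪ (pdS y z act).C i ∧
          v' ∈ (pdS y z act).D i ∪ (pdS y z act).C i) ∧ act i)).card : ℝ) := by
      rw [← Finset.filter_filter _ (fun i : T => act i), Finset.card_filter]
      push_cast
      rfl
    refine (le_of_eq e1).trans ?_
    have hsub : (univ.filter (fun i : T => (v ∈ (pdS y z act).D i ∪ (pdS y z act).C i ∧
          v' ∈ (pdS y z act).D i ∪ (pdS y z act).C i) ∧ act i)) ⊆
        (univ.filter (fun i : T => (pick (y i) = v ∧ keep (z i) = v') ∧ act i)) ∪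
        (univ.filter (fun i : T => (pick (y i) = v' ∧ keep (z i) = v) ∧ act i)) := by
      intro i hi
      rw [Finset.mem_filter] at hi
      obtain ⟨_, ⟨hi1, hi2⟩, hact⟩ := hi
      rw [Finset.mem_union, Finset.mem_filter, Finset.mem_filter]
      rcases hmemU i v hi1 with h3 | h3 <;> rcases hmemU i v' hi2 with h4 | h4
      · exact absurd (h3.trans h4.symm) hvv
      · left
        exact ⟨Finset.mem_univ _, ⟨h3.symm, h4.symm⟩, hact⟩
      · right
        exact ⟨Finset.mem_univ _, ⟨h4.symm, h3.symm⟩, hact⟩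
      · exact absurd (h3.trans h4.symm) hvv
    have hone : ∀ v v' : Fin 3 × PX V K,
        (univ.filter (fun i : T => (pick (y i) = v ∧ keep (z i) = v') ∧ act i)).card ≤ 1 := by
      intro v v'
      rw [Finset.card_le_one]
      intro i hi j hj
      rw [Finset.mem_filter] at hi hj
      exact hinj i j hi.2.2 hj.2.2 (survS_pick_inj (hi.2.1.1.trans hj.2.1.1.symm))
        (hki _ _ (hi.2.1.2.trans hj.2.1.2.symm))
    have hc2 := (Finset.card_le_card hsub).trans ((Finset.card_union_le _ _).trans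
      (Nat.add_le_add (hone v v') (hone v' v)))
    exact_mod_cast hc2
  · -- mean
    refine le_trans (le_of_eq ?_) hM
    rw [Finset.card_filter, Nat.cast_sum, Finset.sum_mul]
    refine Finset.sum_congr rfl (fun (i : T) _ => ?_)
    show (if act i then (1 : ℝ) else 0) * ((∏ u ∈ ({pick (y i)} : Finset (Fin 3 × PX V K)),
      pr (gS G K n₀) st a B θ δ u) * ∏ u ∈ ({keep (z i)} : Finset (Fin 3 × PX V K)),
      (1 - pr (gS G K n₀) st a B θ δ u)) = _
    rw [Finset.prod_singleton, Finset.prod_singleton, survS_pr_pick, hpk]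
    by_cases hact : act i
    · rw [if_pos hact, if_pos hact]
      push_cast
      ring
    · rw [if_neg hact, if_neg hact]
      simp

/-! ### counting -/

theorem easy2_own_card (h : Hyp (gS G K n₀) st K a B Γ m ρ w g θ δ) (e : Sym2 V) :
    (st.L.filter (fun y => y.1 = e)).card ≤ a := by
  have h1 := survS_live_card h {e}
  rw [Finset.card_singleton, mul_one] at h1
  refine le_trans (Finset.card_le_card ?_) h1
  intro y hy
  rw [Finset.mem_filter] at hy ⊢
  exact ⟨hy.1, Finset.mem_singleton.2 hy.2⟩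

theorem easy2_pair_inj (v v1 v2 : V) (c1 c2 : Fin K)
    (h : ((s(v, v1), c1) : PX V K) = (s(v, v2), c2)) : v1 = v2 ∧ c1 = c2 := by
  rw [Prod.mk.injEq] at h
  exact ⟨Sym2.congr_right.1 h.1, h.2⟩

/-- number of live pairs at a vertex -/
theorem easy2_U_card (h : Hyp (gS G K n₀) st K a B Γ m ρ w g θ δ) (v : V) :
    (univ.filter (fun i : V × Fin K => (s(v, i.1), i.2) ∈ st.L)).card ≤ a * (stU st v).card := by
  refine le_trans ?_ (survS_live_card h (stU st v))
  refine Finset.card_le_card_of_injOn (fun i : V × Fin K => ((s(v, i.1), i.2) : PX V K)) ?_ ?_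
  · intro i hi
    rw [Finset.coe_filter, Set.mem_ofPred_eq] at hi
    rw [Finset.coe_filter, Set.mem_ofPred_eq]
    refine ⟨hi.2, ?_⟩
    show s(v, i.1) ∈ stU st v
    rw [stU, Finset.mem_filter]
    exact ⟨h.inv.L_U _ hi.2, Sym2.mem_mk_left _ _⟩
  · intro i _ j _ hij
    have := easy2_pair_inj v i.1 j.1 i.2 j.2 hij
    exact Prod.ext this.1 this.2

/-- number of live pairs of colour `c` at a vertex -/
theorem easy2_node_card (h : Hyp (gS G K n₀) st K a B Γ m ρ w g θ δ) (v : V) (c : Fin K) :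
    ((univ.filter (fun i : V => (s(v, i), c) ∈ st.L)).card : ℝ) ≤ ρ * a := by
  refine le_trans ?_ (h.inv.node (v, c))
  rw [Nat.cast_le]
  refine Finset.card_le_card_of_injOn (fun i : V => ((s(v, i), c) : PX V K)) ?_ ?_
  · intro i hi
    rw [Finset.coe_filter, Set.mem_ofPred_eq] at hi
    rw [atN, Finset.coe_filter, Set.mem_ofPred_eq]
    refine ⟨hi.2, ?_⟩
    show (v, c) ∈ ndG (s(v, i), c)
    rw [ndG, Finset.mem_filter]
    exact ⟨Finset.mem_univ _, Sym2.mem_mk_left _ _, rfl⟩
  · intro i _ j _ hij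
    exact (easy2_pair_inj v i j c c hij).1

theorem easy2_K_card (h : Hyp (gS G K n₀) st K a B Γ m ρ w g θ δ) (v : V) :
    ((univ.filter (fun i : V × Fin K => (s(v, i.1), i.2) ∈ st.L)).card : ℝ) ≤ K * (ρ * a) := by
  have e1 : ((univ.filter (fun i : V × Fin K => (s(v, i.1), i.2) ∈ st.L)).card : ℝ) =
      ∑ c : Fin K, ((univ.filter (fun i : V => (s(v, i), c) ∈ st.L)).card : ℝ) := by
    rw [Finset.card_filter, Fintype.sum_prod_type, Finset.sum_comm, Nat.cast_sum]
    refine Finset.sum_congr rfl (fun c _ => ?_)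
    rw [Finset.card_filter]
  rw [e1]
  refine (Finset.sum_le_sum (fun c _ => easy2_node_card h v c)).trans ?_
  rw [Finset.sum_const, nsmul_eq_mul, Finset.card_univ, Fintype.card_fin]

/-- an edge `s(par R u c, v')` determines `(v', c)` up to two possibilities -/
theorem easy2_two (h : Hyp (gS G K n₀) st K a B Γ m ρ w g θ δ) (u : V) (e : Sym2 V) :
    (univ.filter (fun i : V × Fin K => Has st.R u i.2 ∧ e = s(par st.R u i.2, i.1))).card ≤ 2 := by
  induction e using Sym2.ind with
  | _ p q =>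
    have h1 : (univ.filter (fun i : V × Fin K => Has st.R u i.2 ∧
        s(p, q) = s(par st.R u i.2, i.1))).card ≤ ({p, q} : Finset V).card := by
      refine Finset.card_le_card_of_injOn (fun i : V × Fin K => par st.R u i.2) ?_ ?_
      · intro i hi
        rw [Finset.coe_filter, Set.mem_ofPred_eq] at hi
        rw [Finset.mem_coe, Finset.mem_insert, Finset.mem_singleton]
        have h2 : par st.R u i.2 ∈ s(p, q) := by
          rw [hi.2.2]
          exact Sym2.mem_mk_left _ _
        exact Sym2.mem_iff.1 h2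
      · intro i hi j hj hij
        rw [Finset.coe_filter, Set.mem_ofPred_eq] at hi hj
        have hij' : par st.R u i.2 = par st.R u j.2 := hij
        have hc : i.2 = j.2 := by
          have h2 := par_spec st.R u i.2 hi.2.1
          have h3 := par_spec st.R u j.2 hj.2.1
          by_contra hcc
          refine h.inv.R_ed _ h2 _ h3 (fun hc => hcc (Prod.ext_iff.1 hc).2) ?_
          show s(u, par st.R u i.2) = s(u, par st.R u j.2)
          rw [hij']
        refine Prod.ext ?_ hc
        have h4 := hi.2.2.symm.trans hj.2.2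
        rw [hij'] at h4
        exact Sym2.congr_right.1 h4
    exact h1.trans Finset.card_le_two

/-- a live pair `(s(v, v'), c)` at `v` is not on the edge `s(par R u c, v')` -/
theorem easy2_ne (h : Hyp (gS G K n₀) st K a B Γ m ρ w g θ δ) (u v v' : V) (c : Fin K)
    (hL : (s(v, v'), c) ∈ st.L) (hH : Has st.R u c) : s(v, v') ≠ s(par st.R u c, v') := by
  intro he
  have h1 : v = par st.R u c := Sym2.congr_left.1 he
  have h2 := par_spec st.R u c hH
  rw [← h1] at h2
  refine (Finset.disjoint_left.1 (h.inv.LR _ hL _ h2) : ∀ ⦃b : V × Fin K⦄, _) (?_ : (v, c) ∈ _) ?_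
  · show (v, c) ∈ ndG (s(v, v'), c)
    rw [ndG, Finset.mem_filter]
    exact ⟨Finset.mem_univ _, Sym2.mem_mk_left _ _, rfl⟩
  · show (v, c) ∈ ndG (s(u, v), c)
    rw [ndG, Finset.mem_filter]
    exact ⟨Finset.mem_univ _, Sym2.mem_mk_right _ _, rfl⟩

theorem nJU_bdd (h : Hyp (gS G K n₀) st K a B Γ m ρ w g θ δ) (u v : V) (s : ℕ) (D : ℝ)
    (hD : ((stU st v).card : ℝ) ≤ D) :
    (nJ st (fun e => e ∈ st.U) u v).Bdd (pr (gS G K n₀) st a B θ δ) s (θ * D + s) := by
  obtain ⟨hθa0, hθa1, haθ⟩ := easy2_hθa h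
  unfold nJ
  refine easy2_pS h _ _ s (θ * D) ?_ ?_
  · intro i j _ _ hij
    have := easy2_pair_inj v i.1 j.1 i.2 j.2 hij
    exact Prod.ext this.1 this.2
  · have h1 : (univ.filter (fun i : V × Fin K => (s(v, i.1), i.2) ∈ st.L ∧ Has st.R u i.2 ∧
        s(par st.R u i.2, i.1) ∈ st.U)).card ≤ a * (stU st v).card := by
      refine le_trans (Finset.card_le_card ?_) (easy2_U_card h v)
      intro i hi
      rw [Finset.mem_filter] at hi ⊢
      exact ⟨hi.1, hi.2.1⟩
    have h2 : ((univ.filter (fun i : V × Fin K => (s(v, i.1), i.2) ∈ st.L ∧ Has st.R u i.2 ∧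
        s(par st.R u i.2, i.1) ∈ st.U)).card : ℝ) ≤ a * (stU st v).card := by
      exact_mod_cast h1
    have h3 : ((univ.filter (fun i : V × Fin K => (s(v, i.1), i.2) ∈ st.L ∧ Has st.R u i.2 ∧
        s(par st.R u i.2, i.1) ∈ st.U)).card : ℝ) * (θ / a) ≤ θ * D := by
      calc ((univ.filter (fun i : V × Fin K => (s(v, i.1), i.2) ∈ st.L ∧ Has st.R u i.2 ∧
          s(par st.R u i.2, i.1) ∈ st.U)).card : ℝ) * (θ / a) ≤ (a * (stU st v).card) * (θ / a) :=
            mul_le_mul_of_nonneg_right h2 hθa0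
        _ = (a * (θ / a)) * (stU st v).card := by ring
        _ = θ * (stU st v).card := by rw [haθ]
        _ ≤ θ * D := mul_le_mul_of_nonneg_left hD h.θ0.le
    convert h3 <;> rfl

theorem nJF_bdd (h : Hyp (gS G K n₀) st K a B Γ m ρ w g θ δ) (u v : V) (s : ℕ) (f : ℝ)
    (hf : ∀ v, ((fstar G st v).card : ℝ) ≤ f) :
    (nJ st (FE G st) u v).Bdd (pr (gS G K n₀) st a B θ δ) s (K * (θ / a) * f + s) := by
  obtain ⟨hθa0, hθa1, haθ⟩ := easy2_hθa h
  unfold nJ
  refine easy2_pS h _ _ s (K * (θ / a) * f) ?_ ?_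
  · intro i j _ _ hij
    have := easy2_pair_inj v i.1 j.1 i.2 j.2 hij
    exact Prod.ext this.1 this.2
  · have h1 : ((univ.filter (fun i : V × Fin K => (s(v, i.1), i.2) ∈ st.L ∧ Has st.R u i.2 ∧
        FE G st s(par st.R u i.2, i.1))).card : ℝ) ≤ K * f := by
      have e1 : ((univ.filter (fun i : V × Fin K => (s(v, i.1), i.2) ∈ st.L ∧ Has st.R u i.2 ∧
          FE G st s(par st.R u i.2, i.1))).card : ℝ) =
          ∑ c : Fin K, ((univ.filter (fun i : V => (s(v, i), c) ∈ st.L ∧ Has st.R u c ∧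
            FE G st s(par st.R u c, i))).card : ℝ) := by
        rw [Finset.card_filter, Fintype.sum_prod_type, Finset.sum_comm, Nat.cast_sum]
        refine Finset.sum_congr rfl (fun c _ => ?_)
        rw [Finset.card_filter]
      rw [e1]
      have h2 : ∀ c : Fin K, ((univ.filter (fun i : V => (s(v, i), c) ∈ st.L ∧ Has st.R u c ∧
            FE G st s(par st.R u c, i))).card : ℝ) ≤ f := by
        intro c
        refine le_trans ?_ (hf (par st.R u c))
        rw [Nat.cast_le]
        refine Finset.card_le_card_of_injOn (fun i : V => s(par st.R u c, i)) ?_ ?_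
        · intro i hi
          rw [Finset.coe_filter, Set.mem_ofPred_eq] at hi
          rw [fstar, Finset.coe_filter, Set.mem_ofPred_eq]
          exact ⟨Finset.mem_univ _, Sym2.mem_mk_left _ _, hi.2.2.2⟩
        · intro i _ j _ hij
          exact Sym2.congr_right.1 hij
      refine (Finset.sum_le_sum (fun c _ => h2 c)).trans ?_
      rw [Finset.sum_const, nsmul_eq_mul, Finset.card_univ, Fintype.card_fin]
    have h3 := (mul_le_mul_of_nonneg_right h1 hθa0).trans (le_of_eq (by ring :
      (K : ℝ) * f * (θ / a) = K * (θ / a) * f))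
    convert h3 <;> rfl

theorem nP_bdd (h : Hyp (gS G K n₀) st K a B Γ m ρ w g θ δ) (u v : V) (s : ℕ) (D : ℝ)
    (hD : ((stU st v).card : ℝ) ≤ D) :
    (nP st u v).Bdd (pr (gS G K n₀) st a B θ δ) s (θ ^ 2 * D + 6 * s + 8 * s ^ 2) := by
  obtain ⟨hθa0, hθa1, haθ⟩ := easy2_hθa h
  unfold nP
  have hmain := easy2_ppS h (T := (V × Fin K) × PX V K) (fun i => (s(v, i.1.1), i.1.2))
    (fun i => i.2)
    (fun i => (s(v, i.1.1), i.1.2) ∈ st.L ∧ Has st.R u i.1.2 ∧ i.2 ∈ st.L ∧
      i.2.1 = s(par st.R u i.1.2, i.1.1)) s (θ ^ 2 * D) 3 ?_ ?_ (by norm_num) ?_ ?_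
  · refine bdd_mono _ _ s s _ _ le_rfl (le_of_eq ?_) hmain
    ring
  · intro i hi he
    have he' : ((s(v, i.1.1), i.1.2) : PX V K) = i.2 := he
    refine easy2_ne h u v i.1.1 i.1.2 hi.1 hi.2.1 ?_
    rw [← hi.2.2.2, ← he']
  · intro i j _ _ hij hij'
    have := easy2_pair_inj v i.1.1 j.1.1 i.1.2 j.1.2 hij
    exact Prod.ext (Prod.ext this.1 this.2) hij'
  · intro x
    have c1 : (univ.filter (fun j : (V × Fin K) × PX V K => ((s(v, j.1.1), j.1.2) ∈ st.L ∧
        Has st.R u j.1.2 ∧ j.2 ∈ st.L ∧ j.2.1 = s(par st.R u j.1.2, j.1.1)) ∧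
        ((s(v, j.1.1), j.1.2) : PX V K) = x)).card ≤ a := by
      rcases (univ.filter (fun j : (V × Fin K) × PX V K => ((s(v, j.1.1), j.1.2) ∈ st.L ∧
        Has st.R u j.1.2 ∧ j.2 ∈ st.L ∧ j.2.1 = s(par st.R u j.1.2, j.1.1)) ∧
        ((s(v, j.1.1), j.1.2) : PX V K) = x)).eq_empty_or_nonempty with he | ⟨j₀, hj₀⟩
      · rw [he, Finset.card_empty]
        exact Nat.zero_le _
      · rw [Finset.mem_filter] at hj₀
        refine le_trans ?_ (easy2_own_card h s(par st.R u j₀.1.2, j₀.1.1))
        refine Finset.card_le_card_of_injOn (fun j : (V × Fin K) × PX V K => j.2) ?_ ?_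
        · intro j hj
          rw [Finset.coe_filter, Set.mem_ofPred_eq] at hj
          rw [Finset.coe_filter, Set.mem_ofPred_eq]
          have h1 := easy2_pair_inj v j.1.1 j₀.1.1 j.1.2 j₀.1.2 (hj.2.2.trans hj₀.2.2.symm)
          refine ⟨hj.2.1.2.2.1, ?_⟩
          rw [hj.2.1.2.2.2, h1.1, h1.2]
        · intro j hj j' hj' hjj
          rw [Finset.coe_filter, Set.mem_ofPred_eq] at hj hj'
          have h1 := easy2_pair_inj v j.1.1 j'.1.1 j.1.2 j'.1.2 (hj.2.2.trans hj'.2.2.symm)
          exact Prod.ext (Prod.ext h1.1 h1.2) hjj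
    have c2 : (univ.filter (fun j : (V × Fin K) × PX V K => ((s(v, j.1.1), j.1.2) ∈ st.L ∧
        Has st.R u j.1.2 ∧ j.2 ∈ st.L ∧ j.2.1 = s(par st.R u j.1.2, j.1.1)) ∧ j.2 = x)).card ≤
        2 := by
      refine le_trans ?_ (easy2_two h u x.1)
      refine Finset.card_le_card_of_injOn (fun j : (V × Fin K) × PX V K => j.1) ?_ ?_
      · intro j hj
        rw [Finset.coe_filter, Set.mem_ofPred_eq] at hj
        rw [Finset.coe_filter, Set.mem_ofPred_eq]
        refine ⟨Finset.mem_univ _, hj.2.1.2.1, ?_⟩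
        rw [← hj.2.1.2.2.2, hj.2.2]
      · intro j hj j' hj' hjj
        rw [Finset.coe_filter, Set.mem_ofPred_eq] at hj hj'
        exact Prod.ext hjj (hj.2.2.trans hj'.2.2.symm)
    have c1' : ((univ.filter (fun j : (V × Fin K) × PX V K => ((s(v, j.1.1), j.1.2) ∈ st.L ∧
        Has st.R u j.1.2 ∧ j.2 ∈ st.L ∧ j.2.1 = s(par st.R u j.1.2, j.1.1)) ∧
        ((s(v, j.1.1), j.1.2) : PX V K) = x)).card : ℝ) ≤ a := by exact_mod_cast c1
    have c2' : ((univ.filter (fun j : (V × Fin K) × PX V K => ((s(v, j.1.1), j.1.2) ∈ st.L ∧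
        Has st.R u j.1.2 ∧ j.2 ∈ st.L ∧ j.2.1 = s(par st.R u j.1.2, j.1.1)) ∧ j.2 = x)).card : ℝ) ≤
        2 := by exact_mod_cast c2
    have h3 := (mul_le_mul_of_nonneg_right (add_le_add c1' c2') hθa0).trans (by
      rw [add_mul, haθ]
      linarith [h.θ1] : ((a : ℝ) + 2) * (θ / a) ≤ 3)
    convert h3 <;> rfl
  · have h1 : (univ.filter (fun i : (V × Fin K) × PX V K => (s(v, i.1.1), i.1.2) ∈ st.L ∧
        Has st.R u i.1.2 ∧ i.2 ∈ st.L ∧ i.2.1 = s(par st.R u i.1.2, i.1.1))).card ≤
        a * (univ.filter (fun i : V × Fin K => (s(v, i.1), i.2) ∈ st.L)).card := by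
      refine Finset.card_le_mul_card_image_of_maps_to (f := Prod.fst) ?_ a ?_
      · intro i hi
        rw [Finset.mem_filter] at hi ⊢
        exact ⟨Finset.mem_univ _, hi.2.1⟩
      · intro i₀ _
        refine le_trans ?_ (easy2_own_card h s(par st.R u i₀.2, i₀.1))
        refine Finset.card_le_card_of_injOn (fun j : (V × Fin K) × PX V K => j.2) ?_ ?_
        · intro j hj
          rw [Finset.coe_filter, Set.mem_ofPred_eq, Finset.mem_filter] at hj
          rw [Finset.coe_filter, Set.mem_ofPred_eq]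
          refine ⟨hj.1.2.2.2.1, ?_⟩
          rw [hj.1.2.2.2.2, hj.2]
        · intro j hj j' hj' hjj
          rw [Finset.coe_filter, Set.mem_ofPred_eq] at hj hj'
          exact Prod.ext (hj.2.trans hj'.2.symm) hjj
    have h2 : ((univ.filter (fun i : (V × Fin K) × PX V K => (s(v, i.1.1), i.1.2) ∈ st.L ∧
        Has st.R u i.1.2 ∧ i.2 ∈ st.L ∧ i.2.1 = s(par st.R u i.1.2, i.1.1))).card : ℝ) ≤
        a * (a * (stU st v).card) := by
      have := h1.trans (Nat.mul_le_mul_left a (easy2_U_card h v))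
      exact_mod_cast this
    have hn : (0 : ℝ) ≤ (θ / a) ^ 2 := pow_nonneg hθa0 2
    have h3 := (mul_le_mul_of_nonneg_right h2 hn).trans (by
      have e1 : (a : ℝ) * (a * (stU st v).card) * (θ / a) ^ 2 =
          (a * (θ / a)) ^ 2 * (stU st v).card := by ring
      rw [e1, haθ]
      exact mul_le_mul_of_nonneg_left hD (pow_nonneg h.θ0.le 2) :
      (a : ℝ) * (a * (stU st v).card) * (θ / a) ^ 2 ≤ θ ^ 2 * D)
    convert h3 <;> rfl

theorem nD_bdd (h : Hyp (gS G K n₀) st K a B Γ m ρ w g θ δ) (u v : V) (s : ℕ) :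
    (nD st u v).Bdd (pr (gS G K n₀) st a B θ δ) s (K * θ * δ + 6 * s + 8 * s ^ 2) := by
  obtain ⟨hθa0, hθa1, haθ⟩ := easy2_hθa h
  unfold nD
  have hfib : ∀ i₀ : V × Fin K, (univ.filter (fun j : (V × Fin K) × PX V K =>
      (j.2 ∈ st.R ∧ j.2.1 = s(par st.R u j.1.2, j.1.1)) ∧ j.1 = i₀)).card ≤ 1 := by
    intro i₀
    rw [Finset.card_le_one]
    intro j hj j' hj'
    rw [Finset.mem_filter] at hj hj'
    have h0 : j.1 = j'.1 := hj.2.2.trans hj'.2.2.symm
    refine Prod.ext h0 ?_
    by_contra hcc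
    refine h.inv.R_ed _ hj.2.1.1 _ hj'.2.1.1 hcc ?_
    show j.2.1 = j'.2.1
    rw [hj.2.1.2, hj'.2.1.2, h0]
  have hmain := easy2_pdS h (T := (V × Fin K) × PX V K) (fun i => (s(v, i.1.1), i.1.2))
    (fun i => i.2)
    (fun i => (s(v, i.1.1), i.1.2) ∈ st.L ∧ Has st.R u i.1.2 ∧ i.2 ∈ st.R ∧
      i.2.1 = s(par st.R u i.1.2, i.1.1)) s (K * θ * δ) 3 ?_ (by norm_num) ?_ ?_ ?_
  · refine bdd_mono _ _ s s _ _ le_rfl (le_of_eq ?_) hmain
    ring
  · intro i j _ _ hij hij'
    have := easy2_pair_inj v i.1.1 j.1.1 i.1.2 j.1.2 hij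
    exact Prod.ext (Prod.ext this.1 this.2) hij'
  · intro x
    have c1 : (univ.filter (fun j : (V × Fin K) × PX V K => ((s(v, j.1.1), j.1.2) ∈ st.L ∧
        Has st.R u j.1.2 ∧ j.2 ∈ st.R ∧ j.2.1 = s(par st.R u j.1.2, j.1.1)) ∧
        ((s(v, j.1.1), j.1.2) : PX V K) = x)).card ≤ 1 := by
      rcases (univ.filter (fun j : (V × Fin K) × PX V K => ((s(v, j.1.1), j.1.2) ∈ st.L ∧
        Has st.R u j.1.2 ∧ j.2 ∈ st.R ∧ j.2.1 = s(par st.R u j.1.2, j.1.1)) ∧
        ((s(v, j.1.1), j.1.2) : PX V K) = x)).eq_empty_or_nonempty with he | ⟨j₀, hj₀⟩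
      · rw [he, Finset.card_empty]
        exact Nat.zero_le _
      · rw [Finset.mem_filter] at hj₀
        refine le_trans (Finset.card_le_card ?_) (hfib j₀.1)
        intro j hj
        rw [Finset.mem_filter] at hj ⊢
        have h1 := easy2_pair_inj v j.1.1 j₀.1.1 j.1.2 j₀.1.2 (hj.2.2.trans hj₀.2.2.symm)
        exact ⟨Finset.mem_univ _, ⟨hj.2.1.2.2.1, hj.2.1.2.2.2⟩, Prod.ext h1.1 h1.2⟩
    have c1' : ((univ.filter (fun j : (V × Fin K) × PX V K => ((s(v, j.1.1), j.1.2) ∈ st.L ∧
        Has st.R u j.1.2 ∧ j.2 ∈ st.R ∧ j.2.1 = s(par st.R u j.1.2, j.1.1)) ∧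
        ((s(v, j.1.1), j.1.2) : PX V K) = x)).card : ℝ) ≤ 1 := by exact_mod_cast c1
    have h3 := c1'.trans (by norm_num : (1 : ℝ) ≤ 3)
    convert h3 <;> rfl
  · intro x
    have c2 : (univ.filter (fun j : (V × Fin K) × PX V K => ((s(v, j.1.1), j.1.2) ∈ st.L ∧
        Has st.R u j.1.2 ∧ j.2 ∈ st.R ∧ j.2.1 = s(par st.R u j.1.2, j.1.1)) ∧ j.2 = x)).card ≤
        2 := by
      refine le_trans ?_ (easy2_two h u x.1)
      refine Finset.card_le_card_of_injOn (fun j : (V × Fin K) × PX V K => j.1) ?_ ?_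
      · intro j hj
        rw [Finset.coe_filter, Set.mem_ofPred_eq] at hj
        rw [Finset.coe_filter, Set.mem_ofPred_eq]
        refine ⟨Finset.mem_univ _, hj.2.1.2.1, ?_⟩
        rw [← hj.2.1.2.2.2, hj.2.2]
      · intro j hj j' hj' hjj
        rw [Finset.coe_filter, Set.mem_ofPred_eq] at hj hj'
        exact Prod.ext hjj (hj.2.2.trans hj'.2.2.symm)
    have c2' : ((univ.filter (fun j : (V × Fin K) × PX V K => ((s(v, j.1.1), j.1.2) ∈ st.L ∧
        Has st.R u j.1.2 ∧ j.2 ∈ st.R ∧ j.2.1 = s(par st.R u j.1.2, j.1.1)) ∧ j.2 = x)).card : ℝ) ≤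
        2 := by exact_mod_cast c2
    have h3 := c2'.trans (by norm_num : (2 : ℝ) ≤ 3)
    convert h3 <;> rfl
  · have h1 : (univ.filter (fun i : (V × Fin K) × PX V K => (s(v, i.1.1), i.1.2) ∈ st.L ∧
        Has st.R u i.1.2 ∧ i.2 ∈ st.R ∧ i.2.1 = s(par st.R u i.1.2, i.1.1))).card ≤
        1 * (univ.filter (fun i : V × Fin K => (s(v, i.1), i.2) ∈ st.L)).card := by
      refine Finset.card_le_mul_card_image_of_maps_to (f := Prod.fst) ?_ 1 ?_
      · intro i hi
        rw [Finset.mem_filter] at hi ⊢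
        exact ⟨Finset.mem_univ _, hi.2.1⟩
      · intro i₀ _
        refine le_trans (Finset.card_le_card ?_) (hfib i₀)
        intro j hj
        rw [Finset.mem_filter, Finset.mem_filter] at hj
        rw [Finset.mem_filter]
        exact ⟨Finset.mem_univ _, ⟨hj.1.2.2.2.1, hj.1.2.2.2.2⟩, hj.2⟩
    rw [one_mul] at h1
    have h2 : ((univ.filter (fun i : (V × Fin K) × PX V K => (s(v, i.1.1), i.1.2) ∈ st.L ∧
        Has st.R u i.1.2 ∧ i.2 ∈ st.R ∧ i.2.1 = s(par st.R u i.1.2, i.1.1))).card : ℝ) ≤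
        K * (ρ * a) := by
      refine le_trans ?_ (easy2_K_card h v)
      exact_mod_cast h1
    have hn : 0 ≤ θ / a * δ := mul_nonneg hθa0 h.δ0
    have h3 := (mul_le_mul_of_nonneg_right h2 hn).trans (by
      have e1 : (K : ℝ) * (ρ * a) * (θ / a * δ) = ρ * (K * (a * (θ / a)) * δ) := by ring
      rw [e1, haθ]
      have hn2 : 0 ≤ (K : ℝ) * θ * δ := mul_nonneg (mul_nonneg (Nat.cast_nonneg _) h.θ0.le) h.δ0
      exact mul_le_of_le_one_left hn2 h.ρ1 :
      (K : ℝ) * (ρ * a) * (θ / a * δ) ≤ K * θ * δ)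
    convert h3 <;> rfl

theorem nB_bdd (h : Hyp (gS G K n₀) st K a B Γ m ρ w g θ δ) (u v : V) (s : ℕ) :
    (nB st u v).Bdd (pr (gS G K n₀) st a B θ δ) s (K * θ ^ 2 + 4 * s + 8 * s ^ 2) := by
  obtain ⟨hθa0, hθa1, haθ⟩ := easy2_hθa h
  have hρa : 0 ≤ ρ * a := mul_nonneg h.ρ0 (Nat.cast_nonneg a)
  have hρθ : ρ * a * (θ / a) ≤ 1 := by
    have e1 : ρ * a * (θ / a) = ρ * (a * (θ / a)) := by ring
    rw [e1, haθ]
    exact (mul_le_mul h.ρ1 h.θ1 h.θ0.le (by norm_num)).trans (by norm_num)
  unfold nB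
  have hmain := easy2_ppS h (T := Fin K × V × V) (fun i => (s(v, i.2.1), i.1))
    (fun i => (s(u, i.2.2), i.1))
    (fun i => (s(v, i.2.1), i.1) ∈ st.L ∧ (s(u, i.2.2), i.1) ∈ st.L ∧
      s(v, i.2.1) ≠ s(u, i.2.2)) s (K * θ ^ 2) 2 ?_ ?_ (by norm_num) ?_ ?_
  · refine bdd_mono _ _ s s _ _ le_rfl (le_of_eq ?_) hmain
    ring
  · intro i hi he
    exact hi.2.2 (Prod.ext_iff.1 he).1
  · intro i j _ _ hij hij'
    have h1 := easy2_pair_inj v i.2.1 j.2.1 i.1 j.1 hij
    have h2 := easy2_pair_inj u i.2.2 j.2.2 i.1 j.1 hij'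
    exact Prod.ext h1.2 (Prod.ext h1.1 h2.1)
  · intro x
    have c1 : ((univ.filter (fun j : Fin K × V × V => ((s(v, j.2.1), j.1) ∈ st.L ∧
        (s(u, j.2.2), j.1) ∈ st.L ∧ s(v, j.2.1) ≠ s(u, j.2.2)) ∧
        ((s(v, j.2.1), j.1) : PX V K) = x)).card : ℝ) ≤ ρ * a := by
      refine le_trans ?_ (easy2_node_card h u x.2)
      rw [Nat.cast_le]
      refine Finset.card_le_card_of_injOn (fun j : Fin K × V × V => j.2.2) ?_ ?_
      · intro j hj
        rw [Finset.coe_filter, Set.mem_ofPred_eq] at hj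
        rw [Finset.coe_filter, Set.mem_ofPred_eq]
        refine ⟨Finset.mem_univ _, ?_⟩
        have h1 : j.1 = x.2 := (Prod.ext_iff.1 hj.2.2).2
        rw [← h1]
        exact hj.2.1.2.1
      · intro j hj j' hj' hjj
        rw [Finset.coe_filter, Set.mem_ofPred_eq] at hj hj'
        have h1 := easy2_pair_inj v j.2.1 j'.2.1 j.1 j'.1 (hj.2.2.trans hj'.2.2.symm)
        exact Prod.ext h1.2 (Prod.ext h1.1 hjj)
    have c2 : ((univ.filter (fun j : Fin K × V × V => ((s(v, j.2.1), j.1) ∈ st.L ∧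
        (s(u, j.2.2), j.1) ∈ st.L ∧ s(v, j.2.1) ≠ s(u, j.2.2)) ∧
        ((s(u, j.2.2), j.1) : PX V K) = x)).card : ℝ) ≤ ρ * a := by
      refine le_trans ?_ (easy2_node_card h v x.2)
      rw [Nat.cast_le]
      refine Finset.card_le_card_of_injOn (fun j : Fin K × V × V => j.2.1) ?_ ?_
      · intro j hj
        rw [Finset.coe_filter, Set.mem_ofPred_eq] at hj
        rw [Finset.coe_filter, Set.mem_ofPred_eq]
        refine ⟨Finset.mem_univ _, ?_⟩
        have h1 : j.1 = x.2 := (Prod.ext_iff.1 hj.2.2).2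
        rw [← h1]
        exact hj.2.1.1
      · intro j hj j' hj' hjj
        rw [Finset.coe_filter, Set.mem_ofPred_eq] at hj hj'
        have h1 := easy2_pair_inj u j.2.2 j'.2.2 j.1 j'.1 (hj.2.2.trans hj'.2.2.symm)
        exact Prod.ext h1.2 (Prod.ext hjj h1.1)
    have h3 := (mul_le_mul_of_nonneg_right (add_le_add c1 c2) hθa0).trans (by
      rw [add_mul]
      linarith : (ρ * a + ρ * a) * (θ / a) ≤ 2)
    convert h3 <;> rfl
  · have e1 : ((univ.filter (fun i : Fin K × V × V => (s(v, i.2.1), i.1) ∈ st.L ∧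
        (s(u, i.2.2), i.1) ∈ st.L ∧ s(v, i.2.1) ≠ s(u, i.2.2))).card : ℝ) =
        ∑ c : Fin K, ((univ.filter (fun i : V × V => (s(v, i.1), c) ∈ st.L ∧
        (s(u, i.2), c) ∈ st.L ∧ s(v, i.1) ≠ s(u, i.2))).card : ℝ) := by
      rw [Finset.card_filter, Fintype.sum_prod_type, Nat.cast_sum]
      refine Finset.sum_congr rfl (fun c _ => ?_)
      rw [Finset.card_filter]
    have h2 : ∀ c : Fin K, ((univ.filter (fun i : V × V => (s(v, i.1), c) ∈ st.L ∧
        (s(u, i.2), c) ∈ st.L ∧ s(v, i.1) ≠ s(u, i.2))).card : ℝ) ≤ (ρ * a) * (ρ * a) := by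
      intro c
      have h3 : (univ.filter (fun i : V × V => (s(v, i.1), c) ∈ st.L ∧
        (s(u, i.2), c) ∈ st.L ∧ s(v, i.1) ≠ s(u, i.2))).card ≤
        (univ.filter (fun i : V => (s(v, i), c) ∈ st.L)).card *
        (univ.filter (fun i : V => (s(u, i), c) ∈ st.L)).card := by
        rw [← Finset.card_product]
        refine Finset.card_le_card ?_
        intro i hi
        rw [Finset.mem_filter] at hi
        rw [Finset.mem_product, Finset.mem_filter, Finset.mem_filter]
        exact ⟨⟨Finset.mem_univ _, hi.2.1⟩, ⟨Finset.mem_univ _, hi.2.2.1⟩⟩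
      have h4 : ((univ.filter (fun i : V × V => (s(v, i.1), c) ∈ st.L ∧
        (s(u, i.2), c) ∈ st.L ∧ s(v, i.1) ≠ s(u, i.2))).card : ℝ) ≤
        ((univ.filter (fun i : V => (s(v, i), c) ∈ st.L)).card : ℝ) *
        ((univ.filter (fun i : V => (s(u, i), c) ∈ st.L)).card : ℝ) := by
        exact_mod_cast h3
      exact h4.trans (mul_le_mul (easy2_node_card h v c) (easy2_node_card h u c)
        (Nat.cast_nonneg _) hρa)
    have h5 : ((univ.filter (fun i : Fin K × V × V => (s(v, i.2.1), i.1) ∈ st.L ∧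
        (s(u, i.2.2), i.1) ∈ st.L ∧ s(v, i.2.1) ≠ s(u, i.2.2))).card : ℝ) ≤
        K * ((ρ * a) * (ρ * a)) := by
      rw [e1]
      refine (Finset.sum_le_sum (fun c _ => h2 c)).trans ?_
      rw [Finset.sum_const, nsmul_eq_mul, Finset.card_univ, Fintype.card_fin]
    have hn : (0 : ℝ) ≤ (θ / a) ^ 2 := pow_nonneg hθa0 2
    have h6 := (mul_le_mul_of_nonneg_right h5 hn).trans (by
      have e2 : (K : ℝ) * ((ρ * a) * (ρ * a)) * (θ / a) ^ 2 =
          (ρ * ρ) * (K * (a * (θ / a)) ^ 2) := by ring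
      rw [e2, haθ]
      have hn2 : 0 ≤ (K : ℝ) * θ ^ 2 := mul_nonneg (Nat.cast_nonneg _) (pow_nonneg h.θ0.le 2)
      refine mul_le_of_le_one_left hn2 ?_
      exact (mul_le_mul h.ρ1 h.ρ1 h.ρ0 (by norm_num)).trans (by norm_num) :
      (K : ℝ) * ((ρ * a) * (ρ * a)) * (θ / a) ^ 2 ≤ K * θ ^ 2)
    convert h6 <;> rfl

end Pool.Agent.H77.AC
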