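import Pool.Agent.H77.AC.Ovl
import Pool.Agent.H77.AC.Gen

/-!
# AC-KILLAB: conditional bounds for the statistics `kA` (picked conflicts) and `kB` (coins)

Both by `bdd_single`.

`kA`: `D = {pick y}`, probability `θ / a`; the unconditional mean is `(θ/a) ∑_{x ∈ own e} |conf x|`. For a
variable `v = pick y` the number of indices `(x, y)` is the number of `x ∈ own e` with `y ∈ conf x`: those
sharing a node with `y` are at most one (`ov1`), for the others there is `H ∈ C`, `x, y ∈ H`,
`H \ {x, y} ⊆ R`, and `Q = H.erase y` lies in the family `f3 y e`, `Q ⊆ R ∪ L`, `Q ∩ L = {x}` (disjointness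
of `R` and `L`): at most `cnt (f3 y e) ∅ 1 ≤ K^0 * Γ = Γ`. So `κ = 1 + Γ`.

`kB`: `C = {coin x}`, mean `∑_{x ∈ own e} (1 - (1-θ/a)^(B - |conf x|)) ≤ (θ/a) ∑ (B - |conf x|)`
(Bernoulli inequality `one_add_mul_le_pow`), `κ = 1`.
-/

set_option autoImplicit false

open Finset
open scoped Classical

namespace Pool.Agent.H77.AC

variable {X E N : Type} [DecidableEq X] [DecidableEq E] [DecidableEq N] [Fintype X]
variable {S : Sys X E N} {st : St X E} {K a B Γ m : ℕ} {ρ w g θ δ : ℝ}

theorem killAB_count (h : Hyp S st K a B Γ m ρ w g θ δ) (e : E) (y : X) :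
    ((own S st e).filter (fun x => y ∈ conf S st x)).card ≤ 1 + Γ := by
  have hRL := RL_disj h
  have hsub : (own S st e).filter (fun x => y ∈ conf S st x) ⊆
      (univ.filter (fun x => S.ed x = e ∧ ¬ Disjoint (S.nd x) (S.nd y))) ∪
      (own S st e).filter (fun x => y ∈ conf S st x ∧
        ∃ H ∈ S.C, x ∈ H ∧ y ∈ H ∧ H \ {x, y} ⊆ st.R) := by
    intro x hx
    rw [Finset.mem_filter] at hx
    have hx1 := hx.1
    have hx2 := hx.2
    rw [own, Finset.mem_filter] at hx1
    have hx3 := hx2
    rw [conf, Finset.mem_filter] at hx3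
    rw [Finset.mem_union]
    rcases hx3.2.2 with hc | hc
    · left
      rw [Finset.mem_filter]
      exact ⟨Finset.mem_univ _, hx1.2, hc⟩
    · right
      rw [Finset.mem_filter]
      exact ⟨hx.1, hx2, hc⟩
  refine (Finset.card_le_card hsub).trans ((Finset.card_union_le _ _).trans ?_)
  have h1 := h.good.ov1 y e
  have h2 : ((own S st e).filter (fun x => y ∈ conf S st x ∧
        ∃ H ∈ S.C, x ∈ H ∧ y ∈ H ∧ H \ {x, y} ⊆ st.R)).card ≤ Γ := by
    have hcr := h.inv.crude (Fm.f3 y e) ∅ 1
    rw [Nat.sub_self, pow_zero, one_mul] at hcr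
    refine le_trans ?_ hcr
    unfold cnt
    have hex : ∀ x ∈ (own S st e).filter (fun x => y ∈ conf S st x ∧
        ∃ H ∈ S.C, x ∈ H ∧ y ∈ H ∧ H \ {x, y} ⊆ st.R),
        ∃ H ∈ S.C, x ∈ H ∧ y ∈ H ∧ H \ {x, y} ⊆ st.R := by
      intro x hx
      rw [Finset.mem_filter] at hx
      exact hx.2.2
    choose! F hF using hex
    have hlive : ∀ x ∈ (own S st e).filter (fun x => y ∈ conf S st x ∧
        ∃ H ∈ S.C, x ∈ H ∧ y ∈ H ∧ H \ {x, y} ⊆ st.R), x ∈ st.L ∧ S.ed x = e ∧ y ≠ x := by
      intro x hx
      rw [Finset.mem_filter] at hx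
      have hx1 := hx.1
      have hx2 := hx.2.1
      rw [own, Finset.mem_filter] at hx1
      rw [conf, Finset.mem_filter] at hx2
      exact ⟨hx1.1, hx1.2, hx2.2.1⟩
    have hQ : ∀ x ∈ (own S st e).filter (fun x => y ∈ conf S st x ∧
        ∃ H ∈ S.C, x ∈ H ∧ y ∈ H ∧ H \ {x, y} ⊆ st.R),
        ((F x).erase y) ∩ st.L = {x} := by
      intro x hx
      obtain ⟨hl, he, hne⟩ := hlive x hx
      obtain ⟨hC, hxH, hyH, hR⟩ := hF x hx
      ext z
      rw [Finset.mem_inter, Finset.mem_erase, Finset.mem_singleton]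
      constructor
      · rintro ⟨⟨hzy, hzF⟩, hzL⟩
        by_contra hzx
        have hzR : z ∈ st.R := by
          apply hR
          rw [Finset.mem_sdiff, Finset.mem_insert, Finset.mem_singleton]
          exact ⟨hzF, fun hh => hh.elim hzx hzy⟩
        exact Finset.disjoint_left.1 hRL hzR hzL
      · rintro rfl
        exact ⟨⟨hne.symm, hxH⟩, hl⟩
    refine Finset.card_le_card_of_injOn (fun x => (F x).erase y) ?_ ?_
    · intro x hx
      obtain ⟨hl, he, hne⟩ := hlive x hx
      obtain ⟨hC, hxH, hyH, hR⟩ := hF x hx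
      rw [Finset.mem_coe, Finset.mem_filter]
      refine ⟨?_, Finset.empty_subset _, ?_, ?_⟩
      · simp only [Fm.sets]
        rw [Finset.mem_image]
        refine ⟨F x, ?_, rfl⟩
        rw [Finset.mem_filter]
        exact ⟨hC, hyH, x, hxH, hne.symm, he⟩
      · intro z hz
        rw [Finset.sdiff_empty, Finset.mem_erase] at hz
        rw [Finset.mem_union]
        by_cases hzx : z = x
        · right
          rw [hzx]
          exact hl
        · left
          apply hR
          rw [Finset.mem_sdiff, Finset.mem_insert, Finset.mem_singleton]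
          exact ⟨hz.2, fun hh => hh.elim hzx hz.1⟩
      · rw [Finset.sdiff_empty, hQ x hx, Finset.card_singleton]
    · intro x hx x' hx' hxx
      have e1 := hQ x hx
      have e2 := hQ x' hx'
      simp only at hxx
      rw [hxx, e2] at e1
      exact (Finset.singleton_injective e1).symm
  omega

theorem kA_bdd (h : Hyp S st K a B Γ m ρ w g θ δ) (e : E) (s : ℕ) :
    (kA S st e).Bdd (pr S st a B θ δ) s
      (θ / a * ∑ x ∈ own S st e, ((conf S st x).card : ℝ) + s * (1 + Γ)) := by
  refine bdd_single (pr S st a B θ δ) (pr_mem h) (kA S st e) s _ (1 + Γ) ?_ (by positivity) ?_ ?_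
  · intro i _
    exact ⟨pick i.2, Or.inl ⟨rfl, rfl⟩⟩
  · intro v
    by_cases hv : ∃ y, v = pick y
    · obtain ⟨y, rfl⟩ := hv
      have hc := killAB_count h e y
      have hc' : (((own S st e).filter (fun x => y ∈ conf S st x)).card : ℝ) ≤ 1 + Γ := by
        exact_mod_cast hc
      refine le_trans (le_of_eq ?_) hc'
      rw [Finset.card_eq_sum_ones, Nat.cast_sum, Finset.sum_filter, Finset.sum_filter]
      show ∑ i : X × X, (if pick y ∈ ({pick i.2} : Finset (Fin 3 × X)) ∪ ∅ then
        (if i.1 ∈ own S st e ∧ i.2 ∈ conf S st i.1 then (1 : ℝ) else 0) else 0) = _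
      rw [Fintype.sum_prod_type]
      have e1 : ∀ x : X, (∑ z : X, (if pick y ∈ ({pick z} : Finset (Fin 3 × X)) ∪ ∅ then
        (if x ∈ own S st e ∧ z ∈ conf S st x then (1 : ℝ) else 0) else 0)) =
          if x ∈ own S st e then (if y ∈ conf S st x then (1 : ℝ) else 0) else 0 := by
        intro x
        rw [Finset.sum_eq_single y]
        · rw [if_pos (by simp)]
          by_cases h1 : x ∈ own S st e <;> by_cases h2 : y ∈ conf S st x <;> simp [h1, h2]
        · intro z _ hz
          rw [if_neg]
          intro hh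
          rw [Finset.union_empty, Finset.mem_singleton] at hh
          exact hz (Prod.ext_iff.1 hh).2.symm
        · intro hh
          exact absurd (Finset.mem_univ y) hh
      rw [Finset.sum_congr rfl (fun x _ => e1 x), ← Finset.sum_filter]
      have e2 : univ.filter (fun x => x ∈ own S st e) = own S st e := by
        ext x
        simp
      rw [e2]
      refine Finset.sum_congr rfl (fun x _ => ?_)
      split_ifs <;> simp
    · rw [Finset.sum_eq_zero]
      · positivity
      · intro i hi
        rw [Finset.mem_filter] at hi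
        exfalso
        apply hv
        have hi2 : v ∈ ({pick i.2} : Finset (Fin 3 × X)) ∪ ∅ := hi.2
        rw [Finset.union_empty, Finset.mem_singleton] at hi2
        exact ⟨i.2, hi2⟩
  · refine le_of_eq ?_
    show ∑ i : X × X, (if i.1 ∈ own S st e ∧ i.2 ∈ conf S st i.1 then (1 : ℝ) else 0) *
      ((∏ v ∈ ({pick i.2} : Finset (Fin 3 × X)), pr S st a B θ δ v) *
        ∏ v ∈ (∅ : Finset (Fin 3 × X)), (1 - pr S st a B θ δ v)) = _
    rw [Fintype.sum_prod_type, Finset.mul_sum]
    have e1 : ∀ x : X, (∑ z : X, (if x ∈ own S st e ∧ z ∈ conf S st x then (1 : ℝ) else 0) *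
      ((∏ v ∈ ({pick z} : Finset (Fin 3 × X)), pr S st a B θ δ v) *
        ∏ v ∈ (∅ : Finset (Fin 3 × X)), (1 - pr S st a B θ δ v))) =
        if x ∈ own S st e then θ / a * ((conf S st x).card : ℝ) else 0 := by
      intro x
      by_cases hx : x ∈ own S st e
      · rw [if_pos hx]
        have e2 : ∀ z : X, (if x ∈ own S st e ∧ z ∈ conf S st x then (1 : ℝ) else 0) *
          ((∏ v ∈ ({pick z} : Finset (Fin 3 × X)), pr S st a B θ δ v) *
            ∏ v ∈ (∅ : Finset (Fin 3 × X)), (1 - pr S st a B θ δ v)) =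
            if z ∈ conf S st x then θ / a else 0 := by
          intro z
          rw [Finset.prod_singleton, Finset.prod_empty, mul_one]
          have e3 : pr S st a B θ δ (pick z) = θ / a := by
            simp [pr, pick]
          rw [e3]
          by_cases hz : z ∈ conf S st x
          · rw [if_pos ⟨hx, hz⟩, if_pos hz, one_mul]
          · rw [if_neg (fun hh => hz hh.2), if_neg hz, zero_mul]
        rw [Finset.sum_congr rfl (fun z _ => e2 z), ← Finset.sum_filter, Finset.sum_const,
          nsmul_eq_mul]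
        have e4 : univ.filter (fun z => z ∈ conf S st x) = conf S st x := by
          ext z
          simp
        rw [e4]
        ring
      · rw [if_neg hx]
        refine Finset.sum_eq_zero (fun z _ => ?_)
        rw [if_neg (fun hh => hx hh.1), zero_mul]
    rw [Finset.sum_congr rfl (fun x _ => e1 x), ← Finset.sum_filter]
    have e5 : univ.filter (fun x => x ∈ own S st e) = own S st e := by
      ext x
      simp
    rw [e5]

theorem kB_bdd (h : Hyp S st K a B Γ m ρ w g θ δ) (e : E) (s : ℕ) :
    (kB S st e).Bdd (pr S st a B θ δ) s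
      (θ / a * ∑ x ∈ own S st e, ((B : ℝ) - (conf S st x).card) + s) := by
  have ha : (0 : ℝ) < a := by exact_mod_cast h.a0
  have hθa : θ / a ≤ 1 := by
    rw [div_le_one ha]
    have h1 : (1 : ℝ) ≤ a := by exact_mod_cast h.a0
    linarith [h.θ1]
  have hθa0 : 0 ≤ θ / a := div_nonneg h.θ0.le ha.le
  have hmain := bdd_single (pr S st a B θ δ) (pr_mem h) (kB S st e) s
    (θ / a * ∑ x ∈ own S st e, ((B : ℝ) - (conf S st x).card)) 1 ?_ zero_le_one ?_ ?_
  · rw [mul_one] at hmain
    exact hmain
  · intro i _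
    exact ⟨coin i, Or.inr ⟨rfl, rfl⟩⟩
  · intro v
    rw [Finset.sum_filter]
    show ∑ x : X, (if v ∈ (∅ : Finset (Fin 3 × X)) ∪ {coin x} then
      (if x ∈ own S st e then (1 : ℝ) else 0) else 0) ≤ 1
    by_cases hv : ∃ y, v = coin y
    · obtain ⟨y, rfl⟩ := hv
      rw [Finset.sum_eq_single y]
      · split_ifs <;> norm_num
      · intro z _ hz
        rw [if_neg]
        intro hh
        rw [Finset.empty_union, Finset.mem_singleton] at hh
        exact hz (Prod.ext_iff.1 hh).2.symm
      · intro hh
        exact absurd (Finset.mem_univ y) hh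
    · rw [Finset.sum_eq_zero]
      · exact zero_le_one
      · intro x _
        rw [if_neg]
        intro hh
        rw [Finset.empty_union, Finset.mem_singleton] at hh
        exact hv ⟨x, hh⟩
  · show ∑ x : X, (if x ∈ own S st e then (1 : ℝ) else 0) *
      ((∏ v ∈ (∅ : Finset (Fin 3 × X)), pr S st a B θ δ v) *
        ∏ v ∈ ({coin x} : Finset (Fin 3 × X)), (1 - pr S st a B θ δ v)) ≤ _
    rw [Finset.mul_sum]
    have e5 : univ.filter (fun x => x ∈ own S st e) = own S st e := by
      ext x
      simp
    have e1 : ∀ x : X, (if x ∈ own S st e then (1 : ℝ) else 0) *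
      ((∏ v ∈ (∅ : Finset (Fin 3 × X)), pr S st a B θ δ v) *
        ∏ v ∈ ({coin x} : Finset (Fin 3 × X)), (1 - pr S st a B θ δ v)) ≤
        if x ∈ own S st e then θ / a * ((B : ℝ) - (conf S st x).card) else 0 := by
      intro x
      by_cases hx : x ∈ own S st e
      · rw [if_pos hx, if_pos hx, one_mul, Finset.prod_empty, one_mul, Finset.prod_singleton]
        have e3 : pr S st a B θ δ (coin x) = (1 - θ / a) ^ (B - (conf S st x).card) := by
          simp [pr, coin]
        rw [e3]
        have hxL : x ∈ st.L := by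
          rw [own, Finset.mem_filter] at hx
          exact hx.1
        have hcc := conf_card_le h x hxL
        have hb := one_add_mul_le_pow (a := -(θ / a)) (by linarith) (B - (conf S st x).card)
        rw [Nat.cast_sub hcc] at hb
        have e6 : (1 : ℝ) + -(θ / a) = 1 - θ / a := by ring
        rw [e6] at hb
        have e7 : (1 : ℝ) + ((B : ℝ) - (conf S st x).card) * -(θ / a) =
          1 - θ / a * ((B : ℝ) - (conf S st x).card) := by ring
        rw [e7] at hb
        linarith
      · rw [if_neg hx, if_neg hx, zero_mul]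
    refine (Finset.sum_le_sum (fun x _ => e1 x)).trans (le_of_eq ?_)
    rw [← Finset.sum_filter, e5]

end Pool.Agent.H77.AC
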