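import Pool.Agent.H77.AC.Ovl
import Pool.Agent.H77.AC.Cyl

/-!
# AC-KILLC: conditional bound for the statistic `kC`

Let `h` be a history with at most `s` indices, `D₀ = h.biUnion D`, `C₀ = h.biUnion C = ∅`. `D₀` consists
of at most `s m` variables `pick y`. Put `π = θ/a`; `K π ≤ 1`. For an index `(x, H)` of nonzero weight let
`T = H.erase x ∩ L` (so `D = T.image pick`, `2 ≤ |T|`), `A' = {y ∈ T : pick y ∈ D₀}`. Then
`cnd ≤ π^{|T \ A'|}`.

* `A' = ∅`: `cnd ≤ π^{|T|} = θ^{|T|} / a^{|T|} ≤ θ² / a^{|T|}`. For fixed `x` the sum over `H` is at most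
  `θ² wgt x ≤ θ² w` (`1 ≤ g`), and there are `a` pairs `x ∈ own e` (if `e ∈ U`; otherwise `own e = ∅` by
  `L_U`): total `≤ a θ² w`.
* `A' ≠ ∅`: fix `A'` (a nonempty subset of at most `m` elements of a set with at most `s m` elements;
  number of such sets `≤ (s m + 1)^m`), fix some `y ∈ A'`. Map `(x, H)` to `Q = H.erase y`; `Q` is in the
  family `f3 y e` (`x ∈ H`, `x ≠ y`, `ed x = e`), `A'.erase y ⊆ Q`, `Q \ A'.erase y ⊆ R ∪ L` and its live elements are
  `x` and `T \ A'`: exactly `1 + n` with `n = |T \ A'| ≤ m`. The map is injective (`H = insert y Q`, `x` is the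
  element of `Q` on the edge `e`, unique by `ed_inj`). So the sum is at most
  `∑_{n=0}^{m} K^n Γ π^n ≤ (m+1) Γ`.
-/

set_option autoImplicit false

open Finset
open scoped Classical

namespace Pool.Agent.H77.AC

variable {X E N : Type} [DecidableEq X] [DecidableEq E] [DecidableEq N] [Fintype X]
variable {S : Sys X E N} {st : St X E} {K a B Γ m : ℕ} {ρ w g θ δ : ℝ}

/-- the number of subsets of at most `m` elements -/
theorem killC_subsets {α : Type} [DecidableEq α] (Y : Finset α) (n m : ℕ) (hY : Y.card ≤ n) :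
    (Y.powerset.filter (fun A => A.card ≤ m)).card ≤ (n + 1) ^ m := by
  have h1 : Y.powerset.filter (fun A => A.card ≤ m) ⊆
      (Finset.range (m + 1)).biUnion (fun k => Y.powersetCard k) := by
    intro A hA
    rw [Finset.mem_filter, Finset.mem_powerset] at hA
    rw [Finset.mem_biUnion]
    refine ⟨A.card, Finset.mem_range.2 (by omega), ?_⟩
    rw [Finset.mem_powersetCard]
    exact ⟨hA.1, rfl⟩
  refine (Finset.card_le_card h1).trans (Finset.card_biUnion_le.trans ?_)
  rw [add_pow]
  refine Finset.sum_le_sum fun k hk => ?_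
  rw [Finset.mem_range] at hk
  rw [Finset.card_powersetCard, one_pow, mul_one]
  have h2 : Y.card.choose k ≤ n ^ k := (Nat.choose_le_pow _ _).trans (Nat.pow_le_pow_left hY k)
  have h3 : 1 ≤ m.choose k := Nat.choose_pos (by omega)
  calc Y.card.choose k ≤ n ^ k := h2
    _ = n ^ k * 1 := (mul_one _).symm
    _ ≤ n ^ k * m.choose k := Nat.mul_le_mul_left _ h3

/-- validity of an index -/
def KCV (S : Sys X E N) (st : St X E) (e : E) (i : X × Finset X) : Prop :=
  i.1 ∈ own S st e ∧ i.2 ∈ S.C ∧ i.1 ∈ i.2 ∧ i.2.erase i.1 ⊆ st.R ∪ st.L ∧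
    2 ≤ (i.2.erase i.1 ∩ st.L).card

/-- the live part of an index -/
def kcT (st : St X E) (i : X × Finset X) : Finset X := i.2.erase i.1 ∩ st.L

theorem killC_own (h : Hyp S st K a B Γ m ρ w g θ δ) (e : E) : (own S st e).card ≤ a := by
  by_cases he : e ∈ st.U
  · exact (h.inv.list e he).le
  · have : own S st e = ∅ := by
      rw [Finset.eq_empty_iff_forall_notMem]
      intro x hx
      rw [own, Finset.mem_filter] at hx
      apply he
      rw [← hx.2]
      exact h.inv.L_U x hx.1
    rw [this, Finset.card_empty]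
    exact Nat.zero_le _

/-- indices without a variable of the history -/
theorem killC_first (h : Hyp S st K a B Γ m ρ w g θ δ) (e : E) :
    ∑ i ∈ (univ : Finset (X × Finset X)).filter (fun i => KCV S st e i),
      (θ / a) ^ (kcT st i).card ≤ a * (θ ^ 2 * w) := by
  have ha : (0 : ℝ) < a := by exact_mod_cast h.a0
  have h1 : ∀ i ∈ (univ : Finset (X × Finset X)).filter (fun i => KCV S st e i),
      (θ / a) ^ (kcT st i).card ≤
        θ ^ 2 * (g ^ (i.2.card - 1) / (a : ℝ) ^ (i.2.erase i.1 ∩ st.L).card) := by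
    intro i hi
    rw [Finset.mem_filter] at hi
    have hT : 2 ≤ (kcT st i).card := hi.2.2.2.2.2
    rw [div_pow]
    have e1 : θ ^ (kcT st i).card ≤ θ ^ 2 := pow_le_pow_of_le_one h.θ0.le h.θ1 hT
    have e2 : (1 : ℝ) ≤ g ^ (i.2.card - 1) := one_le_pow₀ h.g1
    have e3 : (0 : ℝ) < (a : ℝ) ^ (kcT st i).card := pow_pos ha _
    show θ ^ (kcT st i).card / (a : ℝ) ^ (kcT st i).card ≤
      θ ^ 2 * (g ^ (i.2.card - 1) / (a : ℝ) ^ (kcT st i).card)
    rw [← mul_div_assoc]
    refine div_le_div_of_nonneg_right ?_ e3.le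
    calc θ ^ (kcT st i).card ≤ θ ^ 2 := e1
      _ = θ ^ 2 * 1 := (mul_one _).symm
      _ ≤ θ ^ 2 * g ^ (i.2.card - 1) := mul_le_mul_of_nonneg_left e2 (by positivity)
  refine (Finset.sum_le_sum h1).trans ?_
  have hg0 : 0 ≤ g := by linarith [h.g1]
  calc ∑ i ∈ (univ : Finset (X × Finset X)).filter (fun i => KCV S st e i),
        θ ^ 2 * (g ^ (i.2.card - 1) / (a : ℝ) ^ (i.2.erase i.1 ∩ st.L).card)
      ≤ ∑ x ∈ own S st e, ∑ H ∈ S.C.filter (fun H => x ∈ H ∧ H.erase x ⊆ st.R ∪ st.L),
        θ ^ 2 * (g ^ (H.card - 1) / (a : ℝ) ^ (H.erase x ∩ st.L).card) := by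
        have e1 : ∀ x ∈ own S st e, ∑ H ∈ S.C.filter (fun H => x ∈ H ∧ H.erase x ⊆ st.R ∪ st.L),
            θ ^ 2 * (g ^ (H.card - 1) / (a : ℝ) ^ (H.erase x ∩ st.L).card) =
            ∑ H ∈ S.C, if (x ∈ H ∧ H.erase x ⊆ st.R ∪ st.L) then
            θ ^ 2 * (g ^ (H.card - 1) / (a : ℝ) ^ (H.erase x ∩ st.L).card) else 0 := by
          intro x _
          rw [Finset.sum_filter]
        rw [Finset.sum_congr rfl e1, ← Finset.sum_product', ← Finset.sum_filter]
        refine Finset.sum_le_sum_of_subset_of_nonneg ?_ ?_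
        · intro i hi
          rw [Finset.mem_filter] at hi
          obtain ⟨_, h2, h3, h4, h5, _⟩ := hi
          rw [Finset.mem_filter, Finset.mem_product]
          exact ⟨⟨h2, h3⟩, h4, h5⟩
        · intro i _ _
          positivity
    _ ≤ ∑ x ∈ own S st e, θ ^ 2 * w := by
        refine Finset.sum_le_sum fun x hx => ?_
        rw [← Finset.mul_sum]
        refine mul_le_mul_of_nonneg_left ?_ (by positivity)
        rw [own, Finset.mem_filter] at hx
        exact h.inv.weight x hx.1
    _ = ((own S st e).card : ℝ) * (θ ^ 2 * w) := by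
        rw [Finset.sum_const, nsmul_eq_mul]
    _ ≤ a * (θ ^ 2 * w) := by
        have h2 : ((own S st e).card : ℝ) ≤ a := by exact_mod_cast killC_own h e
        have h3 := h.w0
        exact mul_le_mul_of_nonneg_right h2 (by positivity)

/-- number of indices with given trace on the history and given number of other live elements -/
theorem killC_fiber (h : Hyp S st K a B Γ m ρ w g θ δ) (e : E) (Y A : Finset X)
    (hA : A.Nonempty) (n : ℕ) :
    ((univ : Finset (X × Finset X)).filter (fun i => KCV S st e i ∧ kcT st i ∩ Y = A ∧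
      (kcT st i \ Y).card = n)).card ≤ K ^ n * Γ := by
  obtain ⟨y, hy⟩ := hA
  have hRL := RL_disj h
  have hcr := h.inv.crude (Fm.f3 y e) (A.erase y) (n + 1)
  rw [Nat.add_sub_cancel] at hcr
  refine le_trans ?_ hcr
  unfold cnt
  -- facts on an index
  have hfact : ∀ i : X × Finset X, (KCV S st e i ∧ kcT st i ∩ Y = A ∧
      (kcT st i \ Y).card = n) → y ∈ i.2 ∧ y ≠ i.1 ∧ y ∈ st.L ∧ i.1 ∈ st.L ∧ S.ed i.1 = e := by
    rintro i ⟨hV, hAe, -⟩
    have h1 : y ∈ kcT st i ∩ Y := by
      rw [hAe]
      exact hy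
    rw [Finset.mem_inter, kcT, Finset.mem_inter, Finset.mem_erase] at h1
    have h2 := hV.1
    rw [own, Finset.mem_filter] at h2
    exact ⟨h1.1.1.2, h1.1.1.1, h1.1.2, h2.1, h2.2⟩
  refine Finset.card_le_card_of_injOn (fun i => i.2.erase y) ?_ ?_
  · intro i hi
    rw [Finset.mem_coe, Finset.mem_filter] at hi
    obtain ⟨hyH, hyx, hyL, hxL, hed⟩ := hfact i hi.2
    obtain ⟨-, ⟨-, hC, hxH, hRLs, -⟩, hAe, hn⟩ := hi
    rw [Finset.mem_coe, Finset.mem_filter]
    refine ⟨?_, ?_, ?_, ?_⟩
    · simp only [Fm.sets]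
      rw [Finset.mem_image]
      refine ⟨i.2, ?_, rfl⟩
      rw [Finset.mem_filter]
      exact ⟨hC, hyH, i.1, hxH, hyx.symm, hed⟩
    · intro z hz
      rw [Finset.mem_erase] at hz
      have hz2 : z ∈ kcT st i ∩ Y := by
        rw [hAe]
        exact hz.2
      rw [Finset.mem_inter, kcT, Finset.mem_inter, Finset.mem_erase] at hz2
      rw [Finset.mem_erase]
      exact ⟨hz.1, hz2.1.1.2⟩
    · intro z hz
      rw [Finset.mem_sdiff, Finset.mem_erase] at hz
      by_cases hzx : z = i.1
      · rw [Finset.mem_union]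
        right
        rw [hzx]
        exact hxL
      · apply hRLs
        rw [Finset.mem_erase]
        exact ⟨hzx, hz.1.2⟩
    · have hset : (i.2.erase y \ A.erase y) ∩ st.L = insert i.1 (kcT st i \ Y) := by
        ext z
        rw [Finset.mem_inter, Finset.mem_sdiff, Finset.mem_erase, Finset.mem_erase,
          Finset.mem_insert, Finset.mem_sdiff]
        constructor
        · rintro ⟨⟨⟨hzy, hzH⟩, hzA⟩, hzL⟩
          by_cases hzx : z = i.1
          · left
            exact hzx
          · right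
            have hzT : z ∈ kcT st i := by
              rw [kcT, Finset.mem_inter, Finset.mem_erase]
              exact ⟨⟨hzx, hzH⟩, hzL⟩
            refine ⟨hzT, fun hzY => hzA ⟨hzy, ?_⟩⟩
            rw [← hAe, Finset.mem_inter]
            exact ⟨hzT, hzY⟩
        · rintro (hzx | ⟨hzT, hzY⟩)
          · rw [hzx]
            refine ⟨⟨⟨hyx.symm, hxH⟩, ?_⟩, hxL⟩
            rintro ⟨-, hxA⟩
            rw [← hAe, Finset.mem_inter, kcT, Finset.mem_inter, Finset.mem_erase] at hxA
            exact hxA.1.1.1 rfl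
          · have hzT' := hzT
            rw [kcT, Finset.mem_inter, Finset.mem_erase] at hzT'
            have hzy : z ≠ y := by
              rintro rfl
              have : z ∈ kcT st i ∩ Y := by
                rw [hAe]
                exact hy
              rw [Finset.mem_inter] at this
              exact hzY this.2
            refine ⟨⟨⟨hzy, hzT'.1.2⟩, ?_⟩, hzT'.2⟩
            rintro ⟨-, hzA⟩
            rw [← hAe, Finset.mem_inter] at hzA
            exact hzY hzA.2
      rw [hset, Finset.card_insert_of_notMem, hn]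
      rw [Finset.mem_sdiff, kcT, Finset.mem_inter, Finset.mem_erase]
      rintro ⟨⟨⟨hh, -⟩, -⟩, -⟩
      exact hh rfl
  · intro i hi j hj hij
    rw [Finset.mem_coe, Finset.mem_filter] at hi hj
    obtain ⟨hyH, hyx, hyL, hxL, hed⟩ := hfact i hi.2
    obtain ⟨hyH', hyx', hyL', hxL', hed'⟩ := hfact j hj.2
    simp only at hij
    have hH : i.2 = j.2 := by
      rw [← Finset.insert_erase hyH, ← Finset.insert_erase hyH', hij]
    have hx : i.1 = j.1 := by
      by_contra hne
      have hxi : i.1 ∈ i.2 := hi.2.1.2.2.1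
      have hxj : j.1 ∈ i.2 := by
        rw [hH]
        exact hj.2.1.2.2.1
      exact h.good.ed_inj i.2 hi.2.1.2.1 i.1 hxi j.1 hxj hne (hed.trans hed'.symm)
    exact Prod.ext hx hH

theorem kC_bdd (h : Hyp S st K a B Γ m ρ w g θ δ) (e : E) (s : ℕ) :
    (kC S st e).Bdd (pr S st a B θ δ) s
      (a * (θ ^ 2 * w) + (s * m + 1) ^ m * (m + 1) * Γ) := by
  intro hh hcard hw hd
  have ha : (0 : ℝ) < a := by exact_mod_cast h.a0
  have hπ0 : 0 ≤ θ / a := div_nonneg h.θ0.le ha.le
  have hKπ : (K : ℝ) * (θ / a) ≤ 1 := by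
    rw [← mul_div_assoc, div_le_one ha]
    exact h.Kθ
  set D₀ : Finset (Fin 3 × X) := hh.biUnion (kC S st e).D with hD₀
  have hC₀ : hh.biUnion (kC S st e).C = ∅ := by
    rw [Finset.eq_empty_iff_forall_notMem]
    intro v hv
    rw [Finset.mem_biUnion] at hv
    obtain ⟨i, -, hi⟩ := hv
    have : v ∈ (∅ : Finset (Fin 3 × X)) := hi
    exact absurd this (Finset.notMem_empty _)
  rw [hC₀]
  set Y : Finset X := univ.filter (fun y => pick y ∈ D₀) with hY
  -- size of Y
  have hVw : ∀ i : X × Finset X, (kC S st e).w i ≠ 0 → KCV S st e i := by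
    intro i hi
    by_contra hn
    apply hi
    show (if i.1 ∈ own S st e ∧ i.2 ∈ S.C ∧ i.1 ∈ i.2 ∧ i.2.erase i.1 ⊆ st.R ∪ st.L ∧
      2 ≤ (i.2.erase i.1 ∩ st.L).card then (1 : ℝ) else 0) = 0
    exact if_neg hn
  have hTm : ∀ i : X × Finset X, KCV S st e i → (kcT st i).card ≤ m := by
    intro i hi
    refine (Finset.card_le_card ?_).trans (h.good.card_le i.2 hi.2.1)
    intro z hz
    rw [kcT, Finset.mem_inter, Finset.mem_erase] at hz
    exact hz.1.2
  have hYc : Y.card ≤ s * m := by
    have h1 : Y ⊆ hh.biUnion (fun i => kcT st i) := by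
      intro y hy
      rw [hY, Finset.mem_filter, hD₀, Finset.mem_biUnion] at hy
      obtain ⟨-, i, hi, hyi⟩ := hy
      have hyi' : pick y ∈ (i.2.erase i.1 ∩ st.L).image pick := hyi
      rw [Finset.mem_image] at hyi'
      obtain ⟨z, hz, hzy⟩ := hyi'
      have hzy' : z = y := (Prod.ext_iff.1 hzy).2
      rw [Finset.mem_biUnion]
      refine ⟨i, hi, ?_⟩
      rw [← hzy']
      exact hz
    refine (Finset.card_le_card h1).trans (Finset.card_biUnion_le.trans ?_)
    refine (Finset.sum_le_card_nsmul hh _ m ?_).trans ?_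
    · intro i hi
      exact hTm i (hVw i (hw i hi))
    · rw [smul_eq_mul]
      exact Nat.mul_le_mul_right m hcard
  -- the conditional probability
  have hcnd : ∀ i : X × Finset X, (kC S st e).w i *
      cnd (pr S st a B θ δ) D₀ ∅ ((kC S st e).D i) ((kC S st e).C i) =
      if KCV S st e i then (θ / a) ^ (kcT st i \ Y).card else 0 := by
    intro i
    by_cases hV : KCV S st e i
    · rw [if_pos hV]
      have e1 : (kC S st e).w i = 1 := by
        show (if i.1 ∈ own S st e ∧ i.2 ∈ S.C ∧ i.1 ∈ i.2 ∧ i.2.erase i.1 ⊆ st.R ∪ st.L ∧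
          2 ≤ (i.2.erase i.1 ∩ st.L).card then (1 : ℝ) else 0) = 1
        exact if_pos hV
      rw [e1, one_mul]
      show cnd (pr S st a B θ δ) D₀ ∅ ((kcT st i).image pick) ∅ = _
      unfold cnd
      have e0 : Disjoint (D₀ ∪ (kcT st i).image pick) ((∅ : Finset (Fin 3 × X)) ∪ ∅) := by
        rw [Finset.empty_union]
        exact Finset.disjoint_empty_right _
      rw [if_pos e0, Finset.sdiff_empty, Finset.prod_empty, mul_one]
      have e2 : (kcT st i).image pick \ D₀ = (kcT st i \ Y).image pick := by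
        ext v
        rw [Finset.mem_sdiff, Finset.mem_image, Finset.mem_image]
        constructor
        · rintro ⟨⟨z, hz, rfl⟩, hv⟩
          refine ⟨z, ?_, rfl⟩
          rw [Finset.mem_sdiff]
          refine ⟨hz, fun hzY => hv ?_⟩
          rw [hY, Finset.mem_filter] at hzY
          exact hzY.2
        · rintro ⟨z, hz, rfl⟩
          rw [Finset.mem_sdiff] at hz
          refine ⟨⟨z, hz.1, rfl⟩, fun hv => hz.2 ?_⟩
          rw [hY, Finset.mem_filter]
          exact ⟨Finset.mem_univ _, hv⟩
      rw [e2, Finset.prod_image]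
      · rw [Finset.prod_congr rfl (g := fun _ => θ / (a : ℝ)), Finset.prod_const]
        intro z _
        simp [pr, pick]
      · intro z _ z' _ hzz
        exact (Prod.ext_iff.1 hzz).2
    · rw [if_neg hV]
      have e1 : (kC S st e).w i = 0 := by
        by_contra hn
        exact hV (hVw i hn)
      rw [e1, zero_mul]
  have hsum : ∑ i, (kC S st e).w i *
      cnd (pr S st a B θ δ) D₀ ∅ ((kC S st e).D i) ((kC S st e).C i) =
      ∑ i ∈ (univ : Finset (X × Finset X)).filter (fun i => KCV S st e i),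
        (θ / a) ^ (kcT st i \ Y).card := by
    rw [Finset.sum_filter]
    exact Finset.sum_congr rfl (fun i _ => hcnd i)
  rw [hsum, ← Finset.sum_filter_add_sum_filter_not _ (fun i => kcT st i ∩ Y = ∅)]
  refine add_le_add ?_ ?_
  · refine le_trans ?_ (killC_first h e)
    rw [Finset.filter_filter]
    refine (Finset.sum_le_sum (g := fun i => (θ / a) ^ (kcT st i).card) ?_).trans ?_
    · intro i hi
      rw [Finset.mem_filter] at hi
      have : kcT st i \ Y = kcT st i := by
        rw [Finset.sdiff_eq_self_iff_disjoint, Finset.disjoint_iff_inter_eq_empty]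
        exact hi.2.2
      rw [this]
    · refine Finset.sum_le_sum_of_subset_of_nonneg ?_ ?_
      · intro i hi
        rw [Finset.mem_filter] at hi ⊢
        exact ⟨hi.1, hi.2.1⟩
      · intro i _ _
        exact pow_nonneg hπ0 _
  · rw [Finset.filter_filter]
    set S2 : Finset (X × Finset X) := (univ : Finset (X × Finset X)).filter
      (fun i => KCV S st e i ∧ ¬ kcT st i ∩ Y = ∅) with hS2
    have hmaps : ∀ i ∈ S2, kcT st i ∩ Y ∈
        (Y.powerset.filter (fun A => A.card ≤ m)).filter (fun A => A.Nonempty) := by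
      intro i hi
      rw [hS2, Finset.mem_filter] at hi
      rw [Finset.mem_filter, Finset.mem_filter, Finset.mem_powerset]
      refine ⟨⟨Finset.inter_subset_right, ?_⟩, Finset.nonempty_iff_ne_empty.2 hi.2.2⟩
      exact (Finset.card_le_card Finset.inter_subset_left).trans (hTm i hi.2.1)
    rw [← Finset.sum_fiberwise_of_maps_to hmaps]
    have hinner : ∀ A ∈ (Y.powerset.filter (fun A => A.card ≤ m)).filter (fun A => A.Nonempty),
        ∑ i ∈ S2.filter (fun i => kcT st i ∩ Y = A), (θ / a) ^ (kcT st i \ Y).card ≤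
          (m + 1) * Γ := by
      intro A hA
      rw [Finset.mem_filter] at hA
      have hmaps2 : ∀ i ∈ S2.filter (fun i => kcT st i ∩ Y = A),
          (kcT st i \ Y).card ∈ Finset.range (m + 1) := by
        intro i hi
        rw [Finset.mem_filter, hS2, Finset.mem_filter] at hi
        rw [Finset.mem_range]
        have h1 := hTm i hi.1.2.1
        have h2 := Finset.card_le_card (Finset.sdiff_subset (s := kcT st i) (t := Y))
        omega
      rw [← Finset.sum_fiberwise_of_maps_to hmaps2]
      have h3 : ∀ n ∈ Finset.range (m + 1),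
          ∑ i ∈ (S2.filter (fun i => kcT st i ∩ Y = A)).filter
            (fun i => (kcT st i \ Y).card = n), (θ / a) ^ (kcT st i \ Y).card ≤ (Γ : ℝ) := by
        intro n _
        have h4 : ∑ i ∈ (S2.filter (fun i => kcT st i ∩ Y = A)).filter
            (fun i => (kcT st i \ Y).card = n), (θ / a) ^ (kcT st i \ Y).card =
            (((S2.filter (fun i => kcT st i ∩ Y = A)).filter
            (fun i => (kcT st i \ Y).card = n)).card : ℝ) * (θ / a) ^ n := by
          rw [Finset.sum_congr rfl (g := fun _ => (θ / (a : ℝ)) ^ n), Finset.sum_const,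
            nsmul_eq_mul]
          intro i hi
          rw [Finset.mem_filter] at hi
          rw [hi.2]
        rw [h4]
        have h5 : ((S2.filter (fun i => kcT st i ∩ Y = A)).filter
            (fun i => (kcT st i \ Y).card = n)).card ≤ K ^ n * Γ := by
          refine le_trans (Finset.card_le_card ?_) (killC_fiber h e Y A hA.2 n)
          intro i hi
          rw [Finset.mem_filter, Finset.mem_filter, hS2, Finset.mem_filter] at hi
          rw [Finset.mem_filter]
          exact ⟨Finset.mem_univ _, hi.1.1.2.1, hi.1.2, hi.2⟩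
        have h6 : (((S2.filter (fun i => kcT st i ∩ Y = A)).filter
            (fun i => (kcT st i \ Y).card = n)).card : ℝ) ≤ (K : ℝ) ^ n * Γ := by
          exact_mod_cast h5
        calc _ ≤ ((K : ℝ) ^ n * Γ) * (θ / a) ^ n :=
              mul_le_mul_of_nonneg_right h6 (pow_nonneg hπ0 n)
          _ = (K * (θ / a)) ^ n * Γ := by
              rw [mul_pow]
              ring
          _ ≤ 1 * Γ := by
              refine mul_le_mul_of_nonneg_right ?_ (Nat.cast_nonneg _)
              exact pow_le_one₀ (mul_nonneg (Nat.cast_nonneg _) hπ0) hKπ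
          _ = Γ := one_mul _
      refine (Finset.sum_le_sum h3).trans ?_
      rw [Finset.sum_const, Finset.card_range, nsmul_eq_mul]
      push_cast
      exact le_rfl
    refine (Finset.sum_le_sum hinner).trans ?_
    rw [Finset.sum_const, nsmul_eq_mul]
    have h7 : ((Y.powerset.filter (fun A => A.card ≤ m)).filter (fun A => A.Nonempty)).card ≤
        (s * m + 1) ^ m :=
      (Finset.card_le_card (Finset.filter_subset _ _)).trans (killC_subsets Y (s * m) m hYc)
    have h8 : ((((Y.powerset.filter (fun A => A.card ≤ m)).filter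
        (fun A => A.Nonempty)).card : ℕ) : ℝ) ≤ ((s : ℝ) * m + 1) ^ m := by
      exact_mod_cast h7
    calc _ ≤ ((s : ℝ) * m + 1) ^ m * (((m : ℝ) + 1) * Γ) :=
          mul_le_mul_of_nonneg_right h8 (by positivity)
      _ = _ := by ring

end Pool.Agent.H77.AC
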