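import Pool.Agent.H77.AC.Med9

/-!
# AC-MED8: conditional bound for the statistic `mS` (picks closing a medium path, E8)

Index: `(n, b, c, v)`, `l₀ ≤ n ≤ r₀`, `x = (s(v 0, v n), c) ∈ L`, `x.1 ∈ Es`, steps in `R ∪ L`. Since `l₀ ≥ 2` and
`v` is injective, `x` is not one of the steps, so by `cnd_path` (`T = insert x i.set`)
`cnd ≤ Wh x * ∏ Wh (pstep ..)`. History: `hist_mS`, `M = s (r₀+1)`. Let `p = v 0`, `q = v n`; `p ≠ q`. Write
`P₂(e)` for the (at most two) ordered pairs `(p, q)` with `s(p,q) = e`.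

(i) All steps in `R`. For given `(p, q, b, c)` at most one index (`joined_unique`), product of the step weights
`≤ 1`, and `(b, c) ∈ Z2 R l₀ r₀ p q`; also `b ∈ Z1 R r₀ p q c`. If `pick x ∉ D₀`: `Wh x ≤ θ/a`, sum at most
`(θ/a) ∑_{e ∈ Es} ∑_{P₂(e)} |Z2| ≤ 2 |Es| (θ/a) ζ K`. If `pick x ∈ D₀`: at most `M` such `x`, two ordered pairs, `|Z1| ≤ Γ`:
`≤ 2 M Γ`.

(ii) Some step in `L`: for given `(p, q, b, c, n)` the sum over `v` is at most `PS n b c p q`.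
  - `pick x ∈ D₀`: at most `2 M` triples `(p, q, c)`, each `≤ mu9` by `core9`.
  - `pick x ∉ D₀`, `c ∈ Col D₀`: `(θ/a) * 2 |Es| * M * mu9 ≤ 2 M mu9` (`|Es| ≤ K`, `K θ ≤ a`).
  - `pick x ∉ D₀`, `c ∉ Col D₀`, `b ∈ Col D₀`: for fixed `(p, q)` and `b` the sum over `c`, `n` of
    `PS n b c p q` (`n ≥ 2`) is at most `mu9` (`core9` with the colour `b` in the role of `c`):
    again `≤ 2 M mu9`.
  - `b, c ∉ Col D₀`: `path_free`; `x` is one of at most `a` live pairs on `e`, `b` one of `K` colours: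
    `2 |Es| a (θ/a) K (θ/a) ∑_n n (1-δ)^(n-1)`.
Total:
`2 |Es| (θ/a) ζ K + 2 |Es| θ (K θ/a) σ + 2 M Γ + 6 M mu9`, `σ = ∑_{n=l₀}^{r₀} n (1-δ)^(n-1)`.
(Every `e ∈ Es` with an index is active by `L_U`, so `|own e| = a`.)
-/

set_option autoImplicit false

open Finset
open scoped Classical

namespace Pool.Agent.H77.AC

variable {V : Type} [Fintype V] [DecidableEq V] {K : ℕ}
variable {G : SimpleGraph V} {n₀ : ℕ} {st : St (PX V K) (Sym2 V)} {a B Γ m : ℕ}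
  {ρ w g θ δ : ℝ}

/-! ### auxiliary facts -/

/-- sum over the coloured paths -/
noncomputable def m8RP (st : St (PX V K) (Sym2 V)) (D₀ C₀ : Finset (Fin 3 × PX V K)) (π δ : ℝ)
    (n : ℕ) (b c : Fin K) (p q : V) : ℝ :=
  ∑ v ∈ univ.filter (fun v : Fin (n + 1) → V => Function.Injective v ∧ v 0 = p ∧
    v (Fin.last n) = q ∧ ∀ i, pstep v b c i ∈ st.R), ∏ i, Wh st D₀ C₀ π δ (pstep v b c i)

theorem m8RP_nonneg (h : Hyp (gS G K n₀) st K a B Γ m ρ w g θ δ)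
    (D₀ C₀ : Finset (Fin 3 × PX V K)) (n : ℕ) (b c : Fin K) (p q : V) :
    0 ≤ m8RP st D₀ C₀ (θ / a) δ n b c p q := by
  unfold m8RP
  exact sum_nonneg fun v _ => prod_nonneg fun i _ => Wh_nonneg h D₀ C₀ _

theorem m8_rp_sum (h : Hyp (gS G K n₀) st K a B Γ m ρ w g θ δ)
    (D₀ C₀ : Finset (Fin 3 × PX V K)) (l₀ r₀ : ℕ) (b c : Fin K) (hbc : b ≠ c) (p q : V) :
    ∑ n ∈ Icc l₀ r₀, m8RP st D₀ C₀ (θ / a) δ n b c p q ≤
      if (b, c) ∈ Z2 st.R l₀ r₀ p q then 1 else 0 := by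
  obtain ⟨F, hF⟩ : ∃ F : (n : ℕ) → Finset (Fin (n + 1) → V), ∀ n, F n =
      univ.filter (fun v : Fin (n + 1) → V => Function.Injective v ∧ v 0 = p ∧
      v (Fin.last n) = q ∧ ∀ i, pstep v b c i ∈ st.R) := ⟨_, fun _ => rfl⟩
  have h1 : ∀ n, m8RP st D₀ C₀ (θ / a) δ n b c p q ≤ (F n).card := by
    intro n
    unfold m8RP
    rw [← hF]
    refine (sum_le_sum (g := fun _ => (1 : ℝ)) ?_).trans (le_of_eq ?_)
    · intro v _
      exact prod_le_one (fun i _ => Wh_nonneg h D₀ C₀ _) (fun i _ => pathsum_Wh_le h D₀ C₀ _)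
    · rw [sum_const, nsmul_eq_mul, mul_one]
  refine (sum_le_sum fun n _ => h1 n).trans ?_
  have h2 : ∑ n ∈ Icc l₀ r₀, ((F n).card : ℝ) = (((Icc l₀ r₀).sigma F).card : ℝ) := by
    rw [card_sigma]
    push_cast
    rfl
  rw [h2]
  have h3 : ((Icc l₀ r₀).sigma F).card ≤ 1 := by
    rw [card_le_one]
    rintro ⟨n, v⟩ hv ⟨n', v'⟩ hv'
    rw [mem_sigma, hF, mem_filter] at hv hv'
    obtain ⟨-, -, g1, g2, g3, g4⟩ := hv
    obtain ⟨-, -, k1, k2, k3, k4⟩ := hv'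
    exact joined_unique h n n' b c v v' g1 k1 (g2.trans k2.symm) (g3.trans k3.symm) g4 k4
  by_cases hz : (b, c) ∈ Z2 st.R l₀ r₀ p q
  · rw [if_pos hz]
    exact_mod_cast h3
  · rw [if_neg hz]
    have h4 : ((Icc l₀ r₀).sigma F) = ∅ := by
      rw [eq_empty_iff_forall_notMem]
      rintro ⟨n, v⟩ hv
      rw [mem_sigma, hF, mem_filter, mem_Icc] at hv
      apply hz
      unfold Z2
      rw [mem_filter]
      exact ⟨mem_univ _, hbc, n, hv.1.1, hv.1.2, v, hv.2.2.1, hv.2.2.2.1, hv.2.2.2.2.1,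
        hv.2.2.2.2.2⟩
    rw [h4]
    simp

theorem m8_z2z1 (R : Finset (PX V K)) (l₀ r₀ : ℕ) (hl : 1 ≤ l₀) (p q : V) (b c : Fin K)
    (hz : (b, c) ∈ Z2 R l₀ r₀ p q) : b ∈ Z1 R r₀ p q c := by
  unfold Z2 at hz
  rw [mem_filter] at hz
  obtain ⟨-, h1, n, h2, h3, h4⟩ := hz
  unfold Z1
  rw [mem_filter]
  exact ⟨mem_univ _, h1, n, by omega, h3, Or.inl h4⟩

theorem m8_pairs (e : Sym2 V) :
    (univ.filter (fun z : V × V => s(z.1, z.2) = e)).card ≤ 2 := by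
  induction e using Sym2.ind with
  | _ x y =>
    refine (card_le_card (t := {(x, y), (y, x)}) ?_).trans card_le_two
    intro z hz
    rw [mem_filter] at hz
    have h1 := Sym2.eq_iff.1 hz.2
    rw [mem_insert, mem_singleton]
    rcases h1 with ⟨h2, h3⟩ | ⟨h2, h3⟩
    · left; exact Prod.ext h2 h3
    · right; exact Prod.ext h2 h3

theorem m8_P2 (Es : Finset (Sym2 V)) :
    (univ.filter (fun z : V × V => z.1 ≠ z.2 ∧ s(z.1, z.2) ∈ Es)).card ≤ 2 * Es.card := by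
  have h1 : univ.filter (fun z : V × V => z.1 ≠ z.2 ∧ s(z.1, z.2) ∈ Es) ⊆
      Es.biUnion (fun e => univ.filter (fun z : V × V => s(z.1, z.2) = e)) := by
    intro z hz
    rw [mem_filter] at hz
    rw [mem_biUnion]
    exact ⟨_, hz.2.2, mem_filter.2 ⟨mem_univ _, rfl⟩⟩
  refine (card_le_card h1).trans (card_biUnion_le.trans ?_)
  refine (sum_le_sum fun e _ => m8_pairs e).trans ?_
  rw [sum_const, smul_eq_mul, mul_comm]

/-- triples (ordered pair, colour) whose pick is in the history -/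
theorem m8_hist {D₀ : Finset (Fin 3 × PX V K)} {M : ℕ} (hD : D₀.card ≤ M)
    (P : Finset (V × V)) :
    ∑ z ∈ P, ∑ c : Fin K, (if pick ((s(z.1, z.2), c) : PX V K) ∈ D₀ then (1 : ℝ) else 0) ≤
      2 * M := by
  have h1 : ∀ z : V × V, ∀ c : Fin K,
      (if pick ((s(z.1, z.2), c) : PX V K) ∈ D₀ then (1 : ℝ) else 0) ≤
      ∑ i ∈ D₀, if s(z.1, z.2) = i.2.1 then (if c = i.2.2 then 1 else 0) else 0 := by
    intro z c
    have hnn : ∀ i ∈ D₀, (0 : ℝ) ≤ if s(z.1, z.2) = i.2.1 then (if c = i.2.2 then 1 else 0)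
        else 0 := by
      intro i _
      split_ifs <;> norm_num
    by_cases hz : pick ((s(z.1, z.2), c) : PX V K) ∈ D₀
    · rw [if_pos hz]
      refine le_trans (le_of_eq ?_) (single_le_sum hnn hz)
      rw [if_pos (by rfl), if_pos (by rfl)]
    · rw [if_neg hz]
      exact sum_nonneg hnn
  calc ∑ z ∈ P, ∑ c : Fin K, (if pick ((s(z.1, z.2), c) : PX V K) ∈ D₀ then (1 : ℝ) else 0)
      ≤ ∑ z ∈ P, ∑ c : Fin K, ∑ i ∈ D₀,
        (if s(z.1, z.2) = i.2.1 then (if c = i.2.2 then (1 : ℝ) else 0) else 0) :=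
        sum_le_sum fun z _ => sum_le_sum fun c _ => h1 z c
    _ ≤ ∑ z : V × V, ∑ c : Fin K, ∑ i ∈ D₀,
        (if s(z.1, z.2) = i.2.1 then (if c = i.2.2 then (1 : ℝ) else 0) else 0) := by
        refine sum_le_sum_of_subset_of_nonneg (subset_univ _) ?_
        intro z _ _
        refine sum_nonneg fun c _ => sum_nonneg fun i _ => ?_
        split_ifs <;> norm_num
    _ = ∑ i ∈ D₀, ∑ z : V × V, ∑ c : Fin K,
        (if s(z.1, z.2) = i.2.1 then (if c = i.2.2 then (1 : ℝ) else 0) else 0) := by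
        rw [sum_congr rfl (fun z _ => sum_comm)]
        rw [sum_comm]
    _ ≤ ∑ i ∈ D₀, (2 : ℝ) := by
        refine sum_le_sum fun i _ => ?_
        have h3 : ∀ z : V × V, ∑ c : Fin K,
            (if s(z.1, z.2) = i.2.1 then (if c = i.2.2 then (1 : ℝ) else 0) else 0) =
            if s(z.1, z.2) = i.2.1 then 1 else 0 := by
          intro z
          split_ifs
          · rw [sum_ite_eq' univ i.2.2, if_pos (mem_univ _)]
          · simp
        rw [sum_congr rfl (fun z _ => h3 z), ← sum_filter, sum_const, nsmul_eq_mul, mul_one]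
        exact_mod_cast m8_pairs i.2.1
    _ ≤ 2 * M := by
        rw [sum_const, nsmul_eq_mul]
        have : ((D₀.card : ℕ) : ℝ) ≤ M := by exact_mod_cast hD
        linarith

/-- the summand of a pair, two colours -/
noncomputable def m8T (st : St (PX V K) (Sym2 V)) (D₀ C₀ : Finset (Fin 3 × PX V K)) (π δ : ℝ)
    (l₀ r₀ : ℕ) (z : V × V) (c b : Fin K) : ℝ :=
  if ((s(z.1, z.2), c) : PX V K) ∈ st.L ∧ b ≠ c then
    Wh st D₀ C₀ π δ (s(z.1, z.2), c) * ∑ n ∈ Icc l₀ r₀,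
      (m8RP st D₀ C₀ π δ n b c z.1 z.2 + PS st D₀ C₀ π δ n b c z.1 z.2) else 0

theorem m8_main (h : Hyp (gS G K n₀) st K a B Γ m ρ w g θ δ) (r₀ l₀ : ℕ) (hl : 2 ≤ l₀)
    (Es : Finset (Sym2 V)) (D₀ C₀ : Finset (Fin 3 × PX V K)) :
    ∑ i, (mS (gS G K n₀) st l₀ r₀ Es).w i *
      cnd (pr (gS G K n₀) st a B θ δ) D₀ C₀ ((mS (gS G K n₀) st l₀ r₀ Es).D i)
        ((mS (gS G K n₀) st l₀ r₀ Es).C i) ≤
    ∑ z ∈ univ.filter (fun z : V × V => z.1 ≠ z.2 ∧ s(z.1, z.2) ∈ Es),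
      ∑ c : Fin K, ∑ b : Fin K, m8T st D₀ C₀ (θ / a) δ l₀ r₀ z c b := by
  obtain ⟨P, hP⟩ : ∃ P : Finset (V × V), P =
      univ.filter (fun z : V × V => z.1 ≠ z.2 ∧ s(z.1, z.2) ∈ Es) := ⟨_, rfl⟩
  rw [← hP]
  have h1 : ∑ i, (mS (gS G K n₀) st l₀ r₀ Es).w i *
      cnd (pr (gS G K n₀) st a B θ δ) D₀ C₀ ((mS (gS G K n₀) st l₀ r₀ Es).D i)
        ((mS (gS G K n₀) st l₀ r₀ Es).C i) =
      ∑ i : PI V K r₀, (if l₀ ≤ (i.1 : ℕ) ∧ Function.Injective i.2.2.2 ∧ i.2.1 ≠ i.2.2.1 ∧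
        i.set ⊆ st.R ∪ st.L ∧ (s(i.2.2.2 0, i.2.2.2 (Fin.last i.1)), i.2.2.1) ∈ st.L ∧
        s(i.2.2.2 0, i.2.2.2 (Fin.last i.1)) ∈ Es then (1 : ℝ) else 0) *
      cnd (pr (gS G K n₀) st a B θ δ) D₀ C₀
        (dV st (insert (s(i.2.2.2 0, i.2.2.2 (Fin.last i.1)), i.2.2.1) i.set))
        (cV (gS G K n₀) st (insert (s(i.2.2.2 0, i.2.2.2 (Fin.last i.1)), i.2.2.1) i.set)) := rfl
  rw [h1, Fintype.sum_sigma]
  -- the summands for fixed `n`, `b`, `c`
  obtain ⟨Q, hQ⟩ : ∃ Q : ℕ → Fin K → Fin K → ℝ, ∀ n b c, Q n b c =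
      ∑ z ∈ P, if l₀ ≤ n ∧ ((s(z.1, z.2), c) : PX V K) ∈ st.L ∧ b ≠ c then
        Wh st D₀ C₀ (θ / a) δ (s(z.1, z.2), c) *
          (m8RP st D₀ C₀ (θ / a) δ n b c z.1 z.2 + PS st D₀ C₀ (θ / a) δ n b c z.1 z.2)
        else 0 := ⟨_, fun _ _ _ => rfl⟩
  have h2 : ∀ n : Fin (r₀ + 1), ∀ b c : Fin K, ∑ v : Fin (n + 1) → V,
      (if l₀ ≤ (n : ℕ) ∧ Function.Injective v ∧ b ≠ c ∧
        (univ.image (pstep v b c)) ⊆ st.R ∪ st.L ∧ (s(v 0, v (Fin.last n)), c) ∈ st.L ∧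
        s(v 0, v (Fin.last n)) ∈ Es then (1 : ℝ) else 0) *
      cnd (pr (gS G K n₀) st a B θ δ) D₀ C₀
        (dV st (insert (s(v 0, v (Fin.last n)), c) (univ.image (pstep v b c))))
        (cV (gS G K n₀) st (insert (s(v 0, v (Fin.last n)), c) (univ.image (pstep v b c)))) ≤
      Q n b c := by
    intro n b c
    have hW : ∀ x, 0 ≤ Wh st D₀ C₀ (θ / a) δ x := fun x => Wh_nonneg h D₀ C₀ x
    have h3 : ∀ v : Fin (n + 1) → V,
      (if l₀ ≤ (n : ℕ) ∧ Function.Injective v ∧ b ≠ c ∧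
        (univ.image (pstep v b c)) ⊆ st.R ∪ st.L ∧ (s(v 0, v (Fin.last n)), c) ∈ st.L ∧
        s(v 0, v (Fin.last n)) ∈ Es then (1 : ℝ) else 0) *
      cnd (pr (gS G K n₀) st a B θ δ) D₀ C₀
        (dV st (insert (s(v 0, v (Fin.last n)), c) (univ.image (pstep v b c))))
        (cV (gS G K n₀) st (insert (s(v 0, v (Fin.last n)), c) (univ.image (pstep v b c)))) ≤
      ∑ z ∈ P, if v 0 = z.1 ∧ v (Fin.last n) = z.2 then
        (if l₀ ≤ (n : ℕ) ∧ Function.Injective v ∧ b ≠ c ∧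
          (∀ i, pstep v b c i ∈ st.R ∪ st.L) ∧ ((s(z.1, z.2), c) : PX V K) ∈ st.L then
          Wh st D₀ C₀ (θ / a) δ (s(z.1, z.2), c) *
            ∏ i, Wh st D₀ C₀ (θ / a) δ (pstep v b c i) else 0) else 0 := by
      intro v
      have hnn : ∀ z ∈ P, (0 : ℝ) ≤ if v 0 = z.1 ∧ v (Fin.last n) = z.2 then
        (if l₀ ≤ (n : ℕ) ∧ Function.Injective v ∧ b ≠ c ∧
          (∀ i, pstep v b c i ∈ st.R ∪ st.L) ∧ ((s(z.1, z.2), c) : PX V K) ∈ st.L then
          Wh st D₀ C₀ (θ / a) δ (s(z.1, z.2), c) *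
            ∏ i, Wh st D₀ C₀ (θ / a) δ (pstep v b c i) else 0) else 0 := by
        intro z _
        split_ifs
        · exact mul_nonneg (hW _) (prod_nonneg fun i _ => hW _)
        · exact le_rfl
        · exact le_rfl
      by_cases hc : l₀ ≤ (n : ℕ) ∧ Function.Injective v ∧ b ≠ c ∧
        (univ.image (pstep v b c)) ⊆ st.R ∪ st.L ∧ (s(v 0, v (Fin.last n)), c) ∈ st.L ∧
        s(v 0, v (Fin.last n)) ∈ Es
      · rw [if_pos hc, one_mul]
        obtain ⟨c1, c2, c3, c4, c5, c6⟩ := hc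
        have hne : v 0 ≠ v (Fin.last n) := by
          intro he
          have h5 := congrArg Fin.val (c2 he)
          rw [Fin.val_zero, Fin.val_last] at h5
          omega
        have hmem : (v 0, v (Fin.last n)) ∈ P := by
          rw [hP, mem_filter]
          exact ⟨mem_univ _, hne, c6⟩
        have hsteps : ∀ i, pstep v b c i ∈ st.R ∪ st.L :=
          fun i => c4 (mem_image_of_mem _ (mem_univ i))
        refine le_trans ?_ (single_le_sum hnn hmem)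
        rw [if_pos ⟨rfl, rfl⟩, if_pos ⟨c1, c2, c3, hsteps, c5⟩]
        have hsub : insert (s(v 0, v (Fin.last n)), c) (univ.image (pstep v b c)) ⊆
            st.R ∪ st.L := by
          intro x hx
          rw [mem_insert] at hx
          rcases hx with rfl | hx
          · exact mem_union_right _ c5
          · exact c4 hx
        refine (cnd_path h D₀ C₀ _ hsub).trans (le_of_eq ?_)
        have hnot : (s(v 0, v (Fin.last n)), c) ∉ univ.image (pstep v b c) := by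
          intro hx
          rw [mem_image] at hx
          obtain ⟨i, -, hi⟩ := hx
          have h6 := congrArg Prod.fst hi
          unfold pstep at h6
          simp only [Sym2.eq_iff] at h6
          have hi2 := i.2
          rcases h6 with ⟨h7, h8⟩ | ⟨h7, h8⟩
          · have e1 := congrArg Fin.val (c2 h7)
            have e2 := congrArg Fin.val (c2 h8)
            simp only [Fin.val_castSucc, Fin.val_succ, Fin.val_zero, Fin.val_last] at e1 e2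
            omega
          · have e1 := congrArg Fin.val (c2 h7)
            have e2 := congrArg Fin.val (c2 h8)
            simp only [Fin.val_castSucc, Fin.val_succ, Fin.val_zero, Fin.val_last] at e1 e2
            omega
        rw [prod_insert hnot, prod_image]
        intro i _ j _ hij
        exact pstep_inj v c2 b c (congrArg Prod.fst hij)
      · rw [if_neg hc, zero_mul]
        exact sum_nonneg hnn
    refine (sum_le_sum fun v _ => h3 v).trans ?_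
    rw [sum_comm, hQ]
    refine sum_le_sum fun z hz => ?_
    by_cases hc : l₀ ≤ (n : ℕ) ∧ ((s(z.1, z.2), c) : PX V K) ∈ st.L ∧ b ≠ c
    · rw [if_pos hc]
      unfold m8RP PS PV
      rw [mul_add, mul_sum, mul_sum, sum_filter, sum_filter, ← sum_add_distrib]
      refine sum_le_sum fun v _ => ?_
      have hprod : 0 ≤ Wh st D₀ C₀ (θ / a) δ (s(z.1, z.2), c) *
            ∏ i, Wh st D₀ C₀ (θ / a) δ (pstep v b c i) :=
        mul_nonneg (hW _) (prod_nonneg fun i _ => hW _)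
      by_cases hv : v 0 = z.1 ∧ v (Fin.last n) = z.2
      · rw [if_pos hv]
        by_cases hv2 : l₀ ≤ (n : ℕ) ∧ Function.Injective v ∧ b ≠ c ∧
          (∀ i, pstep v b c i ∈ st.R ∪ st.L) ∧ ((s(z.1, z.2), c) : PX V K) ∈ st.L
        · rw [if_pos hv2]
          by_cases hR : ∀ i, pstep v b c i ∈ st.R
          · rw [if_pos ⟨hv2.2.1, hv.1, hv.2, hR⟩]
            split_ifs <;> linarith
          · have hL : ∃ i, pstep v b c i ∈ st.L := by
              push Not at hR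
              obtain ⟨i, hi⟩ := hR
              refine ⟨i, ?_⟩
              rcases mem_union.1 (hv2.2.2.2.1 i) with h9 | h9
              · exact absurd h9 hi
              · exact h9
            rw [if_pos (⟨hv2.2.1, hv.1, hv.2, hv2.2.2.2.1, hL⟩ : Function.Injective v ∧ v 0 = z.1 ∧
              v (Fin.last n) = z.2 ∧ (∀ i, pstep v b c i ∈ st.R ∪ st.L) ∧
              ∃ i, pstep v b c i ∈ st.L)]
            split_ifs <;> linarith
        · rw [if_neg hv2]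
          split_ifs <;> linarith
      · rw [if_neg hv]
        split_ifs <;> linarith
    · rw [if_neg hc]
      refine sum_nonpos fun v _ => ?_
      split_ifs with k1 k2
      · exact absurd ⟨k2.1, k2.2.2.2.2, k2.2.2.1⟩ hc
      · exact le_rfl
      · exact le_rfl
  have h4 : ∑ n : Fin (r₀ + 1), ∑ b : Fin K, ∑ c : Fin K, Q n b c =
      ∑ z ∈ P, ∑ c : Fin K, ∑ b : Fin K, m8T st D₀ C₀ (θ / a) δ l₀ r₀ z c b := by
    rw [Fin.sum_univ_eq_sum_range (fun n => ∑ b : Fin K, ∑ c : Fin K, Q n b c) (r₀ + 1)]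
    have hsub : Icc l₀ r₀ ⊆ range (r₀ + 1) := by
      intro n hn
      rw [mem_Icc] at hn
      rw [mem_range]
      omega
    rw [← sum_subset hsub]
    · have h5 : ∀ n ∈ Icc l₀ r₀, ∀ b c, Q n b c =
          ∑ z ∈ P, if ((s(z.1, z.2), c) : PX V K) ∈ st.L ∧ b ≠ c then
        Wh st D₀ C₀ (θ / a) δ (s(z.1, z.2), c) *
          (m8RP st D₀ C₀ (θ / a) δ n b c z.1 z.2 + PS st D₀ C₀ (θ / a) δ n b c z.1 z.2)
        else 0 := by
        intro n hn b c
        rw [hQ]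
        rw [mem_Icc] at hn
        refine sum_congr rfl fun z _ => ?_
        by_cases k1 : ((s(z.1, z.2), c) : PX V K) ∈ st.L ∧ b ≠ c
        · rw [if_pos k1, if_pos ⟨hn.1, k1⟩]
        · rw [if_neg k1, if_neg (fun k2 => k1 k2.2)]
      rw [sum_congr rfl (fun n hn => sum_congr rfl (fun b _ => sum_congr rfl
        (fun c _ => h5 n hn b c)))]
      -- exchange the sums
      rw [sum_congr rfl (fun n _ => sum_congr rfl (fun b _ => sum_comm))]
      rw [sum_congr rfl (fun n _ => sum_comm)]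
      rw [sum_comm]
      refine sum_congr rfl fun z _ => ?_
      rw [sum_congr rfl (fun n _ => sum_comm)]
      rw [sum_comm]
      refine sum_congr rfl fun c _ => ?_
      rw [sum_comm]
      refine sum_congr rfl fun b _ => ?_
      unfold m8T
      split_ifs
      · rw [mul_sum]
      · simp
    · intro n hn hn'
      rw [mem_range] at hn
      rw [mem_Icc, not_and] at hn'
      refine sum_eq_zero fun b _ => sum_eq_zero fun c _ => ?_
      rw [hQ]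
      refine sum_eq_zero fun z _ => ?_
      rw [if_neg]
      rintro ⟨k1, -⟩
      exact hn' k1 (by omega)
  rw [← h4]
  refine sum_le_sum fun n _ => ?_
  rw [Fintype.sum_prod_type]
  refine sum_le_sum fun b _ => ?_
  rw [Fintype.sum_prod_type]
  refine sum_le_sum fun c _ => ?_
  exact h2 n b c

theorem m8_T (h : Hyp (gS G K n₀) st K a B Γ m ρ w g θ δ) (hρ : ρ * θ ≤ 1 - δ) {M : ℕ}
    {D₀ C₀ : Finset (Fin 3 × PX V K)} (hH : Hist (gS G K n₀) st D₀ C₀ M) (r₀ l₀ : ℕ)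
    (hl : 2 ≤ l₀) (z : V × V) (c b : Fin K) :
    m8T st D₀ C₀ (θ / a) δ l₀ r₀ z c b ≤
      (θ / a) * (if (b, c) ∈ Z2 st.R l₀ r₀ z.1 z.2 then 1 else 0) +
      (if pick ((s(z.1, z.2), c) : PX V K) ∈ D₀ then (1 : ℝ) else 0) *
        ((if b ∈ Z1 st.R r₀ z.1 z.2 c then 1 else 0) +
          if b ≠ c then ∑ n ∈ Icc l₀ r₀, PS st D₀ C₀ (θ / a) δ n b c z.1 z.2 else 0) +
      (θ / a) * (if c ∈ Col D₀ then
        (if b ≠ c then ∑ n ∈ Icc l₀ r₀, PS st D₀ C₀ (θ / a) δ n b c z.1 z.2 else 0) else 0) +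
      (θ / a) * (if b ∈ Col D₀ then
        (if c ≠ b then ∑ n ∈ Icc l₀ r₀, PS st D₀ C₀ (θ / a) δ n b c z.1 z.2 else 0) else 0) +
      (if ((s(z.1, z.2), c) : PX V K) ∈ st.L then
        (θ / a) * ((θ / a) * ∑ n ∈ Icc l₀ r₀, (n : ℝ) * (1 - δ) ^ (n - 1)) else 0) := by
  have ha : (0 : ℝ) < a := by exact_mod_cast h.a0
  have hπ0 : 0 ≤ θ / a := div_nonneg h.θ0.le ha.le
  have hδ1 := h.δ1
  have hσ : 0 ≤ ∑ n ∈ Icc l₀ r₀, (n : ℝ) * (1 - δ) ^ (n - 1) := by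
    refine sum_nonneg fun n _ => ?_
    have h5 : (0 : ℝ) ≤ 1 - δ := by linarith
    positivity
  have hS : 0 ≤ ∑ n ∈ Icc l₀ r₀, PS st D₀ C₀ (θ / a) δ n b c z.1 z.2 :=
    sum_nonneg fun n _ => PS_nonneg h D₀ C₀ n b c z.1 z.2
  have hI : (0 : ℝ) ≤ if pick ((s(z.1, z.2), c) : PX V K) ∈ D₀ then (1 : ℝ) else 0 := by
    split_ifs <;> norm_num
  have hZ : (0 : ℝ) ≤ if (b, c) ∈ Z2 st.R l₀ r₀ z.1 z.2 then (1 : ℝ) else 0 := by
    split_ifs <;> norm_num
  have hY : (0 : ℝ) ≤ if b ∈ Z1 st.R r₀ z.1 z.2 c then (1 : ℝ) else 0 := by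
    split_ifs <;> norm_num
  have hA1 : (0 : ℝ) ≤ if b ≠ c then
      ∑ n ∈ Icc l₀ r₀, PS st D₀ C₀ (θ / a) δ n b c z.1 z.2 else 0 := by
    split_ifs
    · exact hS
    · exact le_rfl
  have hA2 : (0 : ℝ) ≤ if c ≠ b then
      ∑ n ∈ Icc l₀ r₀, PS st D₀ C₀ (θ / a) δ n b c z.1 z.2 else 0 := by
    split_ifs
    · exact hS
    · exact le_rfl
  have hB1 : (0 : ℝ) ≤ (θ / a) * (if c ∈ Col D₀ then
        (if b ≠ c then ∑ n ∈ Icc l₀ r₀, PS st D₀ C₀ (θ / a) δ n b c z.1 z.2 else 0) else 0) := by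
    refine mul_nonneg hπ0 ?_
    by_cases k : c ∈ Col D₀
    · rw [if_pos k]; exact hA1
    · rw [if_neg k]
  have hB2 : (0 : ℝ) ≤ (θ / a) * (if b ∈ Col D₀ then
        (if c ≠ b then ∑ n ∈ Icc l₀ r₀, PS st D₀ C₀ (θ / a) δ n b c z.1 z.2 else 0) else 0) := by
    refine mul_nonneg hπ0 ?_
    by_cases k : b ∈ Col D₀
    · rw [if_pos k]; exact hA2
    · rw [if_neg k]
  have hB3 : (0 : ℝ) ≤ (if ((s(z.1, z.2), c) : PX V K) ∈ st.L then
        (θ / a) * ((θ / a) * ∑ n ∈ Icc l₀ r₀, (n : ℝ) * (1 - δ) ^ (n - 1)) else 0) := by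
    split_ifs
    · positivity
    · exact le_rfl
  have hB4 : 0 ≤ (if pick ((s(z.1, z.2), c) : PX V K) ∈ D₀ then (1 : ℝ) else 0) *
        ((if b ∈ Z1 st.R r₀ z.1 z.2 c then 1 else 0) +
          if b ≠ c then ∑ n ∈ Icc l₀ r₀, PS st D₀ C₀ (θ / a) δ n b c z.1 z.2 else 0) :=
    mul_nonneg hI (add_nonneg hY hA1)
  have hB5 : 0 ≤ (θ / a) * (if (b, c) ∈ Z2 st.R l₀ r₀ z.1 z.2 then (1 : ℝ) else 0) :=
    mul_nonneg hπ0 hZ
  unfold m8T
  by_cases hc : ((s(z.1, z.2), c) : PX V K) ∈ st.L ∧ b ≠ c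
  swap
  · rw [if_neg hc]
    linarith
  rw [if_pos hc, sum_add_distrib]
  obtain ⟨hxL, hbc⟩ := hc
  have hRP := m8_rp_sum h D₀ C₀ l₀ r₀ b c hbc z.1 z.2
  have hRP0 : 0 ≤ ∑ n ∈ Icc l₀ r₀, m8RP st D₀ C₀ (θ / a) δ n b c z.1 z.2 :=
    sum_nonneg fun n _ => m8RP_nonneg h D₀ C₀ n b c z.1 z.2
  have hWh0 := Wh_nonneg h D₀ C₀ (s(z.1, z.2), c)
  by_cases hD : pick ((s(z.1, z.2), c) : PX V K) ∈ D₀
  · -- the pick is in the history
    have hWh := pathsum_Wh_le h D₀ C₀ (s(z.1, z.2), c)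
    have h6 : (if (b, c) ∈ Z2 st.R l₀ r₀ z.1 z.2 then (1 : ℝ) else 0) ≤
        if b ∈ Z1 st.R r₀ z.1 z.2 c then 1 else 0 := by
      by_cases k : (b, c) ∈ Z2 st.R l₀ r₀ z.1 z.2
      · rw [if_pos k, if_pos (m8_z2z1 st.R l₀ r₀ (by omega) z.1 z.2 b c k)]
      · rw [if_neg k]; exact hY
    have h7 : Wh st D₀ C₀ (θ / a) δ (s(z.1, z.2), c) *
        (∑ n ∈ Icc l₀ r₀, m8RP st D₀ C₀ (θ / a) δ n b c z.1 z.2 +
          ∑ n ∈ Icc l₀ r₀, PS st D₀ C₀ (θ / a) δ n b c z.1 z.2) ≤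
        (∑ n ∈ Icc l₀ r₀, m8RP st D₀ C₀ (θ / a) δ n b c z.1 z.2 +
          ∑ n ∈ Icc l₀ r₀, PS st D₀ C₀ (θ / a) δ n b c z.1 z.2) :=
      mul_le_of_le_one_left (add_nonneg hRP0 hS) hWh
    rw [if_pos hD, if_pos hbc, one_mul]
    rw [if_pos hbc] at hB1
    linarith
  · have hWh : Wh st D₀ C₀ (θ / a) δ (s(z.1, z.2), c) ≤ θ / a := by
      refine pathsum_Wh_new h D₀ C₀ _ ?_
      unfold Qs
      rw [mem_union, mem_filter, not_or]
      refine ⟨?_, fun k => hD k.2⟩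
      intro hR
      exact (Finset.disjoint_left.1 (RL_disj h)) hR hxL
    have h7 : Wh st D₀ C₀ (θ / a) δ (s(z.1, z.2), c) *
        (∑ n ∈ Icc l₀ r₀, m8RP st D₀ C₀ (θ / a) δ n b c z.1 z.2 +
          ∑ n ∈ Icc l₀ r₀, PS st D₀ C₀ (θ / a) δ n b c z.1 z.2) ≤
        (θ / a) * ((if (b, c) ∈ Z2 st.R l₀ r₀ z.1 z.2 then 1 else 0) +
          ∑ n ∈ Icc l₀ r₀, PS st D₀ C₀ (θ / a) δ n b c z.1 z.2) :=
      mul_le_mul hWh (add_le_add hRP le_rfl) (add_nonneg hRP0 hS) hπ0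
    rw [mul_add] at h7
    by_cases hcC : c ∈ Col D₀
    · rw [if_pos hcC, if_pos hbc]
      rw [if_pos hbc] at hB4
      linarith
    · by_cases hbC : b ∈ Col D₀
      · rw [if_pos hbC, if_pos hbc.symm]
        linarith
      · have h8 : ∑ n ∈ Icc l₀ r₀, PS st D₀ C₀ (θ / a) δ n b c z.1 z.2 ≤
            (θ / a) * ∑ n ∈ Icc l₀ r₀, (n : ℝ) * (1 - δ) ^ (n - 1) := by
          rw [mul_sum]
          refine sum_le_sum fun n _ => ?_
          refine (path_free h hρ hH n b c hbC hcC z.1 z.2).trans (le_of_eq ?_)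
          ring
        have h9 := mul_le_mul_of_nonneg_left h8 hπ0
        rw [if_pos hxL]
        linarith

theorem m8_own (h : Hyp (gS G K n₀) st K a B Γ m ρ w g θ δ) (e : Sym2 V) :
    ∑ c : Fin K, (if ((e, c) : PX V K) ∈ st.L then (1 : ℝ) else 0) ≤ a := by
  rw [← sum_filter, sum_const, nsmul_eq_mul, mul_one]
  by_cases he : ∃ c : Fin K, ((e, c) : PX V K) ∈ st.L
  · obtain ⟨c₁, hc₁⟩ := he
    have hU : e ∈ st.U := h.inv.L_U _ hc₁
    have h1 := h.inv.list e hU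
    have h2 : (univ.filter (fun c : Fin K => ((e, c) : PX V K) ∈ st.L)).card ≤
        (own (gS G K n₀) st e).card := by
      refine card_le_card_of_injOn (fun c => ((e, c) : PX V K)) ?_ ?_
      · intro c hc
        have hc' := (mem_filter.1 (Finset.mem_coe.1 hc)).2
        rw [Finset.mem_coe]
        unfold own
        rw [mem_filter]
        exact ⟨hc', rfl⟩
      · intro c _ c' _ hcc
        exact (Prod.mk.inj hcc).2
    rw [h1] at h2
    exact_mod_cast h2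
  · rw [filter_false_of_mem]
    · simp
    · intro c _ hc
      exact he ⟨c, hc⟩

theorem m8_mu_nonneg (r₀ M Γ : ℕ) : 0 ≤ mu9 r₀ M Γ := by
  unfold mu9
  positivity

/-- `core9` for the paths starting with the varying colour -/
theorem m8_core1 (h : Hyp (gS G K n₀) st K a B Γ m ρ w g θ δ) (hρ : ρ * θ ≤ 1 - δ) {M : ℕ}
    {D₀ C₀ : Finset (Fin 3 × PX V K)} (hH : Hist (gS G K n₀) st D₀ C₀ M) (r₀ l₀ : ℕ)
    (hl : 2 ≤ l₀) (hz : ∀ p q c, p ≠ q → (Z1 st.R r₀ p q c).card ≤ Γ) (p q : V) (hpq : p ≠ q)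
    (c : Fin K) :
    ∑ b : Fin K, (if b ≠ c then ∑ n ∈ Icc l₀ r₀, PS st D₀ C₀ (θ / a) δ n b c p q else 0) ≤
      mu9 r₀ M Γ := by
  refine le_trans ?_ (core9 h hρ hH r₀ hz p q hpq c)
  rw [← sum_filter]
  refine sum_le_sum fun b _ => ?_
  refine le_trans (sum_le_sum_of_subset_of_nonneg (t := Icc 1 r₀) ?_ ?_) ?_
  · exact Icc_subset_Icc (by omega) le_rfl
  · intro n _ _
    exact PS_nonneg h D₀ C₀ n b c p q
  · refine sum_le_sum fun n _ => ?_
    have h2 := PS_nonneg h D₀ C₀ n c b p q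
    split_ifs <;> linarith

/-- `core9` for the paths starting with the fixed colour -/
theorem m8_core2 (h : Hyp (gS G K n₀) st K a B Γ m ρ w g θ δ) (hρ : ρ * θ ≤ 1 - δ) {M : ℕ}
    {D₀ C₀ : Finset (Fin 3 × PX V K)} (hH : Hist (gS G K n₀) st D₀ C₀ M) (r₀ l₀ : ℕ)
    (hl : 2 ≤ l₀) (hz : ∀ p q c, p ≠ q → (Z1 st.R r₀ p q c).card ≤ Γ) (p q : V) (hpq : p ≠ q)
    (b : Fin K) :
    ∑ c : Fin K, (if c ≠ b then ∑ n ∈ Icc l₀ r₀, PS st D₀ C₀ (θ / a) δ n b c p q else 0) ≤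
      mu9 r₀ M Γ := by
  refine le_trans ?_ (core9 h hρ hH r₀ hz p q hpq b)
  rw [← sum_filter]
  refine sum_le_sum fun c _ => ?_
  refine le_trans (sum_le_sum (g := fun n => PS st D₀ C₀ (θ / a) δ n c b p q +
    if 2 ≤ n then PS st D₀ C₀ (θ / a) δ n b c p q else 0) ?_)
    (sum_le_sum_of_subset_of_nonneg (t := Icc 1 r₀) ?_ ?_)
  · intro n hn
    rw [mem_Icc] at hn
    have h2 := PS_nonneg h D₀ C₀ n c b p q
    rw [if_pos (by omega)]
    linarith
  · exact Icc_subset_Icc (by omega) le_rfl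
  · intro n _ _
    have h2 := PS_nonneg h D₀ C₀ n c b p q
    have h3 := PS_nonneg h D₀ C₀ n b c p q
    split_ifs <;> linarith

theorem mS_bdd (h : Hyp (gS G K n₀) st K a B Γ m ρ w g θ δ) (hρ : ρ * θ ≤ 1 - δ)
    (r₀ l₀ s : ℕ) (hl : 2 ≤ l₀) (ζ : ℝ) (hζ : 0 ≤ ζ)
    (hz : ∀ p q c, p ≠ q → (Z1 st.R r₀ p q c).card ≤ Γ)
    (hz2 : ∀ p q, p ≠ q → ((Z2 st.R l₀ r₀ p q).card : ℝ) ≤ ζ * K)
    (Es : Finset (Sym2 V)) (hE : Es.card ≤ K) :
    (mS (gS G K n₀) st l₀ r₀ Es).Bdd (pr (gS G K n₀) st a B θ δ) s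
      (2 * K * (θ / a) * (ζ * K) +
        2 * K * θ * (K * θ / a) * (∑ n ∈ Icc l₀ r₀, (n : ℝ) * (1 - δ) ^ (n - 1)) +
        2 * (s * (r₀ + 1) : ℕ) * Γ + 6 * (s * (r₀ + 1) : ℕ) * mu9 r₀ (s * (r₀ + 1)) Γ) := by
  intro hh hc hw hd
  have hH := hist_mS h l₀ r₀ s Es hh hc hw hd
  obtain ⟨D₀, hD₀⟩ : ∃ D₀, D₀ = hh.biUnion (mS (gS G K n₀) st l₀ r₀ Es).D := ⟨_, rfl⟩
  obtain ⟨C₀, hC₀⟩ : ∃ C₀, C₀ = hh.biUnion (mS (gS G K n₀) st l₀ r₀ Es).C := ⟨_, rfl⟩
  rw [← hD₀, ← hC₀] at hH ⊢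
  obtain ⟨M, hM⟩ : ∃ M : ℕ, M = s * (r₀ + 1) := ⟨_, rfl⟩
  rw [← hM] at hH ⊢
  have ha : (0 : ℝ) < a := by exact_mod_cast h.a0
  have hπ0 : 0 ≤ θ / a := div_nonneg h.θ0.le ha.le
  have hKπ : (K : ℝ) * (θ / a) ≤ 1 := by
    rw [← mul_div_assoc, div_le_one ha]
    exact h.Kθ
  have hδ1 := h.δ1
  obtain ⟨σ, hσ⟩ : ∃ σ : ℝ, σ = ∑ n ∈ Icc l₀ r₀, (n : ℝ) * (1 - δ) ^ (n - 1) := ⟨_, rfl⟩
  have hσ0 : 0 ≤ σ := by
    rw [hσ]
    refine sum_nonneg fun n _ => ?_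
    have h5 : (0 : ℝ) ≤ 1 - δ := by linarith
    positivity
  obtain ⟨μ, hμ⟩ : ∃ μ : ℝ, μ = mu9 r₀ M Γ := ⟨_, rfl⟩
  have hμ0 : 0 ≤ μ := by rw [hμ]; exact m8_mu_nonneg _ _ _
  rw [← hσ, ← hμ]
  refine (m8_main h r₀ l₀ hl Es D₀ C₀).trans ?_
  obtain ⟨P, hP⟩ : ∃ P : Finset (V × V), P =
      univ.filter (fun z : V × V => z.1 ≠ z.2 ∧ s(z.1, z.2) ∈ Es) := ⟨_, rfl⟩
  rw [← hP]
  have hPc : (P.card : ℝ) ≤ 2 * K := by
    have h1 := m8_P2 Es
    rw [← hP] at h1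
    have h2 : P.card ≤ 2 * K := h1.trans (by omega)
    exact_mod_cast h2
  have hPne : ∀ z ∈ P, z.1 ≠ z.2 := by
    intro z hz1
    rw [hP, mem_filter] at hz1
    exact hz1.2.1
  have hColc : ((Col D₀).card : ℝ) ≤ M := by
    have : (Col D₀).card ≤ M := card_image_le.trans hH.card
    exact_mod_cast this
  refine (sum_le_sum fun z _ => sum_le_sum fun c _ => sum_le_sum fun b _ =>
    m8_T h hρ hH r₀ l₀ hl z c b).trans ?_
  rw [← hσ]
  simp only [sum_add_distrib]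
  -- the five sums
  have e1 : ∑ z ∈ P, ∑ c : Fin K, ∑ b : Fin K,
      (θ / a) * (if (b, c) ∈ Z2 st.R l₀ r₀ z.1 z.2 then (1 : ℝ) else 0) ≤
      2 * K * (θ / a) * (ζ * K) := by
    have h1 : ∀ z ∈ P, ∑ c : Fin K, ∑ b : Fin K,
        (θ / a) * (if (b, c) ∈ Z2 st.R l₀ r₀ z.1 z.2 then (1 : ℝ) else 0) ≤
        (θ / a) * (ζ * K) := by
      intro z hz1
      have h2 : ∑ c : Fin K, ∑ b : Fin K,
        (θ / a) * (if (b, c) ∈ Z2 st.R l₀ r₀ z.1 z.2 then (1 : ℝ) else 0) =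
        (θ / a) * (Z2 st.R l₀ r₀ z.1 z.2).card := by
        rw [sum_comm]
        simp only [← mul_sum]
        congr 1
        rw [← Fintype.sum_prod_type' (f := fun b c =>
          if (b, c) ∈ Z2 st.R l₀ r₀ z.1 z.2 then (1 : ℝ) else 0)]
        simp only [Prod.mk.eta]
        rw [← sum_filter, sum_const, nsmul_eq_mul, mul_one]
        congr 2
        ext x
        simp
      rw [h2]
      exact mul_le_mul_of_nonneg_left (hz2 _ _ (hPne z hz1)) hπ0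
    refine (sum_le_sum h1).trans ?_
    rw [sum_const, nsmul_eq_mul]
    have h3 : 0 ≤ (θ / a) * (ζ * K) := by positivity
    calc (P.card : ℝ) * ((θ / a) * (ζ * K)) ≤ (2 * K) * ((θ / a) * (ζ * K)) :=
          mul_le_mul_of_nonneg_right hPc h3
      _ = _ := by ring
  have e2 : ∑ z ∈ P, ∑ c : Fin K, ∑ b : Fin K,
      (if pick ((s(z.1, z.2), c) : PX V K) ∈ D₀ then (1 : ℝ) else 0) *
        ((if b ∈ Z1 st.R r₀ z.1 z.2 c then 1 else 0) +
          if b ≠ c then ∑ n ∈ Icc l₀ r₀, PS st D₀ C₀ (θ / a) δ n b c z.1 z.2 else 0) ≤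
      2 * M * (Γ + μ) := by
    have h1 : ∀ z ∈ P, ∀ c ∈ (univ : Finset (Fin K)), ∑ b : Fin K,
      (if pick ((s(z.1, z.2), c) : PX V K) ∈ D₀ then (1 : ℝ) else 0) *
        ((if b ∈ Z1 st.R r₀ z.1 z.2 c then 1 else 0) +
          if b ≠ c then ∑ n ∈ Icc l₀ r₀, PS st D₀ C₀ (θ / a) δ n b c z.1 z.2 else 0) ≤
        (if pick ((s(z.1, z.2), c) : PX V K) ∈ D₀ then (1 : ℝ) else 0) * (Γ + μ) := by
      intro z hz1 c _
      rw [← mul_sum, sum_add_distrib]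
      have h2 : (0 : ℝ) ≤ if pick ((s(z.1, z.2), c) : PX V K) ∈ D₀ then (1 : ℝ) else 0 := by
        split_ifs <;> norm_num
      refine mul_le_mul_of_nonneg_left (add_le_add ?_ ?_) h2
      · rw [← sum_filter, sum_const, nsmul_eq_mul, mul_one]
        have h3 : univ.filter (fun b => b ∈ Z1 st.R r₀ z.1 z.2 c) = Z1 st.R r₀ z.1 z.2 c := by
          ext x
          simp
        rw [h3]
        exact_mod_cast hz _ _ c (hPne z hz1)
      · rw [hμ]
        exact m8_core1 h hρ hH r₀ l₀ hl hz _ _ (hPne z hz1) c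
    refine (sum_le_sum fun z hz1 => sum_le_sum (h1 z hz1)).trans ?_
    simp only [← sum_mul]
    exact mul_le_mul_of_nonneg_right (m8_hist hH.card P) (by positivity)
  have e3 : ∑ z ∈ P, ∑ c : Fin K, ∑ b : Fin K, (θ / a) * (if c ∈ Col D₀ then
        (if b ≠ c then ∑ n ∈ Icc l₀ r₀, PS st D₀ C₀ (θ / a) δ n b c z.1 z.2 else 0) else 0) ≤
      2 * M * μ := by
    have h1 : ∀ z ∈ P, ∑ c : Fin K, ∑ b : Fin K, (θ / a) * (if c ∈ Col D₀ then
        (if b ≠ c then ∑ n ∈ Icc l₀ r₀, PS st D₀ C₀ (θ / a) δ n b c z.1 z.2 else 0) else 0) ≤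
        (θ / a) * (M * μ) := by
      intro z hz1
      simp only [← mul_sum]
      refine mul_le_mul_of_nonneg_left ?_ hπ0
      have h2 : ∀ c ∈ (univ : Finset (Fin K)), ∑ b : Fin K, (if c ∈ Col D₀ then
        (if b ≠ c then ∑ n ∈ Icc l₀ r₀, PS st D₀ C₀ (θ / a) δ n b c z.1 z.2 else 0) else 0) ≤
          if c ∈ Col D₀ then μ else 0 := by
        intro c _
        by_cases k : c ∈ Col D₀
        · simp only [if_pos k]
          rw [hμ]
          exact m8_core1 h hρ hH r₀ l₀ hl hz _ _ (hPne z hz1) c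
        · simp only [if_neg k]
          rw [sum_const_zero]
      refine (sum_le_sum h2).trans ?_
      rw [← sum_filter, sum_const, nsmul_eq_mul]
      refine mul_le_mul_of_nonneg_right ?_ hμ0
      refine le_trans (le_of_eq ?_) hColc
      congr 2
      ext x
      simp
    refine (sum_le_sum h1).trans ?_
    rw [sum_const, nsmul_eq_mul]
    have h3 : 0 ≤ (θ / a) * (M * μ) := by positivity
    calc (P.card : ℝ) * ((θ / a) * (M * μ)) ≤ (2 * K) * ((θ / a) * (M * μ)) :=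
          mul_le_mul_of_nonneg_right hPc h3
      _ = 2 * (K * (θ / a)) * (M * μ) := by ring
      _ ≤ 2 * 1 * (M * μ) := by
          refine mul_le_mul_of_nonneg_right ?_ (by positivity)
          linarith
      _ = _ := by ring
  have e4 : ∑ z ∈ P, ∑ c : Fin K, ∑ b : Fin K, (θ / a) * (if b ∈ Col D₀ then
        (if c ≠ b then ∑ n ∈ Icc l₀ r₀, PS st D₀ C₀ (θ / a) δ n b c z.1 z.2 else 0) else 0) ≤
      2 * M * μ := by
    have h1 : ∀ z ∈ P, ∑ c : Fin K, ∑ b : Fin K, (θ / a) * (if b ∈ Col D₀ then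
        (if c ≠ b then ∑ n ∈ Icc l₀ r₀, PS st D₀ C₀ (θ / a) δ n b c z.1 z.2 else 0) else 0) ≤
        (θ / a) * (M * μ) := by
      intro z hz1
      rw [sum_comm]
      simp only [← mul_sum]
      refine mul_le_mul_of_nonneg_left ?_ hπ0
      have h2 : ∀ b ∈ (univ : Finset (Fin K)), ∑ c : Fin K, (if b ∈ Col D₀ then
        (if c ≠ b then ∑ n ∈ Icc l₀ r₀, PS st D₀ C₀ (θ / a) δ n b c z.1 z.2 else 0) else 0) ≤
          if b ∈ Col D₀ then μ else 0 := by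
        intro b _
        by_cases k : b ∈ Col D₀
        · simp only [if_pos k]
          rw [hμ]
          exact m8_core2 h hρ hH r₀ l₀ hl hz _ _ (hPne z hz1) b
        · simp only [if_neg k]
          rw [sum_const_zero]
      refine (sum_le_sum h2).trans ?_
      rw [← sum_filter, sum_const, nsmul_eq_mul]
      refine mul_le_mul_of_nonneg_right ?_ hμ0
      refine le_trans (le_of_eq ?_) hColc
      congr 2
      ext x
      simp
    refine (sum_le_sum h1).trans ?_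
    rw [sum_const, nsmul_eq_mul]
    have h3 : 0 ≤ (θ / a) * (M * μ) := by positivity
    calc (P.card : ℝ) * ((θ / a) * (M * μ)) ≤ (2 * K) * ((θ / a) * (M * μ)) :=
          mul_le_mul_of_nonneg_right hPc h3
      _ = 2 * (K * (θ / a)) * (M * μ) := by ring
      _ ≤ 2 * 1 * (M * μ) := by
          refine mul_le_mul_of_nonneg_right ?_ (by positivity)
          linarith
      _ = _ := by ring
  have e5 : ∑ z ∈ P, ∑ c : Fin K, ∑ _b : Fin K,
      (if ((s(z.1, z.2), c) : PX V K) ∈ st.L then (θ / a) * ((θ / a) * σ) else 0) ≤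
      2 * K * θ * (K * θ / a) * σ := by
    have h1 : ∀ z ∈ P, ∑ c : Fin K, ∑ _b : Fin K,
        (if ((s(z.1, z.2), c) : PX V K) ∈ st.L then (θ / a) * ((θ / a) * σ) else 0) ≤
        K * (a * ((θ / a) * ((θ / a) * σ))) := by
      intro z _
      simp only [sum_const, card_univ, Fintype.card_fin, nsmul_eq_mul]
      rw [← mul_sum]
      refine mul_le_mul_of_nonneg_left ?_ (Nat.cast_nonneg _)
      have h2 : ∑ c : Fin K, (if ((s(z.1, z.2), c) : PX V K) ∈ st.L then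
          (θ / a) * ((θ / a) * σ) else 0) =
          (∑ c : Fin K, (if ((s(z.1, z.2), c) : PX V K) ∈ st.L then (1 : ℝ) else 0)) *
            ((θ / a) * ((θ / a) * σ)) := by
        rw [sum_mul]
        refine sum_congr rfl fun c _ => ?_
        split_ifs
        · rw [one_mul]
        · rw [zero_mul]
      rw [h2]
      exact mul_le_mul_of_nonneg_right (m8_own h _) (by positivity)
    refine (sum_le_sum h1).trans ?_
    rw [sum_const, nsmul_eq_mul]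
    have h3 : 0 ≤ K * (a * ((θ / a) * ((θ / a) * σ))) := by positivity
    refine (mul_le_mul_of_nonneg_right hPc h3).trans (le_of_eq ?_)
    field_simp
  have hMr : ((M : ℕ) : ℝ) = (M : ℝ) := rfl
  have e6 : 2 * (M : ℝ) * (Γ + μ) = 2 * M * Γ + 2 * M * μ := by ring
  linarith

end Pool.Agent.H77.AC
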