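import Pool.Agent.H77.AC.Ovl
import Pool.Agent.H77.AC.Cyl
import Pool.Agent.H77.AC.Gen

/-!
# AC-NODES: conditional bound for the statistic `nS` (survivors at a node)

History `h ⊆ atN ν` (weights nonzero), `|h| ≤ s`, `D₀ = {coin z : z ∈ h}`,
`C₀ = ⋃_{z ∈ h} pick (nbh z \ atN ν)`. Indices `z ∈ h` contribute at most `1` each. For `z ∈ atN ν`, `z ∉ h`:
`cnd ≤ q(z) (1-θ/a)^{|C z \ C₀|}` where `q(z) = (1-θ/a)^(B - |conf z|)`, and
`|C z \ C₀| ≥ |nbh z \ atN ν| - ∑_{z' ∈ h} |(nbh z ∩ nbh z') \ atN ν|`. For `z' ∈ h`: `z ≠ z'`, both at `ν`, so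
`ed z ≠ ed z'` (`same_edge`), `nd z ∩ nd z' = {ν}` (`nd_inter`); an element of `(nbh z ∩ nbh z') \ atN ν` is
live and not at `ν`, hence counted in `overlap`: at most `7 Γ + 6`. By `nbh_sdiff_atN` the exponent is at least
`(B - |conf z|) + (a + |conf z| - |atN ν|) - s (7Γ+6)`, at least the truncated difference
`a + B - |atN ν| - s (7 Γ + 6)` (`|conf z| ≤ B`).
-/

set_option autoImplicit false

open Finset
open scoped Classical

namespace Pool.Agent.H77.AC

variable {X E N : Type} [DecidableEq X] [DecidableEq E] [DecidableEq N] [Fintype X]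
variable {S : Sys X E N} {st : St X E} {K a B Γ m : ℕ} {ρ w g θ δ : ℝ}

theorem nodeS_nbh_L (x y : X) (hy : y ∈ nbh S st x) : y ∈ st.L := by
  unfold nbh at hy
  rcases Finset.mem_union.mp hy with h1 | h1
  · exact (Finset.mem_filter.mp h1).1
  · exact (Finset.mem_filter.mp h1).1

theorem nodeS_ov (h : Hyp S st K a B Γ m ρ w g θ δ) (ν : N) (z z' : X) (hz : z ∈ atN S st ν)
    (hz' : z' ∈ atN S st ν) (hne : z ≠ z') :
    ((nbh S st z \ atN S st ν) ∩ (nbh S st z' \ atN S st ν)).card ≤ 7 * Γ + 6 := by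
  have hzL := (Finset.mem_filter.mp hz).1
  have hzL' := (Finset.mem_filter.mp hz').1
  have hzν := (Finset.mem_filter.mp hz).2
  have hzν' := (Finset.mem_filter.mp hz').2
  have hed : S.ed z ≠ S.ed z' := by
    intro he
    have hd := h.good.same_edge z z' hne he
    exact (Finset.disjoint_left.mp hd) hzν hzν'
  refine le_trans (Finset.card_le_card ?_) (overlap h z z' hzL hzL' hed)
  intro y hy
  rw [Finset.mem_inter, Finset.mem_sdiff, Finset.mem_sdiff] at hy
  obtain ⟨⟨h1, h2⟩, h3, _⟩ := hy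
  rw [Finset.mem_filter, Finset.mem_inter]
  refine ⟨⟨h1, h3⟩, ?_⟩
  rw [Finset.disjoint_left]
  intro μ hμ hμ2
  have hν : ν ∈ S.nd z ∩ S.nd z' := Finset.mem_inter.mpr ⟨hzν, hzν'⟩
  have := Finset.card_le_one.mp (h.good.nd_inter z z' hed) μ hμ2 ν hν
  subst this
  exact h2 (Finset.mem_filter.mpr ⟨nodeS_nbh_L z y h1, hμ⟩)

theorem nodeS_pick_inj : Function.Injective (pick : X → Fin 3 × X) := by
  intro x y hxy
  unfold pick at hxy
  exact (Prod.mk.inj hxy).2

theorem nodeS_one (h : Hyp S st K a B Γ m ρ w g θ δ) (ν : N) (s : ℕ) (H : Finset X)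
    (hs : H.card ≤ s) (hH : ∀ z ∈ H, z ∈ atN S st ν) (z : X) (hz : z ∈ atN S st ν)
    (hzH : z ∉ H) :
    cnd (pr S st a B θ δ) (H.biUnion (nS S st ν).D) (H.biUnion (nS S st ν).C)
      ((nS S st ν).D z) ((nS S st ν).C z) ≤
      (1 - θ / a) ^ (a + B - (atN S st ν).card - s * (7 * Γ + 6)) := by
  have hp := pr_mem (B := B) h
  have hzL := (Finset.mem_filter.mp hz).1
  have hq : 0 ≤ 1 - θ / a ∧ 1 - θ / a ≤ 1 := by
    have h1 := hp (pick z)
    unfold pr pick at h1
    simp only [if_true] at h1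
    exact ⟨by linarith [h1.2], by linarith [h1.1]⟩
  set T : Finset X := (nbh S st z \ atN S st ν) \ H.biUnion (fun z' => nbh S st z' \ atN S st ν)
    with hT
  have hD : ({coin z} : Finset (Fin 3 × X)) ⊆
      (nS S st ν).D z \ H.biUnion (nS S st ν).D := by
    intro i hi
    rw [Finset.mem_singleton] at hi
    subst hi
    rw [Finset.mem_sdiff]
    refine ⟨by simp [nS], ?_⟩
    intro hmem
    obtain ⟨z', hz', hmem⟩ := Finset.mem_biUnion.mp hmem
    have h2 : coin z = coin z' := by simpa [nS] using hmem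
    have h3 : z = z' := by
      unfold coin at h2
      exact (Prod.mk.inj h2).2
    exact hzH (h3 ▸ hz')
  have hC : T.image pick ⊆ (nS S st ν).C z \ H.biUnion (nS S st ν).C := by
    intro i hi
    rw [Finset.mem_image] at hi
    obtain ⟨y, hy, rfl⟩ := hi
    rw [hT, Finset.mem_sdiff] at hy
    rw [Finset.mem_sdiff]
    refine ⟨?_, ?_⟩
    · exact Finset.mem_image.mpr ⟨y, hy.1, rfl⟩
    · intro hmem
      obtain ⟨z', hz', hmem⟩ := Finset.mem_biUnion.mp hmem
      obtain ⟨y', hy', he⟩ := Finset.mem_image.mp hmem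
      have h3 : y' = y := nodeS_pick_inj he
      subst h3
      exact hy.2 (Finset.mem_biUnion.mpr ⟨z', hz', hy'⟩)
  have hcard : (nbh S st z \ atN S st ν).card ≤ T.card + s * (7 * Γ + 6) := by
    have h1 := Finset.card_sdiff_add_card_inter (nbh S st z \ atN S st ν)
      (H.biUnion (fun z' => nbh S st z' \ atN S st ν))
    rw [← hT] at h1
    have h2 : ((nbh S st z \ atN S st ν) ∩
        H.biUnion (fun z' => nbh S st z' \ atN S st ν)).card ≤ H.card * (7 * Γ + 6) := by
      rw [Finset.inter_biUnion]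
      refine le_trans Finset.card_biUnion_le ?_
      refine le_trans (Finset.sum_le_card_nsmul _ _ (7 * Γ + 6) ?_) ?_
      · intro z' hz'
        have hne : z ≠ z' := by
          intro he
          exact hzH (he ▸ hz')
        exact nodeS_ov h ν z z' hz (hH z' hz') hne
      · simp
    have h3 : H.card * (7 * Γ + 6) ≤ s * (7 * Γ + 6) := Nat.mul_le_mul_right _ hs
    omega
  refine le_trans (gen_cnd_le (pr S st a B θ δ) hp _ _ _ _ {coin z} (T.image pick) hD hC) ?_
  have e1 : ∏ i ∈ ({coin z} : Finset (Fin 3 × X)), pr S st a B θ δ i =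
      (1 - θ / a) ^ (B - (conf S st z).card) := by
    rw [Finset.prod_singleton]
    unfold pr coin
    simp
  have e2 : ∏ i ∈ T.image pick, (1 - pr S st a B θ δ i) = (1 - θ / a) ^ T.card := by
    rw [Finset.prod_image (fun x _ y _ hxy => nodeS_pick_inj hxy)]
    have : ∀ y ∈ T, 1 - pr S st a B θ δ (pick y) = 1 - θ / a := by
      intro y _
      unfold pr pick
      simp
    rw [Finset.prod_congr rfl this, Finset.prod_const]
  rw [e1, e2, ← pow_add]
  refine pow_le_pow_of_le_one hq.1 hq.2 ?_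
  have h4 := nbh_sdiff_atN h ν z hz
  have h5 := conf_card_le h z hzL
  omega

theorem nS_bdd (h : Hyp S st K a B Γ m ρ w g θ δ) (ν : N) (s : ℕ) :
    (nS S st ν).Bdd (pr S st a B θ δ) s
      (s + (atN S st ν).card *
        (1 - θ / a) ^ (a + B - (atN S st ν).card - s * (7 * Γ + 6))) := by
  intro (H : Finset X) hs hw _
  have hp := pr_mem (B := B) h
  have hww : ∀ z : X, (nS S st ν).w z = if z ∈ atN S st ν then (1 : ℝ) else 0 := fun z => rfl
  have hH : ∀ z ∈ H, z ∈ atN S st ν := by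
    intro z hz
    by_contra hcon
    apply hw z hz
    rw [hww z, if_neg hcon]
  set b : ℝ := (1 - θ / a) ^ (a + B - (atN S st ν).card - s * (7 * Γ + 6)) with hb
  have hq : 0 ≤ 1 - θ / a := by
    have : θ / a ≤ 1 := by
      rw [div_le_one (by exact_mod_cast h.a0)]
      have : (1 : ℝ) ≤ a := by exact_mod_cast h.a0
      linarith [h.θ1]
    linarith
  have hb0 : 0 ≤ b := pow_nonneg hq _
  have key : ∀ z : X, (nS S st ν).w z * cnd (pr S st a B θ δ) (H.biUnion (nS S st ν).D)
      (H.biUnion (nS S st ν).C) ((nS S st ν).D z) ((nS S st ν).C z) ≤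
      (if z ∈ H then (1 : ℝ) else 0) + (if z ∈ atN S st ν then b else 0) := by
    intro z
    by_cases hz : z ∈ atN S st ν
    · rw [hww z, if_pos hz, one_mul, if_pos hz]
      by_cases hzH : z ∈ H
      · rw [if_pos hzH]
        have := cnd_le_one (pr S st a B θ δ) hp (H.biUnion (nS S st ν).D)
          (H.biUnion (nS S st ν).C) ((nS S st ν).D z) ((nS S st ν).C z)
        linarith
      · rw [if_neg hzH]
        have := nodeS_one h ν s H hs hH z hz hzH
        rw [zero_add]
        exact this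
    · rw [hww z, if_neg hz, zero_mul, if_neg hz]
      split_ifs <;> norm_num
  have s1 : ∑ z : X, (if z ∈ H then (1 : ℝ) else 0) = H.card := by
    rw [Finset.sum_ite_mem, Finset.univ_inter]
    simp
  have s2 : ∑ z : X, (if z ∈ atN S st ν then b else 0) = (atN S st ν).card * b := by
    rw [Finset.sum_ite_mem, Finset.univ_inter, Finset.sum_const, nsmul_eq_mul]
  have s3 : ∑ z : X, ((if z ∈ H then (1 : ℝ) else 0) +
      (if z ∈ atN S st ν then b else 0)) = H.card + (atN S st ν).card * b := by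
    rw [Finset.sum_add_distrib, s1, s2]
  have s4 : ∑ z : X, (nS S st ν).w z * cnd (pr S st a B θ δ) (H.biUnion (nS S st ν).D)
      (H.biUnion (nS S st ν).C) ((nS S st ν).D z) ((nS S st ν).C z) ≤
      H.card + (atN S st ν).card * b := by
    rw [← s3]
    exact Finset.sum_le_sum (fun z _ => key z)
  refine le_trans s4 ?_
  have : (H.card : ℝ) ≤ s := by exact_mod_cast hs
  linarith

end Pool.Agent.H77.AC
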