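import Pool.Agent.H77.AC.WgtGen
import Pool.Agent.H77.AC.Gen

/-!
# AC-WGTNON: the non-generic part of the conditional bound for `wS`, and the total

Notation as in `AC-WGTGEN`. For an index `(H, P)` of nonzero weight with `T = H.erase x ∩ L`,
`P ⊂ T` (strict), `Z = T \ P`: `cnd ≤ π^{|P \ A'|}` where `A'` = set of history picks in `P`, and
`1/a' ≥ 1/a ≥ π`. Non-generic `H` are of one of the following kinds.

(a) `T` contains a history pick. Let `A' = {y ∈ T : pick y ∈ D₀} ≠ ∅`. Then `A' ⊆ P` unless `cnd = 0`: if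
`y ∈ A' ∩ Z` then `y ∈ nbh y`, and `y ∉ nbh x` because `y` is in the set `P` of some history index (which is
disjoint from `nbh x`); so `pick y ∈ C ∩ D₀`, inconsistent. As `P ≠ T`, `n := |T \ A'| ≥ 1`. For fixed `A'`
(at most `(s m + 1)^m` possibilities) and `y ∈ A'`: `H ↦ H \ {x, y}` is injective into the family `f1 x y`
(`x ≠ y`), contains `A'.erase y`, the rest in `R ∪ L` with exactly `n` live elements: at most `K^(n-1) Γ` sets `H`; for
each the sum over `P` of weight times `cnd` is at most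
`g'^(|H|-1) ∑_{P'' ⊆ T \ A'} π^{|P''|} a'^{-|T \ A' \ P''|} = g'^(|H|-1) (π + 1/a')^n ≤ g'^m (2/a')^n`.
Total (a) `≤ (s m + 1)^m ∑_{n=1}^{m} K^(n-1) Γ g'^m (2/a')^n ≤ (s m+1)^m m g'^m (Γ/K) (2K/a')^m`
(`2K/a' ≥ 1` since `a' ≤ a ≤ ...`; hypothesis `haK : a' ≤ K`).

(b) `T` contains no history pick, and some `y ∈ T` lies on the edge `f` of a history survivor (at most `s m`
edges): `H.erase x` is in the family `f3 x f`, `⊆ R ∪ L`, `n = |T| ≥ 1` live elements (`noH`): at most
`K^(n-1) Γ`, sum over `P` at most `g'^m (2/a')^n`. Total `≤ s m · m g'^m (Γ/K) (2K/a')^m`.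

(c) the same for a node of a history survivor, family `f2 x ν`, at most `2 s m` nodes. Total
`≤ 2 s m · m g'^m (Γ/K)(2K/a')^m`.
-/

set_option autoImplicit false

open Finset
open scoped Classical

namespace Pool.Agent.H77.AC

variable {X E N : Type} [DecidableEq X] [DecidableEq E] [DecidableEq N] [Fintype X]
variable {S : Sys X E N} {st : St X E} {K a B Γ m : ℕ} {ρ w g θ δ : ℝ}

theorem wgtNon_card_small {α : Type} [DecidableEq α] (Y : Finset α) (k : ℕ) :
    (Y.powerset.filter (fun A => A.card ≤ k)).card ≤ (Y.card + 1) ^ k := by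
  induction k with
  | zero =>
    have : Y.powerset.filter (fun A => A.card ≤ 0) ⊆ {∅} := by
      intro A hA
      rw [Finset.mem_filter] at hA
      rw [Finset.mem_singleton]
      exact Finset.card_eq_zero.1 (Nat.le_zero.1 hA.2)
    refine (Finset.card_le_card this).trans ?_
    simp
  | succ k ih =>
    have hsub : Y.powerset.filter (fun A => A.card ≤ k + 1) ⊆
        (Y.powerset.filter (fun A => A.card ≤ k)) ∪
          (Y ×ˢ (Y.powerset.filter (fun A => A.card ≤ k))).image (fun p => insert p.1 p.2) := by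
      intro A hA
      rw [Finset.mem_filter, Finset.mem_powerset] at hA
      rw [Finset.mem_union]
      by_cases hk : A.card ≤ k
      · left
        rw [Finset.mem_filter, Finset.mem_powerset]
        exact ⟨hA.1, hk⟩
      · right
        have hne : A.Nonempty := by
          rw [← Finset.card_pos]
          omega
        obtain ⟨y, hy⟩ := hne
        rw [Finset.mem_image]
        refine ⟨(y, A.erase y), ?_, Finset.insert_erase hy⟩
        rw [Finset.mem_product, Finset.mem_filter, Finset.mem_powerset]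
        refine ⟨hA.1 hy, (Finset.erase_subset _ _).trans hA.1, ?_⟩
        have := Finset.card_erase_of_mem hy
        simp only
        omega
    refine (Finset.card_le_card hsub).trans ((Finset.card_union_le _ _).trans ?_)
    have h1 := (Finset.card_image_le (s := Y ×ˢ (Y.powerset.filter (fun A => A.card ≤ k)))
      (f := fun p => insert p.1 p.2))
    rw [Finset.card_product] at h1
    calc _ ≤ (Y.powerset.filter (fun A => A.card ≤ k)).card +
          Y.card * (Y.powerset.filter (fun A => A.card ≤ k)).card := Nat.add_le_add_left h1 _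
      _ = (Y.card + 1) * (Y.powerset.filter (fun A => A.card ≤ k)).card := by ring
      _ ≤ (Y.card + 1) * (Y.card + 1) ^ k := Nat.mul_le_mul_left _ ih
      _ = (Y.card + 1) ^ (k + 1) := by ring

/-- bound for one set `H` with `n` live elements outside the history -/
noncomputable def wgtNonBeta (g' : ℝ) (a' m n : ℕ) : ℝ :=
  if n = 0 then 0 else g' ^ m * (2 / (a' : ℝ)) ^ n

theorem wgtNonBeta_nonneg (g' : ℝ) (a' m n : ℕ) (hg1 : 1 ≤ g') : 0 ≤ wgtNonBeta g' a' m n := by
  unfold wgtNonBeta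
  split_ifs
  · exact le_rfl
  · have : 0 ≤ g' := by linarith
    positivity

theorem wgtNon_level (W : Finset (Finset X)) (nf : Finset X → ℕ) (g' : ℝ) (a' K Γ m : ℕ)
    (hg1 : 1 ≤ g') (ha' : 0 < a') (haK : a' ≤ K)
    (hn : ∀ H ∈ W, nf H ≤ m) (hc : ∀ n, (W.filter (fun H => nf H = n)).card ≤ K ^ (n - 1) * Γ) :
    ∑ H ∈ W, wgtNonBeta g' a' m (nf H) ≤ m * (g' ^ m * (Γ / K) * (2 * K / a') ^ m) := by
  have hg0 : 0 ≤ g' := by linarith
  have ha0 : (0 : ℝ) < a' := by exact_mod_cast ha'
  have hKN : 0 < K := lt_of_lt_of_le ha' haK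
  have hK0 : (0 : ℝ) < K := by exact_mod_cast hKN
  have haK' : (a' : ℝ) ≤ K := by exact_mod_cast haK
  have hone : (1 : ℝ) ≤ 2 * K / a' := by
    rw [le_div_iff₀ ha0]
    linarith
  have hmaps : ∀ H ∈ W, nf H ∈ Finset.range (m + 1) := fun H hH =>
    Finset.mem_range.2 (Nat.lt_succ_of_le (hn H hH))
  rw [← Finset.sum_fiberwise_of_maps_to hmaps]
  have hfib : ∀ n ∈ Finset.range (m + 1),
      ∑ H ∈ W.filter (fun H => nf H = n), wgtNonBeta g' a' m (nf H) ≤
        if n = 0 then 0 else g' ^ m * (Γ / K) * (2 * K / a') ^ m := by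
    intro n hnr
    have e1 : ∑ H ∈ W.filter (fun H => nf H = n), wgtNonBeta g' a' m (nf H) =
        ((W.filter (fun H => nf H = n)).card : ℝ) * wgtNonBeta g' a' m n := by
      rw [Finset.sum_congr rfl (g := fun _ => wgtNonBeta g' a' m n), Finset.sum_const, nsmul_eq_mul]
      intro H hH
      rw [Finset.mem_filter] at hH
      rw [hH.2]
    rw [e1]
    by_cases h0 : n = 0
    · rw [if_pos h0, wgtNonBeta, if_pos h0, mul_zero]
    · rw [if_neg h0, wgtNonBeta, if_neg h0]
      have hc' : ((W.filter (fun H => nf H = n)).card : ℝ) ≤ (K : ℝ) ^ (n - 1) * Γ := by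
        exact_mod_cast hc n
      have hnm : n ≤ m := Nat.lt_succ_iff.1 (Finset.mem_range.1 hnr)
      obtain ⟨l, rfl⟩ : ∃ l, n = l + 1 := ⟨n - 1, by omega⟩
      have e2 : l + 1 - 1 = l := by omega
      rw [e2] at hc'
      calc _ ≤ ((K : ℝ) ^ l * Γ) * (g' ^ m * (2 / (a' : ℝ)) ^ (l + 1)) :=
            mul_le_mul_of_nonneg_right hc' (by positivity)
        _ = g' ^ m * (Γ / K) * (2 * K / a') ^ (l + 1) := by
            have e3 : (2 * (K : ℝ) / a') = K * (2 / a') := by ring
            rw [e3, mul_pow, pow_succ (K : ℝ)]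
            field_simp
        _ ≤ g' ^ m * (Γ / K) * (2 * K / a') ^ m := by
            refine mul_le_mul_of_nonneg_left (pow_le_pow_right₀ hone hnm) ?_
            positivity
  refine (Finset.sum_le_sum hfib).trans ?_
  rw [Finset.sum_range_succ']
  simp

theorem wgtNon_cover {J α : Type} [DecidableEq α] (Js : Finset J) (NG : Finset α)
    (W : J → Finset α) (f : α → ℝ) (hf : ∀ x, 0 ≤ f x) (t : ℝ)
    (hcov : ∀ x ∈ NG, ∃ j ∈ Js, x ∈ W j) (ht : ∀ j ∈ Js, ∑ x ∈ W j, f x ≤ t) :
    ∑ x ∈ NG, f x ≤ Js.card * t := by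
  have h1 : ∀ x ∈ NG, f x ≤ ∑ j ∈ Js, if x ∈ W j then f x else 0 := by
    intro x hx
    obtain ⟨j, hj, hxj⟩ := hcov x hx
    have := Finset.single_le_sum (f := fun j => if x ∈ W j then f x else 0)
      (fun j _ => by split_ifs; exacts [hf x, le_rfl]) hj
    simp only [if_pos hxj] at this
    exact this
  refine (Finset.sum_le_sum h1).trans ?_
  rw [Finset.sum_comm]
  have h2 : ∀ j ∈ Js, ∑ x ∈ NG, (if x ∈ W j then f x else 0) ≤ t := by
    intro j hj
    refine le_trans ?_ (ht j hj)
    rw [← Finset.sum_filter]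
    refine Finset.sum_le_sum_of_subset_of_nonneg ?_ (fun x _ _ => hf x)
    intro x hx
    exact (Finset.mem_filter.1 hx).2
  refine (Finset.sum_le_sum h2).trans ?_
  rw [Finset.sum_const, nsmul_eq_mul]

/-- the validity condition of an index -/
def wgtNonCond (S : Sys X E N) (st : St X E) (x : X) (i : Finset X × Finset X) : Prop :=
  i.1 ∈ S.C ∧ x ∈ i.1 ∧ i.1.erase x ⊆ st.R ∪ st.L ∧ i.2 ⊆ i.1.erase x ∩ st.L ∧
    i.2 ≠ i.1.erase x ∩ st.L ∧ Disjoint i.2 (nbh S st x)

/-- sum over the sets `P` for fixed `H` -/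
theorem wgtNon_inner (h : Hyp S st K a B Γ m ρ w g θ δ) (x : X) (g' : ℝ) (a' : ℕ)
    (hg1 : 1 ≤ g') (ha' : 0 < a') (haa : a' ≤ a) (Y : Finset X)
    (D₀ C₀ : Finset (Fin 3 × X)) (hY : ∀ y, pick y ∈ D₀ ↔ y ∈ Y)
    (hYx : Disjoint Y (nbh S st x)) (H : Finset X) (hH : H ∈ S.C) :
    ∑ P : Finset X, (if wgtNonCond S st x (H, P) then
        |g'| ^ (H.card - 1) / (a' : ℝ) ^ ((H.erase x ∩ st.L) \ P).card else 0) *
      cnd (pr S st a B θ δ) D₀ C₀
        (P.image pick ∪ ((H.erase x ∩ st.L) \ P).image coin)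
        ((((H.erase x ∩ st.L) \ P).biUnion (nbh S st) \ nbh S st x).image pick) ≤
      wgtNonBeta g' a' m ((H.erase x ∩ st.L) \ Y).card := by
  set T := H.erase x ∩ st.L with hT
  have hg0 : 0 ≤ g' := by linarith
  have ha0 : (0 : ℝ) < a' := by exact_mod_cast ha'
  have haR : (0 : ℝ) < a := by exact_mod_cast h.a0
  have hpi : 0 ≤ (θ / a : ℝ) := div_nonneg h.θ0.le haR.le
  have hpi1 : (θ / a : ℝ) ≤ 1 / a' := by
    have h1 : (θ / a : ℝ) ≤ 1 / a := div_le_div_of_nonneg_right h.θ1 haR.le
    have h2 : (1 / a : ℝ) ≤ 1 / a' := one_div_le_one_div_of_le ha0 (by exact_mod_cast haa)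
    exact h1.trans h2
  -- pointwise bound
  have key : ∀ P : Finset X, (if wgtNonCond S st x (H, P) then
        |g'| ^ (H.card - 1) / (a' : ℝ) ^ (T \ P).card else 0) *
      cnd (pr S st a B θ δ) D₀ C₀ (P.image pick ∪ (T \ P).image coin)
        (((T \ P).biUnion (nbh S st) \ nbh S st x).image pick) ≤
      if P ⊆ T ∧ T ∩ Y ⊆ P ∧ P ≠ T then
        g' ^ m * ((θ / a : ℝ) ^ (P \ Y).card * (1 / (a' : ℝ)) ^ ((T \ Y).card - (P \ Y).card))
        else 0 := by
    intro P
    have hrhs : 0 ≤ (if P ⊆ T ∧ T ∩ Y ⊆ P ∧ P ≠ T then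
        g' ^ m * ((θ / a : ℝ) ^ (P \ Y).card * (1 / (a' : ℝ)) ^ ((T \ Y).card - (P \ Y).card))
        else 0) := by
      split_ifs
      · positivity
      · exact le_rfl
    by_cases hc : wgtNonCond S st x (H, P)
    swap
    · rw [if_neg hc, zero_mul]
      exact hrhs
    rw [if_pos hc]
    obtain ⟨_, hxH, hRL, hPT, hPne, hPx⟩ := hc
    simp only at hxH hRL hPT hPne hPx
    rw [← hT] at hPT hPne
    by_cases hsub : T ∩ Y ⊆ P
    · rw [if_pos ⟨hPT, hsub, hPne⟩]
      have hcnd : cnd (pr S st a B θ δ) D₀ C₀ (P.image pick ∪ (T \ P).image coin)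
          (((T \ P).biUnion (nbh S st) \ nbh S st x).image pick) ≤ (θ / a : ℝ) ^ (P \ Y).card := by
        have h1 := gen_cnd_le (pr S st a B θ δ) (pr_mem h) D₀ C₀
          (P.image pick ∪ (T \ P).image coin)
          (((T \ P).biUnion (nbh S st) \ nbh S st x).image pick) ((P \ Y).image pick) ∅
          (by
            intro v hv
            rw [Finset.mem_image] at hv
            obtain ⟨y, hy, rfl⟩ := hv
            rw [Finset.mem_sdiff] at hy
            rw [Finset.mem_sdiff]
            exact ⟨Finset.mem_union_left _ (Finset.mem_image_of_mem _ hy.1),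
              fun hh => hy.2 ((hY y).1 hh)⟩)
          (Finset.empty_subset _)
        rw [Finset.prod_empty, mul_one] at h1
        have hinj : ∀ u ∈ P \ Y, ∀ y ∈ P \ Y, (pick u : Fin 3 × X) = pick y → u = y :=
          fun u _ y _ hxy => (Prod.mk.inj hxy).2
        rw [Finset.prod_image hinj] at h1
        have h2 : ∀ y ∈ P \ Y, pr S st a B θ δ (pick y) = θ / a := by
          intro y _
          simp [pr, pick]
        rw [Finset.prod_congr rfl h2, Finset.prod_const] at h1
        exact h1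
      have hcd : (T \ P).card = (T \ Y).card - (P \ Y).card := by
        have e1 : (T \ Y) \ (P \ Y) = T \ P := by
          ext y
          simp only [Finset.mem_sdiff]
          constructor
          · rintro ⟨⟨h1, h2⟩, h3⟩
            exact ⟨h1, fun h4 => h3 ⟨h4, h2⟩⟩
          · rintro ⟨h1, h2⟩
            refine ⟨⟨h1, fun h3 => h2 (hsub (Finset.mem_inter.2 ⟨h1, h3⟩))⟩, fun h3 => h2 h3.1⟩
        rw [← e1, Finset.card_sdiff_of_subset (Finset.sdiff_subset_sdiff hPT (Finset.Subset.refl Y))]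
      have hHm : H.card - 1 ≤ m := (Nat.sub_le _ _).trans (h.good.card_le H hH)
      rw [← hcd, abs_of_nonneg hg0]
      calc g' ^ (H.card - 1) / (a' : ℝ) ^ (T \ P).card * _
          ≤ g' ^ (H.card - 1) / (a' : ℝ) ^ (T \ P).card * (θ / a : ℝ) ^ (P \ Y).card :=
            mul_le_mul_of_nonneg_left hcnd (by positivity)
        _ ≤ g' ^ m / (a' : ℝ) ^ (T \ P).card * (θ / a : ℝ) ^ (P \ Y).card := by
            refine mul_le_mul_of_nonneg_right ?_ (pow_nonneg hpi _)
            exact div_le_div_of_nonneg_right (pow_le_pow_right₀ hg1 hHm) (by positivity)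
        _ = g' ^ m * ((θ / a : ℝ) ^ (P \ Y).card * (1 / (a' : ℝ)) ^ (T \ P).card) := by
            rw [one_div, inv_pow]
            ring
    · -- inconsistent
      have hz : cnd (pr S st a B θ δ) D₀ C₀ (P.image pick ∪ (T \ P).image coin)
          (((T \ P).biUnion (nbh S st) \ nbh S st x).image pick) = 0 := by
        unfold cnd
        rw [if_neg]
        intro hd
        apply hsub
        intro y hy
        rw [Finset.mem_inter] at hy
        by_contra hyP
        have hyL : y ∈ st.L := by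
          have := hy.1
          rw [hT, Finset.mem_inter] at this
          exact this.2
        have h1 : pick y ∈ D₀ ∪ (P.image pick ∪ (T \ P).image coin) :=
          Finset.mem_union_left _ ((hY y).2 hy.2)
        have h2 : pick y ∈ C₀ ∪ (((T \ P).biUnion (nbh S st) \ nbh S st x).image pick) := by
          refine Finset.mem_union_right _ (Finset.mem_image_of_mem _ ?_)
          rw [Finset.mem_sdiff, Finset.mem_biUnion]
          refine ⟨⟨y, Finset.mem_sdiff.2 ⟨hy.1, hyP⟩, ?_⟩, Finset.disjoint_left.1 hYx hy.2⟩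
          unfold nbh own
          exact Finset.mem_union_left _ (Finset.mem_filter.2 ⟨hyL, rfl⟩)
        exact Finset.disjoint_left.1 hd h1 h2
      rw [hz, mul_zero]
      exact hrhs
  refine (Finset.sum_le_sum (fun P _ => key P)).trans ?_
  unfold wgtNonBeta
  split_ifs with hn0
  · -- no element outside the history
    refine le_of_eq (Finset.sum_eq_zero ?_)
    intro P _
    rw [if_neg]
    rintro ⟨h1, h2, h3⟩
    apply h3
    refine Finset.Subset.antisymm h1 ?_
    intro y hy
    apply h2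
    rw [Finset.mem_inter]
    refine ⟨hy, ?_⟩
    by_contra hyY
    rw [Finset.card_eq_zero] at hn0
    have : y ∈ T \ Y := Finset.mem_sdiff.2 ⟨hy, hyY⟩
    rw [hn0] at this
    exact absurd this (Finset.notMem_empty y)
  · rw [← Finset.sum_filter]
    set φ : Finset X → ℝ := fun P'' =>
      (θ / a : ℝ) ^ P''.card * (1 / (a' : ℝ)) ^ ((T \ Y).card - P''.card) with hφ
    have hφ0 : ∀ P'', 0 ≤ φ P'' := fun P'' => by
      rw [hφ]
      positivity
    set G := (univ : Finset (Finset X)).filter (fun P => P ⊆ T ∧ T ∩ Y ⊆ P ∧ P ≠ T) with hG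
    have hsum : ∑ P ∈ G, g' ^ m *
        ((θ / a : ℝ) ^ (P \ Y).card * (1 / (a' : ℝ)) ^ ((T \ Y).card - (P \ Y).card)) =
        g' ^ m * ∑ P'' ∈ G.image (fun P => P \ Y), φ P'' := by
      rw [Finset.sum_image, Finset.mul_sum]
      intro P hP Q hQ hPQ
      simp only [hG, Finset.coe_filter, Set.mem_setOf_eq, Finset.mem_univ, true_and] at hP hQ
      simp only at hPQ
      ext y
      constructor
      · intro hy
        by_cases hyY : y ∈ Y
        · exact hQ.2.1 (Finset.mem_inter.2 ⟨hP.1 hy, hyY⟩)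
        · have : y ∈ P \ Y := Finset.mem_sdiff.2 ⟨hy, hyY⟩
          rw [hPQ] at this
          exact (Finset.mem_sdiff.1 this).1
      · intro hy
        by_cases hyY : y ∈ Y
        · exact hP.2.1 (Finset.mem_inter.2 ⟨hQ.1 hy, hyY⟩)
        · have : y ∈ Q \ Y := Finset.mem_sdiff.2 ⟨hy, hyY⟩
          rw [← hPQ] at this
          exact (Finset.mem_sdiff.1 this).1
    rw [hsum]
    have hle : ∑ P'' ∈ G.image (fun P => P \ Y), φ P'' ≤ ∑ P'' ∈ (T \ Y).powerset, φ P'' := by
      refine Finset.sum_le_sum_of_subset_of_nonneg ?_ (fun P'' _ _ => hφ0 P'')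
      intro P'' hP''
      rw [Finset.mem_image] at hP''
      obtain ⟨P, hP, rfl⟩ := hP''
      rw [hG, Finset.mem_filter] at hP
      rw [Finset.mem_powerset]
      exact Finset.sdiff_subset_sdiff hP.2.1 (Finset.Subset.refl Y)
    have heq : ∑ P'' ∈ (T \ Y).powerset, φ P'' = (θ / a + 1 / (a' : ℝ)) ^ (T \ Y).card := by
      rw [hφ]
      exact Finset.sum_pow_mul_eq_add_pow _ _ _
    have hfin : (θ / a + 1 / (a' : ℝ)) ^ (T \ Y).card ≤ (2 / (a' : ℝ)) ^ (T \ Y).card := by
      refine pow_le_pow_left₀ (by positivity) ?_ _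
      have : (2 / (a' : ℝ)) = 1 / a' + 1 / a' := by ring
      rw [this]
      linarith
    refine mul_le_mul_of_nonneg_left ?_ (by positivity)
    calc _ ≤ _ := hle
      _ = _ := heq
      _ ≤ _ := hfin

/-- the core of `wS_non`, with explicit sets of history picks `Y` and history survivors `Zs` -/
theorem wgtNon_core (h : Hyp S st K a B Γ m ρ w g θ δ) (x : X) (g' : ℝ) (a' s : ℕ)
    (hg1 : 1 ≤ g') (ha' : 0 < a') (haa : a' ≤ a) (haK : a' ≤ K) (Y Zs : Finset X)
    (D₀ C₀ : Finset (Fin 3 × X)) (hY : ∀ y, pick y ∈ D₀ ↔ y ∈ Y) (hZ : ∀ y, coin y ∈ D₀ ↔ y ∈ Zs)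
    (hYx : Disjoint Y (nbh S st x)) (hYc : Y.card ≤ s * m) (hZc : Zs.card ≤ s * m) :
    ∑ i ∈ univ.filter (fun i : Finset X × Finset X => ¬ Gnr S st x D₀ i.1),
      (if wgtNonCond S st x i then
        |g'| ^ (i.1.card - 1) / (a' : ℝ) ^ ((i.1.erase x ∩ st.L) \ i.2).card else 0) *
      cnd (pr S st a B θ δ) D₀ C₀
        (i.2.image pick ∪ ((i.1.erase x ∩ st.L) \ i.2).image coin)
        ((((i.1.erase x ∩ st.L) \ i.2).biUnion (nbh S st) \ nbh S st x).image pick) ≤
      ((s * m + 1) ^ m + 3 * (s * m)) * m * g' ^ m * (Γ / K) * (2 * K / a') ^ m := by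
  have hg0 : 0 ≤ g' := by linarith
  set nf : Finset X → ℕ := fun H => ((H.erase x ∩ st.L) \ Y).card with hnf
  set V := S.C.filter (fun H => x ∈ H ∧ H.erase x ⊆ st.R ∪ st.L) with hV
  set NG := V.filter (fun H => ¬ Gnr S st x D₀ H) with hNG
  -- first step: sum over `P`
  have step1 : ∑ i ∈ univ.filter (fun i : Finset X × Finset X => ¬ Gnr S st x D₀ i.1),
      (if wgtNonCond S st x i then
        |g'| ^ (i.1.card - 1) / (a' : ℝ) ^ ((i.1.erase x ∩ st.L) \ i.2).card else 0) *
      cnd (pr S st a B θ δ) D₀ C₀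
        (i.2.image pick ∪ ((i.1.erase x ∩ st.L) \ i.2).image coin)
        ((((i.1.erase x ∩ st.L) \ i.2).biUnion (nbh S st) \ nbh S st x).image pick) ≤
      ∑ H ∈ NG, wgtNonBeta g' a' m (nf H) := by
    rw [Finset.sum_filter, Fintype.sum_prod_type]
    have e2 : ∑ H ∈ NG, wgtNonBeta g' a' m (nf H) =
        ∑ H : Finset X, if H ∈ NG then wgtNonBeta g' a' m (nf H) else 0 := by
      rw [Finset.sum_ite_mem, Finset.univ_inter]
    rw [e2]
    refine Finset.sum_le_sum ?_
    intro H _
    by_cases hHN : H ∈ NG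
    · rw [if_pos hHN]
      rw [hNG, Finset.mem_filter, hV, Finset.mem_filter] at hHN
      simp only [if_pos hHN.2]
      exact wgtNon_inner h x g' a' hg1 ha' haa Y D₀ C₀ hY hYx H hHN.1.1
    · rw [if_neg hHN]
      refine le_of_eq (Finset.sum_eq_zero ?_)
      intro P _
      by_cases hGn : ¬ Gnr S st x D₀ H
      · rw [if_pos hGn, if_neg, zero_mul]
        rintro ⟨h1, h2, h3, _⟩
        apply hHN
        rw [hNG, Finset.mem_filter, hV, Finset.mem_filter]
        exact ⟨⟨h1, h2, h3⟩, hGn⟩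
      · rw [if_neg hGn]
  refine step1.trans ?_
  -- the cover
  set 𝒜 := Y.powerset.filter (fun A' => A'.card ≤ m) with h𝒜
  let Wa : Finset X → Finset (Finset X) := fun A' =>
    V.filter (fun H => (H.erase x ∩ st.L) ∩ Y = A' ∧ A'.Nonempty)
  let Wb : E → Finset (Finset X) := fun f =>
    V.filter (fun H => (H.erase x ∩ st.L) ∩ Y = ∅ ∧ ∃ y ∈ H.erase x ∩ st.L, S.ed y = f)
  let Wc : N → Finset (Finset X) := fun ν =>
    V.filter (fun H => (H.erase x ∩ st.L) ∩ Y = ∅ ∧ ∃ y ∈ H.erase x ∩ st.L, ν ∈ S.nd y)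
  have hVm : ∀ H ∈ V, nf H ≤ m := by
    intro H hH
    rw [hV, Finset.mem_filter] at hH
    have h1 : (H.erase x ∩ st.L) \ Y ⊆ H :=
      (Finset.sdiff_subset.trans Finset.inter_subset_left).trans (Finset.erase_subset _ _)
    exact (Finset.card_le_card h1).trans (h.good.card_le H hH.1)
  set τ : ℝ := m * (g' ^ m * (Γ / K) * (2 * K / a') ^ m) with hτ
  have hτ0 : 0 ≤ τ := by positivity
  have injE : ∀ H₁ H₂ : Finset X, x ∈ H₁ → x ∈ H₂ → H₁.erase x = H₂.erase x → H₁ = H₂ := by
    intro H₁ H₂ h1 h2 h12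
    rw [← Finset.insert_erase h1, h12, Finset.insert_erase h2]
  have ha1 : ∀ A', ∑ H ∈ Wa A', wgtNonBeta g' a' m (nf H) ≤ τ := by
    intro A'
    refine wgtNon_level (Wa A') nf g' a' K Γ m hg1 ha' haK
      (fun H hH => hVm H (Finset.mem_filter.1 hH).1) ?_
    intro n
    by_cases hA' : A'.Nonempty
    swap
    · have : (Wa A').filter (fun H => nf H = n) = ∅ := by
        rw [Finset.filter_eq_empty_iff]
        intro H hH
        exact absurd (Finset.mem_filter.1 hH).2.2 hA'
      rw [this]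
      simp
    obtain ⟨y, hy⟩ := hA'
    refine le_trans ?_ (h.inv.crude (Fm.f1 x y) (A'.erase y) n)
    unfold cnt
    refine Finset.card_le_card_of_injOn (fun H => H \ {x, y}) ?_ ?_
    · intro H hH
      rw [Finset.mem_coe, Finset.mem_filter, Finset.mem_filter, hV, Finset.mem_filter] at hH
      obtain ⟨⟨⟨hHC, hxH, hRL⟩, hTY, _⟩, hn⟩ := hH
      have hyT : y ∈ H.erase x ∩ st.L := by
        rw [← hTY] at hy
        exact (Finset.mem_inter.1 hy).1
      have hyH : y ∈ H.erase x := (Finset.mem_inter.1 hyT).1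
      have hyx : y ≠ x := (Finset.mem_erase.1 hyH).1
      rw [Finset.mem_coe, Finset.mem_filter]
      refine ⟨?_, ?_, ?_, ?_⟩
      · simp only [Fm.sets, Finset.mem_image, Finset.mem_filter]
        exact ⟨H, ⟨hHC, hyx.symm, hxH, (Finset.mem_erase.1 hyH).2⟩, rfl⟩
      · intro u hu
        rw [Finset.mem_erase, ← hTY, Finset.mem_inter, Finset.mem_inter, Finset.mem_erase] at hu
        rw [Finset.mem_sdiff, Finset.mem_insert, Finset.mem_singleton]
        exact ⟨hu.2.1.1.2, fun hh => hh.elim hu.2.1.1.1 hu.1⟩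
      · intro u hu
        rw [Finset.mem_sdiff, Finset.mem_sdiff, Finset.mem_insert] at hu
        exact hRL (Finset.mem_erase.2 ⟨fun hh => hu.1.2 (Or.inl hh), hu.1.1⟩)
      · rw [← hn, hnf]
        congr 1
        ext u
        simp only [Finset.mem_inter, Finset.mem_sdiff, Finset.mem_insert, Finset.mem_singleton,
          Finset.mem_erase]
        constructor
        · rintro ⟨⟨⟨h1, h2⟩, h3⟩, h4⟩
          refine ⟨⟨⟨fun hh => h2 (Or.inl hh), h1⟩, h4⟩, fun hh => h3 ⟨fun h5 => h2 (Or.inr h5), ?_⟩⟩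
          rw [← hTY, Finset.mem_inter, Finset.mem_inter, Finset.mem_erase]
          exact ⟨⟨⟨fun hh => h2 (Or.inl hh), h1⟩, h4⟩, hh⟩
        · rintro ⟨⟨⟨h1, h2⟩, h3⟩, h4⟩
          have huy : u ≠ y := by
            rintro rfl
            rw [← hTY] at hy
            exact h4 (Finset.mem_inter.1 hy).2
          refine ⟨⟨⟨h2, fun hh => hh.elim h1 huy⟩, fun hh => h4 ?_⟩, h3⟩
          have := hh.2
          rw [← hTY] at this
          exact (Finset.mem_inter.1 this).2
    · intro H₁ hH₁ H₂ hH₂ h12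
      rw [Finset.mem_coe, Finset.mem_filter, Finset.mem_filter, hV, Finset.mem_filter] at hH₁ hH₂
      obtain ⟨⟨⟨_, hx1, _⟩, hT1, _⟩, _⟩ := hH₁
      obtain ⟨⟨⟨_, hx2, _⟩, hT2, _⟩, _⟩ := hH₂
      have hy1 : y ∈ H₁ := by
        rw [← hT1] at hy
        exact (Finset.mem_erase.1 (Finset.mem_inter.1 (Finset.mem_inter.1 hy).1).1).2
      have hy2 : y ∈ H₂ := by
        rw [← hT2] at hy
        exact (Finset.mem_erase.1 (Finset.mem_inter.1 (Finset.mem_inter.1 hy).1).1).2
      simp only at h12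
      ext u
      by_cases hux : u = x
      · rw [hux]
        exact ⟨fun _ => hx2, fun _ => hx1⟩
      by_cases huy : u = y
      · rw [huy]
        exact ⟨fun _ => hy2, fun _ => hy1⟩
      have hnot : u ∉ ({x, y} : Finset X) := by
        rw [Finset.mem_insert, Finset.mem_singleton]
        exact fun hh => hh.elim hux huy
      constructor
      · intro hu
        have : u ∈ H₁ \ {x, y} := Finset.mem_sdiff.2 ⟨hu, hnot⟩
        rw [h12] at this
        exact (Finset.mem_sdiff.1 this).1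
      · intro hu
        have : u ∈ H₂ \ {x, y} := Finset.mem_sdiff.2 ⟨hu, hnot⟩
        rw [← h12] at this
        exact (Finset.mem_sdiff.1 this).1
  have hb1 : ∀ f, ∑ H ∈ Wb f, wgtNonBeta g' a' m (nf H) ≤ τ := by
    intro f
    refine wgtNon_level (Wb f) nf g' a' K Γ m hg1 ha' haK
      (fun H hH => hVm H (Finset.mem_filter.1 hH).1) ?_
    intro n
    refine le_trans ?_ (h.inv.crude (Fm.f3 x f) ∅ n)
    unfold cnt
    refine Finset.card_le_card_of_injOn (fun H => H.erase x) ?_ ?_
    · intro H hH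
      rw [Finset.mem_coe, Finset.mem_filter, Finset.mem_filter, hV, Finset.mem_filter] at hH
      obtain ⟨⟨⟨hHC, hxH, hRL⟩, hTY, y, hyT, hyf⟩, hn⟩ := hH
      have hyH : y ∈ H.erase x := (Finset.mem_inter.1 hyT).1
      rw [Finset.mem_coe, Finset.mem_filter]
      refine ⟨?_, Finset.empty_subset _, ?_, ?_⟩
      · simp only [Fm.sets, Finset.mem_image, Finset.mem_filter]
        exact ⟨H, ⟨hHC, hxH, y, (Finset.mem_erase.1 hyH).2, (Finset.mem_erase.1 hyH).1, hyf⟩, rfl⟩
      · rw [Finset.sdiff_empty]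
        exact hRL
      · rw [Finset.sdiff_empty, ← hn, hnf]
        simp only
        rw [Finset.sdiff_eq_self_of_disjoint (Finset.disjoint_iff_inter_eq_empty.2 hTY)]
    · intro H₁ hH₁ H₂ hH₂ h12
      rw [Finset.mem_coe, Finset.mem_filter, Finset.mem_filter, hV, Finset.mem_filter] at hH₁ hH₂
      exact injE H₁ H₂ hH₁.1.1.2.1 hH₂.1.1.2.1 h12
  have hc1 : ∀ ν, ∑ H ∈ Wc ν, wgtNonBeta g' a' m (nf H) ≤ τ := by
    intro ν
    refine wgtNon_level (Wc ν) nf g' a' K Γ m hg1 ha' haK
      (fun H hH => hVm H (Finset.mem_filter.1 hH).1) ?_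
    intro n
    refine le_trans ?_ (h.inv.crude (Fm.f2 x ν) ∅ n)
    unfold cnt
    refine Finset.card_le_card_of_injOn (fun H => H.erase x) ?_ ?_
    · intro H hH
      rw [Finset.mem_coe, Finset.mem_filter, Finset.mem_filter, hV, Finset.mem_filter] at hH
      obtain ⟨⟨⟨hHC, hxH, hRL⟩, hTY, y, hyT, hyf⟩, hn⟩ := hH
      have hyH : y ∈ H.erase x := (Finset.mem_inter.1 hyT).1
      rw [Finset.mem_coe, Finset.mem_filter]
      refine ⟨?_, Finset.empty_subset _, ?_, ?_⟩
      · simp only [Fm.sets, Finset.mem_image, Finset.mem_filter]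
        exact ⟨H, ⟨hHC, hxH, y, (Finset.mem_erase.1 hyH).2, (Finset.mem_erase.1 hyH).1, hyf⟩, rfl⟩
      · rw [Finset.sdiff_empty]
        exact hRL
      · rw [Finset.sdiff_empty, ← hn, hnf]
        simp only
        rw [Finset.sdiff_eq_self_of_disjoint (Finset.disjoint_iff_inter_eq_empty.2 hTY)]
    · intro H₁ hH₁ H₂ hH₂ h12
      rw [Finset.mem_coe, Finset.mem_filter, Finset.mem_filter, hV, Finset.mem_filter] at hH₁ hH₂
      exact injE H₁ H₂ hH₁.1.1.2.1 hH₂.1.1.2.1 h12
  set Js : Finset (Finset X ⊕ (E ⊕ N)) :=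
    𝒜.disjSum ((Zs.image S.ed).disjSum (Zs.biUnion S.nd)) with hJs
  have hcov := wgtNon_cover Js NG (Sum.elim Wa (Sum.elim Wb Wc))
    (fun H => wgtNonBeta g' a' m (nf H)) (fun H => wgtNonBeta_nonneg g' a' m _ hg1) τ
    (by
      intro H hH
      rw [hNG, Finset.mem_filter] at hH
      obtain ⟨hHV, hnG⟩ := hH
      by_cases hTY : (H.erase x ∩ st.L) ∩ Y = ∅
      · unfold Gnr at hnG
        push Not at hnG
        obtain ⟨y, hyT, hy⟩ := hnG
        have hyY : y ∉ Y := by
          intro hh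
          have : y ∈ (H.erase x ∩ st.L) ∩ Y := Finset.mem_inter.2 ⟨hyT, hh⟩
          rw [hTY] at this
          exact absurd this (Finset.notMem_empty y)
        obtain ⟨z, hz, hyz⟩ := hy (fun hh => hyY ((hY y).1 hh))
        have hzZ : z ∈ Zs := (hZ z).1 hz
        by_cases hed : S.ed y = S.ed z
        · refine ⟨Sum.inr (Sum.inl (S.ed z)), ?_, ?_⟩
          · rw [hJs, Finset.inr_mem_disjSum, Finset.inl_mem_disjSum]
            exact Finset.mem_image_of_mem _ hzZ
          · exact Finset.mem_filter.2 ⟨hHV, hTY, y, hyT, hed⟩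
        · have hnd := hyz hed
          rw [Finset.not_disjoint_iff] at hnd
          obtain ⟨ν, hν1, hν2⟩ := hnd
          refine ⟨Sum.inr (Sum.inr ν), ?_, ?_⟩
          · rw [hJs, Finset.inr_mem_disjSum, Finset.inr_mem_disjSum]
            exact Finset.mem_biUnion.2 ⟨z, hzZ, hν2⟩
          · exact Finset.mem_filter.2 ⟨hHV, hTY, y, hyT, hν1⟩
      · refine ⟨Sum.inl ((H.erase x ∩ st.L) ∩ Y), ?_, ?_⟩
        · rw [hJs, Finset.inl_mem_disjSum, h𝒜, Finset.mem_filter, Finset.mem_powerset]
          refine ⟨Finset.inter_subset_right, ?_⟩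
          rw [hV, Finset.mem_filter] at hHV
          have h1 : (H.erase x ∩ st.L) ∩ Y ⊆ H :=
            (Finset.inter_subset_left.trans Finset.inter_subset_left).trans (Finset.erase_subset _ _)
          exact (Finset.card_le_card h1).trans (h.good.card_le H hHV.1)
        · exact Finset.mem_filter.2 ⟨hHV, rfl, Finset.nonempty_iff_ne_empty.2 hTY⟩)
    (by
      intro j _
      rcases j with A' | f | ν
      · exact ha1 A'
      · exact hb1 f
      · exact hc1 ν)
  refine hcov.trans ?_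
  have hJc : (Js.card : ℝ) ≤ (s * m + 1) ^ m + 3 * (s * m) := by
    have h1 : 𝒜.card ≤ (s * m + 1) ^ m :=
      (wgtNon_card_small Y m).trans (Nat.pow_le_pow_left (by omega) _)
    have h2 : (Zs.image S.ed).card ≤ s * m := Finset.card_image_le.trans hZc
    have h3 : (Zs.biUnion S.nd).card ≤ 2 * (s * m) := by
      refine (Finset.card_biUnion_le).trans ?_
      refine (Finset.sum_le_card_nsmul Zs _ 2 (fun z _ => h.good.nd_card z)).trans ?_
      rw [smul_eq_mul]
      omega
    have h4 : Js.card ≤ (s * m + 1) ^ m + 3 * (s * m) := by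
      rw [hJs, Finset.card_disjSum, Finset.card_disjSum]
      omega
    exact_mod_cast h4
  calc (Js.card : ℝ) * τ ≤ ((s * m + 1) ^ m + 3 * (s * m)) * τ :=
        mul_le_mul_of_nonneg_right hJc hτ0
    _ = _ := by
        rw [hτ]
        ring

theorem wS_non (h : Hyp S st K a B Γ m ρ w g θ δ) (x : X) (hx : x ∈ st.L) (g' : ℝ) (a' s : ℕ)
    (hg1 : 1 ≤ g') (ha' : 0 < a') (haa : a' ≤ a) (haK : a' ≤ K)
    (hh : Finset (wS S st g' a' x).ι) (hcard : hh.card ≤ s)
    (hw : ∀ i ∈ hh, (wS S st g' a' x).w i ≠ 0)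
    (hd : Disjoint (hh.biUnion (wS S st g' a' x).D) (hh.biUnion (wS S st g' a' x).C)) :
    ∑ i ∈ univ.filter (fun i : Finset X × Finset X =>
        ¬ Gnr S st x (hh.biUnion (wS S st g' a' x).D) i.1),
      (wS S st g' a' x).w i * cnd (pr S st a B θ δ) (hh.biUnion (wS S st g' a' x).D)
        (hh.biUnion (wS S st g' a' x).C) ((wS S st g' a' x).D i) ((wS S st g' a' x).C i) ≤
      ((s * m + 1) ^ m + 3 * (s * m)) * m * g' ^ m * (Γ / K) * (2 * K / a') ^ m := by
  have e : ∀ i : Finset X × Finset X, (wS S st g' a' x).w i = if wgtNonCond S st x i then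
      |g'| ^ (i.1.card - 1) / (a' : ℝ) ^ ((i.1.erase x ∩ st.L) \ i.2).card else 0 := by
    intro i
    by_cases hcon : wgtNonCond S st x i
    · rw [if_pos hcon]
      exact if_pos hcon
    · rw [if_neg hcon]
      exact if_neg hcon
  have hcond : ∀ i ∈ hh, wgtNonCond S st x i := by
    intro i hi
    by_contra hcon
    exact hw i hi (if_neg hcon)
  let hh' : Finset (Finset X × Finset X) := hh
  have hcond' : ∀ i ∈ hh', wgtNonCond S st x i := hcond
  have hcard' : hh'.card ≤ s := hcard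
  have hD : hh.biUnion (wS S st g' a' x).D = hh'.biUnion (fun i =>
      i.2.image pick ∪ ((i.1.erase x ∩ st.L) \ i.2).image coin) := rfl
  have hcore := wgtNon_core h x g' a' s hg1 ha' haa haK
    (hh'.biUnion (fun i => i.2)) (hh'.biUnion (fun i => (i.1.erase x ∩ st.L) \ i.2))
    (hh.biUnion (wS S st g' a' x).D) (hh.biUnion (wS S st g' a' x).C)
    (by
      intro y
      rw [hD, Finset.mem_biUnion, Finset.mem_biUnion]
      constructor
      · rintro ⟨i, hi, hy⟩
        refine ⟨i, hi, ?_⟩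
        rw [Finset.mem_union, Finset.mem_image, Finset.mem_image] at hy
        rcases hy with ⟨z, hz, hzy⟩ | ⟨z, hz, hzy⟩
        · have : z = y := (Prod.mk.inj hzy).2
          rw [← this]
          exact hz
        · exact absurd (Prod.mk.inj hzy).1 (by decide)
      · rintro ⟨i, hi, hy⟩
        exact ⟨i, hi, Finset.mem_union_left _ (Finset.mem_image_of_mem _ hy)⟩)
    (by
      intro y
      rw [hD, Finset.mem_biUnion, Finset.mem_biUnion]
      constructor
      · rintro ⟨i, hi, hy⟩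
        refine ⟨i, hi, ?_⟩
        rw [Finset.mem_union, Finset.mem_image, Finset.mem_image] at hy
        rcases hy with ⟨z, hz, hzy⟩ | ⟨z, hz, hzy⟩
        · exact absurd (Prod.mk.inj hzy).1 (by decide)
        · have : z = y := (Prod.mk.inj hzy).2
          rw [← this]
          exact hz
      · rintro ⟨i, hi, hy⟩
        exact ⟨i, hi, Finset.mem_union_right _ (Finset.mem_image_of_mem _ hy)⟩)
    (by
      rw [Finset.disjoint_biUnion_left]
      intro i hi
      exact (hcond' i hi).2.2.2.2.2)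
    (by
      refine (Finset.card_biUnion_le).trans ?_
      refine (Finset.sum_le_card_nsmul hh' _ m ?_).trans ?_
      · intro i hi
        have h1 := hcond' i hi
        exact (Finset.card_le_card ((h1.2.2.2.1.trans Finset.inter_subset_left).trans
          (Finset.erase_subset _ _))).trans (h.good.card_le _ h1.1)
      · rw [smul_eq_mul]
        exact Nat.mul_le_mul_right _ hcard')
    (by
      refine (Finset.card_biUnion_le).trans ?_
      refine (Finset.sum_le_card_nsmul hh' _ m ?_).trans ?_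
      · intro i hi
        have h1 := hcond' i hi
        exact (Finset.card_le_card ((Finset.sdiff_subset.trans Finset.inter_subset_left).trans
          (Finset.erase_subset _ _))).trans (h.good.card_le _ h1.1)
      · rw [smul_eq_mul]
        exact Nat.mul_le_mul_right _ hcard')
  refine le_trans (le_of_eq ?_) hcore
  refine Finset.sum_congr rfl (fun i _ => ?_)
  rw [e i]
  rfl

theorem wS_bdd (h : Hyp S st K a B Γ m ρ w g θ δ) (x : X) (hx : x ∈ st.L) (g' : ℝ) (a' s : ℕ)
    (hg1 : 1 ≤ g') (hgg : g' ≤ g) (ha' : 0 < a') (haa : a' ≤ a) (haK : a' ≤ K)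
    (hg : g' * (θ + (a / a' : ℝ) *
      (1 - θ / a) ^ (a + B - (m + 1 + s * m) * (7 * Γ + 6))) ≤ g) :
    (wS S st g' a' x).Bdd (pr S st a B θ δ) s
      (w + ((s * m + 1) ^ m + 3 * (s * m)) * m * g' ^ m * (Γ / K) * (2 * K / a') ^ m) := by
  intro hh hcard hw hd
  have h1 := wS_gen h x hx g' a' s hg1 hgg ha' hg hh hcard hw
  have h2 := wS_non h x hx g' a' s hg1 ha' haa haK hh hcard hw hd
  have h3 := Finset.sum_filter_add_sum_filter_not (univ : Finset (Finset X × Finset X))
    (fun i => Gnr S st x (hh.biUnion (wS S st g' a' x).D) i.1)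
    (fun i => (wS S st g' a' x).w i * cnd (pr S st a B θ δ) (hh.biUnion (wS S st g' a' x).D)
        (hh.biUnion (wS S st g' a' x).C) ((wS S st g' a' x).D i) ((wS S st g' a' x).C i))
  refine le_trans (le_of_eq h3.symm) (add_le_add h1 h2)

end Pool.Agent.H77.AC
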