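import Pool.Agent.H77.AC.Ball
import Pool.Agent.H77.AC.Med8
import Pool.Agent.H77.AC.Easy2
import Pool.Agent.H77.AC.WgtNon
import Pool.Agent.H77.AC.KillAB
import Pool.Agent.H77.AC.KillC
import Pool.Agent.H77.AC.NodeS
import Pool.Agent.H77.AC.CrudeS
import Pool.Agent.H77.AC.BlockS
import Pool.Agent.H77.AC.SurvS

/-!
# AC-FAM: the numerical conditions of a round and the families of statistics (definitions)

`RP` = parameters of a state, `Step` = all numerical inequalities used in a round leading from parameters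
`P` to `P'`; `c < 1` is the ratio (conditional bound)/(threshold) of all statistics, `τ K` the threshold
of the small statistics, `m = 2 n₀ + 2`.
-/

set_option autoImplicit false

open Finset
open scoped Classical

namespace Pool.Agent.H77.AC

/-- parameters of a state -/
structure RP where
  a : ℕ
  B : ℕ
  Γ : ℕ
  w : ℝ
  g : ℝ
  D : ℝ
  f : ℝ
  j : ℝ
  M : ℝ
  ζ : ℝ

/-- numerical conditions of a round -/
structure Step (K n₀ r₀ s : ℕ) (ρ θ δ c τ : ℝ) (P P' : RP) : Prop where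
  K0 : 0 < K
  n0 : 1 ≤ n₀
  r0 : 1 ≤ r₀
  s1 : 1 ≤ s
  ρ0 : 0 < ρ
  ρ1 : ρ ≤ 1
  θ0 : 0 < θ
  θ1 : θ ≤ 1
  δ0 : 0 ≤ δ
  δ1 : δ ≤ 1
  ρθ : ρ * θ ≤ 1 - δ
  c0 : 1 / 2 ≤ c
  c1 : c < 1
  τ0 : 0 < τ
  a0 : 0 < P.a
  a'0 : 0 < P'.a
  aa : P'.a ≤ P.a
  aK : P.a ≤ K
  Kθ : K * θ ≤ P.a
  Γ1 : 1 ≤ P.Γ
  w0 : 0 < P.w
  g1 : 1 ≤ P.g
  hB : (2 * ρ + P.w) * P.a ≤ P.B
  D0 : 0 < P.D
  f0 : 0 ≤ P.f
  j0 : 0 < P.j
  M0 : 0 ≤ P.M
  ζ0 : 0 ≤ P.ζ
  /-- lists -/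
  nl : θ * P.B + P.a * (θ ^ 2 * (P.w + 1)) ≤ (P.a : ℝ) - P'.a
  nA : (1 - c) * (θ * P.B) + s * (1 + P.Γ) ≤ c * (θ ^ 2 * P.a / 3)
  nC : (1 - c) * (P.a * (θ ^ 2 * P.w)) +
    (s * (2 * n₀ + 2 : ℕ) + 1) ^ (2 * n₀ + 2) * ((2 * n₀ + 2 : ℕ) + 1) * P.Γ ≤
      c * (θ ^ 2 * P.a / 3)
  /-- nodes -/
  nN : ∀ N : ℕ, (N : ℝ) ≤ ρ * P.a →
    s + N * (1 - θ / P.a) ^ (P.a + P.B - N - s * (7 * P.Γ + 6)) ≤ c * (ρ * P'.a)
  /-- weights -/
  g'1 : 1 ≤ P'.g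
  gg : P'.g ≤ P.g
  nG : P'.g * (θ + (P.a / P'.a : ℝ) *
    (1 - θ / P.a) ^ (P.a + P.B - ((2 * n₀ + 2) + 1 + s * (2 * n₀ + 2)) * (7 * P.Γ + 6))) ≤ P.g
  nW : P.w + ((s * (2 * n₀ + 2 : ℕ) + 1) ^ (2 * n₀ + 2) + 3 * (s * (2 * n₀ + 2 : ℕ))) *
    (2 * n₀ + 2 : ℕ) * P'.g ^ (2 * n₀ + 2) * (P.Γ / K) * (2 * K / P'.a) ^ (2 * n₀ + 2) ≤
      c * P'.w
  /-- crude -/
  nΓ : (s * (2 * (2 * n₀ + 2) : ℕ) + 1 : ℝ) ^ (2 * (2 * n₀ + 2)) *
    ((2 * (2 * n₀ + 2) : ℕ) + 1) * 2 ^ (2 * (2 * n₀ + 2)) * P.Γ ≤ c * P'.Γ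
  nZ1 : mu9 r₀ (s * (r₀ + 1)) P.Γ ≤ c * ((P'.Γ : ℝ) - P.Γ)
  /-- second path invariant -/
  nZ2 : K ^ 2 * (θ / P.a) *
    (∑ n ∈ Icc (2 * n₀ + 3) r₀, (n : ℝ) * (1 - δ) ^ (n - 1)) +
      (s * (r₀ + 1) : ℕ) * mu9 r₀ (s * (r₀ + 1)) P.Γ ≤ c * ((P'.ζ - P.ζ) * K)
  /-- degrees -/
  nD : 2 * s + P.D * (1 - θ / P.a) ^ P.a ≤ c * P'.D
  nJ : 2 * s + P.j * (1 - θ / P.a) ^ P.a ≤ c * ((1 - θ / 2) * P.j)
  /-- small statistics -/
  n1 : (s : ℝ) ≤ τ * K / 2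
  n2 : θ ^ 2 * P.D + 6 * s + 8 * s ^ 2 ≤ c * (τ * K)
  n3 : K * θ * δ + 6 * s + 8 * s ^ 2 ≤ c * (τ * K)
  n4 : K * (θ ^ 2 * (1 + 2 * ρ)) + 12 * s + 8 * s ^ 2 ≤ c * (τ * K)
  n5 : K * (θ ^ 2 * P.w) + (s * (2 * n₀ + 2 : ℕ) + 1) ^ (2 * n₀ + 2) * (2 * n₀ + 2 : ℕ) *
    (P.w + ((2 * n₀ + 2 : ℕ) + 2) * P.Γ) ≤ c * (τ * K)
  n6 : 2 * K * (θ / P.a) * (P.ζ * K) +
    2 * K * θ * (K * θ / P.a) * (∑ n ∈ Icc (2 * n₀ + 3) r₀, (n : ℝ) * (1 - δ) ^ (n - 1)) +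
    2 * (s * (r₀ + 1) : ℕ) * P.Γ +
    6 * (s * (r₀ + 1) : ℕ) * mu9 r₀ (s * (r₀ + 1)) P.Γ ≤ c * (τ * K)
  n7 : δ * K + 2 * s ≤ c * (τ * K)
  /-- new parameters -/
  eD : P'.D = (1 - θ / 2) * P.D
  ej : (1 - θ / 2) * P.j + 4 * θ * P.D + 3 * (τ * K) ≤ P'.j
  ef : P.f + 4 * (τ * K) ≤ P'.f
  eM : P.M + 14 * (τ * K) + 4 * (K * (θ / P.a) * P.f) ≤ P'.M

/-- bound for supports and for the number of supports through a variable -/
def Mloc (K n₀ r₀ : ℕ) : ℕ :=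
  (8 * (2 * n₀ + 2) * (K + 1)) ^ ((r₀ + 4 * (2 * n₀ + 2) + 10) * (4 * (2 * n₀ + 2) + 8))

section

variable {V : Type} [Fintype V] [DecidableEq V] {K : ℕ}
variable (G : SimpleGraph V) (n₀ r₀ : ℕ) (st : St (PX V K) (Sym2 V)) (θ τ ρ : ℝ) (P P' : RP)

noncomputable def fam1 : Famly (Fin 3 × PX V K) where
  J := {e : Sym2 V // e ∈ st.U}
  fin := inferInstance
  X := fun e => kA (gS G K n₀) st e.1
  lam := fun e => θ / P.a * ∑ x ∈ own (gS G K n₀) st e.1, ((conf (gS G K n₀) st x).card : ℝ) +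
    θ ^ 2 * P.a / 3

noncomputable def fam2 : Famly (Fin 3 × PX V K) where
  J := {e : Sym2 V // e ∈ st.U}
  fin := inferInstance
  X := fun e => kB (gS G K n₀) st e.1
  lam := fun e => θ / P.a * ∑ x ∈ own (gS G K n₀) st e.1,
    ((P.B : ℝ) - (conf (gS G K n₀) st x).card) + θ ^ 2 * P.a / 3

noncomputable def fam3 : Famly (Fin 3 × PX V K) where
  J := {e : Sym2 V // e ∈ st.U}
  fin := inferInstance
  X := fun e => kC (gS G K n₀) st e.1
  lam := fun _ => P.a * (θ ^ 2 * P.w) + θ ^ 2 * P.a / 3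

noncomputable def fam4 : Famly (Fin 3 × PX V K) where
  J := V × Fin K
  fin := inferInstance
  X := fun ν => nS (gS G K n₀) st ν
  lam := fun _ => ρ * P'.a

noncomputable def fam5 : Famly (Fin 3 × PX V K) where
  J := {x : PX V K // x ∈ st.L}
  fin := inferInstance
  X := fun x => wS (gS G K n₀) st P'.g P'.a x.1
  lam := fun _ => P'.w

/-- indices of crude statistics which can be nonzero -/
def CJ (V : Type) [Fintype V] [DecidableEq V] (G : SimpleGraph V) (K n₀ : ℕ) : Type :=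
  {j : Fm (PX V K) (Sym2 V) (V × Fin K) × Finset (PX V K) × Fin (2 * (2 * n₀ + 2) + 1) //
    ∃ Q ∈ j.1.sets (gS G K n₀), j.2.1 ⊆ Q}

noncomputable instance fmFintype : Fintype (Fm (PX V K) (Sym2 V) (V × Fin K)) :=
  Fintype.ofInjective
    (β := (PX V K × PX V K) ⊕ (PX V K × V × Fin K) ⊕ (PX V K × Sym2 V) ⊕ (PX V K × PX V K))
    (fun φ => match φ with
      | .f1 x y => Sum.inl (x, y)
      | .f2 x ν => Sum.inr (Sum.inl (x, ν))
      | .f3 x e => Sum.inr (Sum.inr (Sum.inl (x, e)))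
      | .f4 z z' => Sum.inr (Sum.inr (Sum.inr (z, z'))))
    (by
      intro φ φ' h
      cases φ <;> cases φ' <;> simp_all)

noncomputable instance cjFintype : Fintype (CJ V G K n₀) := by
  unfold CJ
  infer_instance

noncomputable def fam6 : Famly (Fin 3 × PX V K) where
  J := CJ V G K n₀
  fin := inferInstance
  X := fun j => cS st (j.1.1.sets (gS G K n₀)) j.1.2.1 j.1.2.2
  lam := fun j => ((K ^ ((j.1.2.2 : ℕ) - 1) * P'.Γ : ℕ) : ℝ)

noncomputable def fam7 : Famly (Fin 3 × PX V K) where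
  J := V
  fin := inferInstance
  X := fun v => sD (gS G K n₀) st v
  lam := fun _ => P'.D

noncomputable def fam8 : Famly (Fin 3 × PX V K) where
  J := {i : V × V // G.Adj i.1 i.2}
  fin := inferInstance
  X := fun i => sJ (gS G K n₀) st i.1.1 i.1.2
  lam := fun _ => (1 - θ / 2) * P.j

noncomputable def fam9 : Famly (Fin 3 × PX V K) where
  J := {i : V × V // G.Adj i.1 i.2}
  fin := inferInstance
  X := fun i => nJ st (fun e => e ∈ st.U) i.1.1 i.1.2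
  lam := fun _ => 2 * θ * P.D + τ * K

noncomputable def fam10 : Famly (Fin 3 × PX V K) where
  J := {i : V × V // G.Adj i.1 i.2}
  fin := inferInstance
  X := fun i => nJ st (FE G st) i.1.1 i.1.2
  lam := fun _ => 2 * (K * (θ / P.a) * P.f) + τ * K

noncomputable def fam11 : Famly (Fin 3 × PX V K) where
  J := {i : V × V // G.Adj i.1 i.2}
  fin := inferInstance
  X := fun i => nP st i.1.1 i.1.2
  lam := fun _ => τ * K

noncomputable def fam12 : Famly (Fin 3 × PX V K) where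
  J := {i : V × V // G.Adj i.1 i.2}
  fin := inferInstance
  X := fun i => nD st i.1.1 i.1.2
  lam := fun _ => τ * K

noncomputable def fam13 : Famly (Fin 3 × PX V K) where
  J := {i : V × V // G.Adj i.1 i.2}
  fin := inferInstance
  X := fun i => nB st i.1.1 i.1.2
  lam := fun _ => τ * K

noncomputable def fam14 : Famly (Fin 3 × PX V K) where
  J := V
  fin := inferInstance
  X := fun v => iS (gS G K n₀) st (stU st v)
  lam := fun _ => τ * K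

noncomputable def fam15 : Famly (Fin 3 × PX V K) where
  J := {i : V × V // G.Adj i.1 i.2}
  fin := inferInstance
  X := fun i => iS (gS G K n₀) st (jE st i.1.1 i.1.2)
  lam := fun _ => τ * K

noncomputable def fam16 : Famly (Fin 3 × PX V K) where
  J := V
  fin := inferInstance
  X := fun v => bS (gS G K n₀) st (stU st v)
  lam := fun _ => τ * K

noncomputable def fam17 : Famly (Fin 3 × PX V K) where
  J := {i : V × V // G.Adj i.1 i.2}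
  fin := inferInstance
  X := fun i => bS (gS G K n₀) st (jE st i.1.1 i.1.2)
  lam := fun _ => τ * K

noncomputable def fam18 : Famly (Fin 3 × PX V K) where
  J := V
  fin := inferInstance
  X := fun v => mS (gS G K n₀) st (2 * n₀ + 3) r₀ (stU st v)
  lam := fun _ => τ * K

noncomputable def fam19 : Famly (Fin 3 × PX V K) where
  J := {i : V × V // G.Adj i.1 i.2}
  fin := inferInstance
  X := fun i => mS (gS G K n₀) st (2 * n₀ + 3) r₀ (jE st i.1.1 i.1.2)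
  lam := fun _ => τ * K

noncomputable def fam20 : Famly (Fin 3 × PX V K) where
  J := V
  fin := inferInstance
  X := fun v => dD st v
  lam := fun _ => τ * K

noncomputable def fam21 : Famly (Fin 3 × PX V K) where
  J := {i : V × V // G.Adj i.1 i.2}
  fin := inferInstance
  X := fun i => dJ st i.1.1 i.1.2
  lam := fun _ => τ * K

noncomputable def fam22 : Famly (Fin 3 × PX V K) where
  J := {i : V × V × Fin K // i.1 ≠ i.2.1 ∧ i.2.1 ∈ ballG G r₀ i.1}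
  fin := inferInstance
  X := fun i => pathS (gS G K n₀) st r₀ (Φ1 r₀ i.1.1 i.1.2.1 i.1.2.2)
  lam := fun _ => (P'.Γ : ℝ) - P.Γ

noncomputable def fam23 : Famly (Fin 3 × PX V K) where
  J := {i : V × V // i.1 ≠ i.2 ∧ i.2 ∈ ballG G r₀ i.1}
  fin := inferInstance
  X := fun i => pathS (gS G K n₀) st r₀ (Φ2 r₀ (2 * n₀ + 3) i.1.1 i.1.2)
  lam := fun _ => (P'.ζ - P.ζ) * K

end

/-- everything known about a state -/
structure Full {V : Type} [Fintype V] [DecidableEq V] {K : ℕ} (G : SimpleGraph V) (n₀ r₀ s Δ : ℕ)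
    (ρ θ δ c τ : ℝ) (P P' : RP) (st : St (PX V K) (Sym2 V)) : Prop where
  deg : ∀ v, (univ.filter (fun u => G.Adj v u)).card ≤ Δ
  ΔK : Δ ≤ K
  step : Step K n₀ r₀ s ρ θ δ c τ P P'
  inv : Inv (gS G K n₀) st K P.a P.Γ ρ P.w P.g
  ginv : GInv G n₀ r₀ st P.Γ P.D P.f P.j P.M P.ζ

theorem Full.hyp {V : Type} [Fintype V] [DecidableEq V] {K : ℕ} {G : SimpleGraph V}
    {n₀ r₀ s Δ : ℕ} {ρ θ δ c τ : ℝ} {P P' : RP} {st : St (PX V K) (Sym2 V)}
    (F : Full G n₀ r₀ s Δ ρ θ δ c τ P P' st) :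
    Hyp (gS G K n₀) st K P.a P.B P.Γ (2 * n₀ + 2) ρ P.w P.g θ δ where
  good := gS_good G n₀ F.step.n0
  inv := F.inv
  a0 := F.step.a0
  K0 := F.step.K0
  m0 := by omega
  Kθ := F.step.Kθ
  θ0 := F.step.θ0
  θ1 := F.step.θ1
  ρ0 := F.step.ρ0.le
  ρ1 := F.step.ρ1
  w0 := F.step.w0.le
  g1 := F.step.g1
  Γ1 := F.step.Γ1
  hB := F.step.hB
  δ0 := F.step.δ0
  δ1 := F.step.δ1

end Pool.Agent.H77.AC
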