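import Pool.Agent.H77.AC.Graph

/-!
# AC-GOODG: the system of a graph is good; elementary facts on paths and cycles

* `gS_good`. `ndG (e, c) = {(v, c) : v ∈ e}`: an unordered pair has at most two members (induct on
  `e = s(u, v)`), two different edges have at most one common vertex (`Sym2` ext), pairs on the same edge with
  different colours have disjoint nodes. A cycle `H = image (cstep v b c)` has at most `2 n + 4 ≤ 2 n₀ + 2`
  elements; different elements have different edges (`s(v i, v (i+1)) = s(v j, v (j+1))` with `v`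
  injective on `Fin (2n+4)` forces `i = j`, since `j = i + 1` and `j + 1 = i` is impossible as `2n+4 ≥ 4`)
  and disjoint nodes: a common vertex means consecutive positions `j = i ± 1`, whose colours differ (parities of `i` and
  `i + 1` differ in `Fin (2n+4)`, also at the wrap-around). `H` has at least two elements. `ov1`: `y = (e, z.2)`.
  `ov2`: `y = (s(v, v'), c)` with `v ∈ z.1`, `v' ∈ z'.1` where `(v,c)` is a node of `z`, `(v',c)` one of `z'`; if
  `y` has a node in common with `z` and one with `z'` but none with `nd z ∩ nd z'`, then the two nodes are different,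
  so `y.1 = s(v, v')`: at most `2 * 2` choices.
* `pstep_inj`: the steps of an injective path are different pairs (even different edges).
* `cyc_path`: a cycle `H` of length `2n+4` containing `x` is `x` together with a path of length `2n+3` joining the ends of
  `x`, with colours `b, x.2, b, ..., b`, `b ≠ x.2`: if `x = cstep v b₀ c₀ j`, take
  `v' k = v (j + 1 + k)`, `k ∈ Fin (2n+4)`.
-/

set_option autoImplicit false

open Finset
open scoped Classical

namespace Pool.Agent.H77.AC

variable {V : Type} [Fintype V] [DecidableEq V] {K : ℕ}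

theorem goodG_mem_nd (x : PX V K) (ν : V × Fin K) : ν ∈ ndG x ↔ ν.1 ∈ x.1 ∧ ν.2 = x.2 := by
  unfold ndG
  rw [mem_filter]
  exact ⟨fun h => h.2, fun h => ⟨mem_univ _, h⟩⟩

theorem goodG_not_disj (x y : PX V K) :
    ¬ Disjoint (ndG x) (ndG y) ↔ x.2 = y.2 ∧ ∃ u, u ∈ x.1 ∧ u ∈ y.1 := by
  rw [Finset.not_disjoint_iff]
  constructor
  · rintro ⟨ν, h1, h2⟩
    rw [goodG_mem_nd] at h1 h2
    exact ⟨h1.2.symm.trans h2.2, ν.1, h1.1, h2.1⟩
  · rintro ⟨h1, u, h2, h3⟩
    refine ⟨(u, x.2), ?_, ?_⟩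
    · rw [goodG_mem_nd]
      exact ⟨h2, rfl⟩
    · rw [goodG_mem_nd]
      exact ⟨h3, h1⟩

theorem goodG_verts (e : Sym2 V) : (univ.filter (fun u : V => u ∈ e)).card ≤ 2 := by
  induction e using Sym2.ind with
  | _ x y =>
    refine (card_le_card (t := {x, y}) ?_).trans card_le_two
    intro u hu
    rw [mem_filter] at hu
    rw [mem_insert, mem_singleton]
    exact Sym2.mem_iff.1 hu.2

theorem goodG_succ {n : ℕ} (i : Fin (2 * n + 4)) :
    ((i + 1 : Fin (2 * n + 4)) : ℕ) = if (i : ℕ) = 2 * n + 3 then 0 else (i : ℕ) + 1 := by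
  have h := Fin.val_add_one (n := 2 * n + 3) i
  rw [h]
  by_cases hc : (i : ℕ) = 2 * n + 3
  · rw [if_pos hc, if_pos]
    exact Fin.ext hc
  · rw [if_neg hc, if_neg]
    intro h2
    apply hc
    rw [h2]
    rfl

theorem goodG_cstep_ed {n : ℕ} (v : Fin (2 * n + 4) → V) (hv : Function.Injective v)
    (b c : Fin K) (i j : Fin (2 * n + 4)) (h : (cstep v b c i).1 = (cstep v b c j).1) :
    i = j := by
  have h1 : s(v i, v (i + 1)) = s(v j, v (j + 1)) := h
  rw [Sym2.eq_iff] at h1
  rcases h1 with ⟨h2, _⟩ | ⟨h2, h3⟩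
  · exact hv h2
  · exfalso
    have e1 := congrArg Fin.val (hv h2)
    have e2 := congrArg Fin.val (hv h3)
    rw [goodG_succ] at e1 e2
    split_ifs at e1 e2 <;> omega

theorem goodG_cstep_inj {n : ℕ} (v : Fin (2 * n + 4) → V) (hv : Function.Injective v)
    (b c : Fin K) : Function.Injective (cstep v b c) := fun i j h =>
  goodG_cstep_ed v hv b c i j (congrArg Prod.fst h)

theorem goodG_cstep_nd {n : ℕ} (v : Fin (2 * n + 4) → V) (hv : Function.Injective v)
    (b c : Fin K) (hbc : b ≠ c) (i j : Fin (2 * n + 4)) (hij : i ≠ j) :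
    Disjoint (ndG (cstep v b c i)) (ndG (cstep v b c j)) := by
  by_contra hnd
  rw [goodG_not_disj] at hnd
  obtain ⟨h1, u, h2, h3⟩ := hnd
  have h2' : u ∈ s(v i, v (i + 1)) := h2
  have h3' : u ∈ s(v j, v (j + 1)) := h3
  have h1' : (if (i : ℕ) % 2 = 0 then b else c) = (if (j : ℕ) % 2 = 0 then b else c) := h1
  have hpar : (i : ℕ) % 2 = (j : ℕ) % 2 := by
    by_contra hne
    rcases Nat.mod_two_eq_zero_or_one (i : ℕ) with hi | hi <;>
      rcases Nat.mod_two_eq_zero_or_one (j : ℕ) with hj | hj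
    · omega
    · rw [if_pos hi, if_neg (by omega)] at h1'
      exact hbc h1'
    · rw [if_neg (by omega), if_pos hj] at h1'
      exact hbc h1'.symm
    · omega
  rw [Sym2.mem_iff] at h2' h3'
  have hne : (i : ℕ) ≠ (j : ℕ) := fun hc => hij (Fin.ext hc)
  rcases h2' with h4 | h4 <;> rcases h3' with h5 | h5
  · exact hij (hv (h4.symm.trans h5))
  · have e1 := congrArg Fin.val (hv (h4.symm.trans h5))
    rw [goodG_succ] at e1
    have := j.2
    split_ifs at e1 <;> omega
  · have e1 := congrArg Fin.val (hv (h4.symm.trans h5))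
    rw [goodG_succ] at e1
    have := i.2
    split_ifs at e1 <;> omega
  · exact hij (add_right_cancel (hv (h4.symm.trans h5)))

theorem gS_good (G : SimpleGraph V) (n₀ : ℕ) (hn : 1 ≤ n₀) : (gS G K n₀).Good (2 * n₀ + 2) := by
  have hC : ∀ H ∈ (gS G K n₀).C, ∃ n < n₀, IsCyc G n H := by
    intro H hH
    exact (mem_filter.1 hH).2
  refine ⟨?_, ?_, ?_, ?_, ?_, ?_, ?_, ?_, ?_⟩
  · -- nd_card
    intro x
    show (ndG x).card ≤ 2
    have hsub : ndG x ⊆ (univ.filter (fun u : V => u ∈ x.1)).image (fun u => (u, x.2)) := by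
      intro ν hν
      rw [goodG_mem_nd] at hν
      rw [mem_image]
      refine ⟨ν.1, mem_filter.2 ⟨mem_univ _, hν.1⟩, ?_⟩
      exact Prod.ext rfl hν.2.symm
    exact (card_le_card hsub).trans (card_image_le.trans (goodG_verts x.1))
  · -- nd_inter
    intro x y hxy
    show (ndG x ∩ ndG y).card ≤ 1
    rw [card_le_one]
    intro ν hν ν' hν'
    rw [mem_inter, goodG_mem_nd, goodG_mem_nd] at hν hν'
    by_contra hne
    have hne1 : ν.1 ≠ ν'.1 := by
      intro hc
      apply hne
      exact Prod.ext hc (hν.1.2.trans hν'.1.2.symm)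
    have e1 := (Sym2.mem_and_mem_iff hne1).1 ⟨hν.1.1, hν'.1.1⟩
    have e2 := (Sym2.mem_and_mem_iff hne1).1 ⟨hν.2.1, hν'.2.1⟩
    exact hxy (e1.trans e2.symm)
  · -- same_edge
    intro x y hxy he
    show Disjoint (ndG x) (ndG y)
    by_contra hnd
    rw [goodG_not_disj] at hnd
    exact hxy (Prod.ext he hnd.1)
  · -- card_le
    intro H hH
    obtain ⟨n, hn', v, b, c, hv, _, _, rfl⟩ := hC H hH
    refine card_image_le.trans ?_
    rw [card_univ, Fintype.card_fin]
    omega
  · -- card_ge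
    intro H hH
    obtain ⟨n, hn', v, b, c, hv, _, _, rfl⟩ := hC H hH
    rw [card_image_of_injective _ (goodG_cstep_inj v hv b c), card_univ, Fintype.card_fin]
    omega
  · -- ed_inj
    intro H hH x hx y hy hxy he
    obtain ⟨n, hn', v, b, c, hv, _, _, rfl⟩ := hC H hH
    obtain ⟨i, _, rfl⟩ := mem_image.1 hx
    obtain ⟨j, _, rfl⟩ := mem_image.1 hy
    exact hxy (congrArg _ (goodG_cstep_ed v hv b c i j he))
  · -- nd_disj
    intro H hH x hx y hy hxy
    obtain ⟨n, hn', v, b, c, hv, _, hbc, rfl⟩ := hC H hH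
    obtain ⟨i, _, rfl⟩ := mem_image.1 hx
    obtain ⟨j, _, rfl⟩ := mem_image.1 hy
    exact goodG_cstep_nd v hv b c hbc i j (fun hc => hxy (congrArg _ hc))
  · -- ov1
    intro z e
    rw [card_le_one]
    intro y hy y' hy'
    rw [mem_filter] at hy hy'
    have h1 := (goodG_not_disj y z).1 hy.2.2
    have h2 := (goodG_not_disj y' z).1 hy'.2.2
    exact Prod.ext ((hy.2.1 : y.1 = e).trans (hy'.2.1 : y'.1 = e).symm) (h1.1.trans h2.1.symm)
  · -- ov2
    intro z z' hzz
    have hsub : (univ.filter (fun y => ¬ Disjoint ((gS G K n₀).nd y) ((gS G K n₀).nd z) ∧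
        ¬ Disjoint ((gS G K n₀).nd y) ((gS G K n₀).nd z') ∧
        Disjoint ((gS G K n₀).nd y) ((gS G K n₀).nd z ∩ (gS G K n₀).nd z'))) ⊆
        ((univ.filter (fun u : V => u ∈ z.1)) ×ˢ (univ.filter (fun u : V => u ∈ z'.1))).image
          (fun P => (s(P.1, P.2), z.2)) := by
      intro y hy
      rw [mem_filter] at hy
      obtain ⟨-, hy1, hy2, hy3⟩ := hy
      obtain ⟨c1, u, hu1, hu2⟩ := (goodG_not_disj y z).1 hy1
      obtain ⟨c2, u', hu1', hu2'⟩ := (goodG_not_disj y z').1 hy2
      rw [mem_image]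
      refine ⟨(u, u'), ?_, ?_⟩
      · rw [mem_product, mem_filter, mem_filter]
        exact ⟨⟨mem_univ _, hu2⟩, ⟨mem_univ _, hu2'⟩⟩
      · have hne : u ≠ u' := by
          rintro rfl
          have hy3' : Disjoint (ndG y) (ndG z ∩ ndG z') := hy3
          have m1 : (u, y.2) ∈ ndG y := by
            rw [goodG_mem_nd]
            exact ⟨hu1, rfl⟩
          have m2 : (u, y.2) ∈ ndG z ∩ ndG z' := by
            rw [mem_inter, goodG_mem_nd, goodG_mem_nd]
            exact ⟨⟨hu2, c1⟩, ⟨hu2', c2⟩⟩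
          exact Finset.disjoint_left.1 hy3' m1 m2
        have e1 := (Sym2.mem_and_mem_iff hne).1 ⟨hu1, hu1'⟩
        exact Prod.ext e1.symm c1.symm
    refine (card_le_card hsub).trans (card_image_le.trans ?_)
    rw [card_product]
    have h1 := goodG_verts z.1
    have h2 := goodG_verts z'.1
    exact (Nat.mul_le_mul h1 h2).trans (by norm_num)

theorem pstep_inj {n : ℕ} (v : Fin (n + 1) → V) (hv : Function.Injective v) (b c : Fin K) :
    Function.Injective (fun i => (pstep v b c i).1) := by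
  intro i j h
  have h1 : s(v i.castSucc, v i.succ) = s(v j.castSucc, v j.succ) := h
  rw [Sym2.eq_iff] at h1
  rcases h1 with ⟨h2, _⟩ | ⟨h2, h3⟩
  · exact Fin.castSucc_injective n (hv h2)
  · exfalso
    have e1 := congrArg Fin.val (hv h2)
    have e2 := congrArg Fin.val (hv h3)
    simp only [Fin.val_castSucc, Fin.val_succ] at e1 e2
    omega

theorem cyc_path (G : SimpleGraph V) (n : ℕ) (H : Finset (PX V K)) (hH : IsCyc G n H)
    (x : PX V K) (hx : x ∈ H) :
    ∃ (b : Fin K) (v : Fin (2 * n + 3 + 1) → V), b ≠ x.2 ∧ Function.Injective v ∧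
      s(v 0, v (Fin.last (2 * n + 3))) = x.1 ∧ ∀ i, pstep v b x.2 i ∈ H.erase x := by
  obtain ⟨v, b₀, c₀, hv, _, hbc, rfl⟩ := hH
  obtain ⟨j, _, rfl⟩ := mem_image.1 hx
  have hx2 : (cstep v b₀ c₀ j).2 = if (j : ℕ) % 2 = 0 then b₀ else c₀ := rfl
  have hlast : (j + 1 + (Fin.last (2 * n + 3) : Fin (2 * n + 4)) : Fin (2 * n + 4)) = j := by
    have h1 : (Fin.last (2 * n + 3) + 1 : Fin (2 * n + 3 + 1)) = 0 := Fin.last_add_one _
    have h2 : ((1 : Fin (2 * n + 4)) + (Fin.last (2 * n + 3) : Fin (2 * n + 4)) :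
        Fin (2 * n + 4)) = 0 := (add_comm _ _).trans h1
    rw [add_assoc, h2, add_zero]
  refine ⟨if (j : ℕ) % 2 = 0 then c₀ else b₀, fun k => v (j + 1 + k), ?_, ?_, ?_, ?_⟩
  · rw [hx2]
    split_ifs
    · exact hbc.symm
    · exact hbc
  · intro k k' hkk
    exact add_left_cancel (hv hkk)
  · show s(v (j + 1 + 0), v (j + 1 + (Fin.last (2 * n + 3) : Fin (2 * n + 4)))) =
      s(v j, v (j + 1))
    rw [hlast, add_zero, Sym2.eq_swap]
  · intro i
    have hsucc : (i.succ : Fin (2 * n + 4)) = (i.castSucc : Fin (2 * n + 4)) + 1 :=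
      (Fin.coeSucc_eq_succ (a := i)).symm
    have e : pstep (fun k : Fin (2 * n + 3 + 1) => v (j + 1 + k))
        (if (j : ℕ) % 2 = 0 then c₀ else b₀) (cstep v b₀ c₀ j).2 i =
        cstep v b₀ c₀ (j + 1 + (i.castSucc : Fin (2 * n + 4))) := by
      unfold pstep cstep
      refine Prod.ext ?_ ?_
      · show s(v (j + 1 + (i.castSucc : Fin (2 * n + 4))), v (j + 1 + (i.succ : Fin (2 * n + 4)))) =
          s(v (j + 1 + (i.castSucc : Fin (2 * n + 4))),
            v (j + 1 + (i.castSucc : Fin (2 * n + 4)) + 1))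
        rw [hsucc, ← add_assoc (j + 1)]
      · show (if (i : ℕ) % 2 = 0 then (if (j : ℕ) % 2 = 0 then c₀ else b₀) else
          (if (j : ℕ) % 2 = 0 then b₀ else c₀)) =
          (if ((j + 1 + (i.castSucc : Fin (2 * n + 4)) : Fin (2 * n + 4)) : ℕ) % 2 = 0 then b₀
            else c₀)
        have hdvd : 2 ∣ 2 * n + 4 := ⟨n + 2, by ring⟩
        have hp : ((j + 1 + (i.castSucc : Fin (2 * n + 4)) : Fin (2 * n + 4)) : ℕ) % 2 =
            ((j : ℕ) + 1 + (i : ℕ)) % 2 := by
          rw [Fin.val_add, Nat.mod_mod_of_dvd _ hdvd]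
          have h1 : ((j + 1 : Fin (2 * n + 4)) : ℕ) % 2 = ((j : ℕ) + 1) % 2 := by
            rw [goodG_succ]
            split_ifs <;> omega
          have h2 : ((i.castSucc : Fin (2 * n + 4)) : ℕ) = (i : ℕ) := rfl
          rw [h2]
          omega
        rw [hp]
        rcases Nat.mod_two_eq_zero_or_one (i : ℕ) with hi | hi <;>
          rcases Nat.mod_two_eq_zero_or_one (j : ℕ) with hj | hj
        · rw [if_pos hi, if_pos hj, if_neg (by omega)]
        · rw [if_pos hi, if_neg (by omega), if_pos (by omega)]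
        · rw [if_neg (by omega), if_pos hj, if_pos (by omega)]
        · rw [if_neg (by omega), if_neg (by omega), if_neg (by omega)]
    rw [e, mem_erase]
    refine ⟨?_, mem_image_of_mem _ (mem_univ _)⟩
    intro hc
    have h1 := goodG_cstep_inj v hv b₀ c₀ hc
    rw [add_assoc, add_comm 1, ← hsucc] at h1
    have h2 : (i.succ : Fin (2 * n + 4)) = 0 := by
      have h3 : j + (i.succ : Fin (2 * n + 4)) = j + 0 := by rw [add_zero]; exact h1
      exact add_left_cancel h3
    exact Fin.succ_ne_zero i h2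

end Pool.Agent.H77.AC
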