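import Pool.Agent.H77.AC.Sys

/-!
# AC-GRAPH: the system of a graph (definitions)

`G` graph on `V`, colours `Fin K`; pairs `(edge, colour)`, nodes `(vertex, colour)`, short sets =
alternating two-coloured cycles of length `2 n + 4`, `n < n₀`. A *path* of length `n` is an injective
`v : Fin (n+1) → V`; its steps are coloured alternately `b, c, b, ...`.
-/

set_option autoImplicit false

open Finset
open scoped Classical

namespace Pool.Agent.H77.AC

/-- pairs of a graph -/
abbrev PX (V : Type) (K : ℕ) : Type := Sym2 V × Fin K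

section

variable {V : Type} [Fintype V] [DecidableEq V] {K : ℕ}

/-- the nodes of a pair -/
noncomputable def ndG (x : PX V K) : Finset (V × Fin K) :=
  univ.filter (fun ν => ν.1 ∈ x.1 ∧ ν.2 = x.2)

/-- the `i`-th pair of a cycle -/
def cstep {n : ℕ} (v : Fin (2 * n + 4) → V) (b c : Fin K) (i : Fin (2 * n + 4)) : PX V K :=
  (s(v i, v (i + 1)), if (i : ℕ) % 2 = 0 then b else c)

/-- `H` is an alternating two-coloured cycle of length `2 n + 4` in `G` -/
def IsCyc (G : SimpleGraph V) (n : ℕ) (H : Finset (PX V K)) : Prop :=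
  ∃ (v : Fin (2 * n + 4) → V) (b c : Fin K), Function.Injective v ∧
    (∀ i, G.Adj (v i) (v (i + 1))) ∧ b ≠ c ∧ H = univ.image (cstep v b c)

/-- the system of the graph -/
noncomputable def gS (G : SimpleGraph V) (K n₀ : ℕ) : Sys (PX V K) (Sym2 V) (V × Fin K) where
  ed := fun x => x.1
  nd := ndG
  C := univ.filter (fun H => ∃ n < n₀, IsCyc G n H)

/-- the initial state -/
noncomputable def st0 (G : SimpleGraph V) (K : ℕ) : St (PX V K) (Sym2 V) where
  R := ∅
  L := univ.filter (fun x => x.1 ∈ G.edgeSet)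
  U := univ.filter (fun e => e ∈ G.edgeSet)

/-- the `i`-th step of a path -/
def pstep {n : ℕ} (v : Fin (n + 1) → V) (b c : Fin K) (i : Fin n) : PX V K :=
  (s(v i.castSucc, v i.succ), if (i : ℕ) % 2 = 0 then b else c)

/-- `p` and `q` are joined by a path of length `n` in `R` with colours `b, c, b, ...` -/
def Joined (R : Finset (PX V K)) (n : ℕ) (b c : Fin K) (p q : V) : Prop :=
  ∃ v : Fin (n + 1) → V, Function.Injective v ∧ v 0 = p ∧ v (Fin.last n) = q ∧
    ∀ i, pstep v b c i ∈ R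

/-- colours `b` such that `p, q` are joined by a `(b, c)`-alternating path of length in `[1, r₀]`, not
the single edge of colour `c` -/
noncomputable def Z1 (R : Finset (PX V K)) (r₀ : ℕ) (p q : V) (c : Fin K) : Finset (Fin K) :=
  univ.filter (fun b => b ≠ c ∧ ∃ n, 1 ≤ n ∧ n ≤ r₀ ∧
    (Joined R n b c p q ∨ (2 ≤ n ∧ Joined R n c b p q)))

/-- pairs of colours `(b, c)` such that `p, q` are joined by a path of length in `[l₀, r₀]` with colours
`b, c, b, ...` -/
noncomputable def Z2 (R : Finset (PX V K)) (l₀ r₀ : ℕ) (p q : V) : Finset (Fin K × Fin K) :=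
  univ.filter (fun P => P.1 ≠ P.2 ∧ ∃ n, l₀ ≤ n ∧ n ≤ r₀ ∧ Joined R n P.1 P.2 p q)

/-- `u` has a neighbour of colour `c` in `R` -/
def Has (R : Finset (PX V K)) (u : V) (c : Fin K) : Prop := ∃ u', (s(u, u'), c) ∈ R

/-- the neighbour of `u` of colour `c` in `R` (`u` itself if there is none) -/
noncomputable def par (R : Finset (PX V K)) (u : V) (c : Fin K) : V :=
  if h : ∃ u', (s(u, u'), c) ∈ R then h.choose else u

/-- the edges of `G` which are neither active nor coloured -/
def FE (G : SimpleGraph V) (st : St (PX V K) (Sym2 V)) (e : Sym2 V) : Prop :=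
  e ∈ G.edgeSet ∧ e ∉ st.U ∧ ∀ x ∈ st.R, x.1 ≠ e

/-- active edges at a vertex -/
noncomputable def stU (st : St (PX V K) (Sym2 V)) (v : V) : Finset (Sym2 V) :=
  st.U.filter (fun e => v ∈ e)

/-- failed edges at a vertex -/
noncomputable def fstar (G : SimpleGraph V) (st : St (PX V K) (Sym2 V)) (v : V) :
    Finset (Sym2 V) :=
  univ.filter (fun e => v ∈ e ∧ FE G st e)

/-- colours `c` such that the two `c`-neighbours of `u, v` span an edge with property `T` -/
noncomputable def tset (R : Finset (PX V K)) (T : Sym2 V → Prop) (u v : V) : Finset (Fin K) :=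
  univ.filter (fun c => Has R u c ∧ Has R v c ∧ T s(par R u c, par R v c))

/-- the edges `u^c v^c` which are active -/
noncomputable def jE (st : St (PX V K) (Sym2 V)) (u v : V) : Finset (Sym2 V) :=
  (tset st.R (fun e => e ∈ st.U) u v).image (fun c => s(par st.R u c, par st.R v c))

/-- the invariants of the graph part. `D` = bound for the active degree, `f` = bound for the failed
degree, `j`, `M` = bounds for the numbers of colours `c` with `u^c v^c` active, resp. failed -/
structure GInv (G : SimpleGraph V) (n₀ r₀ : ℕ) (st : St (PX V K) (Sym2 V)) (Γ : ℕ)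
    (D f j M ζ : ℝ) : Prop where
  U_E : ∀ e ∈ st.U, e ∈ G.edgeSet
  R_E : ∀ x ∈ st.R, x.1 ∈ G.edgeSet
  deg : ∀ v, ((stU st v).card : ℝ) ≤ D
  fdeg : ∀ v, ((fstar G st v).card : ℝ) ≤ f
  jj : ∀ u v, G.Adj u v → ((tset st.R (fun e => e ∈ st.U) u v).card : ℝ) ≤ j
  mm : ∀ u v, G.Adj u v → ((tset st.R (FE G st) u v).card : ℝ) ≤ M
  z1 : ∀ p q c, p ≠ q → (Z1 st.R r₀ p q c).card ≤ Γ
  z2 : ∀ p q, p ≠ q → ((Z2 st.R (2 * n₀ + 3) r₀ p q).card : ℝ) ≤ ζ * K
  nocyc : ∀ n, 2 * n + 4 ≤ r₀ + 1 → ∀ H, IsCyc G n H → ¬ H ⊆ st.R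

/-! ### accepted picks -/

/-- a medium path in `Rk ∪ Iso` joins the ends of `x.1`, alternating a colour `b` and `x.2` -/
def Med (S : Sys (PX V K) (Sym2 V) (V × Fin K)) (l₀ r₀ : ℕ) (st : St (PX V K) (Sym2 V))
    (ω : Fin 3 × PX V K → Bool) (x : PX V K) : Prop :=
  ∃ (n : ℕ) (b : Fin K) (v : Fin (n + 1) → V), l₀ ≤ n ∧ n ≤ r₀ ∧ b ≠ x.2 ∧
    Function.Injective v ∧ s(v 0, v (Fin.last n)) = x.1 ∧
    ∀ i, pstep v b x.2 i ∈ Rk st ω ∪ Iso S st ω

/-- the accepted picks -/
noncomputable def Acc (G : SimpleGraph V) (n₀ r₀ : ℕ) (st : St (PX V K) (Sym2 V))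
    (ω : Fin 3 × PX V K → Bool) : Finset (PX V K) :=
  (Iso (gS G K n₀) st ω).filter (fun x =>
    (¬ ∃ H ∈ (gS G K n₀).C, x ∈ H ∧ H.erase x ⊆ st.R ∪ Pk st ω) ∧
    ¬ Med (gS G K n₀) (2 * n₀ + 3) r₀ st ω x)

/-! ### statistics of the graph part -/

/-- indices: a length, two colours, a vertex sequence -/
abbrev PI (V : Type) (K r₀ : ℕ) : Type :=
  (n : Fin (r₀ + 1)) × (Fin K × Fin K × (Fin (n + 1) → V))

/-- the pairs of a path index -/
noncomputable def PI.set {r₀ : ℕ} (i : PI V K r₀) : Finset (PX V K) :=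
  univ.image (pstep i.2.2.2 i.2.1 i.2.2.1)

/-- variables which must be true for the pairs of `T` to be present: keeps and picks -/
noncomputable def dV (st : St (PX V K) (Sym2 V)) (T : Finset (PX V K)) :
    Finset (Fin 3 × PX V K) :=
  (T ∩ st.R).image keep ∪ (T ∩ st.L).image pick

/-- variables which must be false: picks not isolated from a pick in `T` -/
noncomputable def cV (S : Sys (PX V K) (Sym2 V) (V × Fin K)) (st : St (PX V K) (Sym2 V))
    (T : Finset (PX V K)) : Finset (Fin 3 × PX V K) :=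
  ((T ∩ st.L).biUnion (isoN S st)).image pick

/-- (E9, E10) new paths: indices with property `Φ`, injective, all steps in `R ∪ L`, at least one
in `L` -/
noncomputable def pathS (S : Sys (PX V K) (Sym2 V) (V × Fin K)) (st : St (PX V K) (Sym2 V))
    (r₀ : ℕ) (Φ : PI V K r₀ → Prop) : Stat (Fin 3 × PX V K) where
  ι := PI V K r₀
  fin := inferInstance
  w := fun i => if Φ i ∧ Function.Injective i.2.2.2 ∧ i.set ⊆ st.R ∪ st.L ∧
    ¬ Disjoint i.set st.L then 1 else 0
  D := fun i => dV st i.set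
  C := fun i => cV S st i.set
  nn := by intro i; split_ifs <;> norm_num

/-- (E9) selection for `Z1` -/
def Φ1 (r₀ : ℕ) (p q : V) (c : Fin K) (i : PI V K r₀) : Prop :=
  i.2.2.2 0 = p ∧ i.2.2.2 (Fin.last i.1) = q ∧ i.2.1 ≠ i.2.2.1 ∧
    ((1 ≤ (i.1 : ℕ) ∧ i.2.2.1 = c) ∨ (2 ≤ (i.1 : ℕ) ∧ i.2.1 = c))

/-- (E10) selection for `Z2` -/
def Φ2 (r₀ l₀ : ℕ) (p q : V) (i : PI V K r₀) : Prop :=
  i.2.2.2 0 = p ∧ i.2.2.2 (Fin.last i.1) = q ∧ i.2.1 ≠ i.2.2.1 ∧ l₀ ≤ (i.1 : ℕ)

/-- (E8) picks on edges of `Es` closing a medium path; the pick is `(s(v 0, v last), c)` -/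
noncomputable def mS (S : Sys (PX V K) (Sym2 V) (V × Fin K)) (st : St (PX V K) (Sym2 V))
    (l₀ r₀ : ℕ) (Es : Finset (Sym2 V)) : Stat (Fin 3 × PX V K) where
  ι := PI V K r₀
  fin := inferInstance
  w := fun i => if l₀ ≤ (i.1 : ℕ) ∧ Function.Injective i.2.2.2 ∧ i.2.1 ≠ i.2.2.1 ∧
    i.set ⊆ st.R ∪ st.L ∧ (s(i.2.2.2 0, i.2.2.2 (Fin.last i.1)), i.2.2.1) ∈ st.L ∧
    s(i.2.2.2 0, i.2.2.2 (Fin.last i.1)) ∈ Es then 1 else 0
  D := fun i => dV st (insert (s(i.2.2.2 0, i.2.2.2 (Fin.last i.1)), i.2.2.1) i.set)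
  C := fun i => cV S st (insert (s(i.2.2.2 0, i.2.2.2 (Fin.last i.1)), i.2.2.1) i.set)
  nn := by intro i; split_ifs <;> norm_num

/-- single picks -/
noncomputable def pS {T : Type} [Fintype T] (y : T → PX V K) (act : T → Prop) :
    Stat (Fin 3 × PX V K) where
  ι := T
  fin := inferInstance
  w := fun j => if act j then 1 else 0
  D := fun j => {pick (y j)}
  C := fun _ => ∅
  nn := by intro i; split_ifs <;> norm_num

/-- single deletions -/
noncomputable def dS {T : Type} [Fintype T] (y : T → PX V K) (act : T → Prop) :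
    Stat (Fin 3 × PX V K) where
  ι := T
  fin := inferInstance
  w := fun j => if act j then 1 else 0
  D := fun _ => ∅
  C := fun j => {keep (y j)}
  nn := by intro i; split_ifs <;> norm_num

/-- two picks -/
noncomputable def ppS {T : Type} [Fintype T] (y z : T → PX V K) (act : T → Prop) :
    Stat (Fin 3 × PX V K) where
  ι := T
  fin := inferInstance
  w := fun j => if act j then 1 else 0
  D := fun j => {pick (y j), pick (z j)}
  C := fun _ => ∅
  nn := by intro i; split_ifs <;> norm_num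

/-- a pick and a deletion -/
noncomputable def pdS {T : Type} [Fintype T] (y z : T → PX V K) (act : T → Prop) :
    Stat (Fin 3 × PX V K) where
  ι := T
  fin := inferInstance
  w := fun j => if act j then 1 else 0
  D := fun j => {pick (y j)}
  C := fun j => {keep (z j)}
  nn := by intro i; split_ifs <;> norm_num

/-- (E5) untouched active edges at `v` -/
noncomputable def sD (S : Sys (PX V K) (Sym2 V) (V × Fin K)) (st : St (PX V K) (Sym2 V))
    (v : V) : Stat (Fin 3 × PX V K) :=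
  sS S st (T := Sym2 V) (fun e => e) (fun e => e ∈ stU st v)

/-- (E6) colours `c` with `u^c v^c` active and untouched -/
noncomputable def sJ (S : Sys (PX V K) (Sym2 V) (V × Fin K)) (st : St (PX V K) (Sym2 V))
    (u v : V) : Stat (Fin 3 × PX V K) :=
  sS S st (T := Fin K) (fun c => s(par st.R u c, par st.R v c))
    (fun c => c ∈ tset st.R (fun e => e ∈ st.U) u v)

/-- (E6, E12a) picks `(v v', c)` such that `u` has the coloured neighbour `u^c` and `u^c v'` is in `T` -/
noncomputable def nJ (st : St (PX V K) (Sym2 V)) (T : Sym2 V → Prop) (u v : V) :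
    Stat (Fin 3 × PX V K) :=
  pS (T := V × Fin K) (fun i => (s(v, i.1), i.2))
    (fun i => (s(v, i.1), i.2) ∈ st.L ∧ Has st.R u i.2 ∧ T s(par st.R u i.2, i.1))

/-- (E12b) picks `(v v', c)` such that `u` has the coloured neighbour `u^c` and a pair on `u^c v'` is picked -/
noncomputable def nP (st : St (PX V K) (Sym2 V)) (u v : V) : Stat (Fin 3 × PX V K) :=
  ppS (T := (V × Fin K) × PX V K) (fun i => (s(v, i.1.1), i.1.2)) (fun i => i.2)
    (fun i => (s(v, i.1.1), i.1.2) ∈ st.L ∧ Has st.R u i.1.2 ∧ i.2 ∈ st.L ∧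
      i.2.1 = s(par st.R u i.1.2, i.1.1))

/-- (E12c) picks `(v v', c)` such that `u` has the coloured neighbour `u^c` and the coloured pair on `u^c v'`
is deleted -/
noncomputable def nD (st : St (PX V K) (Sym2 V)) (u v : V) : Stat (Fin 3 × PX V K) :=
  pdS (T := (V × Fin K) × PX V K) (fun i => (s(v, i.1.1), i.1.2)) (fun i => i.2)
    (fun i => (s(v, i.1.1), i.1.2) ∈ st.L ∧ Has st.R u i.1.2 ∧ i.2 ∈ st.R ∧
      i.2.1 = s(par st.R u i.1.2, i.1.1))

/-- (BN) two different picks of the same colour at `u` and `v` -/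
noncomputable def nB (st : St (PX V K) (Sym2 V)) (u v : V) : Stat (Fin 3 × PX V K) :=
  ppS (T := Fin K × V × V) (fun i => (s(v, i.2.1), i.1)) (fun i => (s(u, i.2.2), i.1))
    (fun i => (s(v, i.2.1), i.1) ∈ st.L ∧ (s(u, i.2.2), i.1) ∈ st.L ∧
      s(v, i.2.1) ≠ s(u, i.2.2))

/-- (E11) deletions at a vertex -/
noncomputable def dD (st : St (PX V K) (Sym2 V)) (v : V) : Stat (Fin 3 × PX V K) :=
  dS (T := PX V K) (fun x => x) (fun x => x ∈ st.R ∧ v ∈ x.1)

/-- (E11e) deletions of coloured edges `u^c v^c` -/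
noncomputable def dJ (st : St (PX V K) (Sym2 V)) (u v : V) : Stat (Fin 3 × PX V K) :=
  dS (T := Fin K × PX V K) (fun i => i.2) (fun i => i.2 ∈ st.R ∧
    i.1 ∈ tset st.R (fun e => e = i.2.1) u v)

end

end Pool.Agent.H77.AC
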