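import Pool.Agent.H77.AC.Sys

/-!
# AC-OVL: basic facts and the overlap lemma

Hypotheses of a round are bundled in `Hyp`. Facts (`st.R` and `st.L` are disjoint by `L_U`, `R_U`):

* `nbh_card`: `own (ed x)` and `conf x` are disjoint (two pairs on the same edge have disjoint nodes
  by `same_edge`, and elements of a short set lie on distinct edges, `ed_inj`), so
  `(nbh x).card = a + (conf x).card` for live `x` (`ed x ∈ U` by `L_U`, `list`).
* `conf_card`: live pairs sharing a node with `x`: at most `∑_{ν ∈ nd x} (atN ν).card ≤ 2 ρ a`. The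
  others: choose `H_y ∋ x, y` with `H_y \ {x,y} ⊆ R`; then `H_y.erase x ⊆ R ∪ L`,
  `H_y.erase x ∩ L = {y}`, so `y ↦ H_y` is injective and each term of `wgt` is at least `1/a`
  (`1 ≤ g`); hence their number is at most `w a`.
* `atN_sub`: if `z` is live and `ν ∈ nd z` then `atN ν ⊆ nbh z` (`z ∈ own`, the others are in `conf z`),
  `nbh_sdiff_atN`.
* `overlap`: for live `z, z'` on different edges the set of `y ∈ nbh z ∩ nbh z'` having no node in
  `nd z ∩ nd z'` has at most `7 Γ + 6` elements. Cases (`y` is live):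
  - `y ∈ own (ed z) ∩ own (ed z')`: impossible.
  - `y ∈ own (ed z)`, `y` shares a node with `z'`: at most one (`ov1` for `z'`, `e = ed z`). Symmetric case: one.
  - `y ∈ own (ed z)`, `H ∋ z', y`, `H \ {z', y} ⊆ R`: `Q = H.erase z'` is in the family `f3 z' (ed z)`,
    `Q ⊆ R ∪ L`, `Q ∩ L = {y}`; distinct `y` give distinct `Q`: at most `cnt (f3 z' (ed z)) ∅ 1 ≤ Γ`.
    Symmetric: `Γ`.
  - `y` shares a node with `z` and one with `z'`, none in `nd z ∩ nd z'`: at most `4` (`ov2`).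
  - `y` at a node `ν` of `z` (two nodes) and `H ∋ z', y`, `H \ {z',y} ⊆ R`: family `f2 z' ν`: `≤ Γ` each;
    total `2 Γ`. Symmetric: `2 Γ`.
  - `H₁ ∋ z, y`, `H₁ \ {z,y} ⊆ R`, `H₂ ∋ z', y`, `H₂ \ {z',y} ⊆ R` and `y` shares no node with `z` nor with
    `z'`: `z' ∉ H₁` (`z'` is live, so `z' ∈ H₁` would give `z' = y`, but `y ∈ conf z'` is different from
    `z'`; `z ≠ z'` as edges differ), `z ∉ H₂`, `y ∈ H₁ ∩ H₂`, the elements of
    `H₁.erase z ∪ H₂.erase z'` other than `y` are in `R` and have no node in common with the live `z, z'` (`LR`), nor has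
    `y`. So `Q = H₁.erase z ∪ H₂.erase z' ∈ f4 z z'`, `Q ⊆ R ∪ L`, `Q ∩ L = {y}`: at most `Γ`.
  Total `1 + 1 + Γ + Γ + 4 + 4 Γ + Γ = 7 Γ + 6`.
-/

set_option autoImplicit false

open Finset
open scoped Classical

namespace Pool.Agent.H77.AC

variable {X E N : Type} [DecidableEq X] [DecidableEq E] [DecidableEq N] [Fintype X]

/-- standing hypotheses of a round -/
structure Hyp (S : Sys X E N) (st : St X E) (K a B Γ m : ℕ) (ρ w g θ δ : ℝ) : Prop where
  good : S.Good m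
  inv : Inv S st K a Γ ρ w g
  a0 : 0 < a
  K0 : 0 < K
  m0 : 0 < m
  Kθ : K * θ ≤ a
  θ0 : 0 < θ
  θ1 : θ ≤ 1
  ρ0 : 0 ≤ ρ
  ρ1 : ρ ≤ 1
  w0 : 0 ≤ w
  g1 : 1 ≤ g
  Γ1 : 1 ≤ Γ
  hB : (2 * ρ + w) * a ≤ B
  δ0 : 0 ≤ δ
  δ1 : δ ≤ 1

variable {S : Sys X E N} {st : St X E} {K a B Γ m : ℕ} {ρ w g θ δ : ℝ}

theorem RL_disj (h : Hyp S st K a B Γ m ρ w g θ δ) : Disjoint st.R st.L := by
  rw [Finset.disjoint_left]
  intro x hR hL
  exact h.inv.R_U x hR (h.inv.L_U x hL)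

theorem pr_mem (h : Hyp S st K a B Γ m ρ w g θ δ) (i : Fin 3 × X) :
    0 ≤ pr S st a B θ δ i ∧ pr S st a B θ δ i ≤ 1 := by
  have ha : (1 : ℝ) ≤ a := by exact_mod_cast h.a0
  have ha0 : (0 : ℝ) < a := by linarith
  have h1 : 0 ≤ θ / a := div_nonneg h.θ0.le ha0.le
  have h2 : θ / a ≤ 1 := by
    rw [div_le_one ha0]
    exact h.θ1.trans ha
  unfold pr
  split_ifs
  · exact ⟨h1, h2⟩
  · exact ⟨pow_nonneg (by linarith) _, pow_le_one₀ (by linarith) (by linarith)⟩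
  · exact ⟨by linarith [h.δ1], by linarith [h.δ0]⟩

theorem own_disj_conf (h : Hyp S st K a B Γ m ρ w g θ δ) (x : X) :
    Disjoint (own S st (S.ed x)) (conf S st x) := by
  rw [Finset.disjoint_left]
  intro y hy hy'
  rw [own, mem_filter] at hy
  rw [conf, mem_filter] at hy'
  obtain ⟨_, hyx, h1 | ⟨H, hH, hxH, hyH, _⟩⟩ := hy'
  · exact h1 (h.good.same_edge x y (Ne.symm hyx) hy.2.symm)
  · exact h.good.ed_inj H hH x hxH y hyH (Ne.symm hyx) hy.2.symm

theorem nbh_card (h : Hyp S st K a B Γ m ρ w g θ δ) (x : X) (hx : x ∈ st.L) :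
    (nbh S st x).card = a + (conf S st x).card := by
  rw [nbh, card_union_of_disjoint (own_disj_conf h x), h.inv.list _ (h.inv.L_U x hx)]

/-- the shape of a short set through `z` and a live `y` with the other elements coloured -/
private theorem ovl_erase (h : Hyp S st K a B Γ m ρ w g θ δ) {z y : X} {H : Finset X}
    (hy : y ∈ st.L) (hyz : y ≠ z) (hyH : y ∈ H) (hH : H \ {z, y} ⊆ st.R) :
    (∀ u ∈ H.erase z, u = y ∨ u ∈ st.R) ∧ H.erase z ⊆ st.R ∪ st.L ∧ H.erase z ∩ st.L = {y} := by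
  have h0 : ∀ u ∈ H.erase z, u = y ∨ u ∈ st.R := by
    intro u hu
    rw [mem_erase] at hu
    by_cases huy : u = y
    · exact Or.inl huy
    · right
      apply hH
      rw [mem_sdiff, mem_insert, mem_singleton]
      exact ⟨hu.2, fun h' => h'.elim hu.1 huy⟩
  refine ⟨h0, ?_, ?_⟩
  · intro u hu
    rw [mem_union]
    rcases h0 u hu with rfl | h1
    · exact Or.inr hy
    · exact Or.inl h1
  · ext u
    rw [mem_inter, mem_singleton]
    constructor
    · rintro ⟨hu, huL⟩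
      rcases h0 u hu with h1 | h1
      · exact h1
      · exact (Finset.disjoint_left.1 (RL_disj h) h1 huL).elim
    · rintro rfl
      exact ⟨mem_erase.2 ⟨hyz, hyH⟩, hy⟩

theorem conf_card (h : Hyp S st K a B Γ m ρ w g θ δ) (x : X) (hx : x ∈ st.L) :
    ((conf S st x).card : ℝ) ≤ (2 * ρ + w) * a := by
  have ha : (1 : ℝ) ≤ a := by exact_mod_cast h.a0
  have ha0 : (0 : ℝ) < a := by linarith
  obtain ⟨O, hO⟩ : ∃ O : Finset X, O = st.L.filter (fun y => y ≠ x ∧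
    ∃ H ∈ S.C, x ∈ H ∧ y ∈ H ∧ H \ {x, y} ⊆ st.R) := ⟨_, rfl⟩
  have hsub : conf S st x ⊆ (S.nd x).biUnion (atN S st) ∪ O := by
    intro y hy
    rw [conf, mem_filter] at hy
    obtain ⟨hyL, hyx, h1 | h1⟩ := hy
    · rw [mem_union]
      left
      rw [Finset.not_disjoint_iff] at h1
      obtain ⟨ν, h2, h3⟩ := h1
      rw [mem_biUnion]
      refine ⟨ν, h2, ?_⟩
      rw [atN, mem_filter]
      exact ⟨hyL, h3⟩
    · rw [mem_union]
      right
      rw [hO, mem_filter]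
      exact ⟨hyL, hyx, h1⟩
  have h1 : (((S.nd x).biUnion (atN S st)).card : ℝ) ≤ 2 * ρ * a := by
    have h2 : (((S.nd x).biUnion (atN S st)).card : ℝ) ≤ ∑ ν ∈ S.nd x, ((atN S st ν).card : ℝ) := by
      exact_mod_cast card_biUnion_le
    have h3 : ∑ ν ∈ S.nd x, ((atN S st ν).card : ℝ) ≤ ∑ ν ∈ S.nd x, ρ * a :=
      sum_le_sum (fun ν _ => h.inv.node ν)
    rw [sum_const, nsmul_eq_mul] at h3
    have h4 : ((S.nd x).card : ℝ) ≤ 2 := by exact_mod_cast h.good.nd_card x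
    have h5 : ((S.nd x).card : ℝ) * (ρ * a) ≤ 2 * (ρ * a) :=
      mul_le_mul_of_nonneg_right h4 (mul_nonneg h.ρ0 ha0.le)
    linarith
  have h2 : (O.card : ℝ) ≤ w * a := by
    have hch : ∀ y : X, ∃ H : Finset X, y ∈ O → H ∈ S.C ∧ x ∈ H ∧ y ∈ H ∧ H \ {x, y} ⊆ st.R := by
      intro y
      by_cases hy : y ∈ O
      · have hy' := hy
        rw [hO, mem_filter] at hy'
        obtain ⟨_, _, H, hH, h3, h4, h5⟩ := hy'
        exact ⟨H, fun _ => ⟨hH, h3, h4, h5⟩⟩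
      · exact ⟨∅, fun h' => absurd h' hy⟩
    choose f hf using hch
    have hOL : ∀ y ∈ O, y ∈ st.L ∧ y ≠ x := by
      intro y hy
      rw [hO, mem_filter] at hy
      exact ⟨hy.1, hy.2.1⟩
    have hshape : ∀ y ∈ O, (f y).erase x ⊆ st.R ∪ st.L ∧ (f y).erase x ∩ st.L = {y} := by
      intro y hy
      obtain ⟨_, _, h4, h5⟩ := hf y hy
      exact (ovl_erase h (hOL y hy).1 (hOL y hy).2 h4 h5).2
    have hinj : Set.InjOn f O := by
      intro y hy y' hy' he
      have h3 := (hshape y hy).2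
      have h4 := (hshape y' hy').2
      rw [he, h4] at h3
      exact (singleton_injective h3).symm
    have hw := h.inv.weight x hx
    rw [wgt] at hw
    have h6 : ∑ H ∈ O.image f, g ^ (H.card - 1) / (a : ℝ) ^ (H.erase x ∩ st.L).card ≤
        ∑ H ∈ S.C.filter (fun H => x ∈ H ∧ H.erase x ⊆ st.R ∪ st.L),
          g ^ (H.card - 1) / (a : ℝ) ^ (H.erase x ∩ st.L).card := by
      apply sum_le_sum_of_subset_of_nonneg
      · intro H hH
        rw [mem_image] at hH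
        obtain ⟨y, hy, rfl⟩ := hH
        rw [mem_filter]
        exact ⟨(hf y hy).1, (hf y hy).2.1, (hshape y hy).1⟩
      · intro H _ _
        have := h.g1
        positivity
    rw [sum_image hinj] at h6
    have h7 : ∑ y ∈ O, 1 / (a : ℝ) ≤
        ∑ y ∈ O, g ^ ((f y).card - 1) / (a : ℝ) ^ ((f y).erase x ∩ st.L).card := by
      apply sum_le_sum
      intro y hy
      rw [(hshape y hy).2, card_singleton, pow_one]
      apply div_le_div_of_nonneg_right _ ha0.le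
      exact one_le_pow₀ h.g1
    rw [sum_const, nsmul_eq_mul] at h7
    have h8 : (O.card : ℝ) * (1 / a) ≤ w := h7.trans (h6.trans hw)
    rw [mul_one_div, div_le_iff₀ ha0] at h8
    exact h8
  have h3 : ((conf S st x).card : ℝ) ≤ (((S.nd x).biUnion (atN S st)).card : ℝ) + (O.card : ℝ) := by
    exact_mod_cast (card_le_card hsub).trans (card_union_le _ _)
  linarith

theorem conf_card_le (h : Hyp S st K a B Γ m ρ w g θ δ) (x : X) (hx : x ∈ st.L) :
    (conf S st x).card ≤ B := by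
  have h1 := (conf_card h x hx).trans h.hB
  exact_mod_cast h1

theorem atN_sub (h : Hyp S st K a B Γ m ρ w g θ δ) (ν : N) (z : X) (hz : z ∈ atN S st ν) :
    atN S st ν ⊆ nbh S st z := by
  intro y hy
  rw [atN, mem_filter] at hz hy
  rw [nbh, mem_union]
  by_cases hyz : y = z
  · left
    rw [own, mem_filter]
    exact ⟨hy.1, by rw [hyz]⟩
  · right
    rw [conf, mem_filter]
    refine ⟨hy.1, hyz, Or.inl ?_⟩
    rw [Finset.not_disjoint_iff]
    exact ⟨ν, hz.2, hy.2⟩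

theorem nbh_sdiff_atN (h : Hyp S st K a B Γ m ρ w g θ δ) (ν : N) (z : X)
    (hz : z ∈ atN S st ν) :
    (nbh S st z \ atN S st ν).card + (atN S st ν).card = a + (conf S st z).card := by
  rw [card_sdiff_add_card_eq_card (atN_sub h ν z hz)]
  apply nbh_card h
  rw [atN, mem_filter] at hz
  exact hz.1

/-- counting by a crude family -/
private theorem ovl_count (h : Hyp S st K a B Γ m ρ w g θ δ) (φ : Fm X E N) (T : Finset X)
    (hT : ∀ y ∈ T, ∃ Q ∈ φ.sets S, Q ⊆ st.R ∪ st.L ∧ Q ∩ st.L = {y}) : T.card ≤ Γ := by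
  have hch : ∀ y : X, ∃ Q : Finset X, y ∈ T → Q ∈ φ.sets S ∧ Q ⊆ st.R ∪ st.L ∧ Q ∩ st.L = {y} := by
    intro y
    by_cases hy : y ∈ T
    · obtain ⟨Q, h1, h2⟩ := hT y hy
      exact ⟨Q, fun _ => ⟨h1, h2⟩⟩
    · exact ⟨∅, fun h' => absurd h' hy⟩
  choose f hf using hch
  have h1 : T.card ≤ cnt st (φ.sets S) ∅ 1 := by
    unfold cnt
    apply card_le_card_of_injOn f
    · intro y hy
      obtain ⟨h1, h2, h3⟩ := hf y hy
      have : f y ∈ (φ.sets S).filter (fun Q => ∅ ⊆ Q ∧ Q \ ∅ ⊆ st.R ∪ st.L ∧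
          ((Q \ ∅) ∩ st.L).card = 1) := by
        rw [mem_filter, sdiff_empty, h3, card_singleton]
        exact ⟨h1, empty_subset _, h2, rfl⟩
      exact this
    · intro y hy y' hy' he
      have h3 := (hf y hy).2.2
      have h4 := (hf y' hy').2.2
      rw [he, h4] at h3
      exact (singleton_injective h3).symm
  have h2 := h.inv.crude φ ∅ 1
  simp only [Nat.sub_self, pow_zero, one_mul] at h2
  exact h1.trans h2

/-- `y` on the edge `e` in conflict with `z` by a short set -/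
private theorem ovl_f3 (h : Hyp S st K a B Γ m ρ w g θ δ) (z : X) (e : E) :
    (st.L.filter (fun y => S.ed y = e ∧ y ≠ z ∧
      ∃ H ∈ S.C, z ∈ H ∧ y ∈ H ∧ H \ {z, y} ⊆ st.R)).card ≤ Γ := by
  apply ovl_count h (Fm.f3 z e)
  intro y hy
  rw [mem_filter] at hy
  obtain ⟨hyL, hye, hyz, H, hH, hzH, hyH, hR⟩ := hy
  refine ⟨H.erase z, ?_, (ovl_erase h hyL hyz hyH hR).2⟩
  show H.erase z ∈ ((S.C.filter (fun H => z ∈ H ∧ ∃ y ∈ H, y ≠ z ∧ S.ed y = e)).image
      (fun H => H.erase z))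
  rw [mem_image]
  refine ⟨H, ?_, rfl⟩
  rw [mem_filter]
  exact ⟨hH, hzH, y, hyH, hyz, hye⟩

/-- `y` at the node `ν` in conflict with `z` by a short set -/
private theorem ovl_f2 (h : Hyp S st K a B Γ m ρ w g θ δ) (z : X) (ν : N) :
    (st.L.filter (fun y => ν ∈ S.nd y ∧ y ≠ z ∧
      ∃ H ∈ S.C, z ∈ H ∧ y ∈ H ∧ H \ {z, y} ⊆ st.R)).card ≤ Γ := by
  apply ovl_count h (Fm.f2 z ν)
  intro y hy
  rw [mem_filter] at hy
  obtain ⟨hyL, hye, hyz, H, hH, hzH, hyH, hR⟩ := hy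
  refine ⟨H.erase z, ?_, (ovl_erase h hyL hyz hyH hR).2⟩
  show H.erase z ∈ ((S.C.filter (fun H => z ∈ H ∧ ∃ y ∈ H, y ≠ z ∧ ν ∈ S.nd y)).image
      (fun H => H.erase z))
  rw [mem_image]
  refine ⟨H, ?_, rfl⟩
  rw [mem_filter]
  exact ⟨hH, hzH, y, hyH, hyz, hye⟩

/-- `y` in conflict with `z` and with `z'` by short sets only -/
private theorem ovl_f4 (h : Hyp S st K a B Γ m ρ w g θ δ) (z z' : X) (hz : z ∈ st.L)
    (hz' : z' ∈ st.L) (hne : S.ed z ≠ S.ed z') :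
    (st.L.filter (fun y => y ≠ z ∧ y ≠ z' ∧ Disjoint (S.nd z) (S.nd y) ∧
      Disjoint (S.nd z') (S.nd y) ∧
      (∃ H ∈ S.C, z ∈ H ∧ y ∈ H ∧ H \ {z, y} ⊆ st.R) ∧
      (∃ H ∈ S.C, z' ∈ H ∧ y ∈ H ∧ H \ {z', y} ⊆ st.R))).card ≤ Γ := by
  apply ovl_count h (Fm.f4 z z')
  intro y hy
  rw [mem_filter] at hy
  obtain ⟨hyL, hyz, hyz', hd, hd', ⟨H, hH, hzH, hyH, hR⟩, ⟨H', hH', hzH', hyH', hR'⟩⟩ := hy
  have hzz : z ≠ z' := fun h' => hne (by rw [h'])
  obtain ⟨e1, e2, e3⟩ := ovl_erase h hyL hyz hyH hR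
  obtain ⟨e1', e2', e3'⟩ := ovl_erase h hyL hyz' hyH' hR'
  refine ⟨H.erase z ∪ H'.erase z', ?_, union_subset e2 e2', ?_⟩
  · simp only [Fm.sets, Finset.mem_image, Finset.mem_filter, Finset.mem_product]
    refine ⟨(H, H'), ?_, rfl⟩
    refine ⟨⟨hH, hH'⟩, hne, hzH, hzH', ?_, ?_, ⟨y, mem_inter.2 ⟨hyH, hyH'⟩⟩, ?_⟩
    · intro h1
      rcases e1 z' (mem_erase.2 ⟨hzz.symm, h1⟩) with h2 | h2
      · exact hyz' h2.symm
      · exact Finset.disjoint_left.1 (RL_disj h) h2 hz'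
    · intro h1
      rcases e1' z (mem_erase.2 ⟨hzz, h1⟩) with h2 | h2
      · exact hyz h2.symm
      · exact Finset.disjoint_left.1 (RL_disj h) h2 hz
    · intro u hu
      have hu' : u = y ∨ u ∈ st.R := by
        rcases mem_union.1 hu with h1 | h1
        · exact e1 u h1
        · exact e1' u h1
      rw [disjoint_union_right]
      rcases hu' with rfl | h1
      · exact ⟨hd.symm, hd'.symm⟩
      · exact ⟨(h.inv.LR z hz u h1).symm, (h.inv.LR z' hz' u h1).symm⟩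
  · rw [union_inter_distrib_right, e3, e3', union_self]

theorem overlap (h : Hyp S st K a B Γ m ρ w g θ δ) (z z' : X) (hz : z ∈ st.L) (hz' : z' ∈ st.L)
    (hne : S.ed z ≠ S.ed z') :
    ((nbh S st z ∩ nbh S st z').filter
      (fun y => Disjoint (S.nd y) (S.nd z ∩ S.nd z'))).card ≤ 7 * Γ + 6 := by
  obtain ⟨T1, hT1⟩ : ∃ T : Finset X, T = univ.filter (fun y => S.ed y = S.ed z ∧
    ¬ Disjoint (S.nd y) (S.nd z')) := ⟨_, rfl⟩
  obtain ⟨T1', hT1'⟩ : ∃ T : Finset X, T = univ.filter (fun y => S.ed y = S.ed z' ∧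
    ¬ Disjoint (S.nd y) (S.nd z)) := ⟨_, rfl⟩
  obtain ⟨T2, hT2⟩ : ∃ T : Finset X, T = st.L.filter (fun y => S.ed y = S.ed z ∧ y ≠ z' ∧
      ∃ H ∈ S.C, z' ∈ H ∧ y ∈ H ∧ H \ {z', y} ⊆ st.R) := ⟨_, rfl⟩
  obtain ⟨T2', hT2'⟩ : ∃ T : Finset X, T = st.L.filter (fun y => S.ed y = S.ed z' ∧ y ≠ z ∧
      ∃ H ∈ S.C, z ∈ H ∧ y ∈ H ∧ H \ {z, y} ⊆ st.R) := ⟨_, rfl⟩
  obtain ⟨T3, hT3⟩ : ∃ T : Finset X, T =
    univ.filter (fun y => ¬ Disjoint (S.nd y) (S.nd z) ∧ ¬ Disjoint (S.nd y) (S.nd z') ∧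
      Disjoint (S.nd y) (S.nd z ∩ S.nd z')) := ⟨_, rfl⟩
  obtain ⟨T4, hT4⟩ : ∃ T : Finset X, T = (S.nd z).biUnion (fun ν =>
    st.L.filter (fun y => ν ∈ S.nd y ∧ y ≠ z' ∧
      ∃ H ∈ S.C, z' ∈ H ∧ y ∈ H ∧ H \ {z', y} ⊆ st.R)) := ⟨_, rfl⟩
  obtain ⟨T4', hT4'⟩ : ∃ T : Finset X, T = (S.nd z').biUnion (fun ν =>
    st.L.filter (fun y => ν ∈ S.nd y ∧ y ≠ z ∧
      ∃ H ∈ S.C, z ∈ H ∧ y ∈ H ∧ H \ {z, y} ⊆ st.R)) := ⟨_, rfl⟩
  obtain ⟨T5, hT5⟩ : ∃ T : Finset X, T = st.L.filter (fun y => y ≠ z ∧ y ≠ z' ∧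
      Disjoint (S.nd z) (S.nd y) ∧ Disjoint (S.nd z') (S.nd y) ∧
      (∃ H ∈ S.C, z ∈ H ∧ y ∈ H ∧ H \ {z, y} ⊆ st.R) ∧
      (∃ H ∈ S.C, z' ∈ H ∧ y ∈ H ∧ H \ {z', y} ⊆ st.R)) := ⟨_, rfl⟩
  have c1 : T1.card ≤ 1 := by
    rw [hT1]
    exact h.good.ov1 z' (S.ed z)
  have c1' : T1'.card ≤ 1 := by
    rw [hT1']
    exact h.good.ov1 z (S.ed z')
  have c2 : T2.card ≤ Γ := by
    rw [hT2]
    exact ovl_f3 h z' (S.ed z)
  have c2' : T2'.card ≤ Γ := by
    rw [hT2']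
    exact ovl_f3 h z (S.ed z')
  have c3 : T3.card ≤ 4 := by
    rw [hT3]
    exact h.good.ov2 z z' hne
  have c4 : T4.card ≤ 2 * Γ := by
    rw [hT4]
    refine card_biUnion_le.trans ?_
    refine (sum_le_sum (fun ν _ => ovl_f2 h z' ν)).trans ?_
    rw [sum_const, smul_eq_mul]
    exact Nat.mul_le_mul_right _ (h.good.nd_card z)
  have c4' : T4'.card ≤ 2 * Γ := by
    rw [hT4']
    refine card_biUnion_le.trans ?_
    refine (sum_le_sum (fun ν _ => ovl_f2 h z ν)).trans ?_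
    rw [sum_const, smul_eq_mul]
    exact Nat.mul_le_mul_right _ (h.good.nd_card z')
  have c5 : T5.card ≤ Γ := by
    rw [hT5]
    exact ovl_f4 h z z' hz hz' hne
  have hsub : (nbh S st z ∩ nbh S st z').filter (fun y => Disjoint (S.nd y) (S.nd z ∩ S.nd z')) ⊆
      T1 ∪ (T1' ∪ (T2 ∪ (T2' ∪ (T3 ∪ (T4 ∪ (T4' ∪ T5)))))) := by
    intro y hy
    rw [mem_filter, mem_inter, nbh, nbh, mem_union, mem_union] at hy
    obtain ⟨⟨hy1, hy2⟩, hyd⟩ := hy
    have key : y ∈ T1 ∨ y ∈ T1' ∨ y ∈ T2 ∨ y ∈ T2' ∨ y ∈ T3 ∨ y ∈ T4 ∨ y ∈ T4' ∨ y ∈ T5 := by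
      rcases hy1 with hy1 | hy1 <;> rcases hy2 with hy2 | hy2
      · exfalso
        rw [own, mem_filter] at hy1 hy2
        exact hne (hy1.2.symm.trans hy2.2)
      · rw [own, mem_filter] at hy1
        rw [conf, mem_filter] at hy2
        obtain ⟨hyL, hyz', h1 | h1⟩ := hy2
        · left
          rw [hT1, mem_filter]
          exact ⟨mem_univ _, hy1.2, fun h2 => h1 h2.symm⟩
        · right; right; left
          rw [hT2, mem_filter]
          exact ⟨hyL, hy1.2, hyz', h1⟩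
      · rw [own, mem_filter] at hy2
        rw [conf, mem_filter] at hy1
        obtain ⟨hyL, hyz, h1 | h1⟩ := hy1
        · right; left
          rw [hT1', mem_filter]
          exact ⟨mem_univ _, hy2.2, fun h2 => h1 h2.symm⟩
        · right; right; right; left
          rw [hT2', mem_filter]
          exact ⟨hyL, hy2.2, hyz, h1⟩
      · rw [conf, mem_filter] at hy1 hy2
        obtain ⟨hyL, hyz, h1⟩ := hy1
        obtain ⟨_, hyz', h2⟩ := hy2
        by_cases hd : Disjoint (S.nd z) (S.nd y)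
        · have h1' := h1.resolve_left (fun h3 => h3 hd)
          by_cases hd' : Disjoint (S.nd z') (S.nd y)
          · have h2' := h2.resolve_left (fun h3 => h3 hd')
            right; right; right; right; right; right; right
            rw [hT5, mem_filter]
            exact ⟨hyL, hyz, hyz', hd, hd', h1', h2'⟩
          · right; right; right; right; right; right; left
            rw [Finset.not_disjoint_iff] at hd'
            obtain ⟨ν, h3, h4⟩ := hd'
            rw [hT4', mem_biUnion]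
            refine ⟨ν, h3, ?_⟩
            rw [mem_filter]
            exact ⟨hyL, h4, hyz, h1'⟩
        · by_cases hd' : Disjoint (S.nd z') (S.nd y)
          · have h2' := h2.resolve_left (fun h3 => h3 hd')
            right; right; right; right; right; left
            rw [Finset.not_disjoint_iff] at hd
            obtain ⟨ν, h3, h4⟩ := hd
            rw [hT4, mem_biUnion]
            refine ⟨ν, h3, ?_⟩
            rw [mem_filter]
            exact ⟨hyL, h4, hyz', h2'⟩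
          · right; right; right; right; left
            rw [hT3, mem_filter]
            exact ⟨mem_univ _, fun h3 => hd h3.symm, fun h3 => hd' h3.symm, hyd⟩
    simp only [mem_union]
    exact key
  have h0 := card_le_card hsub
  have h1 := card_union_le T1 (T1' ∪ (T2 ∪ (T2' ∪ (T3 ∪ (T4 ∪ (T4' ∪ T5))))))
  have h2 := card_union_le T1' (T2 ∪ (T2' ∪ (T3 ∪ (T4 ∪ (T4' ∪ T5)))))
  have h3 := card_union_le T2 (T2' ∪ (T3 ∪ (T4 ∪ (T4' ∪ T5))))
  have h4 := card_union_le T2' (T3 ∪ (T4 ∪ (T4' ∪ T5)))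
  have h5 := card_union_le T3 (T4 ∪ (T4' ∪ T5))
  have h6 := card_union_le T4 (T4' ∪ T5)
  have h7 := card_union_le T4' T5
  omega

end Pool.Agent.H77.AC
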