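import Pool.Agent.H77.AC.GoodG
import Pool.Agent.H77.AC.Ovl
import Pool.Agent.H77.AC.Cyl

/-!
# AC-HIST: histories of the path statistics

`Hist D₀ C₀ M`: `D₀` consists of at most `M` variables `keep x`, `x ∈ R`, and `pick x`, `x ∈ L`; it is disjoint
from `C₀`, and `C₀` contains the picks of `isoN x` for every `pick x ∈ D₀`. `Wh` is the weight of a step given
the history. `Col D₀` = colours occurring in `D₀`. `Qs` = forced pairs: coloured ones and history picks.

* `hist_path`, `hist_mS`: the union of a consistent history of at most `s` indices of `pathS`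
  (resp. `mS`) has `Hist` with `M = s (r₀ + 1)`: `dV` of a set with at most `r₀ + 1` elements;
  `(biUnion C)` contains `cV`.
* `cnd_path`: for `T ⊆ R ∪ L`: `cnd D₀ C₀ (dV T) (cV T) ≤ ∏_{x ∈ T} Wh x`. If `pick x ∈ C₀` for some
  `x ∈ T ∩ L` the left side is `0`. Otherwise drop the factors `1 - p` of `C` and note that
  `∏_{dV T \ D₀} p = ∏_{x ∈ T} Wh x` (`R`, `L` disjoint, `keep`, `pick` injective with disjoint ranges).
* `Qs_proper`: at every node `(u, c)` there is at most one `u'` with `(s(u,u'), c) ∈ Qs`: two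
  coloured ones by `R_nd`, coloured and live by `LR`, two history picks: each would be in `isoN` of the other, hence
  its variable in `D₀ ∩ C₀`.
* `row_sum`: `∑_{u'} Wh (s(u,u'), c) ≤ 1`, and `≤ 1 - δ` if `c ∉ Col D₀` (hypothesis `ρ θ ≤ 1 - δ`,
  `δ ≤ 1`). If a coloured pair is at the node it is the only element of `R ∪ L` there. If a history pick `y` is
  at the node, the other live pairs at the node are in `isoN y`, so their weight is `0`. Otherwise the sum is
  at most `(atN).card * (θ/a) ≤ ρ θ` (`u' ↦ (s(u,u'), c)` is injective into `atN (u, c)`).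
-/

set_option autoImplicit false

open Finset
open scoped Classical

namespace Pool.Agent.H77.AC

variable {V : Type} [Fintype V] [DecidableEq V] {K : ℕ}

structure Hist (S : Sys (PX V K) (Sym2 V) (V × Fin K)) (st : St (PX V K) (Sym2 V))
    (D₀ C₀ : Finset (Fin 3 × PX V K)) (M : ℕ) : Prop where
  card : D₀.card ≤ M
  disj : Disjoint D₀ C₀
  mem : ∀ i ∈ D₀, (∃ x ∈ st.R, i = keep x) ∨ (∃ x ∈ st.L, i = pick x)
  iso : ∀ x, pick x ∈ D₀ → ∀ y ∈ isoN S st x, pick y ∈ C₀

/-- weight of a step given the history -/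
noncomputable def Wh (st : St (PX V K) (Sym2 V)) (D₀ C₀ : Finset (Fin 3 × PX V K)) (π δ : ℝ)
    (x : PX V K) : ℝ :=
  if x ∈ st.R then (if keep x ∈ D₀ then 1 else 1 - δ)
  else if x ∈ st.L then (if pick x ∈ D₀ then 1 else if pick x ∈ C₀ then 0 else π) else 0

/-- colours in the history -/
noncomputable def Col (D₀ : Finset (Fin 3 × PX V K)) : Finset (Fin K) := D₀.image (fun i => i.2.2)

/-- forced pairs -/
noncomputable def Qs (st : St (PX V K) (Sym2 V)) (D₀ : Finset (Fin 3 × PX V K)) :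
    Finset (PX V K) :=
  st.R ∪ st.L.filter (fun x => pick x ∈ D₀)

variable {G : SimpleGraph V} {n₀ : ℕ} {st : St (PX V K) (Sym2 V)} {a B Γ m : ℕ}
  {ρ w g θ δ : ℝ}

/-! ### auxiliary facts -/

theorem hist_keep_inj : Function.Injective (keep : PX V K → Fin 3 × PX V K) := by
  intro x y h
  exact (Prod.mk.inj h).2

theorem hist_pick_inj : Function.Injective (pick : PX V K → Fin 3 × PX V K) := by
  intro x y h
  exact (Prod.mk.inj h).2

theorem hist_pick_ne_keep (x y : PX V K) : (pick x : Fin 3 × PX V K) ≠ keep y := by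
  intro h
  have h1 := (Prod.mk.inj h).1
  exact absurd h1 (by decide)

theorem hist_pick_mem_dV (st : St (PX V K) (Sym2 V)) (T : Finset (PX V K)) (x : PX V K) :
    pick x ∈ dV st T ↔ x ∈ T ∧ x ∈ st.L := by
  unfold dV
  rw [mem_union]
  constructor
  · rintro (h | h)
    · rw [mem_image] at h
      obtain ⟨y, _, hy⟩ := h
      exact absurd hy.symm (hist_pick_ne_keep x y)
    · rw [mem_image] at h
      obtain ⟨y, h1, hy⟩ := h
      rw [← hist_pick_inj hy]
      exact mem_inter.1 h1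
  · intro h
    exact Or.inr (mem_image_of_mem _ (mem_inter.2 h))

theorem hist_gen (hRL : Disjoint st.R st.L) {ι : Type} [DecidableEq ι]
    (T : ι → Finset (PX V K)) (q s : ℕ) (hh : Finset ι) (hT : ∀ i ∈ hh, (T i).card ≤ q)
    (hc : hh.card ≤ s)
    (hd : Disjoint (hh.biUnion (fun i => dV st (T i)))
      (hh.biUnion (fun i => cV (gS G K n₀) st (T i)))) :
    Hist (gS G K n₀) st (hh.biUnion (fun i => dV st (T i)))
      (hh.biUnion (fun i => cV (gS G K n₀) st (T i))) (s * q) where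
  card := by
    refine (card_biUnion_le).trans ?_
    have h1 : ∀ i ∈ hh, (dV st (T i)).card ≤ q := by
      intro i hi
      refine le_trans ?_ (hT i hi)
      unfold dV
      refine (card_union_le _ _).trans ?_
      refine (Nat.add_le_add card_image_le card_image_le).trans ?_
      rw [← card_union_of_disjoint]
      · refine card_le_card ?_
        rw [← inter_union_distrib_left]
        exact inter_subset_left
      · exact hRL.mono inter_subset_right inter_subset_right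
    refine (sum_le_sum h1).trans ?_
    rw [sum_const, smul_eq_mul]
    exact Nat.mul_le_mul_right _ hc
  disj := hd
  mem := by
    intro i hi
    rw [mem_biUnion] at hi
    obtain ⟨j, _, hj⟩ := hi
    unfold dV at hj
    rw [mem_union, mem_image, mem_image] at hj
    rcases hj with ⟨x, hx, rfl⟩ | ⟨x, hx, rfl⟩
    · exact Or.inl ⟨x, (mem_inter.1 hx).2, rfl⟩
    · exact Or.inr ⟨x, (mem_inter.1 hx).2, rfl⟩
  iso := by
    intro x hx y hy
    rw [mem_biUnion] at hx
    obtain ⟨j, hjh, hj⟩ := hx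
    rw [hist_pick_mem_dV] at hj
    rw [mem_biUnion]
    refine ⟨j, hjh, ?_⟩
    unfold cV
    refine mem_image_of_mem _ ?_
    rw [mem_biUnion]
    exact ⟨x, mem_inter.2 hj, hy⟩

theorem hist_set_card {r₀ : ℕ} (i : PI V K r₀) : i.set.card ≤ r₀ := by
  unfold PI.set
  refine card_image_le.trans ?_
  rw [card_univ, Fintype.card_fin]
  have := i.1.2
  omega

theorem hist_path (h : Hyp (gS G K n₀) st K a B Γ m ρ w g θ δ) (r₀ s : ℕ)
    (Φ : PI V K r₀ → Prop) (hh : Finset (pathS (gS G K n₀) st r₀ Φ).ι) (hc : hh.card ≤ s)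
    (hw : ∀ i ∈ hh, (pathS (gS G K n₀) st r₀ Φ).w i ≠ 0)
    (hd : Disjoint (hh.biUnion (pathS (gS G K n₀) st r₀ Φ).D)
      (hh.biUnion (pathS (gS G K n₀) st r₀ Φ).C)) :
    Hist (gS G K n₀) st (hh.biUnion (pathS (gS G K n₀) st r₀ Φ).D)
      (hh.biUnion (pathS (gS G K n₀) st r₀ Φ).C) (s * (r₀ + 1)) :=
  hist_gen (RL_disj h) (fun i : PI V K r₀ => i.set) (r₀ + 1) s hh
    (fun i _ => (hist_set_card i).trans (Nat.le_succ _)) hc hd

theorem hist_mS (h : Hyp (gS G K n₀) st K a B Γ m ρ w g θ δ) (l₀ r₀ s : ℕ)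
    (Es : Finset (Sym2 V)) (hh : Finset (mS (gS G K n₀) st l₀ r₀ Es).ι) (hc : hh.card ≤ s)
    (hw : ∀ i ∈ hh, (mS (gS G K n₀) st l₀ r₀ Es).w i ≠ 0)
    (hd : Disjoint (hh.biUnion (mS (gS G K n₀) st l₀ r₀ Es).D)
      (hh.biUnion (mS (gS G K n₀) st l₀ r₀ Es).C)) :
    Hist (gS G K n₀) st (hh.biUnion (mS (gS G K n₀) st l₀ r₀ Es).D)
      (hh.biUnion (mS (gS G K n₀) st l₀ r₀ Es).C) (s * (r₀ + 1)) :=
  hist_gen (RL_disj h) (fun i : PI V K r₀ =>
      insert (s(i.2.2.2 0, i.2.2.2 (Fin.last i.1)), i.2.2.1) i.set) (r₀ + 1) s hh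
    (fun i _ => (card_insert_le _ _).trans (Nat.succ_le_succ (hist_set_card i))) hc hd

theorem Wh_nonneg (h : Hyp (gS G K n₀) st K a B Γ m ρ w g θ δ)
    (D₀ C₀ : Finset (Fin 3 × PX V K)) (x : PX V K) : 0 ≤ Wh st D₀ C₀ (θ / a) δ x := by
  have h1 : 0 ≤ θ / (a : ℝ) := div_nonneg h.θ0.le (Nat.cast_nonneg a)
  have h2 := h.δ1
  unfold Wh
  split_ifs <;> linarith

theorem hist_pr_pick (S : Sys (PX V K) (Sym2 V) (V × Fin K)) (st : St (PX V K) (Sym2 V))
    (a B : ℕ) (θ δ : ℝ) (x : PX V K) : pr S st a B θ δ (pick x) = θ / a := rfl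

theorem hist_pr_keep (S : Sys (PX V K) (Sym2 V) (V × Fin K)) (st : St (PX V K) (Sym2 V))
    (a B : ℕ) (θ δ : ℝ) (x : PX V K) : pr S st a B θ δ (keep x) = 1 - δ := rfl

theorem cnd_path (h : Hyp (gS G K n₀) st K a B Γ m ρ w g θ δ)
    (D₀ C₀ : Finset (Fin 3 × PX V K)) (T : Finset (PX V K)) (hT : T ⊆ st.R ∪ st.L) :
    cnd (pr (gS G K n₀) st a B θ δ) D₀ C₀ (dV st T) (cV (gS G K n₀) st T) ≤
      ∏ x ∈ T, Wh st D₀ C₀ (θ / a) δ x := by
  have hpr := pr_mem h
  have hRL := RL_disj h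
  unfold cnd
  split_ifs with hdis
  swap
  · exact prod_nonneg (fun x _ => Wh_nonneg h D₀ C₀ x)
  have h1 : (∏ i ∈ cV (gS G K n₀) st T \ C₀, (1 - pr (gS G K n₀) st a B θ δ i)) ≤ 1 :=
    prod_le_one (fun i _ => by linarith [(hpr i).2]) (fun i _ => by linarith [(hpr i).1])
  have h2 : 0 ≤ ∏ i ∈ dV st T \ D₀, pr (gS G K n₀) st a B θ δ i :=
    prod_nonneg (fun i _ => (hpr i).1)
  refine (mul_le_of_le_one_right h2 h1).trans (le_of_eq ?_)
  have hpC : ∀ x ∈ T, x ∈ st.L → pick x ∉ C₀ := by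
    intro x hx hxL hx'
    have h3 : pick x ∈ D₀ ∪ dV st T := mem_union_right _ ((hist_pick_mem_dV st T x).2 ⟨hx, hxL⟩)
    exact Finset.disjoint_left.1 hdis h3 (mem_union_left _ hx')
  have h3 : ∏ i ∈ dV st T \ D₀, pr (gS G K n₀) st a B θ δ i =
      ∏ i ∈ dV st T, (if i ∉ D₀ then pr (gS G K n₀) st a B θ δ i else 1) := by
    rw [← prod_filter]
    refine prod_congr ?_ (fun _ _ => rfl)
    ext i
    rw [mem_sdiff, mem_filter]
  rw [h3]
  unfold dV
  rw [prod_union, prod_image, prod_image]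
  · have h4 : T = (T ∩ st.R) ∪ (T ∩ st.L) := by
      rw [← inter_union_distrib_left]
      exact (inter_eq_left.2 hT).symm
    have h5 : ∏ x ∈ T, Wh st D₀ C₀ (θ / a) δ x =
        ∏ x ∈ (T ∩ st.R) ∪ (T ∩ st.L), Wh st D₀ C₀ (θ / a) δ x := by rw [← h4]
    rw [h5, prod_union (hRL.mono inter_subset_right inter_subset_right)]
    congr 1
    · refine prod_congr rfl (fun x hx => ?_)
      rw [mem_inter] at hx
      rw [hist_pr_keep]
      unfold Wh
      rw [if_pos hx.2]
      by_cases h6 : keep x ∈ D₀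
      · rw [if_pos h6, if_neg (not_not.2 h6)]
      · rw [if_neg h6, if_pos h6]
    · refine prod_congr rfl (fun x hx => ?_)
      rw [mem_inter] at hx
      rw [hist_pr_pick]
      unfold Wh
      rw [if_neg (fun h' => Finset.disjoint_left.1 hRL h' hx.2), if_pos hx.2]
      by_cases h6 : pick x ∈ D₀
      · rw [if_pos h6, if_neg (not_not.2 h6)]
      · rw [if_neg h6, if_pos h6, if_neg (hpC x hx.1 hx.2)]
  · exact fun x _ y _ hxy => hist_pick_inj hxy
  · exact fun x _ y _ hxy => hist_keep_inj hxy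
  · rw [Finset.disjoint_left]
    intro i hi hi'
    rw [mem_image] at hi hi'
    obtain ⟨x, _, rfl⟩ := hi
    obtain ⟨y, _, hy⟩ := hi'
    exact hist_pick_ne_keep y x hy

theorem hist_node (u u' : V) (c : Fin K) : (u, c) ∈ (gS G K n₀).nd (s(u, u'), c) := by
  show (u, c) ∈ ndG (s(u, u'), c)
  unfold ndG
  rw [mem_filter]
  exact ⟨mem_univ _, by simp, rfl⟩

theorem hist_not_disj (u u₁ u₂ : V) (c : Fin K) :
    ¬ Disjoint ((gS G K n₀).nd (s(u, u₁), c)) ((gS G K n₀).nd (s(u, u₂), c)) := by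
  rw [Finset.not_disjoint_iff]
  exact ⟨(u, c), hist_node u u₁ c, hist_node u u₂ c⟩

theorem hist_eq_of {u u₁ u₂ : V} {c : Fin K}
    (h : ((s(u, u₁), c) : PX V K) = (s(u, u₂), c)) : u₁ = u₂ :=
  Sym2.congr_right.1 (Prod.mk.inj h).1

theorem Qs_proper (h : Hyp (gS G K n₀) st K a B Γ m ρ w g θ δ) {M : ℕ}
    {D₀ C₀ : Finset (Fin 3 × PX V K)} (hH : Hist (gS G K n₀) st D₀ C₀ M)
    (u u₁ u₂ : V) (c : Fin K) (h1 : (s(u, u₁), c) ∈ Qs st D₀) (h2 : (s(u, u₂), c) ∈ Qs st D₀) :
    u₁ = u₂ := by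
  by_contra hne
  have hne' : ((s(u, u₁), c) : PX V K) ≠ (s(u, u₂), c) := fun h' => hne (hist_eq_of h')
  have hnd := hist_not_disj (G := G) (n₀ := n₀) u u₁ u₂ c
  unfold Qs at h1 h2
  rw [mem_union, mem_filter] at h1 h2
  rcases h1 with h1 | ⟨h1, h1'⟩ <;> rcases h2 with h2 | ⟨h2, h2'⟩
  · exact hnd (h.inv.R_nd _ h1 _ h2 hne')
  · exact hnd (h.inv.LR _ h2 _ h1).symm
  · exact hnd (h.inv.LR _ h1 _ h2)
  · have h3 : ((s(u, u₂), c) : PX V K) ∈ isoN (gS G K n₀) st (s(u, u₁), c) := by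
      unfold isoN
      rw [mem_filter]
      exact ⟨h2, hne'.symm, Or.inr hnd⟩
    exact Finset.disjoint_left.1 hH.disj h2' (hH.iso _ h1' _ h3)

theorem hist_row (h : Hyp (gS G K n₀) st K a B Γ m ρ w g θ δ) (hρ : ρ * θ ≤ 1 - δ) {M : ℕ}
    {D₀ C₀ : Finset (Fin 3 × PX V K)} (hH : Hist (gS G K n₀) st D₀ C₀ M)
    (u : V) (c : Fin K) :
    ∑ u', Wh st D₀ C₀ (θ / a) δ (s(u, u'), c) ≤ if c ∈ Col D₀ then 1 else 1 - δ := by
  have hδ0 := h.δ0
  have ha : (1 : ℝ) ≤ a := by exact_mod_cast h.a0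
  have ha0 : (0 : ℝ) < a := by linarith
  have hRL := RL_disj h
  have hle : (1 : ℝ) - δ ≤ if c ∈ Col D₀ then 1 else 1 - δ := by
    split_ifs <;> linarith
  by_cases hA : ∃ u₁, ((s(u, u₁), c) : PX V K) ∈ st.R
  · obtain ⟨u₁, hu₁⟩ := hA
    rw [sum_eq_single u₁]
    · unfold Wh
      rw [if_pos hu₁]
      by_cases h6 : keep ((s(u, u₁), c) : PX V K) ∈ D₀
      · have h7 : c ∈ Col D₀ := by
          unfold Col
          rw [mem_image]
          exact ⟨_, h6, rfl⟩
        rw [if_pos h6, if_pos h7]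
      · rw [if_neg h6]
        exact hle
    · intro u' _ hu'
      have hne' : ((s(u, u₁), c) : PX V K) ≠ (s(u, u'), c) := fun h' => hu' (hist_eq_of h').symm
      have hnd := hist_not_disj (G := G) (n₀ := n₀) u u₁ u' c
      unfold Wh
      rw [if_neg, if_neg]
      · intro h2
        exact hnd (h.inv.LR _ h2 _ hu₁).symm
      · intro h2
        exact hnd (h.inv.R_nd _ hu₁ _ h2 hne')
    · intro h'
      exact absurd (mem_univ _) h'
  · push Not at hA
    by_cases hB : ∃ u₁, ((s(u, u₁), c) : PX V K) ∈ st.L ∧ pick ((s(u, u₁), c) : PX V K) ∈ D₀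
    · obtain ⟨u₁, hu₁, hp₁⟩ := hB
      have h7 : c ∈ Col D₀ := by
        unfold Col
        rw [mem_image]
        exact ⟨_, hp₁, rfl⟩
      rw [if_pos h7, sum_eq_single u₁]
      · unfold Wh
        rw [if_neg (hA u₁), if_pos hu₁, if_pos hp₁]
      · intro u' _ hu'
        have hne' : ((s(u, u₁), c) : PX V K) ≠ (s(u, u'), c) :=
          fun h' => hu' (hist_eq_of h').symm
        have hnd := hist_not_disj (G := G) (n₀ := n₀) u u₁ u' c
        unfold Wh
        rw [if_neg (hA u')]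
        by_cases h2 : ((s(u, u'), c) : PX V K) ∈ st.L
        · have h3 : ((s(u, u'), c) : PX V K) ∈ isoN (gS G K n₀) st (s(u, u₁), c) := by
            unfold isoN
            rw [mem_filter]
            exact ⟨h2, hne'.symm, Or.inr hnd⟩
          have h4 := hH.iso _ hp₁ _ h3
          have h5 : pick ((s(u, u'), c) : PX V K) ∉ D₀ :=
            fun h' => Finset.disjoint_left.1 hH.disj h' h4
          rw [if_pos h2, if_neg h5, if_pos h4]
        · rw [if_neg h2]
      · intro h'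
        exact absurd (mem_univ _) h'
    · push Not at hB
      have hθa : 0 ≤ θ / (a : ℝ) := div_nonneg h.θ0.le ha0.le
      have h1 : ∀ u' : V, Wh st D₀ C₀ (θ / a) δ (s(u, u'), c) ≤
          if ((s(u, u'), c) : PX V K) ∈ st.L then θ / a else 0 := by
        intro u'
        unfold Wh
        rw [if_neg (hA u')]
        by_cases h2 : ((s(u, u'), c) : PX V K) ∈ st.L
        · rw [if_pos h2, if_pos h2, if_neg (hB u' h2)]
          split_ifs
          · exact hθa
          · exact le_rfl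
        · rw [if_neg h2, if_neg h2]
      refine (sum_le_sum (fun u' _ => h1 u')).trans ?_
      rw [← sum_filter, sum_const, nsmul_eq_mul]
      have h2 : (univ.filter (fun u' : V => ((s(u, u'), c) : PX V K) ∈ st.L)).card ≤
          (atN (gS G K n₀) st (u, c)).card := by
        refine card_le_card_of_injOn (fun u' => (s(u, u'), c)) ?_ ?_
        · intro u' hu'
          rw [mem_coe, mem_filter] at hu'
          rw [mem_coe]
          unfold atN
          rw [mem_filter]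
          exact ⟨hu'.2, hist_node u u' c⟩
        · intro u₁ _ u₂ _ h'
          exact hist_eq_of h'
      have h3 : ((univ.filter (fun u' : V => ((s(u, u'), c) : PX V K) ∈ st.L)).card : ℝ) ≤
          ρ * a := by
        refine le_trans ?_ (h.inv.node (u, c))
        exact_mod_cast h2
      have h4 : ((univ.filter (fun u' : V => ((s(u, u'), c) : PX V K) ∈ st.L)).card : ℝ) *
          (θ / a) ≤ ρ * a * (θ / a) := mul_le_mul_of_nonneg_right h3 hθa
      have h5 : ρ * a * (θ / a) = ρ * θ := by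
        field_simp
      linarith

theorem row_sum (h : Hyp (gS G K n₀) st K a B Γ m ρ w g θ δ) (hρ : ρ * θ ≤ 1 - δ) {M : ℕ}
    {D₀ C₀ : Finset (Fin 3 × PX V K)} (hH : Hist (gS G K n₀) st D₀ C₀ M)
    (u : V) (c : Fin K) :
    ∑ u', Wh st D₀ C₀ (θ / a) δ (s(u, u'), c) ≤ 1 := by
  refine (hist_row h hρ hH u c).trans ?_
  have := h.δ0
  split_ifs <;> linarith

theorem row_sum_free (h : Hyp (gS G K n₀) st K a B Γ m ρ w g θ δ) (hρ : ρ * θ ≤ 1 - δ) {M : ℕ}
    {D₀ C₀ : Finset (Fin 3 × PX V K)} (hH : Hist (gS G K n₀) st D₀ C₀ M)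
    (u : V) (c : Fin K) (hc : c ∉ Col D₀) :
    ∑ u', Wh st D₀ C₀ (θ / a) δ (s(u, u'), c) ≤ 1 - δ := by
  refine (hist_row h hρ hH u c).trans ?_
  rw [if_neg hc]

end Pool.Agent.H77.AC
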