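import Pool.Agent.H77.AC.Fam

/-!
# AC-LOC0: locality of short sets, conflicts and paths; size of `Mloc`

`endp e` = an end of the edge `e`. Throughout `m = 2 n₀ + 2`.

* `C_edge`, `C_ball`: an element `H` of `(gS G K n₀).C` is a cycle of length `2n+4 ≤ m`: its pairs are on edges of `G`, and any two
  vertices of the cycle are joined by a walk of length `≤ m` along it (`ball_step` repeatedly along `v i, v (i+1), ...`).
* `sets_ball`: for a crude family `φ` with first pair `x` (`fst`), `Q ∈ φ.sets S`, `u ∈ x.1`, `y ∈ Q`: `y.1 ∈ G.edgeSet`, all ends of `y` in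
  `ballG G (2 m) u`; also `x.1 ∈ G.edgeSet` if the family is not empty. (`f4`: `H₁ ∩ H₂ ≠ ∅`, twice `C_ball`.)
* `nbh_ball`: `x` live, `y ∈ nbh x`, `u ∈ x.1`: some end of `y` is in `ballG G (m + 1) u` (same edge; common vertex; common short
  set).
* `path_ball`: if all steps of a path are on edges of `G` then `v i ∈ ballG G i (v 0)`.
* `supp_path`: for a set `T` of pairs on edges of `G` all of which have an end in `ballG G n u`, the variables `dV st T`, `cV S st T` are in `bvar G K (n+1) u`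
  (an element of `isoN x` shares the edge or a vertex of `x`; live pairs are on edges of `G`).
* `Mloc1`, `Mloc2`, `Mloc6`: with `b = 8 m (K+1) ≥ 8 (K+1)`, `R = r₀ + 4 m`: `3 K K (K+1)^R ≤ b^(R+3)`,
  `2 (K+1)^R K² (K+1)^R ≤ b^(2R+3)`, and `2 (K+1)^R b^((R+5)(2m+4)) ≤ b^(R + 1 + (R+5)(2m+4))`; exponents at most `(R+10)(4m+8)`.
-/

set_option autoImplicit false

open Finset
open scoped Classical

namespace Pool.Agent.H77.AC

variable {V : Type} [Fintype V] [DecidableEq V] {K : ℕ}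

/-- an end of an edge -/
noncomputable def endp (e : Sym2 V) : V := (Quot.out e).1

/-- first pair of a crude family -/
def Fm.fst {X E N : Type} : Fm X E N → X
  | .f1 x _ => x
  | .f2 x _ => x
  | .f3 x _ => x
  | .f4 z _ => z

theorem endp_mem (e : Sym2 V) : endp e ∈ e := Sym2.out_fst_mem e

private theorem loc0_C (G : SimpleGraph V) (n₀ : ℕ) (H : Finset (PX V K))
    (hH : H ∈ (gS G K n₀).C) : ∃ n < n₀, IsCyc G n H := by
  have h : H ∈ univ.filter (fun H : Finset (PX V K) => ∃ n < n₀, IsCyc G n H) := hH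
  exact (mem_filter.1 h).2

theorem C_edge (G : SimpleGraph V) (n₀ : ℕ) (H : Finset (PX V K)) (hH : H ∈ (gS G K n₀).C)
    (y : PX V K) (hy : y ∈ H) : y.1 ∈ G.edgeSet := by
  obtain ⟨n, _, v, b, c, _, hadj, _, hHe⟩ := loc0_C G n₀ H hH
  rw [hHe, mem_image] at hy
  obtain ⟨i, _, rfl⟩ := hy
  show s(v i, v (i + 1)) ∈ G.edgeSet
  rw [SimpleGraph.mem_edgeSet]
  exact hadj i

private theorem loc0_cyc (G : SimpleGraph V) {n : ℕ} (v : Fin (2 * n + 4) → V)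
    (hadj : ∀ i, G.Adj (v i) (v (i + 1))) (a : Fin (2 * n + 4)) :
    ∀ (k : ℕ) (hk : k < 2 * n + 4), v (a + ⟨k, hk⟩) ∈ ballG G k (v a) := by
  intro k
  induction k with
  | zero =>
    intro hk
    have e : a + (⟨0, hk⟩ : Fin (2 * n + 4)) = a := by
      ext
      rw [Fin.val_add, add_zero]
      exact Nat.mod_eq_of_lt a.isLt
    rw [e]
    exact ball_self G 0 (v a)
  | succ k ih =>
    intro hk
    have e : a + (⟨k + 1, hk⟩ : Fin (2 * n + 4)) = (a + ⟨k, by omega⟩) + 1 := by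
      rw [add_assoc]
      congr 1
      ext
      rw [Fin.val_add]
      simp only [Fin.val_one']
      rw [Nat.add_mod_mod, Nat.mod_eq_of_lt hk]
    rw [e]
    exact ball_step G k _ _ _ (ih (by omega)) (hadj _)

private theorem loc0_cyc2 (G : SimpleGraph V) {n : ℕ} (v : Fin (2 * n + 4) → V)
    (hadj : ∀ i, G.Adj (v i) (v (i + 1))) (a b : Fin (2 * n + 4)) :
    v b ∈ ballG G (2 * n + 3) (v a) := by
  have h := loc0_cyc G v hadj a (b - a).val (b - a).isLt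
  have e : a + (⟨(b - a).val, (b - a).isLt⟩ : Fin (2 * n + 4)) = b := by
    rw [Fin.eta, add_sub_cancel]
  rw [e] at h
  exact ball_mono G (by have := (b - a).isLt; omega) _ h

theorem C_ball (G : SimpleGraph V) (n₀ : ℕ) (H : Finset (PX V K)) (hH : H ∈ (gS G K n₀).C)
    (x y : PX V K) (hx : x ∈ H) (hy : y ∈ H) (u w : V) (hu : u ∈ x.1) (hw : w ∈ y.1) :
    w ∈ ballG G (2 * n₀ + 2) u := by
  obtain ⟨n, hn, v, b, c, _, hadj, _, hHe⟩ := loc0_C G n₀ H hH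
  rw [hHe, mem_image] at hx hy
  obtain ⟨i, _, rfl⟩ := hx
  obtain ⟨j, _, rfl⟩ := hy
  have hu' : u ∈ s(v i, v (i + 1)) := hu
  have hw' : w ∈ s(v j, v (j + 1)) := hw
  have h1 : ∃ a, u = v a := by
    rcases Sym2.mem_iff.1 hu' with h | h
    · exact ⟨i, h⟩
    · exact ⟨i + 1, h⟩
  have h2 : ∃ a, w = v a := by
    rcases Sym2.mem_iff.1 hw' with h | h
    · exact ⟨j, h⟩
    · exact ⟨j + 1, h⟩
  obtain ⟨a, rfl⟩ := h1
  obtain ⟨a', rfl⟩ := h2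
  exact ball_mono G (by omega) _ (loc0_cyc2 G v hadj a a')

private theorem loc0_one (G : SimpleGraph V) (n₀ : ℕ) (H : Finset (PX V K))
    (hH : H ∈ (gS G K n₀).C) (x : PX V K) (hx : x ∈ H) (Q : Finset (PX V K)) (hQ : Q ⊆ H) :
    x.1 ∈ G.edgeSet ∧ ∀ y ∈ Q, y.1 ∈ G.edgeSet ∧
      ∀ u ∈ x.1, ∀ w ∈ y.1, w ∈ ballG G (2 * (2 * n₀ + 2)) u := by
  refine ⟨C_edge G n₀ H hH x hx, fun y hy => ⟨C_edge G n₀ H hH y (hQ hy), fun u hu w hw => ?_⟩⟩
  exact ball_mono G (by omega) _ (C_ball G n₀ H hH x y hx (hQ hy) u w hu hw)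

theorem sets_ball (G : SimpleGraph V) (n₀ : ℕ) (φ : Fm (PX V K) (Sym2 V) (V × Fin K))
    (Q : Finset (PX V K)) (hQ : Q ∈ φ.sets (gS G K n₀)) :
    φ.fst.1 ∈ G.edgeSet ∧ ∀ y ∈ Q, y.1 ∈ G.edgeSet ∧
      ∀ u ∈ φ.fst.1, ∀ w ∈ y.1, w ∈ ballG G (2 * (2 * n₀ + 2)) u := by
  cases φ with
  | f1 x y =>
    simp only [Fm.sets, Finset.mem_image, Finset.mem_filter] at hQ
    obtain ⟨H, ⟨hH, _, hx, _⟩, rfl⟩ := hQ
    exact loc0_one G n₀ H hH x hx _ sdiff_subset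
  | f2 x ν =>
    simp only [Fm.sets, Finset.mem_image, Finset.mem_filter] at hQ
    obtain ⟨H, ⟨hH, hx, _⟩, rfl⟩ := hQ
    exact loc0_one G n₀ H hH x hx _ (erase_subset _ _)
  | f3 x e =>
    simp only [Fm.sets, Finset.mem_image, Finset.mem_filter] at hQ
    obtain ⟨H, ⟨hH, hx, _⟩, rfl⟩ := hQ
    exact loc0_one G n₀ H hH x hx _ (erase_subset _ _)
  | f4 z z' =>
    simp only [Fm.sets, Finset.mem_image, Finset.mem_filter, Finset.mem_product] at hQ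
    obtain ⟨⟨H1, H2⟩, ⟨⟨hH1, hH2⟩, _, hz, hz', _, _, ⟨t, ht⟩, _⟩, rfl⟩ := hQ
    refine ⟨C_edge G n₀ H1 hH1 z hz, fun y hy => ?_⟩
    rcases mem_union.1 hy with h | h
    · exact (loc0_one G n₀ H1 hH1 z hz _ (erase_subset _ _)).2 y h
    · have hy2 : y ∈ H2 := mem_of_mem_erase h
      refine ⟨C_edge G n₀ H2 hH2 y hy2, fun u hu w hw => ?_⟩
      rw [mem_inter] at ht
      have h1 := C_ball G n₀ H1 hH1 z t hz ht.1 u (endp t.1) hu (endp_mem t.1)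
      have h2 := C_ball G n₀ H2 hH2 t y ht.2 hy2 (endp t.1) w (endp_mem t.1) hw
      rw [two_mul (2 * n₀ + 2)]
      exact ball_add G _ _ u _ w h1 h2

/-- the ends of an edge are at distance at most one -/
private theorem loc0_edge (G : SimpleGraph V) {e : Sym2 V} (he : e ∈ G.edgeSet) {u w v : V}
    (hu : u ∈ e) (hw : w ∈ e) {n : ℕ} (h : u ∈ ballG G n v) : w ∈ ballG G (n + 1) v := by
  by_cases huw : u = w
  · rw [← huw]
    exact ball_mono G (Nat.le_succ n) _ h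
  · have h1 : e = s(u, w) := (Sym2.mem_and_mem_iff huw).1 ⟨hu, hw⟩
    rw [h1, SimpleGraph.mem_edgeSet] at he
    exact ball_step G n u w v h he

private theorem loc0_nd {G : SimpleGraph V} {n₀ : ℕ} {x y : PX V K}
    (h : ¬ Disjoint ((gS G K n₀).nd x) ((gS G K n₀).nd y)) : ∃ ν : V, ν ∈ x.1 ∧ ν ∈ y.1 := by
  rw [Finset.not_disjoint_iff] at h
  obtain ⟨ν, h1, h2⟩ := h
  have h1' : ν ∈ univ.filter (fun ν : V × Fin K => ν.1 ∈ x.1 ∧ ν.2 = x.2) := h1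
  have h2' : ν ∈ univ.filter (fun ν : V × Fin K => ν.1 ∈ y.1 ∧ ν.2 = y.2) := h2
  exact ⟨ν.1, (mem_filter.1 h1').2.1, (mem_filter.1 h2').2.1⟩

theorem nbh_ball (G : SimpleGraph V) (n₀ : ℕ) (st : St (PX V K) (Sym2 V)) (x y : PX V K)
    (hx : x ∈ st.L) (hy : y ∈ nbh (gS G K n₀) st x) (u : V) (hu : u ∈ x.1)
    (hE : x.1 ∈ G.edgeSet) :
    ∃ w ∈ y.1, w ∈ ballG G (2 * n₀ + 3) u := by
  rw [nbh, mem_union] at hy
  rcases hy with hy | hy
  · rw [own, mem_filter] at hy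
    have h1 : y.1 = x.1 := hy.2
    exact ⟨u, by rw [h1]; exact hu, ball_self G _ u⟩
  · rw [conf, mem_filter] at hy
    obtain ⟨_, _, h1 | ⟨H, hH, hxH, hyH, _⟩⟩ := hy
    · obtain ⟨ν, h2, h3⟩ := loc0_nd h1
      refine ⟨ν, h3, ?_⟩
      exact ball_mono G (by omega) _ (loc0_edge G hE hu h2 (ball_self G 0 u))
    · refine ⟨endp y.1, endp_mem y.1, ?_⟩
      exact ball_mono G (by omega) _ (C_ball G n₀ H hH x y hxH hyH u _ hu (endp_mem y.1))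

theorem path_ball (G : SimpleGraph V) {n : ℕ} (v : Fin (n + 1) → V)
    (h : ∀ i : Fin n, s(v i.castSucc, v i.succ) ∈ G.edgeSet) (i : Fin (n + 1)) :
    v i ∈ ballG G i (v 0) := by
  induction i using Fin.induction with
  | zero => exact ball_self G _ _
  | succ i ih =>
    have h1 := h i
    rw [SimpleGraph.mem_edgeSet] at h1
    rw [Fin.val_succ]
    rw [Fin.val_castSucc] at ih
    exact ball_step G _ _ _ _ ih h1

theorem supp_path (G : SimpleGraph V) (n₀ : ℕ) (st : St (PX V K) (Sym2 V))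
    (hL : ∀ x ∈ st.L, x.1 ∈ G.edgeSet) (hR : ∀ x ∈ st.R, x.1 ∈ G.edgeSet)
    (T : Finset (PX V K)) (n : ℕ) (u : V) (hT : ∀ x ∈ T, ∃ w ∈ x.1, w ∈ ballG G n u) :
    dV st T ∪ cV (gS G K n₀) st T ⊆ bvar G K (n + 1) u := by
  intro i hi
  unfold bvar
  rw [mem_filter]
  refine ⟨mem_univ _, ?_⟩
  rw [dV, cV, mem_union, mem_union, mem_image, mem_image, mem_image] at hi
  rcases hi with (⟨x, hx, rfl⟩ | ⟨x, hx, rfl⟩) | ⟨y, hy, rfl⟩
  · rw [mem_inter] at hx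
    obtain ⟨w, hw, hwb⟩ := hT x hx.1
    exact ⟨hR x hx.2, w, hw, ball_mono G (Nat.le_succ n) _ hwb⟩
  · rw [mem_inter] at hx
    obtain ⟨w, hw, hwb⟩ := hT x hx.1
    exact ⟨hL x hx.2, w, hw, ball_mono G (Nat.le_succ n) _ hwb⟩
  · rw [mem_biUnion] at hy
    obtain ⟨x, hx, hy⟩ := hy
    rw [mem_inter] at hx
    rw [isoN, mem_filter] at hy
    obtain ⟨w, hw, hwb⟩ := hT x hx.1
    refine ⟨hL y hy.1, ?_⟩
    rcases hy.2.2 with h1 | h1
    · have h2 : y.1 = x.1 := h1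
      refine ⟨w, ?_, ball_mono G (Nat.le_succ n) _ hwb⟩
      show w ∈ y.1
      rw [h2]
      exact hw
    · obtain ⟨ν, h2, h3⟩ := loc0_nd h1
      exact ⟨ν, h3, loc0_edge G (hL x hx.2) hw h2 hwb⟩

theorem Mloc1 (K n₀ r₀ : ℕ) :
    3 * K * K * (K + 1) ^ (r₀ + 4 * (2 * n₀ + 2)) ≤ Mloc K n₀ r₀ := by
  unfold Mloc
  obtain ⟨q, hq⟩ : ∃ q : ℕ, q = 2 * n₀ + 2 := ⟨_, rfl⟩
  have hq2 : 2 ≤ q := by omega
  rw [← hq]
  obtain ⟨R, hR⟩ : ∃ R : ℕ, R = r₀ + 4 * q := ⟨_, rfl⟩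
  rw [← hR]
  obtain ⟨b, hb⟩ : ∃ b : ℕ, b = 8 * q * (K + 1) := ⟨_, rfl⟩
  rw [← hb]
  have hb1 : K + 1 ≤ b := by nlinarith
  have hb3 : 3 ≤ b := by nlinarith
  calc 3 * K * K * (K + 1) ^ R ≤ b * b * b * b ^ R := by
        gcongr
        · omega
        · omega
    _ = b ^ (R + 3) := by ring
    _ ≤ b ^ ((R + 10) * (4 * q + 8)) := by
      apply Nat.pow_le_pow_right (by omega)
      nlinarith

theorem Mloc2 (K n₀ r₀ Mc : ℕ) (h : Mc ≤ K ^ 2 * (K + 1) ^ (r₀ + 4 * (2 * n₀ + 2))) :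
    2 * (K + 1) ^ (r₀ + 4 * (2 * n₀ + 2)) * Mc ≤ Mloc K n₀ r₀ := by
  unfold Mloc
  obtain ⟨q, hq⟩ : ∃ q : ℕ, q = 2 * n₀ + 2 := ⟨_, rfl⟩
  have hq2 : 2 ≤ q := by omega
  rw [← hq] at h ⊢
  obtain ⟨R, hR⟩ : ∃ R : ℕ, R = r₀ + 4 * q := ⟨_, rfl⟩
  rw [← hR] at h ⊢
  obtain ⟨b, hb⟩ : ∃ b : ℕ, b = 8 * q * (K + 1) := ⟨_, rfl⟩
  rw [← hb]
  have hb1 : K + 1 ≤ b := by nlinarith
  have hb3 : 3 ≤ b := by nlinarith
  calc 2 * (K + 1) ^ R * Mc ≤ 2 * (K + 1) ^ R * (K ^ 2 * (K + 1) ^ R) := by gcongr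
    _ ≤ b * b ^ R * (b ^ 2 * b ^ R) := by
        gcongr
        · omega
        · omega
    _ = b ^ (2 * R + 3) := by ring
    _ ≤ b ^ ((R + 10) * (4 * q + 8)) := by
      apply Nat.pow_le_pow_right (by omega)
      nlinarith

theorem Mloc6 (K n₀ r₀ Mc : ℕ)
    (h : Mc ≤ (8 * (2 * n₀ + 2) * (K + 1)) ^
      ((r₀ + 4 * (2 * n₀ + 2) + 5) * (2 * (2 * n₀ + 2) + 4))) :
    2 * (K + 1) ^ (r₀ + 4 * (2 * n₀ + 2)) * Mc ≤ Mloc K n₀ r₀ := by
  unfold Mloc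
  obtain ⟨q, hq⟩ : ∃ q : ℕ, q = 2 * n₀ + 2 := ⟨_, rfl⟩
  have hq2 : 2 ≤ q := by omega
  rw [← hq] at h ⊢
  obtain ⟨R, hR⟩ : ∃ R : ℕ, R = r₀ + 4 * q := ⟨_, rfl⟩
  rw [← hR] at h ⊢
  obtain ⟨b, hb⟩ : ∃ b : ℕ, b = 8 * q * (K + 1) := ⟨_, rfl⟩
  rw [← hb] at h ⊢
  have hb1 : K + 1 ≤ b := by nlinarith
  have hb3 : 3 ≤ b := by nlinarith
  calc 2 * (K + 1) ^ R * Mc ≤ 2 * (K + 1) ^ R * b ^ ((R + 5) * (2 * q + 4)) := by gcongr
    _ ≤ b * b ^ R * b ^ ((R + 5) * (2 * q + 4)) := by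
        gcongr
        omega
    _ = b ^ (1 + R + (R + 5) * (2 * q + 4)) := by
        rw [pow_add, pow_add, pow_one]
    _ ≤ b ^ ((R + 10) * (4 * q + 8)) := by
      apply Nat.pow_le_pow_right (by omega)
      nlinarith

end Pool.Agent.H77.AC
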