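import Pool.Agent.H77.AC.Num

/-!
# AC-NUMB3: polynomial inequalities for large `β`, part 2

`mu9 β (β³(β+1)) 1 = (β+1)² + 2(β+1)(M + (2M+2)²)` with `M = β³(β+1) ≤ 2 β⁴`, so `2M+2 ≤ 6 β⁴`, `mu9 ≤ 4β² + 4β (2β⁴ + 36 β⁸) ≤ 200 β⁹` for
`β ≥ 1`.
-/

set_option autoImplicit false

open Finset
open scoped Classical

namespace Pool.Agent.H77.AC

theorem poly_dom' (C₁ C₂ : ℝ) (k e : ℕ) (hC₂ : 0 < C₂) (hk : k < e) :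
    ∃ β₀ : ℕ, 1 ≤ β₀ ∧ ∀ β K : ℕ, β₀ ≤ β → β ^ e ≤ K → C₁ * (β : ℝ) ^ k ≤ C₂ * K := by
  refine ⟨max 1 ⌈|C₁| / C₂⌉₊, le_max_left _ _, ?_⟩
  intro β K hβ hK
  have h1 : 1 ≤ β := le_trans (le_max_left _ _) hβ
  have h2 : |C₁| / C₂ ≤ β := by
    refine (Nat.le_ceil _).trans ?_
    exact_mod_cast (le_trans (le_max_right _ _) hβ)
  have h3 : |C₁| ≤ C₂ * β := by
    rw [div_le_iff₀ hC₂] at h2; linarith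
  have hb1 : (1 : ℝ) ≤ β := by exact_mod_cast h1
  have h4 : (β : ℝ) ^ (k + 1) ≤ (β : ℝ) ^ e := pow_le_pow_right₀ hb1 hk
  have h5 : (β : ℝ) ^ e ≤ K := by exact_mod_cast hK
  calc C₁ * (β : ℝ) ^ k ≤ |C₁| * (β : ℝ) ^ k := by gcongr; exact le_abs_self _
    _ ≤ C₂ * β * (β : ℝ) ^ k := by gcongr
    _ = C₂ * (β : ℝ) ^ (k + 1) := by rw [pow_succ]; ring
    _ ≤ C₂ * (K : ℝ) := by gcongr; exact h4.trans h5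

theorem mu9_le_pow (β : ℕ) (hβ : 1 ≤ β) :
    mu9 β (β ^ 3 * (β + 1)) 1 ≤ 200 * (β : ℝ) ^ 9 := by
  unfold mu9
  have h1 : (1 : ℝ) ≤ β := by exact_mod_cast hβ
  push_cast
  generalize (β : ℝ) = x at h1 ⊢
  have h0 : 0 ≤ x := by linarith
  have hM : x ^ 3 * (x + 1) ≤ 2 * x ^ 4 := by
    have : 0 ≤ x ^ 3 * (x - 1) := mul_nonneg (by positivity) (by linarith)
    nlinarith
  have hx4 : 1 ≤ x ^ 4 := one_le_pow₀ h1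
  have h2 : 2 * (x ^ 3 * (x + 1)) + 2 ≤ 6 * x ^ 4 := by linarith
  have h3 : (2 * (x ^ 3 * (x + 1)) + 2) ^ 2 ≤ (6 * x ^ 4) ^ 2 :=
    pow_le_pow_left₀ (by positivity) h2 2
  have e48 : x ^ 4 ≤ x ^ 8 := pow_le_pow_right₀ h1 (by norm_num)
  have h4 : x ^ 3 * (x + 1) + (2 * (x ^ 3 * (x + 1)) + 2) ^ 2 * 1 ≤ 38 * x ^ 8 := by
    have : (6 * x ^ 4) ^ 2 = 36 * x ^ 8 := by ring
    rw [this] at h3
    linarith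
  have h5 : 2 * (x + 1) ≤ 4 * x := by linarith
  have h6 : 2 * (x + 1) * (x ^ 3 * (x + 1) + (2 * (x ^ 3 * (x + 1)) + 2) ^ 2 * 1) ≤
      4 * x * (38 * x ^ 8) := by
    apply mul_le_mul h5 h4 (by positivity) (by positivity)
  have h7 : (x + 1) ^ 2 ≤ 4 * x ^ 2 := by nlinarith
  have h8 : x ^ 2 ≤ x ^ 9 := pow_le_pow_right₀ h1 (by norm_num)
  have h9 : 4 * x * (38 * x ^ 8) = 152 * x ^ 9 := by ring
  have h10 : 0 ≤ x ^ 9 := by positivity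
  rw [h9] at h6
  linarith

theorem big_mu {ρ δs : ℝ} (C : Cn ρ δs) : ∃ β₀ : ℕ, ∀ β K : ℕ, β₀ ≤ β → β ^ C.e₀ ≤ K →
    (((β : ℝ) ^ 3 * (2 * C.m) + 1) ^ (2 * C.m) * (2 * C.m + 1) * 2 ^ (2 * C.m) ≤
      (β : ℝ) ^ C.E₁ / 2) ∧
    (mu9 β (β ^ 3 * (β + 1)) 1 + 1 / 2 ≤ (β : ℝ) ^ C.E₁ / 2) ∧
    ((β : ℝ) ^ 3 * (β + 1) * (mu9 β (β ^ 3 * (β + 1)) 1 * (β : ℝ) ^ C.γ) ≤
      C.θ / C.α * C.σ * K) ∧
    (2 * ((β : ℝ) ^ 3 * (β + 1)) * (β : ℝ) ^ C.γ +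
      6 * ((β : ℝ) ^ 3 * (β + 1)) * (mu9 β (β ^ 3 * (β + 1)) 1 * (β : ℝ) ^ C.γ) ≤
      C.θ ^ 2 * K) := by
  have hθ := C.θ0
  have hα := C.α0
  have hσ := C.σ0
  have hm1 : 1 ≤ C.m := by unfold Cn.m; omega
  have hE : C.E₁ = 6 * C.m + 20 := rfl
  have he : C.e₀ = C.γ + 20 * C.m + 100 := rfl
  rw [he, hE]
  generalize C.m = m at hm1 ⊢
  generalize C.γ = γ
  clear he hE
  obtain ⟨e, hee, he1⟩ : ∃ e, e = γ + 20 * m + 100 ∧ 13 + γ < e := ⟨_, rfl, by omega⟩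
  rw [← hee]
  clear hee
  obtain ⟨E, hEE, hE1, hE2⟩ : ∃ E, E = 6 * m + 20 ∧ 6 * m < E ∧ 9 < E :=
    ⟨_, rfl, by omega, by omega⟩
  rw [← hEE]
  clear hEE
  obtain ⟨b1, hb1, h1⟩ := poly_dom' ((2 * m + 1) ^ (2 * m) * (2 * m + 1) * 2 ^ (2 * m)) (1 / 2)
    (6 * m) E (by norm_num) hE1
  obtain ⟨b2, hb2, h2⟩ := poly_dom' 201 (1 / 2) 9 E (by norm_num) hE2
  obtain ⟨b3, hb3, h3⟩ := poly_dom' 400 (C.θ / C.α * C.σ) (13 + γ) e (by positivity) he1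
  obtain ⟨b4, hb4, h4⟩ := poly_dom' 2404 (C.θ ^ 2) (13 + γ) e (by positivity) he1
  refine ⟨b1 + b2 + b3 + b4, ?_⟩
  intro β K hβ hK
  specialize h1 β (β ^ E) (by omega) le_rfl
  specialize h2 β (β ^ E) (by omega) le_rfl
  specialize h3 β K (by omega) hK
  specialize h4 β K (by omega) hK
  have hβ1 : 1 ≤ β := by omega
  have hβr : (1 : ℝ) ≤ β := by exact_mod_cast hβ1
  clear hK
  have hmu := mu9_le_pow β hβ1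
  have hx9 : (1 : ℝ) ≤ (β : ℝ) ^ 9 := one_le_pow₀ hβr
  have hx3 : (1 : ℝ) ≤ (β : ℝ) ^ 3 := one_le_pow₀ hβr
  have hg1 : (1 : ℝ) ≤ (β : ℝ) ^ γ := one_le_pow₀ hβr
  have hmr : (1 : ℝ) ≤ m := by exact_mod_cast hm1
  push_cast at h1 h2
  have hM : (β : ℝ) ^ 3 * (β + 1) ≤ 2 * (β : ℝ) ^ 4 := by
    have : 0 ≤ (β : ℝ) ^ 3 * (β - 1) := mul_nonneg (by positivity) (by linarith)
    nlinarith
  have hP : (β : ℝ) ^ 3 * (β + 1) * (mu9 β (β ^ 3 * (β + 1)) 1 * (β : ℝ) ^ γ) ≤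
      400 * (β : ℝ) ^ (13 + γ) := by
    have h0 : 0 ≤ mu9 β (β ^ 3 * (β + 1)) 1 := by unfold mu9; positivity
    calc (β : ℝ) ^ 3 * (β + 1) * (mu9 β (β ^ 3 * (β + 1)) 1 * (β : ℝ) ^ γ)
        ≤ 2 * (β : ℝ) ^ 4 * (200 * (β : ℝ) ^ 9 * (β : ℝ) ^ γ) := by gcongr
      _ = 400 * ((β : ℝ) ^ 4 * (β : ℝ) ^ 9 * (β : ℝ) ^ γ) := by ring
      _ = 400 * (β : ℝ) ^ (13 + γ) := by rw [← pow_add, ← pow_add]
  refine ⟨?_, ?_, ?_, ?_⟩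
  · have hq : ((β : ℝ) ^ 3 * (2 * m) + 1) ^ (2 * m) ≤ (2 * m + 1) ^ (2 * m) * (β : ℝ) ^ (6 * m) := by
      have e1 : (β : ℝ) ^ (6 * m) = ((β : ℝ) ^ 3) ^ (2 * m) := by
        rw [← pow_mul]; congr 1; ring
      rw [e1, ← mul_pow]
      apply pow_le_pow_left₀ (by positivity)
      nlinarith
    calc ((β : ℝ) ^ 3 * (2 * m) + 1) ^ (2 * m) * (2 * m + 1) * 2 ^ (2 * m)
        ≤ ((2 * m + 1) ^ (2 * m) * (β : ℝ) ^ (6 * m)) * (2 * m + 1) * 2 ^ (2 * m) := by gcongr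
      _ = (2 * m + 1) ^ (2 * m) * (2 * m + 1) * 2 ^ (2 * m) * (β : ℝ) ^ (6 * m) := by ring
      _ ≤ 1 / 2 * (β : ℝ) ^ E := h1
      _ = _ := by ring
  · linarith
  · exact hP.trans h3
  · have h5 : (β : ℝ) ^ 3 * (β + 1) * (β : ℝ) ^ γ ≤ 2 * (β : ℝ) ^ (13 + γ) := by
      calc (β : ℝ) ^ 3 * (β + 1) * (β : ℝ) ^ γ ≤ 2 * (β : ℝ) ^ 4 * (β : ℝ) ^ γ := by gcongr
        _ = 2 * (β : ℝ) ^ (4 + γ) := by rw [mul_assoc, ← pow_add]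
        _ ≤ 2 * (β : ℝ) ^ (13 + γ) := by
            have := pow_le_pow_right₀ hβr (by omega : 4 + γ ≤ 13 + γ)
            linarith
    have h6 : 2 * ((β : ℝ) ^ 3 * (β + 1)) * (β : ℝ) ^ γ +
      6 * ((β : ℝ) ^ 3 * (β + 1)) * (mu9 β (β ^ 3 * (β + 1)) 1 * (β : ℝ) ^ γ) =
      2 * ((β : ℝ) ^ 3 * (β + 1) * (β : ℝ) ^ γ) +
      6 * ((β : ℝ) ^ 3 * (β + 1) * (mu9 β (β ^ 3 * (β + 1)) 1 * (β : ℝ) ^ γ)) := by ring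
    rw [h6]
    linarith

end Pool.Agent.H77.AC
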