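import Pool.Agent.H77.AC.Num

/-!
# AC-NUMB4: the inequality of the local lemma for large `β`

`K + 1 ≤ (β+1)^e₀`, so with `m = 2 n₀ + 2`: `Mloc K n₀ β ≤ (8 m (β+1)^e₀)^((β+4m+10)(4m+8))`. Hence
`23 Mloc² ≤ exp (92 + 2 (β+4m+10)(4m+8)(8m + e₀ β))`, exponent `≤ C' β²` for a constant `C'`, while
`c^(β³) = exp (-β³ log (1/c))`, `log (1/c) > 0` (`1/2 ≤ c < 1`).
-/

set_option autoImplicit false

open Finset
open scoped Classical

namespace Pool.Agent.H77.AC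

theorem kL_aux1 (m β : ℕ) (h : (1 : ℝ) ≤ β) : (β : ℝ) + 4 * m + 10 ≤ (4 * m + 11) * β := by
  have h1 : (0 : ℝ) ≤ 4 * m + 10 := by positivity
  have h2 : (0 : ℝ) ≤ (4 * m + 10) * (β - 1) := mul_nonneg h1 (by linarith)
  linarith

theorem kL_aux2 (m e β : ℕ) (h : (1 : ℝ) ≤ β) : (8 * (m : ℝ) + e * β) ≤ (8 * m + e) * β := by
  have h1 : (0 : ℝ) ≤ 8 * m := by positivity
  have h2 : (0 : ℝ) ≤ 8 * m * (β - 1) := mul_nonneg h1 (by linarith)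
  linarith

theorem kL_aux3 (m β N : ℕ) (h : (1 : ℝ) ≤ β) (hN : N = (β + 4 * m + 10) * (4 * m + 8)) :
    (N : ℝ) ≤ (4 * m + 11) * (4 * m + 8) * β := by
  rw [hN]
  push_cast
  have h1 := kL_aux1 m β h
  have h2 : (0 : ℝ) ≤ 4 * m + 8 := by positivity
  calc ((β : ℝ) + 4 * m + 10) * (4 * m + 8) ≤ (4 * m + 11) * β * (4 * m + 8) :=
        mul_le_mul_of_nonneg_right h1 h2
    _ = _ := by ring

theorem kL_aux4 (m e β K : ℕ) (hK : K < (β + 1) ^ e) :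
    ((8 * m * (K + 1) : ℕ) : ℝ) ≤ Real.exp (8 * m + e * β) := by
  have h1 : ((8 * m : ℕ) : ℝ) ≤ Real.exp (8 * m) := by
    have := Real.add_one_le_exp ((8 : ℝ) * m)
    push_cast; linarith
  have h2 : ((K + 1 : ℕ) : ℝ) ≤ Real.exp (e * β) := by
    have h3 : ((K + 1 : ℕ) : ℝ) ≤ (((β + 1) ^ e : ℕ) : ℝ) := Nat.cast_le.2 hK
    refine h3.trans ?_
    push_cast
    have h4 : (β : ℝ) + 1 ≤ Real.exp β := Real.add_one_le_exp _
    calc ((β : ℝ) + 1) ^ e ≤ Real.exp β ^ e := pow_le_pow_left₀ (by positivity) h4 e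
      _ = Real.exp (e * β) := by rw [← Real.exp_nat_mul]
  rw [Real.exp_add]
  have h5 : ((8 * m * (K + 1) : ℕ) : ℝ) = ((8 * m : ℕ) : ℝ) * ((K + 1 : ℕ) : ℝ) := by
    push_cast; ring
  rw [h5]
  exact mul_le_mul h1 h2 (Nat.cast_nonneg _) (Real.exp_pos _).le

theorem kL_aux5 (L C' : ℝ) (m e β N : ℕ) (hβr : (1 : ℝ) ≤ β)
    (hN : (N : ℝ) ≤ (4 * m + 11) * (4 * m + 8) * β)
    (hC' : C' = 92 + 2 * ((4 * m + 11) * (4 * m + 8)) * (8 * m + e)) (hβL : C' ≤ L * β) :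
    (92 : ℝ) + 2 * (N * (8 * m + e * β)) ≤ L * β ^ 3 := by
  have h1 : (8 * (m : ℝ) + e * β) ≤ (8 * m + e) * β := kL_aux2 m e β hβr
  have h2 : (N : ℝ) * (8 * m + e * β) ≤ ((4 * m + 11) * (4 * m + 8) * β) * ((8 * m + e) * β) :=
    mul_le_mul hN h1 (by positivity) (by positivity)
  have h3 : (92 : ℝ) ≤ 92 * β ^ 2 := by
    have := one_le_pow₀ (n := 2) hβr
    linarith
  calc (92 : ℝ) + 2 * (N * (8 * m + e * β))
      ≤ 92 * β ^ 2 + 2 * (((4 * m + 11) * (4 * m + 8) * β) * ((8 * m + e) * β)) := by linarith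
    _ = C' * β ^ 2 := by rw [hC']; ring
    _ ≤ (L * β) * β ^ 2 := mul_le_mul_of_nonneg_right hβL (by positivity)
    _ = L * β ^ 3 := by ring

theorem kL_aux6 (Y A B : ℝ) (hY : 0 ≤ Y) (hYA : Y ≤ Real.exp A) (h : 92 + 2 * A ≤ B) :
    4 * Real.exp (-B) * (23 * Y * Y) ≤ 1 := by
  have h92 : (92 : ℝ) ≤ Real.exp 92 := by
    have := Real.add_one_le_exp (92 : ℝ); linarith
  have h0 : 0 ≤ Real.exp (-B) := (Real.exp_pos _).le
  have h1 : Y * Y ≤ Real.exp A * Real.exp A :=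
    mul_le_mul hYA hYA hY (Real.exp_pos _).le
  calc 4 * Real.exp (-B) * (23 * Y * Y)
      = 92 * (Y * Y) * Real.exp (-B) := by ring
    _ ≤ Real.exp 92 * (Real.exp A * Real.exp A) * Real.exp (-B) := by
        apply mul_le_mul_of_nonneg_right _ h0
        exact mul_le_mul h92 h1 (mul_nonneg hY hY) (Real.exp_pos _).le
    _ = Real.exp (92 + 2 * A - B) := by
        rw [← Real.exp_add, ← Real.exp_add, ← Real.exp_add]
        congr 1; ring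
    _ ≤ Real.exp 0 := Real.exp_le_exp.2 (by linarith)
    _ = 1 := Real.exp_zero

theorem kL_core (L : ℝ) (m e β K N : ℕ) (hβr : (1 : ℝ) ≤ β)
    (hN : N = (β + 4 * m + 10) * (4 * m + 8)) (hK : K < (β + 1) ^ e)
    (hβL : 92 + 2 * ((4 * m + 11) * (4 * m + 8)) * (8 * m + e) ≤ L * β) :
    4 * Real.exp (-L) ^ (β ^ 3) *
      ((23 * (8 * m * (K + 1)) ^ N * (8 * m * (K + 1)) ^ N : ℕ) : ℝ) ≤ 1 := by
  have hX := kL_aux4 m e β K hK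
  have hNr := kL_aux3 m β N hβr hN
  have h5 := kL_aux5 L _ m e β N hβr hNr rfl hβL
  generalize 8 * m * (K + 1) = X at hX ⊢
  have hXN : (X : ℝ) ^ N ≤ Real.exp (N * (8 * m + e * β)) := by
    rw [Real.exp_nat_mul]
    exact pow_le_pow_left₀ (Nat.cast_nonneg _) hX N
  have hcp : Real.exp (-L) ^ (β ^ 3) = Real.exp (-(L * β ^ 3)) := by
    rw [← Real.exp_nat_mul]; congr 1; push_cast; ring
  rw [hcp]
  have h6 := kL_aux6 ((X : ℝ) ^ N) _ _ (pow_nonneg (Nat.cast_nonneg _) N) hXN h5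
  have hcast : ((23 * X ^ N * X ^ N : ℕ) : ℝ) = 23 * (X : ℝ) ^ N * (X : ℝ) ^ N := by
    push_cast; rfl
  rw [hcast]
  exact h6

theorem big_kL {ρ δs : ℝ} (C : Cn ρ δs) : ∃ β₀ : ℕ, ∀ β K : ℕ, β₀ ≤ β → K < (β + 1) ^ C.e₀ →
    4 * C.c ^ (β ^ 3) * ((23 * Mloc K C.n₀ β * Mloc K C.n₀ β : ℕ) : ℝ) ≤ 1 := by
  have hc0 : 0 < C.c := by linarith [C.c0]
  have hc1 := C.c1
  obtain ⟨L, hL0, hL⟩ : ∃ L : ℝ, 0 < L ∧ C.c = Real.exp (-L) := by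
    refine ⟨-Real.log C.c, ?_, ?_⟩
    · have := Real.log_neg hc0 hc1
      linarith
    · rw [neg_neg, Real.exp_log hc0]
  rw [hL]
  obtain ⟨C', hC'⟩ : ∃ C' : ℝ, C' = 92 + 2 * ((4 * ((2 * C.n₀ + 2 : ℕ) : ℝ) + 11) *
    (4 * ((2 * C.n₀ + 2 : ℕ) : ℝ) + 8)) * (8 * ((2 * C.n₀ + 2 : ℕ) : ℝ) + C.e₀) := ⟨_, rfl⟩
  refine ⟨max 1 ⌈C' / L⌉₊, ?_⟩
  intro β K hβ hK
  have hβ1 : 1 ≤ β := le_trans (le_max_left _ _) hβ
  have hβr : (1 : ℝ) ≤ β := Nat.one_le_cast.2 hβ1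
  have hβL : C' ≤ L * β := by
    have h2 : C' / L ≤ β :=
      (Nat.le_ceil _).trans (Nat.cast_le.2 (le_trans (le_max_right _ _) hβ))
    rw [div_le_iff₀ hL0] at h2; linarith
  rw [hC'] at hβL
  exact kL_core L (2 * C.n₀ + 2) C.e₀ β K _ hβr rfl hK hβL

end Pool.Agent.H77.AC
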