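import Pool.Agent.H77.AC.NumB2
import Pool.Agent.H77.AC.NumB3
import Pool.Agent.H77.AC.NumB4

/-!
# AC-NUMB: the inequalities for large `K`

`exists_beta`: for `e ≥ 1` and `K ≥ 1` there is `β ≥ 1` with `β^e ≤ K < (β+1)^e` (`Nat.findGreatest`; `1^e ≤ K`, `β ≤ β^e ≤ K`).

`exists_big`: combine `big_poly`, `big_mu`, `big_kL`: let `β₀` be the maximum of the three bounds, `Γ₀` and `2`; for `K ≥ (β₀+1)^e₀` the `β` of
`exists_beta` satisfies `β ≥ β₀` (otherwise `K < (β+1)^e₀ ≤ β₀^e₀`). `K^(1/(2 e₀)) ≤ β` because `K < (β+1)^e₀ ≤ (β²)^e₀ = β^(2 e₀)` for `β ≥ 2`.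
-/

set_option autoImplicit false

open Finset
open scoped Classical

namespace Pool.Agent.H77.AC

theorem exists_beta (e : ℕ) (he : 1 ≤ e) (K : ℕ) (hK : 1 ≤ K) :
    ∃ β : ℕ, 1 ≤ β ∧ β ^ e ≤ K ∧ K < (β + 1) ^ e := by
  have hP1 : (fun β => β ^ e ≤ K) 1 := by simpa using hK
  have h1 : 1 ≤ Nat.findGreatest (fun β => β ^ e ≤ K) K :=
    Nat.le_findGreatest hK hP1
  refine ⟨Nat.findGreatest (fun β => β ^ e ≤ K) K, h1, ?_, ?_⟩
  · exact Nat.findGreatest_spec (P := fun β => β ^ e ≤ K) hK hP1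
  · by_contra hcon
    have hcon' : (Nat.findGreatest (fun β => β ^ e ≤ K) K + 1) ^ e ≤ K := not_lt.mp hcon
    have hle : Nat.findGreatest (fun β => β ^ e ≤ K) K + 1 ≤ K :=
      le_trans (Nat.le_self_pow (by omega) _) hcon'
    have := Nat.le_findGreatest (P := fun β => β ^ e ≤ K) hle hcon'
    omega

theorem exists_big {ρ δs : ℝ} (C : Cn ρ δs) (Γ₀ : ℕ) :
    ∃ K₀ : ℕ, ∀ K ≥ K₀, ∃ β : ℕ, C.Big Γ₀ K β ∧
      (K : ℝ) ^ (1 / (2 * (C.e₀ : ℝ))) ≤ β := by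
  obtain ⟨b1, hb1⟩ := big_poly C
  obtain ⟨b2, hb2⟩ := big_mu C
  obtain ⟨b3, hb3⟩ := big_kL C
  have he : 1 ≤ C.e₀ := by unfold Cn.e₀; omega
  set b0 : ℕ := max (max (max b1 b2) (max b3 Γ₀)) 2 with hb0
  have hb01 : b1 ≤ b0 := le_trans (le_trans (le_max_left _ _) (le_max_left _ _)) (le_max_left _ _)
  have hb02 : b2 ≤ b0 := le_trans (le_trans (le_max_right _ _) (le_max_left _ _)) (le_max_left _ _)
  have hb03 : b3 ≤ b0 := le_trans (le_trans (le_max_left _ _) (le_max_right _ _)) (le_max_left _ _)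
  have hb04 : Γ₀ ≤ b0 := le_trans (le_trans (le_max_right _ _) (le_max_right _ _)) (le_max_left _ _)
  have hb05 : 2 ≤ b0 := le_max_right _ _
  refine ⟨(b0 + 1) ^ C.e₀, fun K hK => ?_⟩
  have hK1 : 1 ≤ K := le_trans (Nat.one_le_pow _ _ (by omega)) hK
  obtain ⟨β, hβ1, hβK, hKβ⟩ := exists_beta C.e₀ he K hK1
  have hβ0 : b0 ≤ β := by
    by_contra hcon
    have hlt : β + 1 ≤ b0 + 1 := by omega
    have := Nat.pow_le_pow_left hlt C.e₀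
    omega
  obtain ⟨k1, k2, k3, k4, k5, k6, k10, k11, k12⟩ := hb1 β K (le_trans hb01 hβ0) hβK
  obtain ⟨k7, k8, k9, k13⟩ := hb2 β K (le_trans hb02 hβ0) hβK
  have kL := hb3 β K (le_trans hb03 hβ0) hKβ
  refine ⟨β, ⟨hβ1, hK1, le_trans hb04 hβ0, k1, k2, k3, k4, k5, k6, k7, k8, k9, k10, k11, k12, k13,
    kL⟩, ?_⟩
  have hβ2 : 2 ≤ β := le_trans hb05 hβ0
  have hle : K ≤ β ^ (2 * C.e₀) := by
    have h0 : β + 1 ≤ β ^ 2 := by
      calc β + 1 ≤ β * 2 := by omega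
        _ ≤ β * β := Nat.mul_le_mul_left β hβ2
        _ = β ^ 2 := (pow_two β).symm
    have h1 : (β + 1) ^ C.e₀ ≤ (β ^ 2) ^ C.e₀ := Nat.pow_le_pow_left h0 _
    rw [pow_mul]
    omega
  have hleR : (K : ℝ) ≤ (β : ℝ) ^ ((2 * C.e₀ : ℕ) : ℝ) := by
    rw [Real.rpow_natCast]
    exact_mod_cast hle
  have he0 : (0 : ℝ) < C.e₀ := by exact_mod_cast he
  calc (K : ℝ) ^ (1 / (2 * (C.e₀ : ℝ))) ≤
      ((β : ℝ) ^ ((2 * C.e₀ : ℕ) : ℝ)) ^ (1 / (2 * (C.e₀ : ℝ))) :=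
        Real.rpow_le_rpow (Nat.cast_nonneg _) hleR (by positivity)
    _ = (β : ℝ) := by
        rw [← Real.rpow_mul (Nat.cast_nonneg _)]
        have : ((2 * C.e₀ : ℕ) : ℝ) * (1 / (2 * (C.e₀ : ℝ))) = 1 := by
          push_cast
          field_simp
        rw [this, Real.rpow_one]

end Pool.Agent.H77.AC
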