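import Pool.Agent.H77.AC.NumC

/-!
# AC-NUMD: the fields `nl, nA, nC, nN, nG, nW` of `Step`

`P = Pq K β t`, `P' = Pq K β (t+1)`, `t < T`, `s = β³`, `r₀ = β`, `m = 2 n₀ + 2`, `δ = θ²`. Write `a = P.a`, `a' = P'.a`,
`B = ⌈b a⌉₊`; `a ≥ α K` (`aq_lower`), `b a ≤ B ≤ b a + 1 ≤ (b+1) a`; `Γ = β^(1 + t E₁) ≤ β^γ`; `w ≤ W`.
-/

set_option autoImplicit false

open Finset
open scoped Classical

namespace Pool.Agent.H77.AC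

variable {ρ δs : ℝ} {Γ₀ K β : ℕ}

/-- `1/(1-y) ≤ exp (y + y²)` for `0 ≤ y ≤ 1/2` -/
theorem inv_one_sub_le (y : ℝ) (h0 : 0 ≤ y) (h1 : y ≤ 1 / 2) :
    1 / (1 - y) ≤ Real.exp (y + y ^ 2) := by
  have h2 : 0 < 1 - y := by linarith
  rw [div_le_iff₀ h2]
  have h3 := Real.quadratic_le_exp_of_nonneg (x := y + y ^ 2) (by positivity)
  have h4 : (1 + (y + y ^ 2) + (y + y ^ 2) ^ 2 / 2) * (1 - y) ≤ Real.exp (y + y ^ 2) * (1 - y) :=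
    mul_le_mul_of_nonneg_right h3 h2.le
  refine le_trans ?_ h4
  have h5 : 0 ≤ y ^ 2 * ((1 - y) * (1 + y) ^ 2 / 2 - y) := by
    apply mul_nonneg (by positivity)
    nlinarith [mul_nonneg h0 (by linarith : 0 ≤ 1 / 2 - y), mul_nonneg (mul_nonneg h0 h0) (by linarith : 0 ≤ 1 / 2 - y)]
  nlinarith [h5]

theorem pow_le_exp (x : ℝ) (h1 : x ≤ 1) (n : ℕ) : (1 - x) ^ n ≤ Real.exp (-(x * n)) := by
  have h2 : 1 - x ≤ Real.exp (-x) := Real.one_sub_le_exp_neg x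
  calc (1 - x) ^ n ≤ Real.exp (-x) ^ n := pow_le_pow_left₀ (by linarith) h2 n
    _ = Real.exp (-(x * n)) := by
        rw [← Real.exp_nat_mul]; congr 1; ring

theorem exp_le_quad (z : ℝ) (h : |z| ≤ 1) : Real.exp z ≤ 1 + z + z ^ 2 := by
  have := Real.abs_exp_sub_one_sub_id_le h
  have h2 := (abs_le.1 this).2
  linarith

/-- facts used everywhere -/
theorem st_facts (C : Cn ρ δs) (H : C.Big Γ₀ K β) (t : ℕ) (ht : t < C.T) :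
    C.α * K ≤ (C.aq K t : ℝ) ∧ 0 < (C.aq K t : ℝ) ∧ 0 < C.α * K ∧
    C.α * K ≤ (C.aq K (t + 1) : ℝ) ∧ 0 < (C.aq K (t + 1) : ℝ) ∧
    C.b * (C.aq K t : ℝ) ≤ (⌈C.b * (C.aq K t : ℝ)⌉₊ : ℝ) ∧
    (⌈C.b * (C.aq K t : ℝ)⌉₊ : ℝ) ≤ (C.b + 1) * (C.aq K t : ℝ) ∧
    ((β ^ (1 + t * C.E₁) : ℕ) : ℝ) ≤ (β : ℝ) ^ C.γ ∧
    (1 : ℝ) ≤ (C.aq K t : ℝ) ∧ β ^ (1 + t * C.E₁) ≤ β ^ C.γ := by
  have hK : (0 : ℝ) < K := by exact_mod_cast H.K1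
  have hαK : 0 < C.α * K := mul_pos C.α0 hK
  have h1 := aq_lower C H t ht.le
  have h2 := aq_lower C H (t + 1) ht
  have h3 : 0 < (C.aq K t : ℝ) := lt_of_lt_of_le hαK h1
  have h4 : 0 < (C.aq K (t + 1) : ℝ) := lt_of_lt_of_le hαK h2
  have h5 : (1 : ℝ) ≤ (C.aq K t : ℝ) := by
    have : 0 < C.aq K t := by exact_mod_cast h3
    exact_mod_cast this
  have hW : 0 < C.W := W_pos C
  have hb0 : 0 ≤ C.b := by rw [C.hb]; linarith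
  have hβ : β ^ (1 + t * C.E₁) ≤ β ^ C.γ := by
    apply Nat.pow_le_pow_right H.β1
    have : t * C.E₁ ≤ C.T * C.E₁ := Nat.mul_le_mul_right _ ht.le
    unfold Cn.γ
    omega
  refine ⟨h1, h3, hαK, h2, h4, Nat.le_ceil _, ?_, ?_, h5, hβ⟩
  · have := (Nat.ceil_lt_add_one (mul_nonneg hb0 h3.le)).le
    linarith
  · have : ((β ^ (1 + t * C.E₁) : ℕ) : ℝ) ≤ ((β ^ C.γ : ℕ) : ℝ) := by exact_mod_cast hβ
    simpa using this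

theorem st_nl (C : Cn ρ δs) (H : C.Big Γ₀ K β) (t : ℕ) (ht : t < C.T) :
    C.θ * (C.Pq K β t).B + (C.Pq K β t).a * (C.θ ^ 2 * ((C.Pq K β t).w + 1)) ≤
      ((C.Pq K β t).a : ℝ) - (C.Pq K β (t + 1)).a := by
  have h1 := aq_upper C H t ht
  obtain ⟨_, hw⟩ := w_le (K := K) (β := β) C t ht.le
  obtain ⟨-, ha, -⟩ := st_facts C H t ht
  have h2 : (C.aq K t : ℝ) * (C.θ ^ 2 * ((C.Pq K β t).w + 1)) ≤
      (C.aq K t : ℝ) * (C.θ ^ 2 * (C.W + 1)) := by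
    apply mul_le_mul_of_nonneg_left _ ha.le
    apply mul_le_mul_of_nonneg_left _ (by positivity)
    linarith
  change C.θ * (⌈C.b * (C.aq K t : ℝ)⌉₊ : ℝ) + (C.aq K t : ℝ) * (C.θ ^ 2 * ((C.Pq K β t).w + 1)) ≤
    (C.aq K t : ℝ) - (C.aq K (t + 1) : ℝ)
  linarith

theorem st_nA (C : Cn ρ δs) (H : C.Big Γ₀ K β) (t : ℕ) (ht : t < C.T) :
    (1 - C.c) * (C.θ * (C.Pq K β t).B) + (β ^ 3 : ℕ) * (1 + (C.Pq K β t).Γ) ≤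
      C.c * (C.θ ^ 2 * (C.Pq K β t).a / 3) := by
  obtain ⟨ha1, ha, haK, -, -, -, hB, hΓ, h1a, -⟩ := st_facts C H t ht
  change (1 - C.c) * (C.θ * (⌈C.b * (C.aq K t : ℝ)⌉₊ : ℝ)) +
    ((β ^ 3 : ℕ) : ℝ) * (1 + ((β ^ (1 + t * C.E₁) : ℕ) : ℝ)) ≤
      C.c * (C.θ ^ 2 * (C.aq K t : ℝ) / 3)
  have hθ := C.θ0
  have hθ4 := C.θ4
  have hc : 0 ≤ 1 - C.c := by linarith [C.c1]
  have hW : 0 < C.W := W_pos C
  have hb0 : 0 ≤ C.b := by rw [C.hb]; linarith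
  have e1 : (1 - C.c) * (C.θ * (⌈C.b * (C.aq K t : ℝ)⌉₊ : ℝ)) ≤ C.θ ^ 2 * (C.aq K t : ℝ) / 12 := by
    calc (1 - C.c) * (C.θ * (⌈C.b * (C.aq K t : ℝ)⌉₊ : ℝ))
        ≤ (1 - C.c) * (C.θ * ((C.b + 1) * (C.aq K t : ℝ))) := by gcongr
      _ = ((1 - C.c) * (12 * (C.b + 1))) * (C.θ * (C.aq K t : ℝ)) / 12 := by ring
      _ ≤ C.θ ^ 2 * (C.θ * (C.aq K t : ℝ)) / 12 := by gcongr; exact C.cA
      _ ≤ C.θ ^ 2 * (1 * (C.aq K t : ℝ)) / 12 := by gcongr; linarith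
      _ = _ := by ring
  have e2 : ((β ^ 3 : ℕ) : ℝ) * (1 + ((β ^ (1 + t * C.E₁) : ℕ) : ℝ)) ≤
      C.θ ^ 2 * (C.aq K t : ℝ) / 12 := by
    calc ((β ^ 3 : ℕ) : ℝ) * (1 + ((β ^ (1 + t * C.E₁) : ℕ) : ℝ))
        ≤ (β : ℝ) ^ 3 * (1 + (β : ℝ) ^ C.γ) := by
          have : ((β ^ 3 : ℕ) : ℝ) = (β : ℝ) ^ 3 := by push_cast; ring
          rw [this]
          gcongr
      _ ≤ C.θ ^ 2 * (C.α * K) / 12 := H.k4
      _ ≤ _ := by gcongr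
  have e3 : 1 / 2 * (C.θ ^ 2 * (C.aq K t : ℝ) / 3) ≤ C.c * (C.θ ^ 2 * (C.aq K t : ℝ) / 3) := by
    apply mul_le_mul_of_nonneg_right C.c0; positivity
  linarith

theorem st_nC (C : Cn ρ δs) (H : C.Big Γ₀ K β) (t : ℕ) (ht : t < C.T) :
    (1 - C.c) * ((C.Pq K β t).a * (C.θ ^ 2 * (C.Pq K β t).w)) +
      ((β ^ 3 : ℕ) * (2 * C.n₀ + 2 : ℕ) + 1) ^ (2 * C.n₀ + 2) * ((2 * C.n₀ + 2 : ℕ) + 1) *
        (C.Pq K β t).Γ ≤ C.c * (C.θ ^ 2 * (C.Pq K β t).a / 3) := by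
  obtain ⟨ha1, ha, haK, -, -, -, hB, hΓ, h1a, -⟩ := st_facts C H t ht
  obtain ⟨hw0, hw⟩ := w_le (K := K) (β := β) C t ht.le
  change (1 - C.c) * ((C.aq K t : ℝ) * (C.θ ^ 2 * (C.Pq K β t).w)) +
      (((β ^ 3 : ℕ) : ℝ) * ((2 * C.n₀ + 2 : ℕ) : ℝ) + 1) ^ (2 * C.n₀ + 2) *
        (((2 * C.n₀ + 2 : ℕ) : ℝ) + 1) * ((β ^ (1 + t * C.E₁) : ℕ) : ℝ) ≤
      C.c * (C.θ ^ 2 * (C.aq K t : ℝ) / 3)
  have hθ := C.θ0
  have hθ4 := C.θ4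
  have hc : 0 ≤ 1 - C.c := by linarith [C.c1]
  have hW : 0 < C.W := W_pos C
  have hb0 : 0 ≤ C.b := by rw [C.hb]; linarith
  have e0 : (1 - C.c) * (C.Pq K β t).w ≤ 1 / 12 := by
    have h1 : (1 - C.c) * (C.Pq K β t).w ≤ (1 - C.c) * (C.b + 1) := by
      apply mul_le_mul_of_nonneg_left _ hc
      rw [C.hb]; linarith
    have h2 := C.cA
    have h3 : C.θ ^ 2 ≤ 1 := by nlinarith
    nlinarith
  have e1 : (1 - C.c) * ((C.aq K t : ℝ) * (C.θ ^ 2 * (C.Pq K β t).w)) ≤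
      C.θ ^ 2 * (C.aq K t : ℝ) / 12 := by
    calc (1 - C.c) * ((C.aq K t : ℝ) * (C.θ ^ 2 * (C.Pq K β t).w))
        = ((1 - C.c) * (C.Pq K β t).w) * ((C.aq K t : ℝ) * C.θ ^ 2) := by ring
      _ ≤ (1 / 12) * ((C.aq K t : ℝ) * C.θ ^ 2) := by gcongr
      _ = _ := by ring
  have e2 : (((β ^ 3 : ℕ) : ℝ) * ((2 * C.n₀ + 2 : ℕ) : ℝ) + 1) ^ (2 * C.n₀ + 2) *
        (((2 * C.n₀ + 2 : ℕ) : ℝ) + 1) * ((β ^ (1 + t * C.E₁) : ℕ) : ℝ) ≤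
      C.θ ^ 2 * (C.aq K t : ℝ) / 12 := by
    have h5 := H.k5
    unfold Cn.m at h5
    calc (((β ^ 3 : ℕ) : ℝ) * ((2 * C.n₀ + 2 : ℕ) : ℝ) + 1) ^ (2 * C.n₀ + 2) *
        (((2 * C.n₀ + 2 : ℕ) : ℝ) + 1) * ((β ^ (1 + t * C.E₁) : ℕ) : ℝ)
        ≤ (((β ^ 3 : ℕ) : ℝ) * ((2 * C.n₀ + 2 : ℕ) : ℝ) + 1) ^ (2 * C.n₀ + 2) *
        (((2 * C.n₀ + 2 : ℕ) : ℝ) + 1) * (β : ℝ) ^ C.γ := by gcongr
      _ = ((β : ℝ) ^ 3 * ((2 * C.n₀ + 2 : ℕ) : ℝ) + 1) ^ (2 * C.n₀ + 2) *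
        (((2 * C.n₀ + 2 : ℕ) : ℝ) + 1) * (β : ℝ) ^ C.γ := by push_cast; ring
      _ ≤ C.θ ^ 2 * (C.α * K) / 12 := h5
      _ ≤ _ := by gcongr
  have e3 : 1 / 2 * (C.θ ^ 2 * (C.aq K t : ℝ) / 3) ≤ C.c * (C.θ ^ 2 * (C.aq K t : ℝ) / 3) := by
    apply mul_le_mul_of_nonneg_right C.c0; positivity
  linarith

/-- the failed / blocked colours are at most `θ a` -/
theorem G1_le (C : Cn ρ δs) (H : C.Big Γ₀ K β) (t : ℕ) (ht : t < C.T) :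
    ((((2 * C.n₀ + 2) + 1 + β ^ 3 * (2 * C.n₀ + 2)) * (7 * (β ^ (1 + t * C.E₁)) + 6) : ℕ) : ℝ) ≤
      C.θ * (C.aq K t : ℝ) := by
  obtain ⟨ha1, ha, haK, -, -, -, hB, -, h1a, hΓ⟩ := st_facts C H t ht
  have h2 := H.k2
  have h3 : (((2 * C.n₀ + 2) + 1 + β ^ 3 * (2 * C.n₀ + 2)) * (7 * (β ^ (1 + t * C.E₁)) + 6) : ℕ) ≤
      (C.m + 1 + β ^ 3 * C.m) * (7 * β ^ C.γ + 6) := by
    unfold Cn.m
    apply Nat.mul_le_mul_left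
    omega
  have h4 : ((((2 * C.n₀ + 2) + 1 + β ^ 3 * (2 * C.n₀ + 2)) * (7 * (β ^ (1 + t * C.E₁)) + 6) : ℕ) : ℝ)
      ≤ (((C.m + 1 + β ^ 3 * C.m) * (7 * β ^ C.γ + 6) : ℕ) : ℝ) := by exact_mod_cast h3
  refine h4.trans (h2.trans ?_)
  exact mul_le_mul_of_nonneg_left ha1 C.θ0.le

theorem G0_le (C : Cn ρ δs) (H : C.Big Γ₀ K β) (t : ℕ) (ht : t < C.T) :
    ((β ^ 3 * (7 * (β ^ (1 + t * C.E₁)) + 6) : ℕ) : ℝ) ≤ C.θ * (C.aq K t : ℝ) := by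
  refine le_trans ?_ (G1_le C H t ht)
  have : β ^ 3 * (7 * (β ^ (1 + t * C.E₁)) + 6) ≤
      ((2 * C.n₀ + 2) + 1 + β ^ 3 * (2 * C.n₀ + 2)) * (7 * (β ^ (1 + t * C.E₁)) + 6) := by
    apply Nat.mul_le_mul_right
    nlinarith [Nat.zero_le (β ^ 3), Nat.zero_le C.n₀, Nat.zero_le (β ^ 3 * C.n₀)]
  exact_mod_cast this

theorem st_nN (C : Cn ρ δs) (H : C.Big Γ₀ K β) (t : ℕ) (ht : t < C.T) (N : ℕ)
    (hN : (N : ℝ) ≤ ρ * (C.Pq K β t).a) :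
    (β ^ 3 : ℕ) + N * (1 - C.θ / (C.Pq K β t).a) ^
      ((C.Pq K β t).a + (C.Pq K β t).B - N - β ^ 3 * (7 * (C.Pq K β t).Γ + 6)) ≤
      C.c * (ρ * (C.Pq K β (t + 1)).a) := by
  obtain ⟨ha1, ha, haK, ha1', ha', hB0, hB, hΓ, h1a, -⟩ := st_facts C H t ht
  have hG := G0_le C H t ht
  have hlow := aq_lower2 C H t ht
  change (N : ℝ) ≤ ρ * (C.aq K t : ℝ) at hN
  change ((β ^ 3 : ℕ) : ℝ) + N * (1 - C.θ / (C.aq K t : ℝ)) ^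
      (C.aq K t + ⌈C.b * (C.aq K t : ℝ)⌉₊ - N - β ^ 3 * (7 * (β ^ (1 + t * C.E₁)) + 6)) ≤
      C.c * (ρ * (C.aq K (t + 1) : ℝ))
  have hθ := C.θ0
  have hθ4 := C.θ4
  have hρ := C.ρ0
  have hρ1 := C.ρ1
  have hc : 0 ≤ 1 - C.c := by linarith [C.c1]
  have hW : 0 < C.W := W_pos C
  have hb := C.hb
  have hbθ := C.bθ
  generalize hG0 : β ^ 3 * (7 * (β ^ (1 + t * C.E₁)) + 6) = G₀ at hG ⊢
  generalize hBB : ⌈C.b * (C.aq K t : ℝ)⌉₊ = B at hB0 hB ⊢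
  generalize hAA : C.aq K t = a at ha1 ha hB0 hB h1a hG hlow hN ⊢
  generalize hAA' : C.aq K (t + 1) = a' at ha1' ha' hlow ⊢
  set n : ℕ := a + B - N - G₀ with hn
  have hnr : (a : ℝ) * (1 + C.b - ρ - C.θ) ≤ n := by
    have h1 : (a : ℝ) + B ≤ (n : ℝ) + N + G₀ := by
      have : a + B ≤ n + N + G₀ := by omega
      exact_mod_cast this
    nlinarith
  have hx1 : C.θ / a ≤ 1 := by
    rw [div_le_one ha]; linarith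
  have hxn : C.θ * (1 + C.b - ρ - C.θ) ≤ C.θ / a * n := by
    calc C.θ * (1 + C.b - ρ - C.θ) = C.θ / a * (a * (1 + C.b - ρ - C.θ)) := by field_simp
      _ ≤ C.θ / a * n := by gcongr
  set z : ℝ := -(C.θ * (1 + C.b - ρ - C.θ)) with hz
  have hz1 : (1 - C.θ / a) ^ n ≤ Real.exp z := by
    refine (pow_le_exp _ hx1 n).trans (Real.exp_le_exp.2 ?_)
    linarith
  have hpos : 0 < 1 + C.b - ρ - C.θ := by rw [hb]; linarith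
  have hz0 : z ≤ 0 := by
    rw [hz]; nlinarith [mul_pos hθ hpos]
  have hzl : -(C.θ * (1 + C.b)) ≤ z := by
    rw [hz]
    nlinarith [mul_nonneg hθ.le (by linarith : 0 ≤ ρ + C.θ)]
  have hz2 : |z| ≤ 1 := by
    rw [abs_le]; constructor <;> nlinarith
  have hzq := exp_le_quad z hz2
  have hzsq : z ^ 2 ≤ C.θ ^ 2 * (1 + C.b) ^ 2 := by
    have hq0 : 0 ≤ C.θ * (1 + C.b) := mul_nonneg hθ.le (by rw [hb]; linarith)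
    have hq : z ^ 2 ≤ (C.θ * (1 + C.b)) ^ 2 := sq_le_sq' hzl (hz0.trans hq0)
    rw [mul_pow] at hq
    exact hq
  have hexp0 : 0 < Real.exp z := Real.exp_pos z
  have e1 : (N : ℝ) * (1 - C.θ / a) ^ n ≤ ρ * a * (1 + z + C.θ ^ 2 * (1 + C.b) ^ 2) := by
    calc (N : ℝ) * (1 - C.θ / a) ^ n ≤ (N : ℝ) * Real.exp z := by gcongr
      _ ≤ (ρ * a) * Real.exp z := by gcongr
      _ ≤ (ρ * a) * (1 + z + C.θ ^ 2 * (1 + C.b) ^ 2) := by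
          apply mul_le_mul_of_nonneg_left _ (by positivity)
          linarith
  have e2 : ((β ^ 3 : ℕ) : ℝ) ≤ C.θ ^ 2 * (ρ * a) := by
    have h3 := H.k3
    have : ((β ^ 3 : ℕ) : ℝ) = (β : ℝ) ^ 3 := by push_cast; ring
    rw [this]
    refine h3.trans ?_
    gcongr
  have hcθ : 1 - C.c ≤ C.θ ^ 2 := by
    have h1 := C.cA
    have h2 : (1 - C.c) * 1 ≤ (1 - C.c) * (12 * (C.b + 1)) := by
      apply mul_le_mul_of_nonneg_left _ hc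
      rw [hb]; linarith
    linarith
  have e3 : C.c * (ρ * (a * (1 - C.θ * C.b - C.θ ^ 2 * (C.W + 2)))) ≤ C.c * (ρ * (a' : ℝ)) := by
    apply mul_le_mul_of_nonneg_left _ (by linarith [C.c0])
    apply mul_le_mul_of_nonneg_left hlow hρ.le
  refine le_trans (add_le_add e2 e1) (le_trans ?_ e3)
  have hy0 : 0 ≤ C.θ * C.b + C.θ ^ 2 * (C.W + 2) := by
    have : 0 ≤ C.b := by rw [hb]; linarith
    positivity
  have e4 : ρ * a * (1 - C.θ * C.b - C.θ ^ 2 * (C.W + 2) - C.θ ^ 2) ≤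
      C.c * (ρ * (a * (1 - C.θ * C.b - C.θ ^ 2 * (C.W + 2)))) := by
    have h1 : (1 - C.θ * C.b - C.θ ^ 2 * (C.W + 2) - C.θ ^ 2) ≤
        C.c * (1 - C.θ * C.b - C.θ ^ 2 * (C.W + 2)) := by
      nlinarith [mul_nonneg hc hy0]
    calc ρ * a * (1 - C.θ * C.b - C.θ ^ 2 * (C.W + 2) - C.θ ^ 2)
        ≤ ρ * a * (C.c * (1 - C.θ * C.b - C.θ ^ 2 * (C.W + 2))) := by gcongr
      _ = _ := by ring
  refine le_trans ?_ e4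
  have hN2 := C.nNθ
  have e5 : 0 ≤ ρ * a * (C.θ * ((1 - ρ) - C.θ * ((1 + C.b) ^ 2 + C.W + 5))) := by
    apply mul_nonneg (by positivity)
    apply mul_nonneg hθ.le
    linarith
  have e6 : ρ * a * (1 - C.θ * C.b - C.θ ^ 2 * (C.W + 2) - C.θ ^ 2) -
      (C.θ ^ 2 * (ρ * a) + ρ * a * (1 + z + C.θ ^ 2 * (1 + C.b) ^ 2)) =
      ρ * a * (C.θ * ((1 - ρ) - C.θ * ((1 + C.b) ^ 2 + C.W + 5))) := by
    rw [hz]; ring
  linarith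

theorem st_nG (C : Cn ρ δs) (H : C.Big Γ₀ K β) (t : ℕ) (ht : t < C.T) :
    (C.Pq K β (t + 1)).g * (C.θ + ((C.Pq K β t).a / (C.Pq K β (t + 1)).a : ℝ) *
      (1 - C.θ / (C.Pq K β t).a) ^ ((C.Pq K β t).a + (C.Pq K β t).B -
        ((2 * C.n₀ + 2) + 1 + β ^ 3 * (2 * C.n₀ + 2)) * (7 * (C.Pq K β t).Γ + 6))) ≤
      (C.Pq K β t).g := by
  obtain ⟨ha1, ha, haK, ha1', ha', hB0, hB, hΓ, h1a, -⟩ := st_facts C H t ht
  have hG := G1_le C H t ht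
  have hlow := aq_lower2 C H t ht
  rw [g_succ C t ht]
  have hg1 := g_ge (K := K) (β := β) C (t + 1)
  apply mul_le_mul_of_nonneg_left _ (by linarith)
  change C.θ + ((C.aq K t : ℝ) / (C.aq K (t + 1) : ℝ)) * (1 - C.θ / (C.aq K t : ℝ)) ^
      (C.aq K t + ⌈C.b * (C.aq K t : ℝ)⌉₊ - ((2 * C.n₀ + 2) + 1 + β ^ 3 * (2 * C.n₀ + 2)) *
        (7 * (β ^ (1 + t * C.E₁)) + 6)) ≤ 1 + (C.W + 4 + C.lam ^ 2) * C.θ ^ 2
  have hθ := C.θ0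
  have hθ4 := C.θ4
  have hW : 0 < C.W := W_pos C
  have hb := C.hb
  have hbθ := C.bθ
  have hlam := C.hlam
  have hlθ := C.lamθ
  have hC4 := C.C4θ
  generalize hG0 : ((2 * C.n₀ + 2) + 1 + β ^ 3 * (2 * C.n₀ + 2)) *
    (7 * (β ^ (1 + t * C.E₁)) + 6) = G₁ at hG ⊢
  generalize hBB : ⌈C.b * (C.aq K t : ℝ)⌉₊ = B at hB0 hB ⊢
  generalize hAA : C.aq K t = a at ha1 ha hB0 hB h1a hG hlow ⊢
  generalize hAA' : C.aq K (t + 1) = a' at ha1' ha' hlow ⊢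
  set n : ℕ := a + B - G₁ with hn
  have hnr : (a : ℝ) * (1 + C.b - C.θ) ≤ n := by
    have h1 : (a : ℝ) + B ≤ (n : ℝ) + G₁ := by
      have : a + B ≤ n + G₁ := by omega
      exact_mod_cast this
    nlinarith
  have hx1 : C.θ / a ≤ 1 := by
    rw [div_le_one ha]; linarith
  have hxn : C.θ * (1 + C.b - C.θ) ≤ C.θ / a * n := by
    calc C.θ * (1 + C.b - C.θ) = C.θ / a * (a * (1 + C.b - C.θ)) := by field_simp
      _ ≤ C.θ / a * n := by gcongr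
  have hp : (1 - C.θ / a) ^ n ≤ Real.exp (-(C.θ * (1 + C.b - C.θ))) := by
    refine (pow_le_exp _ hx1 n).trans (Real.exp_le_exp.2 ?_)
    linarith
  set y : ℝ := C.θ * C.b + C.θ ^ 2 * (C.W + 2) with hy
  have hb0 : 0 ≤ C.b := by rw [hb]; linarith
  have hy0 : 0 ≤ y := by positivity
  have hyl : y ≤ C.lam * C.θ := by
    rw [hlam, hy]
    nlinarith [mul_nonneg hθ.le (by linarith : 0 ≤ C.W + 2), mul_nonneg (mul_nonneg hθ.le (by linarith : 0 ≤ C.W + 2)) (by linarith : 0 ≤ 1 - C.θ)]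
  have hy2 : y ≤ 1 / 2 := by linarith
  have hratio : (a : ℝ) / a' ≤ Real.exp (y + y ^ 2) := by
    refine le_trans ?_ (inv_one_sub_le y hy0 hy2)
    have h1y : 0 < 1 - y := by linarith
    rw [div_le_div_iff₀ ha' h1y]
    have : (a : ℝ) * (1 - y) ≤ a' := by
      have e : (1 - C.θ * C.b - C.θ ^ 2 * (C.W + 2)) = 1 - y := by rw [hy]; ring
      rwa [e] at hlow
    linarith
  have hprod : (a : ℝ) / a' * (1 - C.θ / a) ^ n ≤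
      Real.exp (-C.θ + (C.W + 3 + C.lam ^ 2) * C.θ ^ 2) := by
    have hnn : 0 ≤ (1 - C.θ / a) ^ n := pow_nonneg (by linarith) n
    calc (a : ℝ) / a' * (1 - C.θ / a) ^ n
        ≤ Real.exp (y + y ^ 2) * (1 - C.θ / a) ^ n := by gcongr
      _ ≤ Real.exp (y + y ^ 2) * Real.exp (-(C.θ * (1 + C.b - C.θ))) := by gcongr
      _ = Real.exp (y + y ^ 2 + -(C.θ * (1 + C.b - C.θ))) := by rw [← Real.exp_add]
      _ ≤ Real.exp (-C.θ + (C.W + 3 + C.lam ^ 2) * C.θ ^ 2) := by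
          apply Real.exp_le_exp.2
          have : y ^ 2 ≤ C.lam ^ 2 * C.θ ^ 2 := by
            have : y ^ 2 ≤ (C.lam * C.θ) ^ 2 := by
              apply pow_le_pow_left₀ hy0 hyl
            nlinarith
          rw [hy] at this ⊢
          nlinarith
  set z : ℝ := -C.θ + (C.W + 3 + C.lam ^ 2) * C.θ ^ 2 with hz
  have hz0 : z ≤ 0 := by
    rw [hz]; nlinarith
  have hzl : -C.θ ≤ z := by
    rw [hz]
    have : 0 ≤ (C.W + 3 + C.lam ^ 2) * C.θ ^ 2 := by positivity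
    linarith
  have hz2 : |z| ≤ 1 := by
    rw [abs_le]; constructor <;> linarith
  have hzq := exp_le_quad z hz2
  have hzsq : z ^ 2 ≤ C.θ ^ 2 := by
    apply sq_le_sq'
    · linarith
    · linarith
  have : (a : ℝ) / a' * (1 - C.θ / a) ^ n ≤ 1 + z + C.θ ^ 2 := by linarith
  rw [hz] at this
  linarith

theorem st_nW (C : Cn ρ δs) (H : C.Big Γ₀ K β) (t : ℕ) (ht : t < C.T) :
    (C.Pq K β t).w + (((β ^ 3 : ℕ) * (2 * C.n₀ + 2 : ℕ) + 1) ^ (2 * C.n₀ + 2) +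
      3 * ((β ^ 3 : ℕ) * (2 * C.n₀ + 2 : ℕ))) * (2 * C.n₀ + 2 : ℕ) *
      (C.Pq K β (t + 1)).g ^ (2 * C.n₀ + 2) * ((C.Pq K β t).Γ / K) *
      (2 * K / (C.Pq K β (t + 1)).a) ^ (2 * C.n₀ + 2) ≤ C.c * (C.Pq K β (t + 1)).w := by
  obtain ⟨ha1, ha, haK, ha1', ha', hB0, hB, hΓ, h1a, -⟩ := st_facts C H t ht
  have hK : (0 : ℝ) < K := by exact_mod_cast H.K1
  have hg1 := g_ge (K := K) (β := β) C (t + 1)
  have hg2 := g_le2 (K := K) (β := β) C (t + 1)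
  obtain ⟨hw0, hw⟩ := w_le (K := K) (β := β) C (t + 1) ht
  have hW : 0 < C.W := W_pos C
  have hT : (0 : ℝ) < C.T := by exact_mod_cast C.T1
  have hc : 0 ≤ 1 - C.c := by linarith [C.c1]
  have hwe : (C.Pq K β (t + 1)).w = (C.Pq K β t).w + C.W / (2 * C.T) := by
    change C.W / 2 * (1 + ((t + 1 : ℕ) : ℝ) / C.T) = C.W / 2 * (1 + (t : ℝ) / C.T) + C.W / (2 * C.T)
    push_cast
    field_simp
    ring
  have h6 := H.k6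
  unfold Cn.m at h6
  have hα := C.α0
  have hr : 2 * K / (C.aq K (t + 1) : ℝ) ≤ 2 / C.α := by
    rw [div_le_div_iff₀ ha' hα]
    nlinarith
  have hr0 : 0 ≤ 2 * K / (C.aq K (t + 1) : ℝ) := by positivity
  have e1 : (((β ^ 3 : ℕ) * (2 * C.n₀ + 2 : ℕ) + 1) ^ (2 * C.n₀ + 2) +
      3 * ((β ^ 3 : ℕ) * (2 * C.n₀ + 2 : ℕ)) : ℝ) * (2 * C.n₀ + 2 : ℕ) *
      (C.Pq K β (t + 1)).g ^ (2 * C.n₀ + 2) * (((β ^ (1 + t * C.E₁) : ℕ) : ℝ) / K) *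
      (2 * K / (C.aq K (t + 1) : ℝ)) ^ (2 * C.n₀ + 2) ≤ C.W / (4 * C.T) := by
    refine le_trans ?_ h6
    have e : ((β ^ 3 : ℕ) : ℝ) = (β : ℝ) ^ 3 := by push_cast; ring
    rw [e]
    have hg0 : 0 ≤ (C.Pq K β (t + 1)).g := by linarith
    gcongr
  have e2 : (1 - C.c) * (C.Pq K β (t + 1)).w ≤ C.W / (4 * C.T) := by
    have h1 : (1 - C.c) * (C.Pq K β (t + 1)).w ≤ (1 - C.c) * C.W :=
      mul_le_mul_of_nonneg_left hw hc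
    refine h1.trans ?_
    rw [le_div_iff₀ (by positivity)]
    have := C.cT
    nlinarith
  have e3 : C.W / (2 * C.T) = C.W / (4 * C.T) + C.W / (4 * C.T) := by
    field_simp; ring
  change (C.Pq K β t).w + (((β ^ 3 : ℕ) * (2 * C.n₀ + 2 : ℕ) + 1) ^ (2 * C.n₀ + 2) +
      3 * ((β ^ 3 : ℕ) * (2 * C.n₀ + 2 : ℕ))) * (2 * C.n₀ + 2 : ℕ) *
      (C.Pq K β (t + 1)).g ^ (2 * C.n₀ + 2) * (((β ^ (1 + t * C.E₁) : ℕ) : ℝ) / K) *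
      (2 * K / (C.aq K (t + 1) : ℝ)) ^ (2 * C.n₀ + 2) ≤ C.c * (C.Pq K β (t + 1)).w
  have e4 : C.c * (C.Pq K β (t + 1)).w = (C.Pq K β (t + 1)).w - (1 - C.c) * (C.Pq K β (t + 1)).w := by
    ring
  rw [e4, hwe] at *
  linarith

end Pool.Agent.H77.AC
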