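import Pool.Agent.H77.AC.NumC

/-!
# AC-NUME: the remaining fields of `Step`

Notation as in AC-NUMD; `Γ' = Γ β^E₁`, `Γ ≤ β^γ`, `mu9 r M Γ ≤ Γ mu9 r M 1` for `Γ ≥ 1`.
-/

set_option autoImplicit false

open Finset
open scoped Classical

namespace Pool.Agent.H77.AC

variable {ρ δs : ℝ} {Γ₀ K β : ℕ}

theorem mu9_mul_le (r M Γ : ℕ) (h : 1 ≤ Γ) : mu9 r M Γ ≤ Γ * mu9 r M 1 := by
  unfold mu9
  have h1 : (1 : ℝ) ≤ Γ := by exact_mod_cast h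
  have h2 : 0 ≤ ((Γ : ℝ) - 1) * (((r : ℝ) + 1) ^ 2 + 2 * (r + 1) * M) := by
    apply mul_nonneg (by linarith); positivity
  push_cast
  nlinarith [h2]

theorem mu9_pos (r M Γ : ℕ) : 0 ≤ mu9 r M Γ := by
  unfold mu9; positivity

/-- facts used everywhere -/
theorem se_facts (C : Cn ρ δs) (H : C.Big Γ₀ K β) (t : ℕ) (ht : t < C.T) :
    C.α * K ≤ (C.aq K t : ℝ) ∧ 0 < (C.aq K t : ℝ) ∧
    1 ≤ β ^ (1 + t * C.E₁) ∧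
    ((β ^ (1 + t * C.E₁) : ℕ) : ℝ) ≤ (β : ℝ) ^ C.γ ∧
    ((β ^ (1 + (t + 1) * C.E₁) : ℕ) : ℝ) = ((β ^ (1 + t * C.E₁) : ℕ) : ℝ) * (β : ℝ) ^ C.E₁ ∧
    (1 : ℝ) ≤ (C.aq K t : ℝ) := by
  have hK : (0 : ℝ) < K := by exact_mod_cast H.K1
  have hαK : 0 < C.α * K := mul_pos C.α0 hK
  have h1 := aq_lower C H t ht.le
  have h3 : 0 < (C.aq K t : ℝ) := lt_of_lt_of_le hαK h1
  have h5 : (1 : ℝ) ≤ (C.aq K t : ℝ) := by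
    have : 0 < C.aq K t := by exact_mod_cast h3
    exact_mod_cast this
  have hβ : β ^ (1 + t * C.E₁) ≤ β ^ C.γ := by
    apply Nat.pow_le_pow_right H.β1
    have : t * C.E₁ ≤ C.T * C.E₁ := Nat.mul_le_mul_right _ ht.le
    unfold Cn.γ
    omega
  refine ⟨h1, h3, Nat.one_le_pow _ _ H.β1, ?_, ?_, h5⟩
  · have : ((β ^ (1 + t * C.E₁) : ℕ) : ℝ) ≤ ((β ^ C.γ : ℕ) : ℝ) := by exact_mod_cast hβ
    simpa using this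
  · push_cast
    rw [← pow_add]
    congr 1
    ring

theorem st_nGam (C : Cn ρ δs) (H : C.Big Γ₀ K β) (t : ℕ) (ht : t < C.T) :
    ((β ^ 3 : ℕ) * (2 * (2 * C.n₀ + 2) : ℕ) + 1 : ℝ) ^ (2 * (2 * C.n₀ + 2)) *
      ((2 * (2 * C.n₀ + 2) : ℕ) + 1) * 2 ^ (2 * (2 * C.n₀ + 2)) * (C.Pq K β t).Γ ≤
      C.c * (C.Pq K β (t + 1)).Γ := by
  obtain ⟨-, -, -, -, hΓ', -⟩ := se_facts C H t ht
  have h7 := H.k7
  unfold Cn.m at h7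
  change ((β ^ 3 : ℕ) * (2 * (2 * C.n₀ + 2) : ℕ) + 1 : ℝ) ^ (2 * (2 * C.n₀ + 2)) *
      ((2 * (2 * C.n₀ + 2) : ℕ) + 1) * 2 ^ (2 * (2 * C.n₀ + 2)) *
      ((β ^ (1 + t * C.E₁) : ℕ) : ℝ) ≤ C.c * ((β ^ (1 + (t + 1) * C.E₁) : ℕ) : ℝ)
  rw [hΓ']
  have hG0 : (0 : ℝ) ≤ ((β ^ (1 + t * C.E₁) : ℕ) : ℝ) := Nat.cast_nonneg _
  have e : ((β ^ 3 : ℕ) : ℝ) = (β : ℝ) ^ 3 := by push_cast; ring
  have h8 : ((β ^ 3 : ℕ) * (2 * (2 * C.n₀ + 2) : ℕ) + 1 : ℝ) ^ (2 * (2 * C.n₀ + 2)) *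
      ((2 * (2 * C.n₀ + 2) : ℕ) + 1) * 2 ^ (2 * (2 * C.n₀ + 2)) ≤ (β : ℝ) ^ C.E₁ / 2 := by
    rw [e]
    push_cast at h7 ⊢
    exact h7
  have h9 : (0 : ℝ) ≤ (β : ℝ) ^ C.E₁ := by positivity
  calc _ ≤ (β : ℝ) ^ C.E₁ / 2 * ((β ^ (1 + t * C.E₁) : ℕ) : ℝ) :=
        mul_le_mul_of_nonneg_right h8 hG0
    _ = 1 / 2 * (((β ^ (1 + t * C.E₁) : ℕ) : ℝ) * (β : ℝ) ^ C.E₁) := by ring
    _ ≤ C.c * (((β ^ (1 + t * C.E₁) : ℕ) : ℝ) * (β : ℝ) ^ C.E₁) := by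
        apply mul_le_mul_of_nonneg_right C.c0
        exact mul_nonneg hG0 h9

theorem st_nZ1 (C : Cn ρ δs) (H : C.Big Γ₀ K β) (t : ℕ) (ht : t < C.T) :
    mu9 β (β ^ 3 * (β + 1)) (C.Pq K β t).Γ ≤
      C.c * (((C.Pq K β (t + 1)).Γ : ℝ) - (C.Pq K β t).Γ) := by
  obtain ⟨-, -, h1, -, hΓ', -⟩ := se_facts C H t ht
  change mu9 β (β ^ 3 * (β + 1)) (β ^ (1 + t * C.E₁)) ≤
    C.c * (((β ^ (1 + (t + 1) * C.E₁) : ℕ) : ℝ) - ((β ^ (1 + t * C.E₁) : ℕ) : ℝ))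
  rw [hΓ']
  refine (mu9_mul_le _ _ _ h1).trans ?_
  have h8 := H.k8
  have hG1 : (1 : ℝ) ≤ ((β ^ (1 + t * C.E₁) : ℕ) : ℝ) := by exact_mod_cast h1
  generalize ((β ^ (1 + t * C.E₁) : ℕ) : ℝ) = G at hG1 ⊢
  have h9 : mu9 β (β ^ 3 * (β + 1)) 1 ≤ ((β : ℝ) ^ C.E₁ - 1) / 2 := by linarith
  have h10 : 0 ≤ ((β : ℝ) ^ C.E₁ - 1) := by
    have := mu9_pos β (β ^ 3 * (β + 1)) 1
    linarith
  calc G * mu9 β (β ^ 3 * (β + 1)) 1 ≤ G * (((β : ℝ) ^ C.E₁ - 1) / 2) := by gcongr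
    _ = 1 / 2 * (G * ((β : ℝ) ^ C.E₁ - 1)) := by ring
    _ ≤ C.c * (G * ((β : ℝ) ^ C.E₁ - 1)) := by
        apply mul_le_mul_of_nonneg_right C.c0
        exact mul_nonneg (by linarith) h10
    _ = _ := by ring

theorem st_nZ2 (C : Cn ρ δs) (H : C.Big Γ₀ K β) (t : ℕ) (ht : t < C.T) :
    K ^ 2 * (C.θ / (C.Pq K β t).a) *
      (∑ n ∈ Icc (2 * C.n₀ + 3) β, (n : ℝ) * (1 - C.θ ^ 2) ^ (n - 1)) +
      (β ^ 3 * (β + 1) : ℕ) * mu9 β (β ^ 3 * (β + 1)) (C.Pq K β t).Γ ≤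
      C.c * (((C.Pq K β (t + 1)).ζ - (C.Pq K β t).ζ) * K) := by
  obtain ⟨ha1, ha, h1, hΓ, -, -⟩ := se_facts C H t ht
  have hK : (0 : ℝ) < K := by exact_mod_cast H.K1
  have hα := C.α0
  have hθ := C.θ0
  have hσ := C.σ0
  change K ^ 2 * (C.θ / (C.aq K t : ℝ)) *
      (∑ n ∈ Icc (2 * C.n₀ + 3) β, (n : ℝ) * (1 - C.θ ^ 2) ^ (n - 1)) +
      ((β ^ 3 * (β + 1) : ℕ) : ℝ) * mu9 β (β ^ 3 * (β + 1)) (β ^ (1 + t * C.E₁)) ≤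
      C.c * ((4 * ((t + 1 : ℕ) : ℝ) * (C.θ / C.α) * C.σ - 4 * (t : ℝ) * (C.θ / C.α) * C.σ) * K)
  have e1 : K ^ 2 * (C.θ / (C.aq K t : ℝ)) *
      (∑ n ∈ Icc (2 * C.n₀ + 3) β, (n : ℝ) * (1 - C.θ ^ 2) ^ (n - 1)) ≤
      C.θ / C.α * C.σ * K := by
    have h2 : (K : ℝ) ^ 2 * (C.θ / (C.aq K t : ℝ)) ≤ C.θ / C.α * K := by
      have : (K : ℝ) / (C.aq K t : ℝ) ≤ 1 / C.α := by
        rw [div_le_div_iff₀ ha hα]; linarith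
      calc (K : ℝ) ^ 2 * (C.θ / (C.aq K t : ℝ)) = C.θ * K * (K / (C.aq K t : ℝ)) := by ring
        _ ≤ C.θ * K * (1 / C.α) := by gcongr
        _ = _ := by ring
    have h3 := C.hσ β
    calc K ^ 2 * (C.θ / (C.aq K t : ℝ)) *
        (∑ n ∈ Icc (2 * C.n₀ + 3) β, (n : ℝ) * (1 - C.θ ^ 2) ^ (n - 1))
        ≤ K ^ 2 * (C.θ / (C.aq K t : ℝ)) * C.σ := by gcongr
      _ ≤ C.θ / C.α * K * C.σ := by gcongr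
      _ = _ := by ring
  have e2 : ((β ^ 3 * (β + 1) : ℕ) : ℝ) * mu9 β (β ^ 3 * (β + 1)) (β ^ (1 + t * C.E₁)) ≤
      C.θ / C.α * C.σ * K := by
    have h9 := H.k9
    refine le_trans ?_ h9
    have h4 := mu9_mul_le β (β ^ 3 * (β + 1)) _ h1
    have h5 := mu9_pos β (β ^ 3 * (β + 1)) 1
    calc ((β ^ 3 * (β + 1) : ℕ) : ℝ) * mu9 β (β ^ 3 * (β + 1)) (β ^ (1 + t * C.E₁))
        ≤ ((β ^ 3 * (β + 1) : ℕ) : ℝ) * (((β ^ (1 + t * C.E₁) : ℕ) : ℝ) *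
          mu9 β (β ^ 3 * (β + 1)) 1) := by gcongr
      _ ≤ ((β ^ 3 * (β + 1) : ℕ) : ℝ) * ((β : ℝ) ^ C.γ * mu9 β (β ^ 3 * (β + 1)) 1) := by
          gcongr
      _ = _ := by
          have : ((β ^ 3 * (β + 1) : ℕ) : ℝ) = (β : ℝ) ^ 3 * (β + 1) := by push_cast; ring
          rw [this]; ring
  have e3 : C.c * ((4 * ((t + 1 : ℕ) : ℝ) * (C.θ / C.α) * C.σ - 4 * (t : ℝ) * (C.θ / C.α) * C.σ) * K)
      = C.c * (4 * (C.θ / C.α * C.σ * K)) := by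
    push_cast; ring
  rw [e3]
  have e4 : 1 / 2 * (4 * (C.θ / C.α * C.σ * K)) ≤ C.c * (4 * (C.θ / C.α * C.σ * K)) := by
    apply mul_le_mul_of_nonneg_right C.c0; positivity
  linarith

/-- `(1 - θ/a)^a ≤ 1 - θ + θ²` -/
theorem pow_a_le (θ : ℝ) (a : ℕ) (h0 : 0 < θ) (h1 : θ ≤ 1) (ha : (1 : ℝ) ≤ a) :
    (1 - θ / a) ^ a ≤ 1 - θ + θ ^ 2 := by
  have ha0 : (0 : ℝ) < a := by linarith
  have hx1 : θ / a ≤ 1 := by rw [div_le_one ha0]; linarith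
  have h2 : 1 - θ / a ≤ Real.exp (-(θ / a)) := Real.one_sub_le_exp_neg _
  have h3 : (1 - θ / a) ^ a ≤ Real.exp (-θ) := by
    calc (1 - θ / a) ^ a ≤ Real.exp (-(θ / a)) ^ a := pow_le_pow_left₀ (by linarith) h2 a
      _ = Real.exp (-θ) := by
          rw [← Real.exp_nat_mul]; congr 1; field_simp
  have h4 := Real.abs_exp_sub_one_sub_id_le (x := -θ) (by rw [abs_neg, abs_of_pos h0]; exact h1)
  have h5 := (abs_le.1 h4).2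
  have h6 : (-θ) ^ 2 = θ ^ 2 := by ring
  rw [h6] at h5
  linarith

theorem c_near (C : Cn ρ δs) : 1 - C.c ≤ C.θ / 192 := by
  have h1 := C.cA
  have hW : 0 < C.W := W_pos C
  have hb := C.hb
  have hθ := C.θ0
  have hθ4 := C.θ4
  have hc : 0 ≤ 1 - C.c := by linarith [C.c1]
  have h2 : (1 - C.c) * 48 ≤ (1 - C.c) * (12 * (C.b + 1)) := by
    apply mul_le_mul_of_nonneg_left _ hc
    rw [hb]; linarith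
  nlinarith

theorem core_D (C : Cn ρ δs) (H : C.Big Γ₀ K β) (t : ℕ) (ht : t < C.T) (X : ℝ)
    (hX : (1 - C.θ / 2) ^ t * K ≤ X) :
    2 * ((β ^ 3 : ℕ) : ℝ) + X * (1 - C.θ / (C.aq K t : ℝ)) ^ (C.aq K t) ≤
      C.c * ((1 - C.θ / 2) * X) := by
  obtain ⟨ha1, ha, -, -, -, h1a⟩ := se_facts C H t ht
  have hK : (0 : ℝ) < K := by exact_mod_cast H.K1
  have hθ := C.θ0
  have hθ4 := C.θ4
  have hX0 : 0 ≤ X := le_trans (by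
    have : (0 : ℝ) ≤ (1 - C.θ / 2) ^ t := pow_nonneg (by linarith) t
    positivity) hX
  have h1 := pow_a_le C.θ (C.aq K t) hθ (by linarith) h1a
  have h10 := H.k10
  have h2 : (1 - C.θ / 2) ^ C.T ≤ (1 - C.θ / 2) ^ t :=
    pow_le_pow_of_le_one (by linarith) (by linarith) ht.le
  have h3 : 2 * ((β ^ 3 : ℕ) : ℝ) ≤ C.θ / 8 * X := by
    have e : ((β ^ 3 : ℕ) : ℝ) = (β : ℝ) ^ 3 := by push_cast; ring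
    rw [e]
    refine h10.trans ?_
    apply mul_le_mul_of_nonneg_left _ (by positivity)
    refine le_trans ?_ hX
    exact mul_le_mul_of_nonneg_right h2 hK.le
  have h4 : X * (1 - C.θ / (C.aq K t : ℝ)) ^ (C.aq K t) ≤ X * (1 - C.θ + C.θ ^ 2) :=
    mul_le_mul_of_nonneg_left h1 hX0
  have h5 := c_near C
  have h6 : C.θ / 8 + (1 - C.θ + C.θ ^ 2) ≤ C.c * (1 - C.θ / 2) := by
    have h7 : (1 - C.c) * (1 - C.θ / 2) ≤ (1 - C.c) * 1 := by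
      apply mul_le_mul_of_nonneg_left (by linarith) (by linarith [C.c1])
    nlinarith
  calc 2 * ((β ^ 3 : ℕ) : ℝ) + X * (1 - C.θ / (C.aq K t : ℝ)) ^ (C.aq K t)
      ≤ C.θ / 8 * X + X * (1 - C.θ + C.θ ^ 2) := add_le_add h3 h4
    _ = (C.θ / 8 + (1 - C.θ + C.θ ^ 2)) * X := by ring
    _ ≤ (C.c * (1 - C.θ / 2)) * X := mul_le_mul_of_nonneg_right h6 hX0
    _ = _ := by ring

theorem st_nD (C : Cn ρ δs) (H : C.Big Γ₀ K β) (t : ℕ) (ht : t < C.T) :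
    2 * (β ^ 3 : ℕ) + (C.Pq K β t).D * (1 - C.θ / (C.Pq K β t).a) ^ (C.Pq K β t).a ≤
      C.c * (C.Pq K β (t + 1)).D := by
  have h := core_D C H t ht ((1 - C.θ / 2) ^ t * K) le_rfl
  have e : (C.Pq K β (t + 1)).D = (1 - C.θ / 2) * ((1 - C.θ / 2) ^ t * K) := by
    change (1 - C.θ / 2) ^ (t + 1) * (K : ℝ) = _
    rw [pow_succ]; ring
  rw [e]
  exact h

theorem st_nJ (C : Cn ρ δs) (H : C.Big Γ₀ K β) (t : ℕ) (ht : t < C.T) :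
    2 * (β ^ 3 : ℕ) + (C.Pq K β t).j * (1 - C.θ / (C.Pq K β t).a) ^ (C.Pq K β t).a ≤
      C.c * ((1 - C.θ / 2) * (C.Pq K β t).j) :=
  core_D C H t ht (C.jq K t) (jq_lower C t)

theorem tau_ge (C : Cn ρ δs) (K : ℕ) :
    2 * (C.W + 4) * (C.θ ^ 2 * K) ≤ C.c * (C.τ * K) := by
  have hW : 0 < C.W := W_pos C
  have e : C.c * (C.τ * K) = C.c * (4 * (C.W + 4) * (C.θ ^ 2 * K)) := by
    unfold Cn.τ; ring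
  rw [e]
  have h1 : 1 / 2 * (4 * (C.W + 4) * (C.θ ^ 2 * K)) ≤ C.c * (4 * (C.W + 4) * (C.θ ^ 2 * K)) := by
    apply mul_le_mul_of_nonneg_right C.c0
    have := C.θ0
    positivity
  linarith

theorem b3_bounds (C : Cn ρ δs) (H : C.Big Γ₀ K β) :
    12 * ((β ^ 3 : ℕ) : ℝ) + 8 * ((β ^ 3 : ℕ) : ℝ) ^ 2 ≤ C.θ ^ 2 * K ∧
    0 ≤ ((β ^ 3 : ℕ) : ℝ) ∧ 0 ≤ C.θ ^ 2 * (K : ℝ) ∧
    8 * (C.θ ^ 2 * K) ≤ C.c * (C.τ * K) := by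
  have e : ((β ^ 3 : ℕ) : ℝ) = (β : ℝ) ^ 3 := by push_cast; ring
  have h0 : 0 ≤ C.θ ^ 2 * (K : ℝ) := by positivity
  refine ⟨by rw [e]; exact H.k11, Nat.cast_nonneg _, h0, ?_⟩
  have h1 := tau_ge C K
  have hW : 0 < C.W := W_pos C
  nlinarith

theorem st_n1 (C : Cn ρ δs) (H : C.Big Γ₀ K β) : ((β ^ 3 : ℕ) : ℝ) ≤ C.τ * K / 2 := by
  obtain ⟨h1, h2, h3, -⟩ := b3_bounds C H
  have hW : 0 < C.W := W_pos C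
  have e : C.τ * K / 2 = 2 * (C.W + 4) * (C.θ ^ 2 * K) := by
    unfold Cn.τ; ring
  rw [e]
  have h4 : 0 ≤ ((β ^ 3 : ℕ) : ℝ) ^ 2 := sq_nonneg _
  nlinarith

theorem D_le_K (C : Cn ρ δs) (t : ℕ) : (C.Pq K β t).D ≤ K := by
  change (1 - C.θ / 2) ^ t * (K : ℝ) ≤ K
  have hθ := C.θ0
  have hθ4 := C.θ4
  have : (1 - C.θ / 2) ^ t ≤ 1 := pow_le_one₀ (by linarith) (by linarith)
  calc (1 - C.θ / 2) ^ t * (K : ℝ) ≤ 1 * K := by gcongr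
    _ = K := one_mul _

theorem st_n2 (C : Cn ρ δs) (H : C.Big Γ₀ K β) (t : ℕ) (ht : t < C.T) :
    C.θ ^ 2 * (C.Pq K β t).D + 6 * (β ^ 3 : ℕ) + 8 * ((β ^ 3 : ℕ) : ℝ) ^ 2 ≤
      C.c * (C.τ * K) := by
  obtain ⟨h1, h2, h3, h4⟩ := b3_bounds C H
  have h5 : C.θ ^ 2 * (C.Pq K β t).D ≤ C.θ ^ 2 * K := by
    gcongr
    exact D_le_K C t
  linarith

theorem st_n3 (C : Cn ρ δs) (H : C.Big Γ₀ K β) :
    K * C.θ * C.θ ^ 2 + 6 * (β ^ 3 : ℕ) + 8 * ((β ^ 3 : ℕ) : ℝ) ^ 2 ≤ C.c * (C.τ * K) := by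
  obtain ⟨h1, h2, h3, h4⟩ := b3_bounds C H
  have hθ := C.θ0
  have hθ4 := C.θ4
  have h5 : K * C.θ * C.θ ^ 2 ≤ C.θ ^ 2 * K := by
    have : C.θ * (C.θ ^ 2 * K) ≤ 1 * (C.θ ^ 2 * K) := by
      apply mul_le_mul_of_nonneg_right (by linarith) h3
    linarith
  linarith

theorem st_n4 (C : Cn ρ δs) (H : C.Big Γ₀ K β) :
    K * (C.θ ^ 2 * (1 + 2 * ρ)) + 12 * (β ^ 3 : ℕ) + 8 * ((β ^ 3 : ℕ) : ℝ) ^ 2 ≤
      C.c * (C.τ * K) := by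
  obtain ⟨h1, h2, h3, h4⟩ := b3_bounds C H
  have hρ1 := C.ρ1
  have h5 : K * (C.θ ^ 2 * (1 + 2 * ρ)) ≤ 3 * (C.θ ^ 2 * K) := by
    have : (1 + 2 * ρ) * (C.θ ^ 2 * K) ≤ 3 * (C.θ ^ 2 * K) := by
      apply mul_le_mul_of_nonneg_right (by linarith) h3
    linarith
  linarith

theorem st_n5 (C : Cn ρ δs) (H : C.Big Γ₀ K β) (t : ℕ) (ht : t < C.T) :
    K * (C.θ ^ 2 * (C.Pq K β t).w) +
      ((β ^ 3 : ℕ) * (2 * C.n₀ + 2 : ℕ) + 1) ^ (2 * C.n₀ + 2) * (2 * C.n₀ + 2 : ℕ) *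
      ((C.Pq K β t).w + ((2 * C.n₀ + 2 : ℕ) + 2) * (C.Pq K β t).Γ) ≤ C.c * (C.τ * K) := by
  obtain ⟨-, -, -, hΓ, -, -⟩ := se_facts C H t ht
  obtain ⟨-, h2, h3, -⟩ := b3_bounds C H
  have h4 := tau_ge C K
  obtain ⟨hw0, hw⟩ := w_le (K := K) (β := β) C t ht.le
  have h12 := H.k12
  unfold Cn.m at h12
  have e1 : K * (C.θ ^ 2 * (C.Pq K β t).w) ≤ C.W * (C.θ ^ 2 * K) := by
    have : (C.Pq K β t).w * (C.θ ^ 2 * K) ≤ C.W * (C.θ ^ 2 * K) :=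
      mul_le_mul_of_nonneg_right hw h3
    linarith
  have e2 : (((β ^ 3 : ℕ) : ℝ) * ((2 * C.n₀ + 2 : ℕ) : ℝ) + 1) ^ (2 * C.n₀ + 2) *
      ((2 * C.n₀ + 2 : ℕ) : ℝ) *
      ((C.Pq K β t).w + (((2 * C.n₀ + 2 : ℕ) : ℝ) + 2) * ((β ^ (1 + t * C.E₁) : ℕ) : ℝ)) ≤
      C.θ ^ 2 * K := by
    refine le_trans ?_ h12
    have e : ((β ^ 3 : ℕ) : ℝ) = (β : ℝ) ^ 3 := by push_cast; ring
    rw [e]
    gcongr
  change K * (C.θ ^ 2 * (C.Pq K β t).w) +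
      (((β ^ 3 : ℕ) : ℝ) * ((2 * C.n₀ + 2 : ℕ) : ℝ) + 1) ^ (2 * C.n₀ + 2) *
      ((2 * C.n₀ + 2 : ℕ) : ℝ) *
      ((C.Pq K β t).w + (((2 * C.n₀ + 2 : ℕ) : ℝ) + 2) * ((β ^ (1 + t * C.E₁) : ℕ) : ℝ)) ≤
      C.c * (C.τ * K)
  nlinarith [W_pos C]

theorem st_n6 (C : Cn ρ δs) (H : C.Big Γ₀ K β) (t : ℕ) (ht : t < C.T) :
    2 * K * (C.θ / (C.Pq K β t).a) * ((C.Pq K β t).ζ * K) +
      2 * K * C.θ * (K * C.θ / (C.Pq K β t).a) *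
        (∑ n ∈ Icc (2 * C.n₀ + 3) β, (n : ℝ) * (1 - C.θ ^ 2) ^ (n - 1)) +
      2 * (β ^ 3 * (β + 1) : ℕ) * (C.Pq K β t).Γ +
      6 * (β ^ 3 * (β + 1) : ℕ) * mu9 β (β ^ 3 * (β + 1)) (C.Pq K β t).Γ ≤
      C.c * (C.τ * K) := by
  obtain ⟨ha1, ha, h1, hΓ, -, -⟩ := se_facts C H t ht
  obtain ⟨-, h2, h3, h4⟩ := b3_bounds C H
  have hK : (0 : ℝ) < K := by exact_mod_cast H.K1
  have hα := C.α0
  have hθ := C.θ0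
  have hσ := C.σ0
  have hr : (K : ℝ) / (C.aq K t : ℝ) ≤ 1 / C.α := by
    rw [div_le_div_iff₀ ha hα]; linarith
  have hr0 : 0 ≤ (K : ℝ) / (C.aq K t : ℝ) := by positivity
  change 2 * K * (C.θ / (C.aq K t : ℝ)) * (4 * (t : ℝ) * (C.θ / C.α) * C.σ * K) +
      2 * K * C.θ * (K * C.θ / (C.aq K t : ℝ)) *
        (∑ n ∈ Icc (2 * C.n₀ + 3) β, (n : ℝ) * (1 - C.θ ^ 2) ^ (n - 1)) +
      2 * ((β ^ 3 * (β + 1) : ℕ) : ℝ) * ((β ^ (1 + t * C.E₁) : ℕ) : ℝ) +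
      6 * ((β ^ 3 * (β + 1) : ℕ) : ℝ) * mu9 β (β ^ 3 * (β + 1)) (β ^ (1 + t * C.E₁)) ≤
      C.c * (C.τ * K)
  have htT : (t : ℝ) ≤ C.T := by exact_mod_cast ht.le
  have e1 : 2 * K * (C.θ / (C.aq K t : ℝ)) * (4 * (t : ℝ) * (C.θ / C.α) * C.σ * K) ≤
      2 * (C.θ / C.α) * (4 * C.T * (C.θ / C.α) * C.σ) * K := by
    calc 2 * K * (C.θ / (C.aq K t : ℝ)) * (4 * (t : ℝ) * (C.θ / C.α) * C.σ * K)
        = 2 * (C.θ * (K / (C.aq K t : ℝ))) * (4 * (t : ℝ) * (C.θ / C.α) * C.σ) * K := by ring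
      _ ≤ 2 * (C.θ * (1 / C.α)) * (4 * C.T * (C.θ / C.α) * C.σ) * K := by gcongr
      _ = _ := by ring
  have e2 : 2 * K * C.θ * (K * C.θ / (C.aq K t : ℝ)) *
        (∑ n ∈ Icc (2 * C.n₀ + 3) β, (n : ℝ) * (1 - C.θ ^ 2) ^ (n - 1)) ≤
      2 * (C.θ ^ 2 / C.α) * C.σ * K := by
    calc 2 * K * C.θ * (K * C.θ / (C.aq K t : ℝ)) *
        (∑ n ∈ Icc (2 * C.n₀ + 3) β, (n : ℝ) * (1 - C.θ ^ 2) ^ (n - 1))
        ≤ 2 * K * C.θ * (K * C.θ / (C.aq K t : ℝ)) * C.σ := by gcongr; exact C.hσ β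
      _ = 2 * C.θ ^ 2 * (K / (C.aq K t : ℝ)) * C.σ * K := by ring
      _ ≤ 2 * C.θ ^ 2 * (1 / C.α) * C.σ * K := by gcongr
      _ = _ := by ring
  have e3 : 2 * ((β ^ 3 * (β + 1) : ℕ) : ℝ) * ((β ^ (1 + t * C.E₁) : ℕ) : ℝ) +
      6 * ((β ^ 3 * (β + 1) : ℕ) : ℝ) * mu9 β (β ^ 3 * (β + 1)) (β ^ (1 + t * C.E₁)) ≤
      C.θ ^ 2 * K := by
    refine le_trans ?_ H.k13
    have h5 := mu9_mul_le β (β ^ 3 * (β + 1)) _ h1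
    have h6 := mu9_pos β (β ^ 3 * (β + 1)) 1
    have e : ((β ^ 3 * (β + 1) : ℕ) : ℝ) = (β : ℝ) ^ 3 * (β + 1) := by push_cast; ring
    have h7 : mu9 β (β ^ 3 * (β + 1)) (β ^ (1 + t * C.E₁)) ≤
        mu9 β (β ^ 3 * (β + 1)) 1 * (β : ℝ) ^ C.γ := by
      refine h5.trans ?_
      rw [mul_comm]
      gcongr
    rw [e]
    gcongr
  have e4 := C.hζ
  have e5 : (2 * (C.θ / C.α) * (4 * C.T * (C.θ / C.α) * C.σ) + 2 * (C.θ ^ 2 / C.α) * C.σ) * K ≤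
      C.θ ^ 2 * K := mul_le_mul_of_nonneg_right e4 hK.le
  linarith

theorem st_n7 (C : Cn ρ δs) (H : C.Big Γ₀ K β) :
    C.θ ^ 2 * K + 2 * (β ^ 3 : ℕ) ≤ C.c * (C.τ * K) := by
  obtain ⟨h1, h2, h3, h4⟩ := b3_bounds C H
  have h5 : 0 ≤ ((β ^ 3 : ℕ) : ℝ) ^ 2 := sq_nonneg _
  linarith

end Pool.Agent.H77.AC
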