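import Pool.Agent.H77.AC.NumA
import Pool.Agent.H77.AC.NumB
import Pool.Agent.H77.AC.NumD
import Pool.Agent.H77.AC.NumE

/-!
# AC-NUMG: all steps are valid
-/

set_option autoImplicit false

open Finset
open scoped Classical

namespace Pool.Agent.H77.AC

variable {ρ δs : ℝ} {Γ₀ K β : ℕ}

theorem step_all (C : Cn ρ δs) (H : C.Big Γ₀ K β) (t : ℕ) (ht : t < C.T) :
    Step K C.n₀ β (β ^ 3) ρ C.θ (C.θ ^ 2) C.c C.τ (C.Pq K β t) (C.Pq K β (t + 1)) := by
  have hW := W_pos C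
  have hK1 : (1 : ℝ) ≤ K := by exact_mod_cast H.K1
  have hαK : 0 < C.α * K := mul_pos C.α0 (by linarith)
  have hlo := aq_lower C H t ht.le
  have hlo' := aq_lower C H (t + 1) ht
  have ha : (0 : ℝ) < (C.aq K t : ℝ) := lt_of_lt_of_le hαK hlo
  have ha' : (0 : ℝ) < (C.aq K (t + 1) : ℝ) := lt_of_lt_of_le hαK hlo'
  have hw := w_le (K := K) (β := β) C t ht.le
  have hgs := g_succ (K := K) (β := β) C t ht
  have hθ := C.θ0
  have hθ4 := C.θ4
  have hτ : 0 < C.τ := by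
    unfold Cn.τ
    positivity
  have hcon : 0 ≤ (C.W + 4 + C.lam ^ 2) * C.θ ^ 2 := by positivity
  refine
    { K0 := H.K1
      n0 := C.n1
      r0 := H.β1
      s1 := Nat.one_le_pow _ _ H.β1
      ρ0 := C.ρ0
      ρ1 := C.ρ1.le
      θ0 := C.θ0
      θ1 := by linarith
      δ0 := by positivity
      δ1 := by nlinarith
      ρθ := ?_
      c0 := C.c0
      c1 := C.c1
      τ0 := hτ
      a0 := by exact_mod_cast ha
      a'0 := by exact_mod_cast ha'
      aa := aq_le C H t ht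
      aK := aq_le_K C H t ht.le
      Kθ := ?_
      Γ1 := Nat.one_le_pow _ _ H.β1
      w0 := hw.1
      g1 := g_ge C t
      hB := ?_
      D0 := ?_
      f0 := ?_
      j0 := ?_
      M0 := Mq_nonneg C t
      ζ0 := ?_
      nl := st_nl C H t ht
      nA := st_nA C H t ht
      nC := st_nC C H t ht
      nN := st_nN C H t ht
      g'1 := g_ge C (t + 1)
      gg := ?_
      nG := st_nG C H t ht
      nW := st_nW C H t ht
      nΓ := st_nGam C H t ht
      nZ1 := st_nZ1 C H t ht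
      nZ2 := st_nZ2 C H t ht
      nD := st_nD C H t ht
      nJ := st_nJ C H t ht
      n1 := st_n1 C H
      n2 := st_n2 C H t ht
      n3 := st_n3 C H
      n4 := st_n4 C H
      n5 := st_n5 C H t ht
      n6 := st_n6 C H t ht
      n7 := st_n7 C H
      eD := ?_
      ej := ?_
      ef := ?_
      eM := ?_ }
  · have := C.ρ1
    have := C.ρ0
    nlinarith
  · calc (K : ℝ) * C.θ ≤ K * C.α := mul_le_mul_of_nonneg_left C.θα (by linarith)
      _ = C.α * K := mul_comm _ _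
      _ ≤ _ := hlo
  · have h1 : C.b * (C.aq K t : ℝ) ≤ (⌈C.b * (C.aq K t : ℝ)⌉₊ : ℝ) := Nat.le_ceil _
    have h2 : 2 * ρ + (C.Pq K β t).w ≤ C.b := by
      rw [C.hb]
      have := C.ρ1
      linarith [hw.2]
    calc (2 * ρ + (C.Pq K β t).w) * ((C.Pq K β t).a : ℝ) ≤ C.b * ((C.Pq K β t).a : ℝ) :=
          mul_le_mul_of_nonneg_right h2 (Nat.cast_nonneg _)
      _ ≤ _ := h1
  · show 0 < (1 - C.θ / 2) ^ t * (K : ℝ)
    have : 0 < 1 - C.θ / 2 := by linarith
    positivity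
  · show 0 ≤ 4 * (t : ℝ) * (C.τ * K)
    positivity
  · have h1 := jq_lower (K := K) C t
    have h2 : 0 < (1 - C.θ / 2) ^ t * (K : ℝ) := by
      have : 0 < 1 - C.θ / 2 := by linarith
      positivity
    exact lt_of_lt_of_le h2 h1
  · show 0 ≤ 4 * (t : ℝ) * (C.θ / C.α) * C.σ
    have := C.α0
    have := C.σ0
    positivity
  · rw [hgs]
    have h1 := g_ge (K := K) (β := β) C (t + 1)
    nlinarith
  · show (1 - C.θ / 2) ^ (t + 1) * (K : ℝ) = (1 - C.θ / 2) * ((1 - C.θ / 2) ^ t * K)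
    ring
  · show (1 - C.θ / 2) * C.jq K t + 4 * C.θ * ((1 - C.θ / 2) ^ t * K) + 3 * (C.τ * K) ≤
      C.jq K (t + 1)
    exact le_refl _
  · show 4 * (t : ℝ) * (C.τ * K) + 4 * (C.τ * K) ≤ 4 * ((t + 1 : ℕ) : ℝ) * (C.τ * K)
    push_cast
    linarith
  · show C.Mq K t + 14 * (C.τ * K) +
      4 * (K * (C.θ / (C.aq K t : ℝ)) * (4 * t * (C.τ * K))) ≤ C.Mq K (t + 1)
    exact le_refl _

end Pool.Agent.H77.AC
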