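import Pool.Agent.H77.AC.RoundDet
import Pool.Agent.H77.AC.NumG
import Pool.Agent.H77.AC.Base
import Pool.Agent.H70.AE.Eps

/-!
# AC-MAIN: all rounds, and the completion
-/

set_option autoImplicit false

open Finset
open scoped Classical

namespace Pool.Agent.H77.AC

/-- the state after `t ≤ T` rounds -/
theorem rounds {ρ δs : ℝ} (C : Cn ρ δs) {Γ₀ K β : ℕ} (H : C.Big Γ₀ K β) {V : Type} [Fintype V]
    [DecidableEq V] (G : SimpleGraph V) (Δ : ℕ)
    (hΔ : ∀ v, (univ.filter (fun u => G.Adj v u)).card ≤ Δ) (hΔK : Δ ≤ K)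
    (h0 : ∃ st : St (PX V K) (Sym2 V),
      Inv (gS G K C.n₀) st K (C.Pq K β 0).a (C.Pq K β 0).Γ ρ (C.Pq K β 0).w (C.Pq K β 0).g ∧
      GInv G C.n₀ β st (C.Pq K β 0).Γ (C.Pq K β 0).D (C.Pq K β 0).f (C.Pq K β 0).j
        (C.Pq K β 0).M (C.Pq K β 0).ζ) (t : ℕ) (ht : t ≤ C.T) :
    ∃ st : St (PX V K) (Sym2 V),
      Inv (gS G K C.n₀) st K (C.Pq K β t).a (C.Pq K β t).Γ ρ (C.Pq K β t).w (C.Pq K β t).g ∧
      GInv G C.n₀ β st (C.Pq K β t).Γ (C.Pq K β t).D (C.Pq K β t).f (C.Pq K β t).j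
        (C.Pq K β t).M (C.Pq K β t).ζ := by
  induction t with
  | zero => exact h0
  | succ t ih =>
    obtain ⟨st, h1, h2⟩ := ih (by omega)
    have F : Full G C.n₀ β (β ^ 3) Δ ρ C.θ (C.θ ^ 2) C.c C.τ (C.Pq K β t) (C.Pq K β (t + 1))
        st := ⟨hΔ, hΔK, step_all C H t (by omega), h1, h2⟩
    exact round F H.kL

/-- colour of an edge given by a set of pairs -/
noncomputable def colF {V : Type} {K : ℕ} (R : Finset (PX V K)) (u v : V) : Option (Fin K) :=
  if h : ∃ c, (s(u, v), c) ∈ R then some h.choose else none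

section

variable {V : Type} [Fintype V] [DecidableEq V] {K : ℕ}

theorem colF_some (R : Finset (PX V K))
    (hE : ∀ x ∈ R, ∀ y ∈ R, x ≠ y → x.1 ≠ y.1) (u v : V) (c : Fin K) :
    colF R u v = some c ↔ (s(u, v), c) ∈ R := by
  unfold colF
  constructor
  · intro h
    split_ifs at h with hex
    have := hex.choose_spec
    rw [Option.some.injEq] at h
    rwa [h] at this
  · intro h
    have hex : ∃ c, (s(u, v), c) ∈ R := ⟨c, h⟩
    rw [dif_pos hex]
    have h1 := hex.choose_spec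
    by_contra hne
    have hne' : hex.choose ≠ c := fun h' => hne (by rw [h'])
    exact hE _ h1 _ h (fun h' => hne' (Prod.ext_iff.1 h').2) rfl

theorem colF_none (R : Finset (PX V K)) (u v : V) :
    colF R u v = none ↔ ∀ c, (s(u, v), c) ∉ R := by
  unfold colF
  constructor
  · intro h
    split_ifs at h with hex
    exact not_exists.1 hex
  · intro h
    rw [dif_neg (not_exists.2 h)]

theorem colF_symm (R : Finset (PX V K)) (u v : V) : colF R u v = colF R v u := by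
  unfold colF
  rw [Sym2.eq_swap]

theorem mem_tset (R : Finset (PX V K)) (T : Sym2 V → Prop) (u v : V) (c : Fin K) :
    c ∈ tset R T u v ↔ Has R u c ∧ Has R v c ∧ T s(par R u c, par R v c) := by
  unfold tset
  rw [Finset.mem_filter]
  exact ⟨fun h => h.2, fun h => ⟨Finset.mem_univ _, h⟩⟩

/-- from the final state to a partial colouring in the format of `finish_eps` -/
theorem to_finish (G : SimpleGraph V) (n₀ r₀ : ℕ) (st : St (PX V K) (Sym2 V))
    (a Γ : ℕ) (ρ w g D f j M ζ : ℝ)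
    (h : Inv (gS G K n₀) st K a Γ ρ w g) (hg : GInv G n₀ r₀ st Γ D f j M ζ) (d : ℝ)
    (h1 : D + f ≤ d) (h2 : j + M ≤ d) :
    (∀ u v, colF st.R u v = colF st.R v u) ∧
    (∀ u v, colF st.R u v ≠ none → G.Adj u v) ∧
    (∀ u v w c, colF st.R u v = some c → colF st.R u w = some c → v = w) ∧
    (∀ (n : ℕ) (x : Fin (2 * n + 4) → V) (b c : Fin K), Function.Injective x → b ≠ c →
        (∀ i, colF st.R (x i) (x (i + 1)) = some (if (i : ℕ) % 2 = 0 then b else c)) →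
        r₀ + 1 < 2 * n + 4) ∧
    (∀ v, ((univ.filter (fun u => G.Adj v u ∧ colF st.R v u = none)).card : ℝ) ≤ d) ∧
    (∀ u v, G.Adj u v → ((univ.filter (fun c : Fin K => ∃ u' v', colF st.R u u' = some c ∧
        colF st.R v v' = some c ∧ G.Adj u' v' ∧ colF st.R u' v' = none)).card : ℝ) ≤ d) := by
  have hE : ∀ x ∈ st.R, ∀ y ∈ st.R, x ≠ y → x.1 ≠ y.1 := h.R_ed
  have hN : ∀ x ∈ st.R, ∀ y ∈ st.R, x ≠ y → Disjoint (ndG x) (ndG y) := h.R_nd
  have hsome := colF_some st.R hE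
  have hnone := colF_none st.R
  have hFE : ∀ u v, G.Adj u v → colF st.R u v = none → s(u, v) ∉ st.U → FE G st s(u, v) := by
    intro u v huv hn hU
    refine ⟨huv, hU, ?_⟩
    rintro ⟨e, c⟩ hx rfl
    exact (hnone u v).1 hn c hx
  refine ⟨colF_symm st.R, ?_, ?_, ?_, ?_, ?_⟩
  · intro u v huv
    obtain ⟨c, hc⟩ := Option.ne_none_iff_exists'.1 huv
    exact hg.R_E _ ((hsome u v c).1 hc)
  · intro u v w c hv hw
    have e1 := par_eq st.R hN u v c ((hsome u v c).1 hv)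
    have e2 := par_eq st.R hN u w c ((hsome u w c).1 hw)
    rw [← e1, e2]
  · intro n x b c hx hbc hc
    by_contra hlt
    push Not at hlt
    have hs : ∀ i, cstep x b c i ∈ st.R := fun i => (hsome _ _ _).1 (hc i)
    refine hg.nocyc n (by omega) (univ.image (cstep x b c))
      ⟨x, b, c, hx, fun i => hg.R_E _ (hs i), hbc, rfl⟩ ?_
    intro y hy
    obtain ⟨i, _, rfl⟩ := Finset.mem_image.1 hy
    exact hs i
  · intro v
    have hle : (univ.filter (fun u => G.Adj v u ∧ colF st.R v u = none)).card ≤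
        (stU st v ∪ fstar G st v).card := by
      apply Finset.card_le_card_of_injOn (fun u => s(v, u))
      · intro u hu
        have hu' := (Finset.mem_filter.1 (Finset.mem_coe.1 hu)).2
        rw [Finset.mem_coe, Finset.mem_union]
        by_cases hU : s(v, u) ∈ st.U
        · left
          exact Finset.mem_filter.2 ⟨hU, Sym2.mem_mk_left v u⟩
        · right
          exact Finset.mem_filter.2 ⟨Finset.mem_univ _, Sym2.mem_mk_left v u,
            hFE v u hu'.1 hu'.2 hU⟩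
      · intro u _ u' _ huu
        exact Sym2.congr_right.1 huu
    have h3 := hg.deg v
    have h4 := hg.fdeg v
    have h5 : ((stU st v ∪ fstar G st v).card : ℝ) ≤ (stU st v).card + (fstar G st v).card := by
      exact_mod_cast Finset.card_union_le _ _
    have h6 : ((univ.filter (fun u => G.Adj v u ∧ colF st.R v u = none)).card : ℝ) ≤
      ((stU st v ∪ fstar G st v).card : ℝ) := by exact_mod_cast hle
    linarith
  · intro u v huv
    have hle : (univ.filter (fun c : Fin K => ∃ u' v', colF st.R u u' = some c ∧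
        colF st.R v v' = some c ∧ G.Adj u' v' ∧ colF st.R u' v' = none)).card ≤
        (tset st.R (fun e => e ∈ st.U) u v ∪ tset st.R (FE G st) u v).card := by
      apply Finset.card_le_card
      intro c hc
      obtain ⟨u', v', hu, hv, ha, hn⟩ := (Finset.mem_filter.1 hc).2
      have hu' := (hsome _ _ _).1 hu
      have hv' := (hsome _ _ _).1 hv
      have e1 := par_eq st.R hN u u' c hu'
      have e2 := par_eq st.R hN v v' c hv'
      rw [Finset.mem_union]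
      by_cases hU : s(u', v') ∈ st.U
      · left
        refine (mem_tset _ _ _ _ _).2 ⟨⟨u', hu'⟩, ⟨v', hv'⟩, ?_⟩
        rw [e1, e2]
        exact hU
      · right
        refine (mem_tset _ _ _ _ _).2 ⟨⟨u', hu'⟩, ⟨v', hv'⟩, ?_⟩
        rw [e1, e2]
        exact hFE u' v' ha hn hU
    have h3 := hg.jj u v huv
    have h4 := hg.mm u v huv
    have h5 : ((tset st.R (fun e => e ∈ st.U) u v ∪ tset st.R (FE G st) u v).card : ℝ) ≤
      (tset st.R (fun e => e ∈ st.U) u v).card + (tset st.R (FE G st) u v).card := by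
      exact_mod_cast Finset.card_union_le _ _
    have h6 : ((univ.filter (fun c : Fin K => ∃ u' v', colF st.R u u' = some c ∧
        colF st.R v v' = some c ∧ G.Adj u' v' ∧ colF st.R u' v' = none)).card : ℝ) ≤
        ((tset st.R (fun e => e ∈ st.U) u v ∪ tset st.R (FE G st) u v).card : ℝ) := by
      exact_mod_cast hle
    linarith

end

/-- The main theorem. -/
theorem main (ε : ℝ) (hε : 0 < ε) : ∃ D₀ : ℕ, ∀ (V : Type) (_ : Fintype V) (_ : DecidableEq V)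
    (G : SimpleGraph V) (D : ℕ), D₀ ≤ D → (∀ v, (univ.filter (fun u => G.Adj v u)).card ≤ D) →
    ∃ N : ℕ, (N : ℝ) ≤ (1 + ε) * D ∧ ∃ c : V → V → Fin N,
      (∀ u v : V, c u v = c v u) ∧
      (∀ u v w : V, G.Adj u v → G.Adj u w → v ≠ w → c u v ≠ c u w) ∧
      (∀ (u : V) (p : G.Walk u u), p.IsCycle →
        3 ≤ (p.darts.map (fun d => c d.toProd.1 d.toProd.2)).toFinset.card) := by
  obtain ⟨e, he⟩ : ∃ e : ℝ, e = min ε 1 / 4 := ⟨_, rfl⟩
  have he0 : 0 < e := by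
    rw [he]
    have : 0 < min ε 1 := lt_min hε one_pos
    positivity
  have he1 : e ≤ 1 / 4 := by
    rw [he]
    have : min ε 1 ≤ 1 := min_le_right _ _
    linarith
  have heε : 4 * e ≤ ε := by
    rw [he]
    have : min ε 1 ≤ ε := min_le_left _ _
    linarith
  obtain ⟨δ, hδ, hfin⟩ := Pool.Agent.H70.AE.finish_eps e he0
  obtain ⟨ρ, hρ⟩ : ∃ ρ : ℝ, ρ = 1 / (1 + e) := ⟨_, rfl⟩
  have hρ0 : 0 < ρ := by
    rw [hρ]
    positivity
  have hρ1 : ρ < 1 := by
    rw [hρ, div_lt_one (by positivity)]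
    linarith
  obtain ⟨C⟩ := exists_Cn ρ (δ / 2) hρ0 hρ1 (by positivity)
  obtain ⟨Γ₀, hbase⟩ := base_inv C.n₀ C.n1
  obtain ⟨K₀, hbig⟩ := exists_big C Γ₀
  have hη : 0 < 1 / (2 * (C.e₀ : ℝ)) := by
    have : 0 < C.e₀ := by
      unfold Cn.e₀
      omega
    positivity
  obtain ⟨D1, hD1⟩ := hfin _ hη
  refine ⟨max (max D1 K₀) (⌈1 / e⌉₊ + 4), ?_⟩
  intro V _ _ G D hD hdeg
  have hDD1 : D1 ≤ D := le_trans (le_trans (le_max_left _ _) (le_max_left _ _)) hD
  have hDK₀ : K₀ ≤ D := le_trans (le_trans (le_max_right _ _) (le_max_left _ _)) hD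
  have hDe : ⌈1 / e⌉₊ + 4 ≤ D := le_trans (le_max_right _ _) hD
  have hDe' : 1 / e ≤ D := by
    have h1 : 1 / e ≤ (⌈1 / e⌉₊ : ℝ) := Nat.le_ceil _
    have h2 : (⌈1 / e⌉₊ : ℝ) ≤ D := by exact_mod_cast (by omega : ⌈1 / e⌉₊ ≤ D)
    linarith
  have heD : 1 ≤ e * D := by
    rw [div_le_iff₀ he0] at hDe'
    linarith
  have hD4 : (4 : ℝ) ≤ D := by exact_mod_cast (by omega : 4 ≤ D)
  obtain ⟨K, hK⟩ : ∃ K : ℕ, K = ⌈(1 + e) * (D : ℝ)⌉₊ := ⟨_, rfl⟩
  obtain ⟨q, hq⟩ : ∃ q : ℕ, q = ⌈e * (D : ℝ)⌉₊ := ⟨_, rfl⟩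
  have hK1 : (1 + e) * (D : ℝ) ≤ K := by
    rw [hK]
    exact Nat.le_ceil _
  have hK2 : (K : ℝ) < (1 + e) * D + 1 := by
    rw [hK]
    exact Nat.ceil_lt_add_one (by positivity)
  have hq1 : e * (D : ℝ) ≤ q := by
    rw [hq]
    exact Nat.le_ceil _
  have hq2 : (q : ℝ) < e * D + 1 := by
    rw [hq]
    exact Nat.ceil_lt_add_one (by positivity)
  have hDK : (D : ℝ) ≤ K := by nlinarith
  have hDKn : D ≤ K := by exact_mod_cast hDK
  have hK2D : (K : ℝ) ≤ 2 * D := by nlinarith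
  have hK2Dn : K ≤ 2 * D := by exact_mod_cast hK2D
  have hρK : (D : ℝ) ≤ ρ * K := by
    rw [hρ]
    have : (D : ℝ) = 1 / (1 + e) * ((1 + e) * D) := by
      field_simp
    rw [this]
    exact mul_le_mul_of_nonneg_left hK1 (by positivity)
  obtain ⟨β, H, hβ⟩ := hbig K (le_trans hDK₀ hDKn)
  have hst0 : Inv (gS G K C.n₀) (st0 G K) K (C.Pq K β 0).a (C.Pq K β 0).Γ ρ (C.Pq K β 0).w
      (C.Pq K β 0).g := by
    have hΓ : Γ₀ ≤ (C.Pq K β 0).Γ := by
      show Γ₀ ≤ β ^ (1 + 0 * C.E₁)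
      simpa using H.Γ₀β
    exact hbase V _ _ G K D (C.Pq K β 0).Γ ρ (C.Pq K β 0).w (C.Pq K β 0).g H.K1 hdeg hρ0.le
      hρ1.le hρK (g_ge C 0) (base_w C) hΓ
  have hg0 : GInv G C.n₀ β (st0 G K) (C.Pq K β 0).Γ (C.Pq K β 0).D (C.Pq K β 0).f
      (C.Pq K β 0).j (C.Pq K β 0).M (C.Pq K β 0).ζ := by
    apply base_ginv G K D C.n₀ β
    · exact hdeg
    · show (D : ℝ) ≤ (1 - C.θ / 2) ^ 0 * K
      simpa using hDK
    · show (0 : ℝ) ≤ 4 * ((0 : ℕ) : ℝ) * (C.τ * K)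
      simp
    · show (0 : ℝ) ≤ (K : ℝ)
      exact Nat.cast_nonneg _
    · exact Mq_nonneg (K := K) C 0
    · show (0 : ℝ) ≤ 4 * ((0 : ℕ) : ℝ) * (C.θ / C.α) * C.σ
      simp
    · exact H.β1
  obtain ⟨st, hi, hg⟩ := rounds C H G D hdeg hDKn ⟨_, hst0, hg0⟩ C.T le_rfl
  have hd1 : (C.Pq K β C.T).D + (C.Pq K β C.T).f ≤ δ * D := by
    have := fin_D C H
    nlinarith
  have hd2 : (C.Pq K β C.T).j + (C.Pq K β C.T).M ≤ δ * D := by
    have := fin_j C H
    nlinarith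
  obtain ⟨t1, t2, t3, t4, t5, t6⟩ := to_finish G C.n₀ β st _ _ _ _ _ _ _ _ _ _ hi hg (δ * D) hd1 hd2
  have hβD : (D : ℝ) ^ (1 / (2 * (C.e₀ : ℝ))) ≤ β :=
    le_trans (Real.rpow_le_rpow (Nat.cast_nonneg _) hDK hη.le) hβ
  obtain ⟨c, hc1, hc2, hc3⟩ := hD1 V _ G D K q β hDD1 hK2Dn hq1 hβD hdeg (colF st.R) t1 t2 t3 t4 t5 t6
  refine ⟨K + q, ?_, c, hc1, hc2, hc3⟩
  push_cast
  nlinarith

end Pool.Agent.H77.AC
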