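import Pool.Agent.H77.AC.Z1Use

/-!
# AC-MED9: conditional bounds for new paths (E9, E10)

`mu9 r₀ M Γ = (r₀+1)² + 2 (r₀+1) (M + (2M+2)² Γ)`.

* `core9`: for a history (`Hist`, bound `M`), `p ≠ q` and a colour `c`:
  `∑_{b ≠ c} ∑_{n=1}^{r₀} (PS n b c + [n ≥ 2] PS n c b) ≤ mu9`. By `path_all` the sum is at most
  `2 K (θ/a) ∑_{n ≤ r₀} n ≤ (r₀+1)²` (`K θ ≤ a`) plus the number of triples (order, b, n) with `HJ`: the `b ∈ Col D₀`
  (at most `M`) give at most `2 r₀ M`; the others are at most `(2M+2)² Γ` colours (`z1use`), each with at most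
  `2 r₀` pairs (order, n).
* `z1_bdd` (statistic `pathS (Φ1 p q c)`): `cnd ≤ ∏_{x ∈ i.set} Wh x = ∏_i Wh (pstep ..)` (`cnd_path`, `pstep_inj`,
  `Finset.prod_image`); group the indices by `n`, `b`, order. History: `hist_path` with `M = s (r₀+1)`.
* `z2_bdd` (statistic `pathS (Φ2 l₀ p q)`): pairs of colours `(b, c)`, `b ≠ c`, lengths in `[l₀, r₀]`, `l₀ ≥ 2`. Pairs with
  `b, c ∉ Col D₀`: `path_free`, total at most `K² (θ/a) ∑_{n=l₀}^{r₀} n (1-δ)^(n-1)`. Pairs with `b` or `c` in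
  `Col D₀`: for every `c' ∈ Col D₀` (at most `M`) the pairs `(b, c')` and `(c', b)` are bounded by `core9`.
-/

set_option autoImplicit false

open Finset
open scoped Classical

namespace Pool.Agent.H77.AC

variable {V : Type} [Fintype V] [DecidableEq V] {K : ℕ}
variable {G : SimpleGraph V} {n₀ : ℕ} {st : St (PX V K) (Sym2 V)} {a B Γ m : ℕ}
  {ρ w g θ δ : ℝ}

noncomputable def mu9 (r₀ M Γ : ℕ) : ℝ := (r₀ + 1) ^ 2 + 2 * (r₀ + 1) * (M + (2 * M + 2) ^ 2 * Γ)

private theorem med9_gauss (r₀ : ℕ) : ∑ n ∈ Icc 1 r₀, (n : ℝ) = r₀ * (r₀ + 1) / 2 := by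
  induction r₀ with
  | zero => simp
  | succ k ih =>
    rw [Finset.sum_Icc_succ_top (by omega), ih]
    push_cast
    ring

private theorem med9_mu_nonneg (r₀ M Γ : ℕ) : 0 ≤ mu9 r₀ M Γ := by
  unfold mu9
  positivity

theorem core9 (h : Hyp (gS G K n₀) st K a B Γ m ρ w g θ δ) (hρ : ρ * θ ≤ 1 - δ) {M : ℕ}
    {D₀ C₀ : Finset (Fin 3 × PX V K)} (hH : Hist (gS G K n₀) st D₀ C₀ M) (r₀ : ℕ)
    (hz : ∀ p q c, p ≠ q → (Z1 st.R r₀ p q c).card ≤ Γ) (p q : V) (hpq : p ≠ q) (c : Fin K) :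
    ∑ b ∈ univ.filter (fun b : Fin K => b ≠ c), ∑ n ∈ Icc 1 r₀,
      (PS st D₀ C₀ (θ / a) δ n b c p q +
        if 2 ≤ n then PS st D₀ C₀ (θ / a) δ n c b p q else 0) ≤ mu9 r₀ M Γ := by
  have ha : (0 : ℝ) < a := by exact_mod_cast h.a0
  have hπ0 : 0 ≤ θ / a := div_nonneg h.θ0.le ha.le
  have hKπ : (K : ℝ) * (θ / a) ≤ 1 := by
    rw [← mul_div_assoc, div_le_one ha]
    exact h.Kθ
  obtain ⟨Bad, hBad⟩ : ∃ Bad : Finset (Fin K), Bad = Col D₀ ∪
      univ.filter (fun b : Fin K => b ≠ c ∧ b ∉ Col D₀ ∧ ∃ n, 1 ≤ n ∧ n ≤ r₀ ∧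
      (HJ st D₀ n b c p q ∨ (2 ≤ n ∧ HJ st D₀ n c b p q))) := ⟨_, rfl⟩
  have hBadc : (Bad.card : ℝ) ≤ M + (2 * M + 2) ^ 2 * Γ := by
    have h1 : Bad.card ≤ M + (2 * M + 2) ^ 2 * Γ := by
      rw [hBad]
      refine (card_union_le _ _).trans (Nat.add_le_add ?_ (z1use h hH r₀ hz p q hpq c))
      exact card_image_le.trans hH.card
    exact_mod_cast h1
  -- bound for one colour
  have hone : ∀ b ∈ univ.filter (fun b : Fin K => b ≠ c), ∑ n ∈ Icc 1 r₀,
      (PS st D₀ C₀ (θ / a) δ n b c p q +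
        if 2 ≤ n then PS st D₀ C₀ (θ / a) δ n c b p q else 0) ≤
      (θ / a) * (r₀ * (r₀ + 1)) + if b ∈ Bad then 2 * (r₀ : ℝ) else 0 := by
    intro b hb
    have hbc : b ≠ c := (mem_filter.1 hb).2
    have hterm : ∀ n ∈ Icc 1 r₀, (PS st D₀ C₀ (θ / a) δ n b c p q +
        if 2 ≤ n then PS st D₀ C₀ (θ / a) δ n c b p q else 0) ≤
        2 * (θ / a) * n + if b ∈ Bad then 2 else 0 := by
      intro n hn
      rw [mem_Icc] at hn
      have h1 := path_all h hρ hH n b c p q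
      have h2 := path_all h hρ hH n c b p q
      have hn0 : (0 : ℝ) ≤ n * (θ / a) := by positivity
      by_cases hB : b ∈ Bad
      · rw [if_pos hB]
        have h3 : (if HJ st D₀ n b c p q then (1 : ℝ) else 0) ≤ 1 := by
          split_ifs <;> norm_num
        have h4 : (if HJ st D₀ n c b p q then (1 : ℝ) else 0) ≤ 1 := by
          split_ifs <;> norm_num
        split_ifs with h5
        · linarith
        · linarith
      · rw [if_neg hB]
        rw [hBad, mem_union, not_or, mem_filter, not_and] at hB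
        have hB2 := hB.2 (mem_univ b)
        have h3 : ¬ HJ st D₀ n b c p q := fun h6 =>
          hB2 ⟨hbc, hB.1, n, hn.1, hn.2, Or.inl h6⟩
        rw [if_neg h3] at h1
        split_ifs with h5
        · have h4 : ¬ HJ st D₀ n c b p q := fun h6 =>
            hB2 ⟨hbc, hB.1, n, hn.1, hn.2, Or.inr ⟨h5, h6⟩⟩
          rw [if_neg h4] at h2
          linarith
        · linarith
    refine (sum_le_sum hterm).trans (le_of_eq ?_)
    rw [sum_add_distrib, ← mul_sum, med9_gauss, sum_const, Nat.card_Icc, Nat.add_sub_cancel,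
      nsmul_eq_mul]
    split_ifs <;> ring
  refine (sum_le_sum hone).trans ?_
  rw [sum_add_distrib, sum_const, nsmul_eq_mul]
  have h1 : (((univ.filter (fun b : Fin K => b ≠ c)).card : ℕ) : ℝ) ≤ K := by
    have h2 : (univ.filter (fun b : Fin K => b ≠ c)).card ≤ K := by
      refine (card_filter_le _ _).trans ?_
      rw [card_univ, Fintype.card_fin]
    exact_mod_cast h2
  have h2 : (((univ.filter (fun b : Fin K => b ≠ c)).card : ℕ) : ℝ) * ((θ / a) * (r₀ * (r₀ + 1))) ≤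
      (r₀ + 1) ^ 2 := by
    have h3 : (0 : ℝ) ≤ (θ / a) * (r₀ * (r₀ + 1)) := by positivity
    calc (((univ.filter (fun b : Fin K => b ≠ c)).card : ℕ) : ℝ) * ((θ / a) * (r₀ * (r₀ + 1)))
        ≤ K * ((θ / a) * (r₀ * (r₀ + 1))) := mul_le_mul_of_nonneg_right h1 h3
      _ = (K * (θ / a)) * (r₀ * (r₀ + 1)) := by ring
      _ ≤ 1 * (r₀ * (r₀ + 1)) := mul_le_mul_of_nonneg_right hKπ (by positivity)
      _ ≤ (r₀ + 1) ^ 2 := by
        have : (0 : ℝ) ≤ r₀ := Nat.cast_nonneg _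
        nlinarith
  have h3 : ∑ b ∈ univ.filter (fun b : Fin K => b ≠ c), (if b ∈ Bad then 2 * (r₀ : ℝ) else 0) ≤
      2 * (r₀ + 1) * (M + (2 * M + 2) ^ 2 * Γ) := by
    calc ∑ b ∈ univ.filter (fun b : Fin K => b ≠ c), (if b ∈ Bad then 2 * (r₀ : ℝ) else 0)
        ≤ ∑ b : Fin K, (if b ∈ Bad then 2 * (r₀ : ℝ) else 0) := by
          apply sum_le_sum_of_subset_of_nonneg (filter_subset _ _)
          intro i _ _
          split_ifs <;> positivity
      _ = Bad.card * (2 * (r₀ : ℝ)) := by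
          rw [← sum_filter, sum_const, nsmul_eq_mul]
          congr 2
          simp
      _ ≤ (M + (2 * M + 2) ^ 2 * Γ) * (2 * ((r₀ : ℝ) + 1)) := by
          apply mul_le_mul hBadc _ (by positivity) (by positivity)
          linarith
      _ = _ := by ring
  unfold mu9
  linarith

/-- the conditional expectation of a path statistic is at most a sum of `PS` -/
private theorem med9_sum (h : Hyp (gS G K n₀) st K a B Γ m ρ w g θ δ) (r₀ : ℕ) (p q : V)
    (D₀ C₀ : Finset (Fin 3 × PX V K)) (ψ : ℕ → Fin K → Fin K → Prop)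
    (Φ : PI V K r₀ → Prop)
    (hΦ : ∀ i : PI V K r₀, Φ i → i.2.2.2 0 = p ∧ i.2.2.2 (Fin.last i.1) = q ∧
      ψ i.1 i.2.1 i.2.2.1) :
    ∑ i, (pathS (gS G K n₀) st r₀ Φ).w i *
      cnd (pr (gS G K n₀) st a B θ δ) D₀ C₀ ((pathS (gS G K n₀) st r₀ Φ).D i)
        ((pathS (gS G K n₀) st r₀ Φ).C i) ≤
    ∑ n ∈ range (r₀ + 1), ∑ b : Fin K, ∑ c : Fin K,
      if ψ n b c then PS st D₀ C₀ (θ / a) δ n b c p q else 0 := by
  have h1 : ∑ i, (pathS (gS G K n₀) st r₀ Φ).w i *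
      cnd (pr (gS G K n₀) st a B θ δ) D₀ C₀ ((pathS (gS G K n₀) st r₀ Φ).D i)
        ((pathS (gS G K n₀) st r₀ Φ).C i) =
      ∑ i : PI V K r₀, (if Φ i ∧ Function.Injective i.2.2.2 ∧ i.set ⊆ st.R ∪ st.L ∧
        ¬ Disjoint i.set st.L then (1 : ℝ) else 0) *
      cnd (pr (gS G K n₀) st a B θ δ) D₀ C₀ (dV st i.set) (cV (gS G K n₀) st i.set) := rfl
  rw [h1, Fintype.sum_sigma, ← Fin.sum_univ_eq_sum_range (fun n => ∑ b : Fin K, ∑ c : Fin K,
      if ψ n b c then PS st D₀ C₀ (θ / a) δ n b c p q else 0) (r₀ + 1)]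
  apply sum_le_sum
  intro n _
  rw [Fintype.sum_prod_type]
  apply sum_le_sum
  intro b _
  rw [Fintype.sum_prod_type]
  apply sum_le_sum
  intro c _
  by_cases hψ : ψ n b c
  · rw [if_pos hψ]
    unfold PS PV
    rw [sum_filter]
    apply sum_le_sum
    intro v _
    have hprod0 : 0 ≤ ∏ i, Wh st D₀ C₀ (θ / a) δ (pstep v b c i) :=
      prod_nonneg (fun i _ => Wh_nonneg h D₀ C₀ _)
    split_ifs with h2 h3 h3
    · rw [one_mul]
      refine (cnd_path h D₀ C₀ _ h2.2.2.1).trans (le_of_eq ?_)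
      show ∏ x ∈ univ.image (pstep v b c), Wh st D₀ C₀ (θ / a) δ x = _
      rw [prod_image]
      intro i _ j _ hij
      exact pstep_inj v h2.2.1 b c (congrArg Prod.fst hij)
    · exfalso
      apply h3
      obtain ⟨h4, h5, h6, h7⟩ := h2
      obtain ⟨h8, h9, _⟩ := hΦ _ h4
      refine ⟨h5, h8, h9, ?_, ?_⟩
      · intro i
        exact h6 (mem_image_of_mem _ (mem_univ i))
      · rw [Finset.not_disjoint_iff] at h7
        obtain ⟨x, h10, h11⟩ := h7
        have h10' : x ∈ univ.image (pstep v b c) := h10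
        rw [mem_image] at h10'
        obtain ⟨i, _, rfl⟩ := h10'
        exact ⟨i, h11⟩
    · rw [zero_mul]
      exact hprod0
    · rw [zero_mul]
  · rw [if_neg hψ]
    apply sum_nonpos
    intro v _
    rw [if_neg, zero_mul]
    rintro ⟨h4, _⟩
    exact hψ (hΦ _ h4).2.2

theorem z1_bdd (h : Hyp (gS G K n₀) st K a B Γ m ρ w g θ δ) (hρ : ρ * θ ≤ 1 - δ) (r₀ s : ℕ)
    (hz : ∀ p q c, p ≠ q → (Z1 st.R r₀ p q c).card ≤ Γ) (p q : V) (hpq : p ≠ q) (c : Fin K) :
    (pathS (gS G K n₀) st r₀ (Φ1 r₀ p q c)).Bdd (pr (gS G K n₀) st a B θ δ) s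
      (mu9 r₀ (s * (r₀ + 1)) Γ) := by
  intro hh hc hw hd
  have hH := hist_path h r₀ s (Φ1 r₀ p q c) hh hc hw hd
  obtain ⟨D₀, hD₀⟩ : ∃ D₀, D₀ = hh.biUnion (pathS (gS G K n₀) st r₀ (Φ1 r₀ p q c)).D := ⟨_, rfl⟩
  obtain ⟨C₀, hC₀⟩ : ∃ C₀, C₀ = hh.biUnion (pathS (gS G K n₀) st r₀ (Φ1 r₀ p q c)).C := ⟨_, rfl⟩
  rw [← hD₀, ← hC₀] at hH ⊢
  obtain ⟨ψ, hψ⟩ : ∃ ψ : ℕ → Fin K → Fin K → Prop, ∀ n b c', ψ n b c' ↔
      (b ≠ c' ∧ ((1 ≤ n ∧ c' = c) ∨ (2 ≤ n ∧ b = c))) := ⟨_, fun _ _ _ => Iff.rfl⟩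
  refine (med9_sum h r₀ p q D₀ C₀ ψ (Φ1 r₀ p q c)
    (fun i hi => ⟨hi.1, hi.2.1, (hψ _ _ _).2 ⟨hi.2.2.1, hi.2.2.2⟩⟩)).trans ?_
  refine le_trans ?_ (core9 h hρ hH r₀ hz p q hpq c)
  rw [sum_comm (s := univ.filter (fun b : Fin K => b ≠ c))]
  have hsub : Icc 1 r₀ ⊆ range (r₀ + 1) := by
    intro n hn
    rw [mem_Icc] at hn
    rw [mem_range]
    omega
  rw [← sum_subset hsub]
  · apply sum_le_sum
    intro n hn
    rw [mem_Icc] at hn
    -- for fixed `n`
    have h1 : ∀ b c' : Fin K, (if ψ n b c' then PS st D₀ C₀ (θ / a) δ n b c' p q else 0) ≤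
        (if c' = c then (if b ≠ c then PS st D₀ C₀ (θ / a) δ n b c p q else 0) else 0) +
        (if b = c then (if c' ≠ c then (if 2 ≤ n then PS st D₀ C₀ (θ / a) δ n c c' p q else 0)
          else 0) else 0) := by
      intro b c'
      have h2 := PS_nonneg h D₀ C₀ n b c' p q
      have h3 := PS_nonneg h D₀ C₀ n b c p q
      have h4 := PS_nonneg h D₀ C₀ n c c' p q
      simp only [hψ]
      by_cases e1 : c' = c
      · subst e1
        by_cases e2 : b = c'
        · subst e2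
          simp
        · simp [e2, hn.1]
      · by_cases e2 : b = c
        · subst e2
          by_cases e3 : 2 ≤ n
          · simp [e1, e3, Ne.symm e1]
          · simp [e1, e3]
        · simp [e1, e2]
    calc ∑ b : Fin K, ∑ c' : Fin K, (if ψ n b c' then PS st D₀ C₀ (θ / a) δ n b c' p q else 0)
        ≤ ∑ b : Fin K, ∑ c' : Fin K,
        ((if c' = c then (if b ≠ c then PS st D₀ C₀ (θ / a) δ n b c p q else 0) else 0) +
        (if b = c then (if c' ≠ c then (if 2 ≤ n then PS st D₀ C₀ (θ / a) δ n c c' p q else 0)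
          else 0) else 0)) := sum_le_sum (fun b _ => sum_le_sum (fun c' _ => h1 b c'))
      _ = ∑ b ∈ univ.filter (fun b : Fin K => b ≠ c), (PS st D₀ C₀ (θ / a) δ n b c p q +
        if 2 ≤ n then PS st D₀ C₀ (θ / a) δ n c b p q else 0) := by
        simp only [sum_add_distrib]
        rw [sum_filter, sum_filter]
        congr 1
        · apply sum_congr rfl
          intro b _
          rw [sum_ite_eq' univ c, if_pos (mem_univ c)]
        · rw [sum_comm]
          apply sum_congr rfl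
          intro c' _
          rw [sum_ite_eq' univ c, if_pos (mem_univ c)]
  · intro n hn hn'
    rw [mem_range] at hn
    rw [mem_Icc, not_and] at hn'
    have hn0 : n = 0 := by
      by_contra h0
      exact hn' (by omega) (by omega)
    subst hn0
    apply sum_eq_zero
    intro b _
    apply sum_eq_zero
    intro c' _
    rw [if_neg]
    rw [hψ]
    rintro ⟨_, h1 | h1⟩
    · omega
    · omega

theorem z2_bdd (h : Hyp (gS G K n₀) st K a B Γ m ρ w g θ δ) (hρ : ρ * θ ≤ 1 - δ)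
    (r₀ l₀ s : ℕ) (hl : 2 ≤ l₀)
    (hz : ∀ p q c, p ≠ q → (Z1 st.R r₀ p q c).card ≤ Γ) (p q : V) (hpq : p ≠ q) :
    (pathS (gS G K n₀) st r₀ (Φ2 r₀ l₀ p q)).Bdd (pr (gS G K n₀) st a B θ δ) s
      (K ^ 2 * (θ / a) * (∑ n ∈ Icc l₀ r₀, (n : ℝ) * (1 - δ) ^ (n - 1)) +
        (s * (r₀ + 1) : ℕ) * mu9 r₀ (s * (r₀ + 1)) Γ) := by
  intro hh hc hw hd
  have ha : (0 : ℝ) < a := by exact_mod_cast h.a0
  have hπ0 : 0 ≤ θ / a := div_nonneg h.θ0.le ha.le
  have hH := hist_path h r₀ s (Φ2 r₀ l₀ p q) hh hc hw hd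
  obtain ⟨D₀, hD₀⟩ : ∃ D₀, D₀ = hh.biUnion (pathS (gS G K n₀) st r₀ (Φ2 r₀ l₀ p q)).D := ⟨_, rfl⟩
  obtain ⟨C₀, hC₀⟩ : ∃ C₀, C₀ = hh.biUnion (pathS (gS G K n₀) st r₀ (Φ2 r₀ l₀ p q)).C := ⟨_, rfl⟩
  rw [← hD₀, ← hC₀] at hH ⊢
  obtain ⟨ψ, hψ⟩ : ∃ ψ : ℕ → Fin K → Fin K → Prop, ∀ n b c', ψ n b c' ↔
      (b ≠ c' ∧ l₀ ≤ n) := ⟨_, fun _ _ _ => Iff.rfl⟩
  refine (med9_sum h r₀ p q D₀ C₀ ψ
    (Φ2 r₀ l₀ p q) (fun i hi => ⟨hi.1, hi.2.1, (hψ _ _ _).2 ⟨hi.2.2.1, hi.2.2.2⟩⟩)).trans ?_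
  have hsub : Icc l₀ r₀ ⊆ range (r₀ + 1) := by
    intro n hn
    rw [mem_Icc] at hn
    rw [mem_range]
    omega
  rw [← sum_subset hsub]
  swap
  · intro n hn hn'
    rw [mem_range] at hn
    rw [mem_Icc, not_and] at hn'
    apply sum_eq_zero
    intro b _
    apply sum_eq_zero
    intro c' _
    rw [if_neg]
    rw [hψ]
    rintro ⟨_, h1⟩
    exact hn' h1 (by omega)
  -- the pairs of colours off the history, and the others
  have hpt : ∀ n ∈ Icc l₀ r₀, ∀ b c' : Fin K, (if ψ n b c' then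
      PS st D₀ C₀ (θ / a) δ n b c' p q else 0) ≤
      (n : ℝ) * (θ / a) * (1 - δ) ^ (n - 1) +
      ((∑ x ∈ Col D₀, if c' = x ∧ b ≠ x then PS st D₀ C₀ (θ / a) δ n b x p q else 0) +
      ∑ x ∈ Col D₀, if b = x ∧ c' ≠ x then PS st D₀ C₀ (θ / a) δ n x c' p q else 0) := by
    intro n hn b c'
    have hs1 : 0 ≤ (n : ℝ) * (θ / a) * (1 - δ) ^ (n - 1) := by
      have := h.δ1
      have h5 : (0 : ℝ) ≤ 1 - δ := by linarith
      positivity
    have hs2 : 0 ≤ ∑ x ∈ Col D₀, if c' = x ∧ b ≠ x then PS st D₀ C₀ (θ / a) δ n b x p q else 0 := by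
      apply sum_nonneg
      intro x _
      split_ifs
      · exact PS_nonneg h D₀ C₀ n b x p q
      · exact le_rfl
    have hs3 : 0 ≤ ∑ x ∈ Col D₀, if b = x ∧ c' ≠ x then PS st D₀ C₀ (θ / a) δ n x c' p q else 0 := by
      apply sum_nonneg
      intro x _
      split_ifs
      · exact PS_nonneg h D₀ C₀ n x c' p q
      · exact le_rfl
    by_cases h1 : ψ n b c'
    · rw [if_pos h1]
      rw [hψ] at h1
      by_cases hc' : c' ∈ Col D₀
      · have h2 : PS st D₀ C₀ (θ / a) δ n b c' p q ≤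
            ∑ x ∈ Col D₀, if c' = x ∧ b ≠ x then PS st D₀ C₀ (θ / a) δ n b x p q else 0 := by
          refine le_trans (le_of_eq ?_) (single_le_sum (f := fun x => if c' = x ∧ b ≠ x then
            PS st D₀ C₀ (θ / a) δ n b x p q else 0) ?_ hc')
          · rw [if_pos ⟨rfl, h1.1⟩]
          · intro x _
            show 0 ≤ if c' = x ∧ b ≠ x then PS st D₀ C₀ (θ / a) δ n b x p q else 0
            split_ifs
            · exact PS_nonneg h D₀ C₀ n b x p q
            · exact le_rfl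
        linarith
      · by_cases hb : b ∈ Col D₀
        · have h2 : PS st D₀ C₀ (θ / a) δ n b c' p q ≤
              ∑ x ∈ Col D₀, if b = x ∧ c' ≠ x then PS st D₀ C₀ (θ / a) δ n x c' p q else 0 := by
            refine le_trans (le_of_eq ?_) (single_le_sum (f := fun x => if b = x ∧ c' ≠ x then
              PS st D₀ C₀ (θ / a) δ n x c' p q else 0) ?_ hb)
            · rw [if_pos ⟨rfl, h1.1.symm⟩]
            · intro x _
              show 0 ≤ if b = x ∧ c' ≠ x then PS st D₀ C₀ (θ / a) δ n x c' p q else 0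
              split_ifs
              · exact PS_nonneg h D₀ C₀ n x c' p q
              · exact le_rfl
          linarith
        · have h2 := path_free h hρ hH n b c' hb hc' p q
          linarith
    · rw [if_neg h1]
      linarith
  have hn1 : ∀ n ∈ Icc l₀ r₀, ∑ b : Fin K, ∑ c' : Fin K, (if ψ n b c' then
      PS st D₀ C₀ (θ / a) δ n b c' p q else 0) ≤
      (K : ℝ) ^ 2 * ((n : ℝ) * (θ / a) * (1 - δ) ^ (n - 1)) +
      ∑ x ∈ Col D₀, ∑ b ∈ univ.filter (fun b : Fin K => b ≠ x),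
        (PS st D₀ C₀ (θ / a) δ n b x p q +
          if 2 ≤ n then PS st D₀ C₀ (θ / a) δ n x b p q else 0) := by
    intro n hn
    have hn2 : 2 ≤ n := by
      rw [mem_Icc] at hn
      omega
    refine (sum_le_sum (fun b _ => sum_le_sum (fun c' _ => hpt n hn b c'))).trans (le_of_eq ?_)
    simp only [sum_add_distrib, sum_const, card_univ, Fintype.card_fin, nsmul_eq_mul, if_pos hn2]
    congr 1
    · ring
    congr 1
    · have e1 : ∀ b : Fin K, ∑ c' : Fin K, ∑ x ∈ Col D₀, (if c' = x ∧ b ≠ x then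
          PS st D₀ C₀ (θ / a) δ n b x p q else 0) =
          ∑ x ∈ Col D₀, if b ≠ x then PS st D₀ C₀ (θ / a) δ n b x p q else 0 := by
        intro b
        rw [sum_comm]
        apply sum_congr rfl
        intro x _
        simp only [ite_and]
        rw [sum_ite_eq' univ x, if_pos (mem_univ x)]
      rw [sum_congr rfl (fun b _ => e1 b), sum_comm]
      apply sum_congr rfl
      intro x _
      rw [sum_filter]
    · have e1 : ∀ b : Fin K, ∑ c' : Fin K, ∑ x ∈ Col D₀, (if b = x ∧ c' ≠ x then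
          PS st D₀ C₀ (θ / a) δ n x c' p q else 0) =
          ∑ x ∈ Col D₀, if b = x then (∑ c' ∈ univ.filter (fun c' : Fin K => c' ≠ x),
            PS st D₀ C₀ (θ / a) δ n x c' p q) else 0 := by
        intro b
        rw [sum_comm]
        apply sum_congr rfl
        intro x _
        rw [sum_filter]
        by_cases e2 : b = x
        · simp [e2]
        · simp [e2]
      rw [sum_congr rfl (fun b _ => e1 b), sum_comm]
      apply sum_congr rfl
      intro x _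
      rw [sum_ite_eq' univ x, if_pos (mem_univ x)]
  refine (sum_le_sum hn1).trans ?_
  rw [sum_add_distrib]
  apply add_le_add
  · rw [← mul_sum, mul_assoc]
    apply mul_le_mul_of_nonneg_left _ (by positivity)
    rw [mul_sum]
    apply sum_le_sum
    intro n _
    apply le_of_eq
    ring
  · rw [sum_comm]
    have h2 : ∀ x ∈ Col D₀, ∑ n ∈ Icc l₀ r₀, ∑ b ∈ univ.filter (fun b : Fin K => b ≠ x),
        (PS st D₀ C₀ (θ / a) δ n b x p q +
          if 2 ≤ n then PS st D₀ C₀ (θ / a) δ n x b p q else 0) ≤ mu9 r₀ (s * (r₀ + 1)) Γ := by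
      intro x _
      refine le_trans ?_ (core9 h hρ hH r₀ hz p q hpq x)
      rw [sum_comm]
      apply sum_le_sum
      intro b _
      apply sum_le_sum_of_subset_of_nonneg
      · intro n hn
        rw [mem_Icc] at hn ⊢
        omega
      · intro n _ _
        have h3 := PS_nonneg h D₀ C₀ n b x p q
        have h4 := PS_nonneg h D₀ C₀ n x b p q
        split_ifs <;> linarith
    refine (sum_le_sum h2).trans ?_
    rw [sum_const, nsmul_eq_mul]
    apply mul_le_mul_of_nonneg_right _ (med9_mu_nonneg _ _ _)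
    have h3 : (Col D₀).card ≤ s * (r₀ + 1) := card_image_le.trans hH.card
    exact_mod_cast h3

end Pool.Agent.H77.AC
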