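import Pool.Agent.H77.AC.Ovl
import Pool.Agent.H77.AC.Cyl

/-!
# AC-NEWINV: the deterministic part of a round (short invariants)

`ω` is an outcome for which all statistics of the short part are small, `Acc` a set of isolated picks
none of which completes a short set. New state: `R' = Rk ∪ Acc`, `U'` = active edges without a pick,
`L'` = for every `e ∈ U'` exactly `a'` of the surviving pairs on `e` (there are at least `a'`).

* number of survivors on `e ∈ U'`: a pair `x ∈ own e` which is not in `Surv` has coin `false` (counted in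
  `kB`), or some `y ∈ nbh x` is picked; as no pair on `e` is picked, `y ∈ conf x` (counted in `kA`); or some
  `H ∈ C`, `x ∈ H`, `H.erase x ⊆ R ∪ Pk`: `H.erase x ∩ L` is not empty (`noH`); if it is `{y}` then `y` is
  picked and `y ∈ conf x` (`kA` again); if it has at least two elements, all of them are picked (counted in `kC`).
  So `a - #Surv(e) ≤ kA.val + kB.val + kC.val ≤ a - a'`.
* `L_U`, `list`: construction (`x ∈ Surv` implies no pick on `ed x` because `own (ed x) ⊆ nbh x`). `R_U`: elements of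
  `Rk` lie off `U`, elements of `Acc` on picked edges. `R_ed`, `R_nd`: two elements of `Acc` by isolation, an
  element of `Rk` and one of `Acc` by `R_U`, `L_U`, `LR`. `LR`: `x ∈ L'`, `y ∈ Acc` with a common node would give
  `y ∈ conf x ⊆ nbh x` (`y ≠ x` since `x ∈ nbh x` is not picked). `noH`: third clause of `Surv`
  (`R' ⊆ R ∪ Pk`).
* `node`: if some pair at `ν` is picked, no survivor is at `ν` (`atN ν ⊆ nbh x` for `x ∈ atN ν`). Otherwise every
  element of `L'` at `ν` is an index of `nS ν` whose cylinder holds.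
* `weight`: for `x ∈ L'` and `H ∈ C`, `x ∈ H`, `H.erase x ⊆ R' ∪ L'`: let `T = H.erase x ∩ L`,
  `P = H.erase x ∩ Acc`; then `T \ P = H.erase x ∩ L'`, `P ≠ T` (otherwise `H.erase x ⊆ R'`, contradicting `noH` for
  the new state), `P` is disjoint from `nbh x`, and the cylinder of the index `(H, P)` of `wS` holds. The
  map `H ↦ (H, P)` is injective.
* `crude`: for `Q` counted in `cnt st' P A n` take `T = (Q \ A) ∩ Acc`; the index `(Q, T)` of `cS` has weight
  one and its cylinder holds.
-/

set_option autoImplicit false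
set_option linter.unusedVariables false
set_option linter.unusedSectionVars false

open Finset
open scoped Classical

namespace Pool.Agent.H77.AC

variable {X E N : Type} [DecidableEq X] [DecidableEq E] [DecidableEq N] [Fintype X]
variable {S : Sys X E N} {st : St X E} {K a B Γ m : ℕ} {ρ w g θ δ : ℝ}

/-- active edges without a pick -/
noncomputable def Unew (S : Sys X E N) (st : St X E) (ω : Fin 3 × X → Bool) : Finset E :=
  st.U.filter (fun e => ∀ x ∈ Pk st ω, S.ed x ≠ e)

theorem newInv_sum_le_val {I τ : Type} [Fintype I] [DecidableEq I] (Y : Stat I) (ω : I → Bool)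
    (T : Finset τ) (f : τ → Y.ι) (hinj : Set.InjOn f T) (c : τ → ℝ)
    (h : ∀ t ∈ T, c t ≤ Y.w (f t) ∧ Cyl (Y.D (f t)) (Y.C (f t)) ω) :
    ∑ t ∈ T, c t ≤ Y.val ω := by
  have h1 : ∑ t ∈ T, c t ≤ ∑ t ∈ T, (if Cyl (Y.D (f t)) (Y.C (f t)) ω then Y.w (f t) else 0) := by
    refine Finset.sum_le_sum ?_
    intro t ht
    rw [if_pos (h t ht).2]
    exact (h t ht).1
  refine h1.trans ?_
  have h2 : ∑ t ∈ T, (if Cyl (Y.D (f t)) (Y.C (f t)) ω then Y.w (f t) else 0) =
      ∑ i ∈ T.image f, (if Cyl (Y.D i) (Y.C i) ω then Y.w i else 0) := by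
    rw [Finset.sum_image]
    intro x hx y hy hxy
    exact hinj hx hy hxy
  rw [h2]
  unfold Stat.val
  refine Finset.sum_le_sum_of_subset_of_nonneg (Finset.subset_univ _) ?_
  intro i _ _
  split_ifs
  · exact Y.nn i
  · exact le_rfl

theorem newInv_card_le_val {I τ : Type} [Fintype I] [DecidableEq I] (Y : Stat I) (ω : I → Bool)
    (T : Finset τ) (f : τ → Y.ι) (hinj : Set.InjOn f T)
    (h : ∀ t ∈ T, 1 ≤ Y.w (f t) ∧ Cyl (Y.D (f t)) (Y.C (f t)) ω) :
    (T.card : ℝ) ≤ Y.val ω := by
  have := newInv_sum_le_val Y ω T f hinj (fun _ => 1) h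
  simpa using this

theorem newInv_nbh_sub (S : Sys X E N) (st : St X E) (x : X) : nbh S st x ⊆ st.L := by
  intro y hy
  unfold nbh own conf at hy
  rcases Finset.mem_union.1 hy with hy | hy
  · exact (Finset.mem_filter.1 hy).1
  · exact (Finset.mem_filter.1 hy).1

theorem newInv_self_nbh (S : Sys X E N) (st : St X E) (x : X) (hx : x ∈ st.L) :
    x ∈ nbh S st x := by
  unfold nbh own
  exact Finset.mem_union_left _ (Finset.mem_filter.2 ⟨hx, rfl⟩)

theorem newInv_Pk_L (st : St X E) (ω : Fin 3 × X → Bool) (x : X) (hx : x ∈ Pk st ω) :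
    x ∈ st.L := (Finset.mem_filter.1 hx).1

theorem newInv_not_Pk (S : Sys X E N) (st : St X E) (ω : Fin 3 × X → Bool) (x y : X)
    (hx : x ∈ Surv S st ω) (hy : y ∈ nbh S st x) : ω (pick y) = false := by
  have h1 := (Finset.mem_filter.1 hx).2.2.1
  have h2 : y ∉ Pk st ω := Finset.disjoint_left.1 h1 hy
  cases hω : ω (pick y)
  · rfl
  · exact absurd (Finset.mem_filter.2 ⟨newInv_nbh_sub S st x hy, hω⟩) h2

/-- number of survivors -/
theorem newInv_surv (h : Hyp S st K a B Γ m ρ w g θ δ) (ω : Fin 3 × X → Bool)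
    (a' : ℕ) (e : E) (he : e ∈ Unew S st ω)
    (hl : (kA S st e).val ω + (kB S st e).val ω + (kC S st e).val ω ≤ (a : ℝ) - a') :
    a' ≤ ((own S st e).filter (fun x => x ∈ Surv S st ω)).card := by
  have hRL : Disjoint st.R st.L := by
    rw [Finset.disjoint_left]
    intro x hxR hxL
    exact h.inv.R_U x hxR (h.inv.L_U x hxL)
  have heU : e ∈ st.U := (Finset.mem_filter.1 he).1
  have hnop : ∀ x ∈ Pk st ω, S.ed x ≠ e := (Finset.mem_filter.1 he).2
  have hcard : (own S st e).card = a := h.inv.list e heU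
  -- three classes
  set K1 : Finset X := (own S st e).filter (fun x => ∃ y ∈ conf S st x, ω (pick y) = true) with hK1
  set K2 : Finset X := (own S st e).filter (fun x => ω (coin x) = false) with hK2
  set K3 : Finset X := (own S st e).filter (fun x => ∃ H ∈ S.C, x ∈ H ∧ H.erase x ⊆ st.R ∪ st.L ∧
    2 ≤ (H.erase x ∩ st.L).card ∧ ∀ y ∈ H.erase x ∩ st.L, ω (pick y) = true) with hK3
  have hsub : (own S st e).filter (fun x => x ∉ Surv S st ω) ⊆ K1 ∪ K2 ∪ K3 := by
    intro x hx
    obtain ⟨hxo, hxs⟩ := Finset.mem_filter.1 hx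
    have hxL : x ∈ st.L := (Finset.mem_filter.1 hxo).1
    have hxe : S.ed x = e := (Finset.mem_filter.1 hxo).2
    by_cases hc : ω (coin x) = true
    · by_cases hd : Disjoint (nbh S st x) (Pk st ω)
      · have hex : ∃ H ∈ S.C, x ∈ H ∧ H.erase x ⊆ st.R ∪ Pk st ω := by
          by_contra hne
          exact hxs (Finset.mem_filter.2 ⟨hxL, hc, hd, hne⟩)
        obtain ⟨H, hH, hxH, hHs⟩ := hex
        have hall : ∀ y ∈ H.erase x ∩ st.L, ω (pick y) = true := by
          intro y hy
          obtain ⟨hy1, hy2⟩ := Finset.mem_inter.1 hy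
          rcases Finset.mem_union.1 (hHs hy1) with h1 | h1
          · exact absurd hy2 (Finset.disjoint_left.1 hRL h1)
          · exact (Finset.mem_filter.1 h1).2
        by_cases h2 : 2 ≤ (H.erase x ∩ st.L).card
        · refine Finset.mem_union_right _ (Finset.mem_filter.2 ⟨hxo, H, hH, hxH, ?_, h2, hall⟩)
          intro y hy
          rcases Finset.mem_union.1 (hHs hy) with h1 | h1
          · exact Finset.mem_union_left _ h1
          · exact Finset.mem_union_right _ (newInv_Pk_L st ω y h1)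
        · -- exactly one live element
          exfalso
          have hnoH := h.inv.noH H hH x hxH hxL
          rw [Finset.not_subset] at hnoH
          obtain ⟨y, hy, hyR⟩ := hnoH
          have hyPk : y ∈ Pk st ω := by
            rcases Finset.mem_union.1 (hHs hy) with h1 | h1
            · exact absurd h1 hyR
            · exact h1
          have hyL : y ∈ st.L := newInv_Pk_L st ω y hyPk
          have hyT : y ∈ H.erase x ∩ st.L := Finset.mem_inter.2 ⟨hy, hyL⟩
          have hone : ∀ z ∈ H.erase x ∩ st.L, z = y := by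
            intro z hz
            have hle : (H.erase x ∩ st.L).card ≤ 1 := by omega
            exact Finset.card_le_one.1 hle z hz y hyT
          have hyconf : y ∈ conf S st x := by
            unfold conf
            refine Finset.mem_filter.2 ⟨hyL, (Finset.mem_erase.1 hy).1, Or.inr
              ⟨H, hH, hxH, (Finset.mem_erase.1 hy).2, ?_⟩⟩
            intro z hz
            obtain ⟨hzH, hzn⟩ := Finset.mem_sdiff.1 hz
            have hzx : z ≠ x := fun h' => hzn (by rw [h']; exact Finset.mem_insert_self _ _)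
            have hzy : z ≠ y := fun h' => hzn (by rw [h']; simp)
            have hze : z ∈ H.erase x := Finset.mem_erase.2 ⟨hzx, hzH⟩
            rcases Finset.mem_union.1 (hHs hze) with h1 | h1
            · exact h1
            · exact absurd (hone z (Finset.mem_inter.2 ⟨hze, newInv_Pk_L st ω z h1⟩)) hzy
          have : y ∈ nbh S st x := Finset.mem_union_right _ hyconf
          exact Finset.disjoint_left.1 hd this hyPk
      · rw [Finset.not_disjoint_iff] at hd
        obtain ⟨y, hy, hyP⟩ := hd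
        refine Finset.mem_union_left _ (Finset.mem_union_left _ (Finset.mem_filter.2 ⟨hxo, y, ?_,
          (Finset.mem_filter.1 hyP).2⟩))
        rcases Finset.mem_union.1 hy with h1 | h1
        · exfalso
          have : S.ed y = S.ed x := (Finset.mem_filter.1 h1).2
          exact hnop y hyP (this.trans hxe)
        · exact h1
    · refine Finset.mem_union_left _ (Finset.mem_union_right _ (Finset.mem_filter.2 ⟨hxo, ?_⟩))
      cases hω : ω (coin x)
      · rfl
      · exact absurd hω hc
  have hc1 : (K1.card : ℝ) ≤ (kA S st e).val ω := by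
    have hch : ∀ x : X, ∃ y : X, x ∈ K1 → (y ∈ conf S st x ∧ ω (pick y) = true) := by
      intro x
      by_cases hx : x ∈ K1
      · obtain ⟨y, hy1, hy2⟩ := (Finset.mem_filter.1 hx).2
        exact ⟨y, fun _ => ⟨hy1, hy2⟩⟩
      · exact ⟨x, fun h' => absurd h' hx⟩
    choose F hF using hch
    refine newInv_card_le_val (kA S st e) ω K1 (fun x => (x, F x)) ?_ ?_
    · intro x _ y _ hxy
      exact congrArg Prod.fst hxy
    · intro x hx
      obtain ⟨h1, h2⟩ := hF x hx
      refine ⟨?_, ?_⟩
      · show (1 : ℝ) ≤ if x ∈ own S st e ∧ F x ∈ conf S st x then 1 else 0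
        rw [if_pos ⟨(Finset.mem_filter.1 hx).1, h1⟩]
      · show Cyl {pick (F x)} ∅ ω
        refine ⟨?_, by simp⟩
        intro i hi
        rw [Finset.mem_singleton.1 hi]
        exact h2
  have hc2 : (K2.card : ℝ) ≤ (kB S st e).val ω := by
    refine newInv_card_le_val (kB S st e) ω K2 (fun x => x) ?_ ?_
    · intro x _ y _ hxy
      exact hxy
    · intro x hx
      refine ⟨?_, ?_⟩
      · show (1 : ℝ) ≤ if x ∈ own S st e then 1 else 0
        rw [if_pos (Finset.mem_filter.1 hx).1]
      · show Cyl ∅ {coin x} ω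
        refine ⟨by simp, ?_⟩
        intro i hi
        rw [Finset.mem_singleton.1 hi]
        exact (Finset.mem_filter.1 hx).2
  have hc3 : (K3.card : ℝ) ≤ (kC S st e).val ω := by
    have hch : ∀ x : X, ∃ H : Finset X, x ∈ K3 → (H ∈ S.C ∧ x ∈ H ∧ H.erase x ⊆ st.R ∪ st.L ∧
        2 ≤ (H.erase x ∩ st.L).card ∧ ∀ y ∈ H.erase x ∩ st.L, ω (pick y) = true) := by
      intro x
      by_cases hx : x ∈ K3
      · obtain ⟨H, hH⟩ := (Finset.mem_filter.1 hx).2
        exact ⟨H, fun _ => hH⟩
      · exact ⟨∅, fun h' => absurd h' hx⟩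
    choose F hF using hch
    refine newInv_card_le_val (kC S st e) ω K3 (fun x => (x, F x)) ?_ ?_
    · intro x _ y _ hxy
      exact congrArg Prod.fst hxy
    · intro x hx
      obtain ⟨h1, h2, h3, h4, h5⟩ := hF x hx
      refine ⟨?_, ?_⟩
      · show (1 : ℝ) ≤ if x ∈ own S st e ∧ F x ∈ S.C ∧ x ∈ F x ∧ (F x).erase x ⊆ st.R ∪ st.L ∧
          2 ≤ ((F x).erase x ∩ st.L).card then 1 else 0
        rw [if_pos ⟨(Finset.mem_filter.1 hx).1, h1, h2, h3, h4⟩]
      · show Cyl (((F x).erase x ∩ st.L).image pick) ∅ ω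
        refine ⟨?_, by simp⟩
        intro i hi
        obtain ⟨y, hy, rfl⟩ := Finset.mem_image.1 hi
        exact h5 y hy
  have hc0 : (((own S st e).filter (fun x => x ∉ Surv S st ω)).card : ℝ) ≤ (a : ℝ) - a' := by
    have h1 := Finset.card_le_card hsub
    have h2 := Finset.card_union_le (K1 ∪ K2) K3
    have h3 := Finset.card_union_le K1 K2
    have h4 : ((own S st e).filter (fun x => x ∉ Surv S st ω)).card ≤
        K1.card + K2.card + K3.card := by omega
    have h5 : (((own S st e).filter (fun x => x ∉ Surv S st ω)).card : ℝ) ≤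
        (K1.card : ℝ) + K2.card + K3.card := by exact_mod_cast h4
    linarith
  have hsplit := Finset.card_filter_add_card_filter_not (s := own S st e)
    (fun x => x ∈ Surv S st ω)
  rw [hcard] at hsplit
  have h6 : (((own S st e).filter (fun x => x ∈ Surv S st ω)).card : ℝ) +
      (((own S st e).filter (fun x => x ∉ Surv S st ω)).card : ℝ) = a := by exact_mod_cast hsplit
  have h7 : (a' : ℝ) ≤ (((own S st e).filter (fun x => x ∈ Surv S st ω)).card : ℝ) := by linarith
  exact_mod_cast h7

theorem newInv (h : Hyp S st K a B Γ m ρ w g θ δ) (ω : Fin 3 × X → Bool) (Acc : Finset X)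
    (hAcc : Acc ⊆ Iso S st ω)
    (hAcc2 : ∀ x ∈ Acc, ¬ ∃ H ∈ S.C, x ∈ H ∧ H.erase x ⊆ st.R ∪ Pk st ω)
    (a' Γ' : ℕ) (w' g' : ℝ) (ha' : 0 < a') (haa : a' ≤ a) (hg' : 1 ≤ g')
    (hl : ∀ e ∈ st.U, (kA S st e).val ω + (kB S st e).val ω + (kC S st e).val ω ≤ (a : ℝ) - a')
    (hn : ∀ ν, (nS S st ν).val ω ≤ ρ * a')
    (hw : ∀ x ∈ st.L, (wS S st g' a' x).val ω ≤ w')
    (hc : ∀ (φ : Fm X E N) (A : Finset X) (n : ℕ),
      (cS st (φ.sets S) A n).val ω ≤ ((K ^ (n - 1) * Γ' : ℕ) : ℝ)) :
    ∃ L', L' ⊆ Surv S st ω ∧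
      Inv S ⟨Rk st ω ∪ Acc, L', Unew S st ω⟩ K a' Γ' ρ w' g' := by
  have hRL : Disjoint st.R st.L := by
    rw [Finset.disjoint_left]
    intro x hxR hxL
    exact h.inv.R_U x hxR (h.inv.L_U x hxL)
  have hch : ∀ e : E, ∃ F : Finset X, e ∈ Unew S st ω →
      (F ⊆ (own S st e).filter (fun x => x ∈ Surv S st ω) ∧ F.card = a') := by
    intro e
    by_cases he : e ∈ Unew S st ω
    · obtain ⟨F, hF1, hF2⟩ := Finset.exists_subset_card_eq
        (newInv_surv h ω a' e he (hl e (Finset.mem_filter.1 he).1))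
      exact ⟨F, fun _ => ⟨hF1, hF2⟩⟩
    · exact ⟨∅, fun h' => absurd h' he⟩
  choose F hF using hch
  -- basic inclusions
  have hAccPk : ∀ x ∈ Acc, x ∈ Pk st ω := fun x hx => (Finset.mem_filter.1 (hAcc hx)).1
  have hAccL : ∀ x ∈ Acc, x ∈ st.L := fun x hx => newInv_Pk_L st ω x (hAccPk x hx)
  have hSurvL : ∀ x ∈ Surv S st ω, x ∈ st.L := fun x hx => (Finset.mem_filter.1 hx).1
  have hSurvPk : ∀ x ∈ Surv S st ω, x ∉ Pk st ω := by
    intro x hx hxP
    have h1 := newInv_not_Pk S st ω x x hx (newInv_self_nbh S st x (hSurvL x hx))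
    have h2 := (Finset.mem_filter.1 hxP).2
    rw [h1] at h2
    exact Bool.noConfusion h2
  have hRkR : ∀ x ∈ Rk st ω, x ∈ st.R := fun x hx => (Finset.mem_filter.1 hx).1
  set L' : Finset X := (Surv S st ω).filter (fun x => S.ed x ∈ Unew S st ω ∧ x ∈ F (S.ed x))
    with hL'
  have hL'S : ∀ x ∈ L', x ∈ Surv S st ω := fun x hx => (Finset.mem_filter.1 hx).1
  have hL'L : ∀ x ∈ L', x ∈ st.L := fun x hx => hSurvL x (hL'S x hx)
  have hnoH : ∀ H ∈ S.C, ∀ x ∈ H, x ∈ L' → ¬ H.erase x ⊆ Rk st ω ∪ Acc := by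
    intro H hH x hxH hxL' hsub
    refine (Finset.mem_filter.1 (hL'S x hxL')).2.2.2 ⟨H, hH, hxH, hsub.trans ?_⟩
    intro y hy
    rcases Finset.mem_union.1 hy with h1 | h1
    · exact Finset.mem_union_left _ (hRkR y h1)
    · exact Finset.mem_union_right _ (hAccPk y h1)
  have hbig : ∀ y ∈ (Rk st ω ∪ Acc) ∪ L', y ∈ st.R ∪ st.L := by
    intro y hy
    rcases Finset.mem_union.1 hy with h1 | h1
    · rcases Finset.mem_union.1 h1 with h2 | h2
      · exact Finset.mem_union_left _ (hRkR y h2)
      · exact Finset.mem_union_right _ (hAccL y h2)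
    · exact Finset.mem_union_right _ (hL'L y h1)
  -- live old elements of the new state
  have hlive : ∀ y ∈ (Rk st ω ∪ Acc) ∪ L', y ∈ st.L → y ∉ Acc → y ∈ L' := by
    intro y hy hyL hyA
    rcases Finset.mem_union.1 hy with h1 | h1
    · rcases Finset.mem_union.1 h1 with h2 | h2
      · exact absurd hyL (Finset.disjoint_left.1 hRL (hRkR y h2))
      · exact absurd h2 hyA
    · exact h1
  have hL'Acc : ∀ y ∈ L', y ∉ Acc := fun y hy hyA => hSurvPk y (hL'S y hy) (hAccPk y hyA)
  refine ⟨L', fun x hx => hL'S x hx, ?_⟩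
  refine ⟨?_, ?_, ?_, ?_, ?_, hnoH, ?_, ?_, ?_, ?_⟩
  · -- L_U
    intro x hx
    exact (Finset.mem_filter.1 hx).2.1
  · -- R_U
    intro x hx hxU
    rcases Finset.mem_union.1 hx with h1 | h1
    · exact h.inv.R_U x (hRkR x h1) (Finset.mem_filter.1 hxU).1
    · exact (Finset.mem_filter.1 hxU).2 x (hAccPk x h1) rfl
  · -- R_ed
    intro x hx y hy hxy
    rcases Finset.mem_union.1 hx with h1 | h1
    · rcases Finset.mem_union.1 hy with h2 | h2
      · exact h.inv.R_ed x (hRkR x h1) y (hRkR y h2) hxy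
      · intro hed
        exact h.inv.R_U x (hRkR x h1) (hed ▸ h.inv.L_U y (hAccL y h2))
    · rcases Finset.mem_union.1 hy with h2 | h2
      · intro hed
        exact h.inv.R_U y (hRkR y h2) (hed ▸ h.inv.L_U x (hAccL x h1))
      · intro hed
        have hiso := (Finset.mem_filter.1 (hAcc h1)).2
        refine Finset.disjoint_left.1 hiso ?_ (hAccPk y h2)
        unfold isoN
        exact Finset.mem_filter.2 ⟨hAccL y h2, hxy.symm, Or.inl hed.symm⟩
  · -- R_nd
    intro x hx y hy hxy
    rcases Finset.mem_union.1 hx with h1 | h1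
    · rcases Finset.mem_union.1 hy with h2 | h2
      · exact h.inv.R_nd x (hRkR x h1) y (hRkR y h2) hxy
      · exact (h.inv.LR y (hAccL y h2) x (hRkR x h1)).symm
    · rcases Finset.mem_union.1 hy with h2 | h2
      · exact h.inv.LR x (hAccL x h1) y (hRkR y h2)
      · by_contra hnd
        have hiso := (Finset.mem_filter.1 (hAcc h1)).2
        refine Finset.disjoint_left.1 hiso ?_ (hAccPk y h2)
        unfold isoN
        exact Finset.mem_filter.2 ⟨hAccL y h2, hxy.symm, Or.inr hnd⟩
  · -- LR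
    intro x hx y hy
    rcases Finset.mem_union.1 hy with h1 | h1
    · exact h.inv.LR x (hL'L x hx) y (hRkR y h1)
    · by_contra hnd
      have hyx : y ≠ x := by
        intro h'
        rw [h'] at h1
        exact hL'Acc x hx h1
      have hyc : y ∈ nbh S st x := by
        refine Finset.mem_union_right _ ?_
        unfold conf
        exact Finset.mem_filter.2 ⟨hAccL y h1, hyx, Or.inl hnd⟩
      have h2 := newInv_not_Pk S st ω x y (hL'S x hx) hyc
      have h3 := (Finset.mem_filter.1 (hAccPk y h1)).2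
      rw [h2] at h3
      exact Bool.noConfusion h3
  · -- list
    intro e he
    have hFe := hF e he
    have heq : own S (⟨Rk st ω ∪ Acc, L', Unew S st ω⟩ : St X E) e = F e := by
      unfold own
      ext x
      simp only [Finset.mem_filter]
      constructor
      · rintro ⟨h1, h2⟩
        have := (Finset.mem_filter.1 h1).2.2
        rwa [h2] at this
      · intro hx
        have h1 := Finset.mem_filter.1 (hFe.1 hx)
        have h2 : S.ed x = e := (Finset.mem_filter.1 h1.1).2
        refine ⟨Finset.mem_filter.2 ⟨h1.2, ?_, ?_⟩, h2⟩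
        · rw [h2]
          exact he
        · rw [h2]
          exact hx
    rw [heq]
    exact hFe.2
  · -- node
    intro ν
    refine le_trans ?_ (hn ν)
    refine newInv_card_le_val (nS S st ν) ω _ (fun x => x) (fun x _ y _ hxy => hxy) ?_
    intro y hy
    have hy' := Finset.mem_filter.1 hy
    have hyS : y ∈ Surv S st ω := hL'S y hy'.1
    refine ⟨?_, ?_⟩
    · show (1 : ℝ) ≤ if y ∈ atN S st ν then 1 else 0
      rw [if_pos]
      unfold atN
      exact Finset.mem_filter.2 ⟨hSurvL y hyS, hy'.2⟩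
    · show Cyl {coin y} ((nbh S st y \ atN S st ν).image pick) ω
      refine ⟨?_, ?_⟩
      · intro i hi
        rw [Finset.mem_singleton.1 hi]
        exact (Finset.mem_filter.1 hyS).2.1
      · intro i hi
        obtain ⟨z, hz, rfl⟩ := Finset.mem_image.1 hi
        exact newInv_not_Pk S st ω y z hyS (Finset.mem_sdiff.1 hz).1
  · -- weight
    intro x hx
    refine le_trans ?_ (hw x (hL'L x hx))
    unfold wgt
    refine newInv_sum_le_val (wS S st g' a' x) ω _ (fun H => (H, H.erase x ∩ Acc)) ?_ _ ?_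
    · intro H _ H' _ hHH
      exact congrArg Prod.fst hHH
    intro H hH
    obtain ⟨hHC, hxH, hHs⟩ := Finset.mem_filter.1 hH
    have hTP : (H.erase x ∩ st.L) \ (H.erase x ∩ Acc) = H.erase x ∩ L' := by
      ext y
      simp only [Finset.mem_sdiff, Finset.mem_inter]
      constructor
      · rintro ⟨⟨h1, h2⟩, h3⟩
        refine ⟨h1, hlive y (hHs h1) h2 (fun h' => h3 ⟨h1, h'⟩)⟩
      · rintro ⟨h1, h2⟩
        exact ⟨⟨h1, hL'L y h2⟩, fun h' => hL'Acc y h2 h'.2⟩
    refine ⟨?_, ?_⟩
    · show g' ^ (H.card - 1) / (a' : ℝ) ^ (H.erase x ∩ L').card ≤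
        if H ∈ S.C ∧ x ∈ H ∧ H.erase x ⊆ st.R ∪ st.L ∧
          H.erase x ∩ Acc ⊆ H.erase x ∩ st.L ∧
          H.erase x ∩ Acc ≠ H.erase x ∩ st.L ∧ Disjoint (H.erase x ∩ Acc) (nbh S st x) then
          |g'| ^ (H.card - 1) / (a' : ℝ) ^ ((H.erase x ∩ st.L) \ (H.erase x ∩ Acc)).card else 0
      rw [if_pos, hTP, abs_of_nonneg (by linarith)]
      refine ⟨hHC, hxH, fun y hy => hbig y (hHs hy), ?_, ?_, ?_⟩
      · intro y hy
        obtain ⟨h1, h2⟩ := Finset.mem_inter.1 hy
        exact Finset.mem_inter.2 ⟨h1, hAccL y h2⟩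
      · intro heq
        refine hnoH H hHC x hxH hx ?_
        intro y hy
        rcases Finset.mem_union.1 (hHs hy) with h1 | h1
        · exact h1
        · have : y ∈ H.erase x ∩ Acc := by
            rw [heq]
            exact Finset.mem_inter.2 ⟨hy, hL'L y h1⟩
          exact Finset.mem_union_right _ (Finset.mem_inter.1 this).2
      · rw [Finset.disjoint_left]
        intro y hy hyn
        have h1 := newInv_not_Pk S st ω x y (hL'S x hx) hyn
        have h2 := (Finset.mem_filter.1 (hAccPk y (Finset.mem_inter.1 hy).2)).2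
        rw [h1] at h2
        exact Bool.noConfusion h2
    · show Cyl ((H.erase x ∩ Acc).image pick ∪
          ((H.erase x ∩ st.L) \ (H.erase x ∩ Acc)).image coin)
        ((((H.erase x ∩ st.L) \ (H.erase x ∩ Acc)).biUnion (nbh S st) \ nbh S st x).image pick) ω
      rw [hTP]
      refine ⟨?_, ?_⟩
      · intro i hi
        rcases Finset.mem_union.1 hi with hi | hi
        · obtain ⟨y, hy, rfl⟩ := Finset.mem_image.1 hi
          exact (Finset.mem_filter.1 (hAccPk y (Finset.mem_inter.1 hy).2)).2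
        · obtain ⟨y, hy, rfl⟩ := Finset.mem_image.1 hi
          exact (Finset.mem_filter.1 (hL'S y (Finset.mem_inter.1 hy).2)).2.1
      · intro i hi
        obtain ⟨z, hz, rfl⟩ := Finset.mem_image.1 hi
        obtain ⟨y, hy, hzy⟩ := Finset.mem_biUnion.1 (Finset.mem_sdiff.1 hz).1
        exact newInv_not_Pk S st ω y z (hL'S y (Finset.mem_inter.1 hy).2) hzy
  · -- crude
    intro φ A n
    have hreal : ((cnt (⟨Rk st ω ∪ Acc, L', Unew S st ω⟩ : St X E) (φ.sets S) A n : ℕ) : ℝ) ≤
        (cS st (φ.sets S) A n).val ω := by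
      unfold cnt
      refine newInv_card_le_val (cS st (φ.sets S) A n) ω _ (fun Q => (Q, (Q \ A) ∩ Acc)) ?_ ?_
      · intro Q _ Q' _ hQQ
        exact congrArg Prod.fst hQQ
      intro Q hQ
      obtain ⟨hQP, hAQ, hQs, hQc⟩ := Finset.mem_filter.1 hQ
      have hunion : (Q \ A) ∩ st.L = ((Q \ A) ∩ L') ∪ ((Q \ A) ∩ Acc) := by
        ext y
        simp only [Finset.mem_union, Finset.mem_inter]
        constructor
        · rintro ⟨h1, h2⟩
          by_cases hA : y ∈ Acc
          · exact Or.inr ⟨h1, hA⟩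
          · exact Or.inl ⟨h1, hlive y (hQs h1) h2 hA⟩
        · rintro (⟨h1, h2⟩ | ⟨h1, h2⟩)
          · exact ⟨h1, hL'L y h2⟩
          · exact ⟨h1, hAccL y h2⟩
      have hdisj : Disjoint ((Q \ A) ∩ L') ((Q \ A) ∩ Acc) := by
        rw [Finset.disjoint_left]
        intro y h1 h2
        exact hL'Acc y (Finset.mem_inter.1 h1).2 (Finset.mem_inter.1 h2).2
      have hcard : ((Q \ A) ∩ st.L).card = n + ((Q \ A) ∩ Acc).card := by
        rw [hunion, Finset.card_union_of_disjoint hdisj]
        exact congrArg (· + ((Q \ A) ∩ Acc).card) hQc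
      refine ⟨?_, ?_⟩
      · show (1 : ℝ) ≤ if Q ∈ φ.sets S ∧ A ⊆ Q ∧ Q \ A ⊆ st.R ∪ st.L ∧
          (Q \ A) ∩ Acc ⊆ (Q \ A) ∩ st.L ∧
          ((Q \ A) ∩ st.L).card = n + ((Q \ A) ∩ Acc).card then 1 else 0
        rw [if_pos]
        refine ⟨hQP, hAQ, fun y hy => hbig y (hQs hy), ?_, hcard⟩
        intro y hy
        obtain ⟨h1, h2⟩ := Finset.mem_inter.1 hy
        exact Finset.mem_inter.2 ⟨h1, hAccL y h2⟩
      · show Cyl (((Q \ A) ∩ Acc).image pick) ∅ ω
        refine ⟨?_, by simp⟩
        intro i hi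
        obtain ⟨y, hy, rfl⟩ := Finset.mem_image.1 hi
        exact (Finset.mem_filter.1 (hAccPk y (Finset.mem_inter.1 hy).2)).2
    exact_mod_cast hreal.trans (hc φ A n)

end Pool.Agent.H77.AC
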