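import Pool.Agent.H77.AC.Easy1
import Pool.Agent.H77.AC.NewInv

/-!
# AC-NEWFAIL: deterministic part of a round: failed edges, active degree

`Blk ω` = edges of `U` which are picked but got no accepted pair.

* `blocked_card`: for a set `Es` of edges the number of blocked edges in `Es` is at most
  `iS.val + bS.val + mS.val`. A blocked edge `e` has some `x ∈ Pk`, `x.1 = e`, `x ∉ Acc`. If `x ∉ Iso`: some `y ∈ isoN x` is
  picked, index `(x, y)` of `iS`. If `x ∈ Iso` and the first rule fails: `H ∈ C`, `x ∈ H`, `H.erase x ⊆ R ∪ Pk`; then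
  `H.erase x ⊆ R ∪ L` and the live elements of `H.erase x` are picked (`R`, `L` disjoint): index `(x, H)` of `bS`. If `Med`:
  index of `mS`: the path; its steps in `R` are kept (elements of `Iso` are live, not in `R`), its live steps are in `Iso`, `x ∈ Iso`.
  The edge `e` is determined by the index.
* `new_fdeg`: a failed edge at `v` in the new state is failed in the old one, or was coloured by some `y ∈ R`, `y ∉ Rk` (index
  of `dD`), or is a blocked edge of `stU st v`.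
* `new_deg`: an edge of `Unew` at `v` is an index of `sD` whose cylinder holds.
-/

set_option autoImplicit false

open Finset
open scoped Classical

namespace Pool.Agent.H77.AC

variable {V : Type} [Fintype V] [DecidableEq V] {K : ℕ}
variable {G : SimpleGraph V} {n₀ : ℕ} {st : St (PX V K) (Sym2 V)} {a B Γ m : ℕ}
  {ρ w g θ δ : ℝ}

/-- blocked edges -/
noncomputable def Blk (G : SimpleGraph V) (n₀ r₀ : ℕ) (st : St (PX V K) (Sym2 V))
    (ω : Fin 3 × PX V K → Bool) : Finset (Sym2 V) :=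
  st.U.filter (fun e => e ∉ Unew (gS G K n₀) st ω ∧ ∀ x ∈ Acc G n₀ r₀ st ω, x.1 ≠ e)

theorem newfail_val {α : Type} [DecidableEq α] {I : Type} [Fintype I] [DecidableEq I]
    (X : Stat I) (ω : I → Bool) (T : Finset α) (F : X.ι → α)
    (h : ∀ a ∈ T, ∃ i, F i = a ∧ X.w i = 1 ∧ Cyl (X.D i) (X.C i) ω) :
    (T.card : ℝ) ≤ X.val ω := by
  have hsub : T ⊆ (univ.filter (fun i => X.w i = 1 ∧ Cyl (X.D i) (X.C i) ω)).image F := by
    intro a ha
    obtain ⟨i, h1, h2, h3⟩ := h a ha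
    exact mem_image.2 ⟨i, mem_filter.2 ⟨mem_univ _, h2, h3⟩, h1⟩
  have hc : T.card ≤ (univ.filter (fun i => X.w i = 1 ∧ Cyl (X.D i) (X.C i) ω)).card :=
    (card_le_card hsub).trans card_image_le
  have hc' : (T.card : ℝ) ≤
      ((univ.filter (fun i => X.w i = 1 ∧ Cyl (X.D i) (X.C i) ω)).card : ℝ) := by
    exact_mod_cast hc
  refine hc'.trans ?_
  rw [card_eq_sum_ones, Nat.cast_sum, Nat.cast_one]
  calc ∑ i ∈ univ.filter (fun i => X.w i = 1 ∧ Cyl (X.D i) (X.C i) ω), (1 : ℝ)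
      = ∑ i ∈ univ.filter (fun i => X.w i = 1 ∧ Cyl (X.D i) (X.C i) ω),
          (if Cyl (X.D i) (X.C i) ω then X.w i else 0) := by
        refine sum_congr rfl fun i hi => ?_
        rw [mem_filter] at hi
        rw [if_pos hi.2.2, hi.2.1]
    _ ≤ ∑ i, (if Cyl (X.D i) (X.C i) ω then X.w i else 0) := by
        refine sum_le_sum_of_subset_of_nonneg (filter_subset _ _) fun i _ _ => ?_
        split_ifs
        · exact X.nn i
        · exact le_rfl
    _ = X.val ω := rfl

theorem newfail_Iso (S : Sys (PX V K) (Sym2 V) (V × Fin K)) (ω : Fin 3 × PX V K → Bool)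
    {x : PX V K} (hx : x ∈ Iso S st ω) :
    x ∈ st.L ∧ ω (pick x) = true ∧ Disjoint (isoN S st x) (Pk st ω) := by
  unfold Iso at hx
  rw [mem_filter] at hx
  have h1 := hx.1
  unfold Pk at h1
  rw [mem_filter] at h1
  exact ⟨h1.1, h1.2, hx.2⟩

theorem newfail_cyl (h : Hyp (gS G K n₀) st K a B Γ m ρ w g θ δ)
    (ω : Fin 3 × PX V K → Bool) (T : Finset (PX V K))
    (hT : ∀ x ∈ T, x ∈ Rk st ω ∪ Iso (gS G K n₀) st ω) :
    Cyl (dV st T) (cV (gS G K n₀) st T) ω := by
  have hRL := RL_disj h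
  have hRk : ∀ x ∈ Rk st ω, x ∈ st.R ∧ ω (keep x) = true := by
    intro x hx
    unfold Rk at hx
    exact mem_filter.1 hx
  have hlive : ∀ x ∈ T, x ∈ st.L → x ∈ Iso (gS G K n₀) st ω := by
    intro x hx hL
    rcases mem_union.1 (hT x hx) with h1 | h1
    · exact absurd hL (Finset.disjoint_left.1 hRL (hRk x h1).1)
    · exact h1
  constructor
  · intro i hi
    unfold dV at hi
    rw [mem_union, mem_image, mem_image] at hi
    rcases hi with ⟨x, hx, rfl⟩ | ⟨x, hx, rfl⟩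
    · rw [mem_inter] at hx
      rcases mem_union.1 (hT x hx.1) with h1 | h1
      · exact (hRk x h1).2
      · exact absurd (newfail_Iso _ ω h1).1 (Finset.disjoint_left.1 hRL hx.2)
    · rw [mem_inter] at hx
      exact (newfail_Iso _ ω (hlive x hx.1 hx.2)).2.1
  · intro i hi
    unfold cV at hi
    rw [mem_image] at hi
    obtain ⟨y, hy, rfl⟩ := hi
    rw [mem_biUnion] at hy
    obtain ⟨x, hx, hy⟩ := hy
    rw [mem_inter] at hx
    have h1 := (newfail_Iso _ ω (hlive x hx.1 hx.2)).2.2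
    have h2 := Finset.disjoint_left.1 h1 hy
    have h3 : y ∈ st.L := by
      unfold isoN at hy
      exact (mem_filter.1 hy).1
    cases hω : ω (pick y)
    · rfl
    · exfalso
      apply h2
      unfold Pk
      rw [mem_filter]
      exact ⟨h3, hω⟩

/-- an edge of `Es` with a picked, not isolated pair -/
def NfA (S : Sys (PX V K) (Sym2 V) (V × Fin K)) (st : St (PX V K) (Sym2 V))
    (ω : Fin 3 × PX V K → Bool) (e : Sym2 V) : Prop :=
  ∃ x ∈ Pk st ω, x.1 = e ∧ ∃ y ∈ isoN S st x, y ∈ Pk st ω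

/-- an edge of `Es` with a picked pair completing a short set -/
def NfB (S : Sys (PX V K) (Sym2 V) (V × Fin K)) (st : St (PX V K) (Sym2 V))
    (ω : Fin 3 × PX V K → Bool) (e : Sym2 V) : Prop :=
  ∃ x ∈ Pk st ω, x.1 = e ∧ ∃ H ∈ S.C, x ∈ H ∧ H.erase x ⊆ st.R ∪ Pk st ω

/-- an edge of `Es` with an isolated pick closing a medium path -/
def NfC (S : Sys (PX V K) (Sym2 V) (V × Fin K)) (l₀ r₀ : ℕ) (st : St (PX V K) (Sym2 V))
    (ω : Fin 3 × PX V K → Bool) (e : Sym2 V) : Prop :=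
  ∃ x ∈ Iso S st ω, x.1 = e ∧ Med S l₀ r₀ st ω x

theorem newfail_A (ω : Fin 3 × PX V K → Bool) (Es T : Finset (Sym2 V)) (hT : T ⊆ Es)
    (hA : ∀ e ∈ T, NfA (gS G K n₀) st ω e) : (T.card : ℝ) ≤ (iS (gS G K n₀) st Es).val ω := by
  refine newfail_val (iS (gS G K n₀) st Es) ω T (fun i : PX V K × PX V K => i.1.1) ?_
  intro e he
  obtain ⟨x, hx, hxe, y, hy, hyP⟩ := hA e he
  unfold Pk at hx hyP
  rw [mem_filter] at hx hyP
  refine ⟨(x, y), hxe, ?_, ?_, ?_⟩
  · show (if x ∈ st.L ∧ x.1 ∈ Es ∧ y ∈ isoN (gS G K n₀) st x then (1 : ℝ) else 0) = 1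
    rw [if_pos]
    refine ⟨hx.1, ?_, hy⟩
    rw [hxe]
    exact hT he
  · intro i hi
    have hi' : i ∈ ({pick x, pick y} : Finset (Fin 3 × PX V K)) := hi
    rw [mem_insert, mem_singleton] at hi'
    rcases hi' with rfl | rfl
    · exact hx.2
    · exact hyP.2
  · intro i hi
    exact absurd hi (Finset.notMem_empty i)

theorem newfail_B (h : Hyp (gS G K n₀) st K a B Γ m ρ w g θ δ) (ω : Fin 3 × PX V K → Bool)
    (Es T : Finset (Sym2 V)) (hT : T ⊆ Es)
    (hB : ∀ e ∈ T, NfB (gS G K n₀) st ω e) : (T.card : ℝ) ≤ (bS (gS G K n₀) st Es).val ω := by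
  have hRL := RL_disj h
  refine newfail_val (bS (gS G K n₀) st Es) ω T
    (fun i : PX V K × Finset (PX V K) => i.1.1) ?_
  intro e he
  obtain ⟨x, hx, hxe, H, hH, hxH, hsub⟩ := hB e he
  have hPk : ∀ y ∈ Pk st ω, y ∈ st.L ∧ ω (pick y) = true := by
    intro y hy
    unfold Pk at hy
    exact mem_filter.1 hy
  refine ⟨(x, H), hxe, ?_, ?_, ?_⟩
  · show (if x ∈ st.L ∧ x.1 ∈ Es ∧ H ∈ (gS G K n₀).C ∧ x ∈ H ∧
      H.erase x ⊆ st.R ∪ st.L then (1 : ℝ) else 0) = 1
    rw [if_pos]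
    refine ⟨(hPk x hx).1, ?_, hH, hxH, ?_⟩
    · rw [hxe]
      exact hT he
    · intro y hy
      rw [mem_union]
      rcases mem_union.1 (hsub hy) with h1 | h1
      · exact Or.inl h1
      · exact Or.inr (hPk y h1).1
  · intro i hi
    have hi' : i ∈ (insert x (H.erase x ∩ st.L)).image pick := hi
    rw [mem_image] at hi'
    obtain ⟨y, hy, rfl⟩ := hi'
    rw [mem_insert] at hy
    rcases hy with rfl | hy
    · exact (hPk _ hx).2
    · rw [mem_inter] at hy
      rcases mem_union.1 (hsub hy.1) with h1 | h1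
      · exact absurd hy.2 (Finset.disjoint_left.1 hRL h1)
      · exact (hPk y h1).2
  · intro i hi
    exact absurd hi (Finset.notMem_empty i)

theorem newfail_C (h : Hyp (gS G K n₀) st K a B Γ m ρ w g θ δ) (l₀ r₀ : ℕ)
    (ω : Fin 3 × PX V K → Bool) (Es T : Finset (Sym2 V)) (hT : T ⊆ Es)
    (hC : ∀ e ∈ T, NfC (gS G K n₀) l₀ r₀ st ω e) :
    (T.card : ℝ) ≤ (mS (gS G K n₀) st l₀ r₀ Es).val ω := by
  refine newfail_val (mS (gS G K n₀) st l₀ r₀ Es) ω T
    (fun i : PI V K r₀ => s(i.2.2.2 0, i.2.2.2 (Fin.last i.1))) ?_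
  intro e he
  obtain ⟨x, hx, hxe, n, b, v, hn1, hn2, hb, hv, hvx, hst⟩ := hC e he
  have hx' : ((s(v 0, v (Fin.last n)), x.2) : PX V K) = x := Prod.ext hvx rfl
  have hset : ∀ y ∈ insert x (PI.set (⟨⟨n, by omega⟩, b, x.2, v⟩ : PI V K r₀)),
      y ∈ Rk st ω ∪ Iso (gS G K n₀) st ω := by
    intro y hy
    rw [mem_insert] at hy
    rcases hy with rfl | hy
    · exact mem_union_right _ hx
    · unfold PI.set at hy
      rw [mem_image] at hy
      obtain ⟨i, -, rfl⟩ := hy
      exact hst i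
  have hcyl := newfail_cyl h ω _ hset
  refine ⟨⟨⟨n, by omega⟩, b, x.2, v⟩, ?_, ?_, ?_⟩
  · show s(v 0, v (Fin.last n)) = e
    rw [hvx, hxe]
  · show (if l₀ ≤ n ∧ Function.Injective v ∧ b ≠ x.2 ∧
      PI.set (⟨⟨n, by omega⟩, b, x.2, v⟩ : PI V K r₀) ⊆ st.R ∪ st.L ∧
      (s(v 0, v (Fin.last n)), x.2) ∈ st.L ∧ s(v 0, v (Fin.last n)) ∈ Es then (1 : ℝ) else 0) = 1
    rw [if_pos]
    refine ⟨hn1, hv, hb, ?_, ?_, ?_⟩
    · intro y hy
      rw [mem_union]
      rcases mem_union.1 (hset y (mem_insert_of_mem hy)) with h1 | h1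
      · left
        unfold Rk at h1
        exact (mem_filter.1 h1).1
      · exact Or.inr (newfail_Iso _ ω h1).1
    · rw [hx']
      exact (newfail_Iso _ ω hx).1
    · rw [hvx, hxe]
      exact hT he
  · show Cyl (dV st (insert (s(v 0, v (Fin.last n)), x.2)
      (PI.set (⟨⟨n, by omega⟩, b, x.2, v⟩ : PI V K r₀))))
      (cV (gS G K n₀) st (insert (s(v 0, v (Fin.last n)), x.2)
        (PI.set (⟨⟨n, by omega⟩, b, x.2, v⟩ : PI V K r₀)))) ω
    rw [hx']
    exact hcyl

theorem newfail_cases (r₀ : ℕ) (ω : Fin 3 × PX V K → Bool) (e : Sym2 V)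
    (he : e ∈ Blk G n₀ r₀ st ω) : NfA (gS G K n₀) st ω e ∨ NfB (gS G K n₀) st ω e ∨
      NfC (gS G K n₀) (2 * n₀ + 3) r₀ st ω e := by
  unfold Blk at he
  rw [mem_filter] at he
  obtain ⟨heU, hnew, hacc⟩ := he
  have h1 : ∃ x ∈ Pk st ω, x.1 = e := by
    by_contra hcon
    push Not at hcon
    apply hnew
    unfold Unew
    rw [mem_filter]
    exact ⟨heU, hcon⟩
  obtain ⟨x, hx, hxe⟩ := h1
  have hxA : x ∉ Acc G n₀ r₀ st ω := fun hc => hacc x hc hxe
  by_cases hI : x ∈ Iso (gS G K n₀) st ω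
  · by_cases hB : ∃ H ∈ (gS G K n₀).C, x ∈ H ∧ H.erase x ⊆ st.R ∪ Pk st ω
    · exact Or.inr (Or.inl ⟨x, hx, hxe, hB⟩)
    · by_cases hM : Med (gS G K n₀) (2 * n₀ + 3) r₀ st ω x
      · exact Or.inr (Or.inr ⟨x, hI, hxe, hM⟩)
      · exfalso
        apply hxA
        unfold Acc
        rw [mem_filter]
        exact ⟨hI, hB, hM⟩
  · left
    refine ⟨x, hx, hxe, ?_⟩
    by_contra hcon
    apply hI
    unfold Iso
    rw [mem_filter]
    refine ⟨hx, ?_⟩
    rw [Finset.disjoint_left]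
    intro y hy hyP
    exact hcon ⟨y, hy, hyP⟩

theorem blocked_card (h : Hyp (gS G K n₀) st K a B Γ m ρ w g θ δ) (r₀ : ℕ)
    (ω : Fin 3 × PX V K → Bool) (Es : Finset (Sym2 V)) :
    (((Blk G n₀ r₀ st ω) ∩ Es).card : ℝ) ≤ (iS (gS G K n₀) st Es).val ω +
      (bS (gS G K n₀) st Es).val ω + (mS (gS G K n₀) st (2 * n₀ + 3) r₀ Es).val ω := by
  set T := (Blk G n₀ r₀ st ω) ∩ Es with hT
  have hTE : T ⊆ Es := inter_subset_right
  have hsub : T ⊆ T.filter (fun e => NfA (gS G K n₀) st ω e) ∪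
      (T.filter (fun e => NfB (gS G K n₀) st ω e) ∪
        T.filter (fun e => NfC (gS G K n₀) (2 * n₀ + 3) r₀ st ω e)) := by
    intro e he
    rw [mem_union, mem_union, mem_filter, mem_filter, mem_filter]
    rcases newfail_cases r₀ ω e (mem_inter.1 he).1 with h1 | h1 | h1
    · exact Or.inl ⟨he, h1⟩
    · exact Or.inr (Or.inl ⟨he, h1⟩)
    · exact Or.inr (Or.inr ⟨he, h1⟩)
  have h1 := newfail_A (G := G) (n₀ := n₀) (st := st) ω Es
    (T.filter (fun e => NfA (gS G K n₀) st ω e)) ((filter_subset _ _).trans hTE)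
    (fun e he => (mem_filter.1 he).2)
  have h2 := newfail_B h ω Es
    (T.filter (fun e => NfB (gS G K n₀) st ω e)) ((filter_subset _ _).trans hTE)
    (fun e he => (mem_filter.1 he).2)
  have h3 := newfail_C h (2 * n₀ + 3) r₀ ω Es
    (T.filter (fun e => NfC (gS G K n₀) (2 * n₀ + 3) r₀ st ω e)) ((filter_subset _ _).trans hTE)
    (fun e he => (mem_filter.1 he).2)
  have h4 : T.card ≤ (T.filter (fun e => NfA (gS G K n₀) st ω e)).card +
      ((T.filter (fun e => NfB (gS G K n₀) st ω e)).card +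
        (T.filter (fun e => NfC (gS G K n₀) (2 * n₀ + 3) r₀ st ω e)).card) :=
    (card_le_card hsub).trans ((card_union_le _ _).trans
      (Nat.add_le_add_left (card_union_le _ _) _))
  have h5 : (T.card : ℝ) ≤ (T.filter (fun e => NfA (gS G K n₀) st ω e)).card +
      ((T.filter (fun e => NfB (gS G K n₀) st ω e)).card +
        (T.filter (fun e => NfC (gS G K n₀) (2 * n₀ + 3) r₀ st ω e)).card) := by
    exact_mod_cast h4
  linarith

theorem new_fdeg (h : Hyp (gS G K n₀) st K a B Γ m ρ w g θ δ) (r₀ : ℕ)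
    (ω : Fin 3 × PX V K → Bool) (L' : Finset (PX V K)) (v : V) :
    ((fstar G ⟨Rk st ω ∪ Acc G n₀ r₀ st ω, L', Unew (gS G K n₀) st ω⟩ v).card : ℝ) ≤
      (fstar G st v).card + (dD st v).val ω + (iS (gS G K n₀) st (stU st v)).val ω +
      (bS (gS G K n₀) st (stU st v)).val ω +
      (mS (gS G K n₀) st (2 * n₀ + 3) r₀ (stU st v)).val ω := by
  set T2 : Finset (Sym2 V) := univ.filter (fun e => ∃ y ∈ st.R, v ∈ y.1 ∧ ω (keep y) = false ∧
    y.1 = e) with hT2
  have hsub : fstar G ⟨Rk st ω ∪ Acc G n₀ r₀ st ω, L', Unew (gS G K n₀) st ω⟩ v ⊆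
      fstar G st v ∪ (T2 ∪ (Blk G n₀ r₀ st ω ∩ stU st v)) := by
    intro e he
    unfold fstar at he
    rw [mem_filter] at he
    obtain ⟨-, hve, heG, hnew, hR⟩ := he
    have hnew' : e ∉ Unew (gS G K n₀) st ω := hnew
    have hR' : ∀ x ∈ Rk st ω ∪ Acc G n₀ r₀ st ω, x.1 ≠ e := hR
    rw [mem_union, mem_union]
    by_cases heU : e ∈ st.U
    · right
      right
      rw [mem_inter]
      constructor
      · unfold Blk
        rw [mem_filter]
        exact ⟨heU, hnew', fun x hx => hR' x (mem_union_right _ hx)⟩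
      · unfold stU
        rw [mem_filter]
        exact ⟨heU, hve⟩
    · by_cases hall : ∀ x ∈ st.R, x.1 ≠ e
      · left
        unfold fstar
        rw [mem_filter]
        exact ⟨mem_univ _, hve, heG, heU, hall⟩
      · right
        left
        push Not at hall
        obtain ⟨y, hy, hye⟩ := hall
        rw [hT2, mem_filter]
        refine ⟨mem_univ _, y, hy, ?_, ?_, hye⟩
        · rw [hye]
          exact hve
        · cases hω : ω (keep y)
          · rfl
          · exfalso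
            refine hR' y (mem_union_left _ ?_) hye
            unfold Rk
            rw [mem_filter]
            exact ⟨hy, hω⟩
  have h2 : (T2.card : ℝ) ≤ (dD st v).val ω := by
    refine newfail_val (dD st v) ω T2 (fun x : PX V K => x.1) ?_
    intro e he
    rw [hT2, mem_filter] at he
    obtain ⟨-, y, hy, hvy, hω, hye⟩ := he
    refine ⟨y, hye, ?_, ?_, ?_⟩
    · have hact : y ∈ st.R ∧ v ∈ y.1 := ⟨hy, hvy⟩
      exact if_pos hact
    · intro i hi
      exact absurd hi (Finset.notMem_empty i)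
    · intro i hi
      have hi' : i ∈ ({keep y} : Finset (Fin 3 × PX V K)) := hi
      rw [mem_singleton] at hi'
      rw [hi']
      exact hω
  have h3 := blocked_card h r₀ ω (stU st v)
  have h4 : (fstar G ⟨Rk st ω ∪ Acc G n₀ r₀ st ω, L', Unew (gS G K n₀) st ω⟩ v).card ≤
      (fstar G st v).card + (T2.card + (Blk G n₀ r₀ st ω ∩ stU st v).card) :=
    (card_le_card hsub).trans ((card_union_le _ _).trans
      (Nat.add_le_add_left (card_union_le _ _) _))
  have h5 : ((fstar G ⟨Rk st ω ∪ Acc G n₀ r₀ st ω, L', Unew (gS G K n₀) st ω⟩ v).card : ℝ) ≤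
      (fstar G st v).card + (T2.card + (Blk G n₀ r₀ st ω ∩ stU st v).card) := by
    exact_mod_cast h4
  linarith

theorem new_deg (h : Hyp (gS G K n₀) st K a B Γ m ρ w g θ δ) (r₀ : ℕ)
    (ω : Fin 3 × PX V K → Bool) (L' : Finset (PX V K)) (v : V) :
    ((stU (⟨Rk st ω ∪ Acc G n₀ r₀ st ω, L', Unew (gS G K n₀) st ω⟩ : St _ _) v).card : ℝ) ≤
      (sD (gS G K n₀) st v).val ω := by
  refine newfail_val (sD (gS G K n₀) st v) ω _ (fun e : Sym2 V => e) ?_
  intro e he
  unfold stU at he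
  rw [mem_filter] at he
  have heU : e ∈ Unew (gS G K n₀) st ω := he.1
  unfold Unew at heU
  rw [mem_filter] at heU
  refine ⟨e, rfl, ?_, ?_, ?_⟩
  · have hact : e ∈ stU st v := by
      unfold stU
      rw [mem_filter]
      exact ⟨heU.1, he.2⟩
    exact if_pos hact
  · intro i hi
    exact absurd hi (Finset.notMem_empty i)
  · intro i hi
    have hi' : i ∈ (own (gS G K n₀) st e).image pick := hi
    rw [mem_image] at hi'
    obtain ⟨x, hx, rfl⟩ := hi'
    unfold own at hx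
    rw [mem_filter] at hx
    cases hω : ω (pick x)
    · rfl
    · exfalso
      refine heU.2 x ?_ hx.2
      unfold Pk
      rw [mem_filter]
      exact ⟨hx.1, hω⟩

end Pool.Agent.H77.AC
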