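import Pool.Agent.H77.AC.NewFail

/-!
# AC-NEWJ: deterministic part of a round: colours `c` with `u^c v^c` active or failed

`R' = Rk ∪ Acc`, proper (`R_nd` of the new state: hypothesis `hR'`). Let `c` have `Has R' u c`, `Has R' v c`,
`u' = par R' u c`, `v' = par R' v c`, `f = s(u', v')`. Each of the pairs `(s(u,u'),c)`, `(s(v,v'),c)` is in `Rk ⊆ R` (old; then
`par R u c = u'` by `par_eq`) or in `Acc` (new, a pick).

`new_jj` (`f ∈ Unew`): old/old: `c ∈ tset R active u v` and no pair on `f` is picked: index `c` of `sJ`. `u` old,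
`v` new: index `(v', c)` of `nJ active u v`. `u` new, `v` old: index `(u', c)` of `nJ active v u` (`s(v', u') = f`).
Both new: if `s(v,v') ≠ s(u,u')` index `(c, v', u')` of `nB u v`; if equal then (`u ≠ v`) `v' = u`, `u' = v`, so `f = s(u,v)` is picked, not
in `Unew`.

`new_mm` (`f` failed in the new state): old/old: `f ∈ U`: then `f` is blocked and in `jE st u v`, at most two colours per
edge (`tset_fib`): at most `2 |Blk ∩ jE| ≤ 2 (iS + bS + mS)(jE)`; `f ∉ U` and `f` coloured by `y ∈ R`: `y ∉ R'` so `y` is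
deleted, index `(c, y)` of `dJ`; otherwise `f` is failed in the old state. `u` old, `v` new (`x = (s(v,v'),c) ∈ Pk`): `f ∈ U`: some
`y ∈ Pk` on `f`: index `((v',c),y)` of `nP u v`; `f` coloured in `R`, deleted: index of `nD u v`; `f` failed in the old state: index of
`nJ (FE G st) u v`. Symmetric case: the same with `v u`. Both new: `nB`, or `f = s(u,v)` is coloured in `R'`, not failed.
-/

set_option autoImplicit false

open Finset
open scoped Classical

namespace Pool.Agent.H77.AC

variable {V : Type} [Fintype V] [DecidableEq V] {K : ℕ}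
variable {G : SimpleGraph V} {n₀ : ℕ} {st : St (PX V K) (Sym2 V)} {a B Γ m : ℕ}
  {ρ w g θ δ : ℝ}

/-- all finite sets of elements with property `P` have at most `x` elements -/
def NjBd {α : Type} (P : α → Prop) (x : ℝ) : Prop :=
  ∀ T : Finset α, (∀ a ∈ T, P a) → (T.card : ℝ) ≤ x

theorem newj_or {α : Type} {P Q : α → Prop} {x y : ℝ} (hP : NjBd P x) (hQ : NjBd Q y) :
    NjBd (fun a => P a ∨ Q a) (x + y) := by
  intro T hT
  have hsub : T ⊆ T.filter P ∪ T.filter Q := by
    intro a ha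
    rw [mem_union, mem_filter, mem_filter]
    rcases hT a ha with h1 | h1
    · exact Or.inl ⟨ha, h1⟩
    · exact Or.inr ⟨ha, h1⟩
  have h1 : T.card ≤ (T.filter P).card + (T.filter Q).card :=
    (card_le_card hsub).trans (card_union_le _ _)
  have h2 : (T.card : ℝ) ≤ (T.filter P).card + (T.filter Q).card := by exact_mod_cast h1
  have h3 := hP (T.filter P) (fun a ha => (mem_filter.1 ha).2)
  have h4 := hQ (T.filter Q) (fun a ha => (mem_filter.1 ha).2)
  linarith

/-- `a` is the value of an index of weight `1` whose cylinder holds -/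
def NjHit {α I : Type} (X : Stat I) (F : X.ι → α) (ω : I → Bool) (a : α) : Prop :=
  ∃ i, F i = a ∧ X.w i = 1 ∧ Cyl (X.D i) (X.C i) ω

theorem newj_hit {α I : Type} [DecidableEq α] [Fintype I] [DecidableEq I] (X : Stat I)
    (F : X.ι → α) (ω : I → Bool) : NjBd (NjHit X F ω) (X.val ω) := by
  intro T hT
  exact newfail_val X ω T F hT

theorem newj_mem {α : Type} (S : Finset α) : NjBd (fun a => a ∈ S) S.card := by
  intro T hT
  exact_mod_cast card_le_card hT

theorem newj_old (h : Hyp (gS G K n₀) st K a B Γ m ρ w g θ δ) (ω : Fin 3 × PX V K → Bool)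
    {u u' : V} {c : Fin K} (hx : (s(u, u'), c) ∈ Rk st ω) :
    Has st.R u c ∧ par st.R u c = u' := by
  unfold Rk at hx
  rw [mem_filter] at hx
  exact ⟨⟨u', hx.1⟩, par_eq st.R h.inv.R_nd u u' c hx.1⟩

theorem newj_new (r₀ : ℕ) (ω : Fin 3 × PX V K → Bool) {x : PX V K}
    (hx : x ∈ Acc G n₀ r₀ st ω) : x ∈ st.L ∧ ω (pick x) = true := by
  unfold Acc at hx
  rw [mem_filter] at hx
  have h1 := newfail_Iso _ ω hx.1
  exact ⟨h1.1, h1.2.1⟩

/-- colour of an index of `nJ` -/
def njF1 (i : V × Fin K) : Fin K := i.2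

/-- colour of an index of `nP`, `nD` -/
def njF2 (i : (V × Fin K) × PX V K) : Fin K := i.1.2

theorem newj_nJ (r₀ : ℕ) (ω : Fin 3 × PX V K → Bool) (T : Sym2 V → Prop) {u v u' v' : V}
    {c : Fin K} (hu : Has st.R u c ∧ par st.R u c = u') (hv : (s(v, v'), c) ∈ Acc G n₀ r₀ st ω)
    (hT : T s(u', v')) : NjHit (nJ st T u v) njF1 ω c := by
  have hx := newj_new r₀ ω hv
  have hact : ((s(v, v'), c) : PX V K) ∈ st.L ∧ Has st.R u c ∧ T s(par st.R u c, v') := by
    refine ⟨hx.1, hu.1, ?_⟩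
    rw [hu.2]
    exact hT
  refine ⟨(v', c), rfl, ?_, ?_, ?_⟩
  · exact if_pos hact
  · intro i hi
    have hi' : i ∈ ({pick (s(v, v'), c)} : Finset (Fin 3 × PX V K)) := hi
    rw [mem_singleton] at hi'
    rw [hi']
    exact hx.2
  · intro i hi
    exact absurd hi (Finset.notMem_empty i)

theorem newj_nB (r₀ : ℕ) (ω : Fin 3 × PX V K → Bool) {u v u' v' : V}
    {c : Fin K} (hu : (s(u, u'), c) ∈ Acc G n₀ r₀ st ω) (hv : (s(v, v'), c) ∈ Acc G n₀ r₀ st ω)
    (hne : s(v, v') ≠ s(u, u')) :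
    NjHit (nB st u v) (fun i : Fin K × V × V => i.1) ω c := by
  have hx := newj_new r₀ ω hu
  have hy := newj_new r₀ ω hv
  have hact : ((s(v, v'), c) : PX V K) ∈ st.L ∧ ((s(u, u'), c) : PX V K) ∈ st.L ∧
      s(v, v') ≠ s(u, u') := ⟨hy.1, hx.1, hne⟩
  refine ⟨(c, v', u'), rfl, ?_, ?_, ?_⟩
  · exact if_pos hact
  · intro i hi
    have hi' : i ∈ ({pick (s(v, v'), c), pick (s(u, u'), c)} : Finset (Fin 3 × PX V K)) := hi
    rw [mem_insert, mem_singleton] at hi'
    rcases hi' with rfl | rfl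
    · exact hy.2
    · exact hx.2
  · intro i hi
    exact absurd hi (Finset.notMem_empty i)

theorem newj_both {u v u' v' : V} (huv : u ≠ v) (h : s(v, v') = s(u, u')) :
    s(u', v') = s(u, u') := by
  rw [Sym2.eq_iff] at h
  rcases h with ⟨h1, _⟩ | ⟨h1, h2⟩
  · exact absurd h1.symm huv
  · rw [h2, Sym2.eq_swap]

theorem new_jj (h : Hyp (gS G K n₀) st K a B Γ m ρ w g θ δ) (r₀ : ℕ)
    (ω : Fin 3 × PX V K → Bool)
    (hR' : ∀ x ∈ Rk st ω ∪ Acc G n₀ r₀ st ω, ∀ y ∈ Rk st ω ∪ Acc G n₀ r₀ st ω, x ≠ y →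
      Disjoint (ndG x) (ndG y)) (u v : V) (huv : u ≠ v) :
    ((tset (Rk st ω ∪ Acc G n₀ r₀ st ω) (fun e => e ∈ Unew (gS G K n₀) st ω) u v).card : ℝ) ≤
      (sJ (gS G K n₀) st u v).val ω + (nJ st (fun e => e ∈ st.U) u v).val ω +
      (nJ st (fun e => e ∈ st.U) v u).val ω + (nB st u v).val ω := by
  refine newj_or (newj_or (newj_or
    (newj_hit (sJ (gS G K n₀) st u v) (fun c : Fin K => c) ω)
    (newj_hit (nJ st (fun e => e ∈ st.U) u v) njF1 ω))
    (newj_hit (nJ st (fun e => e ∈ st.U) v u) njF1 ω))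
    (newj_hit (nB st u v) (fun i : Fin K × V × V => i.1) ω) _ ?_
  intro c hc
  rw [easy1_mem_tset] at hc
  obtain ⟨hu, hv, hf⟩ := hc
  have hxu := par_spec _ u c hu
  have hxv := par_spec _ v c hv
  set u' := par (Rk st ω ∪ Acc G n₀ r₀ st ω) u c with hu'
  set v' := par (Rk st ω ∪ Acc G n₀ r₀ st ω) v c with hv'
  unfold Unew at hf
  rw [mem_filter] at hf
  obtain ⟨hfU, hfP⟩ := hf
  rcases mem_union.1 hxu with hxu | hxu <;> rcases mem_union.1 hxv with hxv | hxv
  · left
    left
    left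
    have h1 := newj_old h ω hxu
    have h2 := newj_old h ω hxv
    have hact : c ∈ tset st.R (fun e => e ∈ st.U) u v := by
      rw [easy1_mem_tset, h1.2, h2.2]
      exact ⟨h1.1, h2.1, hfU⟩
    refine ⟨c, rfl, ?_, ?_, ?_⟩
    · exact if_pos hact
    · intro i hi
      exact absurd hi (Finset.notMem_empty i)
    · intro i hi
      have hi' : i ∈ (own (gS G K n₀) st s(par st.R u c, par st.R v c)).image pick := hi
      rw [h1.2, h2.2, mem_image] at hi'
      obtain ⟨x, hx, rfl⟩ := hi'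
      unfold own at hx
      rw [mem_filter] at hx
      cases hω : ω (pick x)
      · rfl
      · exfalso
        refine hfP x ?_ hx.2
        unfold Pk
        rw [mem_filter]
        exact ⟨hx.1, hω⟩
  · left
    left
    right
    exact newj_nJ r₀ ω (fun e => e ∈ st.U) (newj_old h ω hxu) hxv hfU
  · left
    right
    refine newj_nJ r₀ ω (fun e => e ∈ st.U) (newj_old h ω hxv) hxu ?_
    rw [Sym2.eq_swap]
    exact hfU
  · by_cases hne : s(v, v') = s(u, u')
    · exfalso
      have h1 := newj_both huv hne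
      have h2 := newj_new r₀ ω hxu
      refine hfP (s(u, u'), c) ?_ h1.symm
      unfold Pk
      rw [mem_filter]
      exact h2
    · right
      exact newj_nB r₀ ω hxu hxv hne

/-- first end old, second end new, the edge failed -/
theorem newj_on (h : Hyp (gS G K n₀) st K a B Γ m ρ w g θ δ) (r₀ : ℕ)
    (ω : Fin 3 × PX V K → Bool) (L' : Finset (PX V K)) {u v u' v' : V} {c : Fin K}
    (hu : (s(u, u'), c) ∈ Rk st ω) (hv : (s(v, v'), c) ∈ Acc G n₀ r₀ st ω)
    (hf : FE G ⟨Rk st ω ∪ Acc G n₀ r₀ st ω, L', Unew (gS G K n₀) st ω⟩ s(u', v')) :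
    (NjHit (nP st u v) njF2 ω c ∨ NjHit (nD st u v) njF2 ω c) ∨
      NjHit (nJ st (FE G st) u v) njF1 ω c := by
  have hold := newj_old h ω hu
  have hnew := newj_new r₀ ω hv
  obtain ⟨hG, hfU, hfR⟩ := hf
  have hfU' : s(u', v') ∉ Unew (gS G K n₀) st ω := hfU
  have hfR' : ∀ x ∈ Rk st ω ∪ Acc G n₀ r₀ st ω, x.1 ≠ s(u', v') := hfR
  by_cases hU : s(u', v') ∈ st.U
  · left
    left
    have h1 : ∃ y ∈ Pk st ω, y.1 = s(u', v') := by
      by_contra hcon
      push Not at hcon
      apply hfU'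
      unfold Unew
      rw [mem_filter]
      exact ⟨hU, hcon⟩
    obtain ⟨y, hy, hye⟩ := h1
    unfold Pk at hy
    rw [mem_filter] at hy
    have hact : ((s(v, v'), c) : PX V K) ∈ st.L ∧ Has st.R u c ∧ y ∈ st.L ∧
        y.1 = s(par st.R u c, v') := by
      refine ⟨hnew.1, hold.1, hy.1, ?_⟩
      rw [hold.2]
      exact hye
    refine ⟨((v', c), y), rfl, ?_, ?_, ?_⟩
    · exact if_pos hact
    · intro i hi
      have hi' : i ∈ ({pick (s(v, v'), c), pick y} : Finset (Fin 3 × PX V K)) := hi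
      rw [mem_insert, mem_singleton] at hi'
      rcases hi' with rfl | rfl
      · exact hnew.2
      · exact hy.2
    · intro i hi
      exact absurd hi (Finset.notMem_empty i)
  · by_cases hall : ∀ x ∈ st.R, x.1 ≠ s(u', v')
    · right
      exact newj_nJ r₀ ω (FE G st) hold hv ⟨hG, hU, hall⟩
    · left
      right
      push Not at hall
      obtain ⟨y, hy, hye⟩ := hall
      have hact : ((s(v, v'), c) : PX V K) ∈ st.L ∧ Has st.R u c ∧ y ∈ st.R ∧
          y.1 = s(par st.R u c, v') := by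
        refine ⟨hnew.1, hold.1, hy, ?_⟩
        rw [hold.2]
        exact hye
      refine ⟨((v', c), y), rfl, ?_, ?_, ?_⟩
      · exact if_pos hact
      · intro i hi
        have hi' : i ∈ ({pick (s(v, v'), c)} : Finset (Fin 3 × PX V K)) := hi
        rw [mem_singleton] at hi'
        rw [hi']
        exact hnew.2
      · intro i hi
        have hi' : i ∈ ({keep y} : Finset (Fin 3 × PX V K)) := hi
        rw [mem_singleton] at hi'
        rw [hi']
        cases hω : ω (keep y)
        · rfl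
        · exfalso
          refine hfR' y (mem_union_left _ ?_) hye
          unfold Rk
          rw [mem_filter]
          exact ⟨hy, hω⟩

theorem newj_blk (h : Hyp (gS G K n₀) st K a B Γ m ρ w g θ δ) (r₀ : ℕ)
    (ω : Fin 3 × PX V K → Bool) (u v : V) :
    NjBd (fun c : Fin K => c ∈ tset st.R (fun e => e ∈ st.U) u v ∧
      s(par st.R u c, par st.R v c) ∈ Blk G n₀ r₀ st ω)
      (2 * ((iS (gS G K n₀) st (jE st u v)).val ω + (bS (gS G K n₀) st (jE st u v)).val ω +
        (mS (gS G K n₀) st (2 * n₀ + 3) r₀ (jE st u v)).val ω)) := by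
  intro T hT
  have h1 := blocked_card h r₀ ω (jE st u v)
  have h2 : T.card ≤ 2 * (Blk G n₀ r₀ st ω ∩ jE st u v).card := by
    refine Finset.card_le_mul_card_image_of_maps_to
      (f := fun c => s(par st.R u c, par st.R v c)) ?_ 2 ?_
    · intro c hc
      rw [mem_inter]
      refine ⟨(hT c hc).2, ?_⟩
      unfold jE
      exact mem_image_of_mem _ (hT c hc).1
    · intro e _
      refine le_trans (Finset.card_le_card ?_)
        (tset_fib st.R h.inv.R_nd h.inv.R_ed (fun e => e ∈ st.U) u v e)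
      intro c hc
      have hc' := Finset.mem_filter.1 hc
      exact easy1_fm (Finset.mem_univ _) ⟨(hT c hc'.1).1, hc'.2⟩
  have h3 : (T.card : ℝ) ≤ 2 * ((Blk G n₀ r₀ st ω ∩ jE st u v).card : ℝ) := by
    exact_mod_cast h2
  linarith

theorem new_mm (h : Hyp (gS G K n₀) st K a B Γ m ρ w g θ δ) (r₀ : ℕ)
    (ω : Fin 3 × PX V K → Bool) (L' : Finset (PX V K))
    (hR' : ∀ x ∈ Rk st ω ∪ Acc G n₀ r₀ st ω, ∀ y ∈ Rk st ω ∪ Acc G n₀ r₀ st ω, x ≠ y →
      Disjoint (ndG x) (ndG y)) (u v : V) (huv : u ≠ v) :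
    ((tset (Rk st ω ∪ Acc G n₀ r₀ st ω)
        (FE G ⟨Rk st ω ∪ Acc G n₀ r₀ st ω, L', Unew (gS G K n₀) st ω⟩) u v).card : ℝ) ≤
      (tset st.R (FE G st) u v).card +
      2 * ((iS (gS G K n₀) st (jE st u v)).val ω + (bS (gS G K n₀) st (jE st u v)).val ω +
        (mS (gS G K n₀) st (2 * n₀ + 3) r₀ (jE st u v)).val ω) + (dJ st u v).val ω +
      ((nP st u v).val ω + (nD st u v).val ω + (nJ st (FE G st) u v).val ω) +
      ((nP st v u).val ω + (nD st v u).val ω + (nJ st (FE G st) v u).val ω) +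
      (nB st u v).val ω := by
  refine newj_or (newj_or (newj_or (newj_or (newj_or
    (newj_mem (tset st.R (FE G st) u v)) (newj_blk h r₀ ω u v))
    (newj_hit (dJ st u v) (fun i : Fin K × PX V K => i.1) ω))
    (newj_or (newj_or (newj_hit (nP st u v) njF2 ω) (newj_hit (nD st u v) njF2 ω))
      (newj_hit (nJ st (FE G st) u v) njF1 ω)))
    (newj_or (newj_or (newj_hit (nP st v u) njF2 ω) (newj_hit (nD st v u) njF2 ω))
      (newj_hit (nJ st (FE G st) v u) njF1 ω)))
    (newj_hit (nB st u v) (fun i : Fin K × V × V => i.1) ω) _ ?_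
  intro c hc
  rw [easy1_mem_tset] at hc
  obtain ⟨hu, hv, hf⟩ := hc
  have hxu := par_spec _ u c hu
  have hxv := par_spec _ v c hv
  set u' := par (Rk st ω ∪ Acc G n₀ r₀ st ω) u c with hu'
  set v' := par (Rk st ω ∪ Acc G n₀ r₀ st ω) v c with hv'
  rcases mem_union.1 hxu with hxu | hxu <;> rcases mem_union.1 hxv with hxv | hxv
  · left
    left
    left
    have h1 := newj_old h ω hxu
    have h2 := newj_old h ω hxv
    obtain ⟨hG, hfU, hfR⟩ := hf
    have hfU' : s(u', v') ∉ Unew (gS G K n₀) st ω := hfU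
    have hfR' : ∀ x ∈ Rk st ω ∪ Acc G n₀ r₀ st ω, x.1 ≠ s(u', v') := hfR
    by_cases hU : s(u', v') ∈ st.U
    · left
      right
      refine ⟨?_, ?_⟩
      · rw [easy1_mem_tset, h1.2, h2.2]
        exact ⟨h1.1, h2.1, hU⟩
      · rw [h1.2, h2.2]
        unfold Blk
        rw [mem_filter]
        exact ⟨hU, hfU', fun x hx => hfR' x (mem_union_right _ hx)⟩
    · by_cases hall : ∀ x ∈ st.R, x.1 ≠ s(u', v')
      · left
        left
        rw [easy1_mem_tset, h1.2, h2.2]
        exact ⟨h1.1, h2.1, hG, hU, hall⟩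
      · right
        push Not at hall
        obtain ⟨y, hy, hye⟩ := hall
        have hact : y ∈ st.R ∧ c ∈ tset st.R (fun e => e = y.1) u v := by
          refine ⟨hy, ?_⟩
          rw [easy1_mem_tset, h1.2, h2.2]
          exact ⟨h1.1, h2.1, hye.symm⟩
        refine ⟨(c, y), rfl, ?_, ?_, ?_⟩
        · exact if_pos hact
        · intro i hi
          exact absurd hi (Finset.notMem_empty i)
        · intro i hi
          have hi' : i ∈ ({keep y} : Finset (Fin 3 × PX V K)) := hi
          rw [mem_singleton] at hi'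
          rw [hi']
          cases hω : ω (keep y)
          · rfl
          · exfalso
            refine hfR' y (mem_union_left _ ?_) hye
            unfold Rk
            rw [mem_filter]
            exact ⟨hy, hω⟩
  · left
    left
    right
    exact newj_on h r₀ ω L' hxu hxv hf
  · left
    right
    refine newj_on h r₀ ω L' hxv hxu ?_
    rw [Sym2.eq_swap]
    exact hf
  · by_cases hne : s(v, v') = s(u, u')
    · exfalso
      have h1 := newj_both huv hne
      have hfR' : ∀ x ∈ Rk st ω ∪ Acc G n₀ r₀ st ω, x.1 ≠ s(u', v') := hf.2.2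
      exact hfR' (s(u, u'), c) (mem_union_right _ hxu) h1.symm
    · right
      exact newj_nB r₀ ω hxu hxv hne

end Pool.Agent.H77.AC
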