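import Pool.Agent.H77.AC.GoodG
import Pool.Agent.H77.AC.Ovl
import Pool.Agent.H77.AC.Cyl

/-!
# AC-NEWMED: deterministic part of a round: new paths and cycles

`R' = Rk ∪ Acc`; `Rk ⊆ R`, `Acc ⊆ Iso ⊆ Pk ⊆ L`.

* `new_nocyc`: let `H` be a cycle of length `2 n + 4 ≤ r₀ + 1` in `R'`. If `H ⊆ R`, old invariant. Otherwise some
  `x ∈ H` is in `Acc` (elements of `R'` outside `R`). If `n < n₀` then `H ∈ C` and `H.erase x ⊆ R' ⊆ R ∪ Pk`: contradicts the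
  first rule of `Acc`. If `n ≥ n₀`: `cyc_path` gives a path of length `2n+3 ∈ [2n₀+3, r₀]` in `H.erase x ⊆ Rk ∪ Iso`, which
  is `Med`: contradicts the second rule.
* `new_z1`: a colour `b ∈ Z1 R'` has a path in `R'`; if all its steps are in `R` then `b ∈ Z1 R`. Otherwise the path
  (length, colours, vertices) is an index of `pathS (Φ1 p q c)` of weight `1` (`steps ⊆ R ∪ L`, one step in `Acc ⊆ L`; `R`, `L`
  disjoint) and its cylinder holds: steps in `R` are in `Rk` (`keep` true; elements of `Acc` are not in `R`), steps in `L` are in `Acc`, so picked and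
  isolated, which gives the absent variables `cV`. Different `b` give different indices.
* `new_z2`: the same with `Φ2`, `l₀ = 2 n₀ + 3`.
-/

set_option autoImplicit false

open Finset
open scoped Classical

namespace Pool.Agent.H77.AC

variable {V : Type} [Fintype V] [DecidableEq V] {K : ℕ}
variable {G : SimpleGraph V} {n₀ : ℕ} {st : St (PX V K) (Sym2 V)} {a B Γ m : ℕ}
  {ρ w g θ δ : ℝ}

theorem newmed_val {α : Type} [DecidableEq α] {I : Type} [Fintype I] [DecidableEq I]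
    (X : Stat I) (ω : I → Bool) (T : Finset α) (F : X.ι → α)
    (h : ∀ a ∈ T, ∃ i, F i = a ∧ X.w i = 1 ∧ Cyl (X.D i) (X.C i) ω) :
    (T.card : ℝ) ≤ X.val ω := by
  have hsub : T ⊆ (univ.filter (fun i => X.w i = 1 ∧ Cyl (X.D i) (X.C i) ω)).image F := by
    intro a ha
    obtain ⟨i, h1, h2, h3⟩ := h a ha
    exact mem_image.2 ⟨i, mem_filter.2 ⟨mem_univ _, h2, h3⟩, h1⟩
  have hc : T.card ≤ (univ.filter (fun i => X.w i = 1 ∧ Cyl (X.D i) (X.C i) ω)).card :=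
    (card_le_card hsub).trans card_image_le
  have hc' : (T.card : ℝ) ≤
      ((univ.filter (fun i => X.w i = 1 ∧ Cyl (X.D i) (X.C i) ω)).card : ℝ) := by
    exact_mod_cast hc
  refine hc'.trans ?_
  rw [card_eq_sum_ones, Nat.cast_sum, Nat.cast_one]
  calc ∑ i ∈ univ.filter (fun i => X.w i = 1 ∧ Cyl (X.D i) (X.C i) ω), (1 : ℝ)
      = ∑ i ∈ univ.filter (fun i => X.w i = 1 ∧ Cyl (X.D i) (X.C i) ω),
          (if Cyl (X.D i) (X.C i) ω then X.w i else 0) := by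
        refine sum_congr rfl fun i hi => ?_
        rw [mem_filter] at hi
        rw [if_pos hi.2.2, hi.2.1]
    _ ≤ ∑ i, (if Cyl (X.D i) (X.C i) ω then X.w i else 0) := by
        refine sum_le_sum_of_subset_of_nonneg (filter_subset _ _) fun i _ _ => ?_
        split_ifs
        · exact X.nn i
        · exact le_rfl
    _ = X.val ω := rfl

theorem newmed_Rk (ω : Fin 3 × PX V K → Bool) {x : PX V K} (hx : x ∈ Rk st ω) :
    x ∈ st.R ∧ ω (keep x) = true := by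
  unfold Rk at hx
  exact mem_filter.1 hx

theorem newmed_Iso (S : Sys (PX V K) (Sym2 V) (V × Fin K)) (ω : Fin 3 × PX V K → Bool)
    {x : PX V K} (hx : x ∈ Iso S st ω) :
    x ∈ st.L ∧ ω (pick x) = true ∧ Disjoint (isoN S st x) (Pk st ω) := by
  unfold Iso at hx
  rw [mem_filter] at hx
  have h1 := hx.1
  unfold Pk at h1
  rw [mem_filter] at h1
  exact ⟨h1.1, h1.2, hx.2⟩

theorem newmed_Acc (r₀ : ℕ) (ω : Fin 3 × PX V K → Bool) {x : PX V K}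
    (hx : x ∈ Acc G n₀ r₀ st ω) : x ∈ Iso (gS G K n₀) st ω := by
  unfold Acc at hx
  exact (mem_filter.1 hx).1

theorem newmed_cyl (h : Hyp (gS G K n₀) st K a B Γ m ρ w g θ δ) (r₀ : ℕ)
    (ω : Fin 3 × PX V K → Bool) (T : Finset (PX V K))
    (hT : T ⊆ Rk st ω ∪ Acc G n₀ r₀ st ω) :
    Cyl (dV st T) (cV (gS G K n₀) st T) ω := by
  have hRL := RL_disj h
  have hlive : ∀ x ∈ T, x ∈ st.L → x ∈ Iso (gS G K n₀) st ω := by
    intro x hx hL
    rcases mem_union.1 (hT hx) with h1 | h1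
    · exact absurd hL (Finset.disjoint_left.1 hRL (newmed_Rk ω h1).1)
    · exact newmed_Acc r₀ ω h1
  constructor
  · intro i hi
    unfold dV at hi
    rw [mem_union, mem_image, mem_image] at hi
    rcases hi with ⟨x, hx, rfl⟩ | ⟨x, hx, rfl⟩
    · rw [mem_inter] at hx
      rcases mem_union.1 (hT hx.1) with h1 | h1
      · exact (newmed_Rk ω h1).2
      · exact absurd (newmed_Iso _ ω (newmed_Acc r₀ ω h1)).1
          (Finset.disjoint_left.1 hRL hx.2)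
    · rw [mem_inter] at hx
      exact (newmed_Iso _ ω (hlive x hx.1 hx.2)).2.1
  · intro i hi
    unfold cV at hi
    rw [mem_image] at hi
    obtain ⟨y, hy, rfl⟩ := hi
    rw [mem_biUnion] at hy
    obtain ⟨x, hx, hy⟩ := hy
    rw [mem_inter] at hx
    have h1 := (newmed_Iso _ ω (hlive x hx.1 hx.2)).2.2
    have h2 := Finset.disjoint_left.1 h1 hy
    have h3 : y ∈ st.L := by
      unfold isoN at hy
      exact (mem_filter.1 hy).1
    cases hω : ω (pick y)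
    · rfl
    · exfalso
      apply h2
      unfold Pk
      rw [mem_filter]
      exact ⟨h3, hω⟩

theorem new_nocyc (h : Hyp (gS G K n₀) st K a B Γ m ρ w g θ δ) (r₀ : ℕ)
    (hno : ∀ n, 2 * n + 4 ≤ r₀ + 1 → ∀ H, IsCyc G n H → ¬ H ⊆ st.R)
    (ω : Fin 3 × PX V K → Bool) :
    ∀ n, 2 * n + 4 ≤ r₀ + 1 → ∀ H, IsCyc G n H → ¬ H ⊆ Rk st ω ∪ Acc G n₀ r₀ st ω := by
  intro n hn H hcyc hsub
  have h1 := hno n hn H hcyc
  rw [Finset.not_subset] at h1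
  obtain ⟨x, hxH, hxR⟩ := h1
  have hxA : x ∈ Acc G n₀ r₀ st ω := by
    rcases mem_union.1 (hsub hxH) with h2 | h2
    · exact absurd (newmed_Rk ω h2).1 hxR
    · exact h2
  have hxA' := hxA
  unfold Acc at hxA'
  rw [mem_filter] at hxA'
  obtain ⟨-, hr1, hr2⟩ := hxA'
  rcases Nat.lt_or_ge n n₀ with hlt | hge
  · apply hr1
    refine ⟨H, ?_, hxH, ?_⟩
    · exact mem_filter.2 ⟨mem_univ _, n, hlt, hcyc⟩
    · intro y hy
      have hyH := mem_of_mem_erase hy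
      rw [mem_union]
      rcases mem_union.1 (hsub hyH) with h2 | h2
      · exact Or.inl (newmed_Rk ω h2).1
      · right
        have h3 := newmed_Iso _ ω (newmed_Acc r₀ ω h2)
        unfold Pk
        rw [mem_filter]
        exact ⟨h3.1, h3.2.1⟩
  · apply hr2
    obtain ⟨b, v, hb, hv, he, hst⟩ := cyc_path G n H hcyc x hxH
    refine ⟨2 * n + 3, b, v, by omega, by omega, hb, hv, he, fun i => ?_⟩
    have hyH := mem_of_mem_erase (hst i)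
    rw [mem_union]
    rcases mem_union.1 (hsub hyH) with h2 | h2
    · exact Or.inl h2
    · exact Or.inr (newmed_Acc r₀ ω h2)

/-- a new path is an index of weight `1` whose cylinder holds -/
theorem newmed_idx (h : Hyp (gS G K n₀) st K a B Γ m ρ w g θ δ) (r₀ : ℕ)
    (ω : Fin 3 × PX V K → Bool) (Φ : PI V K r₀ → Prop) (n : ℕ) (hn : n < r₀ + 1)
    (c1 c2 : Fin K) (v : Fin (n + 1) → V) (hv : Function.Injective v)
    (hst : ∀ i, pstep v c1 c2 i ∈ Rk st ω ∪ Acc G n₀ r₀ st ω)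
    (hR : ¬ ∀ i, pstep v c1 c2 i ∈ st.R) (hΦ : Φ ⟨⟨n, hn⟩, c1, c2, v⟩) :
    (pathS (gS G K n₀) st r₀ Φ).w ⟨⟨n, hn⟩, c1, c2, v⟩ = 1 ∧
      Cyl ((pathS (gS G K n₀) st r₀ Φ).D ⟨⟨n, hn⟩, c1, c2, v⟩)
        ((pathS (gS G K n₀) st r₀ Φ).C ⟨⟨n, hn⟩, c1, c2, v⟩) ω := by
  have hset : ∀ x ∈ PI.set (⟨⟨n, hn⟩, c1, c2, v⟩ : PI V K r₀),
      x ∈ Rk st ω ∪ Acc G n₀ r₀ st ω := by
    intro x hx
    unfold PI.set at hx
    rw [mem_image] at hx
    obtain ⟨i, -, rfl⟩ := hx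
    exact hst i
  constructor
  · show (if Φ ⟨⟨n, hn⟩, c1, c2, v⟩ ∧ Function.Injective v ∧
      PI.set (⟨⟨n, hn⟩, c1, c2, v⟩ : PI V K r₀) ⊆ st.R ∪ st.L ∧
      ¬ Disjoint (PI.set (⟨⟨n, hn⟩, c1, c2, v⟩ : PI V K r₀)) st.L then (1 : ℝ) else 0) = 1
    rw [if_pos]
    refine ⟨hΦ, hv, ?_, ?_⟩
    · intro x hx
      rw [mem_union]
      rcases mem_union.1 (hset x hx) with h2 | h2
      · exact Or.inl (newmed_Rk ω h2).1
      · exact Or.inr (newmed_Iso _ ω (newmed_Acc r₀ ω h2)).1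
    · rw [not_forall] at hR
      obtain ⟨i, hi⟩ := hR
      rw [Finset.not_disjoint_iff]
      refine ⟨pstep v c1 c2 i, ?_, ?_⟩
      · unfold PI.set
        exact mem_image_of_mem _ (mem_univ i)
      · rcases mem_union.1 (hst i) with h2 | h2
        · exact absurd (newmed_Rk ω h2).1 hi
        · exact (newmed_Iso _ ω (newmed_Acc r₀ ω h2)).1
  · exact newmed_cyl h r₀ ω _ hset

theorem new_z1 (h : Hyp (gS G K n₀) st K a B Γ m ρ w g θ δ) (r₀ : ℕ)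
    (ω : Fin 3 × PX V K → Bool) (p q : V) (c : Fin K) :
    ((Z1 (Rk st ω ∪ Acc G n₀ r₀ st ω) r₀ p q c).card : ℝ) ≤
      (Z1 st.R r₀ p q c).card + (pathS (gS G K n₀) st r₀ (Φ1 r₀ p q c)).val ω := by
  have h1 : (Z1 (Rk st ω ∪ Acc G n₀ r₀ st ω) r₀ p q c).card ≤ (Z1 st.R r₀ p q c).card +
      (Z1 (Rk st ω ∪ Acc G n₀ r₀ st ω) r₀ p q c \ Z1 st.R r₀ p q c).card := by
    have := card_le_card_sdiff_add_card (t := Z1 st.R r₀ p q c)
      (s := Z1 (Rk st ω ∪ Acc G n₀ r₀ st ω) r₀ p q c)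
    omega
  have h2 : ((Z1 (Rk st ω ∪ Acc G n₀ r₀ st ω) r₀ p q c).card : ℝ) ≤
      (Z1 st.R r₀ p q c).card +
      ((Z1 (Rk st ω ∪ Acc G n₀ r₀ st ω) r₀ p q c \ Z1 st.R r₀ p q c).card : ℝ) := by
    exact_mod_cast h1
  refine h2.trans (add_le_add le_rfl ?_)
  refine newmed_val (pathS (gS G K n₀) st r₀ (Φ1 r₀ p q c)) ω _
    (fun i : PI V K r₀ => if i.2.2.1 = c then i.2.1 else i.2.2.1) ?_
  intro b hb
  rw [mem_sdiff] at hb
  obtain ⟨hb1, hb2⟩ := hb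
  unfold Z1 at hb1 hb2
  rw [mem_filter] at hb1 hb2
  obtain ⟨-, hbc, n, hn1, hn2, hJ⟩ := hb1
  rcases hJ with ⟨v, hv, hvp, hvq, hst⟩ | ⟨hn3, v, hv, hvp, hvq, hst⟩
  · have hR : ¬ ∀ i, pstep v b c i ∈ st.R := fun hall =>
      hb2 ⟨mem_univ _, hbc, n, hn1, hn2, Or.inl ⟨v, hv, hvp, hvq, hall⟩⟩
    have hx := newmed_idx h r₀ ω (Φ1 r₀ p q c) n (by omega) b c v hv hst hR
      ⟨hvp, hvq, hbc, Or.inl ⟨hn1, rfl⟩⟩
    exact ⟨_, if_pos rfl, hx.1, hx.2⟩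
  · have hR : ¬ ∀ i, pstep v c b i ∈ st.R := fun hall =>
      hb2 ⟨mem_univ _, hbc, n, hn1, hn2, Or.inr ⟨hn3, v, hv, hvp, hvq, hall⟩⟩
    have hx := newmed_idx h r₀ ω (Φ1 r₀ p q c) n (by omega) c b v hv hst hR
      ⟨hvp, hvq, hbc.symm, Or.inr ⟨hn3, rfl⟩⟩
    exact ⟨_, if_neg hbc, hx.1, hx.2⟩

theorem new_z2 (h : Hyp (gS G K n₀) st K a B Γ m ρ w g θ δ) (r₀ l₀ : ℕ)
    (ω : Fin 3 × PX V K → Bool) (p q : V) :
    ((Z2 (Rk st ω ∪ Acc G n₀ r₀ st ω) l₀ r₀ p q).card : ℝ) ≤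
      (Z2 st.R l₀ r₀ p q).card + (pathS (gS G K n₀) st r₀ (Φ2 r₀ l₀ p q)).val ω := by
  have h1 : (Z2 (Rk st ω ∪ Acc G n₀ r₀ st ω) l₀ r₀ p q).card ≤ (Z2 st.R l₀ r₀ p q).card +
      (Z2 (Rk st ω ∪ Acc G n₀ r₀ st ω) l₀ r₀ p q \ Z2 st.R l₀ r₀ p q).card := by
    have := card_le_card_sdiff_add_card (t := Z2 st.R l₀ r₀ p q)
      (s := Z2 (Rk st ω ∪ Acc G n₀ r₀ st ω) l₀ r₀ p q)
    omega
  have h2 : ((Z2 (Rk st ω ∪ Acc G n₀ r₀ st ω) l₀ r₀ p q).card : ℝ) ≤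
      (Z2 st.R l₀ r₀ p q).card +
      ((Z2 (Rk st ω ∪ Acc G n₀ r₀ st ω) l₀ r₀ p q \ Z2 st.R l₀ r₀ p q).card : ℝ) := by
    exact_mod_cast h1
  refine h2.trans (add_le_add le_rfl ?_)
  refine newmed_val (pathS (gS G K n₀) st r₀ (Φ2 r₀ l₀ p q)) ω _
    (fun i : PI V K r₀ => (i.2.1, i.2.2.1)) ?_
  rintro ⟨b, c⟩ hb
  rw [mem_sdiff] at hb
  obtain ⟨hb1, hb2⟩ := hb
  unfold Z2 at hb1 hb2
  rw [mem_filter] at hb1 hb2
  obtain ⟨-, hbc, n, hn1, hn2, v, hv, hvp, hvq, hst⟩ := hb1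
  have hR : ¬ ∀ i, pstep v b c i ∈ st.R := fun hall =>
    hb2 ⟨mem_univ _, hbc, n, hn1, hn2, ⟨v, hv, hvp, hvq, hall⟩⟩
  have hx := newmed_idx h r₀ ω (Φ2 r₀ l₀ p q) n (by omega) b c v hv hst hR
    ⟨hvp, hvq, hbc, hn1⟩
  exact ⟨_, rfl, hx.1, hx.2⟩

end Pool.Agent.H77.AC
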