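import Pool.Agent.H77.AC.Fam

/-!
# AC-NUM: constants and parameter sequences (definitions)

`Cn ρ δs`: constants independent of the number of colours `K`. `Big`: inequalities valid for large `K`
(`β` natural, `β^e₀ ≤ K < (β+1)^e₀`, `r₀ = β`, `s = β³`). `Pq`: the sequence of parameters.
-/

set_option autoImplicit false

open Finset
open scoped Classical

namespace Pool.Agent.H77.AC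

/-- constants; `δs` = final fraction -/
structure Cn (ρ δs : ℝ) where
  W : ℝ
  b : ℝ
  lam : ℝ
  Λ : ℝ
  α : ℝ
  ε₁ : ℝ
  θ : ℝ
  c : ℝ
  σ : ℝ
  T : ℕ
  n₀ : ℕ
  ρ0 : 0 < ρ
  ρ1 : ρ < 1
  hW : W = 8 / (1 - ρ)
  hb : b = W + 3
  hlam : lam = b + W + 2
  θ0 : 0 < θ
  θ4 : θ ≤ 1 / 4
  α0 : 0 < α
  α1 : α ≤ 1
  θα : θ ≤ α
  lamθ : lam * θ ≤ 1 / 2
  hα : α ≤ (1 - lam * θ) ^ T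
  C4θ : (W + 3 + lam ^ 2) * θ ≤ 1
  bθ : (1 + b) * θ ≤ 1
  g2 : (1 + (W + 4 + lam ^ 2) * θ ^ 2) ^ T ≤ 2
  gρ : (1 + (W + 4 + lam ^ 2) * θ ^ 2) ^ T * ρ ≤ (1 + ρ) / 2
  nNθ : θ * ((1 + b) ^ 2 + W + 5) ≤ 1 - ρ
  T1 : 1 ≤ T
  hT : θ * T ≤ Λ
  Λ0 : 0 < Λ
  ε0 : 0 < ε₁
  hDT : (1 - θ / 2) ^ T ≤ ε₁
  c0 : 1 / 2 ≤ c
  c1 : c < 1
  cA : (1 - c) * (12 * (b + 1)) ≤ θ ^ 2
  cT : (1 - c) * (4 * T) ≤ 1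
  n1 : 1 ≤ n₀
  σ0 : 0 < σ
  hσ : ∀ r : ℕ, ∑ n ∈ Icc (2 * n₀ + 3) r, (n : ℝ) * (1 - θ ^ 2) ^ (n - 1) ≤ σ
  hζ : 2 * (θ / α) * (4 * T * (θ / α) * σ) + 2 * (θ ^ 2 / α) * σ ≤ θ ^ 2
  fin1 : ε₁ + 16 * (W + 4) * Λ * θ ≤ δs
  fin2 : ε₁ * (1 + 8 * Λ) + 24 * (W + 4) * θ + 56 * (W + 4) * Λ * θ +
    64 * (W + 4) * Λ ^ 2 * θ / α ≤ δs

namespace Cn

variable {ρ δs : ℝ} (C : Cn ρ δs)

/-- maximal size of short sets -/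
def m : ℕ := 2 * C.n₀ + 2

/-- growth exponent of the crude bound per round -/
def E₁ : ℕ := 6 * C.m + 20

/-- exponent of the final crude bound -/
def γ : ℕ := 1 + C.T * C.E₁

/-- `β^e₀ ≤ K` -/
def e₀ : ℕ := C.γ + 20 * C.m + 100

/-- threshold of the small statistics -/
noncomputable def τ : ℝ := 4 * (C.W + 4) * C.θ ^ 2

/-- list sizes -/
noncomputable def aq (K : ℕ) : ℕ → ℕ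
  | 0 => K
  | t + 1 => ⌊(aq K t : ℝ) - C.θ * (⌈C.b * (aq K t : ℝ)⌉₊ : ℝ) -
      (aq K t : ℝ) * (C.θ ^ 2 * (C.W + 1))⌋₊

/-- bound for the number of colours with `u^c v^c` active -/
noncomputable def jq (K : ℕ) : ℕ → ℝ
  | 0 => K
  | t + 1 => (1 - C.θ / 2) * jq K t + 4 * C.θ * ((1 - C.θ / 2) ^ t * K) + 3 * (C.τ * K)

/-- bound for the number of colours with `u^c v^c` failed -/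
noncomputable def Mq (K : ℕ) : ℕ → ℝ
  | 0 => 0
  | t + 1 => Mq K t + 14 * (C.τ * K) +
      4 * (K * (C.θ / (C.aq K t : ℝ)) * (4 * t * (C.τ * K)))

/-- the parameter sequence -/
noncomputable def Pq (K β : ℕ) (t : ℕ) : RP where
  a := C.aq K t
  B := ⌈C.b * (C.aq K t : ℝ)⌉₊
  Γ := β ^ (1 + t * C.E₁)
  w := C.W / 2 * (1 + t / C.T)
  g := (1 + (C.W + 4 + C.lam ^ 2) * C.θ ^ 2) ^ (C.T - t)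
  D := (1 - C.θ / 2) ^ t * K
  f := 4 * t * (C.τ * K)
  j := C.jq K t
  M := C.Mq K t
  ζ := 4 * t * (C.θ / C.α) * C.σ

/-- inequalities for large `K` -/
structure Big (Γ₀ K β : ℕ) : Prop where
  β1 : 1 ≤ β
  K1 : 1 ≤ K
  Γ₀β : Γ₀ ≤ β
  /-- `a θ² ≥ 2` -/
  k1 : 2 ≤ C.θ ^ 2 * (C.α * K)
  k2 : (((C.m + 1 + β ^ 3 * C.m) * (7 * β ^ C.γ + 6) : ℕ) : ℝ) ≤ C.θ * (C.α * K)
  k3 : (β : ℝ) ^ 3 ≤ C.θ ^ 2 * (ρ * (C.α * K))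
  k4 : (β : ℝ) ^ 3 * (1 + (β : ℝ) ^ C.γ) ≤ C.θ ^ 2 * (C.α * K) / 12
  k5 : ((β : ℝ) ^ 3 * C.m + 1) ^ C.m * (C.m + 1) * (β : ℝ) ^ C.γ ≤ C.θ ^ 2 * (C.α * K) / 12
  k6 : (((β : ℝ) ^ 3 * C.m + 1) ^ C.m + 3 * ((β : ℝ) ^ 3 * C.m)) * C.m * 2 ^ C.m *
    ((β : ℝ) ^ C.γ / K) * (2 / C.α) ^ C.m ≤ C.W / (4 * C.T)
  k7 : ((β : ℝ) ^ 3 * (2 * C.m) + 1) ^ (2 * C.m) * (2 * C.m + 1) * 2 ^ (2 * C.m) ≤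
    (β : ℝ) ^ C.E₁ / 2
  k8 : mu9 β (β ^ 3 * (β + 1)) 1 + 1 / 2 ≤ (β : ℝ) ^ C.E₁ / 2
  k9 : (β : ℝ) ^ 3 * (β + 1) * (mu9 β (β ^ 3 * (β + 1)) 1 * (β : ℝ) ^ C.γ) ≤
    C.θ / C.α * C.σ * K
  k10 : 2 * (β : ℝ) ^ 3 ≤ C.θ / 8 * ((1 - C.θ / 2) ^ C.T * K)
  k11 : 12 * (β : ℝ) ^ 3 + 8 * ((β : ℝ) ^ 3) ^ 2 ≤ C.θ ^ 2 * K
  k12 : ((β : ℝ) ^ 3 * C.m + 1) ^ C.m * C.m * (C.W + (C.m + 2) * (β : ℝ) ^ C.γ) ≤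
    C.θ ^ 2 * K
  k13 : 2 * ((β : ℝ) ^ 3 * (β + 1)) * (β : ℝ) ^ C.γ +
    6 * ((β : ℝ) ^ 3 * (β + 1)) * (mu9 β (β ^ 3 * (β + 1)) 1 * (β : ℝ) ^ C.γ) ≤ C.θ ^ 2 * K
  /-- local lemma -/
  kL : 4 * C.c ^ (β ^ 3) * ((23 * Mloc K C.n₀ β * Mloc K C.n₀ β : ℕ) : ℝ) ≤ 1

end Cn

end Pool.Agent.H77.AC
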