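import Mathlib

/-!
# AC-NUMA0: tails of `∑ n x^(n-1)`

`∑ n x^(n-1)` converges for `0 ≤ x < 1`, its tails tend to zero; a finite sum over `Icc (2 n₀ + 3) r` is at most the
tail (nonnegative terms).
-/

set_option autoImplicit false

open Finset
open scoped Classical

namespace Pool.Agent.H77.AC

theorem tail_series (x σ : ℝ) (hx0 : 0 ≤ x) (hx1 : x < 1) (hσ : 0 < σ) :
    ∃ n₀ : ℕ, 1 ≤ n₀ ∧ ∀ r : ℕ, ∑ n ∈ Icc (2 * n₀ + 3) r, (n : ℝ) * x ^ (n - 1) ≤ σ := by
  have hnorm : ‖x‖ < 1 := by rwa [Real.norm_of_nonneg hx0]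
  set f : ℕ → ℝ := fun n => (n : ℝ) * x ^ (n - 1) with hf
  have hf0 : ∀ n, 0 ≤ f n := fun n => by simp only [hf]; positivity
  have hsum : Summable f := by
    rw [← summable_nat_add_iff 1]
    have h1 : Summable (fun n : ℕ => (n : ℝ) ^ 1 * x ^ n) :=
      summable_pow_mul_geometric_of_norm_lt_one 1 hnorm
    have h2 : Summable (fun n : ℕ => x ^ n) := summable_geometric_of_norm_lt_one hnorm
    refine (h1.add h2).congr ?_
    intro n
    simp only [hf]
    push_cast
    simp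
    ring
  have htail := tendsto_sum_nat_add f
  have hev := (htail.eventually (gt_mem_nhds hσ)).exists_forall_of_atTop
  obtain ⟨N, hN⟩ := hev
  refine ⟨max 1 N, le_max_left _ _, ?_⟩
  intro r
  have h3 := hN (2 * max 1 N + 3) (by have := le_max_right 1 N; omega)
  have h4 : ∑ n ∈ Icc (2 * max 1 N + 3) r, f n ≤ ∑' k, f (k + (2 * max 1 N + 3)) := by
    have h5 : Icc (2 * max 1 N + 3) r = Ico (2 * max 1 N + 3) (r + 1) := by
      ext k; simp only [mem_Icc, mem_Ico]; omega
    rw [h5, sum_Ico_eq_sum_range]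
    have h6 : Summable (fun k => f (k + (2 * max 1 N + 3))) :=
      (summable_nat_add_iff (2 * max 1 N + 3)).2 hsum
    calc ∑ i ∈ range (r + 1 - (2 * max 1 N + 3)), f (2 * max 1 N + 3 + i)
        = ∑ i ∈ range (r + 1 - (2 * max 1 N + 3)), f (i + (2 * max 1 N + 3)) := by
          apply sum_congr rfl; intro i _; rw [add_comm]
      _ ≤ ∑' k, f (k + (2 * max 1 N + 3)) :=
          h6.sum_le_tsum _ (fun i _ => hf0 _)
  exact (h4.trans h3.le)

end Pool.Agent.H77.AC
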