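import Pool.Agent.H77.AC.Num
import Pool.Agent.H77.AC.NumA0

/-!
# AC-NUMA: existence of the constants

Real analysis only. Order of the choices: `W = 8/(1-ρ)`, `b = W + 3`, `lam = b + W + 2`;
`ε₁ ∈ (0,1)` with `ε₁ ≤ δs/2` and `ε₁ (1 + 8 Λ) ≤ δs/2` where `Λ = 2 log (1/ε₁) + 1` (as `ε₁ log (1/ε₁) → 0`);
`α = exp (-2 lam Λ)`; then `θ > 0` small enough for all the (finitely many) conditions with `T := ⌈2 log (1/ε₁) / θ⌉`:
`θ T ≤ 2 log (1/ε₁) + θ ≤ Λ`; `(1-θ/2)^T ≤ exp (-θ T/2) ≤ ε₁`; `(1 - lam θ)^T ≥ exp (-2 lam θ T) ≥ α`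
(`1 - x ≥ exp (-2x)` for `0 ≤ x ≤ 1/2`); `(1 + C₃ θ²)^T ≤ exp (C₃ θ² T) ≤ exp (C₃ θ Λ) ≤ min 2 ((1+ρ)/(2ρ))`, `C₃ = W + 4 + lam²`; `fin1`, `fin2` (terms
`O(θ)` with constants depending on `W, Λ, α`). Then `c = 1 - min (1/2) (min (θ²/(12(b+1))) (1/(4T)))`, then `σ > 0` by `hζ`,
finally `n₀` by `tail_series`.
-/

set_option autoImplicit false

open Finset
open scoped Classical

namespace Pool.Agent.H77.AC

theorem NUMA_lin (A B : ℝ) (hB : 0 < B) : ∀ᶠ θ in nhdsWithin (0 : ℝ) (Set.Ioi 0), A * θ ≤ B := by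
  have h1 : Filter.Tendsto (fun θ : ℝ => A * θ) (nhdsWithin (0 : ℝ) (Set.Ioi 0)) (nhds 0) := by
    have : Filter.Tendsto (fun θ : ℝ => A * θ) (nhds 0) (nhds (A * 0)) :=
      (continuous_const.mul continuous_id).tendsto 0
    rw [mul_zero] at this
    exact this.mono_left nhdsWithin_le_nhds
  exact (h1.eventually (Iio_mem_nhds hB)).mono fun θ hθ => le_of_lt hθ

theorem NUMA_exp (x : ℝ) (h0 : 0 ≤ x) (h1 : x ≤ 1 / 2) : Real.exp (-(2 * x)) ≤ 1 - x := by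
  have h2 : 1 + 2 * x ≤ Real.exp (2 * x) := by
    have := Real.add_one_le_exp (2 * x)
    linarith
  rw [Real.exp_neg]
  have h3 : (Real.exp (2 * x))⁻¹ ≤ (1 + 2 * x)⁻¹ := inv_anti₀ (by linarith) h2
  refine h3.trans ?_
  rw [inv_le_iff_one_le_mul₀ (by linarith)]
  nlinarith

theorem NUMA_eps (δs : ℝ) (hs : 0 < δs) : ∃ ε : ℝ, 0 < ε ∧ ε < 1 ∧ ε ≤ δs / 2 ∧
    ε * (1 + 8 * (2 * Real.log (1 / ε) + 1)) ≤ δs / 2 := by
  obtain ⟨η, hη0, hη1, hη2⟩ : ∃ η : ℝ, 0 < η ∧ η ≤ 1 / 2 ∧ η ≤ δs / 82 :=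
    ⟨min (1 / 2) (δs / 82), lt_min (by norm_num) (by positivity), min_le_left _ _,
      min_le_right _ _⟩
  have hlog : Real.log (1 / (η ^ 2)) ≤ 2 / η := by
    have h1 : (1 : ℝ) / η ^ 2 = (1 / η) ^ 2 := by rw [div_pow, one_pow]
    rw [h1, Real.log_pow]
    have h2 : Real.log (1 / η) ≤ 1 / η := by
      have := Real.log_le_sub_one_of_pos (show (0 : ℝ) < 1 / η by positivity)
      linarith
    have h3 : (2 : ℝ) / η = 2 * (1 / η) := by ring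
    rw [h3]
    push_cast
    linarith
  have hsq : η ^ 2 ≤ η := by nlinarith
  refine ⟨η ^ 2, by positivity, by nlinarith, by linarith, ?_⟩
  have h4 : η ^ 2 * (1 + 8 * (2 * Real.log (1 / η ^ 2) + 1)) ≤
      η ^ 2 * (1 + 8 * (2 * (2 / η) + 1)) := by
    apply mul_le_mul_of_nonneg_left _ (by positivity)
    linarith
  have h5 : η ^ 2 * (1 + 8 * (2 * (2 / η) + 1)) = 9 * η ^ 2 + 32 * η := by
    field_simp
    ring
  rw [h5] at h4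
  linarith

theorem exists_Cn (ρ δs : ℝ) (h0 : 0 < ρ) (h1 : ρ < 1) (hs : 0 < δs) : Nonempty (Cn ρ δs) := by
  obtain ⟨ε₁, hε0, hε1, hε2, hε3⟩ := NUMA_eps δs hs
  obtain ⟨W, hW⟩ : ∃ W : ℝ, W = 8 / (1 - ρ) := ⟨_, rfl⟩
  obtain ⟨b, hb⟩ : ∃ b : ℝ, b = W + 3 := ⟨_, rfl⟩
  obtain ⟨lam, hlam⟩ : ∃ lam : ℝ, lam = b + W + 2 := ⟨_, rfl⟩
  obtain ⟨L, hL⟩ : ∃ L : ℝ, L = 2 * Real.log (1 / ε₁) := ⟨_, rfl⟩
  obtain ⟨Λ, hΛ⟩ : ∃ Λ : ℝ, Λ = L + 1 := ⟨_, rfl⟩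
  have hW0 : 0 < W := by rw [hW]; apply div_pos (by norm_num); linarith
  have hb0 : 0 < b := by linarith
  have hlam0 : 0 < lam := by linarith
  have hL0 : 0 < L := by
    rw [hL]
    have : 0 < Real.log (1 / ε₁) := Real.log_pos (by rw [lt_div_iff₀ hε0]; linarith)
    linarith
  have hΛ0 : 0 < Λ := by linarith
  obtain ⟨α, hα⟩ : ∃ α : ℝ, α = Real.exp (-(2 * (lam * Λ))) := ⟨_, rfl⟩
  have hα0 : 0 < α := by rw [hα]; exact Real.exp_pos _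
  have hα1 : α ≤ 1 := by
    rw [hα]
    rw [Real.exp_le_one_iff]
    have : 0 < lam * Λ := mul_pos hlam0 hΛ0
    linarith
  obtain ⟨C3, hC3⟩ : ∃ C3 : ℝ, C3 = W + 4 + lam ^ 2 := ⟨_, rfl⟩
  have hC30 : 0 < C3 := by rw [hC3]; positivity
  have hq : 0 < Real.log ((1 + ρ) / (2 * ρ)) := by
    apply Real.log_pos
    rw [lt_div_iff₀ (by linarith)]
    linarith
  have hev : ∀ᶠ θ in nhdsWithin (0 : ℝ) (Set.Ioi 0),
      0 < θ ∧ 1 * θ ≤ 1 / 4 ∧ 1 * θ ≤ α ∧ lam * θ ≤ 1 / 2 ∧ (W + 3 + lam ^ 2) * θ ≤ 1 ∧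
      (1 + b) * θ ≤ 1 ∧ (C3 * Λ) * θ ≤ 1 / 2 ∧ (C3 * Λ) * θ ≤ Real.log ((1 + ρ) / (2 * ρ)) ∧
      ((1 + b) ^ 2 + W + 5) * θ ≤ 1 - ρ ∧ (16 * (W + 4) * Λ) * θ ≤ δs / 2 ∧
      (24 * (W + 4) + 56 * (W + 4) * Λ + 64 * (W + 4) * Λ ^ 2 / α) * θ ≤ δs / 2 := by
    refine (eventually_mem_nhdsWithin (a := (0 : ℝ)) (s := Set.Ioi 0)).and ?_
    refine (NUMA_lin _ _ (by norm_num)).and ?_
    refine (NUMA_lin _ _ hα0).and ?_
    refine (NUMA_lin _ _ (by norm_num)).and ?_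
    refine (NUMA_lin _ _ (by norm_num)).and ?_
    refine (NUMA_lin _ _ (by norm_num)).and ?_
    refine (NUMA_lin _ _ (by norm_num)).and ?_
    refine (NUMA_lin _ _ hq).and ?_
    refine (NUMA_lin _ _ (by linarith)).and ?_
    refine (NUMA_lin _ _ (by linarith)).and ?_
    exact NUMA_lin _ _ (by linarith)
  obtain ⟨θ, hθ0, hθ4, hθα, hlθ, hC4, hbθ, hg1, hg2, hnN, hf1, hf2⟩ := hev.exists
  rw [one_mul] at hθ4 hθα
  obtain ⟨T, hT⟩ : ∃ T : ℕ, T = ⌈L / θ⌉₊ := ⟨_, rfl⟩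
  have hT1 : 1 ≤ T := by
    rw [hT]
    exact Nat.one_le_iff_ne_zero.2 (Nat.ceil_pos.2 (div_pos hL0 hθ0)).ne'
  have hTR : (1 : ℝ) ≤ (T : ℝ) := by exact_mod_cast hT1
  have hTlow : L ≤ θ * T := by
    have : L / θ ≤ (T : ℝ) := by rw [hT]; exact Nat.le_ceil _
    rw [div_le_iff₀ hθ0] at this
    linarith
  have hTup : θ * T ≤ Λ := by
    have : (T : ℝ) < L / θ + 1 := by rw [hT]; exact Nat.ceil_lt_add_one (div_pos hL0 hθ0).le
    have h2 : θ * T ≤ θ * (L / θ + 1) := mul_le_mul_of_nonneg_left this.le hθ0.le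
    have h3 : θ * (L / θ + 1) = L + θ := by field_simp
    rw [h3] at h2
    linarith
  have hαT : α ≤ (1 - lam * θ) ^ T := by
    have h2 : Real.exp (-(2 * (lam * θ))) ≤ 1 - lam * θ :=
      NUMA_exp _ (mul_nonneg hlam0.le hθ0.le) hlθ
    have h3 : Real.exp (-(2 * (lam * θ))) ^ T ≤ (1 - lam * θ) ^ T :=
      pow_le_pow_left₀ (Real.exp_pos _).le h2 T
    refine le_trans ?_ h3
    rw [← Real.exp_nat_mul, hα]
    apply Real.exp_le_exp.2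
    have : lam * (θ * T) ≤ lam * Λ := mul_le_mul_of_nonneg_left hTup hlam0.le
    nlinarith
  have hgE : (1 + C3 * θ ^ 2) ^ T ≤ Real.exp (C3 * Λ * θ) := by
    have h2 : 1 + C3 * θ ^ 2 ≤ Real.exp (C3 * θ ^ 2) := by
      have := Real.add_one_le_exp (C3 * θ ^ 2)
      linarith
    have h3 : (1 + C3 * θ ^ 2) ^ T ≤ Real.exp (C3 * θ ^ 2) ^ T :=
      pow_le_pow_left₀ (by positivity) h2 T
    refine h3.trans ?_
    rw [← Real.exp_nat_mul]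
    apply Real.exp_le_exp.2
    have : C3 * θ * (θ * T) ≤ C3 * θ * Λ := mul_le_mul_of_nonneg_left hTup (by positivity)
    nlinarith
  have hg2' : (1 + C3 * θ ^ 2) ^ T ≤ 2 := by
    refine hgE.trans ?_
    have h2 : Real.exp (C3 * Λ * θ) ≤ Real.exp (1 / 2) := Real.exp_le_exp.2 hg1
    refine h2.trans ?_
    have h3 : Real.exp (1 / 2) * Real.exp (1 / 2) = Real.exp 1 := by
      rw [← Real.exp_add]; norm_num
    have h4 := Real.exp_one_lt_d9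
    have h5 := Real.exp_pos (1 / 2 : ℝ)
    nlinarith
  have hgρ' : (1 + C3 * θ ^ 2) ^ T * ρ ≤ (1 + ρ) / 2 := by
    have h2 : Real.exp (C3 * Λ * θ) ≤ (1 + ρ) / (2 * ρ) := by
      have h3 := Real.exp_le_exp.2 hg2
      rwa [Real.exp_log (by positivity)] at h3
    have h3 : (1 + C3 * θ ^ 2) ^ T * ρ ≤ (1 + ρ) / (2 * ρ) * ρ :=
      mul_le_mul_of_nonneg_right (hgE.trans h2) h0.le
    have h4 : (1 + ρ) / (2 * ρ) * ρ = (1 + ρ) / 2 := by field_simp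
    rwa [h4] at h3
  have hDT : (1 - θ / 2) ^ T ≤ ε₁ := by
    have h2 : 1 - θ / 2 ≤ Real.exp (-(θ / 2)) := by
      have := Real.add_one_le_exp (-(θ / 2))
      linarith
    have h3 : (1 - θ / 2) ^ T ≤ Real.exp (-(θ / 2)) ^ T :=
      pow_le_pow_left₀ (by linarith) h2 T
    refine h3.trans ?_
    rw [← Real.exp_nat_mul]
    have h4 : Real.exp (-(Real.log (1 / ε₁))) = ε₁ := by
      rw [Real.exp_neg, Real.exp_log (by positivity)]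
      simp
    rw [← h4]
    apply Real.exp_le_exp.2
    nlinarith
  obtain ⟨c, hc0, hc1, hcA, hcT⟩ : ∃ c : ℝ, 1 / 2 ≤ c ∧ c < 1 ∧
      (1 - c) * (12 * (b + 1)) ≤ θ ^ 2 ∧ (1 - c) * (4 * T) ≤ 1 := by
    obtain ⟨μ, hμ⟩ : ∃ μ : ℝ, μ = min (1 / 2 : ℝ) (min (θ ^ 2 / (12 * (b + 1)))
      (1 / (4 * (T : ℝ)))) := ⟨_, rfl⟩
    have hμ1 : μ ≤ 1 / 2 := by rw [hμ]; exact min_le_left _ _
    have hμ2 : μ ≤ θ ^ 2 / (12 * (b + 1)) := by
      rw [hμ]; exact (min_le_right _ _).trans (min_le_left _ _)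
    have hμ3 : μ ≤ 1 / (4 * (T : ℝ)) := by
      rw [hμ]; exact (min_le_right _ _).trans (min_le_right _ _)
    have hμ0 : 0 < μ := by
      rw [hμ]
      exact lt_min (by norm_num) (lt_min (by positivity) (by positivity))
    refine ⟨1 - μ, by linarith, by linarith, ?_, ?_⟩
    · rw [sub_sub_cancel]
      calc μ * (12 * (b + 1)) ≤ θ ^ 2 / (12 * (b + 1)) * (12 * (b + 1)) :=
            mul_le_mul_of_nonneg_right hμ2 (by positivity)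
        _ = θ ^ 2 := by field_simp
    · rw [sub_sub_cancel]
      calc μ * (4 * (T : ℝ)) ≤ 1 / (4 * (T : ℝ)) * (4 * T) :=
            mul_le_mul_of_nonneg_right hμ3 (by positivity)
        _ = 1 := by field_simp
  obtain ⟨A, hA⟩ : ∃ A : ℝ, A = 2 * (θ / α) * (4 * T * (θ / α)) + 2 * (θ ^ 2 / α) := ⟨_, rfl⟩
  have hA0 : 0 < A := by rw [hA]; positivity
  obtain ⟨σ, hσ⟩ : ∃ σ : ℝ, σ = θ ^ 2 / A := ⟨_, rfl⟩
  have hσ0 : 0 < σ := by rw [hσ]; positivity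
  obtain ⟨n₀, hn1, hn2⟩ := tail_series (1 - θ ^ 2) σ (by nlinarith) (by nlinarith) hσ0
  have hεΛ : ε₁ * (1 + 8 * Λ) ≤ δs / 2 := by rw [hΛ, hL]; exact hε3
  exact ⟨{
    W := W
    b := b
    lam := lam
    Λ := Λ
    α := α
    ε₁ := ε₁
    θ := θ
    c := c
    σ := σ
    T := T
    n₀ := n₀
    ρ0 := h0
    ρ1 := h1
    hW := hW
    hb := hb
    hlam := hlam
    θ0 := hθ0
    θ4 := hθ4
    α0 := hα0
    α1 := hα1
    θα := hθα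
    lamθ := hlθ
    hα := hαT
    C4θ := hC4
    bθ := hbθ
    g2 := by rw [← hC3]; exact hg2'
    gρ := by rw [← hC3]; exact hgρ'
    nNθ := by rw [mul_comm]; exact hnN
    T1 := hT1
    hT := hTup
    Λ0 := hΛ0
    ε0 := hε0
    hDT := hDT
    c0 := hc0
    c1 := hc1
    cA := hcA
    cT := hcT
    n1 := hn1
    σ0 := hσ0
    hσ := hn2
    hζ := by
      have h2 : 2 * (θ / α) * (4 * T * (θ / α) * σ) + 2 * (θ ^ 2 / α) * σ = A * σ := by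
        rw [hA]; ring
      rw [h2, hσ]
      apply le_of_eq
      field_simp
    fin1 := by
      have : 16 * (W + 4) * Λ * θ ≤ δs / 2 := hf1
      linarith
    fin2 := by
      have h2 : (24 * (W + 4) + 56 * (W + 4) * Λ + 64 * (W + 4) * Λ ^ 2 / α) * θ =
        24 * (W + 4) * θ + 56 * (W + 4) * Λ * θ + 64 * (W + 4) * Λ ^ 2 * θ / α := by ring
      rw [h2] at hf2
      linarith }⟩

end Pool.Agent.H77.AC
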