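import Pool.Agent.H77.AC.Num

/-!
# AC-NUMB2: polynomial inequalities for large `β`, part 1

Each condition has the form `C₁ β^k ≤ C₂ K` with `k < e₀ = γ + 20 m + 100` and constants `C₁, C₂ > 0` depending on `C` only, after crude
estimates for `β ≥ 1`: `β^3 m + 1 ≤ (m+1) β^3`, `7 β^γ + 6 ≤ 13 β^γ`, `1 + β^γ ≤ 2 β^γ`.
-/

set_option autoImplicit false

open Finset
open scoped Classical

namespace Pool.Agent.H77.AC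

theorem poly_dom (C₁ C₂ : ℝ) (k e : ℕ) (hC₂ : 0 < C₂) (hk : k < e) :
    ∃ β₀ : ℕ, 1 ≤ β₀ ∧ ∀ β K : ℕ, β₀ ≤ β → β ^ e ≤ K → C₁ * (β : ℝ) ^ k ≤ C₂ * K := by
  refine ⟨max 1 ⌈|C₁| / C₂⌉₊, le_max_left _ _, ?_⟩
  intro β K hβ hK
  have h1 : 1 ≤ β := le_trans (le_max_left _ _) hβ
  have h2 : |C₁| / C₂ ≤ β := by
    refine (Nat.le_ceil _).trans ?_
    exact_mod_cast (le_trans (le_max_right _ _) hβ)
  have h3 : |C₁| ≤ C₂ * β := by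
    rw [div_le_iff₀ hC₂] at h2; linarith
  have hb1 : (1 : ℝ) ≤ β := by exact_mod_cast h1
  have h4 : (β : ℝ) ^ (k + 1) ≤ (β : ℝ) ^ e := pow_le_pow_right₀ hb1 hk
  have h5 : (β : ℝ) ^ e ≤ K := by exact_mod_cast hK
  calc C₁ * (β : ℝ) ^ k ≤ |C₁| * (β : ℝ) ^ k := by gcongr; exact le_abs_self _
    _ ≤ C₂ * β * (β : ℝ) ^ k := by gcongr
    _ = C₂ * (β : ℝ) ^ (k + 1) := by rw [pow_succ]; ring
    _ ≤ C₂ * (K : ℝ) := by gcongr; exact h4.trans h5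

theorem big_poly {ρ δs : ℝ} (C : Cn ρ δs) : ∃ β₀ : ℕ, ∀ β K : ℕ, β₀ ≤ β → β ^ C.e₀ ≤ K →
    (2 ≤ C.θ ^ 2 * (C.α * K)) ∧
    ((((C.m + 1 + β ^ 3 * C.m) * (7 * β ^ C.γ + 6) : ℕ) : ℝ) ≤ C.θ * (C.α * K)) ∧
    ((β : ℝ) ^ 3 ≤ C.θ ^ 2 * (ρ * (C.α * K))) ∧
    ((β : ℝ) ^ 3 * (1 + (β : ℝ) ^ C.γ) ≤ C.θ ^ 2 * (C.α * K) / 12) ∧
    (((β : ℝ) ^ 3 * C.m + 1) ^ C.m * (C.m + 1) * (β : ℝ) ^ C.γ ≤ C.θ ^ 2 * (C.α * K) / 12) ∧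
    ((((β : ℝ) ^ 3 * C.m + 1) ^ C.m + 3 * ((β : ℝ) ^ 3 * C.m)) * C.m * 2 ^ C.m *
      ((β : ℝ) ^ C.γ / K) * (2 / C.α) ^ C.m ≤ C.W / (4 * C.T)) ∧
    (2 * (β : ℝ) ^ 3 ≤ C.θ / 8 * ((1 - C.θ / 2) ^ C.T * K)) ∧
    (12 * (β : ℝ) ^ 3 + 8 * ((β : ℝ) ^ 3) ^ 2 ≤ C.θ ^ 2 * K) ∧
    (((β : ℝ) ^ 3 * C.m + 1) ^ C.m * C.m * (C.W + (C.m + 2) * (β : ℝ) ^ C.γ) ≤
      C.θ ^ 2 * K) := by
  have hθ := C.θ0
  have hθ4 := C.θ4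
  have hα := C.α0
  have hρ := C.ρ0
  have hW : 0 < C.W := by
    rw [C.hW]; apply div_pos (by norm_num); linarith [C.ρ1]
  have hT : (0 : ℝ) < C.T := by exact_mod_cast C.T1
  have hm1 : 1 ≤ C.m := by unfold Cn.m; omega
  have he : C.e₀ = C.γ + 20 * C.m + 100 := rfl
  rw [he]
  generalize C.m = m at hm1 ⊢
  generalize C.γ = γ
  have hp : (0 : ℝ) < (1 - C.θ / 2) ^ C.T := pow_pos (by linarith) _
  obtain ⟨e, hee, he1, he2, he3⟩ : ∃ e, e = γ + 20 * m + 100 ∧ 3 + γ < e ∧ 3 * m + γ < e ∧ 6 < e :=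
    ⟨_, rfl, by omega, by omega, by omega⟩
  rw [← hee]
  clear hee he
  obtain ⟨b1, hb1, h1⟩ := poly_dom 2 (C.θ ^ 2 * C.α) 0 e (by positivity) (by omega)
  obtain ⟨b2, hb2, h2⟩ := poly_dom (13 * (2 * m + 1)) (C.θ * C.α) (3 + γ) e
    (by positivity) (by omega)
  obtain ⟨b3, hb3, h3⟩ := poly_dom 1 (C.θ ^ 2 * ρ * C.α) 3 e
    (by positivity) (by omega)
  obtain ⟨b4, hb4, h4⟩ := poly_dom 2 (C.θ ^ 2 * C.α / 12) (3 + γ) e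
    (by positivity) (by omega)
  obtain ⟨b5, hb5, h5⟩ := poly_dom ((m + 1) ^ m * (m + 1)) (C.θ ^ 2 * C.α / 12) (3 * m + γ)
    e (by positivity) (by omega)
  obtain ⟨b6, hb6, h6⟩ := poly_dom (((m + 1) ^ m + 3 * m) * m * 2 ^ m * (2 / C.α) ^ m)
    (C.W / (4 * C.T)) (3 * m + γ) e (by positivity) (by omega)
  obtain ⟨b7, hb7, h7⟩ := poly_dom 2 (C.θ / 8 * (1 - C.θ / 2) ^ C.T) 3 e
    (by positivity) (by omega)
  obtain ⟨b8, hb8, h8⟩ := poly_dom 20 (C.θ ^ 2) 6 e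
    (by positivity) (by omega)
  obtain ⟨b9, hb9, h9⟩ := poly_dom ((m + 1) ^ m * m * (C.W + (m + 2))) (C.θ ^ 2) (3 * m + γ)
    e (by positivity) (by omega)
  refine ⟨b1 + b2 + b3 + b4 + b5 + b6 + b7 + b8 + b9, ?_⟩
  intro β K hβ hK
  specialize h1 β K (by omega) hK
  specialize h2 β K (by omega) hK
  specialize h3 β K (by omega) hK
  specialize h4 β K (by omega) hK
  specialize h5 β K (by omega) hK
  specialize h6 β K (by omega) hK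
  specialize h7 β K (by omega) hK
  specialize h8 β K (by omega) hK
  specialize h9 β K (by omega) hK
  have hβ1 : 1 ≤ β := by omega
  have hβr : (1 : ℝ) ≤ β := by exact_mod_cast hβ1
  have hK1 : 1 ≤ K := le_trans (Nat.one_le_pow _ _ hβ1) hK
  have hKr : (0 : ℝ) < K := by exact_mod_cast hK1
  have hx1 : (1 : ℝ) ≤ (β : ℝ) ^ 3 := one_le_pow₀ hβr
  have hg1 : (1 : ℝ) ≤ (β : ℝ) ^ γ := one_le_pow₀ hβr
  have hmr : (1 : ℝ) ≤ m := by exact_mod_cast hm1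
  have hpow : (β : ℝ) ^ (3 + γ) = (β : ℝ) ^ 3 * (β : ℝ) ^ γ := pow_add _ _ _
  have hpow2 : (β : ℝ) ^ (3 * m + γ) = ((β : ℝ) ^ 3) ^ m * (β : ℝ) ^ γ := by
    rw [pow_add, pow_mul]
  have hq : ((β : ℝ) ^ 3 * m + 1) ^ m ≤ (m + 1) ^ m * ((β : ℝ) ^ 3) ^ m := by
    rw [← mul_pow]
    apply pow_le_pow_left₀ (by positivity)
    nlinarith
  have hxm : (β : ℝ) ^ 3 ≤ ((β : ℝ) ^ 3) ^ m := le_self_pow₀ hx1 (by omega)
  have h6pow : (β : ℝ) ^ 6 = ((β : ℝ) ^ 3) ^ 2 := by rw [← pow_mul]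
  rw [hpow] at h2 h4
  rw [hpow2] at h5 h6 h9
  rw [h6pow] at h8
  clear hK
  generalize hG : (β : ℝ) ^ γ = G at *
  refine ⟨?_, ?_, ?_, ?_, ?_, ?_, ?_, ?_, ?_⟩
  · simpa [mul_assoc] using h1
  · have e1 : (((m + 1 + β ^ 3 * m) * (7 * β ^ γ + 6) : ℕ) : ℝ) =
      ((m : ℝ) + 1 + (β : ℝ) ^ 3 * m) * (7 * (β : ℝ) ^ γ + 6) := by push_cast; ring
    rw [e1, hG]
    have e2 : ((m : ℝ) + 1 + (β : ℝ) ^ 3 * m) * (7 * G + 6) ≤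
        ((2 * m + 1) * (β : ℝ) ^ 3) * (13 * G) := by
      apply mul_le_mul
      · nlinarith
      · linarith
      · positivity
      · positivity
    linarith
  · linarith
  · have : (β : ℝ) ^ 3 * (1 + G) ≤ (β : ℝ) ^ 3 * (2 * G) := by gcongr; linarith
    linarith
  · calc ((β : ℝ) ^ 3 * m + 1) ^ m * (m + 1) * G ≤
        ((m + 1) ^ m * ((β : ℝ) ^ 3) ^ m) * (m + 1) * G := by gcongr
      _ = (m + 1) ^ m * (m + 1) * (((β : ℝ) ^ 3) ^ m * G) := by ring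
      _ ≤ C.θ ^ 2 * C.α / 12 * K := h5
      _ = _ := by ring
  · have e1 : ((β : ℝ) ^ 3 * m + 1) ^ m + 3 * ((β : ℝ) ^ 3 * m) ≤
        ((m + 1) ^ m + 3 * m) * ((β : ℝ) ^ 3) ^ m := by
      have : 3 * ((β : ℝ) ^ 3 * m) ≤ 3 * (((β : ℝ) ^ 3) ^ m * m) := by gcongr
      linarith
    calc (((β : ℝ) ^ 3 * m + 1) ^ m + 3 * ((β : ℝ) ^ 3 * m)) * m * 2 ^ m * (G / K) *
          (2 / C.α) ^ m
        ≤ (((m + 1) ^ m + 3 * m) * ((β : ℝ) ^ 3) ^ m) * m * 2 ^ m * (G / K) *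
          (2 / C.α) ^ m := by gcongr
      _ = (((m + 1) ^ m + 3 * m) * m * 2 ^ m * (2 / C.α) ^ m) * (((β : ℝ) ^ 3) ^ m * G) / K := by
          ring
      _ ≤ C.W / (4 * C.T) * K / K := by gcongr
      _ = _ := by field_simp
  · linarith
  · have : (β : ℝ) ^ 3 ≤ ((β : ℝ) ^ 3) ^ 2 := le_self_pow₀ hx1 (by norm_num)
    linarith
  · calc ((β : ℝ) ^ 3 * m + 1) ^ m * m * (C.W + (m + 2) * G) ≤
        ((m + 1) ^ m * ((β : ℝ) ^ 3) ^ m) * m * (C.W * G + (m + 2) * G) := by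
          gcongr
          nlinarith
      _ = (m + 1) ^ m * m * (C.W + (m + 2)) * (((β : ℝ) ^ 3) ^ m * G) := by ring
      _ ≤ C.θ ^ 2 * K := h9

end Pool.Agent.H77.AC
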