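import Pool.Agent.H77.AC.Num

/-!
# AC-NUMC: bounds for the parameter sequences

`C : Cn ρ δs`, `H : C.Big Γ₀ K β`. Write `a = aq K t`, `a' = aq K (t+1)`, `B = ⌈b a⌉₊`, so `b a ≤ B ≤ b a + 1`.

* `aq_lower`: `α K ≤ K (1 - lam θ)^t ≤ aq K t` for `t ≤ T`, by induction: `a' ≥ a - θ B - a θ² (W+1) - 1 ≥
  a (1 - θ b - θ² (W+1)) - θ - 1 ≥ a (1 - lam θ)` because `a θ (W + 2 - θ (W+1)) ≥ a θ ≥ a θ² ≥ 2 ≥ 1 + θ`
  (`k1`, `θ ≤ 1/4`, `W ≥ 0`).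
-/

set_option autoImplicit false

open Finset
open scoped Classical

namespace Pool.Agent.H77.AC

variable {ρ δs : ℝ} {Γ₀ K β : ℕ}

theorem W_pos (C : Cn ρ δs) : 0 < C.W := by
  rw [C.hW]
  have := C.ρ1
  apply div_pos (by norm_num)
  linarith

theorem b_pos (C : Cn ρ δs) : 0 < C.b := by
  rw [C.hb]
  linarith [W_pos C]

theorem aq_succ (C : Cn ρ δs) (K t : ℕ) : C.aq K (t + 1) =
    ⌊(C.aq K t : ℝ) - C.θ * (⌈C.b * (C.aq K t : ℝ)⌉₊ : ℝ) -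
      (C.aq K t : ℝ) * (C.θ ^ 2 * (C.W + 1))⌋₊ := rfl

/-- one step, given `a θ² ≥ 2` -/
theorem aq_step (C : Cn ρ δs) (K t : ℕ) (h : 2 ≤ C.θ ^ 2 * (C.aq K t : ℝ)) :
    (C.aq K (t + 1) : ℝ) ≤ (C.aq K t : ℝ) - C.θ * (⌈C.b * (C.aq K t : ℝ)⌉₊ : ℝ) -
      (C.aq K t : ℝ) * (C.θ ^ 2 * (C.W + 1)) ∧
    (C.aq K t : ℝ) * (1 - C.θ * C.b - C.θ ^ 2 * (C.W + 2)) ≤ (C.aq K (t + 1) : ℝ) ∧
    (C.aq K t : ℝ) * (1 - C.lam * C.θ) ≤ (C.aq K (t + 1) : ℝ) := by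
  have hθ := C.θ0
  have hθ4 := C.θ4
  have hW := W_pos C
  have hb := b_pos C
  have hlam := C.hlam
  have hlθ := C.lamθ
  have ha0 : (0 : ℝ) ≤ (C.aq K t : ℝ) := Nat.cast_nonneg _
  rw [aq_succ]
  generalize (C.aq K t : ℝ) = a at h ha0 ⊢
  have hB := (Nat.ceil_lt_add_one (mul_nonneg hb.le ha0)).le
  generalize (⌈C.b * a⌉₊ : ℝ) = B at hB ⊢
  have h1 : a * (1 - C.θ * C.b - C.θ ^ 2 * (C.W + 1)) - C.θ ≤
      a - C.θ * B - a * (C.θ ^ 2 * (C.W + 1)) := by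
    nlinarith
  have h2 : a * (1 - C.lam * C.θ) ≤ a * (1 - C.θ * C.b - C.θ ^ 2 * (C.W + 2)) := by
    apply mul_le_mul_of_nonneg_left _ ha0
    rw [hlam]
    nlinarith [mul_nonneg (mul_nonneg hθ.le (by linarith : 0 ≤ C.W + 2)) (by linarith : 0 ≤ 1 - C.θ)]
  have h3 : a * (1 - C.θ * C.b - C.θ ^ 2 * (C.W + 2)) + 2 ≤
      a * (1 - C.θ * C.b - C.θ ^ 2 * (C.W + 1)) := by
    nlinarith
  have h4 : 0 ≤ a * (1 - C.lam * C.θ) := mul_nonneg ha0 (by linarith)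
  have h5 : 0 ≤ a - C.θ * B - a * (C.θ ^ 2 * (C.W + 1)) := by linarith
  have h6 := Nat.floor_le h5
  have h7 := Nat.lt_floor_add_one (a - C.θ * B - a * (C.θ ^ 2 * (C.W + 1)))
  refine ⟨h6, ?_, ?_⟩ <;> linarith

theorem aq_lower_pow (C : Cn ρ δs) (H : C.Big Γ₀ K β) (t : ℕ) (ht : t ≤ C.T) :
    (K : ℝ) * (1 - C.lam * C.θ) ^ t ≤ (C.aq K t : ℝ) ∧ C.α * K ≤ (C.aq K t : ℝ) := by
  have hθ := C.θ0
  have hlam : 0 < C.lam := by rw [C.hlam]; linarith [W_pos C, b_pos C]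
  have hlθ := C.lamθ
  have hK : (0 : ℝ) < K := by exact_mod_cast H.K1
  have key : ∀ t ≤ C.T, C.α * K ≤ (K : ℝ) * (1 - C.lam * C.θ) ^ t := by
    intro t ht
    have h1 : (1 - C.lam * C.θ) ^ C.T ≤ (1 - C.lam * C.θ) ^ t :=
      pow_le_pow_of_le_one (by linarith) (by nlinarith [mul_pos hlam hθ]) ht
    have h2 := C.hα
    calc C.α * K ≤ (1 - C.lam * C.θ) ^ t * K := by gcongr; linarith
      _ = _ := mul_comm _ _
  suffices h : (K : ℝ) * (1 - C.lam * C.θ) ^ t ≤ (C.aq K t : ℝ) from ⟨h, (key t ht).trans h⟩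
  induction t with
  | zero => simp [Cn.aq]
  | succ t ih =>
    have h1 := ih (by omega)
    have h2 : C.α * K ≤ (C.aq K t : ℝ) := (key t (by omega)).trans h1
    have h3 : 2 ≤ C.θ ^ 2 * (C.aq K t : ℝ) := by
      refine H.k1.trans ?_
      gcongr
    obtain ⟨-, -, h4⟩ := aq_step C K t h3
    refine le_trans ?_ h4
    rw [pow_succ, ← mul_assoc]
    apply mul_le_mul_of_nonneg_right h1
    linarith

theorem aq_lower (C : Cn ρ δs) (H : C.Big Γ₀ K β) (t : ℕ) (ht : t ≤ C.T) :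
    C.α * K ≤ (C.aq K t : ℝ) := (aq_lower_pow C H t ht).2

theorem aq_two (C : Cn ρ δs) (H : C.Big Γ₀ K β) (t : ℕ) (ht : t ≤ C.T) :
    2 ≤ C.θ ^ 2 * (C.aq K t : ℝ) := by
  refine H.k1.trans ?_
  apply mul_le_mul_of_nonneg_left (aq_lower C H t ht)
  positivity

theorem aq_upper (C : Cn ρ δs) (H : C.Big Γ₀ K β) (t : ℕ) (ht : t < C.T) :
    (C.aq K (t + 1) : ℝ) ≤ (C.aq K t : ℝ) - C.θ * (⌈C.b * (C.aq K t : ℝ)⌉₊ : ℝ) -
      (C.aq K t : ℝ) * (C.θ ^ 2 * (C.W + 1)) := (aq_step C K t (aq_two C H t ht.le)).1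

theorem aq_le (C : Cn ρ δs) (H : C.Big Γ₀ K β) (t : ℕ) (ht : t < C.T) :
    C.aq K (t + 1) ≤ C.aq K t := by
  have h1 := aq_upper C H t ht
  have hθ := C.θ0
  have hW := W_pos C
  have h2 : 0 ≤ C.θ * (⌈C.b * (C.aq K t : ℝ)⌉₊ : ℝ) := by positivity
  have h3 : 0 ≤ (C.aq K t : ℝ) * (C.θ ^ 2 * (C.W + 1)) := by positivity
  have : (C.aq K (t + 1) : ℝ) ≤ (C.aq K t : ℝ) := by linarith
  exact_mod_cast this

theorem aq_le_K (C : Cn ρ δs) (H : C.Big Γ₀ K β) (t : ℕ) (ht : t ≤ C.T) : C.aq K t ≤ K := by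
  induction t with
  | zero => exact le_of_eq rfl
  | succ t ih => exact (aq_le C H t ht).trans (ih (by omega))

theorem aq_lower2 (C : Cn ρ δs) (H : C.Big Γ₀ K β) (t : ℕ) (ht : t < C.T) :
    (C.aq K t : ℝ) * (1 - C.θ * C.b - C.θ ^ 2 * (C.W + 2)) ≤ (C.aq K (t + 1) : ℝ) :=
  (aq_step C K t (aq_two C H t ht.le)).2.1

theorem tau_pos (C : Cn ρ δs) : 0 < C.τ := by
  unfold Cn.τ
  have := W_pos C
  have := C.θ0
  positivity

theorem jq_lower (C : Cn ρ δs) (t : ℕ) : (1 - C.θ / 2) ^ t * (K : ℝ) ≤ C.jq K t := by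
  have hθ := C.θ0
  have hθ4 := C.θ4
  have hτ := tau_pos C
  induction t with
  | zero => simp [Cn.jq]
  | succ t ih =>
    have e : C.jq K (t + 1) = (1 - C.θ / 2) * C.jq K t + 4 * C.θ * ((1 - C.θ / 2) ^ t * K) +
      3 * (C.τ * K) := rfl
    rw [e]
    have h1 : (1 - C.θ / 2) * ((1 - C.θ / 2) ^ t * (K : ℝ)) ≤ (1 - C.θ / 2) * C.jq K t :=
      mul_le_mul_of_nonneg_left ih (by linarith)
    have h2 : 0 ≤ 4 * C.θ * ((1 - C.θ / 2) ^ t * (K : ℝ)) := by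
      have : (0 : ℝ) ≤ (1 - C.θ / 2) ^ t := pow_nonneg (by linarith) t
      positivity
    have h3 : 0 ≤ 3 * (C.τ * (K : ℝ)) := by positivity
    have h4 : (1 - C.θ / 2) ^ (t + 1) * (K : ℝ) = (1 - C.θ / 2) * ((1 - C.θ / 2) ^ t * (K : ℝ)) := by
      rw [pow_succ]; ring
    rw [h4]
    linarith

theorem Mq_nonneg (C : Cn ρ δs) (t : ℕ) : 0 ≤ C.Mq K t := by
  have hθ := C.θ0
  have hτ := tau_pos C
  induction t with
  | zero => simp [Cn.Mq]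
  | succ t ih =>
    have e : C.Mq K (t + 1) = C.Mq K t + 14 * (C.τ * K) +
      4 * (K * (C.θ / (C.aq K t : ℝ)) * (4 * t * (C.τ * K))) := rfl
    rw [e]
    have h2 : 0 ≤ 4 * (K * (C.θ / (C.aq K t : ℝ)) * (4 * t * (C.τ * K))) := by positivity
    have h3 : 0 ≤ 14 * (C.τ * (K : ℝ)) := by positivity
    linarith

theorem base_ge_one (C : Cn ρ δs) : 1 ≤ 1 + (C.W + 4 + C.lam ^ 2) * C.θ ^ 2 := by
  have := W_pos C
  have : 0 ≤ (C.W + 4 + C.lam ^ 2) * C.θ ^ 2 := by positivity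
  linarith

theorem g_ge (C : Cn ρ δs) (t : ℕ) : 1 ≤ (C.Pq K β t).g :=
  one_le_pow₀ (base_ge_one C)

theorem g_le2 (C : Cn ρ δs) (t : ℕ) : (C.Pq K β t).g ≤ 2 :=
  (pow_le_pow_right₀ (base_ge_one C) (Nat.sub_le _ _)).trans C.g2

theorem g_succ (C : Cn ρ δs) (t : ℕ) (ht : t < C.T) :
    (C.Pq K β t).g = (C.Pq K β (t + 1)).g * (1 + (C.W + 4 + C.lam ^ 2) * C.θ ^ 2) := by
  change (1 + (C.W + 4 + C.lam ^ 2) * C.θ ^ 2) ^ (C.T - t) =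
    (1 + (C.W + 4 + C.lam ^ 2) * C.θ ^ 2) ^ (C.T - (t + 1)) * _
  rw [← pow_succ]
  congr 1
  omega

theorem w_le (C : Cn ρ δs) (t : ℕ) (ht : t ≤ C.T) :
    0 < (C.Pq K β t).w ∧ (C.Pq K β t).w ≤ C.W := by
  have hW := W_pos C
  have hT : (0 : ℝ) < C.T := by exact_mod_cast C.T1
  have htT : (t : ℝ) / C.T ≤ 1 := by
    rw [div_le_one hT]; exact_mod_cast ht
  have ht0 : 0 ≤ (t : ℝ) / C.T := by positivity
  change 0 < C.W / 2 * (1 + (t : ℝ) / C.T) ∧ C.W / 2 * (1 + (t : ℝ) / C.T) ≤ C.W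
  constructor
  · positivity
  · nlinarith

theorem tau_T (C : Cn ρ δs) : C.τ * C.T ≤ 4 * (C.W + 4) * C.Λ * C.θ := by
  have hW := W_pos C
  have hθ := C.θ0
  have e : C.τ * C.T = 4 * (C.W + 4) * C.θ * (C.θ * C.T) := by unfold Cn.τ; ring
  rw [e]
  calc 4 * (C.W + 4) * C.θ * (C.θ * C.T) ≤ 4 * (C.W + 4) * C.θ * C.Λ := by
        gcongr
        exact C.hT
    _ = _ := by ring

theorem fin_D (C : Cn ρ δs) (H : C.Big Γ₀ K β) :
    (C.Pq K β C.T).D + (C.Pq K β C.T).f ≤ δs * K := by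
  have hK : (0 : ℝ) < K := by exact_mod_cast H.K1
  change (1 - C.θ / 2) ^ C.T * (K : ℝ) + 4 * (C.T : ℝ) * (C.τ * K) ≤ δs * K
  have h1 := C.hDT
  have h2 := tau_T C
  have h3 := C.fin1
  have h4 : (1 - C.θ / 2) ^ C.T + 4 * (C.τ * C.T) ≤ δs := by linarith
  calc (1 - C.θ / 2) ^ C.T * (K : ℝ) + 4 * (C.T : ℝ) * (C.τ * K)
      = ((1 - C.θ / 2) ^ C.T + 4 * (C.τ * C.T)) * K := by ring
    _ ≤ δs * K := mul_le_mul_of_nonneg_right h4 hK.le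

theorem jq_upper (C : Cn ρ δs) (t : ℕ) :
    C.jq K t ≤ (1 - C.θ / 2) ^ t * K * (1 + 8 * C.θ * t) + 6 * (C.τ / C.θ) * K := by
  have hθ := C.θ0
  have hθ4 := C.θ4
  have hτ := tau_pos C
  induction t with
  | zero =>
    have : C.jq K 0 = K := rfl
    rw [this]
    have : 0 ≤ 6 * (C.τ / C.θ) * (K : ℝ) := by positivity
    simp
    linarith
  | succ t ih =>
    have e : C.jq K (t + 1) = (1 - C.θ / 2) * C.jq K t + 4 * C.θ * ((1 - C.θ / 2) ^ t * K) +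
      3 * (C.τ * K) := rfl
    rw [e]
    have h1 := mul_le_mul_of_nonneg_left ih (by linarith : 0 ≤ 1 - C.θ / 2)
    have h0 : (0 : ℝ) ≤ (1 - C.θ / 2) ^ t * K := by
      have : (0 : ℝ) ≤ (1 - C.θ / 2) ^ t := pow_nonneg (by linarith) t
      positivity
    have h4 : (1 - C.θ / 2) ^ (t + 1) * (K : ℝ) = (1 - C.θ / 2) * ((1 - C.θ / 2) ^ t * (K : ℝ)) := by
      rw [pow_succ]; ring
    rw [h4]
    generalize (1 - C.θ / 2) ^ t * (K : ℝ) = X at h0 h1 ⊢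
    have h5 : 4 * C.θ * X ≤ 8 * C.θ * ((1 - C.θ / 2) * X) := by
      have : 0 ≤ C.θ * X := mul_nonneg hθ.le h0
      nlinarith
    have h6 : C.θ / 2 * (6 * (C.τ / C.θ) * K) = 3 * (C.τ * K) := by
      field_simp; ring
    push_cast
    nlinarith

theorem Mq_upper (C : Cn ρ δs) (H : C.Big Γ₀ K β) (t : ℕ) (ht : t ≤ C.T) :
    C.Mq K t ≤ t * (14 * (C.τ * K) + 16 * (C.θ / C.α) * C.T * (C.τ * K)) := by
  have hθ := C.θ0
  have hα := C.α0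
  have hτ := tau_pos C
  have hK : (0 : ℝ) < K := by exact_mod_cast H.K1
  induction t with
  | zero =>
    have : C.Mq K 0 = 0 := rfl
    rw [this]; simp
  | succ t ih =>
    have e : C.Mq K (t + 1) = C.Mq K t + 14 * (C.τ * K) +
      4 * (K * (C.θ / (C.aq K t : ℝ)) * (4 * t * (C.τ * K))) := rfl
    rw [e]
    have h1 := ih (by omega)
    have h2 := aq_lower C H t (by omega)
    have ha : 0 < (C.aq K t : ℝ) := lt_of_lt_of_le (mul_pos hα hK) h2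
    have hr : (K : ℝ) / (C.aq K t : ℝ) ≤ 1 / C.α := by
      rw [div_le_div_iff₀ ha hα]; linarith
    have htT : (t : ℝ) ≤ C.T := by exact_mod_cast (by omega : t ≤ C.T)
    have h3 : 4 * (K * (C.θ / (C.aq K t : ℝ)) * (4 * t * (C.τ * K))) ≤
        16 * (C.θ / C.α) * C.T * (C.τ * K) := by
      calc 4 * (K * (C.θ / (C.aq K t : ℝ)) * (4 * t * (C.τ * K)))
          = 16 * (C.θ * (K / (C.aq K t : ℝ))) * t * (C.τ * K) := by ring
        _ ≤ 16 * (C.θ * (1 / C.α)) * C.T * (C.τ * K) := by gcongr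
        _ = _ := by ring
    push_cast
    nlinarith

theorem fin_j (C : Cn ρ δs) (H : C.Big Γ₀ K β) :
    (C.Pq K β C.T).j + (C.Pq K β C.T).M ≤ δs * K := by
  have hθ := C.θ0
  have hθ4 := C.θ4
  have hα := C.α0
  have hW := W_pos C
  have hK : (0 : ℝ) < K := by exact_mod_cast H.K1
  change C.jq K C.T + C.Mq K C.T ≤ δs * K
  have h1 := jq_upper (K := K) C C.T
  have h2 := Mq_upper C H C.T le_rfl
  have h3 := C.hDT
  have h4 := tau_T C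
  have h5 := C.hT
  have hΛ := C.Λ0
  have hε := C.ε0
  have hp : (0 : ℝ) ≤ (1 - C.θ / 2) ^ C.T := pow_nonneg (by linarith) _
  have e1 : (1 - C.θ / 2) ^ C.T * K * (1 + 8 * C.θ * C.T) ≤ C.ε₁ * (1 + 8 * C.Λ) * K := by
    calc (1 - C.θ / 2) ^ C.T * K * (1 + 8 * C.θ * C.T)
        = (1 - C.θ / 2) ^ C.T * (1 + 8 * (C.θ * C.T)) * K := by ring
      _ ≤ C.ε₁ * (1 + 8 * C.Λ) * K := by gcongr
  have e2 : 6 * (C.τ / C.θ) = 24 * (C.W + 4) * C.θ := by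
    unfold Cn.τ
    field_simp
    ring
  rw [e2] at h1
  have e3 : (C.T : ℝ) * (14 * (C.τ * K) + 16 * (C.θ / C.α) * C.T * (C.τ * K)) ≤
      (56 * (C.W + 4) * C.Λ * C.θ + 64 * (C.W + 4) * C.Λ ^ 2 * C.θ / C.α) * K := by
    have h6 : (C.T : ℝ) * (14 * (C.τ * K) + 16 * (C.θ / C.α) * C.T * (C.τ * K)) =
        (14 * (C.τ * C.T) + 16 * ((C.θ * C.T) * (C.τ * C.T)) / C.α) * K := by
      field_simp
    rw [h6]
    apply mul_le_mul_of_nonneg_right _ hK.le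
    have h7 : (C.θ * C.T) * (C.τ * C.T) ≤ C.Λ * (4 * (C.W + 4) * C.Λ * C.θ) := by
      have : 0 ≤ C.τ * C.T := mul_nonneg (tau_pos C).le (Nat.cast_nonneg _)
      gcongr
    have h8 : 16 * ((C.θ * C.T) * (C.τ * C.T)) / C.α ≤
        16 * (C.Λ * (4 * (C.W + 4) * C.Λ * C.θ)) / C.α := by gcongr
    have h9 : 16 * (C.Λ * (4 * (C.W + 4) * C.Λ * C.θ)) / C.α =
      64 * (C.W + 4) * C.Λ ^ 2 * C.θ / C.α := by ring
    linarith
  have h10 := mul_le_mul_of_nonneg_right C.fin2 hK.le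
  nlinarith

theorem geo_le (y : ℝ) (h0 : 0 ≤ y) (h1 : y < 1) (n : ℕ) : ∑ i ∈ range n, y ^ i ≤ 1 / (1 - y) := by
  have h2 : 0 < 1 - y := by linarith
  rw [le_div_iff₀ h2]
  have h3 := geom_sum_mul_neg y n
  rw [h3]
  linarith [pow_nonneg h0 n]

theorem base_w (C : Cn ρ δs) :
    ∑ n ∈ range C.n₀, (C.Pq K β 0).g * ((C.Pq K β 0).g * ρ) ^ (2 * n + 2) ≤
      (C.Pq K β 0).w := by
  have hρ := C.ρ0
  have hρ1 := C.ρ1
  have hg1 := g_ge (K := K) (β := β) C 0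
  have hg2 := g_le2 (K := K) (β := β) C 0
  have hgρ : (C.Pq K β 0).g * ρ ≤ (1 + ρ) / 2 := by
    have := C.gρ
    simpa [Cn.Pq] using this
  have hw : (C.Pq K β 0).w = 4 / (1 - ρ) := by
    have e : (C.Pq K β 0).w = C.W / 2 * (1 + ((0 : ℕ) : ℝ) / C.T) := rfl
    rw [e, C.hW]
    have : (1 - ρ) ≠ 0 := by linarith
    simp
    field_simp
    norm_num
  rw [hw]
  generalize (C.Pq K β 0).g = g at hg1 hg2 hgρ ⊢
  have hy0 : 0 ≤ g * ρ := by positivity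
  have hy1 : (1 + ρ) / 2 < 1 := by linarith
  have h1 : ∀ n : ℕ, g * (g * ρ) ^ (2 * n + 2) ≤ 2 * ((1 + ρ) / 2) ^ n := by
    intro n
    have h2 : (g * ρ) ^ (2 * n + 2) ≤ ((1 + ρ) / 2) ^ (2 * n + 2) :=
      pow_le_pow_left₀ hy0 hgρ _
    have h3 : ((1 + ρ) / 2) ^ (2 * n + 2) ≤ ((1 + ρ) / 2) ^ n :=
      pow_le_pow_of_le_one (by linarith) hy1.le (by omega)
    calc g * (g * ρ) ^ (2 * n + 2) ≤ 2 * (g * ρ) ^ (2 * n + 2) := by gcongr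
      _ ≤ 2 * ((1 + ρ) / 2) ^ n := by linarith
  calc ∑ n ∈ range C.n₀, g * (g * ρ) ^ (2 * n + 2)
      ≤ ∑ n ∈ range C.n₀, 2 * ((1 + ρ) / 2) ^ n := sum_le_sum (fun n _ => h1 n)
    _ = 2 * ∑ n ∈ range C.n₀, ((1 + ρ) / 2) ^ n := by rw [mul_sum]
    _ ≤ 2 * (1 / (1 - (1 + ρ) / 2)) := by
        have := geo_le ((1 + ρ) / 2) (by linarith) hy1 C.n₀
        linarith
    _ = 4 / (1 - ρ) := by
        have h3 : (1 - ρ) ≠ 0 := by linarith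
        have h4 : 1 - (1 + ρ) / 2 = (1 - ρ) / 2 := by ring
        rw [h4]
        field_simp
        norm_num

end Pool.Agent.H77.AC
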