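import Pool.Agent.H77.AC.Loc0

/-!
# AC-OKA: the families of kA, kB, kC (1, 2, 3)

Use `ok_mk` with `R = r₀ + 4 (2 n₀ + 2)`, `M = Mloc K n₀ r₀` (`Mloc1`, `Mloc2`), `hp = pr_mem F.hyp`,
`Δ`, `hΔ = F.deg`. The bound of the conditional expectation is the statement `*_bdd` of the module of
the statistic, the inequality `μ ≤ c * lam` is the corresponding field of `F.step : Step ..`.

* Index: an active edge `e`; `cen = endp e`; at most `Δ ≤ K` active edges have a given end (`GInv.U_E`, `F.deg`): `Mc = K ≤ K² (K+1)^R`.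
* Supports: picks of `y ∈ conf x`, `x ∈ own e` (`nbh_ball`), coins of `x ∈ own e`, picks of elements of short sets through `x` (`C_ball`); all on edges of `G`
  (live pairs are on active edges, `L_U`, `U_E`), `e` itself is an edge, `own e` consists of pairs on `e`.
* `kA`: `μ = θ/a ∑ |conf x| + s (1 + Γ) ≤ c (θ/a ∑ |conf x| + θ² a/3)`: `(1-c) θ/a ∑ |conf x| ≤ (1-c) θ B` since `own e` has
  `a` elements, `|conf x| ≤ B` (`conf_card_le`); field `nA`. `kB`: the same (`θ/a ∑ (B - |conf x|) ≤ θ B`, `s ≤ s (1+Γ)`). `kC`: field `nC`.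
-/

set_option autoImplicit false

open Finset
open scoped Classical

namespace Pool.Agent.H77.AC

variable {V : Type} [Fintype V] [DecidableEq V] {K : ℕ}
variable {G : SimpleGraph V} {n₀ r₀ s Δ : ℕ} {ρ θ δ c τ : ℝ} {P P' : RP}
  {st : St (PX V K) (Sym2 V)}

theorem oka_cnt (F : Full G n₀ r₀ s Δ ρ θ δ c τ P P' st) (v : V) :
    (univ.filter (fun e : {e : Sym2 V // e ∈ st.U} => endp e.1 = v)).card ≤ K := by
  have h1 : (univ.filter (fun e : {e : Sym2 V // e ∈ st.U} => endp e.1 = v)).card ≤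
      ((univ.filter (fun u => G.Adj v u)).image (fun u => s(v, u))).card := by
    refine card_le_card_of_injOn (fun e => e.1) ?_ ?_
    · intro e he
      have he' := (mem_filter.1 (mem_coe.1 he)).2
      have hU := F.ginv.U_E e.1 e.2
      have hm : v ∈ e.1 := by
        rw [← he']
        exact endp_mem e.1
      obtain ⟨w, hw⟩ := Sym2.mem_iff_exists.1 hm
      rw [mem_coe, mem_image]
      refine ⟨w, ?_, hw.symm⟩
      rw [mem_filter]
      refine ⟨mem_univ _, ?_⟩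
      rw [hw, SimpleGraph.mem_edgeSet] at hU
      exact hU
    · intro e _ e' _ hee
      exact Subtype.ext hee
  exact h1.trans (card_image_le.trans ((F.deg v).trans F.ΔK))

theorem oka_Mc (F : Full G n₀ r₀ s Δ ρ θ δ c τ P P' st) :
    K ≤ K ^ 2 * (K + 1) ^ (r₀ + 4 * (2 * n₀ + 2)) := by
  have hK := F.step.K0
  have h1 : 1 ≤ (K + 1) ^ (r₀ + 4 * (2 * n₀ + 2)) := Nat.one_le_pow _ _ (by omega)
  calc K ≤ K ^ 2 * 1 := by nlinarith
    _ ≤ K ^ 2 * (K + 1) ^ (r₀ + 4 * (2 * n₀ + 2)) := Nat.mul_le_mul_left _ h1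

theorem oka_live (F : Full G n₀ r₀ s Δ ρ θ δ c τ P P' st) {x : PX V K} (hx : x ∈ st.L) :
    x.1 ∈ G.edgeSet := F.ginv.U_E _ (F.inv.L_U x hx)

theorem oka_supp {I : Type} [Fintype I] [DecidableEq I] (X : Stat I) (W : Finset I)
    (h : ∀ i, X.w i ≠ 0 → ∀ v, v ∈ X.D i ∪ X.C i → v ∈ W) : X.supp ⊆ W := by
  intro v hv
  unfold Stat.supp at hv
  rw [mem_biUnion] at hv
  obtain ⟨i, hi, hv⟩ := hv
  rw [mem_filter] at hi
  exact h i hi.2 v hv

theorem oka_bvar {R : ℕ} {u : V} {t : Fin 3} {y : PX V K} (hy : y.1 ∈ G.edgeSet) {w : V}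
    (hw : w ∈ y.1) (hb : w ∈ ballG G R u) : ((t, y) : Fin 3 × PX V K) ∈ bvar G K R u := by
  unfold bvar
  rw [mem_filter]
  exact ⟨mem_univ _, hy, w, hw, hb⟩

theorem oka_sum (F : Full G n₀ r₀ s Δ ρ θ δ c τ P P' st) (e : Sym2 V) (he : e ∈ st.U)
    (t : PX V K → ℝ) (ht : ∀ x ∈ own (gS G K n₀) st e, t x ≤ P.B) :
    θ / P.a * ∑ x ∈ own (gS G K n₀) st e, t x ≤ θ * P.B := by
  have ha0 : (0 : ℝ) < P.a := by exact_mod_cast F.step.a0
  have h1 : ∑ x ∈ own (gS G K n₀) st e, t x ≤ P.a * P.B := by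
    refine (sum_le_sum ht).trans ?_
    rw [sum_const, F.inv.list e he, nsmul_eq_mul]
  have h2 : 0 ≤ θ / P.a := div_nonneg F.step.θ0.le ha0.le
  refine (mul_le_mul_of_nonneg_left h1 h2).trans (le_of_eq ?_)
  field_simp

theorem oka_conf (F : Full G n₀ r₀ s Δ ρ θ δ c τ P P' st) (e : Sym2 V)
    (x : PX V K) (hx : x ∈ own (gS G K n₀) st e) :
    ((conf (gS G K n₀) st x).card : ℝ) ≤ P.B := by
  unfold own at hx
  exact_mod_cast conf_card_le F.hyp x (mem_filter.1 hx).1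

theorem oka_pos (F : Full G n₀ r₀ s Δ ρ θ δ c τ P P' st) : 0 < θ ^ 2 * P.a / 3 := by
  have ha0 : (0 : ℝ) < P.a := by exact_mod_cast F.step.a0
  have hθ := F.step.θ0
  positivity

theorem ok1 (F : Full G n₀ r₀ s Δ ρ θ δ c τ P P' st) :
    (fam1 G n₀ st θ P).OK (pr (gS G K n₀) st P.a P.B θ δ) (c ^ s)
      (Mloc K n₀ r₀) := by
  have ha0 : (0 : ℝ) < P.a := by exact_mod_cast F.step.a0
  have hθ := F.step.θ0
  have hc0 : 0 ≤ c := le_trans (by norm_num) F.step.c0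
  refine ok_mk G Δ F.deg F.ΔK _ (pr_mem F.hyp) (fam1 G n₀ st θ P) s c hc0 _
    (fun e : {e : Sym2 V // e ∈ st.U} => endp e.1) (r₀ + 4 * (2 * n₀ + 2)) K ?_ ?_ ?_
    (Mloc1 K n₀ r₀) (Mloc2 K n₀ r₀ K (oka_Mc F))
  · intro e
    have h0 := oka_pos F
    have hs1 := oka_sum F e.1 e.2 (fun x => ((conf (gS G K n₀) st x).card : ℝ))
      (fun x hx => oka_conf F e.1 x hx)
    have hs0 : 0 ≤ θ / P.a * ∑ x ∈ own (gS G K n₀) st e.1,
        ((conf (gS G K n₀) st x).card : ℝ) :=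
      mul_nonneg (div_nonneg hθ.le ha0.le) (sum_nonneg fun x _ => Nat.cast_nonneg _)
    refine ⟨_, ?_, kA_bdd F.hyp e.1 s, ?_, ?_⟩
    · positivity
    · show _ ≤ c * (θ / P.a * ∑ x ∈ own (gS G K n₀) st e.1,
        ((conf (gS G K n₀) st x).card : ℝ) + θ ^ 2 * P.a / 3)
      have hn := F.step.nA
      have hc1 := F.step.c1
      have h2 : (1 - c) * (θ / P.a * ∑ x ∈ own (gS G K n₀) st e.1,
          ((conf (gS G K n₀) st x).card : ℝ)) ≤ (1 - c) * (θ * P.B) :=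
        mul_le_mul_of_nonneg_left hs1 (by linarith)
      linarith
    · show 0 < θ / P.a * ∑ x ∈ own (gS G K n₀) st e.1,
        ((conf (gS G K n₀) st x).card : ℝ) + θ ^ 2 * P.a / 3
      linarith
  · intro e
    refine oka_supp (kA (gS G K n₀) st e.1) _ ?_
    intro i hi v hv
    have hw : i.1 ∈ own (gS G K n₀) st e.1 ∧ i.2 ∈ conf (gS G K n₀) st i.1 := by
      by_contra hcon
      exact hi (if_neg hcon)
    have hv' : v ∈ ({pick i.2} : Finset (Fin 3 × PX V K)) ∪ ∅ := hv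
    rw [union_empty, mem_singleton] at hv'
    rw [hv']
    have h1 := hw.1
    unfold own at h1
    rw [mem_filter] at h1
    have h2 := hw.2
    unfold conf at h2
    rw [mem_filter] at h2
    have he : i.1.1 = e.1 := h1.2
    have hnb : i.2 ∈ nbh (gS G K n₀) st i.1 := by
      unfold nbh
      exact mem_union_right _ hw.2
    obtain ⟨w, hw1, hw2⟩ := nbh_ball G n₀ st i.1 i.2 h1.1 hnb (endp e.1)
      (by rw [he]; exact endp_mem e.1) (oka_live F h1.1)
    exact oka_bvar (oka_live F h2.1) hw1 (ball_mono G (by omega) _ hw2)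
  · intro v
    exact oka_cnt F v

theorem ok2 (F : Full G n₀ r₀ s Δ ρ θ δ c τ P P' st) :
    (fam2 G n₀ st θ P).OK (pr (gS G K n₀) st P.a P.B θ δ) (c ^ s)
      (Mloc K n₀ r₀) := by
  have ha0 : (0 : ℝ) < P.a := by exact_mod_cast F.step.a0
  have hθ := F.step.θ0
  have hc0 : 0 ≤ c := le_trans (by norm_num) F.step.c0
  refine ok_mk G Δ F.deg F.ΔK _ (pr_mem F.hyp) (fam2 G n₀ st θ P) s c hc0 _
    (fun e : {e : Sym2 V // e ∈ st.U} => endp e.1) (r₀ + 4 * (2 * n₀ + 2)) K ?_ ?_ ?_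
    (Mloc1 K n₀ r₀) (Mloc2 K n₀ r₀ K (oka_Mc F))
  · intro e
    have h0 := oka_pos F
    have hs1 := oka_sum F e.1 e.2 (fun x => ((P.B : ℝ) - (conf (gS G K n₀) st x).card))
      (fun x _ => by
        have : (0 : ℝ) ≤ ((conf (gS G K n₀) st x).card : ℝ) := Nat.cast_nonneg _
        linarith)
    have hs0 : 0 ≤ θ / P.a * ∑ x ∈ own (gS G K n₀) st e.1,
        ((P.B : ℝ) - (conf (gS G K n₀) st x).card) :=
      mul_nonneg (div_nonneg hθ.le ha0.le) (sum_nonneg fun x hx => by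
        have := oka_conf F e.1 x hx
        linarith)
    refine ⟨_, ?_, kB_bdd F.hyp e.1 s, ?_, ?_⟩
    · positivity
    · show _ ≤ c * (θ / P.a * ∑ x ∈ own (gS G K n₀) st e.1,
        ((P.B : ℝ) - (conf (gS G K n₀) st x).card) + θ ^ 2 * P.a / 3)
      have hn := F.step.nA
      have hc1 := F.step.c1
      have h2 : (1 - c) * (θ / P.a * ∑ x ∈ own (gS G K n₀) st e.1,
          ((P.B : ℝ) - (conf (gS G K n₀) st x).card)) ≤ (1 - c) * (θ * P.B) :=
        mul_le_mul_of_nonneg_left hs1 (by linarith)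
      have h3 : (0 : ℝ) ≤ s * P.Γ := by positivity
      linarith
    · show 0 < θ / P.a * ∑ x ∈ own (gS G K n₀) st e.1,
        ((P.B : ℝ) - (conf (gS G K n₀) st x).card) + θ ^ 2 * P.a / 3
      linarith
  · intro e
    refine oka_supp (kB (gS G K n₀) st e.1) _ ?_
    intro (i : PX V K) hi v hv
    have hw : i ∈ own (gS G K n₀) st e.1 := by
      by_contra hcon
      exact hi (if_neg hcon)
    have hv' : v ∈ (∅ : Finset (Fin 3 × PX V K)) ∪ {coin i} := hv
    rw [empty_union] at hv'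
    rw [mem_singleton.1 hv']
    unfold own at hw
    rw [mem_filter] at hw
    have he : i.1 = e.1 := hw.2
    exact oka_bvar (oka_live F hw.1) (w := endp e.1) (by rw [he]; exact endp_mem e.1)
      (ball_self G _ _)
  · intro v
    exact oka_cnt F v

theorem ok3 (F : Full G n₀ r₀ s Δ ρ θ δ c τ P P' st) :
    (fam3 G n₀ st θ P).OK (pr (gS G K n₀) st P.a P.B θ δ) (c ^ s)
      (Mloc K n₀ r₀) := by
  have ha0 : (0 : ℝ) < P.a := by exact_mod_cast F.step.a0
  have hθ := F.step.θ0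
  have hw0 := F.step.w0
  have hc0 : 0 ≤ c := le_trans (by norm_num) F.step.c0
  refine ok_mk G Δ F.deg F.ΔK _ (pr_mem F.hyp) (fam3 G n₀ st θ P) s c hc0 _
    (fun e : {e : Sym2 V // e ∈ st.U} => endp e.1) (r₀ + 4 * (2 * n₀ + 2)) K ?_ ?_ ?_
    (Mloc1 K n₀ r₀) (Mloc2 K n₀ r₀ K (oka_Mc F))
  · intro e
    have h0 := oka_pos F
    have h1 : 0 ≤ (P.a : ℝ) * (θ ^ 2 * P.w) := by positivity
    refine ⟨_, ?_, kC_bdd F.hyp e.1 s, ?_, ?_⟩
    · positivity
    · show _ ≤ c * (P.a * (θ ^ 2 * P.w) + θ ^ 2 * P.a / 3)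
      have hn := F.step.nC
      linarith
    · show 0 < P.a * (θ ^ 2 * P.w) + θ ^ 2 * P.a / 3
      linarith
  · intro e
    refine oka_supp (kC (gS G K n₀) st e.1) _ ?_
    intro i hi v hv
    have hw : i.1 ∈ own (gS G K n₀) st e.1 ∧ i.2 ∈ (gS G K n₀).C ∧ i.1 ∈ i.2 ∧
        i.2.erase i.1 ⊆ st.R ∪ st.L ∧ 2 ≤ (i.2.erase i.1 ∩ st.L).card := by
      by_contra hcon
      exact hi (if_neg hcon)
    obtain ⟨hw1, hw2, hw3, -, -⟩ := hw
    have hv' : v ∈ (i.2.erase i.1 ∩ st.L).image pick ∪ (∅ : Finset (Fin 3 × PX V K)) := hv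
    rw [union_empty, mem_image] at hv'
    obtain ⟨y, hy, rfl⟩ := hv'
    rw [mem_inter] at hy
    have hyH := mem_of_mem_erase hy.1
    unfold own at hw1
    rw [mem_filter] at hw1
    have he : i.1.1 = e.1 := hw1.2
    have hball := C_ball G n₀ i.2 hw2 i.1 y hw3 hyH (endp e.1) (endp y.1)
      (by rw [he]; exact endp_mem e.1) (endp_mem y.1)
    exact oka_bvar (C_edge G n₀ i.2 hw2 y hyH) (endp_mem y.1) (ball_mono G (by omega) _ hball)
  · intro v
    exact oka_cnt F v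

end Pool.Agent.H77.AC
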