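import Pool.Agent.H77.AC.Loc0

/-!
# AC-OKB: the families of nS and wS (4, 5)

Use `ok_mk` with `R = r₀ + 4 (2 n₀ + 2)`, `M = Mloc K n₀ r₀` (`Mloc1`, `Mloc2`), `hp = pr_mem F.hyp`,
`Δ`, `hΔ = F.deg`. The bound of the conditional expectation is the statement `*_bdd` of the module of
the statistic, the inequality `μ ≤ c * lam` is the corresponding field of `F.step : Step ..`.

* `fam4`: index `ν = (v, c)`, `cen = v`, `Mc = K`. Support: coins of live `z` at `ν` and picks of `y ∈ nbh z` (`nbh_ball`, radius `2 n₀ + 3 ≤ R`). `μ` from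
  `nS_bdd`, field `nN` with `N = (atN ν).card ≤ ρ a` (`Inv.node`); `lam = ρ a' > 0`; `0 ≤ μ` since `0 ≤ 1 - θ/a` (`pr_mem` or `θ ≤ 1 ≤ a`).
* `fam5`: index a live pair `x`, `cen = endp x.1`; at most `Δ K ≤ K²` pairs have a given end. Support: picks and coins of elements of `H ∋ x` (`C_ball`), picks
  of `nbh z`, `z ∈ H` (radius `m + 2 n₀ + 3 ≤ R`; use `ball_add`). `wS_bdd` with `g' = P'.g`, `a' = P'.a`; fields `nG`, `gg`, `g'1`, `aa`, `aK`, `nW`; `P'.w > 0` follows from `nW`.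
-/

set_option autoImplicit false

open Finset
open scoped Classical

namespace Pool.Agent.H77.AC

variable {V : Type} [Fintype V] [DecidableEq V] {K : ℕ}
variable {G : SimpleGraph V} {n₀ r₀ s Δ : ℕ} {ρ θ δ c τ : ℝ} {P P' : RP}
  {st : St (PX V K) (Sym2 V)}

theorem okb_Mc (F : Full G n₀ r₀ s Δ ρ θ δ c τ P P' st) :
    K ≤ K ^ 2 * (K + 1) ^ (r₀ + 4 * (2 * n₀ + 2)) ∧
      K ^ 2 ≤ K ^ 2 * (K + 1) ^ (r₀ + 4 * (2 * n₀ + 2)) := by
  have hK := F.step.K0
  have h1 : 1 ≤ (K + 1) ^ (r₀ + 4 * (2 * n₀ + 2)) := Nat.one_le_pow _ _ (by omega)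
  have h2 : K ^ 2 ≤ K ^ 2 * (K + 1) ^ (r₀ + 4 * (2 * n₀ + 2)) := by
    calc K ^ 2 = K ^ 2 * 1 := (mul_one _).symm
      _ ≤ K ^ 2 * (K + 1) ^ (r₀ + 4 * (2 * n₀ + 2)) := Nat.mul_le_mul_left _ h1
  exact ⟨le_trans (by nlinarith) h2, h2⟩

theorem okb_live (F : Full G n₀ r₀ s Δ ρ θ δ c τ P P' st) {x : PX V K} (hx : x ∈ st.L) :
    x.1 ∈ G.edgeSet := F.ginv.U_E _ (F.inv.L_U x hx)

theorem okb_supp {I : Type} [Fintype I] [DecidableEq I] (X : Stat I) (W : Finset I)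
    (h : ∀ i, X.w i ≠ 0 → ∀ v, v ∈ X.D i ∪ X.C i → v ∈ W) : X.supp ⊆ W := by
  intro v hv
  unfold Stat.supp at hv
  rw [mem_biUnion] at hv
  obtain ⟨i, hi, hv⟩ := hv
  rw [mem_filter] at hi
  exact h i hi.2 v hv

theorem okb_bvar {R : ℕ} {u : V} {t : Fin 3} {y : PX V K} (hy : y.1 ∈ G.edgeSet) {w : V}
    (hw : w ∈ y.1) (hb : w ∈ ballG G R u) : ((t, y) : Fin 3 × PX V K) ∈ bvar G K R u := by
  unfold bvar
  rw [mem_filter]
  exact ⟨mem_univ _, hy, w, hw, hb⟩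

theorem okb_nbh_L {x y : PX V K} (hy : y ∈ nbh (gS G K n₀) st x) : y ∈ st.L := by
  unfold nbh own conf at hy
  rcases mem_union.1 hy with hy | hy
  · exact (mem_filter.1 hy).1
  · exact (mem_filter.1 hy).1

theorem okb_nn (F : Full G n₀ r₀ s Δ ρ θ δ c τ P P' st) : 0 ≤ 1 - θ / (P.a : ℝ) := by
  have ha : (1 : ℝ) ≤ P.a := by exact_mod_cast F.step.a0
  have : θ / P.a ≤ 1 := by
    rw [div_le_one (by linarith)]
    linarith [F.step.θ1]
  linarith

theorem ok4 (F : Full G n₀ r₀ s Δ ρ θ δ c τ P P' st) :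
    (fam4 G n₀ st ρ P').OK (pr (gS G K n₀) st P.a P.B θ δ) (c ^ s)
      (Mloc K n₀ r₀) := by
  have hc0 : 0 ≤ c := le_trans (by norm_num) F.step.c0
  refine ok_mk G Δ F.deg F.ΔK _ (pr_mem F.hyp) (fam4 G n₀ st ρ P') s c hc0 _
    (fun ν : V × Fin K => ν.1) (r₀ + 4 * (2 * n₀ + 2)) K ?_ ?_ ?_
    (Mloc1 K n₀ r₀) (Mloc2 K n₀ r₀ K (okb_Mc F).1)
  · intro ν
    refine ⟨_, ?_, nS_bdd F.hyp ν s, ?_, ?_⟩
    · have := okb_nn F
      positivity
    · exact F.step.nN _ (F.inv.node ν)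
    · show 0 < ρ * (P'.a : ℝ)
      have h1 : (0 : ℝ) < P'.a := by exact_mod_cast F.step.a'0
      exact mul_pos F.step.ρ0 h1
  · intro ν
    refine okb_supp (nS (gS G K n₀) st ν) _ ?_
    intro (z : PX V K) hz v hv
    have hw : z ∈ atN (gS G K n₀) st ν := by
      by_contra hcon
      exact hz (if_neg hcon)
    unfold atN at hw
    rw [mem_filter] at hw
    have hνz : ν.1 ∈ z.1 := by
      have h1 : ν ∈ ndG z := hw.2
      unfold ndG at h1
      exact (mem_filter.1 h1).2.1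
    have hv' : v ∈ ({coin z} : Finset (Fin 3 × PX V K)) ∪
        (nbh (gS G K n₀) st z \ atN (gS G K n₀) st ν).image pick := hv
    rw [mem_union] at hv'
    rcases hv' with hv' | hv'
    · rw [mem_singleton.1 hv']
      exact okb_bvar (okb_live F hw.1) hνz (ball_self G _ _)
    · rw [mem_image] at hv'
      obtain ⟨y, hy, rfl⟩ := hv'
      have hy' := (mem_sdiff.1 hy).1
      obtain ⟨w, hw1, hw2⟩ := nbh_ball G n₀ st z y hw.1 hy' ν.1 hνz (okb_live F hw.1)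
      exact okb_bvar (okb_live F (okb_nbh_L hy')) hw1 (ball_mono G (by omega) _ hw2)
  · intro v
    have h1 : (univ.filter (fun ν : V × Fin K => ν.1 = v)).card ≤ (univ : Finset (Fin K)).card := by
      refine card_le_card_of_injOn (fun ν => ν.2) (fun _ _ => mem_coe.2 (mem_univ _)) ?_
      intro ν hν ν' hν' hh
      have e1 := (mem_filter.1 (mem_coe.1 hν)).2
      have e2 := (mem_filter.1 (mem_coe.1 hν')).2
      exact Prod.ext (e1.trans e2.symm) hh
    rw [card_univ, Fintype.card_fin] at h1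
    exact h1

theorem okb_cnt (F : Full G n₀ r₀ s Δ ρ θ δ c τ P P' st) (v : V) :
    (univ.filter (fun x : {x : PX V K // x ∈ st.L} => endp x.1.1 = v)).card ≤ K ^ 2 := by
  have h1 : (univ.filter (fun x : {x : PX V K // x ∈ st.L} => endp x.1.1 = v)).card ≤
      (((univ.filter (fun u => G.Adj v u)) ×ˢ (univ : Finset (Fin K))).image
        (fun t => ((s(v, t.1), t.2) : PX V K))).card := by
    refine card_le_card_of_injOn (fun x => x.1) ?_ ?_
    · intro x hx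
      have hx' := (mem_filter.1 (mem_coe.1 hx)).2
      have hU := okb_live F x.2
      have hm : v ∈ x.1.1 := by
        rw [← hx']
        exact endp_mem x.1.1
      obtain ⟨w, hw⟩ := Sym2.mem_iff_exists.1 hm
      rw [mem_coe, mem_image]
      refine ⟨(w, x.1.2), ?_, ?_⟩
      · rw [mem_product, mem_filter]
        refine ⟨⟨mem_univ _, ?_⟩, mem_univ _⟩
        rw [hw, SimpleGraph.mem_edgeSet] at hU
        exact hU
      · exact Prod.ext hw.symm rfl
    · intro x _ x' _ hee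
      exact Subtype.ext hee
  refine h1.trans (card_image_le.trans ?_)
  rw [card_product, card_univ, Fintype.card_fin, pow_two]
  exact Nat.mul_le_mul_right _ ((F.deg v).trans F.ΔK)

theorem ok5 (F : Full G n₀ r₀ s Δ ρ θ δ c τ P P' st) :
    (fam5 G n₀ st P').OK (pr (gS G K n₀) st P.a P.B θ δ) (c ^ s)
      (Mloc K n₀ r₀) := by
  have hc0 : 0 ≤ c := le_trans (by norm_num) F.step.c0
  have hc1 : 0 < c := lt_of_lt_of_le (by norm_num) F.step.c0
  refine ok_mk G Δ F.deg F.ΔK _ (pr_mem F.hyp) (fam5 G n₀ st P') s c hc0 _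
    (fun x : {x : PX V K // x ∈ st.L} => endp x.1.1) (r₀ + 4 * (2 * n₀ + 2)) (K ^ 2) ?_ ?_ ?_
    (Mloc1 K n₀ r₀) (Mloc2 K n₀ r₀ (K ^ 2) (okb_Mc F).2)
  · intro x
    have hg0 : (0 : ℝ) ≤ P'.g := by linarith [F.step.g'1]
    have hw0 := F.step.w0
    have hμ : 0 ≤ (((s : ℝ) * (2 * n₀ + 2 : ℕ) + 1) ^ (2 * n₀ + 2) +
        3 * (s * (2 * n₀ + 2 : ℕ))) * (2 * n₀ + 2 : ℕ) * P'.g ^ (2 * n₀ + 2) * (P.Γ / K) *
        (2 * K / P'.a) ^ (2 * n₀ + 2) := by positivity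
    have hW := F.step.nW
    refine ⟨_, ?_, wS_bdd F.hyp x.1 x.2 P'.g P'.a s F.step.g'1 F.step.gg F.step.a'0 F.step.aa
      (F.step.aa.trans F.step.aK) F.step.nG, ?_, ?_⟩
    · linarith
    · exact hW
    · show 0 < P'.w
      have h1 : 0 < c * P'.w := by linarith
      by_contra hcon
      push Not at hcon
      have h2 : c * P'.w ≤ 0 := mul_nonpos_of_nonneg_of_nonpos hc0 hcon
      linarith
  · intro x
    refine okb_supp (wS (gS G K n₀) st P'.g P'.a x.1) _ ?_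
    intro (i : Finset (PX V K) × Finset (PX V K)) hi v hv
    have hw : i.1 ∈ (gS G K n₀).C ∧ x.1 ∈ i.1 ∧ i.1.erase x.1 ⊆ st.R ∪ st.L ∧
        i.2 ⊆ i.1.erase x.1 ∩ st.L ∧ i.2 ≠ i.1.erase x.1 ∩ st.L ∧
        Disjoint i.2 (nbh (gS G K n₀) st x.1) := by
      by_contra hcon
      exact hi (if_neg hcon)
    obtain ⟨hH, hxH, -, hsub, -, -⟩ := hw
    have hin : ∀ (t : Fin 3) (y : PX V K), y ∈ i.1 →
        ((t, y) : Fin 3 × PX V K) ∈ bvar G K (r₀ + 4 * (2 * n₀ + 2)) (endp x.1.1) := by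
      intro t y hy
      have hball := C_ball G n₀ i.1 hH x.1 y hxH hy (endp x.1.1) (endp y.1)
        (endp_mem x.1.1) (endp_mem y.1)
      exact okb_bvar (C_edge G n₀ i.1 hH y hy) (endp_mem y.1) (ball_mono G (by omega) _ hball)
    have hv' : v ∈ (i.2.image pick ∪ ((i.1.erase x.1 ∩ st.L) \ i.2).image coin) ∪
        (((i.1.erase x.1 ∩ st.L) \ i.2).biUnion (nbh (gS G K n₀) st) \
          nbh (gS G K n₀) st x.1).image pick := hv
    rw [mem_union, mem_union] at hv'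
    rcases hv' with (hv' | hv') | hv'
    · rw [mem_image] at hv'
      obtain ⟨y, hy, rfl⟩ := hv'
      exact hin _ y (mem_of_mem_erase (mem_inter.1 (hsub hy)).1)
    · rw [mem_image] at hv'
      obtain ⟨y, hy, rfl⟩ := hv'
      exact hin _ y (mem_of_mem_erase (mem_inter.1 (mem_sdiff.1 hy).1).1)
    · rw [mem_image] at hv'
      obtain ⟨y, hy, rfl⟩ := hv'
      have hy' := (mem_sdiff.1 hy).1
      rw [mem_biUnion] at hy'
      obtain ⟨z, hz, hyz⟩ := hy'
      have hz' := mem_inter.1 (mem_sdiff.1 hz).1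
      have hzH := mem_of_mem_erase hz'.1
      have hball := C_ball G n₀ i.1 hH x.1 z hxH hzH (endp x.1.1) (endp z.1)
        (endp_mem x.1.1) (endp_mem z.1)
      obtain ⟨w, hw1, hw2⟩ := nbh_ball G n₀ st z y hz'.2 hyz (endp z.1) (endp_mem z.1)
        (okb_live F hz'.2)
      have hadd := ball_add G _ _ _ _ _ hball hw2
      exact okb_bvar (okb_live F (okb_nbh_L hyz)) hw1 (ball_mono G (by omega) _ hadd)
  · intro v
    exact okb_cnt F v

end Pool.Agent.H77.AC
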