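import Pool.Agent.H77.AC.Loc0

/-!
# AC-OKC: the family of the crude statistics cS (6)

Use `ok_mk` with `R = r₀ + 4 (2 n₀ + 2)`, `M = Mloc K n₀ r₀` (`Mloc1`, `Mloc2`), `hp = pr_mem F.hyp`,
`Δ`, `hΔ = F.deg`. The bound of the conditional expectation is the statement `*_bdd` of the module of
the statistic, the inequality `μ ≤ c * lam` is the corresponding field of `F.step : Step ..`.

* Index `j = (φ, A, n)` with some `Q ∈ φ.sets`, `A ⊆ Q`. `cen = endp φ.fst.1`. Support: picks of live elements of sets `Q' ∈ φ.sets` (`sets_ball`, radius `2 m ≤ R`).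
* `cS_bdd` with `m₁ = 2 m` (`Fm_card`), `Inv.crude`; `μ = (s m₁+1)^m₁ (m₁+1) 2^m₁ K^(n-1) Γ ≤ c K^(n-1) Γ'` by the field `nΓ` times `K^(n-1)`; `lam > 0` (`K > 0`; `Γ' > 0` from `nΓ`
  and `Γ ≥ 1`).
* Counting the indices with `cen = v`: the constructor of `φ` (4), the first pair `x` on an edge at `v` (`≤ K²`, `sets_ball`), the second parameter: a pair, node or edge with an end in
  `ballG G (4 m) v` (for `f1 x y`, `f4 z z'`: `y`, `z'` is in a short set meeting one through `x`; for `f2 x ν`, `f3 x e`: `ν`, `e` is a node or the edge of an element of a short set through `x`): at most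
  `K² (K+1)^(4m)`; `A` a subset of `Q`, so a set of at most `2 m` pairs on edges of `G` with an end in the ball: at most `(1 + K² (K+1)^(4m))^(2m)`; `n`: `2m+1`. The product is at most
  `4 (2m+1) (K+1)^(4 + 4m + 2m (4m+3)) ≤ (8 m (K+1))^((R+5)(2m+4))`; `Mloc6`.
-/

set_option autoImplicit false

open Finset
open scoped Classical

namespace Pool.Agent.H77.AC

variable {V : Type} [Fintype V] [DecidableEq V] {K : ℕ}
variable {G : SimpleGraph V} {n₀ r₀ s Δ : ℕ} {ρ θ δ c τ : ℝ} {P P' : RP}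
  {st : St (PX V K) (Sym2 V)}

/-- pairs on edges of `G` near `v` -/
noncomputable def okC_near (G : SimpleGraph V) (K R : ℕ) (v : V) : Finset (PX V K) :=
  univ.filter (fun x => x.1 ∈ G.edgeSet ∧ ∃ u ∈ x.1, u ∈ ballG G R v)

theorem okC_near_card (G : SimpleGraph V) (Δ : ℕ)
    (hΔ : ∀ v, (univ.filter (fun u => G.Adj v u)).card ≤ Δ) (hK : Δ ≤ K) (R : ℕ) (v : V) :
    (okC_near G K R v).card ≤ K * K * (K + 1) ^ R := by
  have h1 : okC_near G K R v ⊆ (ballG G R v).biUnion (fun u =>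
      ((univ.filter (fun w => G.Adj u w)) ×ˢ (univ : Finset (Fin K))).image
        (fun p => (s(u, p.1), p.2))) := by
    rintro ⟨e, c⟩ hx
    rw [okC_near, mem_filter] at hx
    obtain ⟨-, h2, u, hu, hub⟩ := hx
    obtain ⟨w, hw⟩ := Sym2.mem_iff_exists.mp hu
    have hw' : e = s(u, w) := hw
    rw [mem_biUnion]
    refine ⟨u, hub, ?_⟩
    rw [mem_image]
    refine ⟨(w, c), ?_, ?_⟩
    · rw [mem_product, mem_filter]
      refine ⟨⟨mem_univ _, ?_⟩, mem_univ _⟩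
      have h3 : e ∈ G.edgeSet := h2
      rw [hw', SimpleGraph.mem_edgeSet] at h3
      exact h3
    · rw [hw']
  refine (card_le_card h1).trans (card_biUnion_le.trans ?_)
  refine (sum_le_sum (g := fun _ => K * K) ?_).trans ?_
  · intro u _
    refine card_image_le.trans ?_
    rw [card_product, card_univ, Fintype.card_fin]
    exact Nat.mul_le_mul_right _ ((hΔ u).trans hK)
  · rw [sum_const, smul_eq_mul, mul_comm]
    refine Nat.mul_le_mul_left _ ?_
    exact (ball_card G Δ hΔ R v).trans (Nat.pow_le_pow_left (by omega) _)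

theorem okC_near_mk (G : SimpleGraph V) (n₀ : ℕ) (H : Finset (PX V K))
    (hH : H ∈ (gS G K n₀).C) (x y : PX V K) (hx : x ∈ H) (hy : y ∈ H) :
    y ∈ okC_near G K (2 * (2 * n₀ + 2)) (endp x.1) := by
  rw [okC_near, mem_filter]
  refine ⟨mem_univ _, C_edge G n₀ H hH y hy, endp y.1, endp_mem _, ?_⟩
  exact ball_mono G (by omega) _ (C_ball G n₀ H hH x y hx hy _ _ (endp_mem _) (endp_mem _))

theorem okC_near_mk2 (G : SimpleGraph V) (n₀ : ℕ) (H₁ H₂ : Finset (PX V K))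
    (hH₁ : H₁ ∈ (gS G K n₀).C) (hH₂ : H₂ ∈ (gS G K n₀).C) (x y z : PX V K) (hx : x ∈ H₁)
    (hz : z ∈ H₁) (hz' : z ∈ H₂) (hy : y ∈ H₂) :
    y ∈ okC_near G K (2 * (2 * n₀ + 2)) (endp x.1) := by
  rw [okC_near, mem_filter]
  refine ⟨mem_univ _, C_edge G n₀ H₂ hH₂ y hy, endp y.1, endp_mem _, ?_⟩
  have h1 := C_ball G n₀ H₁ hH₁ x z hx hz _ _ (endp_mem _) (endp_mem _)
  have h2 := C_ball G n₀ H₂ hH₂ z y hz' hy _ _ (endp_mem _) (endp_mem _)
  have h3 := ball_add G _ _ _ _ _ h1 h2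
  exact ball_mono G (by omega) _ h3

/-- names of the crude families near `v` -/
noncomputable def okC_names (G : SimpleGraph V) (K R : ℕ) (v : V) :
    Finset (Fm (PX V K) (Sym2 V) (V × Fin K)) :=
  ((okC_near G K R v ×ˢ okC_near G K R v).image (fun p => Fm.f1 p.1 p.2)) ∪
  ((okC_near G K R v ×ˢ ((ballG G R v) ×ˢ (univ : Finset (Fin K)))).image
    (fun p => Fm.f2 p.1 p.2)) ∪
  ((okC_near G K R v ×ˢ ((okC_near G K R v).image (fun x => x.1))).image
    (fun p => Fm.f3 p.1 p.2)) ∪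
  ((okC_near G K R v ×ˢ okC_near G K R v).image (fun p => Fm.f4 p.1 p.2))

theorem okC_names_card (G : SimpleGraph V) (Δ : ℕ)
    (hΔ : ∀ v, (univ.filter (fun u => G.Adj v u)).card ≤ Δ) (hK : Δ ≤ K) (hK0 : 0 < K) (R : ℕ)
    (v : V) : (okC_names G K R v).card ≤ 4 * (K * K * (K + 1) ^ R) ^ 2 := by
  have hn := okC_near_card G Δ hΔ hK R v
  obtain ⟨b, hb⟩ : ∃ b, b = K * K * (K + 1) ^ R := ⟨_, rfl⟩
  rw [← hb] at hn ⊢
  have hball : (ballG G R v).card * K ≤ b := by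
    have h1 : (ballG G R v).card ≤ (K + 1) ^ R :=
      (ball_card G Δ hΔ R v).trans (Nat.pow_le_pow_left (by omega) _)
    calc (ballG G R v).card * K ≤ (K + 1) ^ R * K := Nat.mul_le_mul_right _ h1
      _ ≤ (K + 1) ^ R * (K * K) := Nat.mul_le_mul_left _ (Nat.le_mul_of_pos_right _ hK0)
      _ = b := by rw [hb]; ring
  have c1 : ((okC_near G K R v ×ˢ okC_near G K R v).image
      (fun p => (Fm.f1 p.1 p.2 : Fm (PX V K) (Sym2 V) (V × Fin K)))).card ≤ b * b := by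
    refine card_image_le.trans ?_
    rw [card_product]
    exact Nat.mul_le_mul hn hn
  have c2 : ((okC_near G K R v ×ˢ ((ballG G R v) ×ˢ (univ : Finset (Fin K)))).image
      (fun p => (Fm.f2 p.1 p.2 : Fm (PX V K) (Sym2 V) (V × Fin K)))).card ≤ b * b := by
    refine card_image_le.trans ?_
    rw [card_product, card_product, card_univ, Fintype.card_fin]
    exact Nat.mul_le_mul hn hball
  have c3 : ((okC_near G K R v ×ˢ ((okC_near G K R v).image (fun x => x.1))).image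
      (fun p => (Fm.f3 p.1 p.2 : Fm (PX V K) (Sym2 V) (V × Fin K)))).card ≤ b * b := by
    refine card_image_le.trans ?_
    rw [card_product]
    exact Nat.mul_le_mul hn (card_image_le.trans hn)
  have c4 : ((okC_near G K R v ×ˢ okC_near G K R v).image
      (fun p => (Fm.f4 p.1 p.2 : Fm (PX V K) (Sym2 V) (V × Fin K)))).card ≤ b * b := by
    refine card_image_le.trans ?_
    rw [card_product]
    exact Nat.mul_le_mul hn hn
  unfold okC_names
  refine (card_union_le _ _).trans ?_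
  refine (Nat.add_le_add (card_union_le _ _) le_rfl).trans ?_
  refine (Nat.add_le_add (Nat.add_le_add (card_union_le _ _) le_rfl) le_rfl).trans ?_
  refine (Nat.add_le_add (Nat.add_le_add (Nat.add_le_add c1 c2) c3) c4).trans ?_
  exact le_of_eq (by ring)

theorem okC_names_mem (G : SimpleGraph V) (n₀ : ℕ) (φ : Fm (PX V K) (Sym2 V) (V × Fin K))
    (Q : Finset (PX V K)) (hQ : Q ∈ φ.sets (gS G K n₀)) :
    φ ∈ okC_names G K (2 * (2 * n₀ + 2)) (endp φ.fst.1) := by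
  cases φ with
  | f1 x y =>
    simp only [Fm.sets, mem_image, mem_filter] at hQ
    obtain ⟨H, ⟨hH, -, hx, hy⟩, -⟩ := hQ
    unfold okC_names
    rw [mem_union, mem_union, mem_union]
    left; left; left
    rw [mem_image]
    refine ⟨(x, y), ?_, rfl⟩
    rw [mem_product]
    exact ⟨okC_near_mk G n₀ H hH x x hx hx, okC_near_mk G n₀ H hH x y hx hy⟩
  | f2 x ν =>
    simp only [Fm.sets, mem_image, mem_filter] at hQ
    obtain ⟨H, ⟨hH, hx, y, hy, -, hν⟩, -⟩ := hQ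
    unfold okC_names
    rw [mem_union, mem_union, mem_union]
    left; left; right
    rw [mem_image]
    refine ⟨(x, ν), ?_, rfl⟩
    rw [mem_product, mem_product]
    refine ⟨okC_near_mk G n₀ H hH x x hx hx, ?_, mem_univ _⟩
    have hν' : ν ∈ ndG y := hν
    rw [ndG, mem_filter] at hν'
    exact ball_mono G (by omega) _ (C_ball G n₀ H hH x y hx hy _ _ (endp_mem _) hν'.2.1)
  | f3 x e =>
    simp only [Fm.sets, mem_image, mem_filter] at hQ
    obtain ⟨H, ⟨hH, hx, y, hy, -, he⟩, -⟩ := hQ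
    unfold okC_names
    rw [mem_union, mem_union, mem_union]
    left; right
    rw [mem_image]
    refine ⟨(x, e), ?_, rfl⟩
    rw [mem_product, mem_image]
    exact ⟨okC_near_mk G n₀ H hH x x hx hx, y, okC_near_mk G n₀ H hH x y hx hy, he⟩
  | f4 z z' =>
    simp only [Fm.sets, mem_image, mem_filter, mem_product] at hQ
    obtain ⟨⟨H₁, H₂⟩, ⟨⟨hH₁, hH₂⟩, -, hz, hz', -, -, ⟨y, hy⟩, -⟩, -⟩ := hQ
    rw [mem_inter] at hy
    unfold okC_names
    rw [mem_union, mem_union, mem_union]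
    right
    rw [mem_image]
    refine ⟨(z, z'), ?_, rfl⟩
    rw [mem_product]
    exact ⟨okC_near_mk G n₀ H₁ hH₁ z z hz hz,
      okC_near_mk2 G n₀ H₁ H₂ hH₁ hH₂ z z' y hz hy.1 hy.2 hz'⟩

theorem okC_num (K m r₀ : ℕ) (hK : 0 < K) (hm : 2 ≤ m) :
    4 * (K * K * (K + 1) ^ (2 * m)) ^ 2 *
      (((K * K * (K + 1) ^ (2 * m)) + 1) ^ (2 * m) * (2 * m + 1)) ≤
      (8 * m * (K + 1)) ^ ((r₀ + 4 * m + 5) * (2 * m + 4)) := by
  have h1 : K * K * (K + 1) ^ (2 * m) + 1 ≤ (K + 1) ^ (2 * m + 2) := by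
    have h2 : 1 ≤ (K + 1) ^ (2 * m) := Nat.one_le_pow _ _ (by omega)
    calc K * K * (K + 1) ^ (2 * m) + 1 ≤ K * K * (K + 1) ^ (2 * m) + (K + 1) ^ (2 * m) :=
          Nat.add_le_add_left h2 _
      _ = (K * K + 1) * (K + 1) ^ (2 * m) := by ring
      _ ≤ ((K + 1) * (K + 1)) * (K + 1) ^ (2 * m) := by
          refine Nat.mul_le_mul_right _ ?_
          nlinarith
      _ = (K + 1) ^ (2 * m + 2) := by ring
  have h3 : K * K * (K + 1) ^ (2 * m) ≤ (K + 1) ^ (2 * m + 2) := by omega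
  have h4 : 4 * (2 * m + 1) ≤ (8 * m) ^ 2 := by nlinarith
  have h5 : 1 ≤ K + 1 := by omega
  have h6 : 1 ≤ 8 * m := by omega
  calc 4 * (K * K * (K + 1) ^ (2 * m)) ^ 2 *
      (((K * K * (K + 1) ^ (2 * m)) + 1) ^ (2 * m) * (2 * m + 1))
      ≤ 4 * ((K + 1) ^ (2 * m + 2)) ^ 2 * (((K + 1) ^ (2 * m + 2)) ^ (2 * m) * (2 * m + 1)) := by
        refine Nat.mul_le_mul (Nat.mul_le_mul_left _ (Nat.pow_le_pow_left h3 _)) ?_
        exact Nat.mul_le_mul_right _ (Nat.pow_le_pow_left h1 _)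
    _ = (4 * (2 * m + 1)) * (K + 1) ^ ((2 * m + 2) * 2 + (2 * m + 2) * (2 * m)) := by
        rw [← pow_mul, ← pow_mul, pow_add]
        ring
    _ ≤ (8 * m) ^ ((r₀ + 4 * m + 5) * (2 * m + 4)) *
        (K + 1) ^ ((r₀ + 4 * m + 5) * (2 * m + 4)) := by
        refine Nat.mul_le_mul (h4.trans (Nat.pow_le_pow_right h6 ?_))
          (Nat.pow_le_pow_right h5 ?_)
        · nlinarith
        · nlinarith
    _ = _ := by rw [← mul_pow]

theorem okC_cnt (F : Full G n₀ r₀ s Δ ρ θ δ c τ P P' st) (v : V) :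
    (univ.filter (fun j : CJ V G K n₀ => endp j.1.1.fst.1 = v)).card ≤
      4 * (K * K * (K + 1) ^ (2 * (2 * n₀ + 2))) ^ 2 *
      (((K * K * (K + 1) ^ (2 * (2 * n₀ + 2))) + 1) ^ (2 * (2 * n₀ + 2)) *
        (2 * (2 * n₀ + 2) + 1)) := by
  have h1 : (univ.filter (fun j : CJ V G K n₀ => endp j.1.1.fst.1 = v)).card ≤
      ((okC_names G K (2 * (2 * n₀ + 2)) v) ×ˢ
        (((okC_near G K (2 * (2 * n₀ + 2)) v).powerset.filter
          (fun A => A.card ≤ 2 * (2 * n₀ + 2))) ×ˢ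
        (univ : Finset (Fin (2 * (2 * n₀ + 2) + 1))))).card := by
    refine Finset.card_le_card_of_injOn (fun j => (j.1.1, j.1.2.1, j.1.2.2)) ?_ ?_
    · intro j hj
      rw [Finset.coe_filter, Set.mem_ofPred_eq] at hj
      obtain ⟨-, hj⟩ := hj
      obtain ⟨Q, hQ, hA⟩ := j.2
      rw [Finset.mem_coe, mem_product, mem_product, mem_filter, mem_powerset]
      refine ⟨?_, ⟨?_, ?_⟩, mem_univ _⟩
      · have h2 := okC_names_mem G n₀ j.1.1 Q hQ
        rw [hj] at h2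
        exact h2
      · intro y hy
        have h3 := (sets_ball G n₀ j.1.1 Q hQ).2 y (hA hy)
        rw [okC_near, mem_filter]
        refine ⟨mem_univ _, h3.1, endp y.1, endp_mem _, ?_⟩
        have h4 := h3.2 _ (endp_mem _) _ (endp_mem _)
        rw [hj] at h4
        exact h4
      · exact (card_le_card hA).trans (Fm_card F.hyp j.1.1 Q hQ)
    · intro j hj j' hj' hjj
      exact Subtype.ext hjj
  refine h1.trans ?_
  rw [card_product, card_product, card_univ, Fintype.card_fin]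
  refine Nat.mul_le_mul (okC_names_card G Δ F.deg F.ΔK F.step.K0 _ v) ?_
  refine Nat.mul_le_mul_right _ ?_
  refine (crudeS_card_small _ _).trans ?_
  exact Nat.pow_le_pow_left (Nat.succ_le_succ (okC_near_card G Δ F.deg F.ΔK _ v)) _

theorem ok6 (F : Full G n₀ r₀ s Δ ρ θ δ c τ P P' st) :
    (fam6 G n₀ st P').OK (pr (gS G K n₀) st P.a P.B θ δ) (c ^ s)
      (Mloc K n₀ r₀) := by
  have hK1 : 1 ≤ K := F.step.K0
  have hΓ : (1 : ℝ) ≤ P.Γ := by exact_mod_cast F.step.Γ1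
  have hK0R : (0 : ℝ) < K := by exact_mod_cast F.step.K0
  refine ok_mk G Δ F.deg F.ΔK _ (pr_mem F.hyp) (fam6 G n₀ st P') s c
    (by linarith [F.step.c0]) (Mloc K n₀ r₀)
    (fun j : CJ V G K n₀ => endp j.1.1.fst.1)
    (r₀ + 4 * (2 * n₀ + 2)) _ ?_ ?_ (fun v => okC_cnt F v) (Mloc1 K n₀ r₀)
    (Mloc6 K n₀ r₀ _ (okC_num K (2 * n₀ + 2) r₀ F.step.K0 (by omega)))
  · intro (j : CJ V G K n₀)
    have hb := cS_bdd F.hyp (j.1.1.sets (gS G K n₀)) (2 * (2 * n₀ + 2)) (Fm_card F.hyp j.1.1)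
      (F.inv.crude j.1.1) j.1.2.1 (j.1.2.2 : ℕ) s
    have hpow : (0 : ℝ) < (K : ℝ) ^ ((j.1.2.2 : ℕ) - 1) := pow_pos hK0R _
    have hc0 : 0 < c := by linarith [F.step.c0]
    have hΓ' : (0 : ℝ) < P'.Γ := by
      have h1 := F.step.nΓ
      have h2 : (0 : ℝ) < (s * (2 * (2 * n₀ + 2) : ℕ) + 1 : ℝ) ^ (2 * (2 * n₀ + 2)) *
          ((2 * (2 * n₀ + 2) : ℕ) + 1) * 2 ^ (2 * (2 * n₀ + 2)) * P.Γ := by
        have : (0 : ℝ) < P.Γ := by linarith
        positivity
      have h3 : 0 < c * P'.Γ := lt_of_lt_of_le h2 h1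
      exact (pos_iff_pos_of_mul_pos h3).1 hc0
    refine ⟨_, ?_, hb, ?_, ?_⟩
    · positivity
    · have h1 := mul_le_mul_of_nonneg_right F.step.nΓ hpow.le
      show _ ≤ c * (((K ^ ((j.1.2.2 : ℕ) - 1) * P'.Γ : ℕ) : ℝ))
      push_cast at h1 ⊢
      calc _ = _ := by ring
        _ ≤ _ := h1
        _ = _ := by ring
    · show (0 : ℝ) < (((K ^ ((j.1.2.2 : ℕ) - 1) * P'.Γ : ℕ) : ℝ))
      push_cast
      exact mul_pos hpow hΓ'
  · intro (j : CJ V G K n₀) y hy
    rw [Stat.supp, Finset.mem_biUnion] at hy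
    obtain ⟨i, hi, hy⟩ := hy
    rw [mem_filter] at hi
    have hi2 : i.1 ∈ j.1.1.sets (gS G K n₀) ∧ j.1.2.1 ⊆ i.1 ∧ i.1 \ j.1.2.1 ⊆ st.R ∪ st.L ∧
        i.2 ⊆ (i.1 \ j.1.2.1) ∩ st.L ∧
        ((i.1 \ j.1.2.1) ∩ st.L).card = (j.1.2.2 : ℕ) + i.2.card := by
      by_contra hcon
      exact hi.2 (if_neg hcon)
    have hy' : y ∈ i.2.image pick ∪ ∅ := hy
    rw [union_empty, mem_image] at hy'
    obtain ⟨x, hx, rfl⟩ := hy'
    have hxQ : x ∈ i.1 := (mem_sdiff.1 (mem_inter.1 (hi2.2.2.2.1 hx)).1).1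
    have h3 := (sets_ball G n₀ j.1.1 i.1 hi2.1).2 x hxQ
    rw [bvar, mem_filter]
    refine ⟨mem_univ _, h3.1, endp x.1, endp_mem _, ?_⟩
    exact ball_mono G (by omega) _ (h3.2 _ (endp_mem _) _ (endp_mem _))

end Pool.Agent.H77.AC
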