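import Pool.Agent.H77.AC.Loc0

/-!
# AC-OKD: the families indexed by vertices: sD, iS, bS, mS (stU), dD (7, 14, 16, 18, 20)

Use `ok_mk` with `R = r₀ + 4 (2 n₀ + 2)`, `M = Mloc K n₀ r₀` (`Mloc1`, `Mloc2`), `hp = pr_mem F.hyp`,
`Δ`, `hΔ = F.deg`. The bound of the conditional expectation is the statement `*_bdd` of the module of
the statistic, the inequality `μ ≤ c * lam` is the corresponding field of `F.step : Step ..`.

* Index `v`, `cen = v`, `Mc = 1 ≤ K² (K+1)^R` (`K ≥ 1`).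
* Supports: `sD v`: picks of live pairs on active edges at `v`. `iS`: picks of `x` on an edge at `v` and of `y ∈ isoN x`. `bS`: elements of `H ∋ x`, `x` on an edge at `v` (`C_ball`). `mS`: the path joins the ends of `x`,
  one end is `v` or adjacent to `v`; all steps have an end in `ballG G (r₀ + 1) v` (`path_ball`), then `supp_path`. `dD`: coloured pairs at `v`. All radii `≤ R`.
* `|stU v| ≤ Δ ≤ K` (`U_E`, `F.deg`). `sD_bdd` with field `nD` (`P'.D > 0` by `eD`, `D0`, `θ1`), `iS_bdd` with `n4`, `bS_bdd` with `n5`, `mS_bdd` with `n6` (`Σ`, `ρθ`, `z1`, `z2` from `GInv`, `2 ≤ 2 n₀ + 3`), `dD_bdd` with `n7`.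
  `lam = τ K > 0`.
-/

set_option autoImplicit false

open Finset
open scoped Classical

namespace Pool.Agent.H77.AC

variable {V : Type} [Fintype V] [DecidableEq V] {K : ℕ}
variable {G : SimpleGraph V} {n₀ r₀ s Δ : ℕ} {ρ θ δ c τ : ℝ} {P P' : RP}
  {st : St (PX V K) (Sym2 V)}

/-! ### generic lemmas -/

theorem okd_b {I : Type} [Fintype I] [DecidableEq I] {p : I → ℝ} {X : Stat I} {μ lam : ℝ}
    (hc : 0 ≤ c) (h1 : X.Bdd p s μ) (h2 : μ ≤ c * lam) (h3 : 0 < lam) :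
    ∃ μ', 0 ≤ μ' ∧ X.Bdd p s μ' ∧ μ' ≤ c * lam ∧ 0 < lam :=
  ⟨max μ 0, le_max_right _ _, bdd_mono p X s s μ _ le_rfl (le_max_left _ _) h1,
    max_le h2 (mul_nonneg hc h3.le), h3⟩

theorem okd_Mc (F : Full G n₀ r₀ s Δ ρ θ δ c τ P P' st) :
    1 ≤ K ^ 2 * (K + 1) ^ (r₀ + 4 * (2 * n₀ + 2)) ∧
      K ≤ K ^ 2 * (K + 1) ^ (r₀ + 4 * (2 * n₀ + 2)) := by
  have hK := F.step.K0
  have h1 : 1 ≤ (K + 1) ^ (r₀ + 4 * (2 * n₀ + 2)) := Nat.one_le_pow _ _ (by omega)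
  have h2 : K ≤ K ^ 2 * (K + 1) ^ (r₀ + 4 * (2 * n₀ + 2)) := by
    calc K ≤ K ^ 2 * 1 := by nlinarith
      _ ≤ K ^ 2 * (K + 1) ^ (r₀ + 4 * (2 * n₀ + 2)) := Nat.mul_le_mul_left _ h1
  exact ⟨le_trans (by omega) h2, h2⟩

theorem okd_live (F : Full G n₀ r₀ s Δ ρ θ δ c τ P P' st) {x : PX V K} (hx : x ∈ st.L) :
    x.1 ∈ G.edgeSet := F.ginv.U_E _ (F.inv.L_U x hx)

theorem okd_supp {I : Type} [Fintype I] [DecidableEq I] (X : Stat I) (W : Finset I)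
    (h : ∀ i, X.w i ≠ 0 → ∀ v, v ∈ X.D i ∪ X.C i → v ∈ W) : X.supp ⊆ W := by
  intro v hv
  unfold Stat.supp at hv
  rw [mem_biUnion] at hv
  obtain ⟨i, hi, hv⟩ := hv
  rw [mem_filter] at hi
  exact h i hi.2 v hv

theorem okd_bvar {R : ℕ} {u : V} {t : Fin 3} {y : PX V K} (hy : y.1 ∈ G.edgeSet) {w : V}
    (hw : w ∈ y.1) (hb : w ∈ ballG G R u) : ((t, y) : Fin 3 × PX V K) ∈ bvar G K R u := by
  unfold bvar
  rw [mem_filter]
  exact ⟨mem_univ _, hy, w, hw, hb⟩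

theorem okd_iso_nbh {x y : PX V K} (hy : y ∈ isoN (gS G K n₀) st x) :
    y ∈ st.L ∧ y ∈ nbh (gS G K n₀) st x := by
  unfold isoN at hy
  rw [mem_filter] at hy
  refine ⟨hy.1, ?_⟩
  unfold nbh
  rw [mem_union]
  rcases hy.2.2 with h | h
  · left
    unfold own
    rw [mem_filter]
    exact ⟨hy.1, h⟩
  · right
    unfold conf
    rw [mem_filter]
    exact ⟨hy.1, hy.2.1, Or.inl h⟩

theorem okd_iS (F : Full G n₀ r₀ s Δ ρ θ δ c τ P P' st) (Es : Finset (Sym2 V)) (u : V) (k : ℕ)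
    (hk : k ≤ 1) (hEs : ∀ e ∈ Es, ∃ w ∈ e, w ∈ ballG G k u) :
    (iS (gS G K n₀) st Es).supp ⊆ bvar G K (r₀ + 4 * (2 * n₀ + 2)) u := by
  refine okd_supp (iS (gS G K n₀) st Es) _ ?_
  intro (i : PX V K × PX V K) hi v hv
  have hw : i.1 ∈ st.L ∧ i.1.1 ∈ Es ∧ i.2 ∈ isoN (gS G K n₀) st i.1 := by
    by_contra hcon
    exact hi (if_neg hcon)
  obtain ⟨hL, hE, hiso⟩ := hw
  obtain ⟨w, hw1, hw2⟩ := hEs _ hE
  have hv' : v ∈ ({pick i.1, pick i.2} : Finset (Fin 3 × PX V K)) ∪ ∅ := hv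
  rw [union_empty, mem_insert] at hv'
  rcases hv' with hv' | hv'
  · rw [hv']
    exact okd_bvar (okd_live F hL) hw1 (ball_mono G (by omega) _ hw2)
  · rw [mem_singleton.1 hv']
    obtain ⟨h1, h2⟩ := okd_iso_nbh hiso
    obtain ⟨w', hw1', hw2'⟩ := nbh_ball G n₀ st i.1 i.2 hL h2 w hw1 (okd_live F hL)
    have hadd := ball_add G _ _ _ _ _ hw2 hw2'
    exact okd_bvar (okd_live F h1) hw1' (ball_mono G (by omega) _ hadd)

theorem okd_bS (F : Full G n₀ r₀ s Δ ρ θ δ c τ P P' st) (Es : Finset (Sym2 V)) (u : V) (k : ℕ)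
    (hk : k ≤ 1) (hEs : ∀ e ∈ Es, ∃ w ∈ e, w ∈ ballG G k u) :
    (bS (gS G K n₀) st Es).supp ⊆ bvar G K (r₀ + 4 * (2 * n₀ + 2)) u := by
  refine okd_supp (bS (gS G K n₀) st Es) _ ?_
  intro (i : PX V K × Finset (PX V K)) hi v hv
  have hw : i.1 ∈ st.L ∧ i.1.1 ∈ Es ∧ i.2 ∈ (gS G K n₀).C ∧ i.1 ∈ i.2 ∧
      i.2.erase i.1 ⊆ st.R ∪ st.L := by
    by_contra hcon
    exact hi (if_neg hcon)
  obtain ⟨hL, hE, hH, hxH, -⟩ := hw
  obtain ⟨w, hw1, hw2⟩ := hEs _ hE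
  have hv' : v ∈ (insert i.1 (i.2.erase i.1 ∩ st.L)).image pick ∪
    (∅ : Finset (Fin 3 × PX V K)) := hv
  rw [union_empty, mem_image] at hv'
  obtain ⟨y, hy, rfl⟩ := hv'
  have hyH : y ∈ i.2 := by
    rw [mem_insert] at hy
    rcases hy with rfl | hy
    · exact hxH
    · exact mem_of_mem_erase (mem_inter.1 hy).1
  have hball := C_ball G n₀ i.2 hH i.1 y hxH hyH w (endp y.1) hw1 (endp_mem y.1)
  have hadd := ball_add G _ _ _ _ _ hw2 hball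
  exact okd_bvar (C_edge G n₀ i.2 hH y hyH) (endp_mem y.1) (ball_mono G (by omega) _ hadd)

theorem okd_mS (F : Full G n₀ r₀ s Δ ρ θ δ c τ P P' st) (l₀ : ℕ) (Es : Finset (Sym2 V)) (u : V)
    (k : ℕ) (hk : k ≤ 1) (hEs : ∀ e ∈ Es, ∃ w ∈ e, w ∈ ballG G k u) :
    (mS (gS G K n₀) st l₀ r₀ Es).supp ⊆ bvar G K (r₀ + 4 * (2 * n₀ + 2)) u := by
  refine okd_supp (mS (gS G K n₀) st l₀ r₀ Es) _ ?_
  intro (i : PI V K r₀) hi v hv
  obtain ⟨n, b, c', p⟩ := i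
  have hw : l₀ ≤ (n : ℕ) ∧ Function.Injective p ∧ b ≠ c' ∧
      PI.set (⟨n, b, c', p⟩ : PI V K r₀) ⊆ st.R ∪ st.L ∧
      (s(p 0, p (Fin.last n)), c') ∈ st.L ∧ s(p 0, p (Fin.last n)) ∈ Es := by
    by_contra hcon
    exact hi (if_neg hcon)
  obtain ⟨-, -, -, hset, hL, hE⟩ := hw
  have hRE := F.ginv.R_E
  have hLE : ∀ x ∈ st.L, x.1 ∈ G.edgeSet := fun x hx => okd_live F hx
  have hstep : ∀ j : Fin (n : ℕ), pstep p b c' j ∈ st.R ∪ st.L := by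
    intro j
    apply hset
    unfold PI.set
    exact mem_image_of_mem _ (mem_univ j)
  have hedge : ∀ j : Fin (n : ℕ), s(p j.castSucc, p j.succ) ∈ G.edgeSet := by
    intro j
    rcases mem_union.1 (hstep j) with h | h
    · exact hRE _ h
    · exact hLE _ h
  have hadj : G.Adj (p 0) (p (Fin.last n)) := by
    have := hLE _ hL
    rw [SimpleGraph.mem_edgeSet] at this
    exact this
  have h0 : p 0 ∈ ballG G (k + 1) u := by
    obtain ⟨w, hw1, hw2⟩ := hEs _ hE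
    rcases Sym2.mem_iff.1 hw1 with h | h
    · rw [← h]
      exact ball_mono G (by omega) _ hw2
    · refine ball_step G k w (p 0) u hw2 ?_
      rw [h]
      exact hadj.symm
  have hall : ∀ j : Fin ((n : ℕ) + 1), p j ∈ ballG G (r₀ + 2) u := by
    intro j
    have h1 := path_ball G p hedge j
    have h2 := ball_add G _ _ _ _ _ h0 h1
    refine ball_mono G ?_ _ h2
    have h3 := j.2
    have h4 := n.2
    omega
  have hT : ∀ x ∈ insert ((s(p 0, p (Fin.last n)), c') : PX V K)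
      (PI.set (⟨n, b, c', p⟩ : PI V K r₀)), ∃ w ∈ x.1, w ∈ ballG G (r₀ + 2) u := by
    intro x hx
    rw [mem_insert] at hx
    rcases hx with rfl | hx
    · exact ⟨p 0, Sym2.mem_mk_left _ _, hall 0⟩
    · unfold PI.set at hx
      rw [mem_image] at hx
      obtain ⟨j, -, rfl⟩ := hx
      exact ⟨p j.castSucc, Sym2.mem_mk_left _ _, hall _⟩
  have hsub := supp_path G n₀ st hLE hRE _ (r₀ + 2) u hT
  have hv2 := hsub hv
  unfold bvar at hv2 ⊢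
  rw [mem_filter] at hv2 ⊢
  obtain ⟨h1, h2, w, h3, h4⟩ := hv2
  exact ⟨h1, h2, w, h3, ball_mono G (by omega) _ h4⟩

theorem okd_sS (F : Full G n₀ r₀ s Δ ρ θ δ c τ P P' st) {T : Type} [Fintype T] (f : T → Sym2 V)
    (act : T → Prop) (u : V) (k : ℕ) (hk : k ≤ 1)
    (hf : ∀ j, act j → ∃ w ∈ f j, w ∈ ballG G k u) :
    (sS (gS G K n₀) st f act).supp ⊆ bvar G K (r₀ + 4 * (2 * n₀ + 2)) u := by
  refine okd_supp (sS (gS G K n₀) st f act) _ ?_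
  intro (i : T) hi v hv
  have hw : act i := by
    by_contra hcon
    exact hi (if_neg hcon)
  obtain ⟨w, hw1, hw2⟩ := hf i hw
  have hv' : v ∈ (∅ : Finset (Fin 3 × PX V K)) ∪ (own (gS G K n₀) st (f i)).image pick := hv
  rw [empty_union, mem_image] at hv'
  obtain ⟨y, hy, rfl⟩ := hv'
  unfold own at hy
  rw [mem_filter] at hy
  have he : y.1 = f i := hy.2
  exact okd_bvar (okd_live F hy.1) (by rw [he]; exact hw1) (ball_mono G (by omega) _ hw2)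

theorem okd_dS {T : Type} [Fintype T] (y : T → PX V K)
    (act : T → Prop) (u : V) (k R : ℕ) (hk : k ≤ R)
    (hf : ∀ j, act j → (y j).1 ∈ G.edgeSet ∧ ∃ w ∈ (y j).1, w ∈ ballG G k u) :
    (dS y act).supp ⊆ bvar G K R u := by
  refine okd_supp (dS y act) _ ?_
  intro (i : T) hi v hv
  have hw : act i := by
    by_contra hcon
    exact hi (if_neg hcon)
  obtain ⟨h1, w, hw1, hw2⟩ := hf i hw
  have hv' : v ∈ (∅ : Finset (Fin 3 × PX V K)) ∪ {keep (y i)} := hv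
  rw [empty_union] at hv'
  rw [mem_singleton.1 hv']
  exact okd_bvar h1 hw1 (ball_mono G hk _ hw2)

theorem okd_τ (F : Full G n₀ r₀ s Δ ρ θ δ c τ P P' st) : 0 < τ * K := by
  have h1 : (0 : ℝ) < K := by exact_mod_cast F.step.K0
  exact mul_pos F.step.τ0 h1

theorem okd_iS_b (F : Full G n₀ r₀ s Δ ρ θ δ c τ P P' st) (Es : Finset (Sym2 V))
    (hE : Es.card ≤ K) :
    ∃ μ, 0 ≤ μ ∧ (iS (gS G K n₀) st Es).Bdd (pr (gS G K n₀) st P.a P.B θ δ) s μ ∧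
      μ ≤ c * (τ * K) ∧ 0 < τ * K := by
  refine okd_b (le_trans (by norm_num) F.step.c0) (iS_bdd F.hyp Es s) ?_ (okd_τ F)
  refine le_trans ?_ F.step.n4
  have h1 : (Es.card : ℝ) ≤ K := by exact_mod_cast hE
  have h2 : 0 ≤ θ ^ 2 * (1 + 2 * ρ) := by
    have := F.step.ρ0
    positivity
  have h3 := mul_le_mul_of_nonneg_right h1 h2
  linarith

theorem okd_bS_b (F : Full G n₀ r₀ s Δ ρ θ δ c τ P P' st) (Es : Finset (Sym2 V))
    (hE : Es.card ≤ K) :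
    ∃ μ, 0 ≤ μ ∧ (bS (gS G K n₀) st Es).Bdd (pr (gS G K n₀) st P.a P.B θ δ) s μ ∧
      μ ≤ c * (τ * K) ∧ 0 < τ * K := by
  refine okd_b (le_trans (by norm_num) F.step.c0) (bS_bdd F.hyp Es hE s) ?_ (okd_τ F)
  refine le_trans ?_ F.step.n5
  have h1 : (Es.card : ℝ) ≤ K := by exact_mod_cast hE
  have h2 : 0 ≤ θ ^ 2 * P.w := by
    have := F.step.w0
    positivity
  have h3 := mul_le_mul_of_nonneg_right h1 h2
  linarith

theorem okd_mS_b (F : Full G n₀ r₀ s Δ ρ θ δ c τ P P' st) (Es : Finset (Sym2 V))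
    (hE : Es.card ≤ K) :
    ∃ μ, 0 ≤ μ ∧ (mS (gS G K n₀) st (2 * n₀ + 3) r₀ Es).Bdd (pr (gS G K n₀) st P.a P.B θ δ) s μ ∧
      μ ≤ c * (τ * K) ∧ 0 < τ * K := by
  exact okd_b (le_trans (by norm_num) F.step.c0)
    (mS_bdd F.hyp F.step.ρθ r₀ (2 * n₀ + 3) s (by omega) P.ζ F.step.ζ0 F.ginv.z1 F.ginv.z2 Es hE)
    F.step.n6 (okd_τ F)

/-! ### the families indexed by vertices -/

theorem okd_one (v : V) : (univ.filter (fun u : V => u = v)).card ≤ 1 := by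
  rw [card_le_one]
  intro x hx y hy
  exact (mem_filter.1 hx).2.trans (mem_filter.1 hy).2.symm

theorem okd_stU (v : V) : ∀ e ∈ stU st v, ∃ w ∈ e, w ∈ ballG G 0 v := by
  intro e he
  unfold stU at he
  exact ⟨v, (mem_filter.1 he).2, ball_self G 0 v⟩

theorem okd_stU_card (F : Full G n₀ r₀ s Δ ρ θ δ c τ P P' st) (v : V) :
    (stU st v).card ≤ K := by
  have h1 : (stU st v).card ≤ ((univ.filter (fun u => G.Adj v u)).image (fun u => s(v, u))).card := by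
    refine card_le_card ?_
    intro e he
    unfold stU at he
    rw [mem_filter] at he
    have hU := F.ginv.U_E e he.1
    obtain ⟨w, hw⟩ := Sym2.mem_iff_exists.1 he.2
    rw [mem_image]
    refine ⟨w, ?_, hw.symm⟩
    rw [mem_filter]
    refine ⟨mem_univ _, ?_⟩
    rw [hw, SimpleGraph.mem_edgeSet] at hU
    exact hU
  exact h1.trans (card_image_le.trans ((F.deg v).trans F.ΔK))

theorem ok7 (F : Full G n₀ r₀ s Δ ρ θ δ c τ P P' st) :
    (fam7 G n₀ st P').OK (pr (gS G K n₀) st P.a P.B θ δ) (c ^ s)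
      (Mloc K n₀ r₀) := by
  have hc0 : 0 ≤ c := le_trans (by norm_num) F.step.c0
  refine ok_mk G Δ F.deg F.ΔK _ (pr_mem F.hyp) (fam7 G n₀ st P') s c hc0 _
    (fun v : V => v) (r₀ + 4 * (2 * n₀ + 2)) 1 ?_ ?_ (fun (v : V) => okd_one v)
    (Mloc1 K n₀ r₀) (Mloc2 K n₀ r₀ 1 (okd_Mc F).1)
  · intro (v : V)
    refine okd_b hc0 (sD_bdd F.hyp v s P.D (F.ginv.deg v)) F.step.nD ?_
    show 0 < P'.D
    rw [F.step.eD]
    have := F.step.θ1
    exact mul_pos (by linarith) F.step.D0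
  · intro (v : V)
    exact okd_sS F (fun e => e) (fun e => e ∈ stU st v) v 0 (by omega)
      (fun e he => okd_stU v e he)

theorem ok14 (F : Full G n₀ r₀ s Δ ρ θ δ c τ P P' st) :
    (fam14 G n₀ st τ).OK (pr (gS G K n₀) st P.a P.B θ δ) (c ^ s)
      (Mloc K n₀ r₀) := by
  have hc0 : 0 ≤ c := le_trans (by norm_num) F.step.c0
  exact ok_mk G Δ F.deg F.ΔK _ (pr_mem F.hyp) (fam14 G n₀ st τ) s c hc0 _
    (fun v : V => v) (r₀ + 4 * (2 * n₀ + 2)) 1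
    (fun (v : V) => okd_iS_b F (stU st v) (okd_stU_card F v))
    (fun (v : V) => okd_iS F (stU st v) v 0 (by omega) (okd_stU v)) (fun (v : V) => okd_one v)
    (Mloc1 K n₀ r₀) (Mloc2 K n₀ r₀ 1 (okd_Mc F).1)

theorem ok16 (F : Full G n₀ r₀ s Δ ρ θ δ c τ P P' st) :
    (fam16 G n₀ st τ).OK (pr (gS G K n₀) st P.a P.B θ δ) (c ^ s)
      (Mloc K n₀ r₀) := by
  have hc0 : 0 ≤ c := le_trans (by norm_num) F.step.c0
  exact ok_mk G Δ F.deg F.ΔK _ (pr_mem F.hyp) (fam16 G n₀ st τ) s c hc0 _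
    (fun v : V => v) (r₀ + 4 * (2 * n₀ + 2)) 1
    (fun (v : V) => okd_bS_b F (stU st v) (okd_stU_card F v))
    (fun (v : V) => okd_bS F (stU st v) v 0 (by omega) (okd_stU v)) (fun (v : V) => okd_one v)
    (Mloc1 K n₀ r₀) (Mloc2 K n₀ r₀ 1 (okd_Mc F).1)

theorem ok18 (F : Full G n₀ r₀ s Δ ρ θ δ c τ P P' st) :
    (fam18 G n₀ r₀ st τ).OK (pr (gS G K n₀) st P.a P.B θ δ) (c ^ s)
      (Mloc K n₀ r₀) := by
  have hc0 : 0 ≤ c := le_trans (by norm_num) F.step.c0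
  exact ok_mk G Δ F.deg F.ΔK _ (pr_mem F.hyp) (fam18 G n₀ r₀ st τ) s c hc0 _
    (fun v : V => v) (r₀ + 4 * (2 * n₀ + 2)) 1
    (fun (v : V) => okd_mS_b F (stU st v) (okd_stU_card F v))
    (fun (v : V) => okd_mS F _ (stU st v) v 0 (by omega) (okd_stU v)) (fun (v : V) => okd_one v)
    (Mloc1 K n₀ r₀) (Mloc2 K n₀ r₀ 1 (okd_Mc F).1)

theorem ok20 (F : Full G n₀ r₀ s Δ ρ θ δ c τ P P' st) :
    (fam20 st τ).OK (pr (gS G K n₀) st P.a P.B θ δ) (c ^ s)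
      (Mloc K n₀ r₀) := by
  have hc0 : 0 ≤ c := le_trans (by norm_num) F.step.c0
  exact ok_mk G Δ F.deg F.ΔK _ (pr_mem F.hyp) (fam20 st τ) s c hc0 _
    (fun v : V => v) (r₀ + 4 * (2 * n₀ + 2)) 1
    (fun (v : V) => okd_b hc0 (dD_bdd F.hyp v s) F.step.n7 (okd_τ F))
    (fun (v : V) => okd_dS (fun x => x) (fun x => x ∈ st.R ∧ v ∈ x.1) v 0 _ (by omega)
      (fun x hx => ⟨F.ginv.R_E x hx.1, v, hx.2, ball_self G 0 v⟩)) (fun (v : V) => okd_one v)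
    (Mloc1 K n₀ r₀) (Mloc2 K n₀ r₀ 1 (okd_Mc F).1)

end Pool.Agent.H77.AC
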