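import Pool.Agent.H77.AC.OkD

/-!
# AC-OKE: the families indexed by adjacent pairs, edge sets jE: iS, bS, mS, and dJ, sJ (8, 15, 17, 19, 21)

Use `ok_mk` with `R = r₀ + 4 (2 n₀ + 2)`, `M = Mloc K n₀ r₀` (`Mloc1`, `Mloc2`), `hp = pr_mem F.hyp`,
`Δ`, `hΔ = F.deg`. The bound of the conditional expectation is the statement `*_bdd` of the module of
the statistic, the inequality `μ ≤ c * lam` is the corresponding field of `F.step : Step ..`.

* Index `(u, v)` adjacent, `cen = u`; at most `Δ ≤ K` for given `u`: `Mc = K`.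
* An element of `jE st u v` is `s(u', v')` with coloured pairs `(s(u,u'),c)`, `(s(v,v'),c)` (`par_spec`), so `u' ∈ ballG G 1 u`. Supports as in OkD with radius enlarged by one.
  `sJ`: picks of live pairs on such an edge; `dJ`: coloured pairs on `s(u',v')`.
* `|jE| ≤ |tset| ≤ K` (a set of colours, `card_image_le`). `sJ_bdd` with `nJ` (`lam = (1-θ/2) j > 0`), `iS_bdd` with `n4`, `bS_bdd` with `n5`, `mS_bdd` with `n6`, `dJ_bdd` with `n7`.
-/

set_option autoImplicit false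

open Finset
open scoped Classical

namespace Pool.Agent.H77.AC

variable {V : Type} [Fintype V] [DecidableEq V] {K : ℕ}
variable {G : SimpleGraph V} {n₀ r₀ s Δ : ℕ} {ρ θ δ c τ : ℝ} {P P' : RP}
  {st : St (PX V K) (Sym2 V)}

theorem oke_cnt (F : Full G n₀ r₀ s Δ ρ θ δ c τ P P' st) (v : V) :
    (univ.filter (fun i : {i : V × V // G.Adj i.1 i.2} => i.1.1 = v)).card ≤ K := by
  refine le_trans ?_ ((F.deg v).trans F.ΔK)
  refine card_le_card_of_injOn (fun i => i.1.2) ?_ ?_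
  · intro i hi
    have h1 := (mem_filter.1 (mem_coe.1 hi)).2
    rw [mem_coe, mem_filter]
    refine ⟨mem_univ _, ?_⟩
    rw [← h1]
    exact i.2
  · intro i hi j hj hij
    have h1 := (mem_filter.1 (mem_coe.1 hi)).2
    have h2 := (mem_filter.1 (mem_coe.1 hj)).2
    exact Subtype.ext (Prod.ext (h1.trans h2.symm) hij)

theorem oke_par (F : Full G n₀ r₀ s Δ ρ θ δ c τ P P' st) {u : V} {c' : Fin K}
    (h : Has st.R u c') : par st.R u c' ∈ ballG G 1 u := by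
  have h1 := F.ginv.R_E _ (par_spec st.R u c' h)
  have h2 : G.Adj u (par st.R u c') := by
    rw [SimpleGraph.mem_edgeSet] at h1
    exact h1
  exact ball_step G 0 u _ u (ball_self G 0 u) h2

theorem oke_tset (F : Full G n₀ r₀ s Δ ρ θ δ c τ P P' st) {u v : V} {c' : Fin K}
    {T : Sym2 V → Prop} (h : c' ∈ tset st.R T u v) :
    ∃ w ∈ s(par st.R u c', par st.R v c'), w ∈ ballG G 1 u := by
  rw [easy1_mem_tset] at h
  exact ⟨_, Sym2.mem_mk_left _ _, oke_par F h.1⟩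

theorem oke_jE (F : Full G n₀ r₀ s Δ ρ θ δ c τ P P' st) (u v : V) :
    ∀ e ∈ jE st u v, ∃ w ∈ e, w ∈ ballG G 1 u := by
  intro e he
  unfold jE at he
  rw [mem_image] at he
  obtain ⟨c', hc', rfl⟩ := he
  exact oke_tset F hc'

theorem oke_jE_card (st : St (PX V K) (Sym2 V)) (u v : V) : (jE st u v).card ≤ K := by
  unfold jE
  refine card_image_le.trans ?_
  refine (card_le_card (subset_univ _)).trans ?_
  rw [card_univ, Fintype.card_fin]

theorem ok8 (F : Full G n₀ r₀ s Δ ρ θ δ c τ P P' st) :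
    (fam8 G n₀ st θ P).OK (pr (gS G K n₀) st P.a P.B θ δ) (c ^ s)
      (Mloc K n₀ r₀) := by
  have hc0 : 0 ≤ c := le_trans (by norm_num) F.step.c0
  refine ok_mk G Δ F.deg F.ΔK _ (pr_mem F.hyp) (fam8 G n₀ st θ P) s c hc0 _
    (fun i : {i : V × V // G.Adj i.1 i.2} => i.1.1) (r₀ + 4 * (2 * n₀ + 2)) K ?_ ?_
    (fun v => oke_cnt F v) (Mloc1 K n₀ r₀) (Mloc2 K n₀ r₀ K (okd_Mc F).2)
  · intro (i : {i : V × V // G.Adj i.1 i.2})
    refine okd_b hc0 (sJ_bdd F.hyp i.1.1 i.1.2 s P.j (F.ginv.jj _ _ i.2)) F.step.nJ ?_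
    show 0 < (1 - θ / 2) * P.j
    have := F.step.θ1
    exact mul_pos (by linarith) F.step.j0
  · intro (i : {i : V × V // G.Adj i.1 i.2})
    exact okd_sS F (fun c' : Fin K => s(par st.R i.1.1 c', par st.R i.1.2 c'))
      (fun c' => c' ∈ tset st.R (fun e => e ∈ st.U) i.1.1 i.1.2) i.1.1 1 le_rfl
      (fun c' hc' => oke_tset F hc')

theorem ok15 (F : Full G n₀ r₀ s Δ ρ θ δ c τ P P' st) :
    (fam15 G n₀ st τ).OK (pr (gS G K n₀) st P.a P.B θ δ) (c ^ s)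
      (Mloc K n₀ r₀) := by
  have hc0 : 0 ≤ c := le_trans (by norm_num) F.step.c0
  exact ok_mk G Δ F.deg F.ΔK _ (pr_mem F.hyp) (fam15 G n₀ st τ) s c hc0 _
    (fun i : {i : V × V // G.Adj i.1 i.2} => i.1.1) (r₀ + 4 * (2 * n₀ + 2)) K
    (fun (i : {i : V × V // G.Adj i.1 i.2}) =>
      okd_iS_b F (jE st i.1.1 i.1.2) (oke_jE_card st i.1.1 i.1.2))
    (fun (i : {i : V × V // G.Adj i.1 i.2}) =>
      okd_iS F (jE st i.1.1 i.1.2) i.1.1 1 le_rfl (oke_jE F i.1.1 i.1.2))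
    (fun v => oke_cnt F v) (Mloc1 K n₀ r₀) (Mloc2 K n₀ r₀ K (okd_Mc F).2)

theorem ok17 (F : Full G n₀ r₀ s Δ ρ θ δ c τ P P' st) :
    (fam17 G n₀ st τ).OK (pr (gS G K n₀) st P.a P.B θ δ) (c ^ s)
      (Mloc K n₀ r₀) := by
  have hc0 : 0 ≤ c := le_trans (by norm_num) F.step.c0
  exact ok_mk G Δ F.deg F.ΔK _ (pr_mem F.hyp) (fam17 G n₀ st τ) s c hc0 _
    (fun i : {i : V × V // G.Adj i.1 i.2} => i.1.1) (r₀ + 4 * (2 * n₀ + 2)) K
    (fun (i : {i : V × V // G.Adj i.1 i.2}) =>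
      okd_bS_b F (jE st i.1.1 i.1.2) (oke_jE_card st i.1.1 i.1.2))
    (fun (i : {i : V × V // G.Adj i.1 i.2}) =>
      okd_bS F (jE st i.1.1 i.1.2) i.1.1 1 le_rfl (oke_jE F i.1.1 i.1.2))
    (fun v => oke_cnt F v) (Mloc1 K n₀ r₀) (Mloc2 K n₀ r₀ K (okd_Mc F).2)

theorem ok19 (F : Full G n₀ r₀ s Δ ρ θ δ c τ P P' st) :
    (fam19 G n₀ r₀ st τ).OK (pr (gS G K n₀) st P.a P.B θ δ) (c ^ s)
      (Mloc K n₀ r₀) := by
  have hc0 : 0 ≤ c := le_trans (by norm_num) F.step.c0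
  exact ok_mk G Δ F.deg F.ΔK _ (pr_mem F.hyp) (fam19 G n₀ r₀ st τ) s c hc0 _
    (fun i : {i : V × V // G.Adj i.1 i.2} => i.1.1) (r₀ + 4 * (2 * n₀ + 2)) K
    (fun (i : {i : V × V // G.Adj i.1 i.2}) =>
      okd_mS_b F (jE st i.1.1 i.1.2) (oke_jE_card st i.1.1 i.1.2))
    (fun (i : {i : V × V // G.Adj i.1 i.2}) =>
      okd_mS F _ (jE st i.1.1 i.1.2) i.1.1 1 le_rfl (oke_jE F i.1.1 i.1.2))
    (fun v => oke_cnt F v) (Mloc1 K n₀ r₀) (Mloc2 K n₀ r₀ K (okd_Mc F).2)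

theorem ok21 (F : Full G n₀ r₀ s Δ ρ θ δ c τ P P' st) :
    (fam21 G st τ).OK (pr (gS G K n₀) st P.a P.B θ δ) (c ^ s)
      (Mloc K n₀ r₀) := by
  have hc0 : 0 ≤ c := le_trans (by norm_num) F.step.c0
  exact ok_mk G Δ F.deg F.ΔK _ (pr_mem F.hyp) (fam21 G st τ) s c hc0 _
    (fun i : {i : V × V // G.Adj i.1 i.2} => i.1.1) (r₀ + 4 * (2 * n₀ + 2)) K
    (fun (i : {i : V × V // G.Adj i.1 i.2}) =>
      okd_b hc0 (dJ_bdd F.hyp i.1.1 i.1.2 s) F.step.n7 (okd_τ F))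
    (fun (i : {i : V × V // G.Adj i.1 i.2}) =>
      okd_dS (fun x : Fin K × PX V K => x.2) (fun x => x.2 ∈ st.R ∧
        x.1 ∈ tset st.R (fun e => e = x.2.1) i.1.1 i.1.2) i.1.1 1 _ (by omega)
      (fun x hx => by
        refine ⟨F.ginv.R_E x.2 hx.1, ?_⟩
        have h1 := oke_tset F hx.2
        have h2 : s(par st.R i.1.1 x.1, par st.R i.1.2 x.1) = x.2.1 :=
          ((easy1_mem_tset _ _ _ _ _).1 hx.2).2.2
        rwa [h2] at h1))
    (fun v => oke_cnt F v) (Mloc1 K n₀ r₀) (Mloc2 K n₀ r₀ K (okd_Mc F).2)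

end Pool.Agent.H77.AC
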