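import Pool.Agent.H77.AC.Loc0

/-!
# AC-OKF: the families nJ, nP, nD, nB (9, 10, 11, 12, 13)

Use `ok_mk` with `R = r₀ + 4 (2 n₀ + 2)`, `M = Mloc K n₀ r₀` (`Mloc1`, `Mloc2`), `hp = pr_mem F.hyp`,
`Δ`, `hΔ = F.deg`. The bound of the conditional expectation is the statement `*_bdd` of the module of
the statistic, the inequality `μ ≤ c * lam` is the corresponding field of `F.step : Step ..`.

* Index `(u, v)` adjacent, `cen = u`, `Mc = K` (at most `Δ` neighbours).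
* Supports: picks `(s(v,v'),c)` (live, end `v ∈ ballG G 1 u`), picks or keeps of pairs on `s(par R u c, v')` (`par_spec`: `par R u c` is a neighbour of `u`, coloured pairs are on edges of `G`, `R_E`), picks `(s(u,u'),c)`.
* `nJU_bdd`: `θ D + s ≤ c (2 θ D + τ K)` from `c ≥ 1/2`, `n1`. `nJF_bdd`: `K (θ/a) f + s ≤ c (2 K (θ/a) f + τ K)` the same way. `nP_bdd` with `n2`, `nD_bdd` with `n3`,
  `nB_bdd` with `n4` (`K θ² + 4 s + 8 s² ≤ K θ² (1+2ρ) + 12 s + 8 s²`). `lam > 0`. `hD`, `hf` from `GInv.deg`, `GInv.fdeg`.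
-/

set_option autoImplicit false

open Finset
open scoped Classical

namespace Pool.Agent.H77.AC

variable {V : Type} [Fintype V] [DecidableEq V] {K : ℕ}
variable {G : SimpleGraph V} {n₀ r₀ s Δ : ℕ} {ρ θ δ c τ : ℝ} {P P' : RP}
  {st : St (PX V K) (Sym2 V)}

theorem okf_Mc (F : Full G n₀ r₀ s Δ ρ θ δ c τ P P' st) :
    K ≤ K ^ 2 * (K + 1) ^ (r₀ + 4 * (2 * n₀ + 2)) := by
  have hK := F.step.K0
  have h1 : 1 ≤ (K + 1) ^ (r₀ + 4 * (2 * n₀ + 2)) := Nat.one_le_pow _ _ (by omega)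
  calc K ≤ K ^ 2 * 1 := by nlinarith
    _ ≤ K ^ 2 * (K + 1) ^ (r₀ + 4 * (2 * n₀ + 2)) := Nat.mul_le_mul_left _ h1

theorem okf_live (F : Full G n₀ r₀ s Δ ρ θ δ c τ P P' st) {x : PX V K} (hx : x ∈ st.L) :
    x.1 ∈ G.edgeSet := F.ginv.U_E _ (F.inv.L_U x hx)

theorem okf_supp {I : Type} [Fintype I] [DecidableEq I] (X : Stat I) (W : Finset I)
    (h : ∀ i, X.w i ≠ 0 → ∀ v, v ∈ X.D i ∪ X.C i → v ∈ W) : X.supp ⊆ W := by
  intro v hv
  unfold Stat.supp at hv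
  rw [mem_biUnion] at hv
  obtain ⟨i, hi, hv⟩ := hv
  rw [mem_filter] at hi
  exact h i hi.2 v hv

theorem okf_bvar {R : ℕ} {u : V} {t : Fin 3} {y : PX V K} (hy : y.1 ∈ G.edgeSet) {w : V}
    (hw : w ∈ y.1) (hb : w ∈ ballG G R u) : ((t, y) : Fin 3 × PX V K) ∈ bvar G K R u := by
  unfold bvar
  rw [mem_filter]
  exact ⟨mem_univ _, hy, w, hw, hb⟩

theorem okf_cnt (F : Full G n₀ r₀ s Δ ρ θ δ c τ P P' st) (v : V) :
    (univ.filter (fun i : {i : V × V // G.Adj i.1 i.2} => i.1.1 = v)).card ≤ K := by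
  refine le_trans ?_ ((F.deg v).trans F.ΔK)
  refine card_le_card_of_injOn (fun i => i.1.2) ?_ ?_
  · intro i hi
    have h1 := (mem_filter.1 (mem_coe.1 hi)).2
    rw [mem_coe, mem_filter]
    refine ⟨mem_univ _, ?_⟩
    rw [← h1]
    exact i.2
  · intro i hi j hj hij
    have h1 := (mem_filter.1 (mem_coe.1 hi)).2
    have h2 := (mem_filter.1 (mem_coe.1 hj)).2
    exact Subtype.ext (Prod.ext (h1.trans h2.symm) hij)

theorem okf_adj {u v : V} {n : ℕ} (h : G.Adj u v) (hn : 1 ≤ n) : v ∈ ballG G n u :=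
  ball_mono G hn _ (ball_step G 0 u v u (ball_self G 0 u) h)

theorem okf_par (F : Full G n₀ r₀ s Δ ρ θ δ c τ P P' st) {u : V} {c' : Fin K} {n : ℕ}
    (h : Has st.R u c') (hn : 1 ≤ n) : par st.R u c' ∈ ballG G n u := by
  have h1 := F.ginv.R_E _ (par_spec st.R u c' h)
  have h2 : G.Adj u (par st.R u c') := by
    rw [SimpleGraph.mem_edgeSet] at h1
    exact h1
  exact okf_adj h2 hn

theorem okf_mk (F : Full G n₀ r₀ s Δ ρ θ δ c τ P P' st)
    (X : V → V → Stat (Fin 3 × PX V K)) (lam μ : ℝ)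
    (hb : ∀ u v, G.Adj u v → (X u v).Bdd (pr (gS G K n₀) st P.a P.B θ δ) s μ)
    (h0 : 0 ≤ μ) (h1 : μ ≤ c * lam) (h2 : 0 < lam)
    (hs : ∀ u v, G.Adj u v → (X u v).supp ⊆ bvar G K (r₀ + 4 * (2 * n₀ + 2)) u) :
    (Famly.mk {i : V × V // G.Adj i.1 i.2} inferInstance (fun i => X i.1.1 i.1.2)
      (fun _ => lam)).OK (pr (gS G K n₀) st P.a P.B θ δ) (c ^ s) (Mloc K n₀ r₀) := by
  have hc0 : 0 ≤ c := le_trans (by norm_num) F.step.c0
  refine ok_mk G Δ F.deg F.ΔK _ (pr_mem F.hyp) _ s c hc0 _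
    (fun i : {i : V × V // G.Adj i.1 i.2} => i.1.1) (r₀ + 4 * (2 * n₀ + 2)) K ?_ ?_
    (fun v => okf_cnt F v) (Mloc1 K n₀ r₀) (Mloc2 K n₀ r₀ K (okf_Mc F))
  · intro (i : {i : V × V // G.Adj i.1 i.2})
    exact ⟨μ, h0, hb _ _ i.2, h1, h2⟩
  · intro (i : {i : V × V // G.Adj i.1 i.2})
    exact hs _ _ i.2

theorem okf_supp_pS {T : Type} [Fintype T] (y : T → PX V K) (act : T → Prop)
    (R : ℕ) (u : V) (h : ∀ i, act i → (y i).1 ∈ G.edgeSet ∧ ∃ w ∈ (y i).1, w ∈ ballG G R u) :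
    (pS y act).supp ⊆ bvar G K R u := by
  refine okf_supp _ _ ?_
  intro (i : T) hi v hv
  have hw : act i := by
    by_contra hcon
    exact hi (if_neg hcon)
  have hv' : v ∈ ({pick (y i)} : Finset (Fin 3 × PX V K)) ∪ ∅ := hv
  rw [union_empty, mem_singleton] at hv'
  rw [hv']
  obtain ⟨h1, w, h2, h3⟩ := h i hw
  exact okf_bvar h1 h2 h3

theorem okf_supp_ppS {T : Type} [Fintype T] (y z : T → PX V K) (act : T → Prop)
    (R : ℕ) (u : V) (h : ∀ i, act i → (y i).1 ∈ G.edgeSet ∧ ∃ w ∈ (y i).1, w ∈ ballG G R u)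
    (h' : ∀ i, act i → (z i).1 ∈ G.edgeSet ∧ ∃ w ∈ (z i).1, w ∈ ballG G R u) :
    (ppS y z act).supp ⊆ bvar G K R u := by
  refine okf_supp _ _ ?_
  intro (i : T) hi v hv
  have hw : act i := by
    by_contra hcon
    exact hi (if_neg hcon)
  have hv' : v ∈ ({pick (y i), pick (z i)} : Finset (Fin 3 × PX V K)) ∪ ∅ := hv
  rw [union_empty, mem_insert, mem_singleton] at hv'
  rcases hv' with hv' | hv'
  · rw [hv']
    obtain ⟨h1, w, h2, h3⟩ := h i hw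
    exact okf_bvar h1 h2 h3
  · rw [hv']
    obtain ⟨h1, w, h2, h3⟩ := h' i hw
    exact okf_bvar h1 h2 h3

theorem okf_supp_pdS {T : Type} [Fintype T] (y z : T → PX V K) (act : T → Prop)
    (R : ℕ) (u : V) (h : ∀ i, act i → (y i).1 ∈ G.edgeSet ∧ ∃ w ∈ (y i).1, w ∈ ballG G R u)
    (h' : ∀ i, act i → (z i).1 ∈ G.edgeSet ∧ ∃ w ∈ (z i).1, w ∈ ballG G R u) :
    (pdS y z act).supp ⊆ bvar G K R u := by
  refine okf_supp _ _ ?_
  intro (i : T) hi v hv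
  have hw : act i := by
    by_contra hcon
    exact hi (if_neg hcon)
  have hv' : v ∈ ({pick (y i)} : Finset (Fin 3 × PX V K)) ∪ {keep (z i)} := hv
  rw [mem_union, mem_singleton, mem_singleton] at hv'
  rcases hv' with hv' | hv'
  · rw [hv']
    obtain ⟨h1, w, h2, h3⟩ := h i hw
    exact okf_bvar h1 h2 h3
  · rw [hv']
    obtain ⟨h1, w, h2, h3⟩ := h' i hw
    exact okf_bvar h1 h2 h3

theorem okf_nJ (F : Full G n₀ r₀ s Δ ρ θ δ c τ P P' st) (T : Sym2 V → Prop) (u v : V)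
    (huv : G.Adj u v) :
    (nJ st T u v).supp ⊆ bvar G K (r₀ + 4 * (2 * n₀ + 2)) u := by
  unfold nJ
  refine okf_supp_pS _ _ _ _ ?_
  intro i hi
  exact ⟨okf_live F hi.1, v, Sym2.mem_mk_left _ _, okf_adj huv (by omega)⟩

theorem ok9 (F : Full G n₀ r₀ s Δ ρ θ δ c τ P P' st) :
    (fam9 G st θ τ P).OK (pr (gS G K n₀) st P.a P.B θ δ) (c ^ s)
      (Mloc K n₀ r₀) := by
  have hθ := F.step.θ0
  have hD := F.step.D0
  have hτ := F.step.τ0
  have hK : (0 : ℝ) < K := by exact_mod_cast F.step.K0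
  have hc := F.step.c0
  have hn := F.step.n1
  have h1 : 0 < θ * P.D := mul_pos hθ hD
  have h2 : 0 < τ * K := mul_pos hτ hK
  refine okf_mk F (fun u v => nJ st (fun e => e ∈ st.U) u v) (2 * θ * P.D + τ * K)
    (θ * P.D + s) (fun u v _ => nJU_bdd F.hyp u v s P.D (F.ginv.deg v)) (by positivity) ?_
    (by nlinarith) (fun u v huv => okf_nJ F _ u v huv)
  nlinarith

theorem ok10 (F : Full G n₀ r₀ s Δ ρ θ δ c τ P P' st) :
    (fam10 G st θ τ P).OK (pr (gS G K n₀) st P.a P.B θ δ) (c ^ s)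
      (Mloc K n₀ r₀) := by
  have hθ := F.step.θ0
  have hf := F.step.f0
  have hτ := F.step.τ0
  have hK : (0 : ℝ) < K := by exact_mod_cast F.step.K0
  have ha : (0 : ℝ) < P.a := by exact_mod_cast F.step.a0
  have hc := F.step.c0
  have hn := F.step.n1
  have h1 : 0 ≤ (K : ℝ) * (θ / P.a) * P.f := by positivity
  have h2 : 0 < τ * K := mul_pos hτ hK
  refine okf_mk F (fun u v => nJ st (FE G st) u v) (2 * (K * (θ / P.a) * P.f) + τ * K)
    (K * (θ / P.a) * P.f + s) (fun u v _ => nJF_bdd F.hyp u v s P.f F.ginv.fdeg)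
    (by positivity) ?_ (by linarith) (fun u v huv => okf_nJ F _ u v huv)
  nlinarith

theorem ok11 (F : Full G n₀ r₀ s Δ ρ θ δ c τ P P' st) :
    (fam11 G st τ).OK (pr (gS G K n₀) st P.a P.B θ δ) (c ^ s)
      (Mloc K n₀ r₀) := by
  have hD := F.step.D0
  have hK : (0 : ℝ) < K := by exact_mod_cast F.step.K0
  refine okf_mk F (fun u v => nP st u v) (τ * K) (θ ^ 2 * P.D + 6 * s + 8 * s ^ 2)
    (fun u v _ => nP_bdd F.hyp u v s P.D (F.ginv.deg v)) (by positivity) F.step.n2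
    (mul_pos F.step.τ0 hK) ?_
  intro u v huv
  unfold nP
  refine okf_supp_ppS _ _ _ _ _ ?_ ?_
  · intro i hi
    exact ⟨okf_live F hi.1, v, Sym2.mem_mk_left _ _, okf_adj huv (by omega)⟩
  · intro i hi
    refine ⟨okf_live F hi.2.2.1, par st.R u i.1.2, ?_, okf_par F hi.2.1 (by omega)⟩
    rw [hi.2.2.2]
    exact Sym2.mem_mk_left _ _

theorem ok12 (F : Full G n₀ r₀ s Δ ρ θ δ c τ P P' st) :
    (fam12 G st τ).OK (pr (gS G K n₀) st P.a P.B θ δ) (c ^ s)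
      (Mloc K n₀ r₀) := by
  have hθ := F.step.θ0
  have hδ := F.step.δ0
  have hK : (0 : ℝ) < K := by exact_mod_cast F.step.K0
  refine okf_mk F (fun u v => nD st u v) (τ * K) (K * θ * δ + 6 * s + 8 * s ^ 2)
    (fun u v _ => nD_bdd F.hyp u v s) (by positivity) F.step.n3
    (mul_pos F.step.τ0 hK) ?_
  intro u v huv
  unfold nD
  refine okf_supp_pdS _ _ _ _ _ ?_ ?_
  · intro i hi
    exact ⟨okf_live F hi.1, v, Sym2.mem_mk_left _ _, okf_adj huv (by omega)⟩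
  · intro i hi
    refine ⟨F.ginv.R_E _ hi.2.2.1, par st.R u i.1.2, ?_, okf_par F hi.2.1 (by omega)⟩
    rw [hi.2.2.2]
    exact Sym2.mem_mk_left _ _

theorem ok13 (F : Full G n₀ r₀ s Δ ρ θ δ c τ P P' st) :
    (fam13 G st τ).OK (pr (gS G K n₀) st P.a P.B θ δ) (c ^ s)
      (Mloc K n₀ r₀) := by
  have hθ := F.step.θ0
  have hρ := F.step.ρ0
  have hK : (0 : ℝ) < K := by exact_mod_cast F.step.K0
  have hn := F.step.n4
  have hs0 : (0 : ℝ) ≤ s := Nat.cast_nonneg s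
  have h1 : 0 ≤ (K : ℝ) * (θ ^ 2 * (2 * ρ)) := by positivity
  refine okf_mk F (fun u v => nB st u v) (τ * K) (K * θ ^ 2 + 4 * s + 8 * s ^ 2)
    (fun u v _ => nB_bdd F.hyp u v s) (by positivity) (by nlinarith)
    (mul_pos F.step.τ0 hK) ?_
  intro u v huv
  unfold nB
  refine okf_supp_ppS _ _ _ _ _ ?_ ?_
  · intro i hi
    exact ⟨okf_live F hi.1, v, Sym2.mem_mk_left _ _, okf_adj huv (by omega)⟩
  · intro i hi
    exact ⟨okf_live F hi.2.1, u, Sym2.mem_mk_left _ _, ball_self G _ _⟩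


end Pool.Agent.H77.AC
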