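import Pool.Agent.H77.AC.Loc0

/-!
# AC-OKG: the path families (22, 23)

Use `ok_mk` with `R = r₀ + 4 (2 n₀ + 2)`, `M = Mloc K n₀ r₀` (`Mloc1`, `Mloc2`), `hp = pr_mem F.hyp`,
`Δ`, `hΔ = F.deg`. The bound of the conditional expectation is the statement `*_bdd` of the module of
the statistic, the inequality `μ ≤ c * lam` is the corresponding field of `F.step : Step ..`.

* Index `(p, q, c)` resp. `(p, q)`, `p ≠ q`, `q ∈ ballG G r₀ p`; `cen = p`; for given `p` at most `(K+1)^r₀ K` indices (`ball_card`).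
* Supports: steps of a path from `p` of length `≤ r₀` (`path_ball`, steps are coloured or live, so on edges of `G`), `supp_path` with radius `r₀ + 1 ≤ R`.
* `z1_bdd` with field `nZ1`, `z2_bdd` with field `nZ2` (`l₀ = 2 n₀ + 3`); `hz` from `GInv.z1`. Positivity: `mu9 ≥ 1 > 0`, so `0 < c * lam` and `0 < lam`.
-/

set_option autoImplicit false

open Finset
open scoped Classical

namespace Pool.Agent.H77.AC

variable {V : Type} [Fintype V] [DecidableEq V] {K : ℕ}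
variable {G : SimpleGraph V} {n₀ r₀ s Δ : ℕ} {ρ θ δ c τ : ℝ} {P P' : RP}
  {st : St (PX V K) (Sym2 V)}

theorem okG_bvar_mono (G : SimpleGraph V) {n k : ℕ} (h : n ≤ k) (v : V) :
    bvar G K n v ⊆ bvar G K k v := by
  intro i hi
  rw [bvar, Finset.mem_filter] at hi ⊢
  obtain ⟨_, h1, u, h2, h3⟩ := hi
  exact ⟨Finset.mem_univ _, h1, u, h2, ball_mono G h v h3⟩

theorem okG_supp (F : Full G n₀ r₀ s Δ ρ θ δ c τ P P' st) (p : V) (Φ : PI V K r₀ → Prop)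
    (hΦ : ∀ i, Φ i → i.2.2.2 0 = p) :
    (pathS (gS G K n₀) st r₀ Φ).supp ⊆ bvar G K (r₀ + 4 * (2 * n₀ + 2)) p := by
  have hR : ∀ x ∈ st.R, x.1 ∈ G.edgeSet := F.ginv.R_E
  have hL : ∀ x ∈ st.L, x.1 ∈ G.edgeSet := fun x hx => F.ginv.U_E _ (F.inv.L_U x hx)
  intro y hy
  rw [Stat.supp, Finset.mem_biUnion] at hy
  obtain ⟨i, hi, hy⟩ := hy
  rw [Finset.mem_filter] at hi
  have hi2 : Φ i ∧ Function.Injective i.2.2.2 ∧ PI.set i ⊆ st.R ∪ st.L ∧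
      ¬ Disjoint (PI.set i) st.L := by
    by_contra hcon
    apply hi.2
    show (if Φ i ∧ Function.Injective i.2.2.2 ∧ PI.set i ⊆ st.R ∪ st.L ∧
      ¬ Disjoint (PI.set i) st.L then (1 : ℝ) else 0) = 0
    rw [if_neg hcon]
  have hy' : y ∈ dV st (PI.set i) ∪ cV (gS G K n₀) st (PI.set i) := hy
  refine okG_bvar_mono G (by omega : r₀ + 1 ≤ r₀ + 4 * (2 * n₀ + 2)) p ?_
  refine supp_path G n₀ st hL hR (PI.set i) r₀ p ?_ hy'
  intro x hx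
  have hx' : x ∈ univ.image (pstep i.2.2.2 i.2.1 i.2.2.1) := hx
  rw [Finset.mem_image] at hx'
  obtain ⟨k, _, rfl⟩ := hx'
  refine ⟨i.2.2.2 k.castSucc, Sym2.mem_mk_left _ _, ?_⟩
  have hb := path_ball G i.2.2.2 (fun l => by
    have h1 : pstep i.2.2.2 i.2.1 i.2.2.1 l ∈ st.R ∪ st.L :=
      hi2.2.2.1 (Finset.mem_image_of_mem _ (Finset.mem_univ l))
    rw [Finset.mem_union] at h1
    rcases h1 with h1 | h1
    · exact hR _ h1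
    · exact hL _ h1) k.castSucc
  rw [hΦ i hi2.1] at hb
  refine ball_mono G ?_ p hb
  have h1 := k.2
  have h2 := i.1.2
  show (k : ℕ) ≤ r₀
  omega

theorem okG_mu9 (r₀ M Γ : ℕ) : 1 ≤ mu9 r₀ M Γ := by
  unfold mu9
  have h0 : (0 : ℝ) ≤ r₀ := Nat.cast_nonneg _
  have h1 : (1 : ℝ) ≤ ((r₀ : ℝ) + 1) ^ 2 := one_le_pow₀ (by linarith)
  have h2 : (0 : ℝ) ≤ 2 * ((r₀ : ℝ) + 1) * (M + (2 * M + 2) ^ 2 * Γ) := by positivity
  linarith

theorem okG_pos {μ lam c : ℝ} (hc : 1 / 2 ≤ c) (hμ : 1 ≤ μ) (h : μ ≤ c * lam) : 0 < lam := by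
  by_contra hcon
  rw [not_lt] at hcon
  have h1 : c * lam ≤ 0 := mul_nonpos_of_nonneg_of_nonpos (by linarith) hcon
  linarith

theorem okG_ball (F : Full G n₀ r₀ s Δ ρ θ δ c τ P P' st) (v : V) :
    (ballG G r₀ v).card ≤ (K + 1) ^ r₀ :=
  (ball_card G Δ F.deg r₀ v).trans (Nat.pow_le_pow_left (Nat.succ_le_succ F.ΔK) r₀)

theorem ok22 (F : Full G n₀ r₀ s Δ ρ θ δ c τ P P' st) :
    (fam22 G n₀ r₀ st P P').OK (pr (gS G K n₀) st P.a P.B θ δ) (c ^ s)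
      (Mloc K n₀ r₀) := by
  have hK1 : 1 ≤ K := F.step.K0
  refine ok_mk G Δ F.deg F.ΔK _ (pr_mem F.hyp) (fam22 G n₀ r₀ st P P') s c
    (by linarith [F.step.c0]) (Mloc K n₀ r₀)
    (fun j : {i : V × V × Fin K // i.1 ≠ i.2.1 ∧ i.2.1 ∈ ballG G r₀ i.1} => j.1.1)
    (r₀ + 4 * (2 * n₀ + 2)) ((K + 1) ^ r₀ * K) ?_ ?_ ?_ (Mloc1 K n₀ r₀) (Mloc2 K n₀ r₀ _ ?_)
  · intro (j : {i : V × V × Fin K // i.1 ≠ i.2.1 ∧ i.2.1 ∈ ballG G r₀ i.1})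
    refine ⟨mu9 r₀ (s * (r₀ + 1)) P.Γ, by linarith [okG_mu9 r₀ (s * (r₀ + 1)) P.Γ], ?_,
      F.step.nZ1, okG_pos F.step.c0 (okG_mu9 r₀ (s * (r₀ + 1)) P.Γ) F.step.nZ1⟩
    exact z1_bdd F.hyp F.step.ρθ r₀ s F.ginv.z1 j.1.1 j.1.2.1 j.2.1 j.1.2.2
  · intro (j : {i : V × V × Fin K // i.1 ≠ i.2.1 ∧ i.2.1 ∈ ballG G r₀ i.1})
    exact okG_supp F j.1.1 (Φ1 r₀ j.1.1 j.1.2.1 j.1.2.2) (fun i hi => hi.1)
  · intro v
    have h1 : (univ.filter (fun j : {i : V × V × Fin K // i.1 ≠ i.2.1 ∧ i.2.1 ∈ ballG G r₀ i.1} =>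
        j.1.1 = v)).card ≤ ((ballG G r₀ v) ×ˢ (univ : Finset (Fin K))).card := by
      refine Finset.card_le_card_of_injOn (fun j => (j.1.2.1, j.1.2.2)) ?_ ?_
      · intro j hj
        rw [Finset.coe_filter, Set.mem_ofPred_eq] at hj
        rw [Finset.mem_coe, Finset.mem_product]
        refine ⟨?_, Finset.mem_univ _⟩
        show j.1.2.1 ∈ ballG G r₀ v
        rw [← hj.2]
        exact j.2.2
      · intro j hj j' hj' hjj
        rw [Finset.coe_filter, Set.mem_ofPred_eq] at hj hj'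
        have h2 : (j.1.2.1, j.1.2.2) = (j'.1.2.1, j'.1.2.2) := hjj
        exact Subtype.ext (Prod.ext (hj.2.trans hj'.2.symm) h2)
    refine h1.trans ?_
    rw [Finset.card_product, Finset.card_univ, Fintype.card_fin]
    exact Nat.mul_le_mul_right _ (okG_ball F v)
  · have h1 : (K + 1) ^ r₀ ≤ (K + 1) ^ (r₀ + 4 * (2 * n₀ + 2)) :=
      Nat.pow_le_pow_right (by omega) (by omega)
    calc (K + 1) ^ r₀ * K ≤ (K + 1) ^ (r₀ + 4 * (2 * n₀ + 2)) * (K * K) :=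
          Nat.mul_le_mul h1 (Nat.le_mul_of_pos_right _ F.step.K0)
      _ = K ^ 2 * (K + 1) ^ (r₀ + 4 * (2 * n₀ + 2)) := by ring

theorem ok23 (F : Full G n₀ r₀ s Δ ρ θ δ c τ P P' st) :
    (fam23 G n₀ r₀ st P P').OK (pr (gS G K n₀) st P.a P.B θ δ) (c ^ s)
      (Mloc K n₀ r₀) := by
  have hK1 : 1 ≤ K := F.step.K0
  have hμ0 : ∀ m : ℝ, 0 ≤ m → ∀ k : ℕ, 1 ≤ k → 1 ≤ m + (k : ℝ) * mu9 r₀ (s * (r₀ + 1)) P.Γ := by
    intro m hm k hk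
    have h1 := okG_mu9 r₀ (s * (r₀ + 1)) P.Γ
    have h2 : (1 : ℝ) ≤ k := by exact_mod_cast hk
    nlinarith
  have hn : (0 : ℝ) ≤ K ^ 2 * (θ / P.a) *
      (∑ n ∈ Icc (2 * n₀ + 3) r₀, (n : ℝ) * (1 - δ) ^ (n - 1)) := by
    have h1 : (0 : ℝ) ≤ 1 - δ := by linarith [F.step.δ1]
    have h2 : (0 : ℝ) ≤ θ / P.a := div_nonneg F.step.θ0.le (Nat.cast_nonneg _)
    refine mul_nonneg (mul_nonneg (by positivity) h2) (Finset.sum_nonneg (fun n _ => ?_))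
    exact mul_nonneg (Nat.cast_nonneg _) (pow_nonneg h1 _)
  have hk : 1 ≤ s * (r₀ + 1) := Nat.mul_pos F.step.s1 (Nat.succ_pos _)
  have hμ := hμ0 _ hn _ hk
  refine ok_mk G Δ F.deg F.ΔK _ (pr_mem F.hyp) (fam23 G n₀ r₀ st P P') s c
    (by linarith [F.step.c0]) (Mloc K n₀ r₀)
    (fun j : {i : V × V // i.1 ≠ i.2 ∧ i.2 ∈ ballG G r₀ i.1} => j.1.1)
    (r₀ + 4 * (2 * n₀ + 2)) ((K + 1) ^ r₀) ?_ ?_ ?_ (Mloc1 K n₀ r₀) (Mloc2 K n₀ r₀ _ ?_)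
  · intro (j : {i : V × V // i.1 ≠ i.2 ∧ i.2 ∈ ballG G r₀ i.1})
    refine ⟨K ^ 2 * (θ / P.a) * (∑ n ∈ Icc (2 * n₀ + 3) r₀, (n : ℝ) * (1 - δ) ^ (n - 1)) +
      (s * (r₀ + 1) : ℕ) * mu9 r₀ (s * (r₀ + 1)) P.Γ, by linarith, ?_, F.step.nZ2,
      okG_pos F.step.c0 hμ F.step.nZ2⟩
    exact z2_bdd F.hyp F.step.ρθ r₀ (2 * n₀ + 3) s (by omega) F.ginv.z1 j.1.1 j.1.2 j.2.1
  · intro (j : {i : V × V // i.1 ≠ i.2 ∧ i.2 ∈ ballG G r₀ i.1})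
    exact okG_supp F j.1.1 (Φ2 r₀ (2 * n₀ + 3) j.1.1 j.1.2) (fun i hi => hi.1)
  · intro v
    have h1 : (univ.filter (fun j : {i : V × V // i.1 ≠ i.2 ∧ i.2 ∈ ballG G r₀ i.1} =>
        j.1.1 = v)).card ≤ (ballG G r₀ v).card := by
      refine Finset.card_le_card_of_injOn (fun j => j.1.2) ?_ ?_
      · intro j hj
        rw [Finset.coe_filter, Set.mem_ofPred_eq] at hj
        rw [Finset.mem_coe]
        show j.1.2 ∈ ballG G r₀ v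
        rw [← hj.2]
        exact j.2.2
      · intro j hj j' hj' hjj
        rw [Finset.coe_filter, Set.mem_ofPred_eq] at hj hj'
        exact Subtype.ext (Prod.ext (hj.2.trans hj'.2.symm) hjj)
    exact h1.trans (okG_ball F v)
  · have h1 : (K + 1) ^ r₀ ≤ (K + 1) ^ (r₀ + 4 * (2 * n₀ + 2)) :=
      Nat.pow_le_pow_right (by omega) (by omega)
    calc (K + 1) ^ r₀ ≤ (K + 1) ^ (r₀ + 4 * (2 * n₀ + 2)) := h1
      _ ≤ K ^ 2 * (K + 1) ^ (r₀ + 4 * (2 * n₀ + 2)) :=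
          Nat.le_mul_of_pos_left _ (by positivity)

end Pool.Agent.H77.AC
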