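import Pool.Agent.H77.AC.Hist
import Pool.Agent.H77.AC.Closing

/-!
# AC-PATHSUM: sums over new alternating paths between two vertices

`PV n b c p q` = injective vertex sequences from `p` to `q`, all steps in `R ∪ L`, at least one step live.
`PS` = sum over `PV` of the product of the step weights given the history.

`path_free` (`b, c ∉ Col D₀`): apply `closing` with `A true u u' = Wh (s(u,u'), b)`,
`A false u u' = Wh (s(u,u'), c)`, `P` = the same restricted to coloured pairs (`∈ R`), `r = 1 - δ`,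
`π = θ/a`. Row sums by `row_sum_free` (column sums by symmetry `s(u,u') = s(u',u)`). A live pair
of colour `b` or `c` is not a history pick, so its weight is at most `θ/a`. For `v ∈ PV` some step is live,
hence `prodW P v = 0` and the summand is `prodW A v`; the other summands are nonnegative.

`path_all` (no restriction on colours): `closing` with `P` = restriction to `Qs st D₀`, `r = 1`,
gives `n θ/a` for the paths with a step outside `Qs`; the paths of `PV` with all steps in `Qs` are at most one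
(`walk_unique` with `Qs_proper`), with product at most `1` (`Wh ≤ 1`).

`joined_unique`: in `R` at most one length: `walk_length` (and `R_nd`); used for the index sums of `mS`.
-/

set_option autoImplicit false

open Finset
open scoped Classical

namespace Pool.Agent.H77.AC

variable {V : Type} [Fintype V] [DecidableEq V] {K : ℕ}

/-- new paths from `p` to `q` -/
noncomputable def PV (st : St (PX V K) (Sym2 V)) (n : ℕ) (b c : Fin K) (p q : V) :
    Finset (Fin (n + 1) → V) :=
  univ.filter (fun v => Function.Injective v ∧ v 0 = p ∧ v (Fin.last n) = q ∧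
    (∀ i, pstep v b c i ∈ st.R ∪ st.L) ∧ ∃ i, pstep v b c i ∈ st.L)

/-- the sum over new paths -/
noncomputable def PS (st : St (PX V K) (Sym2 V)) (D₀ C₀ : Finset (Fin 3 × PX V K)) (π δ : ℝ)
    (n : ℕ) (b c : Fin K) (p q : V) : ℝ :=
  ∑ v ∈ PV st n b c p q, ∏ i, Wh st D₀ C₀ π δ (pstep v b c i)

/-- a path in the forced pairs through at least one history pick -/
def HJ (st : St (PX V K) (Sym2 V)) (D₀ : Finset (Fin 3 × PX V K)) (n : ℕ) (b c : Fin K)
    (p q : V) : Prop :=
  ∃ v : Fin (n + 1) → V, Function.Injective v ∧ v 0 = p ∧ v (Fin.last n) = q ∧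
    (∀ i, pstep v b c i ∈ Qs st D₀) ∧ ∃ i, pstep v b c i ∈ st.L

variable {G : SimpleGraph V} {n₀ : ℕ} {st : St (PX V K) (Sym2 V)} {a B Γ m : ℕ}
  {ρ w g θ δ : ℝ}

/-- colour of a parity -/
def psCol (b c : Fin K) (β : Bool) : Fin K := if β = true then b else c

theorem pathsum_step {n : ℕ} (v : Fin (n + 1) → V) (b c : Fin K) (i : Fin n) :
    pstep v b c i = (s(v i.castSucc, v i.succ), psCol b c (decide ((i : ℕ) % 2 = 0))) := by
  unfold pstep psCol
  congr 1
  by_cases h : (i : ℕ) % 2 = 0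
  · simp [h]
  · simp [h]

theorem pathsum_prod (f : PX V K → ℝ) {n : ℕ} (v : Fin (n + 1) → V) (b c : Fin K) :
    ∏ i, f (pstep v b c i) = prodW (fun β u u' => f (s(u, u'), psCol b c β)) v := by
  unfold prodW
  refine Finset.prod_congr rfl fun i _ => ?_
  rw [pathsum_step]

theorem pathsum_Wh_le (h : Hyp (gS G K n₀) st K a B Γ m ρ w g θ δ)
    (D₀ C₀ : Finset (Fin 3 × PX V K)) (x : PX V K) : Wh st D₀ C₀ (θ / a) δ x ≤ 1 := by
  have ha : (1 : ℝ) ≤ a := by exact_mod_cast h.a0
  have ha0 : (0 : ℝ) < a := by linarith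
  have h2 : θ / a ≤ 1 := by
    rw [div_le_one ha0]
    exact h.θ1.trans ha
  have hδ := h.δ0
  unfold Wh
  split_ifs <;> linarith

theorem pathsum_Wh_new (h : Hyp (gS G K n₀) st K a B Γ m ρ w g θ δ)
    (D₀ C₀ : Finset (Fin 3 × PX V K)) (x : PX V K) (hx : x ∉ Qs st D₀) :
    Wh st D₀ C₀ (θ / a) δ x ≤ θ / a := by
  have ha : (1 : ℝ) ≤ a := by exact_mod_cast h.a0
  have ha0 : (0 : ℝ) < a := by linarith
  have h1 : 0 ≤ θ / a := div_nonneg h.θ0.le ha0.le
  unfold Qs at hx
  rw [mem_union, mem_filter, not_or] at hx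
  obtain ⟨hx1, hx2⟩ := hx
  unfold Wh
  rw [if_neg hx1]
  by_cases hL : x ∈ st.L
  · rw [if_pos hL]
    have h3 : pick x ∉ D₀ := fun h => hx2 ⟨hL, h⟩
    rw [if_neg h3]
    split_ifs
    · exact h1
    · exact le_rfl
  · rw [if_neg hL]
    exact h1

/-- the common part of the two bounds -/
theorem pathsum_core (h : Hyp (gS G K n₀) st K a B Γ m ρ w g θ δ)
    {D₀ C₀ : Finset (Fin 3 × PX V K)} (T : Finset (PX V K)) {r : ℝ} (hr : 0 ≤ r)
    (n : ℕ) (b c : Fin K) (hT : ∀ β u u', (s(u, u'), psCol b c β) ∉ T →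
      Wh st D₀ C₀ (θ / a) δ (s(u, u'), psCol b c β) ≤ θ / a)
    (hrow : ∀ β u, ∑ u', Wh st D₀ C₀ (θ / a) δ (s(u, u'), psCol b c β) ≤ r) (p q : V) :
    ∑ v ∈ univ.filter (fun v : Fin (n + 1) → V => v 0 = p ∧ v (Fin.last n) = q),
      (∏ i, Wh st D₀ C₀ (θ / a) δ (pstep v b c i) -
        ∏ i, if pstep v b c i ∈ T then Wh st D₀ C₀ (θ / a) δ (pstep v b c i) else 0) ≤
      n * (θ / a) * r ^ (n - 1) := by
  have ha : (1 : ℝ) ≤ a := by exact_mod_cast h.a0
  have ha0 : (0 : ℝ) < a := by linarith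
  have h1 : 0 ≤ θ / a := div_nonneg h.θ0.le ha0.le
  have hW := fun x => Wh_nonneg h D₀ C₀ x
  have key := closing (V := V)
    (fun β u u' => Wh st D₀ C₀ (θ / a) δ (s(u, u'), psCol b c β))
    (fun β u u' => if (s(u, u'), psCol b c β) ∈ T then
      Wh st D₀ C₀ (θ / a) δ (s(u, u'), psCol b c β) else 0) r (θ / a) hr h1 ?_ ?_ ?_ ?_ ?_ n p q
  · refine le_trans (le_of_eq ?_) key
    refine Finset.sum_congr (by ext v; simp only [mem_filter]) fun v _ => ?_
    rw [pathsum_prod (fun x => Wh st D₀ C₀ (θ / a) δ x) v b c]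
    rw [pathsum_prod (fun x => if x ∈ T then Wh st D₀ C₀ (θ / a) δ x else 0) v b c]
  · intro β u u'
    split_ifs
    · exact hW _
    · exact le_rfl
  · intro β u u'
    split_ifs
    · exact le_rfl
    · exact hW _
  · intro β u u'
    split_ifs with hmem
    · rw [sub_self]; exact h1
    · rw [sub_zero]
      exact hT β u u' hmem
  · intro β u
    exact hrow β u
  · intro β u'
    calc ∑ u, (if (s(u, u'), psCol b c β) ∈ T then
          Wh st D₀ C₀ (θ / a) δ (s(u, u'), psCol b c β) else 0)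
        ≤ ∑ u, Wh st D₀ C₀ (θ / a) δ (s(u', u), psCol b c β) := by
          refine Finset.sum_le_sum fun u _ => ?_
          rw [Sym2.eq_swap]
          split_ifs
          · exact le_rfl
          · exact hW _
      _ ≤ r := hrow β u'

/-- summands over a subset -/
theorem pathsum_sub (h : Hyp (gS G K n₀) st K a B Γ m ρ w g θ δ)
    (D₀ C₀ : Finset (Fin 3 × PX V K)) (T : Finset (PX V K)) (n : ℕ) (b c : Fin K) (p q : V) :
    ∑ v ∈ PV st n b c p q, (∏ i, Wh st D₀ C₀ (θ / a) δ (pstep v b c i) -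
        ∏ i, if pstep v b c i ∈ T then Wh st D₀ C₀ (θ / a) δ (pstep v b c i) else 0) ≤
    ∑ v ∈ univ.filter (fun v : Fin (n + 1) → V => v 0 = p ∧ v (Fin.last n) = q),
      (∏ i, Wh st D₀ C₀ (θ / a) δ (pstep v b c i) -
        ∏ i, if pstep v b c i ∈ T then Wh st D₀ C₀ (θ / a) δ (pstep v b c i) else 0) := by
  have hW := fun x => Wh_nonneg h D₀ C₀ x
  refine Finset.sum_le_sum_of_subset_of_nonneg ?_ ?_
  · intro v hv
    rw [PV, mem_filter] at hv
    rw [mem_filter]
    exact ⟨mem_univ _, hv.2.2.1, hv.2.2.2.1⟩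
  · intro v _ _
    rw [sub_nonneg]
    refine Finset.prod_le_prod ?_ ?_
    · intro i _
      split_ifs
      · exact hW _
      · exact le_rfl
    · intro i _
      split_ifs
      · exact le_rfl
      · exact hW _

theorem PS_nonneg (h : Hyp (gS G K n₀) st K a B Γ m ρ w g θ δ)
    (D₀ C₀ : Finset (Fin 3 × PX V K)) (n : ℕ) (b c : Fin K) (p q : V) :
    0 ≤ PS st D₀ C₀ (θ / a) δ n b c p q := by
  unfold PS
  exact Finset.sum_nonneg fun v _ => Finset.prod_nonneg fun i _ => Wh_nonneg h D₀ C₀ _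

theorem path_free (h : Hyp (gS G K n₀) st K a B Γ m ρ w g θ δ) (hρ : ρ * θ ≤ 1 - δ) {M : ℕ}
    {D₀ C₀ : Finset (Fin 3 × PX V K)} (hH : Hist (gS G K n₀) st D₀ C₀ M)
    (n : ℕ) (b c : Fin K) (hb : b ∉ Col D₀) (hc : c ∉ Col D₀) (p q : V) :
    PS st D₀ C₀ (θ / a) δ n b c p q ≤ n * (θ / a) * (1 - δ) ^ (n - 1) := by
  have hδ := h.δ1
  have hcol : ∀ β, psCol b c β ∉ Col D₀ := by
    intro β
    unfold psCol
    split_ifs
    · exact hb
    · exact hc
  have key := pathsum_core h (D₀ := D₀) (C₀ := C₀) st.R (r := 1 - δ) (by linarith) n b c ?_ ?_ p q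
  · refine le_trans ?_ key
    refine le_trans (le_of_eq ?_) (pathsum_sub h D₀ C₀ st.R n b c p q)
    unfold PS
    refine Finset.sum_congr rfl fun v hv => ?_
    rw [PV, mem_filter] at hv
    obtain ⟨-, -, -, -, -, i, hi⟩ := hv
    have h0 : (∏ i, if pstep v b c i ∈ st.R then
        Wh st D₀ C₀ (θ / a) δ (pstep v b c i) else 0) = 0 := by
      refine Finset.prod_eq_zero (mem_univ i) ?_
      rw [if_neg]
      intro hR
      exact (Finset.disjoint_left.1 (RL_disj h)) hR hi
    rw [h0, sub_zero]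
  · intro β u u' hR
    apply pathsum_Wh_new h
    unfold Qs
    rw [mem_union, mem_filter, not_or]
    refine ⟨hR, fun hx => ?_⟩
    apply hcol β
    unfold Col
    exact mem_image.2 ⟨_, hx.2, rfl⟩
  · intro β u
    exact row_sum_free h hρ hH u _ (hcol β)

theorem path_all (h : Hyp (gS G K n₀) st K a B Γ m ρ w g θ δ) (hρ : ρ * θ ≤ 1 - δ) {M : ℕ}
    {D₀ C₀ : Finset (Fin 3 × PX V K)} (hH : Hist (gS G K n₀) st D₀ C₀ M)
    (n : ℕ) (b c : Fin K) (p q : V) :
    PS st D₀ C₀ (θ / a) δ n b c p q ≤ n * (θ / a) + if HJ st D₀ n b c p q then 1 else 0 := by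
  have key := pathsum_core h (D₀ := D₀) (C₀ := C₀) (Qs st D₀) (r := 1) zero_le_one n b c ?_ ?_ p q
  · rw [one_pow, mul_one] at key
    have h1 := (pathsum_sub h D₀ C₀ (Qs st D₀) n b c p q).trans key
    have h2 : ∑ v ∈ PV st n b c p q, (∏ i, if pstep v b c i ∈ Qs st D₀ then
        Wh st D₀ C₀ (θ / a) δ (pstep v b c i) else 0) ≤
        if HJ st D₀ n b c p q then (1 : ℝ) else 0 := by
      rw [← Finset.sum_filter_add_sum_filter_not (PV st n b c p q)
        (fun v => ∀ i, pstep v b c i ∈ Qs st D₀)]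
      have h3 : ∑ v ∈ (PV st n b c p q).filter (fun v => ¬ ∀ i, pstep v b c i ∈ Qs st D₀),
          (∏ i, if pstep v b c i ∈ Qs st D₀ then
            Wh st D₀ C₀ (θ / a) δ (pstep v b c i) else 0) = 0 := by
        refine Finset.sum_eq_zero fun v hv => ?_
        rw [mem_filter] at hv
        obtain ⟨-, hv⟩ := hv
        rw [not_forall] at hv
        obtain ⟨i, hi⟩ := hv
        exact Finset.prod_eq_zero (mem_univ i) (if_neg hi)
      rw [h3, add_zero]
      have hcard : ((PV st n b c p q).filter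
          (fun v => ∀ i, pstep v b c i ∈ Qs st D₀)).card ≤ 1 := by
        rw [Finset.card_le_one]
        intro v hv v' hv'
        rw [mem_filter, PV, mem_filter] at hv hv'
        refine walk_unique (fun β u u' => (s(u, u'), psCol b c β) ∈ Qs st D₀) ?_ n v v' ?_ ?_ ?_
        · intro β u u₁ u₂ g1 g2
          exact Qs_proper h hH u u₁ u₂ _ g1 g2
        · rw [hv.1.2.2.1, hv'.1.2.2.1]
        · intro i
          have := hv.2 i
          rwa [pathsum_step] at this
        · intro i
          have := hv'.2 i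
          rwa [pathsum_step] at this
      by_cases hJ : HJ st D₀ n b c p q
      · rw [if_pos hJ]
        calc _ ≤ ∑ v ∈ (PV st n b c p q).filter (fun v => ∀ i, pstep v b c i ∈ Qs st D₀),
              (1 : ℝ) := by
              refine Finset.sum_le_sum fun v _ => ?_
              refine Finset.prod_le_one ?_ ?_
              · intro i _
                split_ifs
                · exact Wh_nonneg h D₀ C₀ _
                · exact le_rfl
              · intro i _
                split_ifs
                · exact pathsum_Wh_le h D₀ C₀ _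
                · exact zero_le_one
          _ ≤ 1 := by
              rw [Finset.sum_const, nsmul_eq_mul, mul_one]
              exact_mod_cast hcard
      · rw [if_neg hJ]
        refine le_of_eq (Finset.sum_eq_zero fun v hv => ?_)
        exfalso
        apply hJ
        rw [mem_filter, PV, mem_filter] at hv
        exact ⟨v, hv.1.2.1, hv.1.2.2.1, hv.1.2.2.2.1, hv.2, hv.1.2.2.2.2.2⟩
    have h4 : PS st D₀ C₀ (θ / a) δ n b c p q =
        ∑ v ∈ PV st n b c p q, (∏ i, Wh st D₀ C₀ (θ / a) δ (pstep v b c i) -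
          ∏ i, if pstep v b c i ∈ Qs st D₀ then
            Wh st D₀ C₀ (θ / a) δ (pstep v b c i) else 0) +
        ∑ v ∈ PV st n b c p q, (∏ i, if pstep v b c i ∈ Qs st D₀ then
            Wh st D₀ C₀ (θ / a) δ (pstep v b c i) else 0) := by
      rw [← Finset.sum_add_distrib]
      unfold PS
      refine Finset.sum_congr rfl fun v _ => ?_
      rw [sub_add_cancel]
    rw [h4]
    exact add_le_add h1 h2
  · intro β u u' hQ
    exact pathsum_Wh_new h D₀ C₀ _ hQ
  · intro β u
    exact row_sum h hρ hH u _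

/-- `R`-paths from `p` to `q` with colours `b, c` in this order: at most one pair (length, path) -/
theorem joined_unique (h : Hyp (gS G K n₀) st K a B Γ m ρ w g θ δ) (n n' : ℕ) (b c : Fin K)
    (v : Fin (n + 1) → V) (v' : Fin (n' + 1) → V) (hv : Function.Injective v)
    (hv' : Function.Injective v') (h0 : v 0 = v' 0) (hl : v (Fin.last n) = v' (Fin.last n'))
    (hR : ∀ i, pstep v b c i ∈ st.R) (hR' : ∀ i, pstep v' b c i ∈ st.R) :
    (⟨n, v⟩ : (n : ℕ) × (Fin (n + 1) → V)) = ⟨n', v'⟩ := by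
  have hH : Hist (gS G K n₀) st ∅ ∅ 0 := by
    refine ⟨by simp, by simp, ?_, ?_⟩
    · intro i hi
      exact absurd hi (Finset.notMem_empty i)
    · intro x hx
      exact absurd hx (Finset.notMem_empty _)
  have hQ : ∀ (β : Bool) (u u₁ u₂ : V), (s(u, u₁), psCol b c β) ∈ st.R →
      (s(u, u₂), psCol b c β) ∈ st.R → u₁ = u₂ := by
    intro β u u₁ u₂ g1 g2
    refine Qs_proper h hH u u₁ u₂ (psCol b c β) ?_ ?_
    · unfold Qs
      exact mem_union_left _ g1
    · unfold Qs
      exact mem_union_left _ g2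
  have hs : ∀ i : Fin n, (s(v i.castSucc, v i.succ),
      psCol b c (decide ((i : ℕ) % 2 = 0))) ∈ st.R := by
    intro i
    have := hR i
    rwa [pathsum_step] at this
  have hs' : ∀ i : Fin n', (s(v' i.castSucc, v' i.succ),
      psCol b c (decide ((i : ℕ) % 2 = 0))) ∈ st.R := by
    intro i
    have := hR' i
    rwa [pathsum_step] at this
  have hn : n = n' := walk_length (fun β u u' => (s(u, u'), psCol b c β) ∈ st.R) hQ n n' v v'
    hv hv' h0 hl hs hs'
  subst hn
  have hvv : v = v' := walk_unique (fun β u u' => (s(u, u'), psCol b c β) ∈ st.R) hQ n v v'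
    h0 hs hs'
  rw [hvv]

end Pool.Agent.H77.AC
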