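import Pool.Agent.H77.AC.OkA
import Pool.Agent.H77.AC.OkB
import Pool.Agent.H77.AC.OkC
import Pool.Agent.H77.AC.OkD
import Pool.Agent.H77.AC.OkE
import Pool.Agent.H77.AC.OkF
import Pool.Agent.H77.AC.OkG
import Pool.Agent.H77.AC.NewInv
import Pool.Agent.H77.AC.NewMed
import Pool.Agent.H77.AC.NewFail
import Pool.Agent.H77.AC.NewJ

/-!
# AC-ROUND: one round of the nibble
-/

set_option autoImplicit false

open Finset
open scoped Classical

namespace Pool.Agent.H77.AC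

variable {V : Type} [Fintype V] [DecidableEq V] {K : ℕ}
variable {G : SimpleGraph V} {n₀ r₀ s Δ : ℕ} {ρ θ δ c τ : ℝ} {P P' : RP}
  {st : St (PX V K) (Sym2 V)}

/-- all statistics are below their thresholds -/
structure AllSmall (G : SimpleGraph V) (n₀ r₀ : ℕ) (θ ρ τ : ℝ) (P P' : RP)
    (st : St (PX V K) (Sym2 V)) (ω : Fin 3 × PX V K → Bool) : Prop where
  f1 : ∀ j, ((fam1 G n₀ st θ P).X j).val ω < (fam1 G n₀ st θ P).lam j
  f2 : ∀ j, ((fam2 G n₀ st θ P).X j).val ω < (fam2 G n₀ st θ P).lam j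
  f3 : ∀ j, ((fam3 G n₀ st θ P).X j).val ω < (fam3 G n₀ st θ P).lam j
  f4 : ∀ j, ((fam4 G n₀ st ρ P').X j).val ω < (fam4 G n₀ st ρ P').lam j
  f5 : ∀ j, ((fam5 G n₀ st P').X j).val ω < (fam5 G n₀ st P').lam j
  f6 : ∀ j, ((fam6 G n₀ st P').X j).val ω < (fam6 G n₀ st P').lam j
  f7 : ∀ j, ((fam7 G n₀ st P').X j).val ω < (fam7 G n₀ st P').lam j
  f8 : ∀ j, ((fam8 G n₀ st θ P).X j).val ω < (fam8 G n₀ st θ P).lam j
  f9 : ∀ j, ((fam9 G st θ τ P).X j).val ω < (fam9 G st θ τ P).lam j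
  f10 : ∀ j, ((fam10 G st θ τ P).X j).val ω < (fam10 G st θ τ P).lam j
  f11 : ∀ j, ((fam11 G st τ).X j).val ω < (fam11 G st τ).lam j
  f12 : ∀ j, ((fam12 G st τ).X j).val ω < (fam12 G st τ).lam j
  f13 : ∀ j, ((fam13 G st τ).X j).val ω < (fam13 G st τ).lam j
  f14 : ∀ j, ((fam14 G n₀ st τ).X j).val ω < (fam14 G n₀ st τ).lam j
  f15 : ∀ j, ((fam15 G n₀ st τ).X j).val ω < (fam15 G n₀ st τ).lam j
  f16 : ∀ j, ((fam16 G n₀ st τ).X j).val ω < (fam16 G n₀ st τ).lam j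
  f17 : ∀ j, ((fam17 G n₀ st τ).X j).val ω < (fam17 G n₀ st τ).lam j
  f18 : ∀ j, ((fam18 G n₀ r₀ st τ).X j).val ω < (fam18 G n₀ r₀ st τ).lam j
  f19 : ∀ j, ((fam19 G n₀ r₀ st τ).X j).val ω < (fam19 G n₀ r₀ st τ).lam j
  f20 : ∀ j, ((fam20 st τ).X j).val ω < (fam20 st τ).lam j
  f21 : ∀ j, ((fam21 G st τ).X j).val ω < (fam21 G st τ).lam j
  f22 : ∀ j, ((fam22 G n₀ r₀ st P P').X j).val ω < (fam22 G n₀ r₀ st P P').lam j
  f23 : ∀ j, ((fam23 G n₀ r₀ st P P').X j).val ω < (fam23 G n₀ r₀ st P P').lam j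

theorem exists_small (F : Full G n₀ r₀ s Δ ρ θ δ c τ P P' st)
    (hq : 4 * c ^ s * ((23 * Mloc K n₀ r₀ * Mloc K n₀ r₀ : ℕ) : ℝ) ≤ 1) :
    ∃ ω, AllSmall G n₀ r₀ θ ρ τ P P' st ω := by
  have hM : 1 ≤ Mloc K n₀ r₀ := by
    unfold Mloc
    exact Nat.one_le_pow _ _ (by positivity)
  obtain ⟨ω, hω⟩ := core (pr (gS G K n₀) st P.a P.B θ δ) (pr_mem F.hyp)
    ![fam1 G n₀ st θ P, fam2 G n₀ st θ P, fam3 G n₀ st θ P, fam4 G n₀ st ρ P', fam5 G n₀ st P',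
      fam6 G n₀ st P', fam7 G n₀ st P', fam8 G n₀ st θ P, fam9 G st θ τ P, fam10 G st θ τ P,
      fam11 G st τ, fam12 G st τ, fam13 G st τ, fam14 G n₀ st τ, fam15 G n₀ st τ,
      fam16 G n₀ st τ, fam17 G n₀ st τ, fam18 G n₀ r₀ st τ, fam19 G n₀ r₀ st τ, fam20 st τ,
      fam21 G st τ, fam22 G n₀ r₀ st P P', fam23 G n₀ r₀ st P P'] (c ^ s)
    (Mloc K n₀ r₀) hM (by
      intro t
      fin_cases t
      · exact ok1 F
      · exact ok2 F
      · exact ok3 F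
      · exact ok4 F
      · exact ok5 F
      · exact ok6 F
      · exact ok7 F
      · exact ok8 F
      · exact ok9 F
      · exact ok10 F
      · exact ok11 F
      · exact ok12 F
      · exact ok13 F
      · exact ok14 F
      · exact ok15 F
      · exact ok16 F
      · exact ok17 F
      · exact ok18 F
      · exact ok19 F
      · exact ok20 F
      · exact ok21 F
      · exact ok22 F
      · exact ok23 F) hq
  exact ⟨ω, ⟨hω 0, hω 1, hω 2, hω 3, hω 4, hω 5, hω 6, hω 7, hω 8, hω 9, hω 10, hω 11, hω 12,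
    hω 13, hω 14, hω 15, hω 16, hω 17, hω 18, hω 19, hω 20, hω 21, hω 22⟩⟩

end Pool.Agent.H77.AC
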