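import Pool.Agent.H77.AC.Round

/-!
# AC-ROUNDDET: the deterministic part of one round
-/

set_option autoImplicit false

open Finset
open scoped Classical

namespace Pool.Agent.H77.AC

variable {V : Type} [Fintype V] [DecidableEq V] {K : ℕ}
variable {G : SimpleGraph V} {n₀ r₀ s Δ : ℕ} {ρ θ δ c τ : ℝ} {P P' : RP}
  {st : St (PX V K) (Sym2 V)}

theorem rd_list (F : Full G n₀ r₀ s Δ ρ θ δ c τ P P' st) (ω : Fin 3 × PX V K → Bool)
    (A : AllSmall G n₀ r₀ θ ρ τ P P' st ω) (e : Sym2 V) (he : e ∈ st.U) :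
    (kA (gS G K n₀) st e).val ω + (kB (gS G K n₀) st e).val ω + (kC (gS G K n₀) st e).val ω ≤
      (P.a : ℝ) - P'.a := by
  have h1 := A.f1 ⟨e, he⟩
  have h2 := A.f2 ⟨e, he⟩
  have h3 := A.f3 ⟨e, he⟩
  change (kA (gS G K n₀) st e).val ω < θ / P.a * ∑ x ∈ own (gS G K n₀) st e,
    ((conf (gS G K n₀) st x).card : ℝ) + θ ^ 2 * P.a / 3 at h1
  change (kB (gS G K n₀) st e).val ω < θ / P.a * ∑ x ∈ own (gS G K n₀) st e,
    ((P.B : ℝ) - (conf (gS G K n₀) st x).card) + θ ^ 2 * P.a / 3 at h2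
  change (kC (gS G K n₀) st e).val ω < P.a * (θ ^ 2 * P.w) + θ ^ 2 * P.a / 3 at h3
  have hcard : ((own (gS G K n₀) st e).card : ℝ) = P.a := by
    exact_mod_cast F.inv.list e he
  have ha : (0 : ℝ) < P.a := by exact_mod_cast F.step.a0
  have hsum : θ / P.a * ∑ x ∈ own (gS G K n₀) st e, ((conf (gS G K n₀) st x).card : ℝ) +
      θ / P.a * ∑ x ∈ own (gS G K n₀) st e, ((P.B : ℝ) - (conf (gS G K n₀) st x).card) =
      θ * P.B := by
    rw [← mul_add, ← Finset.sum_add_distrib]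
    have : ∀ x ∈ own (gS G K n₀) st e, ((conf (gS G K n₀) st x).card : ℝ) +
        ((P.B : ℝ) - (conf (gS G K n₀) st x).card) = P.B := fun x _ => by ring
    rw [Finset.sum_congr rfl this, Finset.sum_const, nsmul_eq_mul, hcard]
    field_simp
  have hnl := F.step.nl
  have : θ ^ 2 * P.a / 3 + θ ^ 2 * P.a / 3 + (P.a * (θ ^ 2 * P.w) + θ ^ 2 * P.a / 3) =
      P.a * (θ ^ 2 * (P.w + 1)) := by ring
  linarith

theorem rd_crude (F : Full G n₀ r₀ s Δ ρ θ δ c τ P P' st) (ω : Fin 3 × PX V K → Bool)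
    (A : AllSmall G n₀ r₀ θ ρ τ P P' st ω) (φ : Fm (PX V K) (Sym2 V) (V × Fin K))
    (B : Finset (PX V K)) (n : ℕ) :
    (cS st (φ.sets (gS G K n₀)) B n).val ω ≤ ((K ^ (n - 1) * P'.Γ : ℕ) : ℝ) := by
  by_cases hex : (∃ Q ∈ φ.sets (gS G K n₀), B ⊆ Q) ∧ n < 2 * (2 * n₀ + 2) + 1
  · exact (A.f6 ⟨(φ, B, ⟨n, hex.2⟩), hex.1⟩).le
  · have hz : (cS st (φ.sets (gS G K n₀)) B n).val ω = 0 := by
      unfold Stat.val
      apply Finset.sum_eq_zero
      intro i _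
      have hw : (cS st (φ.sets (gS G K n₀)) B n).w i = 0 := by
        show (if _ then (1 : ℝ) else 0) = 0
        rw [if_neg]
        rintro ⟨hQ, hBQ, _, hT, hc⟩
        apply hex
        refine ⟨⟨i.1, hQ, hBQ⟩, ?_⟩
        have h1 := Fm_card F.hyp φ i.1 hQ
        have h2 : ((i.1 \ B) ∩ st.L).card ≤ i.1.card :=
          Finset.card_le_card (fun x hx => (Finset.mem_sdiff.1 (Finset.mem_inter.1 hx).1).1)
        omega
      rw [hw]
      simp
    rw [hz]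
    positivity

theorem Z1_empty (G : SimpleGraph V) (R : Finset (PX V K)) (hR : ∀ x ∈ R, x.1 ∈ G.edgeSet)
    (r₀ : ℕ) (p q : V) (c : Fin K) (h : q ∉ ballG G r₀ p) : (Z1 R r₀ p q c).card = 0 := by
  rw [Finset.card_eq_zero]
  unfold Z1
  rw [Finset.filter_eq_empty_iff]
  rintro b _ ⟨_, n, _, hn, hJ⟩
  have key : ∀ b c : Fin K, Joined R n b c p q → False := by
    rintro b c ⟨v, _, h0, hl, hs⟩
    apply h
    have h1 := path_ball G v (fun i => hR _ (hs i)) (Fin.last n)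
    rw [h0, hl] at h1
    exact ball_mono G (by simpa using hn) p h1
  rcases hJ with hJ | ⟨_, hJ⟩
  · exact key b c hJ
  · exact key c b hJ

theorem Z2_empty (G : SimpleGraph V) (R : Finset (PX V K)) (hR : ∀ x ∈ R, x.1 ∈ G.edgeSet)
    (l₀ r₀ : ℕ) (p q : V) (h : q ∉ ballG G r₀ p) : (Z2 R l₀ r₀ p q).card = 0 := by
  rw [Finset.card_eq_zero]
  unfold Z2
  rw [Finset.filter_eq_empty_iff]
  rintro bc _ ⟨_, n, _, hn, v, _, h0, hl, hs⟩
  apply h
  have h1 := path_ball G v (fun i => hR _ (hs i)) (Fin.last n)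
  rw [h0, hl] at h1
  exact ball_mono G (by simpa using hn) p h1

theorem round_det (F : Full G n₀ r₀ s Δ ρ θ δ c τ P P' st) (ω : Fin 3 × PX V K → Bool)
    (A : AllSmall G n₀ r₀ θ ρ τ P P' st ω) :
    ∃ st' : St (PX V K) (Sym2 V), Inv (gS G K n₀) st' K P'.a P'.Γ ρ P'.w P'.g ∧
      GInv G n₀ r₀ st' P'.Γ P'.D P'.f P'.j P'.M P'.ζ := by
  have h := F.hyp
  have hg := F.ginv
  have hs := F.step
  obtain ⟨L', hL', hInv⟩ := newInv h ω (Acc G n₀ r₀ st ω) (Finset.filter_subset _ _)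
    (fun x hx => (Finset.mem_filter.1 hx).2.1) P'.a P'.Γ P'.w P'.g hs.a'0 hs.aa hs.g'1
    (rd_list F ω A) (fun ν => (A.f4 ν).le) (fun x hx => (A.f5 ⟨x, hx⟩).le) (rd_crude F ω A)
  refine ⟨_, hInv, ?_⟩
  have hRE : ∀ x ∈ Rk st ω ∪ Acc G n₀ r₀ st ω, x.1 ∈ G.edgeSet := by
    intro x hx
    rcases Finset.mem_union.1 hx with hx | hx
    · exact hg.R_E x (Finset.mem_filter.1 hx).1
    · have h1 := (Finset.mem_filter.1 hx).1
      have h2 := (Finset.mem_filter.1 (Finset.mem_filter.1 h1).1).1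
      exact hg.U_E _ (F.inv.L_U x h2)
  have hR' : ∀ x ∈ Rk st ω ∪ Acc G n₀ r₀ st ω, ∀ y ∈ Rk st ω ∪ Acc G n₀ r₀ st ω, x ≠ y →
      Disjoint (ndG x) (ndG y) := hInv.R_nd
  have hτK : 0 ≤ τ * K := mul_nonneg hs.τ0.le (Nat.cast_nonneg _)
  refine
    { U_E := fun e he => hg.U_E e (Finset.mem_filter.1 he).1
      R_E := hRE
      deg := ?_
      fdeg := ?_
      jj := ?_
      mm := ?_
      z1 := ?_
      z2 := ?_
      nocyc := new_nocyc h r₀ hg.nocyc ω }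
  · intro v
    exact (new_deg h r₀ ω L' v).trans (A.f7 v).le
  · intro v
    have h1 := new_fdeg h r₀ ω L' v
    have h2 := hg.fdeg v
    have h3 : (dD st v).val ω < τ * K := A.f20 v
    have h4 : (iS (gS G K n₀) st (stU st v)).val ω < τ * K := A.f14 v
    have h5 : (bS (gS G K n₀) st (stU st v)).val ω < τ * K := A.f16 v
    have h6 : (mS (gS G K n₀) st (2 * n₀ + 3) r₀ (stU st v)).val ω < τ * K := A.f18 v
    have h7 := hs.ef
    linarith
  · intro u v huv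
    have h1 := new_jj h r₀ ω hR' u v huv.ne
    have h2 : (sJ (gS G K n₀) st u v).val ω < (1 - θ / 2) * P.j := A.f8 ⟨(u, v), huv⟩
    have h3 : (nJ st (fun e => e ∈ st.U) u v).val ω < 2 * θ * P.D + τ * K := A.f9 ⟨(u, v), huv⟩
    have h4 : (nJ st (fun e => e ∈ st.U) v u).val ω < 2 * θ * P.D + τ * K :=
      A.f9 ⟨(v, u), huv.symm⟩
    have h5 : (nB st u v).val ω < τ * K := A.f13 ⟨(u, v), huv⟩
    have h6 := hs.ej
    linarith
  · intro u v huv
    have h1 := new_mm h r₀ ω L' hR' u v huv.ne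
    have h2 := hg.mm u v huv
    have h3 : (iS (gS G K n₀) st (jE st u v)).val ω < τ * K := A.f15 ⟨(u, v), huv⟩
    have h4 : (bS (gS G K n₀) st (jE st u v)).val ω < τ * K := A.f17 ⟨(u, v), huv⟩
    have h5 : (mS (gS G K n₀) st (2 * n₀ + 3) r₀ (jE st u v)).val ω < τ * K :=
      A.f19 ⟨(u, v), huv⟩
    have h6 : (dJ st u v).val ω < τ * K := A.f21 ⟨(u, v), huv⟩
    have h7 : (nP st u v).val ω < τ * K := A.f11 ⟨(u, v), huv⟩
    have h8 : (nP st v u).val ω < τ * K := A.f11 ⟨(v, u), huv.symm⟩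
    have h9 : (nD st u v).val ω < τ * K := A.f12 ⟨(u, v), huv⟩
    have h10 : (nD st v u).val ω < τ * K := A.f12 ⟨(v, u), huv.symm⟩
    have h11 : (nJ st (FE G st) u v).val ω < 2 * (K * (θ / P.a) * P.f) + τ * K :=
      A.f10 ⟨(u, v), huv⟩
    have h12 : (nJ st (FE G st) v u).val ω < 2 * (K * (θ / P.a) * P.f) + τ * K :=
      A.f10 ⟨(v, u), huv.symm⟩
    have h13 : (nB st u v).val ω < τ * K := A.f13 ⟨(u, v), huv⟩
    have h14 := hs.eM
    linarith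
  · intro p q c hpq
    by_cases hb : q ∈ ballG G r₀ p
    · have h1 := new_z1 h r₀ ω p q c
      have h2 : ((Z1 st.R r₀ p q c).card : ℝ) ≤ P.Γ := by exact_mod_cast hg.z1 p q c hpq
      have h3 : (pathS (gS G K n₀) st r₀ (Φ1 r₀ p q c)).val ω < (P'.Γ : ℝ) - P.Γ :=
        A.f22 ⟨(p, q, c), hpq, hb⟩
      have h4 : ((Z1 (Rk st ω ∪ Acc G n₀ r₀ st ω) r₀ p q c).card : ℝ) ≤ (P'.Γ : ℝ) := by
        linarith
      exact_mod_cast h4
    · rw [Z1_empty G _ hRE r₀ p q c hb]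
      exact Nat.zero_le _
  · intro p q hpq
    by_cases hb : q ∈ ballG G r₀ p
    · have h1 := new_z2 h r₀ (2 * n₀ + 3) ω p q
      have h2 := hg.z2 p q hpq
      have h3 : (pathS (gS G K n₀) st r₀ (Φ2 r₀ (2 * n₀ + 3) p q)).val ω <
          (P'.ζ - P.ζ) * K := A.f23 ⟨(p, q), hpq, hb⟩
      show ((Z2 (Rk st ω ∪ Acc G n₀ r₀ st ω) (2 * n₀ + 3) r₀ p q).card : ℝ) ≤ P'.ζ * K
      nlinarith
    · show ((Z2 (Rk st ω ∪ Acc G n₀ r₀ st ω) (2 * n₀ + 3) r₀ p q).card : ℝ) ≤ P'.ζ * K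
      rw [Z2_empty G _ hRE (2 * n₀ + 3) r₀ p q hb]
      have h3 : (0 : ℝ) ≤ c * ((P'.ζ - P.ζ) * K) := by
        refine le_trans ?_ hs.nZ2
        have ha : (0 : ℝ) < P.a := by exact_mod_cast hs.a0
        have hθ := hs.θ0
        have hδ : 0 ≤ 1 - δ := by linarith [hs.δ1]
        have hmu : 0 ≤ mu9 r₀ (s * (r₀ + 1)) P.Γ := by
          unfold mu9
          positivity
        have hsum : 0 ≤ ∑ n ∈ Icc (2 * n₀ + 3) r₀, (n : ℝ) * (1 - δ) ^ (n - 1) :=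
          Finset.sum_nonneg (fun n _ => mul_nonneg (Nat.cast_nonneg _) (pow_nonneg hδ _))
        positivity
      have hc : 0 < c := by linarith [hs.c0]
      have h4 : 0 ≤ (P'.ζ - P.ζ) * K := by
        by_contra hneg
        push Not at hneg
        have := mul_neg_of_pos_of_neg hc hneg
        linarith
      have h5 : 0 ≤ P.ζ * K := mul_nonneg hs.ζ0 (Nat.cast_nonneg _)
      have : P'.ζ * K = (P'.ζ - P.ζ) * K + P.ζ * K := by ring
      rw [this]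
      push_cast
      linarith

theorem round (F : Full G n₀ r₀ s Δ ρ θ δ c τ P P' st)
    (hq : 4 * c ^ s * ((23 * Mloc K n₀ r₀ * Mloc K n₀ r₀ : ℕ) : ℝ) ≤ 1) :
    ∃ st' : St (PX V K) (Sym2 V), Inv (gS G K n₀) st' K P'.a P'.Γ ρ P'.w P'.g ∧
      GInv G n₀ r₀ st' P'.Γ P'.D P'.f P'.j P'.M P'.ζ := by
  obtain ⟨ω, A⟩ := exists_small F hq
  exact round_det F ω A

end Pool.Agent.H77.AC
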