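import Pool.Agent.H77.AC.BP

/-!
# AC-SYS: abstract systems of pairs (definitions)

`X` = pairs (edge, colour), `E` = edges, `N` = nodes (vertex, colour). `ed x` is the edge of `x`, `nd x`
its two nodes, `C` the set of short forbidden sets (alternating two-coloured cycles of bounded
length). In every step of the nibble there are a set `R` of coloured pairs, a set `L` of live pairs
and a set `U` of active (uncoloured) edges.
-/

set_option autoImplicit false

open Finset
open scoped Classical

namespace Pool.Agent.H77.AC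

/-- system of pairs -/
structure Sys (X E N : Type) where
  ed : X → E
  nd : X → Finset N
  C : Finset (Finset X)

/-- state of the process -/
structure St (X E : Type) where
  R : Finset X
  L : Finset X
  U : Finset E

section

variable {X E N : Type} [DecidableEq X] [DecidableEq E] [DecidableEq N]

/-- properties of a system; all short sets have at most `m` elements -/
structure Sys.Good [Fintype X] (S : Sys X E N) (m : ℕ) : Prop where
  nd_card : ∀ x, (S.nd x).card ≤ 2
  nd_inter : ∀ x y, S.ed x ≠ S.ed y → (S.nd x ∩ S.nd y).card ≤ 1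
  same_edge : ∀ x y, x ≠ y → S.ed x = S.ed y → Disjoint (S.nd x) (S.nd y)
  card_le : ∀ H ∈ S.C, H.card ≤ m
  card_ge : ∀ H ∈ S.C, 2 ≤ H.card
  ed_inj : ∀ H ∈ S.C, ∀ x ∈ H, ∀ y ∈ H, x ≠ y → S.ed x ≠ S.ed y
  nd_disj : ∀ H ∈ S.C, ∀ x ∈ H, ∀ y ∈ H, x ≠ y → Disjoint (S.nd x) (S.nd y)
  ov1 : ∀ z e, (univ.filter (fun y => S.ed y = e ∧ ¬ Disjoint (S.nd y) (S.nd z))).card ≤ 1
  ov2 : ∀ z z', S.ed z ≠ S.ed z' →
    (univ.filter (fun y => ¬ Disjoint (S.nd y) (S.nd z) ∧ ¬ Disjoint (S.nd y) (S.nd z') ∧
      Disjoint (S.nd y) (S.nd z ∩ S.nd z'))).card ≤ 4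

/-- live pairs on an edge -/
noncomputable def own (S : Sys X E N) (st : St X E) (e : E) : Finset X :=
  st.L.filter (fun y => S.ed y = e)

/-- live pairs at a node -/
noncomputable def atN (S : Sys X E N) (st : St X E) (ν : N) : Finset X :=
  st.L.filter (fun y => ν ∈ S.nd y)

/-- live pairs `y ≠ x` in conflict with `x`: common node, or a short set `H ∋ x, y` whose other
elements are all coloured -/
noncomputable def conf (S : Sys X E N) (st : St X E) (x : X) : Finset X :=
  st.L.filter (fun y => y ≠ x ∧ (¬ Disjoint (S.nd x) (S.nd y) ∨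
    ∃ H ∈ S.C, x ∈ H ∧ y ∈ H ∧ H \ {x, y} ⊆ st.R))

/-- all live pairs whose pick kills `x` as a live pair (including `x` itself) -/
noncomputable def nbh (S : Sys X E N) (st : St X E) (x : X) : Finset X :=
  own S st (S.ed x) ∪ conf S st x

/-- weight of the short sets through `x` -/
noncomputable def wgt (S : Sys X E N) (st : St X E) (g : ℝ) (a : ℕ) (x : X) : ℝ :=
  ∑ H ∈ S.C.filter (fun H => x ∈ H ∧ H.erase x ⊆ st.R ∪ st.L),
    g ^ (H.card - 1) / (a : ℝ) ^ (H.erase x ∩ st.L).card

/-- names of the crude families -/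
inductive Fm (X E N : Type) : Type
  | f1 (x y : X) : Fm X E N
  | f2 (x : X) (ν : N) : Fm X E N
  | f3 (x : X) (e : E) : Fm X E N
  | f4 (z z' : X) : Fm X E N

/-- the crude families -/
noncomputable def Fm.sets (S : Sys X E N) : Fm X E N → Finset (Finset X)
  | .f1 x y => (S.C.filter (fun H => x ≠ y ∧ x ∈ H ∧ y ∈ H)).image (fun H => H \ {x, y})
  | .f2 x ν => (S.C.filter (fun H => x ∈ H ∧ ∃ y ∈ H, y ≠ x ∧ ν ∈ S.nd y)).image
      (fun H => H.erase x)
  | .f3 x e => (S.C.filter (fun H => x ∈ H ∧ ∃ y ∈ H, y ≠ x ∧ S.ed y = e)).image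
      (fun H => H.erase x)
  | .f4 z z' => ((S.C ×ˢ S.C).filter (fun P => S.ed z ≠ S.ed z' ∧ z ∈ P.1 ∧ z' ∈ P.2 ∧
      z' ∉ P.1 ∧ z ∉ P.2 ∧ (P.1 ∩ P.2).Nonempty ∧
      ∀ y ∈ P.1.erase z ∪ P.2.erase z', Disjoint (S.nd y) (S.nd z ∪ S.nd z'))).image
      (fun P => P.1.erase z ∪ P.2.erase z')

/-- number of sets of `P` containing `A`, the rest in `R ∪ L` with exactly `n` live elements -/
noncomputable def cnt (st : St X E) (P : Finset (Finset X)) (A : Finset X) (n : ℕ) : ℕ :=
  (P.filter (fun Q => A ⊆ Q ∧ Q \ A ⊆ st.R ∪ st.L ∧ ((Q \ A) ∩ st.L).card = n)).card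

/-- the invariants of the short part. `K` = number of colours, `a` = list size, `ρ a` = bound for
the number of live pairs at a node, `w` = bound for the weights, `Γ` = crude bound -/
structure Inv (S : Sys X E N) (st : St X E) (K a Γ : ℕ) (ρ w g : ℝ) : Prop where
  L_U : ∀ x ∈ st.L, S.ed x ∈ st.U
  R_U : ∀ x ∈ st.R, S.ed x ∉ st.U
  R_ed : ∀ x ∈ st.R, ∀ y ∈ st.R, x ≠ y → S.ed x ≠ S.ed y
  R_nd : ∀ x ∈ st.R, ∀ y ∈ st.R, x ≠ y → Disjoint (S.nd x) (S.nd y)
  LR : ∀ x ∈ st.L, ∀ y ∈ st.R, Disjoint (S.nd x) (S.nd y)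
  noH : ∀ H ∈ S.C, ∀ x ∈ H, x ∈ st.L → ¬ H.erase x ⊆ st.R
  list : ∀ e ∈ st.U, (own S st e).card = a
  node : ∀ ν, ((atN S st ν).card : ℝ) ≤ ρ * a
  weight : ∀ x ∈ st.L, wgt S st g a x ≤ w
  crude : ∀ (φ : Fm X E N) (A : Finset X) (n : ℕ), cnt st (φ.sets S) A n ≤ K ^ (n - 1) * Γ

/-- the three kinds of random variables -/
def pick {X : Type} (x : X) : Fin 3 × X := (0, x)

def coin {X : Type} (x : X) : Fin 3 × X := (1, x)

def keep {X : Type} (x : X) : Fin 3 × X := (2, x)

/-- probabilities: picks `θ/a`, coins `(1-θ/a)^(B - |conf x|)`, keeps `1 - δ` -/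
noncomputable def pr (S : Sys X E N) (st : St X E) (a B : ℕ) (θ δ : ℝ) : Fin 3 × X → ℝ :=
  fun i => if i.1 = 0 then θ / a else
    if i.1 = 1 then (1 - θ / a) ^ (B - (conf S st i.2).card) else 1 - δ

/-! ### what happens in a round -/

/-- the picked pairs -/
noncomputable def Pk (st : St X E) (ω : Fin 3 × X → Bool) : Finset X :=
  st.L.filter (fun x => ω (pick x) = true)

/-- the kept coloured pairs -/
noncomputable def Rk (st : St X E) (ω : Fin 3 × X → Bool) : Finset X :=
  st.R.filter (fun x => ω (keep x) = true)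

/-- live pairs which must be absent for `x` to be isolated -/
noncomputable def isoN (S : Sys X E N) (st : St X E) (x : X) : Finset X :=
  st.L.filter (fun y => y ≠ x ∧ (S.ed y = S.ed x ∨ ¬ Disjoint (S.nd x) (S.nd y)))

/-- the isolated picked pairs -/
noncomputable def Iso (S : Sys X E N) (st : St X E) (ω : Fin 3 × X → Bool) : Finset X :=
  (Pk st ω).filter (fun x => Disjoint (isoN S st x) (Pk st ω))

/-- the surviving live pairs -/
noncomputable def Surv (S : Sys X E N) (st : St X E) (ω : Fin 3 × X → Bool) : Finset X :=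
  st.L.filter (fun x => ω (coin x) = true ∧ Disjoint (nbh S st x) (Pk st ω) ∧
    ¬ ∃ H ∈ S.C, x ∈ H ∧ H.erase x ⊆ st.R ∪ Pk st ω)

/-! ### statistics of the short part -/

/-- (E1a) kills of pairs on `e` by picked conflicts -/
noncomputable def kA (S : Sys X E N) (st : St X E) [Fintype X] (e : E) : Stat (Fin 3 × X) where
  ι := X × X
  fin := inferInstance
  w := fun i => if i.1 ∈ own S st e ∧ i.2 ∈ conf S st i.1 then 1 else 0
  D := fun i => {pick i.2}
  C := fun _ => ∅
  nn := by intro i; split_ifs <;> norm_num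

/-- (E1b) kills of pairs on `e` by coins -/
noncomputable def kB (S : Sys X E N) (st : St X E) [Fintype X] (e : E) : Stat (Fin 3 × X) where
  ι := X
  fin := inferInstance
  w := fun x => if x ∈ own S st e then 1 else 0
  D := fun _ => ∅
  C := fun x => {coin x}
  nn := by intro i; split_ifs <;> norm_num

/-- (E1c) kills of pairs on `e` by short sets with at least two other live elements, all picked -/
noncomputable def kC (S : Sys X E N) (st : St X E) [Fintype X] (e : E) : Stat (Fin 3 × X) where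
  ι := X × Finset X
  fin := inferInstance
  w := fun i => if i.1 ∈ own S st e ∧ i.2 ∈ S.C ∧ i.1 ∈ i.2 ∧ i.2.erase i.1 ⊆ st.R ∪ st.L ∧
    2 ≤ (i.2.erase i.1 ∩ st.L).card then 1 else 0
  D := fun i => (i.2.erase i.1 ∩ st.L).image pick
  C := fun _ => ∅
  nn := by intro i; split_ifs <;> norm_num

/-- (E2) survivors at a node when no pair at the node is picked -/
noncomputable def nS (S : Sys X E N) (st : St X E) [Fintype X] (ν : N) : Stat (Fin 3 × X) where
  ι := X
  fin := inferInstance
  w := fun z => if z ∈ atN S st ν then 1 else 0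
  D := fun z => {coin z}
  C := fun z => (nbh S st z \ atN S st ν).image pick
  nn := by intro i; split_ifs <;> norm_num

/-- (E3) new weight of `x` (when no pair of `nbh x` is picked); index `(H, P)`, `P` the picked
elements of `H - x`, the other live elements survive. `g'`, `a'` are the new parameters -/
noncomputable def wS (S : Sys X E N) (st : St X E) [Fintype X] (g' : ℝ) (a' : ℕ) (x : X) :
    Stat (Fin 3 × X) where
  ι := Finset X × Finset X
  fin := inferInstance
  w := fun i => if i.1 ∈ S.C ∧ x ∈ i.1 ∧ i.1.erase x ⊆ st.R ∪ st.L ∧ i.2 ⊆ i.1.erase x ∩ st.L ∧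
    i.2 ≠ i.1.erase x ∩ st.L ∧ Disjoint i.2 (nbh S st x) then
      |g'| ^ (i.1.card - 1) / (a' : ℝ) ^ ((i.1.erase x ∩ st.L) \ i.2).card else 0
  D := fun i => i.2.image pick ∪ ((i.1.erase x ∩ st.L) \ i.2).image coin
  C := fun i => (((i.1.erase x ∩ st.L) \ i.2).biUnion (nbh S st) \ nbh S st x).image pick
  nn := by intro i; split_ifs <;> positivity

/-- (E4) new crude count for a family `P`; index `(Q, T)`, `T` the picked elements of `Q \ A` -/
noncomputable def cS (st : St X E) [Fintype X] (P : Finset (Finset X)) (A : Finset X) (n : ℕ) :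
    Stat (Fin 3 × X) where
  ι := Finset X × Finset X
  fin := inferInstance
  w := fun i => if i.1 ∈ P ∧ A ⊆ i.1 ∧ i.1 \ A ⊆ st.R ∪ st.L ∧ i.2 ⊆ (i.1 \ A) ∩ st.L ∧
    ((i.1 \ A) ∩ st.L).card = n + i.2.card then 1 else 0
  D := fun i => i.2.image pick
  C := fun _ => ∅
  nn := by intro i; split_ifs <;> norm_num

/-- (ES) indices `j` with an active edge `f j` none of whose live pairs is picked -/
noncomputable def sS (S : Sys X E N) (st : St X E) {T : Type} [Fintype T] (f : T → E)
    (act : T → Prop) : Stat (Fin 3 × X) where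
  ι := T
  fin := inferInstance
  w := fun j => if act j then 1 else 0
  D := fun _ => ∅
  C := fun j => (own S st (f j)).image pick
  nn := by intro i; split_ifs <;> norm_num

/-- (E7a) picked pairs on edges of `Es` with another picked pair on the same edge or at a node -/
noncomputable def iS (S : Sys X E N) (st : St X E) [Fintype X] (Es : Finset E) :
    Stat (Fin 3 × X) where
  ι := X × X
  fin := inferInstance
  w := fun i => if i.1 ∈ st.L ∧ S.ed i.1 ∈ Es ∧ i.2 ∈ isoN S st i.1 then 1 else 0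
  D := fun i => {pick i.1, pick i.2}
  C := fun _ => ∅
  nn := by intro i; split_ifs <;> norm_num

/-- (E7b) picked pairs on edges of `Es` completing a short set -/
noncomputable def bS (S : Sys X E N) (st : St X E) [Fintype X] (Es : Finset E) :
    Stat (Fin 3 × X) where
  ι := X × Finset X
  fin := inferInstance
  w := fun i => if i.1 ∈ st.L ∧ S.ed i.1 ∈ Es ∧ i.2 ∈ S.C ∧ i.1 ∈ i.2 ∧
    i.2.erase i.1 ⊆ st.R ∪ st.L then 1 else 0
  D := fun i => (insert i.1 (i.2.erase i.1 ∩ st.L)).image pick
  C := fun _ => ∅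
  nn := by intro i; split_ifs <;> norm_num

end

end Pool.Agent.H77.AC
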