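import Pool.Agent.H77.AC.Ovl
import Pool.Agent.H77.AC.Cyl

/-!
# AC-WGTGEN: the generic part of the conditional bound for `wS`

Let `h` be a history of the statistic `wS g' a' x`, at most `s` indices of nonzero weight,
`D₀ = h.biUnion D`, `C₀ = h.biUnion C`. The *history picks* are the `y` with `pick y ∈ D₀` and the *history
survivors* the `z` with `coin z ∈ D₀`; at most `s m` of each, `C₀ ⊆ ⋃_{z} pick (nbh z)` over the
history survivors. `H` is *generic* (`Gnr`) if no element of `H.erase x ∩ L` is a history pick, lies on the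
edge of a history survivor or shares a node with one.

Claim `wS_gen`: the sum of `w i * cnd` over the indices with generic `H` is at most `w`.

Let `G = (m + 1 + s m) (7 Γ + 6)`, `π = θ/a`. For an index `(H, P)`, `Z = (H.erase x ∩ L) \ P`:
the variables in `D = pick P ∪ coin Z` are not in `D₀`, so
`cnd ≤ π^|P| * ∏_{z ∈ Z} (1-π)^(B - |conf z|) * (1-π)^{|C \ C₀|}`. The sets `nbh z`, `z ∈ Z` have
`a + |conf z|` elements (`nbh_card`); two of them overlap in at most `7 Γ + 6` elements (`overlap`; the nodes of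
different elements of `H` are disjoint, `nd_disj`), the same for `nbh z ∩ nbh x` and for `nbh z ∩ nbh z'`, `z'` a
history survivor (different edges and disjoint nodes by genericity). Hence
`|C \ C₀| ≥ ∑_{z ∈ Z} (a + |conf z|) - |Z| G`, and
`cnd ≤ π^|P| * ((1-π)^(a + B - G))^|Z|` (truncated subtraction is harmless). So for fixed generic `H`
with `ℓ = |H.erase x ∩ L|` the sum over `P ⊆ H.erase x ∩ L` is at most
`g'^(|H|-1) ∏ (π + (1-π)^(a+B-G) / a') = g'^(|H|-1) a^{-ℓ} (θ + (a/a') (1-π)^(a+B-G))^ℓ ≤ g'^(|H|-1) a^{-ℓ} (g/g')^ℓ`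
(`Finset.prod_add`/`Finset.sum_pow_mul_eq_add_pow` for the sum over subsets) `≤ g^(|H|-1) a^{-ℓ}` because
`ℓ ≤ |H| - 1` and `g/g' ≥ 1` (hypothesis `hgg : g' ≤ g`, which does not follow from `hg`). Summing over `H` gives `wgt x ≤ w`.
-/

set_option autoImplicit false

open Finset
open scoped Classical

namespace Pool.Agent.H77.AC

variable {X E N : Type} [DecidableEq X] [DecidableEq E] [DecidableEq N] [Fintype X]
variable {S : Sys X E N} {st : St X E} {K a B Γ m : ℕ} {ρ w g θ δ : ℝ}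

/-- `H` is generic with respect to the set `D₀` of history variables -/
def Gnr (S : Sys X E N) (st : St X E) (x : X) (D₀ : Finset (Fin 3 × X)) (H : Finset X) : Prop :=
  ∀ y ∈ H.erase x ∩ st.L, pick y ∉ D₀ ∧
    ∀ z, coin z ∈ D₀ → S.ed y ≠ S.ed z ∧ Disjoint (S.nd y) (S.nd z)

theorem wgtgen_pr_pick (y : X) : pr S st a B θ δ (pick y) = θ / a := by
  simp [pr, pick]

theorem wgtgen_pr_coin (z : X) :
    pr S st a B θ δ (coin z) = (1 - θ / a) ^ (B - (conf S st z).card) := by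
  simp [pr, coin]

theorem wgtgen_card (Z V : Finset X) (f : X → Finset X) (c : ℕ)
    (h1 : ∀ z ∈ Z, ∀ v ∈ V, (f z ∩ f v).card ≤ c)
    (h2 : ∀ z ∈ Z, ∀ z' ∈ Z, z ≠ z' → (f z ∩ f z').card ≤ c) :
    ∑ z ∈ Z, ((f z).card - (Z.card + V.card) * c) ≤ (Z.biUnion f \ V.biUnion f).card := by
  have hg : ∀ z ∈ Z, (f z).card - (Z.card + V.card) * c ≤
      (f z \ ((V ∪ Z.erase z).biUnion f)).card := by
    intro z hz
    have e1 : (f z ∩ ((V ∪ Z.erase z).biUnion f)).card + (f z \ ((V ∪ Z.erase z).biUnion f)).card =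
        (f z).card := Finset.card_inter_add_card_sdiff _ _
    have e2 : (f z ∩ ((V ∪ Z.erase z).biUnion f)).card ≤ (Z.card + V.card) * c := by
      have e3 : f z ∩ ((V ∪ Z.erase z).biUnion f) ⊆ (V ∪ Z.erase z).biUnion (fun v => f z ∩ f v) := by
        intro y hy
        rw [Finset.mem_inter, Finset.mem_biUnion] at hy
        obtain ⟨hy1, v, hv, hy2⟩ := hy
        rw [Finset.mem_biUnion]
        exact ⟨v, hv, Finset.mem_inter.2 ⟨hy1, hy2⟩⟩
      refine (Finset.card_le_card e3).trans (Finset.card_biUnion_le.trans ?_)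
      refine (Finset.sum_le_card_nsmul _ _ c ?_).trans ?_
      · intro v hv
        rw [Finset.mem_union, Finset.mem_erase] at hv
        rcases hv with hv | hv
        · exact h1 z hz v hv
        · exact h2 z hz v hv.2 (fun e => hv.1 e.symm)
      · rw [smul_eq_mul]
        apply Nat.mul_le_mul_right
        have := Finset.card_union_le V (Z.erase z)
        have := Finset.card_erase_le (s := Z) (a := z)
        omega
    omega
  refine (Finset.sum_le_sum hg).trans ?_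
  rw [← Finset.card_biUnion]
  · apply Finset.card_le_card
    intro y hy
    rw [Finset.mem_biUnion] at hy
    obtain ⟨z, hz, hy⟩ := hy
    rw [Finset.mem_sdiff] at hy
    rw [Finset.mem_sdiff, Finset.mem_biUnion]
    refine ⟨⟨z, hz, hy.1⟩, fun hy' => hy.2 ?_⟩
    rw [Finset.mem_biUnion] at hy' ⊢
    obtain ⟨v, hv, hy'⟩ := hy'
    exact ⟨v, Finset.mem_union_left _ hv, hy'⟩
  · intro z hz z' hz' hne
    refine Finset.disjoint_left.2 ?_
    intro y hy hy'
    rw [Finset.mem_sdiff] at hy hy'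
    apply hy.2
    rw [Finset.mem_biUnion]
    exact ⟨z', Finset.mem_union_right _ (Finset.mem_erase.2 ⟨fun e => hne e.symm, hz'⟩), hy'.1⟩

theorem wgtgen_pick_inj : Function.Injective (pick : X → Fin 3 × X) := by
  intro y y' e
  exact (Prod.mk.inj e).2

theorem wgtgen_coin_inj : Function.Injective (coin : X → Fin 3 × X) := by
  intro y y' e
  exact (Prod.mk.inj e).2

theorem wgtgen_cnd (h : Hyp S st K a B Γ m ρ w g θ δ) (x : X) (hx : x ∈ st.L) (s : ℕ)
    (D₀ C₀ : Finset (Fin 3 × X)) (Zh : Finset X) (hZh : Zh.card ≤ s * m)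
    (hZL : ∀ z ∈ Zh, z ∈ st.L) (hZD : ∀ z ∈ Zh, coin z ∈ D₀)
    (hC₀ : ∀ u ∈ C₀, ∃ y, u = pick y ∧ ∃ z ∈ Zh, y ∈ nbh S st z)
    (H P : Finset X) (hH : H ∈ S.C) (hxH : x ∈ H) (hP : P ⊆ H.erase x ∩ st.L)
    (hG : Gnr S st x D₀ H) :
    cnd (pr S st a B θ δ) D₀ C₀
      (P.image pick ∪ ((H.erase x ∩ st.L) \ P).image coin)
      ((((H.erase x ∩ st.L) \ P).biUnion (nbh S st) \ nbh S st x).image pick) ≤
      (θ / a) ^ P.card *
        ((1 - θ / a) ^ (a + B - (m + 1 + s * m) * (7 * Γ + 6))) ^ ((H.erase x ∩ st.L) \ P).card := by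
  have hπ : 0 ≤ θ / (a : ℝ) ∧ θ / (a : ℝ) ≤ 1 := by
    have := pr_mem h (pick x)
    rwa [wgtgen_pr_pick] at this
  have hq0 : 0 ≤ 1 - θ / (a : ℝ) := by linarith [hπ.2]
  have hq1 : 1 - θ / (a : ℝ) ≤ 1 := by linarith [hπ.1]
  unfold cnd
  split_ifs with hdis
  swap
  · exact mul_nonneg (pow_nonneg hπ.1 _) (pow_nonneg (pow_nonneg hq0 _) _)
  set T := H.erase x ∩ st.L with hT
  set Z := T \ P with hZ
  have hZT : ∀ z ∈ Z, z ∈ H ∧ z ≠ x ∧ z ∈ st.L := by
    intro z hz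
    rw [hZ, Finset.mem_sdiff, hT, Finset.mem_inter, Finset.mem_erase] at hz
    exact ⟨hz.1.1.2, hz.1.1.1, hz.1.2⟩
  have hZT' : ∀ z ∈ Z, z ∈ H.erase x ∩ st.L := by
    intro z hz
    exact (Finset.mem_sdiff.1 hz).1
  -- the part D
  have hD : (P.image pick ∪ Z.image coin) \ D₀ = P.image pick ∪ Z.image coin := by
    rw [Finset.sdiff_eq_self_iff_disjoint, Finset.disjoint_left]
    intro u hu hu'
    rw [Finset.mem_union, Finset.mem_image, Finset.mem_image] at hu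
    rcases hu with ⟨y, hy, rfl⟩ | ⟨z, hz, rfl⟩
    · exact (hG y (hP hy)).1 hu'
    · exact ((hG z (hZT' z hz)).2 z hu').1 rfl
  have hDp : ∏ i ∈ (P.image pick ∪ Z.image coin) \ D₀, pr S st a B θ δ i =
      (θ / a) ^ P.card * ∏ z ∈ Z, (1 - θ / (a : ℝ)) ^ (B - (conf S st z).card) := by
    rw [hD, Finset.prod_union, Finset.prod_image (fun y _ y' _ e => wgtgen_pick_inj e),
      Finset.prod_image (fun y _ y' _ e => wgtgen_coin_inj e)]
    · rw [Finset.prod_congr rfl (fun y _ => wgtgen_pr_pick y), Finset.prod_const,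
        Finset.prod_congr rfl (fun y _ => wgtgen_pr_coin y)]
    · rw [Finset.disjoint_left]
      intro u hu hu'
      rw [Finset.mem_image] at hu hu'
      obtain ⟨y, _, rfl⟩ := hu
      obtain ⟨z, _, e⟩ := hu'
      have := (Prod.mk.inj e).1
      exact absurd this (by decide)
  -- the part C
  have hCp : ∏ i ∈ (Z.biUnion (nbh S st) \ nbh S st x).image pick \ C₀, (1 - pr S st a B θ δ i) =
      (1 - θ / (a : ℝ)) ^ ((Z.biUnion (nbh S st) \ nbh S st x).image pick \ C₀).card := by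
    rw [← Finset.prod_const]
    refine Finset.prod_congr rfl (fun u hu => ?_)
    rw [Finset.mem_sdiff, Finset.mem_image] at hu
    obtain ⟨⟨y, _, rfl⟩, _⟩ := hu
    rw [wgtgen_pr_pick]
  have hcard1 : (Z.biUnion (nbh S st) \ (insert x Zh).biUnion (nbh S st)).card ≤
      ((Z.biUnion (nbh S st) \ nbh S st x).image pick \ C₀).card := by
    rw [← Finset.card_image_of_injective _ wgtgen_pick_inj]
    apply Finset.card_le_card
    intro u hu
    rw [Finset.mem_image] at hu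
    obtain ⟨y, hy, rfl⟩ := hu
    rw [Finset.mem_sdiff, Finset.mem_biUnion] at hy
    obtain ⟨⟨z, hz, hyz⟩, hy2⟩ := hy
    rw [Finset.mem_sdiff]
    constructor
    · refine Finset.mem_image_of_mem _ ?_
      rw [Finset.mem_sdiff, Finset.mem_biUnion]
      refine ⟨⟨z, hz, hyz⟩, fun hyx => hy2 ?_⟩
      rw [Finset.mem_biUnion]
      exact ⟨x, Finset.mem_insert_self _ _, hyx⟩
    · intro hC
      obtain ⟨y', e, z', hz', hy'⟩ := hC₀ _ hC
      have e' := wgtgen_pick_inj e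
      subst e'
      apply hy2
      rw [Finset.mem_biUnion]
      exact ⟨z', Finset.mem_insert_of_mem hz', hy'⟩
  -- overlaps
  have hov : ∀ z z' : X, z ∈ st.L → z' ∈ st.L → S.ed z ≠ S.ed z' → Disjoint (S.nd z) (S.nd z') →
      (nbh S st z ∩ nbh S st z').card ≤ 7 * Γ + 6 := by
    intro z z' hz hz' he hn
    have := overlap h z z' hz hz' he
    rw [Finset.disjoint_iff_inter_eq_empty] at hn
    rwa [hn, Finset.filter_true_of_mem (fun y _ => Finset.disjoint_empty_right _)] at this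
  have hcard2 := wgtgen_card Z (insert x Zh) (nbh S st) (7 * Γ + 6)
    (by
      intro z hz v hv
      rw [Finset.mem_insert] at hv
      obtain ⟨hzH, hzx, hzL⟩ := hZT z hz
      rcases hv with rfl | hv
      · exact hov z v hzL hx (h.good.ed_inj H hH z hzH v hxH hzx) (h.good.nd_disj H hH z hzH v hxH hzx)
      · have := (hG z (hZT' z hz)).2 v (hZD v hv)
        exact hov z v hzL (hZL v hv) this.1 this.2)
    (by
      intro z hz z' hz' hne
      obtain ⟨hzH, hzx, hzL⟩ := hZT z hz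
      obtain ⟨hzH', hzx', hzL'⟩ := hZT z' hz'
      exact hov z z' hzL hzL' (h.good.ed_inj H hH z hzH z' hzH' hne)
        (h.good.nd_disj H hH z hzH z' hzH' hne))
  have hZm : Z.card ≤ m := by
    refine le_trans (Finset.card_le_card ?_) (h.good.card_le H hH)
    intro z hz
    exact (hZT z hz).1
  have hVm : (insert x Zh).card ≤ 1 + s * m := by
    have := Finset.card_insert_le x Zh
    omega
  have hG' : (Z.card + (insert x Zh).card) * (7 * Γ + 6) ≤ (m + 1 + s * m) * (7 * Γ + 6) := by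
    apply Nat.mul_le_mul_right
    omega
  rw [hDp, hCp]
  have step1 : (1 - θ / (a : ℝ)) ^ ((Z.biUnion (nbh S st) \ nbh S st x).image pick \ C₀).card ≤
      ∏ z ∈ Z, (1 - θ / (a : ℝ)) ^ ((nbh S st z).card - (Z.card + (insert x Zh).card) * (7 * Γ + 6)) := by
    rw [Finset.prod_pow_eq_pow_sum]
    exact pow_le_pow_of_le_one hq0 hq1 (hcard2.trans hcard1)
  have step2 : (∏ z ∈ Z, (1 - θ / (a : ℝ)) ^ (B - (conf S st z).card)) *
      ∏ z ∈ Z, (1 - θ / (a : ℝ)) ^ ((nbh S st z).card - (Z.card + (insert x Zh).card) * (7 * Γ + 6)) ≤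
      ((1 - θ / (a : ℝ)) ^ (a + B - (m + 1 + s * m) * (7 * Γ + 6))) ^ Z.card := by
    rw [← Finset.prod_mul_distrib, ← Finset.prod_const]
    apply Finset.prod_le_prod
    · intro z _
      positivity
    · intro z hz
      rw [← pow_add]
      apply pow_le_pow_of_le_one hq0 hq1
      have e1 := nbh_card h z (hZT z hz).2.2
      have e2 := conf_card_le h z (hZT z hz).2.2
      omega
  have n1 : 0 ≤ ∏ z ∈ Z, (1 - θ / (a : ℝ)) ^ (B - (conf S st z).card) :=
    Finset.prod_nonneg (fun z _ => pow_nonneg hq0 _)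
  have n2 : 0 ≤ (θ / (a : ℝ)) ^ P.card := pow_nonneg hπ.1 _
  calc (θ / (a : ℝ)) ^ P.card * (∏ z ∈ Z, (1 - θ / (a : ℝ)) ^ (B - (conf S st z).card)) *
      (1 - θ / (a : ℝ)) ^ ((Z.biUnion (nbh S st) \ nbh S st x).image pick \ C₀).card
      = (θ / (a : ℝ)) ^ P.card * ((∏ z ∈ Z, (1 - θ / (a : ℝ)) ^ (B - (conf S st z).card)) *
      (1 - θ / (a : ℝ)) ^ ((Z.biUnion (nbh S st) \ nbh S st x).image pick \ C₀).card) := by ring
    _ ≤ (θ / (a : ℝ)) ^ P.card * ((∏ z ∈ Z, (1 - θ / (a : ℝ)) ^ (B - (conf S st z).card)) *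
      ∏ z ∈ Z, (1 - θ / (a : ℝ)) ^ ((nbh S st z).card - (Z.card + (insert x Zh).card) * (7 * Γ + 6))) :=
        mul_le_mul_of_nonneg_left (mul_le_mul_of_nonneg_left step1 n1) n2
    _ ≤ _ := mul_le_mul_of_nonneg_left step2 n2

theorem wgtgen_sumP (T : Finset X) (k : ℕ) (hk : T.card ≤ k) (a a' : ℕ) (ha : 0 < a) (ha' : 0 < a')
    (θ q g g' : ℝ) (hθ : 0 ≤ θ) (hq : 0 ≤ q) (hg1 : 1 ≤ g') (hgg : g' ≤ g)
    (hg : g' * (θ + (a / a' : ℝ) * q) ≤ g) :
    ∑ P ∈ T.powerset, g' ^ k / (a' : ℝ) ^ (T \ P).card * ((θ / a) ^ P.card * q ^ (T \ P).card) ≤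
      g ^ k / (a : ℝ) ^ T.card := by
  have haR : (0 : ℝ) < a := by exact_mod_cast ha
  have haR' : (0 : ℝ) < a' := by exact_mod_cast ha'
  have e : ∑ P ∈ T.powerset, g' ^ k / (a' : ℝ) ^ (T \ P).card * ((θ / a) ^ P.card * q ^ (T \ P).card) =
      g' ^ k * (θ / a + q / a') ^ T.card := by
    rw [← Finset.sum_pow_mul_eq_add_pow, Finset.mul_sum]
    refine Finset.sum_congr rfl (fun P hP => ?_)
    rw [Finset.mem_powerset] at hP
    rw [Finset.card_sdiff_of_subset hP, div_pow q]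
    field_simp
  rw [e]
  have e2 : θ / a + q / a' = (θ + (a / a' : ℝ) * q) / a := by
    field_simp
  rw [e2, div_pow, ← mul_div_assoc]
  apply div_le_div_of_nonneg_right _ (by positivity)
  obtain ⟨j, rfl⟩ := Nat.exists_eq_add_of_le hk
  have hu : 0 ≤ θ + (a / a' : ℝ) * q := by positivity
  have hg0 : 0 ≤ g' := by linarith
  calc g' ^ (T.card + j) * (θ + (a / a' : ℝ) * q) ^ T.card
      = (g' * (θ + (a / a' : ℝ) * q)) ^ T.card * g' ^ j := by rw [pow_add, mul_pow]; ring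
    _ ≤ g ^ T.card * g ^ j := by
        apply mul_le_mul
        · exact pow_le_pow_left₀ (by positivity) hg _
        · exact pow_le_pow_left₀ hg0 hgg _
        · positivity
        · have : 0 ≤ g := hg0.trans hgg
          positivity
    _ = g ^ (T.card + j) := by rw [pow_add]

theorem wS_gen (h : Hyp S st K a B Γ m ρ w g θ δ) (x : X) (hx : x ∈ st.L) (g' : ℝ) (a' s : ℕ)
    (hg1 : 1 ≤ g') (hgg : g' ≤ g) (ha' : 0 < a')
    (hg : g' * (θ + (a / a' : ℝ) *
      (1 - θ / a) ^ (a + B - (m + 1 + s * m) * (7 * Γ + 6))) ≤ g)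
    (hh : Finset (wS S st g' a' x).ι) (hcard : hh.card ≤ s)
    (hw : ∀ i ∈ hh, (wS S st g' a' x).w i ≠ 0) :
    ∑ i ∈ univ.filter (fun i : Finset X × Finset X =>
        Gnr S st x (hh.biUnion (wS S st g' a' x).D) i.1),
      (wS S st g' a' x).w i * cnd (pr S st a B θ δ) (hh.biUnion (wS S st g' a' x).D)
        (hh.biUnion (wS S st g' a' x).C) ((wS S st g' a' x).D i) ((wS S st g' a' x).C i) ≤ w := by
  have hπ : 0 ≤ θ / (a : ℝ) ∧ θ / (a : ℝ) ≤ 1 := by
    have := pr_mem h (pick x)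
    rwa [wgtgen_pr_pick] at this
  have hq0 : 0 ≤ 1 - θ / (a : ℝ) := by linarith [hπ.2]
  have hg'0 : 0 ≤ g' := by linarith
  set q : ℝ := (1 - θ / a) ^ (a + B - (m + 1 + s * m) * (7 * Γ + 6)) with hq
  have hqn : 0 ≤ q := pow_nonneg hq0 _
  set D₀ := hh.biUnion (wS S st g' a' x).D with hD₀
  set C₀ := hh.biUnion (wS S st g' a' x).C with hC₀
  -- the condition of a nonzero weight
  have hcond : ∀ i : Finset X × Finset X, (wS S st g' a' x).w i ≠ 0 →
      i.1 ∈ S.C ∧ x ∈ i.1 ∧ i.1.erase x ⊆ st.R ∪ st.L ∧ i.2 ⊆ i.1.erase x ∩ st.L ∧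
        i.2 ≠ i.1.erase x ∩ st.L ∧ Disjoint i.2 (nbh S st x) := by
    intro i hi
    by_contra hc
    apply hi
    show (if i.1 ∈ S.C ∧ x ∈ i.1 ∧ i.1.erase x ⊆ st.R ∪ st.L ∧ i.2 ⊆ i.1.erase x ∩ st.L ∧
      i.2 ≠ i.1.erase x ∩ st.L ∧ Disjoint i.2 (nbh S st x) then
      |g'| ^ (i.1.card - 1) / (a' : ℝ) ^ ((i.1.erase x ∩ st.L) \ i.2).card else 0) = 0
    rw [if_neg hc]
  -- history survivors
  set Zh : Finset X := hh.biUnion (fun i : Finset X × Finset X => (i.1.erase x ∩ st.L) \ i.2) with hZh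
  have hZm : ∀ z, z ∈ Zh ↔ ∃ i ∈ hh, z ∈ (i.1.erase x ∩ st.L) \ i.2 :=
    fun z => Finset.mem_biUnion
  have hZcard : Zh.card ≤ s * m := by
    refine (Finset.card_biUnion_le).trans ((Finset.sum_le_card_nsmul hh _ m ?_).trans ?_)
    · intro i hi
      obtain ⟨hiC, -⟩ := hcond i (hw i hi)
      refine le_trans (Finset.card_le_card ?_) (h.good.card_le i.1 hiC)
      intro z hz
      rw [Finset.mem_sdiff, Finset.mem_inter, Finset.mem_erase] at hz
      exact hz.1.1.2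
    · rw [smul_eq_mul]
      exact Nat.mul_le_mul_right _ hcard
  have hZL : ∀ z ∈ Zh, z ∈ st.L := by
    intro z hz
    rw [hZm] at hz
    obtain ⟨i, _, hz⟩ := hz
    rw [Finset.mem_sdiff, Finset.mem_inter] at hz
    exact hz.1.2
  have hZD : ∀ z ∈ Zh, coin z ∈ D₀ := by
    intro z hz
    rw [hZm] at hz
    obtain ⟨i, hi, hz⟩ := hz
    rw [hD₀, Finset.mem_biUnion]
    refine ⟨i, hi, ?_⟩
    show coin z ∈ i.2.image pick ∪ ((i.1.erase x ∩ st.L) \ i.2).image coin
    exact Finset.mem_union_right _ (Finset.mem_image_of_mem _ hz)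
  have hC₀' : ∀ u ∈ C₀, ∃ y, u = pick y ∧ ∃ z ∈ Zh, y ∈ nbh S st z := by
    intro u hu
    rw [hC₀, Finset.mem_biUnion] at hu
    obtain ⟨i, hi, hu⟩ := hu
    have hu' : u ∈ (((i.1.erase x ∩ st.L) \ i.2).biUnion (nbh S st) \ nbh S st x).image pick := hu
    rw [Finset.mem_image] at hu'
    obtain ⟨y, hy, rfl⟩ := hu'
    rw [Finset.mem_sdiff, Finset.mem_biUnion] at hy
    obtain ⟨⟨z, hz, hyz⟩, _⟩ := hy
    refine ⟨y, rfl, z, ?_, hyz⟩
    rw [hZm]
    exact ⟨i, hi, hz⟩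
  -- the bound for one index
  have key : ∀ i ∈ univ.filter (fun i : Finset X × Finset X => Gnr S st x D₀ i.1),
      (wS S st g' a' x).w i * cnd (pr S st a B θ δ) D₀ C₀ ((wS S st g' a' x).D i)
        ((wS S st g' a' x).C i) ≤
      if (i.1 ∈ S.C ∧ x ∈ i.1 ∧ i.1.erase x ⊆ st.R ∪ st.L) ∧ i.2 ⊆ i.1.erase x ∩ st.L then
        g' ^ (i.1.card - 1) / (a' : ℝ) ^ ((i.1.erase x ∩ st.L) \ i.2).card *
          ((θ / a) ^ i.2.card * q ^ ((i.1.erase x ∩ st.L) \ i.2).card) else 0 := by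
    intro i hi
    rw [Finset.mem_filter] at hi
    by_cases h0 : (wS S st g' a' x).w i = 0
    · rw [h0, zero_mul]
      split_ifs
      · have := hπ.1
        positivity
      · exact le_rfl
    · have hc := hcond i h0
      have hc1 : (i.1 ∈ S.C ∧ x ∈ i.1 ∧ i.1.erase x ⊆ st.R ∪ st.L) ∧ i.2 ⊆ i.1.erase x ∩ st.L :=
        ⟨⟨hc.1, hc.2.1, hc.2.2.1⟩, hc.2.2.2.1⟩
      rw [if_pos hc1]
      have ew : (wS S st g' a' x).w i =
          g' ^ (i.1.card - 1) / (a' : ℝ) ^ ((i.1.erase x ∩ st.L) \ i.2).card := by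
        show (if i.1 ∈ S.C ∧ x ∈ i.1 ∧ i.1.erase x ⊆ st.R ∪ st.L ∧ i.2 ⊆ i.1.erase x ∩ st.L ∧
          i.2 ≠ i.1.erase x ∩ st.L ∧ Disjoint i.2 (nbh S st x) then
          |g'| ^ (i.1.card - 1) / (a' : ℝ) ^ ((i.1.erase x ∩ st.L) \ i.2).card else 0) = _
        rw [if_pos hc, abs_of_nonneg hg'0]
      rw [ew]
      apply mul_le_mul_of_nonneg_left _ (by positivity)
      exact wgtgen_cnd h x hx s D₀ C₀ Zh hZcard hZL hZD hC₀' i.1 i.2 hc.1 hc.2.1 hc.2.2.2.1 hi.2
  have nonn : ∀ i : Finset X × Finset X, 0 ≤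
      (if (i.1 ∈ S.C ∧ x ∈ i.1 ∧ i.1.erase x ⊆ st.R ∪ st.L) ∧ i.2 ⊆ i.1.erase x ∩ st.L then
        g' ^ (i.1.card - 1) / (a' : ℝ) ^ ((i.1.erase x ∩ st.L) \ i.2).card *
          ((θ / a) ^ i.2.card * q ^ ((i.1.erase x ∩ st.L) \ i.2).card) else 0) := by
    intro i
    split_ifs
    · have := hπ.1
      positivity
    · exact le_rfl
  refine (Finset.sum_le_sum key).trans ?_
  refine (Finset.sum_le_univ_sum_of_nonneg nonn).trans ?_
  rw [Fintype.sum_prod_type]
  refine le_trans ?_ (h.inv.weight x hx)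
  unfold wgt
  rw [Finset.sum_filter, ← Finset.sum_filter_add_sum_filter_not (univ : Finset (Finset X))
    (fun H => H ∈ S.C)]
  have e2 : ∑ H ∈ univ.filter (fun H => ¬ H ∈ S.C), ∑ P : Finset X,
      (if ((H, P).1 ∈ S.C ∧ x ∈ (H, P).1 ∧ (H, P).1.erase x ⊆ st.R ∪ st.L) ∧
        (H, P).2 ⊆ (H, P).1.erase x ∩ st.L then
        g' ^ ((H, P).1.card - 1) / (a' : ℝ) ^ (((H, P).1.erase x ∩ st.L) \ (H, P).2).card *
          ((θ / a) ^ (H, P).2.card * q ^ (((H, P).1.erase x ∩ st.L) \ (H, P).2).card) else 0) = 0 := by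
    refine Finset.sum_eq_zero (fun H hH => Finset.sum_eq_zero (fun P _ => ?_))
    rw [Finset.mem_filter] at hH
    rw [if_neg (fun hc => hH.2 hc.1.1)]
  rw [e2, add_zero, Finset.filter_mem_eq_inter, Finset.univ_inter]
  refine Finset.sum_le_sum (fun H hH => ?_)
  by_cases hc : x ∈ H ∧ H.erase x ⊆ st.R ∪ st.L
  · rw [if_pos hc]
    have e3 : ∑ P : Finset X,
      (if ((H, P).1 ∈ S.C ∧ x ∈ (H, P).1 ∧ (H, P).1.erase x ⊆ st.R ∪ st.L) ∧
        (H, P).2 ⊆ (H, P).1.erase x ∩ st.L then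
        g' ^ ((H, P).1.card - 1) / (a' : ℝ) ^ (((H, P).1.erase x ∩ st.L) \ (H, P).2).card *
          ((θ / a) ^ (H, P).2.card * q ^ (((H, P).1.erase x ∩ st.L) \ (H, P).2).card) else 0) =
      ∑ P ∈ (H.erase x ∩ st.L).powerset,
        g' ^ (H.card - 1) / (a' : ℝ) ^ ((H.erase x ∩ st.L) \ P).card *
          ((θ / a) ^ P.card * q ^ ((H.erase x ∩ st.L) \ P).card) := by
      rw [← Finset.sum_filter]
      refine Finset.sum_congr ?_ (fun P _ => rfl)
      ext P
      simp [hH, hc.1, hc.2, Finset.mem_powerset]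
    rw [e3]
    refine wgtgen_sumP (H.erase x ∩ st.L) (H.card - 1) ?_ a a' h.a0 ha' θ q g g' h.θ0.le hqn hg1 hgg hg
    rw [← Finset.card_erase_of_mem hc.1]
    exact Finset.card_le_card Finset.inter_subset_left
  · rw [if_neg hc]
    apply le_of_eq
    refine Finset.sum_eq_zero (fun P _ => ?_)
    rw [if_neg (fun hc' => hc ⟨hc'.1.2.1, hc'.1.2.2⟩)]

end Pool.Agent.H77.AC
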