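import Pool.Agent.H77.AC.PathSum

/-!
# AC-Z1USE: colours joining `p, q` through history picks

`c` a colour, `b ∉ Col D₀`, `b ≠ c`, and `p, q` are joined by a path in `Qs` through at least one
history pick, with colours `b, c, b, ...` (length `n ≥ 1`) or `c, b, c, ...` (length `n ≥ 2`), `n ≤ r₀`. Since
`b ∉ Col D₀`, every step of colour `b` is in `R` and all live steps (history picks) have colour `c`. Let `Sp` be
the set of *special* vertices: `p`, `q` and the ends of the pairs `x` with `pick x ∈ D₀`; `|Sp| ≤ 2 M + 2`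
(`|D₀| ≤ M`; an unordered pair has at most two members). The path has a step of colour `b`. Take a maximal run of consecutive
steps `i, ..., j` in `R` containing it: its end vertices `v i`, `v (j+1)` are special and different, and the
subpath is an alternating path in `R` of length `j - i + 1 ≤ r₀`, starting with `b`, or starting with `c` and of
length at least `2` (it contains a step of colour `b`). So `b ∈ Z1 R r₀ (v i) (v (j+1)) c`. Hence all these
`b` lie in the union of the sets `Z1 R r₀ z z' c`, `z ≠ z' ∈ Sp`, of size at most `(2 M + 2)² Γ`.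

(The subpath: `v' k = v (i + k)`, `k ∈ Fin (j - i + 2)`; its colours start with the colour of the step `i`. A convenient way to
choose the run: the set of `i' ≤ t` such that all steps in `[i', t]` are in `R`, minimal element, and similarly to
the right, where `t` is a step of colour `b`.)
-/

set_option autoImplicit false

open Finset
open scoped Classical

namespace Pool.Agent.H77.AC

variable {V : Type} [Fintype V] [DecidableEq V] {K : ℕ}
variable {G : SimpleGraph V} {n₀ : ℕ} {st : St (PX V K) (Sym2 V)} {a B Γ m : ℕ}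
  {ρ w g θ δ : ℝ}

theorem z1use_run (Q : ℕ → Prop) (n t : ℕ) (ht : t < n) (hQ : Q t) :
    ∃ i j, i ≤ t ∧ t ≤ j ∧ j < n ∧ (∀ k, i ≤ k → k ≤ j → Q k) ∧ (i = 0 ∨ ¬ Q (i - 1)) ∧
      (j + 1 = n ∨ ¬ Q (j + 1)) := by
  have h1 : ∃ i, i ≤ t ∧ ∀ k, i ≤ k → k ≤ t → Q k := ⟨t, le_rfl, fun k a b => by
    rw [le_antisymm b a]
    exact hQ⟩
  have h2 : ∃ j, t < j ∧ (j = n ∨ ¬ Q j) := ⟨n, ht, Or.inl rfl⟩
  obtain ⟨a1, a2⟩ := Nat.find_spec h1
  obtain ⟨b1, b2⟩ := Nat.find_spec h2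
  have b3 : Nat.find h2 ≤ n := Nat.find_min' h2 ⟨ht, Or.inl rfl⟩
  refine ⟨Nat.find h1, Nat.find h2 - 1, a1, by omega, by omega, ?_, ?_, ?_⟩
  · intro k hk1 hk2
    rcases le_or_gt k t with h | h
    · exact a2 k hk1 h
    · have h3 := Nat.find_min h2 (m := k) (by omega)
      by_contra hc
      exact h3 ⟨h, Or.inr hc⟩
  · by_cases h0 : Nat.find h1 = 0
    · exact Or.inl h0
    · right
      intro hc
      have h3 := Nat.find_min h1 (m := Nat.find h1 - 1) (by omega)
      apply h3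
      refine ⟨by omega, fun k hk1 hk2 => ?_⟩
      rcases Nat.eq_or_lt_of_le hk1 with h | h
      · rw [← h]
        exact hc
      · exact a2 k (by omega) hk2
  · have e : Nat.find h2 - 1 + 1 = Nat.find h2 := by omega
    rw [e]
    exact b2

/-- colour of the step `k` -/
def z1uCol (c1 c2 : Fin K) (k : ℕ) : Fin K := if k % 2 = 0 then c1 else c2

/-- the special vertices -/
noncomputable def z1uSp (D₀ : Finset (Fin 3 × PX V K)) (p q : V) : Finset V :=
  {p, q} ∪ D₀.biUnion (fun i => univ.filter (fun u => u ∈ i.2.1))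

theorem z1use_sp_card (D₀ : Finset (Fin 3 × PX V K)) (p q : V) {M : ℕ} (hM : D₀.card ≤ M) :
    (z1uSp D₀ p q).card ≤ 2 * M + 2 := by
  unfold z1uSp
  refine (card_union_le _ _).trans ?_
  have h1 : ({p, q} : Finset V).card ≤ 2 := card_le_two
  have h2 : (D₀.biUnion (fun i => univ.filter (fun u => u ∈ i.2.1))).card ≤ D₀.card * 2 := by
    apply card_biUnion_le_card_mul
    intro i _
    obtain ⟨e, he⟩ : ∃ e, e = i.2.1 := ⟨_, rfl⟩
    rw [← he]
    induction e using Sym2.ind with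
    | _ x y =>
      refine (card_le_card (t := {x, y}) ?_).trans card_le_two
      intro u hu
      rw [mem_filter] at hu
      rw [mem_insert, mem_singleton]
      exact Sym2.mem_iff.1 hu.2
  omega

theorem z1use_special {D₀ : Finset (Fin 3 × PX V K)} {n : ℕ} (v : Fin (n + 1) → V)
    (c1 c2 : Fin K) (p q : V) (hQs : ∀ i, pstep v c1 c2 i ∈ Qs st D₀) (k : ℕ) (hk : k < n)
    (hR : pstep v c1 c2 ⟨k, hk⟩ ∉ st.R) :
    v ⟨k, by omega⟩ ∈ z1uSp D₀ p q ∧ v ⟨k + 1, by omega⟩ ∈ z1uSp D₀ p q := by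
  have h1 := hQs ⟨k, hk⟩
  unfold Qs at h1
  rw [mem_union, mem_filter] at h1
  rcases h1 with h1 | h1
  · exact absurd h1 hR
  · have h2 : ∀ u, u ∈ s(v ⟨k, by omega⟩, v ⟨k + 1, by omega⟩) → u ∈ z1uSp D₀ p q := by
      intro u hu
      unfold z1uSp
      rw [mem_union]
      right
      rw [mem_biUnion]
      refine ⟨_, h1.2, ?_⟩
      rw [mem_filter]
      exact ⟨mem_univ _, hu⟩
    exact ⟨h2 _ (Sym2.mem_mk_left _ _), h2 _ (Sym2.mem_mk_right _ _)⟩

theorem z1use_key {D₀ : Finset (Fin 3 × PX V K)} {n r₀ : ℕ} {p q : V} (v : Fin (n + 1) → V)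
    (hv : Function.Injective v) (hp : v 0 = p) (hq : v (Fin.last n) = q) (c1 c2 : Fin K)
    (hQs : ∀ i, pstep v c1 c2 i ∈ Qs st D₀) (b c : Fin K) (hbc : b ≠ c) (hb : b ∉ Col D₀)
    (hn : n ≤ r₀) (t : ℕ) (ht : t < n) (hcol : z1uCol c1 c2 t = b)
    (hcc : (c1 = b ∧ c2 = c) ∨ (c1 = c ∧ c2 = b)) :
    ∃ z ∈ z1uSp D₀ p q, ∃ z' ∈ z1uSp D₀ p q, z ≠ z' ∧ b ∈ Z1 st.R r₀ z z' c := by
  have htR : pstep v c1 c2 ⟨t, ht⟩ ∈ st.R := by
    have h1 := hQs ⟨t, ht⟩
    unfold Qs at h1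
    rw [mem_union, mem_filter] at h1
    rcases h1 with h1 | h1
    · exact h1
    · exfalso
      apply hb
      unfold Col
      rw [mem_image]
      exact ⟨_, h1.2, hcol⟩
  obtain ⟨i, j, hit, htj, hjn, hall, hi, hj⟩ := z1use_run
    (fun k => ∃ h : k < n, pstep v c1 c2 ⟨k, h⟩ ∈ st.R) n t ht ⟨ht, htR⟩
  have hz : v ⟨i, by omega⟩ ∈ z1uSp D₀ p q := by
    rcases Nat.eq_zero_or_pos i with h0 | h0
    · subst h0
      have e : v ⟨0, by omega⟩ = p := hp
      rw [e]
      unfold z1uSp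
      rw [mem_union, mem_insert]
      exact Or.inl (Or.inl rfl)
    · have h1 : ¬ ∃ h : i - 1 < n, pstep v c1 c2 ⟨i - 1, h⟩ ∈ st.R := by
        rcases hi with h | h
        · omega
        · exact h
      have h2 : i - 1 < n := by omega
      have h3 := (z1use_special (st := st) v c1 c2 p q hQs (i - 1) h2 (fun hc => h1 ⟨h2, hc⟩)).2
      have e : (⟨i - 1 + 1, by omega⟩ : Fin (n + 1)) = ⟨i, by omega⟩ := by
        apply Fin.ext
        show i - 1 + 1 = i
        omega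
      rw [e] at h3
      exact h3
  have hz' : v ⟨j + 1, by omega⟩ ∈ z1uSp D₀ p q := by
    by_cases h0 : j + 1 = n
    · have e : (⟨j + 1, by omega⟩ : Fin (n + 1)) = Fin.last n := Fin.ext h0
      rw [e, hq]
      unfold z1uSp
      rw [mem_union, mem_insert, mem_singleton]
      exact Or.inl (Or.inr rfl)
    · have h1 : ¬ ∃ h : j + 1 < n, pstep v c1 c2 ⟨j + 1, h⟩ ∈ st.R := by
        rcases hj with h | h
        · exact absurd h h0
        · exact h
      have h2 : j + 1 < n := by omega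
      exact (z1use_special (st := st) v c1 c2 p q hQs (j + 1) h2 (fun hc => h1 ⟨h2, hc⟩)).1
  have hne : v ⟨i, by omega⟩ ≠ v ⟨j + 1, by omega⟩ := by
    intro hc
    have h1 := Fin.mk.inj_iff.1 (hv hc)
    omega
  have hJ : Joined st.R (j - i + 1) (z1uCol c1 c2 i) (z1uCol c1 c2 (i + 1)) (v ⟨i, by omega⟩)
      (v ⟨j + 1, by omega⟩) := by
    refine ⟨fun k => v ⟨i + k, by have := k.2; omega⟩, ?_, ?_, ?_, ?_⟩
    · intro k k' hkk
      have h1 := Fin.mk.inj_iff.1 (hv hkk)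
      apply Fin.ext
      omega
    · rfl
    · show v ⟨i + (j - i + 1), _⟩ = v ⟨j + 1, _⟩
      congr 1
      apply Fin.ext
      show i + (j - i + 1) = j + 1
      omega
    · intro k
      have hk := k.2
      obtain ⟨h1, h2⟩ := hall (i + k) (by omega) (by omega)
      have e : pstep (fun k : Fin (j - i + 1 + 1) => v ⟨i + k, by have := k.2; omega⟩)
          (z1uCol c1 c2 i) (z1uCol c1 c2 (i + 1)) k = pstep v c1 c2 ⟨i + k, h1⟩ := by
        unfold pstep
        refine Prod.ext ?_ ?_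
        · rfl
        · show (if (k : ℕ) % 2 = 0 then z1uCol c1 c2 i else z1uCol c1 c2 (i + 1)) =
            (if (i + (k : ℕ)) % 2 = 0 then c1 else c2)
          unfold z1uCol
          rcases Nat.mod_two_eq_zero_or_one (k : ℕ) with hk2 | hk2 <;>
            rcases Nat.mod_two_eq_zero_or_one i with hi2 | hi2
          · rw [if_pos hk2, if_pos hi2, if_pos (by omega)]
          · rw [if_pos hk2, if_neg (by omega), if_neg (by omega)]
          · rw [if_neg (by omega), if_neg (by omega), if_neg (by omega)]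
          · rw [if_neg (by omega), if_pos (by omega), if_pos (by omega)]
      rw [e]
      exact h2
  refine ⟨_, hz, _, hz', hne, ?_⟩
  unfold Z1
  rw [mem_filter]
  refine ⟨mem_univ _, hbc, j - i + 1, by omega, by omega, ?_⟩
  have hcase : (z1uCol c1 c2 i = b ∧ z1uCol c1 c2 (i + 1) = c) ∨
      (z1uCol c1 c2 i = c ∧ z1uCol c1 c2 (i + 1) = b) := by
    unfold z1uCol
    rcases Nat.mod_two_eq_zero_or_one i with hi2 | hi2
    · rw [if_pos hi2, if_neg (by omega)]
      exact hcc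
    · rw [if_neg (by omega), if_pos (by omega)]
      rcases hcc with ⟨h1, h2⟩ | ⟨h1, h2⟩
      · exact Or.inr ⟨h2, h1⟩
      · exact Or.inl ⟨h2, h1⟩
  rcases hcase with ⟨h1, h2⟩ | ⟨h1, h2⟩
  · left
    rw [h1, h2] at hJ
    exact hJ
  · right
    rw [h1, h2] at hJ
    refine ⟨?_, hJ⟩
    by_contra hc
    have h3 : t = i := by omega
    rw [h3] at hcol
    exact hbc (hcol.symm.trans h1)

theorem z1use (h : Hyp (gS G K n₀) st K a B Γ m ρ w g θ δ) {M : ℕ}
    {D₀ C₀ : Finset (Fin 3 × PX V K)} (hH : Hist (gS G K n₀) st D₀ C₀ M) (r₀ : ℕ)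
    (hz : ∀ p q c, p ≠ q → (Z1 st.R r₀ p q c).card ≤ Γ) (p q : V) (hpq : p ≠ q) (c : Fin K) :
    (univ.filter (fun b : Fin K => b ≠ c ∧ b ∉ Col D₀ ∧ ∃ n, 1 ≤ n ∧ n ≤ r₀ ∧
      (HJ st D₀ n b c p q ∨ (2 ≤ n ∧ HJ st D₀ n c b p q)))).card ≤ (2 * M + 2) ^ 2 * Γ := by
  set Sp := z1uSp D₀ p q with hSp
  have hsub : (univ.filter (fun b : Fin K => b ≠ c ∧ b ∉ Col D₀ ∧ ∃ n, 1 ≤ n ∧ n ≤ r₀ ∧
      (HJ st D₀ n b c p q ∨ (2 ≤ n ∧ HJ st D₀ n c b p q)))) ⊆
      ((Sp ×ˢ Sp).filter (fun P => P.1 ≠ P.2)).biUnion (fun P => Z1 st.R r₀ P.1 P.2 c) := by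
    intro b hb
    rw [mem_filter] at hb
    obtain ⟨-, hbc, hbD, n, hn1, hn2, hJ⟩ := hb
    have key : ∃ z ∈ Sp, ∃ z' ∈ Sp, z ≠ z' ∧ b ∈ Z1 st.R r₀ z z' c := by
      rcases hJ with ⟨v, hv, hvp, hvq, hQ, -⟩ | ⟨hn3, v, hv, hvp, hvq, hQ, -⟩
      · exact z1use_key v hv hvp hvq b c hQ b c hbc hbD hn2 0 (by omega) rfl (Or.inl ⟨rfl, rfl⟩)
      · exact z1use_key v hv hvp hvq c b hQ b c hbc hbD hn2 1 (by omega) rfl (Or.inr ⟨rfl, rfl⟩)
    obtain ⟨z, hz, z', hz', hne, hb⟩ := key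
    rw [mem_biUnion]
    refine ⟨(z, z'), ?_, hb⟩
    rw [mem_filter, mem_product]
    exact ⟨⟨hz, hz'⟩, hne⟩
  refine (card_le_card hsub).trans ?_
  have h1 : (((Sp ×ˢ Sp).filter (fun P => P.1 ≠ P.2)).biUnion
      (fun P => Z1 st.R r₀ P.1 P.2 c)).card ≤ ((Sp ×ˢ Sp).filter (fun P => P.1 ≠ P.2)).card * Γ := by
    apply card_biUnion_le_card_mul
    intro P hP
    rw [mem_filter] at hP
    exact hz P.1 P.2 c hP.2
  refine h1.trans (Nat.mul_le_mul_right Γ ?_)
  refine (card_le_card (filter_subset _ _)).trans ?_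
  rw [card_product, pow_two]
  have h2 := z1use_sp_card D₀ p q hH.card
  exact Nat.mul_le_mul h2 h2

end Pool.Agent.H77.AC
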